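import Pool.Agent.Helper73.SEM.LWD

/-!
# SEM-LW1: the base random labelling of a piece (Markov chain along the tree)

Proof in words.  Sample the labels of the vertices of `Q` in increasing order, `φ v` with law `k (φ (p v)) ·` (given the labels so far;
`φ = lab` on `R`).  Formally: induction on `Q` (remove the largest vertex `v`; it is not the parent of another vertex of `Q`); if `L'` is the
law for `Q \ {v}`, take `Ω = L'.Ω × {y // y ∈ X}`, `wt (ω,y) = wt' ω * k (Φ' ω (p v)) y`, `Φ (ω,y) = Function.update (Φ' ω) v y`.  Then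
`Ex F = Ex' (fun φ => ∑_{y ∈ X} k (φ (p v)) y * F (update φ v y))` and everything is proved by induction (first WITHOUT the exit):
* total mass 1 (`Ker.one`, labels of `Q` are in `X`, labels of `R` in `Cl`), validity (`Ker.supp`);
* `Pr (φ v = x) ≤ (1+t)/(1-t) π x`: if `p v ∈ R` then it is `k c x ≤ (1+t)/n ≤ (1+t)/(1-t) π x`; else
  `∑_{x'} Pr (φ (p v) = x') k x' x ≤ (1+t)/(1-t) ∑ π x' k x' x = (1+t)/(1-t) π x` (`rev`, `one`);
* `Pr (φ v + φ (p v) = s) ≤ (1+t)²/((1-t) n)`: `p v ∈ R`: `k c (s-c)`; else `∑_{x'} Pr(φ (p v)=x') k x' (s-x') ≤ (1+t)/(1-t) ∑ π x' k x' (s-x')` (`dia`);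
* joint `≤ (3/n)^|A|` (`Ker.up`): if the new vertex is in `A` one more factor `k ≤ 3/n`.
EXIT: if `ex = {r}`: let `E` be the event `lab r + φ (p r) ∈ S`.  The labels `x ∈ X` with `lab r + x ∉ S` number at most `(t n + 3) + t n`
(`|lab r - n/2| ≤ t n`), so `Pr (not E) ≤ (2t + 3/n)(1 + 4t) ≤ 2.2 t` (use `100 ≤ t * n`); condition on `E` (multiply the weights by
`1_E / Pr E`): all probabilities are multiplied by at most `1/(1-2.2t)`, and `Pr (lab r + φ (p r) = s) ≤ ...`
is a label probability.
-/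

set_option autoImplicit false

namespace Pool.Agent.SEM

open Finset

section lw1

theorem FL.Ex_mono38 (L : FL) (hn : ∀ ω, 0 ≤ L.wt ω) {F G : (ℕ → ℕ) → ℝ}
    (h : ∀ ω, L.wt ω ≠ 0 → F (L.Φ ω) ≤ G (L.Φ ω)) : L.Ex F ≤ L.Ex G := by
  unfold FL.Ex
  refine Finset.sum_le_sum fun ω _ => ?_
  rcases eq_or_ne (L.wt ω) 0 with h0 | h0
  · rw [h0, zero_mul, zero_mul]
  · exact mul_le_mul_of_nonneg_left (h ω h0) (hn ω)

theorem FL.Ex_congr38 (L : FL) {F G : (ℕ → ℕ) → ℝ}
    (h : ∀ ω, L.wt ω ≠ 0 → F (L.Φ ω) = G (L.Φ ω)) : L.Ex F = L.Ex G := by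
  unfold FL.Ex
  refine Finset.sum_congr rfl fun ω _ => ?_
  rcases eq_or_ne (L.wt ω) 0 with h0 | h0
  · rw [h0, zero_mul, zero_mul]
  · rw [h ω h0]

theorem FL.Ex_mul38 (L : FL) (c : ℝ) (F : (ℕ → ℕ) → ℝ) : L.Ex (fun φ => F φ * c) = L.Ex F * c := by
  unfold FL.Ex
  rw [Finset.sum_mul]
  exact Finset.sum_congr rfl fun ω _ => by ring

theorem FL.Ex_sum38 (L : FL) {ι : Type*} (s : Finset ι) (F : ι → (ℕ → ℕ) → ℝ) :
    L.Ex (fun φ => ∑ i ∈ s, F i φ) = ∑ i ∈ s, L.Ex (F i) := by
  unfold FL.Ex
  rw [Finset.sum_comm]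
  exact Finset.sum_congr rfl fun ω _ => by rw [Finset.mul_sum]

theorem FL.Ex_add38 (L : FL) (F G : (ℕ → ℕ) → ℝ) :
    L.Ex (fun φ => F φ + G φ) = L.Ex F + L.Ex G := by
  unfold FL.Ex
  rw [← Finset.sum_add_distrib]
  exact Finset.sum_congr rfl fun ω _ => by ring

theorem FL.Ex_nonneg38 (L : FL) (hn : ∀ ω, 0 ≤ L.wt ω) {F : (ℕ → ℕ) → ℝ} (h : ∀ φ, 0 ≤ F φ) : 0 ≤ L.Ex F := by
  unfold FL.Ex
  exact Finset.sum_nonneg fun ω _ => mul_nonneg (hn ω) (h _)

theorem FL.Pr_nonneg38 (L : FL) (hn : ∀ ω, 0 ≤ L.wt ω) (P : (ℕ → ℕ) → Prop) : 0 ≤ L.Pr P := by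
  unfold FL.Pr
  refine L.Ex_nonneg38 hn fun φ => ?_
  split_ifs <;> norm_num

theorem FL.Pr_mono38 (L : FL) (hn : ∀ ω, 0 ≤ L.wt ω) {P Q : (ℕ → ℕ) → Prop}
    (h : ∀ ω, L.wt ω ≠ 0 → P (L.Φ ω) → Q (L.Φ ω)) : L.Pr P ≤ L.Pr Q := by
  unfold FL.Pr
  refine L.Ex_mono38 hn fun ω hω => ?_
  by_cases hP : P (L.Φ ω)
  · rw [if_pos hP, if_pos (h ω hω hP)]
  · rw [if_neg hP]; split_ifs <;> norm_num

theorem FL.Ex_label38 (L : FL) {X : Finset ℕ} {w : ℕ} (hw : ∀ ω, L.wt ω ≠ 0 → L.Φ ω w ∈ X) (g : ℕ → ℝ) :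
    L.Ex (fun φ => g (φ w)) = ∑ x ∈ X, L.Pr (fun φ => φ w = x) * g x := by
  unfold FL.Pr
  simp only [← FL.Ex_mul38]
  rw [← FL.Ex_sum38]
  refine L.Ex_congr38 fun ω hω => ?_
  rw [Finset.sum_eq_single_of_mem (L.Φ ω w) (hw ω hω)]
  · rw [if_pos rfl, one_mul]
  · intro b _ hb
    rw [if_neg (Ne.symm hb), zero_mul]

/-- one more vertex -/
noncomputable def FL.ext38 (L : FL) (a q : ℕ) (X : Finset ℕ) (k : ℕ → ℕ → ℝ) : FL where
  Ω := L.Ω × X
  fin := letI := L.fin; inferInstance
  wt := fun o => L.wt o.1 * k (L.Φ o.1 q) o.2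
  Φ := fun o => Function.update (L.Φ o.1) a o.2

theorem FL.ext_Ex38 (L : FL) (a q : ℕ) (X : Finset ℕ) (k : ℕ → ℕ → ℝ) (F : (ℕ → ℕ) → ℝ) :
    (L.ext38 a q X k).Ex F = L.Ex (fun φ => ∑ y ∈ X, k (φ q) y * F (Function.update φ a y)) := by
  unfold FL.Ex FL.ext38
  simp only
  let := L.fin
  rw [Fintype.sum_prod_type]
  refine Finset.sum_congr rfl fun ω _ => ?_
  rw [Finset.mul_sum, ← Finset.sum_coe_sort X]
  exact Finset.sum_congr rfl fun y _ => by ring

/-- base law without exits -/
structure BL38 (n : ℕ) (X S : Finset ℕ) (t : ℝ) (π : ℕ → ℝ) (p lab : ℕ → ℕ) (R Q : Finset ℕ) (L : FL) : Prop where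
  nn : ∀ ω, 0 ≤ L.wt ω
  one : L.Ex (fun _ => 1) = 1
  onR : ∀ ω, ∀ r ∈ R, L.Φ ω r = lab r
  lbl : ∀ ω, L.wt ω ≠ 0 → ∀ v ∈ Q, L.Φ ω v ∈ X
  sm : ∀ ω, L.wt ω ≠ 0 → ∀ i ∈ Q, L.Φ ω i + L.Φ ω (p i) ∈ S
  joint : ∀ A ⊆ Q, ∀ x : ℕ → ℕ, L.Pr (fun φ => ∀ v ∈ A, φ v = x v) ≤ (3 / n) ^ A.card
  marg : ∀ v ∈ Q, ∀ x ∈ X, L.Pr (fun φ => φ v = x) ≤ (1 + t) / (1 - t) * π x
  edge : ∀ v ∈ Q, ∀ s, L.Pr (fun φ => φ v + φ (p v) = s) ≤ (1 + t) ^ 2 / (1 - t) / n

theorem base_ind38 {n : ℕ} {X S Cl : Finset ℕ} {t : ℝ} {k : ℕ → ℕ → ℝ} {π : ℕ → ℝ}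
    (hk : Ker n X S Cl t k π) (ht0 : 0 < t) (ht : t ≤ 1 / 1000) (hn : 1000 ≤ n)
    (p lab : ℕ → ℕ) (R : Finset ℕ) (hlab : ∀ r ∈ R, lab r ∈ Cl) (Q : Finset ℕ) :
    Disjoint Q R → (∀ v ∈ Q, p v < v ∧ (p v ∈ Q ∨ p v ∈ R)) → ∃ L : FL, BL38 n X S t π p lab R Q L := by
  have hn0 : (0 : ℝ) < n := by
    have : 0 < n := by omega
    exact_mod_cast this
  have hpi0 : ∀ x ∈ X, 0 ≤ π x := fun x hx => le_trans (by apply div_nonneg _ hn0.le; linarith) (hk.piLo x hx)
  induction Q using Finset.induction_on_max with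
  | empty =>
    intro _ _
    refine ⟨⟨Unit, inferInstance, fun _ => 1, fun _ => lab⟩, ⟨fun _ => zero_le_one, ?_, fun _ _ _ => rfl, ?_, ?_, ?_, ?_, ?_⟩⟩
    · simp [FL.Ex]
    · intro _ _ v hv; exact absurd hv (Finset.notMem_empty v)
    · intro _ _ v hv; exact absurd hv (Finset.notMem_empty v)
    · intro A hA x
      rw [Finset.subset_empty] at hA
      subst hA
      simp [FL.Pr, FL.Ex]
    · intro v hv; exact absurd hv (Finset.notMem_empty v)
    · intro v hv; exact absurd hv (Finset.notMem_empty v)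
  | insert a Q hmax ih =>
    intro hQR hp
    have haQ : a ∉ Q := fun h => lt_irrefl _ (hmax a h)
    have haR : a ∉ R := fun h => (Finset.disjoint_left.mp hQR (Finset.mem_insert_self a Q)) h
    have hQR' : Disjoint Q R := hQR.mono_left (Finset.subset_insert a Q)
    have hpa : p a < a := (hp a (Finset.mem_insert_self a Q)).1
    have hpa' : p a ∈ Q ∨ p a ∈ R := by
      rcases (hp a (Finset.mem_insert_self a Q)).2 with h | h
      · rcases Finset.mem_insert.mp h with h1 | h1
        · omega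
        · exact Or.inl h1
      · exact Or.inr h
    have hpQ : ∀ v ∈ Q, p v < v ∧ (p v ∈ Q ∨ p v ∈ R) := by
      intro v hv
      obtain ⟨h1, h2⟩ := hp v (Finset.mem_insert_of_mem hv)
      refine ⟨h1, ?_⟩
      rcases h2 with h | h
      · rcases Finset.mem_insert.mp h with h3 | h3
        · have := hmax v hv; omega
        · exact Or.inl h3
      · exact Or.inr h
    obtain ⟨L, hL⟩ := ih hQR' hpQ
    have hva : ∀ v ∈ Q, v ≠ a := fun v hv => (hmax v hv).ne
    have hpva : ∀ v ∈ Q, p v ≠ a := fun v hv => ((hpQ v hv).1.trans (hmax v hv)).ne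
    have hqa : p a ≠ a := hpa.ne
    -- the label of the parent of `a`
    have hq : ∀ ω, L.wt ω ≠ 0 → L.Φ ω (p a) ∈ X ∪ Cl := by
      intro ω hω
      rcases hpa' with h | h
      · exact Finset.mem_union_left _ (hL.lbl ω hω _ h)
      · rw [hL.onR ω _ h]; exact Finset.mem_union_right _ (hlab _ h)
    have hk1 : ∀ ω, L.wt ω ≠ 0 → ∑ y ∈ X, k (L.Φ ω (p a)) y = 1 := fun ω hω => hk.one _ (hq ω hω)
    -- probabilities of events not involving `a`
    have hold : ∀ P : (ℕ → ℕ) → Prop, (∀ φ y, P (Function.update φ a y) ↔ P φ) →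
        (L.ext38 a (p a) X k).Pr P = L.Pr P := by
      intro P hP
      unfold FL.Pr
      rw [FL.ext_Ex38]
      refine L.Ex_congr38 fun ω hω => ?_
      have hPe : ∀ y : ℕ, (@ite ℝ (P (Function.update (L.Φ ω) a y)) (Classical.propDecidable _) 1 0) = (@ite ℝ (P (L.Φ ω)) (Classical.propDecidable _) 1 0) := by
        intro y
        by_cases h : P (L.Φ ω)
        · rw [if_pos h, if_pos ((hP _ _).mpr h)]
        · rw [if_neg h, if_neg (fun h' => h ((hP _ _).mp h'))]
      refine (Finset.sum_congr rfl fun y _ => by rw [hPe y]).trans ?_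
      rw [← Finset.sum_mul, hk1 ω hω, one_mul]
    -- expectation of a function of the label of `p a`
    have hexp : ∀ (g : ℕ → ℝ) (c : ℝ), (∀ c' ∈ Cl, g c' ≤ c) →
        ((1 + t) / (1 - t) * ∑ x ∈ X, π x * g x ≤ c) → (∀ x ∈ X, 0 ≤ g x) → L.Ex (fun φ => g (φ (p a))) ≤ c := by
      intro g c h1 h2 h3
      rcases hpa' with h | h
      · rw [L.Ex_label38 (fun ω hω => hL.lbl ω hω _ h)]
        refine le_trans ?_ h2
        rw [Finset.mul_sum]
        refine Finset.sum_le_sum fun x hx => ?_
        rw [← mul_assoc]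
        exact mul_le_mul_of_nonneg_right (hL.marg _ h x hx) (h3 x hx)
      · have : L.Ex (fun φ => g (φ (p a))) ≤ L.Ex (fun _ => 1 * c) := by
          refine L.Ex_mono38 hL.nn fun ω _ => ?_
          rw [hL.onR ω _ h, one_mul]
          exact h1 _ (hlab _ h)
        refine this.trans ?_
        rw [FL.Ex_mul38, hL.one, one_mul]
    refine ⟨L.ext38 a (p a) X k, ⟨?_, ?_, ?_, ?_, ?_, ?_, ?_, ?_⟩⟩
    · rintro ⟨ω, y⟩
      exact mul_nonneg (hL.nn ω) (hk.nn _ _)
    · rw [FL.ext_Ex38]
      refine Eq.trans (L.Ex_congr38 (G := fun _ => 1) fun ω hω => ?_) hL.one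
      simp only [mul_one]
      exact hk1 ω hω
    · rintro ⟨ω, y⟩ r hr
      have hra : r ≠ a := fun h => haR (h ▸ hr)
      change Function.update (L.Φ ω) a y r = lab r
      rw [Function.update_of_ne hra]
      exact hL.onR ω r hr
    · rintro ⟨ω, y⟩ hω v hv
      have hω' : L.wt ω ≠ 0 := fun h => hω (by change L.wt ω * _ = 0; rw [h, zero_mul])
      change Function.update (L.Φ ω) a y v ∈ X
      rcases Finset.mem_insert.mp hv with h | h
      · rw [h, Function.update_self]; exact y.2
      · rw [Function.update_of_ne (hva v h)]; exact hL.lbl ω hω' v h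
    · rintro ⟨ω, y⟩ hω v hv
      have hω' : L.wt ω ≠ 0 := fun h => hω (by change L.wt ω * _ = 0; rw [h, zero_mul])
      have hky : k (L.Φ ω (p a)) y ≠ 0 := fun h => hω (by change L.wt ω * k (L.Φ ω (p a)) y = 0; rw [h, mul_zero])
      change Function.update (L.Φ ω) a y v + Function.update (L.Φ ω) a y (p v) ∈ S
      rcases Finset.mem_insert.mp hv with h | h
      · rw [h, Function.update_self, Function.update_of_ne hqa, add_comm]
        exact (hk.supp _ _ hky).2
      · rw [Function.update_of_ne (hva v h), Function.update_of_ne (hpva v h)]; exact hL.sm ω hω' v h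
    · intro A hA x
      by_cases haA : a ∈ A
      · set A' := A.erase a with hA'
        have hA'Q : A' ⊆ Q := by
          intro v hv
          have h1 := Finset.mem_of_mem_erase hv
          rcases Finset.mem_insert.mp (hA h1) with h | h
          · exact absurd h (Finset.ne_of_mem_erase hv)
          · exact h
        have hcard : A.card = A'.card + 1 := (Finset.card_erase_add_one haA).symm
        have h1 := hL.joint A' hA'Q x
        have h2 : (L.ext38 a (p a) X k).Pr (fun φ => ∀ v ∈ A, φ v = x v) ≤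
            L.Pr (fun φ => ∀ v ∈ A', φ v = x v) * (3 / n) := by
          unfold FL.Pr
          rw [FL.ext_Ex38, ← FL.Ex_mul38]
          refine L.Ex_mono38 hL.nn fun ω hω => ?_
          have h3 : ∀ y ∈ X, k (L.Φ ω (p a)) y * (@ite ℝ (∀ v ∈ A, Function.update (L.Φ ω) a y v = x v) (Classical.propDecidable _) 1 0) ≤
              if y = x a then (@ite ℝ (∀ v ∈ A', L.Φ ω v = x v) (Classical.propDecidable _) 1 0) * (3 / n) else 0 := by
            intro y _
            by_cases hc : ∀ v ∈ A, Function.update (L.Φ ω) a y v = x v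
            · have hy : y = x a := by
                have := hc a haA
                rwa [Function.update_self] at this
              have hc' : ∀ v ∈ A', L.Φ ω v = x v := by
                intro v hv
                have := hc v (Finset.mem_of_mem_erase hv)
                rwa [Function.update_of_ne (Finset.ne_of_mem_erase hv)] at this
              rw [if_pos hc, if_pos hy, if_pos hc', mul_one, one_mul]
              exact hk.up _ _
            · rw [if_neg hc, mul_zero]
              split_ifs <;> positivity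
          refine (Finset.sum_le_sum h3).trans ?_
          rw [Finset.sum_ite_eq']
          split_ifs <;> first | positivity | exact le_rfl
        rw [hcard, pow_succ]
        exact h2.trans (mul_le_mul_of_nonneg_right h1 (by positivity))
      · have hAQ : A ⊆ Q := by
          intro v hv
          rcases Finset.mem_insert.mp (hA hv) with h | h
          · exact absurd (by rw [← h]; exact hv) haA
          · exact h
        rw [hold]
        · exact hL.joint A hAQ x
        · intro φ y
          have : ∀ v ∈ A, Function.update φ a y v = φ v := fun v hv =>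
            Function.update_of_ne (fun h => haA (by rw [← h]; exact hv)) _ _
          constructor
          · intro h v hv; rw [← this v hv]; exact h v hv
          · intro h v hv; rw [this v hv]; exact h v hv
    · intro v hv x hx
      rcases Finset.mem_insert.mp hv with h | h
      · subst h
        have h1 : (L.ext38 v (p v) X k).Pr (fun φ => φ v = x) = L.Ex (fun φ => (fun z => k z x) (φ (p v))) := by
          unfold FL.Pr
          rw [FL.ext_Ex38]
          refine L.Ex_congr38 fun ω hω => ?_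
          simp only [Function.update_self]
          rw [Finset.sum_eq_single_of_mem x hx]
          · rw [if_pos rfl, mul_one]
          · intro b _ hb
            rw [if_neg hb, mul_zero]
        rw [h1]
        refine hexp (fun z => k z x) _ ?_ ?_ ?_
        · intro c hc
          refine (hk.clUp c hc x).trans ?_
          have h2 := hk.piLo x hx
          have h3 : (1 + t) / n = (1 + t) / (1 - t) * ((1 - t) / n) := by
            have : (1 - t) ≠ 0 := by linarith
            field_simp
          rw [h3]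
          exact mul_le_mul_of_nonneg_left h2 (div_nonneg (by linarith) (by linarith))
        · apply mul_le_mul_of_nonneg_left _ (div_nonneg (by linarith) (by linarith))
          have h2 : ∑ x' ∈ X, π x' * k x' x = ∑ x' ∈ X, π x * k x x' :=
            Finset.sum_congr rfl fun x' hx' => hk.rev x' hx' x hx
          rw [h2, ← Finset.mul_sum, hk.one x (Finset.mem_union_left _ hx), mul_one]
        · intro x' _; exact hk.nn _ _
      · rw [hold]
        · exact hL.marg v h x hx
        · intro φ y; rw [Function.update_of_ne (hva v h)]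
    · intro v hv s
      rcases Finset.mem_insert.mp hv with h | h
      · subst h
        have h1 : (L.ext38 v (p v) X k).Pr (fun φ => φ v + φ (p v) = s) ≤
            L.Ex (fun φ => (fun z => if z ≤ s then k z (s - z) else 0) (φ (p v))) := by
          unfold FL.Pr
          rw [FL.ext_Ex38]
          refine L.Ex_mono38 hL.nn fun ω hω => ?_
          simp only [Function.update_self, Function.update_of_ne hqa]
          have h3 : ∀ y ∈ X, k (L.Φ ω (p v)) y * (if y + L.Φ ω (p v) = s then (1 : ℝ) else 0) ≤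
              if y = s - L.Φ ω (p v) then (if L.Φ ω (p v) ≤ s then k (L.Φ ω (p v)) (s - L.Φ ω (p v)) else 0) else 0 := by
            intro y _
            by_cases hc : y + L.Φ ω (p v) = s
            · have e1 : y = s - L.Φ ω (p v) := by omega
              have e2 : L.Φ ω (p v) ≤ s := by omega
              rw [if_pos hc, if_pos e1, if_pos e2, mul_one, ← e1]
            · rw [if_neg hc, mul_zero]
              split_ifs
              · exact hk.nn _ _
              · exact le_rfl
              · exact le_rfl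
          refine (Finset.sum_le_sum h3).trans ?_
          rw [Finset.sum_ite_eq']
          split_ifs
          · exact le_rfl
          · exact le_rfl
          · exact hk.nn _ _
          · exact le_rfl
        refine h1.trans ?_
        have hb : (1 + t) / n ≤ (1 + t) ^ 2 / (1 - t) / n := by
          apply div_le_div_of_nonneg_right _ hn0.le
          rw [le_div_iff₀ (by linarith)]
          nlinarith
        refine hexp (fun z => if z ≤ s then k z (s - z) else 0) _ ?_ ?_ ?_
        · intro c hc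
          split_ifs
          · exact (hk.clUp c hc _).trans hb
          · exact div_nonneg (div_nonneg (sq_nonneg _) (by linarith)) hn0.le
        · have h2 : ∑ x ∈ X, π x * (fun z => if z ≤ s then k z (s - z) else 0) x = ∑ x ∈ X with x ≤ s, π x * k x (s - x) := by
            rw [Finset.sum_filter]
            refine Finset.sum_congr rfl fun x _ => ?_
            simp only
            split_ifs
            · rfl
            · rw [mul_zero]
          rw [h2]
          have h3 := hk.dia s
          calc (1 + t) / (1 - t) * ∑ x ∈ X with x ≤ s, π x * k x (s - x) ≤ (1 + t) / (1 - t) * ((1 + t) / n) :=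
                mul_le_mul_of_nonneg_left h3 (div_nonneg (by linarith) (by linarith))
            _ = (1 + t) ^ 2 / (1 - t) / n := by
                have : (1 - t) ≠ 0 := by linarith
                field_simp
        · intro x _
          split_ifs
          · exact hk.nn _ _
          · exact le_rfl
      · rw [hold]
        · exact hL.edge v h s
        · intro φ y; rw [Function.update_of_ne (hva v h), Function.update_of_ne (hpva v h)]

/-- conditioning on an event -/
noncomputable def FL.cond38 (L : FL) (E : (ℕ → ℕ) → Prop) (Z : ℝ) : FL where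
  Ω := L.Ω
  fin := L.fin
  wt := fun ω => L.wt ω * (@ite ℝ (E (L.Φ ω)) (Classical.propDecidable _) 1 0) / Z
  Φ := L.Φ

theorem FL.cond_Ex38 (L : FL) (E : (ℕ → ℕ) → Prop) (Z : ℝ) (F : (ℕ → ℕ) → ℝ) :
    (L.cond38 E Z).Ex F = L.Ex (fun φ => (@ite ℝ (E φ) (Classical.propDecidable _) 1 0) * F φ) / Z := by
  unfold FL.Ex FL.cond38
  simp only
  rw [Finset.sum_div]
  exact Finset.sum_congr rfl fun ω _ => by ring

theorem FL.cond_Pr38 (L : FL) (hn : ∀ ω, 0 ≤ L.wt ω) (E : (ℕ → ℕ) → Prop) (Z : ℝ) (hZ : 0 < Z) (P : (ℕ → ℕ) → Prop) :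
    (L.cond38 E Z).Pr P ≤ L.Pr P / Z := by
  unfold FL.Pr
  rw [FL.cond_Ex38]
  apply div_le_div_of_nonneg_right _ hZ.le
  refine L.Ex_mono38 hn fun ω _ => ?_
  by_cases hE : E (L.Φ ω)
  · simp only [if_pos hE, one_mul]; exact le_rfl
  · simp only [if_neg hE, zero_mul]; split_ifs <;> norm_num

theorem bad_card38 {n : ℕ} {X S : Finset ℕ} {t : ℝ} (c : ℕ) (hX : X ⊆ Icc 1 n)
    (hS : ((Win n \ S).card : ℝ) ≤ t * n) (hc : |(c : ℝ) - n / 2| ≤ t * n) :
    ((X.filter fun x => c + x ∉ S).card : ℝ) ≤ 2 * (t * n) + 3 := by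
  have h1 : (X.filter fun x => c + x ∉ S) ⊆ (Icc 1 (n / 2 + 1 - c) ∪ Icc (n / 2 + n - c + 1) n) ∪
      ((Icc 1 n).filter fun x => c + x ∈ Win n \ S) := by
    intro x hx
    obtain ⟨hxX, hxS⟩ := Finset.mem_filter.mp hx
    have hx1 := Finset.mem_Icc.mp (hX hxX)
    rw [Finset.mem_union, Finset.mem_union, Finset.mem_filter, Finset.mem_Icc, Finset.mem_Icc, Finset.mem_Icc,
      Finset.mem_sdiff]
    by_cases hw : c + x ∈ Win n
    · exact Or.inr ⟨hx1, hw, hxS⟩
    · left
      unfold Win at hw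
      rw [Finset.mem_Icc] at hw
      omega
  have h2 : ((Icc 1 n).filter fun x => c + x ∈ Win n \ S).card ≤ (Win n \ S).card := by
    apply Finset.card_le_card_of_injOn (fun x => c + x)
    · intro x hx
      exact (Finset.mem_filter.mp hx).2
    · intro x _ y _ hxy
      simp only at hxy
      omega
  have h3 : (X.filter fun x => c + x ∉ S).card ≤ ((n / 2 + 1 - c) + (n + 1 - (n / 2 + n - c + 1))) + (Win n \ S).card := by
    refine (Finset.card_le_card h1).trans ((Finset.card_union_le _ _).trans (Nat.add_le_add ((Finset.card_union_le _ _).trans ?_) h2))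
    rw [Nat.card_Icc, Nat.card_Icc]
    omega
  have h4 : ((X.filter fun x => c + x ∉ S).card : ℝ) ≤
      (((n / 2 + 1 - c) + (n + 1 - (n / 2 + n - c + 1)) : ℕ) : ℝ) + ((Win n \ S).card : ℝ) := by
    exact_mod_cast h3
  have h5 : (((n / 2 + 1 - c) + (n + 1 - (n / 2 + n - c + 1)) : ℕ) : ℝ) ≤ t * n + 3 := by
    have h0 : 0 ≤ t * n := (abs_nonneg _).trans hc
    obtain ⟨ha, hb⟩ := abs_le.mp hc
    have hn1 : (2 : ℝ) * ((n / 2 : ℕ) : ℝ) ≤ n := by
      have : 2 * (n / 2) ≤ n := by omega
      exact_mod_cast this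
    have hn2 : (n : ℝ) ≤ 2 * ((n / 2 : ℕ) : ℝ) + 1 := by
      have : n ≤ 2 * (n / 2) + 1 := by omega
      exact_mod_cast this
    rcases le_total c (n / 2) with h | h
    · have e : ((n / 2 + 1 - c) + (n + 1 - (n / 2 + n - c + 1)) : ℕ) = n / 2 + 1 - c := by omega
      rw [e, Nat.cast_sub (by omega)]
      push_cast
      linarith
    · have e : ((n / 2 + 1 - c) + (n + 1 - (n / 2 + n - c + 1)) : ℕ) ≤ (c - n / 2) + 1 := by omega
      have e' : (((n / 2 + 1 - c) + (n + 1 - (n / 2 + n - c + 1)) : ℕ) : ℝ) ≤ (((c - n / 2) + 1 : ℕ) : ℝ) := by exact_mod_cast e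
      refine e'.trans ?_
      push_cast [Nat.cast_sub h]
      linarith
  linarith

end lw1

theorem base_law {n : ℕ} {X S Cl : Finset ℕ} {t : ℝ} {k : ℕ → ℕ → ℝ} {π : ℕ → ℝ}
    (hk : Ker n X S Cl t k π) (ht0 : 0 < t) (ht : t ≤ 1 / 1000) (hn : 1000 ≤ n)
    (hnt : 100 ≤ t * n) (p lab : ℕ → ℕ) (R Q ex : Finset ℕ) (hlab : ∀ r ∈ R, lab r ∈ Cl)
    (hQR : Disjoint Q R) (hp : ∀ v ∈ Q, p v < v ∧ (p v ∈ Q ∨ p v ∈ R))
    (hex : ex ⊆ R) (hex1 : ex.card ≤ 1) (hexQ : ∀ r ∈ ex, p r ∈ Q) :
    ∃ L : FL, PL n p R lab X S Q ex 6 L ∧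
      (∀ v ∈ Q, ∀ x ∈ X, L.Pr (fun φ => φ v = x) ≤ (1 + 8 * t) * π x) ∧
      (∀ i ∈ Q ∪ ex, ∀ s, L.Pr (fun φ => φ i + φ (p i) = s) ≤ (1 + 8 * t) / n) := by
  obtain ⟨L, hL⟩ := base_ind38 hk ht0 ht hn p lab R hlab Q hQR hp
  have hn0 : (0 : ℝ) < n := by
    have : 0 < n := by omega
    exact_mod_cast this
  have hpi0 : ∀ x ∈ X, 0 ≤ π x := fun x hx =>
    le_trans (by apply div_nonneg _ hn0.le; linarith) (hk.piLo x hx)
  have h1t : (0 : ℝ) < 1 - t := by linarith
  have h2t : (0 : ℝ) < 1 - 22 / 10 * t := by linarith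
  have hpow : ∀ m : ℕ, ((3 : ℝ) / n) ^ m ≤ (6 / n) ^ m := fun m => by
    apply pow_le_pow_left₀ (by positivity)
    apply div_le_div_of_nonneg_right _ hn0.le
    norm_num
  have hc1 : (1 + t) / (1 - t) ≤ 1 + 8 * t := by
    rw [div_le_iff₀ h1t]; nlinarith
  have hc2 : (1 + t) ^ 2 / (1 - t) ≤ 1 + 8 * t := by
    rw [div_le_iff₀ h1t]; nlinarith
  rcases Finset.eq_empty_or_nonempty ex with he | ⟨r, hr⟩
  · subst he
    refine ⟨L, ⟨hL.nn, hL.one, hL.onR, hL.lbl, ?_, fun A hA x => (hL.joint A hA x).trans (hpow _)⟩, ?_, ?_⟩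
    · intro ω hω i hi
      rw [Finset.union_empty] at hi
      exact hL.sm ω hω i hi
    · intro v hv x hx
      exact (hL.marg v hv x hx).trans (mul_le_mul_of_nonneg_right hc1 (hpi0 x hx))
    · intro i hi s
      rw [Finset.union_empty] at hi
      exact (hL.edge i hi s).trans (div_le_div_of_nonneg_right hc2 hn0.le)
  · have hexr : ex = {r} := by
      symm
      apply Finset.eq_of_subset_of_card_le (Finset.singleton_subset_iff.mpr hr)
      rw [Finset.card_singleton]; exact hex1
    subst hexr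
    have hrR : r ∈ R := hex hr
    have hwQ : p r ∈ Q := hexQ r hr
    have hrQ : r ∉ Q := fun h => (Finset.disjoint_left.mp hQR h) hrR
    set E : (ℕ → ℕ) → Prop := fun φ => lab r + φ (p r) ∈ S with hE
    set Z : ℝ := L.Pr E with hZ
    -- lower bound for the probability of `E`
    have hZlo : 1 - 22 / 10 * t ≤ Z := by
      have h1 : L.Ex (fun _ => 1) ≤ Z + L.Pr (fun φ => φ (p r) ∈ X.filter fun x => lab r + x ∉ S) := by
        rw [hZ]
        unfold FL.Pr
        rw [← FL.Ex_add38]
        refine L.Ex_mono38 hL.nn fun ω hω => ?_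
        by_cases hc : lab r + L.Φ ω (p r) ∈ S
        · simp only [hE, if_pos hc]
          split_ifs <;> norm_num
        · have hc' : L.Φ ω (p r) ∈ X.filter fun x => lab r + x ∉ S :=
            Finset.mem_filter.mpr ⟨hL.lbl ω hω _ hwQ, hc⟩
          simp only [hE, if_neg hc, if_pos hc']
          norm_num
      have h2 : L.Pr (fun φ => φ (p r) ∈ X.filter fun x => lab r + x ∉ S) ≤
          ∑ x ∈ X.filter (fun x => lab r + x ∉ S), L.Pr (fun φ => φ (p r) = x) := by
        unfold FL.Pr
        rw [← FL.Ex_sum38]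
        refine L.Ex_mono38 hL.nn fun ω hω => ?_
        by_cases hc : L.Φ ω (p r) ∈ X.filter fun x => lab r + x ∉ S
        · simp only [if_pos hc]
          rw [Finset.sum_eq_single_of_mem (L.Φ ω (p r)) hc]
          · rw [if_pos rfl]
          · intro b _ hb
            rw [if_neg (Ne.symm hb)]
        · simp only [if_neg hc]
          exact Finset.sum_nonneg fun x _ => by split_ifs <;> norm_num
      have h3 : ∑ x ∈ X.filter (fun x => lab r + x ∉ S), L.Pr (fun φ => φ (p r) = x) ≤
          ∑ x ∈ X.filter (fun x => lab r + x ∉ S), (1 + t) / (1 - t) * ((1 + t) / n) := by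
        refine Finset.sum_le_sum fun x hx => ?_
        have hxX := (Finset.mem_filter.mp hx).1
        exact (hL.marg _ hwQ x hxX).trans (mul_le_mul_of_nonneg_left (hk.piUp x hxX) (div_nonneg (by linarith) h1t.le))
      rw [Finset.sum_const, nsmul_eq_mul] at h3
      have h4 := bad_card38 (lab r) hk.X_sub hk.S_big (hk.Cl_mid _ (hlab r hrR))
      have h5 : ((X.filter fun x => lab r + x ∉ S).card : ℝ) * ((1 + t) / (1 - t) * ((1 + t) / n)) ≤
          22 / 10 * t := by
        have hpos : 0 ≤ (1 + t) / (1 - t) * ((1 + t) / n) := mul_nonneg (div_nonneg (by linarith) h1t.le) (div_nonneg (by linarith) hn0.le)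
        have h6 : ((X.filter fun x => lab r + x ∉ S).card : ℝ) ≤ 203 / 100 * (t * n) := by linarith
        refine (mul_le_mul_of_nonneg_right h6 hpos).trans ?_
        have h7 : 203 / 100 * (t * n) * ((1 + t) / (1 - t) * ((1 + t) / n)) = 203 / 100 * t * ((1 + t) ^ 2 / (1 - t)) := by
          field_simp
        rw [h7]
        have h8 : 203 / 100 * t * ((1 + t) ^ 2 / (1 - t)) ≤ 203 / 100 * t * (1 + 8 * t) :=
          mul_le_mul_of_nonneg_left hc2 (by positivity)
        refine h8.trans ?_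
        nlinarith
      rw [hL.one] at h1
      linarith
    have hZpos : 0 < Z := lt_of_lt_of_le h2t hZlo
    have hZinv : ∀ a : ℝ, 0 ≤ a → a / Z ≤ a / (1 - 22 / 10 * t) := fun a ha =>
      div_le_div_of_nonneg_left ha h2t hZlo
    have hd1 : (1 + t) / (1 - t) / (1 - 22 / 10 * t) ≤ 1 + 8 * t := by
      rw [div_le_iff₀ h2t, div_le_iff₀ h1t]
      nlinarith [mul_pos ht0 ht0, mul_pos (mul_pos ht0 ht0) ht0]
    have hd2 : (1 + t) ^ 2 / (1 - t) / (1 - 22 / 10 * t) ≤ 1 + 8 * t := by
      rw [div_le_iff₀ h2t, div_le_iff₀ h1t]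
      nlinarith [mul_pos ht0 ht0, mul_pos (mul_pos ht0 ht0) ht0]
    have hwt : ∀ ω, (L.cond38 E Z).wt ω ≠ 0 → L.wt ω ≠ 0 ∧ E (L.Φ ω) := by
      intro ω hω
      constructor
      · intro h
        apply hω
        change L.wt ω * _ / Z = 0
        rw [h, zero_mul, zero_div]
      · by_contra h
        apply hω
        change L.wt ω * (@ite ℝ (E (L.Φ ω)) (Classical.propDecidable _) 1 0) / Z = 0
        rw [if_neg h, mul_zero, zero_div]
    have hone : (L.cond38 E Z).Ex (fun _ => 1) = 1 := by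
      rw [FL.cond_Ex38]
      simp only [mul_one]
      exact div_self hZpos.ne'
    refine ⟨L.cond38 E Z, ⟨?_, hone, hL.onR, fun ω hω => hL.lbl ω (hwt ω hω).1, ?_, ?_⟩, ?_, ?_⟩
    · intro ω
      change 0 ≤ L.wt ω * (@ite ℝ (E (L.Φ ω)) (Classical.propDecidable _) 1 0) / Z
      apply div_nonneg _ hZpos.le
      apply mul_nonneg (hL.nn ω)
      split_ifs <;> norm_num
    · intro ω hω i hi
      rcases Finset.mem_union.mp hi with h | h
      · exact hL.sm ω (hwt ω hω).1 i h
      · rw [Finset.mem_singleton] at h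
        subst h
        have h1 := (hwt ω hω).2
        change L.Φ ω i + L.Φ ω (p i) ∈ S
        rw [hL.onR ω i hrR]
        exact h1
    · intro A hA x
      rcases Finset.eq_empty_or_nonempty A with h | h
      · subst h
        have : (L.cond38 E Z).Pr (fun φ => ∀ v ∈ (∅ : Finset ℕ), φ v = x v) = 1 := by
          rw [← hone]
          unfold FL.Pr
          refine FL.Ex_congr38 _ fun ω _ => ?_
          rw [if_pos]
          intro v hv; exact absurd hv (Finset.notMem_empty v)
        rw [this]; simp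
      · refine (L.cond_Pr38 hL.nn E Z hZpos _).trans ?_
        have h1 : (3 / (n : ℝ)) ^ A.card * 2 ≤ (6 / n) ^ A.card := by
          have e : (6 / (n : ℝ)) = 3 / n * 2 := by ring
          rw [e, mul_pow]
          apply mul_le_mul_of_nonneg_left _ (by positivity)
          have : 1 ≤ A.card := Finset.card_pos.mpr h
          calc (2 : ℝ) = 2 ^ 1 := (pow_one _).symm
            _ ≤ 2 ^ A.card := pow_le_pow_right₀ (by norm_num) this
        refine le_trans ?_ h1
        rw [div_le_iff₀ hZpos]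
        refine (hL.joint A hA x).trans ?_
        have h3 : 0 ≤ (3 / (n : ℝ)) ^ A.card := by positivity
        have h4 : (1 : ℝ) / 2 ≤ Z := by linarith
        nlinarith
    · intro v hv x hx
      refine (L.cond_Pr38 hL.nn E Z hZpos _).trans ?_
      have h1 : L.Pr (fun φ => φ v = x) / Z ≤ (1 + t) / (1 - t) * π x / Z :=
        div_le_div_of_nonneg_right (hL.marg v hv x hx) hZpos.le
      refine h1.trans ((hZinv _ (mul_nonneg (div_nonneg (by linarith) h1t.le) (hpi0 x hx))).trans ?_)
      rw [mul_div_right_comm]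
      exact mul_le_mul_of_nonneg_right hd1 (hpi0 x hx)
    · intro i hi s
      have hkey : ∀ P : (ℕ → ℕ) → Prop, L.Pr P ≤ (1 + t) ^ 2 / (1 - t) / n → (L.cond38 E Z).Pr P ≤ (1 + 8 * t) / n := by
        intro P hP
        refine (L.cond_Pr38 hL.nn E Z hZpos _).trans ?_
        refine (div_le_div_of_nonneg_right hP hZpos.le).trans ?_
        refine (hZinv _ (div_nonneg (div_nonneg (sq_nonneg _) h1t.le) hn0.le)).trans ?_
        rw [div_right_comm]
        exact div_le_div_of_nonneg_right hd2 hn0.le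
      apply hkey
      rcases Finset.mem_union.mp hi with h | h
      · exact hL.edge i h s
      · rw [Finset.mem_singleton] at h
        subst h
        by_cases hs : lab i ≤ s ∧ s - lab i ∈ X
        · have h1 : L.Pr (fun φ => φ i + φ (p i) = s) ≤ L.Pr (fun φ => φ (p i) = s - lab i) := by
            refine L.Pr_mono38 hL.nn fun ω _ h2 => ?_
            rw [hL.onR ω i hrR] at h2
            omega
          refine h1.trans ((hL.marg _ hwQ _ hs.2).trans ?_)
          have h2 : (1 + t) / (1 - t) * π (s - lab i) ≤ (1 + t) / (1 - t) * ((1 + t) / n) :=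
            mul_le_mul_of_nonneg_left (hk.piUp _ hs.2) (div_nonneg (by linarith) h1t.le)
          refine h2.trans (le_of_eq ?_)
          field_simp
        · have h1 : L.Pr (fun φ => φ i + φ (p i) = s) ≤ 0 := by
            have : L.Pr (fun φ => φ i + φ (p i) = s) ≤ L.Ex (fun _ => 0) := by
              unfold FL.Pr
              refine L.Ex_mono38 hL.nn fun ω hω => ?_
              rw [if_neg]
              intro h2
              rw [hL.onR ω i hrR] at h2
              apply hs
              have h3 := hL.lbl ω hω _ hwQ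
              refine ⟨by omega, ?_⟩
              have h4 : s - lab i = L.Φ ω (p i) := by omega
              rw [h4]; exact h3
            refine this.trans (le_of_eq ?_)
            unfold FL.Ex; simp
          exact h1.trans (div_nonneg (div_nonneg (sq_nonneg _) h1t.le) hn0.le)

end Pool.Agent.SEM
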