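import Pool.Agent.Helper73.SEM.Defs

/-!
# SEM-CD: cover-down

`embed_left`, proof in words: label the vertices of `MV n R top Tl` in increasing order.  For `v`, the label `f (p v)` is known (`p v ∈ R`, or `p v` in
the same piece; it is in `FX` or is `lab (p v)`); let `r` be the exit with `p r = v`, if there is one.  Choose `x ∈ FX` with `f (p v) + x ∈ FS`
(and `lab r + x ∈ FS`), not used as a label, such that the sums `f (p v) + x` and `lab r + x` are not used: `hC` gives more than
`|MV| + 2 |EM|` candidates, at most this number is forbidden.  `f (p v) + x ≠ lab r + x` since by `exit_deep` `p v ∉ R`, so `f (p v) ∈ FX`, and `lab r ∉ FX`.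
(Every edge of `EM n p R top Tl` is `i = v ∈ MV` or `i = r ∈ R` with `p r ∈ MV`.)

`cover`, proof in words: (ii) for the `x ∈ JX` one after the other choose `v ∈ V` unused with `β v + x ∈ FS` unused: at most
`|JX| + |JS|` vertices and `|JX|` sums are used (each used sum kills at most one `v`, `β` injective), candidates `≥ κ > 2|JX| + 2|JS|`;
`z v = x`.  (iii) for `s ∈ JS` choose `v` unused with `s - β v ∈ FX` unused.  (iv) for the remaining `v` choose `x ∈ FX` unused with `β v + x ∈ FS`
unused: candidates `≥ κ' > 2 |V|`.  A sum `β v + z v` of type (ii),(iv) is in `FS`, of type (iii) in `JS`; labels of type (ii) in `JX`, else in `FX`.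
-/

set_option autoImplicit false

namespace Pool.Agent.SEM

open Finset

/-- partial labellings of the reserved paths -/
def h85I (V FX FS JX JS : Finset ℕ) (β : ℕ → ℕ) (W : Finset ℕ) (z : ℕ → ℕ) : Prop :=
  W ⊆ V ∧ Set.InjOn z W ∧ Set.InjOn (fun v => β v + z v) W ∧
    ∀ v ∈ W, (z v ∈ JX ∧ β v + z v ∈ FS) ∨ (z v ∈ FX ∧ β v + z v ∈ JS) ∨
        (z v ∈ FX ∧ β v + z v ∈ FS)

theorem h85_ext {V FX FS JX JS : Finset ℕ} {β : ℕ → ℕ} {W : Finset ℕ} {z : ℕ → ℕ}
    (h : h85I V FX FS JX JS β W z) {v x : ℕ} (hv : v ∈ V) (hvW : v ∉ W)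
    (hx : (x ∈ JX ∧ β v + x ∈ FS) ∨ (x ∈ FX ∧ β v + x ∈ JS) ∨ (x ∈ FX ∧ β v + x ∈ FS))
    (h1 : x ∉ W.image z) (h2 : β v + x ∉ W.image fun v => β v + z v) :
    ∃ z' : ℕ → ℕ, h85I V FX FS JX JS β (insert v W) z' ∧
      (insert v W).image z' = insert x (W.image z) ∧
      ((insert v W).image fun v => β v + z' v) =
        insert (β v + x) (W.image fun v => β v + z v) := by
  obtain ⟨hW, hz, hs, ht⟩ := h
  have e1 : ∀ w ∈ W, Function.update z v x w = z w := by
    intro w hw
    rw [Function.update_of_ne]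
    rintro rfl
    exact hvW hw
  have e2 : Function.update z v x v = x := Function.update_self _ _ _
  have i1 : (insert v W).image (Function.update z v x) = insert x (W.image z) := by
    rw [image_insert, e2]
    congr 1
    exact image_congr fun w hw => e1 w hw
  have i2 : ((insert v W).image fun w => β w + Function.update z v x w) =
        insert (β v + x) (W.image fun v => β v + z v) := by
    rw [image_insert, e2]
    congr 1
    refine image_congr fun w hw => ?_
    change β w + _ = β w + _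
    rw [e1 w hw]
  refine ⟨Function.update z v x, ⟨?_, ?_, ?_, ?_⟩, i1, i2⟩
  · exact insert_subset hv hW
  · rw [coe_insert, Set.injOn_insert (by exact_mod_cast hvW)]
    refine ⟨fun a ha b hb hab => ?_, ?_⟩
    · rw [e1 a ha, e1 b hb] at hab
      exact hz ha hb hab
    · rw [e2]
      rintro ⟨w, hw, hwx⟩
      rw [e1 w hw] at hwx
      exact h1 (mem_image.2 ⟨w, hw, hwx⟩)
  · rw [coe_insert, Set.injOn_insert (by exact_mod_cast hvW)]
    refine ⟨fun a ha b hb hab => ?_, ?_⟩
    · change β a + _ = β b + _ at hab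
      rw [e1 a ha, e1 b hb] at hab
      exact hs ha hb hab
    · rintro ⟨w, hw, hwx⟩
      change β w + _ = β v + _ at hwx
      rw [e1 w hw, e2] at hwx
      exact h2 (mem_image.2 ⟨w, hw, hwx⟩)
  · intro w hw
    rcases mem_insert.1 hw with rfl | hw
    · rw [e2]
      exact hx
    · rw [e1 w hw]
      exact ht w hw

/-- at most `|A| + |B|` elements are forbidden. -/
theorem h85_pick {α : Type} [DecidableEq α] (C A : Finset α) (B : Finset ℕ) (g : α → ℕ)
    (hg : Set.InjOn g C) (h : A.card + B.card < C.card) : ∃ c ∈ C, c ∉ A ∧ g c ∉ B := by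
  by_contra hcon
  push Not at hcon
  have h1 : C ⊆ A ∪ C.filter fun c => g c ∈ B := by
    intro c hc
    rw [mem_union, mem_filter]
    by_cases hA : c ∈ A
    · exact Or.inl hA
    · exact Or.inr ⟨hc, hcon c hc hA⟩
  have h2 : (C.filter fun c => g c ∈ B).card ≤ B.card := by
    refine card_le_card_of_injOn g (fun c hc => ?_) (hg.mono fun c hc => ?_)
    · exact (mem_filter.1 hc).2
    · exact (mem_filter.1 hc).1
  have h3 := (card_le_card h1).trans (card_union_le _ _)
  omega

theorem h85_coverA {V FX FS JX JS : Finset ℕ} {β : ℕ → ℕ} {κ : ℕ} (hβ : Set.InjOn β V)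
    (h1 : ∀ x ∈ JX, κ ≤ (V.filter fun v => β v + x ∈ FS).card)
    (hκ : 2 * JX.card + 2 * JS.card < κ) (J : Finset ℕ) (hJ : J ⊆ JX) :
    ∃ (W : Finset ℕ) (z : ℕ → ℕ), h85I V FX FS JX JS β W z ∧ J ⊆ W.image z ∧
      W.card ≤ J.card := by
  induction J using Finset.induction_on with
  | empty =>
    refine ⟨∅, id, ⟨empty_subset _, ?_, ?_, fun v hv => absurd hv (notMem_empty v)⟩,
      empty_subset _, le_refl _⟩
    · simp
    · simp
  | insert x J hx ih =>
    obtain ⟨W, z, hI, hJW, hc⟩ := ih ((subset_insert _ _).trans hJ)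
    by_cases hxW : x ∈ W.image z
    · refine ⟨W, z, hI, insert_subset hxW hJW, ?_⟩
      rw [card_insert_of_notMem hx]
      omega
    · have hxJ : x ∈ JX := hJ (mem_insert_self _ _)
      have hcard : J.card ≤ JX.card := card_le_card ((subset_insert _ _).trans hJ)
      obtain ⟨v, hv, hvW, hvs⟩ := h85_pick (V.filter fun v => β v + x ∈ FS) W
        (W.image fun v => β v + z v) (fun v => β v + x) (by
          intro a ha b hb hab
          have ha' := (mem_filter.1 ha).1
          have hb' := (mem_filter.1 hb).1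
          exact hβ ha' hb' (Nat.add_right_cancel hab)) (by
          have h3 := h1 x hxJ
          have h4 : (W.image fun v => β v + z v).card ≤ W.card := card_image_le
          omega)
      obtain ⟨hv1, hv2⟩ := mem_filter.1 hv
      obtain ⟨z', hz', i1, -⟩ := h85_ext hI hv1 hvW (Or.inl ⟨hxJ, hv2⟩) hxW hvs
      refine ⟨insert v W, z', hz', ?_, ?_⟩
      · rw [i1]
        exact insert_subset_insert _ hJW
      · rw [card_insert_of_notMem hx, card_insert_of_notMem hvW]
        omega

theorem h85_coverB {V FX FS JX JS : Finset ℕ} {β : ℕ → ℕ} {κ : ℕ} (hβ : Set.InjOn β V)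
    (h1 : ∀ x ∈ JX, κ ≤ (V.filter fun v => β v + x ∈ FS).card)
    (h2 : ∀ s ∈ JS, κ ≤ (V.filter fun v => β v < s ∧ s - β v ∈ FX).card)
    (hκ : 2 * JX.card + 2 * JS.card < κ) (J : Finset ℕ) (hJ : J ⊆ JS) :
    ∃ (W : Finset ℕ) (z : ℕ → ℕ), h85I V FX FS JX JS β W z ∧ JX ⊆ W.image z ∧
      (J ⊆ W.image fun v => β v + z v) ∧ W.card ≤ JX.card + J.card := by
  induction J using Finset.induction_on with
  | empty =>
    obtain ⟨W, z, hI, hJW, hc⟩ := h85_coverA (FX := FX) hβ h1 hκ JX (Subset.refl _)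
    exact ⟨W, z, hI, hJW, empty_subset _, by simpa using hc⟩
  | insert s J hs ih =>
    obtain ⟨W, z, hI, hXW, hJW, hc⟩ := ih ((subset_insert _ _).trans hJ)
    by_cases hsW : s ∈ W.image fun v => β v + z v
    · refine ⟨W, z, hI, hXW, insert_subset hsW hJW, ?_⟩
      rw [card_insert_of_notMem hs]
      omega
    · have hsJ : s ∈ JS := hJ (mem_insert_self _ _)
      have hcard : J.card ≤ JS.card := card_le_card ((subset_insert _ _).trans hJ)
      obtain ⟨v, hv, hvW, hvs⟩ := h85_pick (V.filter fun v => β v < s ∧ s - β v ∈ FX) W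
        (W.image z) (fun v => s - β v) (by
          intro a ha b hb hab
          have ha' := mem_filter.1 ha
          have hb' := mem_filter.1 hb
          refine hβ ha'.1 hb'.1 ?_
          have h5 := ha'.2.1
          have h6 := hb'.2.1
          change s - β a = s - β b at hab
          omega) (by
          have h3 := h2 s hsJ
          have h4 : (W.image z).card ≤ W.card := card_image_le
          have h5 : (insert s J).card ≤ JS.card := card_le_card hJ
          rw [card_insert_of_notMem hs] at h5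
          omega)
      obtain ⟨hv1, hv2, hv3⟩ := mem_filter.1 hv
      have he : β v + (s - β v) = s := by omega
      obtain ⟨z', hz', i1, i2⟩ := h85_ext hI hv1 hvW
        (Or.inr (Or.inl ⟨hv3, by rw [he]; exact hsJ⟩)) hvs (by rw [he]; exact hsW)
      refine ⟨insert v W, z', hz', ?_, ?_, ?_⟩
      · rw [i1]
        exact hXW.trans (subset_insert _ _)
      · rw [i2, he]
        exact insert_subset_insert _ hJW
      · rw [card_insert_of_notMem hs, card_insert_of_notMem hvW]
        omega

theorem h85_coverC {V FX FS JX JS : Finset ℕ} {β : ℕ → ℕ} {κ' : ℕ}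
    (h3 : ∀ v ∈ V, κ' ≤ (FX.filter fun x => β v + x ∈ FS).card)
    (hκ' : 2 * V.card < κ') (U : Finset ℕ) (hU : U ⊆ V) {W : Finset ℕ} {z : ℕ → ℕ}
    (hI : h85I V FX FS JX JS β W z) (hX : JX ⊆ W.image z)
    (hS : JS ⊆ W.image fun v => β v + z v) :
    ∃ (W : Finset ℕ) (z : ℕ → ℕ), h85I V FX FS JX JS β W z ∧ JX ⊆ W.image z ∧
      (JS ⊆ W.image fun v => β v + z v) ∧ U ⊆ W := by
  induction U using Finset.induction_on with
  | empty => exact ⟨W, z, hI, hX, hS, empty_subset _⟩
  | insert v U hv ih =>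
    obtain ⟨W, z, hI, hX, hS, hUW⟩ := ih ((subset_insert _ _).trans hU)
    by_cases hvW : v ∈ W
    · exact ⟨W, z, hI, hX, hS, insert_subset hvW hUW⟩
    · have hvV : v ∈ V := hU (mem_insert_self _ _)
      have hWV : W.card ≤ V.card := card_le_card hI.1
      obtain ⟨x, hx, hxW, hxs⟩ := h85_pick (FX.filter fun x => β v + x ∈ FS) (W.image z)
        (W.image fun v => β v + z v) (fun x => β v + x) (by
          intro a _ b _ hab
          exact Nat.add_left_cancel hab) (by
          have h4 := h3 v hvV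
          have h5 : (W.image fun v => β v + z v).card ≤ W.card := card_image_le
          have h6 : (W.image z).card ≤ W.card := card_image_le
          omega)
      obtain ⟨hx1, hx2⟩ := mem_filter.1 hx
      obtain ⟨z', hz', i1, i2⟩ := h85_ext hI hvV hvW (Or.inr (Or.inr ⟨hx1, hx2⟩)) hxW hxs
      refine ⟨insert v W, z', hz', ?_, ?_, insert_subset_insert _ hUW⟩
      · rw [i1]
        exact hX.trans (subset_insert _ _)
      · rw [i2]
        exact hS.trans (subset_insert _ _)


/-- the edges which are complete when the vertices `< m` are labelled -/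
def h85E (n : ℕ) (p : ℕ → ℕ) (R : Finset ℕ) (top : ℕ → ℕ) (T : Finset ℕ) (m : ℕ) : Finset ℕ :=
  (EM n p R top T).filter fun i => (i ∉ R ∧ i < m) ∨ (i ∈ R ∧ p i < m)

theorem h85_pick2 (C A B₁ B₂ : Finset ℕ) (a a' : ℕ) (h : A.card + B₁.card + B₂.card < C.card) :
    ∃ x ∈ C, x ∉ A ∧ a + x ∉ B₁ ∧ a' + x ∉ B₂ := by
  obtain ⟨x, hx, hxA, hxB⟩ := h85_pick C (A ∪ C.filter fun x => a' + x ∈ B₂) B₁
    (fun x => a + x) (fun b _ c _ hbc => Nat.add_left_cancel hbc) (by
      have h1 := card_union_le A (C.filter fun x => a' + x ∈ B₂)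
      have h2 : (C.filter fun x => a' + x ∈ B₂).card ≤ B₂.card := by
        refine card_le_card_of_injOn (fun x => a' + x) (fun c hc => ?_)
          (fun b _ c _ hbc => Nat.add_left_cancel hbc)
        exact (mem_filter.1 hc).2
      omega)
  rw [mem_union, not_or] at hxA
  exact ⟨x, hx, hxA.1, hxB, fun h => hxA.2 (mem_filter.2 ⟨hx, h⟩)⟩

theorem h85_embed_aux {n K κ : ℕ} {p top lab : ℕ → ℕ} {R Tl FX FS : Finset ℕ} (hp : Par n p)
    (hD : Dec n p K R top) (hlab : ∀ r ∈ R, lab r ∉ FX)
    (hC : ∀ a a' : ℕ, (a ∈ FX ∨ a ∈ R.image lab) → a' ∈ R.image lab →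
      κ ≤ (FX.filter fun x => a + x ∈ FS ∧ a' + x ∈ FS).card)
    (hκ : (MV n R top Tl).card + 2 * (EM n p R top Tl).card < κ) (m : ℕ) :
    ∃ f : ℕ → ℕ, (∀ r ∈ R, f r = lab r) ∧ (∀ v ∈ (MV n R top Tl).filter (· < m), f v ∈ FX) ∧
      (∀ i ∈ h85E n p R top Tl m, f i + f (p i) ∈ FS) ∧
      Set.InjOn f ((MV n R top Tl).filter (· < m)) ∧
      Set.InjOn (fun i => f i + f (p i)) (h85E n p R top Tl m) := by
  classical
  have hpos : ∀ {v}, v ∉ R → 0 < v := fun {v} hv =>
    Nat.pos_of_ne_zero fun h => hv (h ▸ hD.zero)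
  induction m with
  | zero =>
    refine ⟨lab, fun r _ => rfl, fun v hv => ?_, fun i hi => ?_, ?_, ?_⟩
    · exact absurd (mem_filter.1 hv).2 (Nat.not_lt_zero _)
    · rcases (mem_filter.1 hi).2 with h | h
      · exact absurd h.2 (Nat.not_lt_zero _)
      · exact absurd h.2 (Nat.not_lt_zero _)
    · intro v hv
      have hv' : v ∈ (MV n R top Tl).filter (· < 0) := hv
      exact absurd (mem_filter.1 hv').2 (Nat.not_lt_zero _)
    · intro i hi
      have hi' : i ∈ h85E n p R top Tl 0 := hi
      rcases (mem_filter.1 hi').2 with h | h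
      · exact absurd h.2 (Nat.not_lt_zero _)
      · exact absurd h.2 (Nat.not_lt_zero _)
  | succ m ih =>
    obtain ⟨f, hR, hF, hS, hfi, hsi⟩ := ih
    by_cases hm : m ∈ MV n R top Tl
    · -- the new vertex
      obtain ⟨hmn, hmR, hmT⟩ := mem_filter.1 hm
      have hmn : m < n := mem_range.1 hmn
      have hm0 : 0 < m := hpos hmR
      have hpm : p m < m := hp m hm0 hmn
      have ha : f (p m) ∈ FX ∨ f (p m) ∈ R.image lab := by
        by_cases hpR : p m ∈ R
        · right
          rw [hR _ hpR]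
          exact mem_image_of_mem _ hpR
        · left
          refine hF _ (mem_filter.2 ⟨mem_filter.2 ⟨mem_range.2 (hpm.trans hmn), hpR, ?_⟩, hpm⟩)
          rw [← hD.top_step m hmn hmR hpR]
          exact hmT
      -- the exit
      have hr : ∃ a' : ℕ, a' ∈ R.image lab ∧ ∀ r ∈ R, 0 < r → p r = m → lab r = a' ∧
          f (p m) ≠ a' := by
        by_cases hex : ∃ r ∈ R, 0 < r ∧ p r = m
        · obtain ⟨r, hrR, hr0, hrm⟩ := hex
          refine ⟨lab r, mem_image_of_mem _ hrR, fun r' hr'R hr'0 hr'm => ?_⟩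
          have h1 : r' = r := by
            refine hD.exit_unique r' hr'R r hrR hr'0 hr0 ?_ ?_ ?_
            · rw [hr'm]; exact hmR
            · rw [hrm]; exact hmR
            · rw [hr'm, hrm]
          refine ⟨by rw [h1], ?_⟩
          have h2 : p m ∉ R := by
            have h3 := hD.exit_deep r hrR hr0 (by rw [hrm]; exact hmR)
            rwa [hrm] at h3
          have h4 : f (p m) ∈ FX := by
            refine hF _ (mem_filter.2 ⟨mem_filter.2 ⟨mem_range.2 (hpm.trans hmn), h2, ?_⟩, hpm⟩)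
            rw [← hD.top_step m hmn hmR h2]
            exact hmT
          intro h5
          exact hlab r hrR (h5 ▸ h4)
        · refine ⟨lab 0, mem_image_of_mem _ hD.zero, fun r hrR hr0 hrm => ?_⟩
          exact absurd ⟨r, hrR, hr0, hrm⟩ hex
      obtain ⟨a', ha', hexit⟩ := hr
      have hcard := hC (f (p m)) a' ha ha'
      have c1 : (((MV n R top Tl).filter (· < m)).image f).card ≤ (MV n R top Tl).card :=
        card_image_le.trans (card_filter_le _ _)
      have c2 : ((h85E n p R top Tl m).image fun i => f i + f (p i)).card ≤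
          (EM n p R top Tl).card := card_image_le.trans (card_filter_le _ _)
      obtain ⟨x, hx, hxA, hxB, hxB'⟩ := h85_pick2
        (FX.filter fun x => f (p m) + x ∈ FS ∧ a' + x ∈ FS)
        (((MV n R top Tl).filter (· < m)).image f)
        ((h85E n p R top Tl m).image fun i => f i + f (p i))
        ((h85E n p R top Tl m).image fun i => f i + f (p i)) (f (p m)) a' (by omega)
      obtain ⟨hxF, hxS, hxS'⟩ := mem_filter.1 hx
      let g := Function.update f m x
      have gm : g m = x := Function.update_self _ _ _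
      have gne : ∀ v, v ≠ m → g v = f v := fun v hv => Function.update_of_ne hv _ _
      -- classification of the edges
      have hcl : ∀ i ∈ h85E n p R top Tl (m + 1),
          (i ∈ h85E n p R top Tl m ∧ g i + g (p i) = f i + f (p i)) ∨
          (i = m ∧ g i + g (p i) = f (p m) + x) ∨
          (i ∈ R ∧ 0 < i ∧ p i = m ∧ g i + g (p i) = a' + x) := by
        intro i hi
        obtain ⟨hiE, hi2⟩ := mem_filter.1 hi
        obtain ⟨hin, hi0, hi3⟩ := mem_filter.1 hiE
        have hin : i < n := mem_range.1 hin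
        have hpi : p i < i := hp i hi0 hin
        rcases hi2 with ⟨hiR, him⟩ | ⟨hiR, him⟩
        · rcases Nat.lt_succ_iff_lt_or_eq.1 him with him | him
          · left
            refine ⟨mem_filter.2 ⟨hiE, Or.inl ⟨hiR, him⟩⟩, ?_⟩
            rw [gne i (Nat.ne_of_lt him), gne (p i) (Nat.ne_of_lt (hpi.trans him))]
          · right; left
            subst him
            refine ⟨rfl, ?_⟩
            rw [gm, gne (p i) (Nat.ne_of_lt hpi), Nat.add_comm]
        · have hine : i ≠ m := fun h => hmR (h ▸ hiR)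
          rcases Nat.lt_succ_iff_lt_or_eq.1 him with him | him
          · left
            refine ⟨mem_filter.2 ⟨hiE, Or.inr ⟨hiR, him⟩⟩, ?_⟩
            rw [gne i hine, gne (p i) (Nat.ne_of_lt him)]
          · right; right
            refine ⟨hiR, hi0, him, ?_⟩
            rw [him, gm, gne i hine, hR i hiR, (hexit i hiR hi0 him).1]
      have hMV : ∀ v ∈ (MV n R top Tl).filter (· < m + 1),
          v = m ∨ (v ∈ (MV n R top Tl).filter (· < m) ∧ g v = f v) := by
        intro v hv
        obtain ⟨hv1, hv2⟩ := mem_filter.1 hv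
        rcases Nat.lt_succ_iff_lt_or_eq.1 hv2 with h | h
        · exact Or.inr ⟨mem_filter.2 ⟨hv1, h⟩, gne v (Nat.ne_of_lt h)⟩
        · exact Or.inl h
      refine ⟨g, fun r hrR => ?_, fun v hv => ?_, fun i hi => ?_, ?_, ?_⟩
      · rw [gne r fun h => hmR (h ▸ hrR)]
        exact hR r hrR
      · rcases hMV v hv with rfl | ⟨h1, h2⟩
        · rw [gm]; exact hxF
        · rw [h2]; exact hF v h1
      · rcases hcl i hi with ⟨h1, h2⟩ | ⟨h1, h2⟩ | ⟨h1, h2, h3, h4⟩
        · rw [h2]; exact hS i h1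
        · rw [h2]; exact hxS
        · rw [h4]; exact hxS'
      · intro v hv w hw hvw
        rcases hMV v hv with rfl | ⟨h1, h2⟩
        · rcases hMV w hw with rfl | ⟨h3, h4⟩
          · rfl
          · rw [gm, h4] at hvw
            exact absurd (mem_image.2 ⟨w, h3, hvw.symm⟩) hxA
        · rcases hMV w hw with rfl | ⟨h3, h4⟩
          · rw [gm, h2] at hvw
            exact absurd (mem_image.2 ⟨v, h1, hvw⟩) hxA
          · rw [h2, h4] at hvw
            exact hfi h1 h3 hvw
      · intro i hi j hj hij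
        change g i + g (p i) = g j + g (p j) at hij
        rcases hcl i hi with ⟨h1, h2⟩ | ⟨h1, h2⟩ | ⟨h1, h2, h3, h4⟩
        · rcases hcl j hj with ⟨k1, k2⟩ | ⟨k1, k2⟩ | ⟨k1, k2, k3, k4⟩
          · rw [h2, k2] at hij
            exact hsi h1 k1 hij
          · rw [h2, k2] at hij
            exact absurd (mem_image.2 ⟨i, h1, hij⟩) hxB
          · rw [h2, k4] at hij
            exact absurd (mem_image.2 ⟨i, h1, hij⟩) hxB'
        · rcases hcl j hj with ⟨k1, k2⟩ | ⟨k1, k2⟩ | ⟨k1, k2, k3, k4⟩
          · rw [h2, k2] at hij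
            exact absurd (mem_image.2 ⟨j, k1, hij.symm⟩) hxB
          · rw [h1, k1]
          · rw [h2, k4] at hij
            exact absurd (Nat.add_right_cancel hij) (hexit j k1 k2 k3).2
        · rcases hcl j hj with ⟨k1, k2⟩ | ⟨k1, k2⟩ | ⟨k1, k2, k3, k4⟩
          · rw [h4, k2] at hij
            exact absurd (mem_image.2 ⟨j, k1, hij.symm⟩) hxB'
          · rw [h4, k2] at hij
            exact absurd (Nat.add_right_cancel hij.symm) (hexit i h1 h2 h3).2
          · refine hD.exit_unique i h1 j k1 h2 k2 ?_ ?_ ?_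
            · rw [h3]; exact hmR
            · rw [k3]; exact hmR
            · rw [h3, k3]
    · -- nothing new
      have h1 : (MV n R top Tl).filter (· < m + 1) = (MV n R top Tl).filter (· < m) := by
        refine filter_congr fun v hv => ?_
        rw [Nat.lt_succ_iff_lt_or_eq]
        constructor
        · rintro (h | h)
          · exact h
          · exact absurd (h ▸ hv) hm
        · exact Or.inl
      have h2 : h85E n p R top Tl (m + 1) = h85E n p R top Tl m := by
        refine filter_congr fun i hi => ?_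
        obtain ⟨hin, hi0, hi3⟩ := mem_filter.1 hi
        have hin : i < n := mem_range.1 hin
        have hpi : p i < i := hp i hi0 hin
        rw [Nat.lt_succ_iff_lt_or_eq, Nat.lt_succ_iff_lt_or_eq]
        constructor
        · rintro (⟨h1, h2 | h2⟩ | ⟨h1, h2 | h2⟩)
          · exact Or.inl ⟨h1, h2⟩
          · exfalso
            rcases hi3 with h3 | h3
            · exact hm (h2 ▸ mem_filter.2 ⟨mem_range.2 hin, h3⟩)
            · exact h1 h3.1
          · exact Or.inr ⟨h1, h2⟩
          · exfalso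
            rcases hi3 with h3 | h3
            · exact h3.1 h1
            · exact hm (h2 ▸ mem_filter.2 ⟨mem_range.2 (hpi.trans hin), h3.2⟩)
        · rintro (⟨h1, h2⟩ | ⟨h1, h2⟩)
          · exact Or.inl ⟨h1, Or.inl h2⟩
          · exact Or.inr ⟨h1, Or.inl h2⟩
      rw [h1, h2]
      exact ⟨f, hR, hF, hS, hfi, hsi⟩

theorem embed_left {n K κ : ℕ} {p top lab : ℕ → ℕ} {R Tl FX FS : Finset ℕ} (hp : Par n p)
    (hD : Dec n p K R top) (hlab : ∀ r ∈ R, lab r ∉ FX)
    (hC : ∀ a a' : ℕ, (a ∈ FX ∨ a ∈ R.image lab) → a' ∈ R.image lab →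
      κ ≤ (FX.filter fun x => a + x ∈ FS ∧ a' + x ∈ FS).card)
    (hκ : (MV n R top Tl).card + 2 * (EM n p R top Tl).card < κ) :
    ∃ f : ℕ → ℕ, (∀ r ∈ R, f r = lab r) ∧ (∀ v ∈ MV n R top Tl, f v ∈ FX) ∧
      (∀ i ∈ EM n p R top Tl, f i + f (p i) ∈ FS) ∧ Set.InjOn f (MV n R top Tl) ∧
      Set.InjOn (fun i => f i + f (p i)) (EM n p R top Tl) := by
  obtain ⟨f, h1, h2, h3, h4, h5⟩ := h85_embed_aux hp hD hlab hC hκ n
  have e1 : (MV n R top Tl).filter (· < n) = MV n R top Tl := by
    refine filter_true_of_mem fun v hv => ?_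
    exact mem_range.1 (mem_filter.1 hv).1
  have e2 : h85E n p R top Tl n = EM n p R top Tl := by
    refine filter_true_of_mem fun i hi => ?_
    obtain ⟨hin, hi0, -⟩ := mem_filter.1 hi
    have hin : i < n := mem_range.1 hin
    by_cases hiR : i ∈ R
    · exact Or.inr ⟨hiR, (hp i hi0 hin).trans hin⟩
    · exact Or.inl ⟨hiR, hin⟩
  rw [e1] at h2 h4
  rw [e2] at h3 h5
  exact ⟨f, h1, h2, h3, h4, h5⟩

theorem cover {V FX FS JX JS : Finset ℕ} {β : ℕ → ℕ} {κ κ' : ℕ} (hβ : Set.InjOn β V)
    (hXd : Disjoint FX JX) (hSd : Disjoint FS JS)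
    (h1 : ∀ x ∈ JX, κ ≤ (V.filter fun v => β v + x ∈ FS).card)
    (h2 : ∀ s ∈ JS, κ ≤ (V.filter fun v => β v < s ∧ s - β v ∈ FX).card)
    (h3 : ∀ v ∈ V, κ' ≤ (FX.filter fun x => β v + x ∈ FS).card)
    (hκ : 2 * JX.card + 2 * JS.card < κ) (hκ' : 2 * V.card < κ') :
    ∃ z : ℕ → ℕ, Set.InjOn z V ∧ Set.InjOn (fun v => β v + z v) V ∧
      (∀ v ∈ V, (z v ∈ JX ∧ β v + z v ∈ FS) ∨ (z v ∈ FX ∧ β v + z v ∈ JS) ∨
        (z v ∈ FX ∧ β v + z v ∈ FS)) ∧
      JX ⊆ V.image z ∧ JS ⊆ V.image fun v => β v + z v := by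
  obtain ⟨W, z, hI, hX, hS, -⟩ := h85_coverB (FX := FX) hβ h1 h2 hκ JS (Subset.refl _)
  obtain ⟨W, z, hI, hX, hS, hVW⟩ := h85_coverC h3 hκ' V (Subset.refl _) hI hX hS
  have hWV : W = V := Subset.antisymm hI.1 hVW
  subst hWV
  exact ⟨z, hI.2.1, hI.2.2.1, hI.2.2.2, hX, hS⟩

end Pool.Agent.SEM
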