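import Pool.Agent.Helper73.SEM.FC
import Pool.Agent.Helper73.SEM.CD
import Pool.Agent.Helper73.SEM.GD

/-!
# SEM-FB: final assembly for given data
-/

set_option autoImplicit false

namespace Pool.Agent.SEM

open Finset

/-- edges inside `R` -/
def RR (p : ℕ → ℕ) (R : Finset ℕ) : Finset ℕ := R.filter fun r => 0 < r ∧ p r ∈ R

/-- all the labels used by the special structure (without the absorber's own labels) -/
def UXs (lab β : ℕ → ℕ) (R Res FX YX : Finset ℕ) : Finset ℕ :=
  R.image lab ∪ (FX ∪ (YX ∪ Res.image β))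

def USs (p lab β : ℕ → ℕ) (R Res FS YS : Finset ℕ) : Finset ℕ :=
  (RR p R).image (fun r => lab r + lab (p r)) ∪ (FS ∪ (YS ∪ Res.image fun v => lab (p v) + β v))

structure Dat (n K mX mS κ κ' : ℕ) (p top lab β : ℕ → ℕ) (R Res P FX FS YX YS L Sm : Finset ℕ) :
    Prop where
  par : Par n p
  dec : Dec n p K R top
  sp : ∀ v ∈ Res ∪ P, Pend n p v ∧ p v ∈ R ∧ v ∉ R ∧ uc n p v ∉ R
  rp : Disjoint Res P
  labI : Set.InjOn lab R
  labR : R.image lab ⊆ Icc 1 n
  rsI : Set.InjOn (fun r => lab r + lab (p r)) (RR p R : Finset ℕ)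
  rsW : (RR p R).image (fun r => lab r + lab (p r)) ⊆ Win n
  βI : Set.InjOn β Res
  βR : Res.image β ⊆ Icc 1 n
  cbI : Set.InjOn (fun v => lab (p v) + β v) Res
  cbW : (Res.image fun v => lab (p v) + β v) ⊆ Win n
  FXR : FX ⊆ Icc 1 n
  YXR : YX ⊆ Icc 1 n
  LR : L ⊆ Icc 1 n
  FSR : FS ⊆ Win n
  YSR : YS ⊆ Win n
  SmR : Sm ⊆ Win n
  dX1 : Disjoint (R.image lab) (FX ∪ (YX ∪ Res.image β))
  dX2 : Disjoint FX (YX ∪ Res.image β)
  dX3 : Disjoint YX (Res.image β)
  dX4 : Disjoint L (UXs lab β R Res FX YX)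
  dS1 : Disjoint ((RR p R).image fun r => lab r + lab (p r))
    (FS ∪ (YS ∪ Res.image fun v => lab (p v) + β v))
  dS2 : Disjoint FS (YS ∪ Res.image fun v => lab (p v) + β v)
  dS3 : Disjoint YS (Res.image fun v => lab (p v) + β v)
  dS4 : Disjoint Sm (USs p lab β R Res FS YS)
  cX : FX.card = Res.card + mX
  cYX : YX.card = 2 * mX
  cPX : 2 * P.card = L.card + 3 * mX
  cS : FS.card = Res.card + mS
  cYS : YS.card = 2 * mS
  cPS : 2 * P.card = Sm.card + 3 * mS
  absb : ∀ FX' ⊆ FX, FX'.card = mX → ∀ FS' ⊆ FS, FS'.card = mS → ∃ XL XS : Finset ℕ,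
    XL ⊆ YX ∪ FX' ∧ XS ⊆ YS ∪ FS' ∧ Abs (fun v => lab (p v)) P (L ∪ XL) (Sm ∪ XS)
  c1 : ∀ x ∈ Icc 1 n, κ ≤ (Res.filter fun v => β v + x ∈ FS).card
  c2 : ∀ s ∈ Win n, κ ≤ (Res.filter fun v => β v < s ∧ s - β v ∈ FX).card
  c3 : ∀ v ∈ Res, κ' ≤ (FX.filter fun x => β v + x ∈ FS).card
  c4 : ∀ a a' : ℕ, (a ∈ FX ∨ a ∈ R.image lab) → a' ∈ R.image lab →
      κ' ≤ (FX.filter fun x => a + x ∈ FS ∧ a' + x ∈ FS).card

/-- main tops, labels and sums -/
def TT (n : ℕ) (p : ℕ → ℕ) (R Res P : Finset ℕ) : Finset ℕ := tops n p R \ (Res ∪ P)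

def XX (n : ℕ) (lab β : ℕ → ℕ) (R Res FX YX L : Finset ℕ) : Finset ℕ :=
  Icc 1 n \ (UXs lab β R Res FX YX ∪ L)

def SS (n : ℕ) (p lab β : ℕ → ℕ) (R Res FS YS Sm : Finset ℕ) : Finset ℕ :=
  Win n \ (USs p lab β R Res FS YS ∪ Sm)

theorem Win_card (n : ℕ) : (Win n).card = n - 1 := by
  simp [Win]; omega

section
variable {n K mX mS κ κ' : ℕ} {p top lab β : ℕ → ℕ} {R Res P FX FS YX YS L Sm : Finset ℕ}

theorem Dat.npos (D : Dat n K mX mS κ κ' p top lab β R Res P FX FS YX YS L Sm) : 0 < n := by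
  have := D.dec.sub D.dec.zero
  simpa using this

theorem Dat.cardX (D : Dat n K mX mS κ κ' p top lab β R Res P FX FS YX YS L Sm) :
    (MV n R top (TT n p R Res P)).card = (XX n lab β R Res FX YX L).card := by
  classical
  have h1 := MV_card D.par D.dec (Z := Res ∪ P) D.sp
  rw [card_union_of_disjoint D.rp] at h1
  have h2 : (XX n lab β R Res FX YX L).card + (R.card + (FX.card + (YX.card + Res.card)) + L.card)
      = n := by
    have hsub : UXs lab β R Res FX YX ∪ L ⊆ Icc 1 n := by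
      unfold UXs
      exact union_subset (union_subset D.labR (union_subset D.FXR (union_subset D.YXR D.βR))) D.LR
    have h3 := card_sdiff_add_card_eq_card hsub
    rw [Nat.card_Icc, card_union_of_disjoint D.dX4.symm] at h3
    have h4 : (UXs lab β R Res FX YX).card = R.card + (FX.card + (YX.card + Res.card)) := by
      unfold UXs
      rw [card_union_of_disjoint D.dX1, card_union_of_disjoint D.dX2, card_union_of_disjoint D.dX3,
        card_image_of_injOn D.labI, card_image_of_injOn D.βI]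
    rw [h4] at h3
    unfold XX
    omega
  have := D.cX; have := D.cYX; have := D.cPX
  unfold TT
  omega

theorem Dat.cardS (D : Dat n K mX mS κ κ' p top lab β R Res P FX FS YX YS L Sm) :
    (EM n p R top (TT n p R Res P)).card = (SS n p lab β R Res FS YS Sm).card := by
  classical
  have h1 := EM_card D.par D.dec D.npos (Z := Res ∪ P) D.sp
  rw [card_union_of_disjoint D.rp] at h1
  have h2 : (SS n p lab β R Res FS YS Sm).card +
      ((RR p R).card + (FS.card + (YS.card + Res.card)) + Sm.card) = n - 1 := by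
    have hsub : USs p lab β R Res FS YS ∪ Sm ⊆ Win n := by
      unfold USs
      exact union_subset (union_subset D.rsW (union_subset D.FSR (union_subset D.YSR D.cbW))) D.SmR
    have h3 := card_sdiff_add_card_eq_card hsub
    rw [Win_card, card_union_of_disjoint D.dS4.symm] at h3
    have h4 : (USs p lab β R Res FS YS).card =
        (RR p R).card + (FS.card + (YS.card + Res.card)) := by
      unfold USs
      rw [card_union_of_disjoint D.dS1, card_union_of_disjoint D.dS2, card_union_of_disjoint D.dS3,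
        card_image_of_injOn D.rsI, card_image_of_injOn D.cbI]
    rw [h4] at h3
    unfold SS
    omega
  have := D.cS; have := D.cYS; have := D.cPS; have := D.npos
  unfold TT
  have hRR : (RR p R).card = (R.filter fun r => 0 < r ∧ p r ∈ R).card := rfl
  omega

end

/-- injectivity on a union of classes -/
theorem injOn_classes {D : Finset ℕ} (f cl : ℕ → ℕ) (Λ : ℕ → Finset ℕ)
    (h1 : ∀ i ∈ D, f i ∈ Λ (cl i)) (h2 : ∀ i ∈ D, ∀ j ∈ D, cl i ≠ cl j → Disjoint (Λ (cl i)) (Λ (cl j)))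
    (h3 : ∀ i ∈ D, ∀ j ∈ D, cl i = cl j → f i = f j → i = j) : Set.InjOn f D := by
  intro i hi j hj h
  by_cases hc : cl i = cl j
  · exact h3 i hi j hj hc h
  · exfalso
    have := h2 i hi j hj hc
    rw [disjoint_left] at this
    exact this (h1 i hi) (by rw [h]; exact h1 j hj)

end Pool.Agent.SEM
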