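import Pool.Agent.Helper73.SEM.FT

/-!
# SEM-FC: cardinalities of the main part
-/

set_option autoImplicit false

namespace Pool.Agent.SEM

open Finset

section
variable {n K : ℕ} {p top : ℕ → ℕ} {R Z : Finset ℕ}

theorem MV_card (hp : Par n p) (hD : Dec n p K R top)
    (hZ : ∀ v ∈ Z, Pend n p v ∧ p v ∈ R ∧ v ∉ R ∧ uc n p v ∉ R) :
    (MV n R top (tops n p R \ Z)).card + R.card + 2 * Z.card = n := by
  classical
  have hinj : Set.InjOn (uc n p) Z := by
    intro v hv w hw h
    have h1 := (hZ v hv).1.uc_spec.2.2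
    have h2 := (hZ w hw).1.uc_spec.2.2
    rw [← h1, ← h2, h]
  have hun : range n = (MV n R top (tops n p R \ Z) ∪ R) ∪ (Z ∪ Z.image (uc n p)) := by
    ext i
    simp only [mem_range, mem_union, mem_MV, mem_sdiff, mem_image]
    constructor
    · intro hi
      by_cases hR : i ∈ R
      · exact Or.inl (Or.inr hR)
      · by_cases hz : top i ∈ Z
        · right
          obtain ⟨h1, h2, h3, h4⟩ := hZ _ hz
          rcases (hD.sp_piece hp h1 h2 h3 h4 hi hR).1 rfl with h5 | h5
          · left; rw [h5]; exact hz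
          · right; exact ⟨_, hz, h5.symm⟩
        · left; left
          exact ⟨hi, hR, (hD.top_mem hp i hi hR).1, hz⟩
    · rintro ((h | h) | (h | ⟨v, hv, rfl⟩))
      · exact h.1
      · simpa using hD.sub h
      · exact (hZ i h).1.2.1
      · exact (hZ v hv).1.uc_spec.1
  have hd1 : Disjoint (MV n R top (tops n p R \ Z)) R := by
    rw [disjoint_left]; intro i h1 h2
    exact (mem_MV.1 h1).2.1 h2
  have hd2 : Disjoint Z (Z.image (uc n p)) := by
    rw [disjoint_left]; intro i h1 h2
    obtain ⟨v, hv, rfl⟩ := mem_image.1 h2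
    have h3 := (hZ _ h1).1.uc_mem
    have h4 := (hZ v hv).1.uc_mem.2
    rw [h4] at h3
    exact absurd h3.1.symm (singleton_ne_empty _)
  have hd3 : Disjoint (MV n R top (tops n p R \ Z) ∪ R) (Z ∪ Z.image (uc n p)) := by
    rw [disjoint_left]; intro i h1 h2
    have key : i ∉ R ∧ top i ∈ Z := by
      rcases mem_union.1 h2 with h3 | h3
      · obtain ⟨h4, h5, h6, h7⟩ := hZ i h3
        refine ⟨h6, ?_⟩
        rw [(hD.sp_piece hp h4 h5 h6 h7 h4.2.1 h6).2 (Or.inl rfl)]; exact h3
      · obtain ⟨v, hv, rfl⟩ := mem_image.1 h3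
        obtain ⟨h4, h5, h6, h7⟩ := hZ v hv
        refine ⟨h7, ?_⟩
        rw [(hD.sp_piece hp h4 h5 h6 h7 h4.uc_spec.1 h7).2 (Or.inr rfl)]; exact hv
    rcases mem_union.1 h1 with h3 | h3
    · exact (mem_sdiff.1 (mem_MV.1 h3).2.2).2 key.2
    · exact key.1 h3
  have hc := congrArg card hun
  rw [card_range, card_union_of_disjoint hd3, card_union_of_disjoint hd1, card_union_of_disjoint hd2,
    card_image_of_injOn hinj] at hc
  omega

theorem EM_card (hp : Par n p) (hD : Dec n p K R top) (hn : 0 < n)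
    (hZ : ∀ v ∈ Z, Pend n p v ∧ p v ∈ R ∧ v ∉ R ∧ uc n p v ∉ R) :
    (EM n p R top (tops n p R \ Z)).card + (R.filter fun r => 0 < r ∧ p r ∈ R).card
      + 2 * Z.card + 1 = n := by
  classical
  have hinj : Set.InjOn (uc n p) Z := by
    intro v hv w hw h
    have h1 := (hZ v hv).1.uc_spec.2.2
    have h2 := (hZ w hw).1.uc_spec.2.2
    rw [← h1, ← h2, h]
  have hun : Ico 1 n = (EM n p R top (tops n p R \ Z) ∪ R.filter fun r => 0 < r ∧ p r ∈ R) ∪
      (Z ∪ Z.image (uc n p)) := by
    ext i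
    simp only [mem_Ico, mem_union, mem_EM, mem_sdiff, mem_image, mem_filter]
    constructor
    · intro hi
      by_cases hR : i ∈ R
      · left
        by_cases hpi : p i ∈ R
        · right; exact ⟨hR, by omega, hpi⟩
        · left
          refine ⟨hi.2, by omega, Or.inr ⟨hR, hpi, ?_, ?_⟩⟩
          · have := hp i (by omega) hi.2
            exact (hD.top_mem hp (p i) (by omega) hpi).1
          · intro hz
            obtain ⟨h1, h2, h3, h4⟩ := hZ _ hz
            exact hD.exit_not_sp hp h1 h2 h3 h4 hR (by omega) hpi rfl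
      · by_cases hz : top i ∈ Z
        · right
          obtain ⟨h1, h2, h3, h4⟩ := hZ _ hz
          rcases (hD.sp_piece hp h1 h2 h3 h4 hi.2 hR).1 rfl with h5 | h5
          · left; rw [h5]; exact hz
          · right; exact ⟨_, hz, h5.symm⟩
        · left; left
          exact ⟨hi.2, by omega, Or.inl ⟨hR, (hD.top_mem hp i hi.2 hR).1, hz⟩⟩
    · rintro ((h | h) | (h | ⟨v, hv, rfl⟩))
      · exact ⟨h.2.1, h.1⟩
      · have := hD.sub h.1
        simp only [mem_range] at this
        exact ⟨h.2.1, this⟩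
      · exact ⟨(hZ i h).1.1, (hZ i h).1.2.1⟩
      · have := (hZ v hv).1.uc_spec
        exact ⟨this.2.1, this.1⟩
  have hd1 : Disjoint (EM n p R top (tops n p R \ Z)) (R.filter fun r => 0 < r ∧ p r ∈ R) := by
    rw [disjoint_left]; intro i h1 h2
    have h3 := (mem_EM.1 h1).2.2
    have h4 := mem_filter.1 h2
    rcases h3 with h3 | h3
    · exact h3.1 h4.1
    · exact h3.2.1 h4.2.2
  have hd2 : Disjoint Z (Z.image (uc n p)) := by
    rw [disjoint_left]; intro i h1 h2
    obtain ⟨v, hv, rfl⟩ := mem_image.1 h2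
    have h3 := (hZ _ h1).1.uc_mem
    have h4 := (hZ v hv).1.uc_mem.2
    rw [h4] at h3
    exact absurd h3.1.symm (singleton_ne_empty _)
  have hd3 : Disjoint (EM n p R top (tops n p R \ Z) ∪ R.filter fun r => 0 < r ∧ p r ∈ R)
      (Z ∪ Z.image (uc n p)) := by
    rw [disjoint_left]; intro i h1 h2
    have key : i ∉ R ∧ top i ∈ Z := by
      rcases mem_union.1 h2 with h3 | h3
      · obtain ⟨h4, h5, h6, h7⟩ := hZ i h3
        refine ⟨h6, ?_⟩
        rw [(hD.sp_piece hp h4 h5 h6 h7 h4.2.1 h6).2 (Or.inl rfl)]; exact h3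
      · obtain ⟨v, hv, rfl⟩ := mem_image.1 h3
        obtain ⟨h4, h5, h6, h7⟩ := hZ v hv
        refine ⟨h7, ?_⟩
        rw [(hD.sp_piece hp h4 h5 h6 h7 h4.uc_spec.1 h7).2 (Or.inr rfl)]; exact hv
    rcases mem_union.1 h1 with h3 | h3
    · rcases (mem_EM.1 h3).2.2 with h4 | h4
      · exact (mem_sdiff.1 h4.2).2 key.2
      · exact key.1 h4.1
    · exact key.1 (mem_filter.1 h3).1
  have hc := congrArg card hun
  rw [Nat.card_Ico, card_union_of_disjoint hd3, card_union_of_disjoint hd1,
    card_union_of_disjoint hd2, card_image_of_injOn hinj] at hc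
  omega

end

end Pool.Agent.SEM
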