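import Mathlib

/-!
# Project SEM (MP_138ac9_co): almost all trees are super edge-magic

Trees are given by a parent function `p` on `0..n-1` with root `0`.
-/

set_option autoImplicit false

namespace Pool.Agent.SEM

open Finset

/-- `p` is a parent function on `0..n-1` (root `0`). -/
def Par (n : ℕ) (p : ℕ → ℕ) : Prop := ∀ i, 0 < i → i < n → p i < i

/-- the children of `v` -/
def chl (n : ℕ) (p : ℕ → ℕ) (v : ℕ) : Finset ℕ := (range n).filter fun j => 0 < j ∧ p j = v

/-- `v` is not the root, has exactly one child and this child has no child. -/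
def Pend (n : ℕ) (p : ℕ → ℕ) (v : ℕ) : Prop :=
  0 < v ∧ v < n ∧ ∃ u, chl n p v = {u} ∧ chl n p u = ∅

/-- the (largest) child of `v` -/
def uc (n : ℕ) (p : ℕ → ℕ) (v : ℕ) : ℕ := (chl n p v).sup id

/-- the window of the `n-1` admissible sums -/
def Win (n : ℕ) : Finset ℕ := Icc (n / 2 + 2) (n / 2 + n)

/-- super edge-magic labelling of the tree `p` (parent form) -/
def IsSEM (n : ℕ) (p : ℕ → ℕ) : Prop :=
  ∃ f : ℕ → ℕ, (∀ i, i < n → f i ∈ Icc 1 n) ∧ Set.InjOn f (range n) ∧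
    (∀ i, 0 < i → i < n → f i + f (p i) ∈ Win n) ∧
    Set.InjOn (fun i => f i + f (p i)) (Ico 1 n)

/-- decomposition of the tree: `R` is the set of separating vertices, `top v` the top vertex of the
piece (component of the complement of `R`) of `v`. -/
structure Dec (n : ℕ) (p : ℕ → ℕ) (K : ℕ) (R : Finset ℕ) (top : ℕ → ℕ) : Prop where
  sub : R ⊆ range n
  zero : 0 ∈ R
  top_root : ∀ v, v < n → v ∉ R → p v ∈ R → top v = v
  top_step : ∀ v, v < n → v ∉ R → p v ∉ R → top v = top (p v)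
  size : ∀ t, ((range n).filter fun v => v ∉ R ∧ top v = t).card ≤ K
  exit_unique : ∀ r ∈ R, ∀ r' ∈ R, 0 < r → 0 < r' → p r ∉ R → p r' ∉ R →
    top (p r) = top (p r') → r = r'
  exit_deep : ∀ r ∈ R, 0 < r → p r ∉ R → p (p r) ∉ R

/-- vertices of the pieces with top in `T` -/
def MV (n : ℕ) (R : Finset ℕ) (top : ℕ → ℕ) (T : Finset ℕ) : Finset ℕ :=
  (range n).filter fun v => v ∉ R ∧ top v ∈ T

/-- edges `(i, p i)` (indexed by `i`) meeting the pieces with top in `T` -/
def EM (n : ℕ) (p : ℕ → ℕ) (R : Finset ℕ) (top : ℕ → ℕ) (T : Finset ℕ) : Finset ℕ :=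
  (range n).filter fun i => 0 < i ∧
    ((i ∉ R ∧ top i ∈ T) ∨ (i ∈ R ∧ p i ∉ R ∧ top (p i) ∈ T))

end Pool.Agent.SEM
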