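import Pool.Agent.Helper73.SEM.KD

/-!
# SEM-LWD: finite random labellings (definitions)
-/

set_option autoImplicit false

namespace Pool.Agent.SEM

open Finset

/-- a finite random labelling: outcomes `Ω`, weights `wt`, labelling `Φ ω : ℕ → ℕ` -/
structure FL where
  Ω : Type
  fin : Fintype Ω
  wt : Ω → ℝ
  Φ : Ω → ℕ → ℕ

/-- expectation -/
noncomputable def FL.Ex (L : FL) (F : (ℕ → ℕ) → ℝ) : ℝ :=
  letI := L.fin
  ∑ ω : L.Ω, L.wt ω * F (L.Φ ω)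

open Classical in
/-- probability -/
noncomputable def FL.Pr (L : FL) (P : (ℕ → ℕ) → Prop) : ℝ := L.Ex fun φ => if P φ then 1 else 0

/-- vertices of the piece with top `t` -/
def pc (n : ℕ) (R : Finset ℕ) (top : ℕ → ℕ) (t : ℕ) : Finset ℕ :=
  (range n).filter fun v => v ∉ R ∧ top v = t

/-- exits of the piece with top `t` -/
def exs (p : ℕ → ℕ) (R : Finset ℕ) (top : ℕ → ℕ) (t : ℕ) : Finset ℕ :=
  R.filter fun r => 0 < r ∧ p r ∉ R ∧ top (p r) = t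

/-- random labelling of the vertices `P` (given the labels `lab` on `R`) with labels in `X`, all sums on the edges
`(i, p i)`, `i ∈ P ∪ ex`, in `S`, and joint probabilities `≤ (U/n)^|A|`. -/
structure PL (n : ℕ) (p : ℕ → ℕ) (R : Finset ℕ) (lab : ℕ → ℕ) (X S P ex : Finset ℕ) (U : ℝ)
    (L : FL) : Prop where
  nn : ∀ ω, 0 ≤ L.wt ω
  one : L.Ex (fun _ => 1) = 1
  onR : ∀ ω, ∀ r ∈ R, L.Φ ω r = lab r
  lbl : ∀ ω, L.wt ω ≠ 0 → ∀ v ∈ P, L.Φ ω v ∈ X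
  sm : ∀ ω, L.wt ω ≠ 0 → ∀ i ∈ P ∪ ex, L.Φ ω i + L.Φ ω (p i) ∈ S
  joint : ∀ A ⊆ P, ∀ x : ℕ → ℕ, L.Pr (fun φ => ∀ v ∈ A, φ v = x v) ≤ (U / n) ^ A.card

end Pool.Agent.SEM
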