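import Pool.Agent.Helper73.SEM.FE

/-!
# SEM-FF: the final labelling
-/

set_option autoImplicit false

namespace Pool.Agent.SEM

open Finset

open Classical in
/-- class of a vertex -/
noncomputable def cls (top : ℕ → ℕ) (R T' Tl Res : Finset ℕ) (i : ℕ) : ℕ :=
  if i ∈ R then 0 else if top i ∈ T' then 1 else if top i ∈ Tl then 2 else
    if top i ∈ Res then (if i = top i then 3 else 4) else 5

open Classical in
/-- class of an edge -/
noncomputable def ecl (p top : ℕ → ℕ) (R T' Tl Res : Finset ℕ) (i : ℕ) : ℕ :=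
  if i ∈ R then (if p i ∈ R then 0 else if top (p i) ∈ T' then 1 else 2)
  else cls top R T' Tl Res i

open Classical in
/-- the final labelling -/
noncomputable def FL0 (top lab f1 f2 β z y y' : ℕ → ℕ) (R T' Tl Res : Finset ℕ) (i : ℕ) : ℕ :=
  if i ∈ R then lab i else if top i ∈ T' then f1 i else if top i ∈ Tl then f2 i else
    if top i ∈ Res then (if i = top i then β i else z (top i)) else
      if i = top i then y i else y' (top i)

section
variable {n K mX mS κ κ' : ℕ} {p top lab β : ℕ → ℕ} {R Res P FX FS YX YS L Sm : Finset ℕ}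

theorem Dat.finish (D : Dat n K mX mS κ κ' p top lab β R Res P FX FS YX YS L Sm)
    {T' : Finset ℕ} {f1 : ℕ → ℕ} {E : ℕ} (hT' : T' ⊆ TT n p R Res P)
    (hR1 : ∀ r ∈ R, f1 r = lab r)
    (hV1 : ∀ v ∈ MV n R top T', f1 v ∈ XX n lab β R Res FX YX L)
    (hE1 : ∀ i ∈ EM n p R top T', f1 i + f1 (p i) ∈ SS n p lab β R Res FS YS Sm)
    (hI1 : Set.InjOn f1 (MV n R top T'))
    (hJ1 : Set.InjOn (fun i => f1 i + f1 (p i)) (EM n p R top T'))
    (hleft : (MV n R top (TT n p R Res P \ T')).card ≤ E) (hκ : 9 * E < κ)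
    (hκ' : 2 * Res.card + 5 * E < κ') : IsSEM n p := by
  classical
  obtain ⟨f2, z, y, y', XL, XS, FX2, FS2, h20, h21, h22, h23, h24, hz1, hz2, hz3, hz4, hFX, hFX1,
    hFX2, hFS, hFS1, hFS2, hXL, hXS, ha1, ha2, ha3, ha4, ha5, ha6, ha7⟩ :=
    D.complete hT' hV1 hE1 hI1 hJ1 hleft hκ hκ'
  set T := TT n p R Res P with hTdef
  set X := XX n lab β R Res FX YX L with hXdef
  set S := SS n p lab β R Res FS YS Sm with hSdef
  set Tl := T \ T' with hTl
  set F := FL0 top lab f1 f2 β z y y' R T' Tl Res with hF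
  have hZ := D.sp
  -- basic facts on the classes
  have htop : ∀ i, i < n → i ∉ R → top i ∈ tops n p R := fun i hi hR => (D.dec.top_mem D.par i hi hR).1
  have hT'res : ∀ v, v ∈ T' → v ∉ Res ∧ v ∉ P := by
    intro v hv
    have := (mem_sdiff.1 (hT' hv)).2
    rw [mem_union, not_or] at this
    exact this
  have hTlres : ∀ v, v ∈ Tl → v ∉ Res ∧ v ∉ P ∧ v ∉ T' := by
    intro v hv
    have h1 := mem_sdiff.1 hv
    have := (mem_sdiff.1 h1.1).2
    rw [mem_union, not_or] at this
    exact ⟨this.1, this.2, h1.2⟩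
  have hcase : ∀ i, i < n → i ∉ R → top i ∈ T' ∨ top i ∈ Tl ∨ top i ∈ Res ∨ top i ∈ P := by
    intro i hi hR
    by_cases h1 : top i ∈ T'
    · exact Or.inl h1
    · by_cases h2 : top i ∈ Res
      · exact Or.inr (Or.inr (Or.inl h2))
      · by_cases h3 : top i ∈ P
        · exact Or.inr (Or.inr (Or.inr h3))
        · refine Or.inr (Or.inl ?_)
          rw [hTl, mem_sdiff, hTdef]
          refine ⟨?_, h1⟩
          unfold TT
          rw [mem_sdiff, mem_union, not_or]
          exact ⟨htop i hi hR, h2, h3⟩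
  have hRP : ∀ v, v ∈ Res → v ∉ P := fun v h => disjoint_left.1 D.rp h
  -- evaluation lemmas
  have F0 : ∀ r ∈ R, F r = lab r := by
    intro r hr; simp [hF, FL0, hr]
  have F1 : ∀ i, i ∉ R → top i ∈ T' → F i = f1 i := by
    intro i h1 h2; simp [hF, FL0, h1, h2]
  have F2 : ∀ i, i ∉ R → top i ∈ Tl → F i = f2 i := by
    intro i h1 h2
    have := (hTlres _ h2).2.2
    simp [hF, FL0, h1, h2, this]
  have F3 : ∀ v ∈ Res, F v = β v := by
    intro v hv
    obtain ⟨g1, g2, g3, g4⟩ := hZ v (mem_union_left _ hv)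
    have ht : top v = v := D.dec.top_root v g1.2.1 g3 g2
    have h1 : v ∉ T' := fun h => (hT'res v h).1 hv
    have h2 : v ∉ Tl := fun h => (hTlres v h).1 hv
    simp [hF, FL0, g3, ht, h1, h2, hv]
  have F4 : ∀ v ∈ Res, F (uc n p v) = z v := by
    intro v hv
    obtain ⟨g1, g2, g3, g4⟩ := hZ v (mem_union_left _ hv)
    have ht : top (uc n p v) = v :=
      (D.dec.sp_piece D.par g1 g2 g3 g4 g1.uc_spec.1 g4).2 (Or.inr rfl)
    have h1 : v ∉ T' := fun h => (hT'res v h).1 hv
    have h2 : v ∉ Tl := fun h => (hTlres v h).1 hv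
    have h3 : uc n p v ≠ v := by
      intro h
      have h4 := g1.uc_spec
      have h5 := D.par _ h4.2.1 h4.1
      rw [h4.2.2] at h5; omega
    simp [hF, FL0, g4, ht, h1, h2, hv, h3]
  have F5 : ∀ v ∈ P, F v = y v := by
    intro v hv
    obtain ⟨g1, g2, g3, g4⟩ := hZ v (mem_union_right _ hv)
    have ht : top v = v := D.dec.top_root v g1.2.1 g3 g2
    have h1 : v ∉ T' := fun h => (hT'res v h).2 hv
    have h2 : v ∉ Tl := fun h => (hTlres v h).2.1 hv
    have h3 : v ∉ Res := fun h => hRP v h hv
    simp [hF, FL0, g3, ht, h1, h2, h3]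
  have F6 : ∀ v ∈ P, F (uc n p v) = y' v := by
    intro v hv
    obtain ⟨g1, g2, g3, g4⟩ := hZ v (mem_union_right _ hv)
    have ht : top (uc n p v) = v :=
      (D.dec.sp_piece D.par g1 g2 g3 g4 g1.uc_spec.1 g4).2 (Or.inr rfl)
    have h1 : v ∉ T' := fun h => (hT'res v h).2 hv
    have h2 : v ∉ Tl := fun h => (hTlres v h).2.1 hv
    have h3 : v ∉ Res := fun h => hRP v h hv
    have h5 : uc n p v ≠ v := by
      intro h
      have h4 := g1.uc_spec
      have h5 := D.par _ h4.2.1 h4.1
      rw [h4.2.2] at h5; omega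
    simp [hF, FL0, g4, ht, h1, h2, h3, h5]
  -- structure of the special vertices
  have hsp : ∀ i, i < n → i ∉ R → ∀ v ∈ Res ∪ P, top i = v → i = v ∨ i = uc n p v := by
    intro i hi hR v hv h
    obtain ⟨g1, g2, g3, g4⟩ := hZ v hv
    exact (D.dec.sp_piece D.par g1 g2 g3 g4 hi hR).1 h
  -- label sets
  let Λ : ℕ → Finset ℕ := fun c =>
    if c = 0 then R.image lab else if c = 1 then (MV n R top T').image f1
    else if c = 2 then (MV n R top Tl).image f2 else if c = 3 then Res.image β
    else if c = 4 then Res.image z else L ∪ XL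
  let Sg : ℕ → Finset ℕ := fun c =>
    if c = 0 then (RR p R).image (fun r => lab r + lab (p r))
    else if c = 1 then (EM n p R top T').image (fun i => f1 i + f1 (p i))
    else if c = 2 then (EM n p R top Tl).image (fun i => f2 i + f2 (p i))
    else if c = 3 then Res.image (fun v => lab (p v) + β v)
    else if c = 4 then Res.image (fun v => β v + z v) else Sm ∪ XS
  -- disjointness facts, labels
  have dA : ∀ x ∈ R.image lab, x ∉ FX ∧ x ∉ YX ∧ x ∉ Res.image β ∧ x ∉ L ∧ x ∉ X := by
    intro x hx
    have h1 := disjoint_left.1 D.dX1 hx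
    rw [mem_union, mem_union, not_or, not_or] at h1
    refine ⟨h1.1, h1.2.1, h1.2.2, ?_, ?_⟩
    · intro h
      exact disjoint_left.1 D.dX4 h (mem_union_left _ hx)
    · intro h
      exact (mem_sdiff.1 h).2 (mem_union_left _ (mem_union_left _ hx))
  have dFX : ∀ x ∈ FX, x ∉ YX ∧ x ∉ Res.image β ∧ x ∉ L ∧ x ∉ X := by
    intro x hx
    have h1 := disjoint_left.1 D.dX2 hx
    rw [mem_union, not_or] at h1
    refine ⟨h1.1, h1.2, ?_, ?_⟩
    · intro h
      exact disjoint_left.1 D.dX4 h (mem_union_right _ (mem_union_left _ hx))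
    · intro h
      exact (mem_sdiff.1 h).2 (mem_union_left _ (mem_union_right _ (mem_union_left _ hx)))
  have dYX : ∀ x ∈ YX, x ∉ Res.image β ∧ x ∉ L ∧ x ∉ X := by
    intro x hx
    refine ⟨disjoint_left.1 D.dX3 hx, ?_, ?_⟩
    · intro h
      exact disjoint_left.1 D.dX4 h
        (mem_union_right _ (mem_union_right _ (mem_union_left _ hx)))
    · intro h
      exact (mem_sdiff.1 h).2 (mem_union_left _
        (mem_union_right _ (mem_union_right _ (mem_union_left _ hx))))
  have dB : ∀ x ∈ Res.image β, x ∉ L ∧ x ∉ X := by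
    intro x hx
    refine ⟨?_, ?_⟩
    · intro h
      exact disjoint_left.1 D.dX4 h
        (mem_union_right _ (mem_union_right _ (mem_union_right _ hx)))
    · intro h
      exact (mem_sdiff.1 h).2 (mem_union_left _
        (mem_union_right _ (mem_union_right _ (mem_union_right _ hx))))
  have dL : ∀ x ∈ L, x ∉ X := by
    intro x hx h
    exact (mem_sdiff.1 h).2 (mem_union_right _ hx)
  -- disjointness facts, sums
  set RS := (RR p R).image (fun r => lab r + lab (p r)) with hRS
  set CB := Res.image (fun v => lab (p v) + β v) with hCB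
  have eA : ∀ x ∈ RS, x ∉ FS ∧ x ∉ YS ∧ x ∉ CB ∧ x ∉ Sm ∧ x ∉ S := by
    intro x hx
    have h1 := disjoint_left.1 D.dS1 hx
    rw [mem_union, mem_union, not_or, not_or] at h1
    refine ⟨h1.1, h1.2.1, h1.2.2, ?_, ?_⟩
    · intro h
      exact disjoint_left.1 D.dS4 h (mem_union_left _ hx)
    · intro h
      exact (mem_sdiff.1 h).2 (mem_union_left _ (mem_union_left _ hx))
  have eFS : ∀ x ∈ FS, x ∉ YS ∧ x ∉ CB ∧ x ∉ Sm ∧ x ∉ S := by
    intro x hx
    have h1 := disjoint_left.1 D.dS2 hx
    rw [mem_union, not_or] at h1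
    refine ⟨h1.1, h1.2, ?_, ?_⟩
    · intro h
      exact disjoint_left.1 D.dS4 h (mem_union_right _ (mem_union_left _ hx))
    · intro h
      exact (mem_sdiff.1 h).2 (mem_union_left _ (mem_union_right _ (mem_union_left _ hx)))
  have eYS : ∀ x ∈ YS, x ∉ CB ∧ x ∉ Sm ∧ x ∉ S := by
    intro x hx
    refine ⟨disjoint_left.1 D.dS3 hx, ?_, ?_⟩
    · intro h
      exact disjoint_left.1 D.dS4 h
        (mem_union_right _ (mem_union_right _ (mem_union_left _ hx)))
    · intro h
      exact (mem_sdiff.1 h).2 (mem_union_left _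
        (mem_union_right _ (mem_union_right _ (mem_union_left _ hx))))
  have eB : ∀ x ∈ CB, x ∉ Sm ∧ x ∉ S := by
    intro x hx
    refine ⟨?_, ?_⟩
    · intro h
      exact disjoint_left.1 D.dS4 h
        (mem_union_right _ (mem_union_right _ (mem_union_right _ hx)))
    · intro h
      exact (mem_sdiff.1 h).2 (mem_union_left _
        (mem_union_right _ (mem_union_right _ (mem_union_right _ hx))))
  have eL : ∀ x ∈ Sm, x ∉ S := by
    intro x hx h
    exact (mem_sdiff.1 h).2 (mem_union_right _ hx)
  -- members of the classes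
  have m1 : ∀ x ∈ (MV n R top T').image f1, x ∈ X := by
    intro x hx; obtain ⟨v, hv, rfl⟩ := mem_image.1 hx; exact hV1 v hv
  have m2 : ∀ x ∈ (MV n R top Tl).image f2, x ∈ FX := by
    intro x hx; obtain ⟨v, hv, rfl⟩ := mem_image.1 hx; exact h21 v hv
  have m4 : ∀ x ∈ Res.image z, (x ∈ X ∧ x ∉ (MV n R top T').image f1) ∨
      (x ∈ FX ∧ x ∉ (MV n R top Tl).image f2) := by
    intro x hx; obtain ⟨v, hv, rfl⟩ := mem_image.1 hx; exact hz3 v hv
  have m5 : ∀ x ∈ L ∪ XL, x ∈ L ∨ x ∈ YX ∨ x ∈ FX2 := by
    intro x hx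
    rcases mem_union.1 hx with h | h
    · exact Or.inl h
    · rcases mem_union.1 (hXL h) with h' | h'
      · exact Or.inr (Or.inl h')
      · exact Or.inr (Or.inr h')
  have s1 : ∀ x ∈ (EM n p R top T').image (fun i => f1 i + f1 (p i)), x ∈ S := by
    intro x hx; obtain ⟨v, hv, rfl⟩ := mem_image.1 hx; exact hE1 v hv
  have s2 : ∀ x ∈ (EM n p R top Tl).image (fun i => f2 i + f2 (p i)), x ∈ FS := by
    intro x hx; obtain ⟨v, hv, rfl⟩ := mem_image.1 hx; exact h22 v hv
  have s4 : ∀ x ∈ Res.image (fun v => β v + z v),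
      (x ∈ S ∧ x ∉ (EM n p R top T').image (fun i => f1 i + f1 (p i))) ∨
      (x ∈ FS ∧ x ∉ (EM n p R top Tl).image (fun i => f2 i + f2 (p i))) := by
    intro x hx; obtain ⟨v, hv, rfl⟩ := mem_image.1 hx; exact hz4 v hv
  have s5 : ∀ x ∈ Sm ∪ XS, x ∈ Sm ∨ x ∈ YS ∨ x ∈ FS2 := by
    intro x hx
    rcases mem_union.1 hx with h | h
    · exact Or.inl h
    · rcases mem_union.1 (hXS h) with h' | h'
      · exact Or.inr (Or.inl h')
      · exact Or.inr (Or.inr h')
  -- pairwise disjointness of the label sets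
  have D01 : Disjoint (R.image lab) ((MV n R top T').image f1) := by
    rw [disjoint_left]; intro x hx h; exact (dA x hx).2.2.2.2 (m1 x h)
  have D02 : Disjoint (R.image lab) ((MV n R top Tl).image f2) := by
    rw [disjoint_left]; intro x hx h; exact (dA x hx).1 (m2 x h)
  have D03 : Disjoint (R.image lab) (Res.image β) := by
    rw [disjoint_left]; intro x hx h; exact (dA x hx).2.2.1 h
  have D04 : Disjoint (R.image lab) (Res.image z) := by
    rw [disjoint_left]; intro x hx h
    rcases m4 x h with h1 | h1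
    · exact (dA x hx).2.2.2.2 h1.1
    · exact (dA x hx).1 h1.1
  have D05 : Disjoint (R.image lab) (L ∪ XL) := by
    rw [disjoint_left]; intro x hx h
    rcases m5 x h with h1 | h1 | h1
    · exact (dA x hx).2.2.2.1 h1
    · exact (dA x hx).2.1 h1
    · exact (dA x hx).1 (hFX h1)
  have D12 : Disjoint ((MV n R top T').image f1) ((MV n R top Tl).image f2) := by
    rw [disjoint_left]; intro x hx h; exact (dFX x (m2 x h)).2.2.2 (m1 x hx)
  have D13 : Disjoint ((MV n R top T').image f1) (Res.image β) := by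
    rw [disjoint_left]; intro x hx h; exact (dB x h).2 (m1 x hx)
  have D14 : Disjoint ((MV n R top T').image f1) (Res.image z) := by
    rw [disjoint_left]; intro x hx h
    rcases m4 x h with h1 | h1
    · exact h1.2 hx
    · exact (dFX x h1.1).2.2.2 (m1 x hx)
  have D15 : Disjoint ((MV n R top T').image f1) (L ∪ XL) := by
    rw [disjoint_left]; intro x hx h
    rcases m5 x h with h1 | h1 | h1
    · exact dL x h1 (m1 x hx)
    · exact (dYX x h1).2.2 (m1 x hx)
    · exact (dFX x (hFX h1)).2.2.2 (m1 x hx)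
  have D23 : Disjoint ((MV n R top Tl).image f2) (Res.image β) := by
    rw [disjoint_left]; intro x hx h; exact (dFX x (m2 x hx)).2.1 h
  have D24 : Disjoint ((MV n R top Tl).image f2) (Res.image z) := by
    rw [disjoint_left]; intro x hx h
    rcases m4 x h with h1 | h1
    · exact (dFX x (m2 x hx)).2.2.2 h1.1
    · exact h1.2 hx
  have D25 : Disjoint ((MV n R top Tl).image f2) (L ∪ XL) := by
    rw [disjoint_left]; intro x hx h
    rcases m5 x h with h1 | h1 | h1
    · exact (dFX x (m2 x hx)).2.2.1 h1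
    · exact (dFX x (m2 x hx)).1 h1
    · exact disjoint_left.1 hFX1 h1 hx
  have D34 : Disjoint (Res.image β) (Res.image z) := by
    rw [disjoint_left]; intro x hx h
    rcases m4 x h with h1 | h1
    · exact (dB x hx).2 h1.1
    · exact (dFX x h1.1).2.1 hx
  have D35 : Disjoint (Res.image β) (L ∪ XL) := by
    rw [disjoint_left]; intro x hx h
    rcases m5 x h with h1 | h1 | h1
    · exact (dB x hx).1 h1
    · exact (dYX x h1).1 hx
    · exact (dFX x (hFX h1)).2.1 hx
  have D45 : Disjoint (Res.image z) (L ∪ XL) := by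
    rw [disjoint_left]; intro x hx h
    rcases m5 x h with h1 | h1 | h1
    · rcases m4 x hx with h2 | h2
      · exact dL x h1 h2.1
      · exact (dFX x h2.1).2.2.1 h1
    · rcases m4 x hx with h2 | h2
      · exact (dYX x h1).2.2 h2.1
      · exact (dFX x h2.1).1 h1
    · exact disjoint_left.1 hFX2 h1 hx
  -- pairwise disjointness of the sum sets
  have E01 : Disjoint RS ((EM n p R top T').image (fun i => f1 i + f1 (p i))) := by
    rw [disjoint_left]; intro x hx h; exact (eA x hx).2.2.2.2 (s1 x h)
  have E02 : Disjoint RS ((EM n p R top Tl).image (fun i => f2 i + f2 (p i))) := by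
    rw [disjoint_left]; intro x hx h; exact (eA x hx).1 (s2 x h)
  have E03 : Disjoint RS CB := by
    rw [disjoint_left]; intro x hx h; exact (eA x hx).2.2.1 h
  have E04 : Disjoint RS (Res.image (fun v => β v + z v)) := by
    rw [disjoint_left]; intro x hx h
    rcases s4 x h with h1 | h1
    · exact (eA x hx).2.2.2.2 h1.1
    · exact (eA x hx).1 h1.1
  have E05 : Disjoint RS (Sm ∪ XS) := by
    rw [disjoint_left]; intro x hx h
    rcases s5 x h with h1 | h1 | h1
    · exact (eA x hx).2.2.2.1 h1
    · exact (eA x hx).2.1 h1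
    · exact (eA x hx).1 (hFS h1)
  have E12 : Disjoint ((EM n p R top T').image (fun i => f1 i + f1 (p i)))
      ((EM n p R top Tl).image (fun i => f2 i + f2 (p i))) := by
    rw [disjoint_left]; intro x hx h; exact (eFS x (s2 x h)).2.2.2 (s1 x hx)
  have E13 : Disjoint ((EM n p R top T').image (fun i => f1 i + f1 (p i))) CB := by
    rw [disjoint_left]; intro x hx h; exact (eB x h).2 (s1 x hx)
  have E14 : Disjoint ((EM n p R top T').image (fun i => f1 i + f1 (p i)))
      (Res.image (fun v => β v + z v)) := by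
    rw [disjoint_left]; intro x hx h
    rcases s4 x h with h1 | h1
    · exact h1.2 hx
    · exact (eFS x h1.1).2.2.2 (s1 x hx)
  have E15 : Disjoint ((EM n p R top T').image (fun i => f1 i + f1 (p i))) (Sm ∪ XS) := by
    rw [disjoint_left]; intro x hx h
    rcases s5 x h with h1 | h1 | h1
    · exact eL x h1 (s1 x hx)
    · exact (eYS x h1).2.2 (s1 x hx)
    · exact (eFS x (hFS h1)).2.2.2 (s1 x hx)
  have E23 : Disjoint ((EM n p R top Tl).image (fun i => f2 i + f2 (p i))) CB := by
    rw [disjoint_left]; intro x hx h; exact (eFS x (s2 x hx)).2.1 h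
  have E24 : Disjoint ((EM n p R top Tl).image (fun i => f2 i + f2 (p i)))
      (Res.image (fun v => β v + z v)) := by
    rw [disjoint_left]; intro x hx h
    rcases s4 x h with h1 | h1
    · exact (eFS x (s2 x hx)).2.2.2 h1.1
    · exact h1.2 hx
  have E25 : Disjoint ((EM n p R top Tl).image (fun i => f2 i + f2 (p i))) (Sm ∪ XS) := by
    rw [disjoint_left]; intro x hx h
    rcases s5 x h with h1 | h1 | h1
    · exact (eFS x (s2 x hx)).2.2.1 h1
    · exact (eFS x (s2 x hx)).1 h1
    · exact disjoint_left.1 hFS1 h1 hx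
  have E34 : Disjoint CB (Res.image (fun v => β v + z v)) := by
    rw [disjoint_left]; intro x hx h
    rcases s4 x h with h1 | h1
    · exact (eB x hx).2 h1.1
    · exact (eFS x h1.1).2.1 hx
  have E35 : Disjoint CB (Sm ∪ XS) := by
    rw [disjoint_left]; intro x hx h
    rcases s5 x h with h1 | h1 | h1
    · exact (eB x hx).1 h1
    · exact (eYS x h1).1 hx
    · exact (eFS x (hFS h1)).2.1 hx
  have E45 : Disjoint (Res.image (fun v => β v + z v)) (Sm ∪ XS) := by
    rw [disjoint_left]; intro x hx h
    rcases s5 x h with h1 | h1 | h1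
    · rcases s4 x hx with h2 | h2
      · exact eL x h1 h2.1
      · exact (eFS x h2.1).2.2.1 h1
    · rcases s4 x hx with h2 | h2
      · exact (eYS x h1).2.2 h2.1
      · exact (eFS x h2.1).1 h1
    · exact disjoint_left.1 hFS2 h1 hx
  have hΛd : ∀ a b, a ≤ 5 → b ≤ 5 → a ≠ b → Disjoint (Λ a) (Λ b) := by
    have key : ∀ a b, a < b → b ≤ 5 → Disjoint (Λ a) (Λ b) := by
      intro a b hab hb
      interval_cases b <;> interval_cases a <;>
        first
          | exact D01
          | exact D02
          | exact D03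
          | exact D04
          | exact D05
          | exact D12
          | exact D13
          | exact D14
          | exact D15
          | exact D23
          | exact D24
          | exact D25
          | exact D34
          | exact D35
          | exact D45
    intro a b ha hb hab
    rcases lt_or_gt_of_ne hab with h | h
    · exact key a b h hb
    · exact (key b a h ha).symm
  have hSgd : ∀ a b, a ≤ 5 → b ≤ 5 → a ≠ b → Disjoint (Sg a) (Sg b) := by
    have key : ∀ a b, a < b → b ≤ 5 → Disjoint (Sg a) (Sg b) := by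
      intro a b hab hb
      interval_cases b <;> interval_cases a <;>
        first
          | exact E01
          | exact E02
          | exact E03
          | exact E04
          | exact E05
          | exact E12
          | exact E13
          | exact E14
          | exact E15
          | exact E23
          | exact E24
          | exact E25
          | exact E34
          | exact E35
          | exact E45
    intro a b ha hb hab
    rcases lt_or_gt_of_ne hab with h | h
    · exact key a b h hb
    · exact (key b a h ha).symm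
  -- classes are at most 5
  have hcl : ∀ i, cls top R T' Tl Res i ≤ 5 := by
    intro i; unfold cls; split_ifs <;> omega
  have hel : ∀ i, ecl p top R T' Tl Res i ≤ 5 := by
    intro i; unfold ecl; split_ifs
    · omega
    · omega
    · omega
    · exact hcl i
  -- description of the class of a vertex
  have hclass : ∀ i, i < n → i ∉ R →
      (top i ∈ T' ∧ cls top R T' Tl Res i = 1) ∨ (top i ∈ Tl ∧ cls top R T' Tl Res i = 2) ∨
      (i ∈ Res ∧ cls top R T' Tl Res i = 3) ∨
      ((∃ v ∈ Res, i = uc n p v) ∧ cls top R T' Tl Res i = 4) ∨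
      ((i ∈ P ∨ ∃ v ∈ P, i = uc n p v) ∧ cls top R T' Tl Res i = 5) := by
    intro i hi hR
    by_cases c1 : top i ∈ T'
    · left; exact ⟨c1, by simp [cls, hR, c1]⟩
    · by_cases c2 : top i ∈ Tl
      · right; left; exact ⟨c2, by simp [cls, hR, c1, c2]⟩
      · by_cases c3 : top i ∈ Res
        · by_cases c4 : i = top i
          · right; right; left
            refine ⟨by rw [c4]; exact c3, ?_⟩
            simp only [cls, hR, c1, c2, c3, if_false, if_true]
            rw [if_pos c4]
          · right; right; right; left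
            refine ⟨⟨top i, c3, ?_⟩, ?_⟩
            · rcases hsp i hi hR _ (mem_union_left _ c3) rfl with h | h
              · exact absurd h c4
              · exact h
            · simp only [cls, hR, c1, c2, c3, if_false, if_true]
              rw [if_neg c4]
        · right; right; right; right
          refine ⟨?_, by simp [cls, hR, c1, c2, c3]⟩
          rcases hcase i hi hR with h | h | h | h
          · exact absurd h c1
          · exact absurd h c2
          · exact absurd h c3
          · rcases hsp i hi hR _ (mem_union_right _ h) rfl with h' | h'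
            · left; rw [h']; exact h
            · right; exact ⟨top i, h, h'⟩
  have hclass0 : ∀ i ∈ R, cls top R T' Tl Res i = 0 := by
    intro i hi; simp [cls, hi]
  -- description of the class of an edge
  have hpar : ∀ i, 0 < i → i < n → p i < i := D.par
  have hedge : ∀ i, 0 < i → i < n →
      (i ∈ RR p R ∧ ecl p top R T' Tl Res i = 0) ∨
      (i ∈ EM n p R top T' ∧ ecl p top R T' Tl Res i = 1 ∧ F i + F (p i) = f1 i + f1 (p i)) ∨
      (i ∈ EM n p R top Tl ∧ ecl p top R T' Tl Res i = 2 ∧ F i + F (p i) = f2 i + f2 (p i)) ∨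
      (i ∈ Res ∧ ecl p top R T' Tl Res i = 3) ∨
      ((∃ v ∈ Res, i = uc n p v) ∧ ecl p top R T' Tl Res i = 4) ∨
      ((i ∈ P ∨ ∃ v ∈ P, i = uc n p v) ∧ ecl p top R T' Tl Res i = 5) := by
    intro i hi0 hi
    by_cases hR : i ∈ R
    · by_cases hpR : p i ∈ R
      · left
        exact ⟨by unfold RR; rw [mem_filter]; exact ⟨hR, hi0, hpR⟩, by simp [ecl, hR, hpR]⟩
      · have hpi := hpar i hi0 hi
        rcases hcase (p i) (by omega) hpR with h | h | h | h
        · right; left
          refine ⟨mem_EM.2 ⟨hi, hi0, Or.inr ⟨hR, hpR, h⟩⟩, by simp [ecl, hR, hpR, h], ?_⟩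
          rw [F0 i hR, F1 (p i) hpR h, hR1 i hR]
        · right; right; left
          have h' := (hTlres _ h).2.2
          refine ⟨mem_EM.2 ⟨hi, hi0, Or.inr ⟨hR, hpR, h⟩⟩, by simp [ecl, hR, hpR, h'], ?_⟩
          rw [F0 i hR, F2 (p i) hpR h, h20 i hR]
        · exfalso
          obtain ⟨g1, g2, g3, g4⟩ := hZ _ (mem_union_left _ h)
          exact D.dec.exit_not_sp D.par g1 g2 g3 g4 hR hi0 hpR rfl
        · exfalso
          obtain ⟨g1, g2, g3, g4⟩ := hZ _ (mem_union_right _ h)
          exact D.dec.exit_not_sp D.par g1 g2 g3 g4 hR hi0 hpR rfl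
    · have he : ecl p top R T' Tl Res i = cls top R T' Tl Res i := by simp [ecl, hR]
      rw [he]
      right
      rcases hclass i hi hR with h | h | h | h | h
      · left
        refine ⟨mem_EM.2 ⟨hi, hi0, Or.inl ⟨hR, h.1⟩⟩, h.2, ?_⟩
        rw [F1 i hR h.1]
        by_cases hpR : p i ∈ R
        · rw [F0 _ hpR, hR1 _ hpR]
        · rw [F1 (p i) hpR (by rw [← D.dec.top_step i hi hR hpR]; exact h.1)]
      · right; left
        refine ⟨mem_EM.2 ⟨hi, hi0, Or.inl ⟨hR, h.1⟩⟩, h.2, ?_⟩
        rw [F2 i hR h.1]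
        by_cases hpR : p i ∈ R
        · rw [F0 _ hpR, h20 _ hpR]
        · rw [F2 (p i) hpR (by rw [← D.dec.top_step i hi hR hpR]; exact h.1)]
      · right; right; left; exact h
      · right; right; right; left; exact h
      · right; right; right; right; exact h
  -- sums of the special edges
  have G3 : ∀ v ∈ Res, F v + F (p v) = lab (p v) + β v := by
    intro v hv
    obtain ⟨g1, g2, g3, g4⟩ := hZ v (mem_union_left _ hv)
    rw [F3 v hv, F0 _ g2, Nat.add_comm]
  have G4 : ∀ v ∈ Res, F (uc n p v) + F (p (uc n p v)) = β v + z v := by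
    intro v hv
    obtain ⟨g1, g2, g3, g4⟩ := hZ v (mem_union_left _ hv)
    rw [F4 v hv, g1.uc_spec.2.2, F3 v hv, Nat.add_comm]
  have G5 : ∀ v ∈ P, F v + F (p v) = lab (p v) + y v := by
    intro v hv
    obtain ⟨g1, g2, g3, g4⟩ := hZ v (mem_union_right _ hv)
    rw [F5 v hv, F0 _ g2, Nat.add_comm]
  have G6 : ∀ v ∈ P, F (uc n p v) + F (p (uc n p v)) = y v + y' v := by
    intro v hv
    obtain ⟨g1, g2, g3, g4⟩ := hZ v (mem_union_right _ hv)
    rw [F6 v hv, g1.uc_spec.2.2, F5 v hv, Nat.add_comm]
  have G0 : ∀ r ∈ RR p R, F r + F (p r) = lab r + lab (p r) := by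
    intro r hr
    unfold RR at hr
    rw [mem_filter] at hr
    rw [F0 r hr.1, F0 _ hr.2.2]
  refine ⟨F, ?_, ?_, ?_, ?_⟩
  · -- range of the labels
    intro i hi
    by_cases hR : i ∈ R
    · rw [F0 i hR]; exact D.labR (mem_image_of_mem lab hR)
    · rcases hclass i hi hR with h | h | h | h | h
      · rw [F1 i hR h.1]
        exact (mem_sdiff.1 (hV1 i (mem_MV.2 ⟨hi, hR, h.1⟩))).1
      · rw [F2 i hR h.1]
        exact D.FXR (h21 i (mem_MV.2 ⟨hi, hR, h.1⟩))
      · rw [F3 i h.1]; exact D.βR (mem_image_of_mem β h.1)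
      · obtain ⟨v, hv, rfl⟩ := h.1
        rw [F4 v hv]
        rcases hz3 v hv with h' | h'
        · exact (mem_sdiff.1 h'.1).1
        · exact D.FXR h'.1
      · have hLX : ∀ x ∈ L ∪ XL, x ∈ Icc 1 n := by
          intro x hx
          rcases m5 x hx with h1 | h1 | h1
          · exact D.LR h1
          · exact D.YXR h1
          · exact D.FXR (hFX h1)
        rcases h.1 with h1 | ⟨v, hv, rfl⟩
        · rw [F5 i h1]; exact hLX _ (ha1 i h1).1
        · rw [F6 v hv]; exact hLX _ (ha1 v hv).2.1
  · -- injectivity of the labels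
    apply injOn_classes F (cls top R T' Tl Res) Λ
    · intro i hi
      rw [mem_range] at hi
      by_cases hR : i ∈ R
      · rw [hclass0 i hR, F0 i hR]
        exact mem_image_of_mem lab hR
      · rcases hclass i hi hR with h | h | h | h | h
        · rw [h.2, F1 i hR h.1]
          exact mem_image_of_mem f1 (mem_MV.2 ⟨hi, hR, h.1⟩)
        · rw [h.2, F2 i hR h.1]
          exact mem_image_of_mem f2 (mem_MV.2 ⟨hi, hR, h.1⟩)
        · rw [h.2, F3 i h.1]
          exact mem_image_of_mem β h.1
        · rw [h.2]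
          obtain ⟨v, hv, rfl⟩ := h.1
          rw [F4 v hv]
          exact mem_image_of_mem z hv
        · rw [h.2]
          rcases h.1 with h1 | ⟨v, hv, rfl⟩
          · rw [F5 i h1]; exact (ha1 i h1).1
          · rw [F6 v hv]; exact (ha1 v hv).2.1
    · intro i _ j _ hij
      exact hΛd _ _ (hcl i) (hcl j) hij
    · intro i hi j hj hc hF'
      rw [mem_range] at hi hj
      by_cases hR : i ∈ R
      · by_cases hR' : j ∈ R
        · rw [F0 i hR, F0 j hR'] at hF'
          exact D.labI hR hR' hF'
        · rw [hclass0 i hR] at hc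
          rcases hclass j hj hR' with h | h | h | h | h <;> · rw [h.2] at hc; omega
      · by_cases hR' : j ∈ R
        · rw [hclass0 j hR'] at hc
          rcases hclass i hi hR with h | h | h | h | h <;> · rw [h.2] at hc; omega
        · rcases hclass i hi hR with h | h | h | h | h <;>
          rcases hclass j hj hR' with h' | h' | h' | h' | h' <;>
          (rw [h.2, h'.2] at hc) <;> (try omega)
          · rw [F1 i hR h.1, F1 j hR' h'.1] at hF'
            exact hI1 (mem_coe.2 (mem_MV.2 ⟨hi, hR, h.1⟩)) (mem_coe.2 (mem_MV.2 ⟨hj, hR', h'.1⟩)) hF'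
          · rw [F2 i hR h.1, F2 j hR' h'.1] at hF'
            exact h23 (mem_coe.2 (mem_MV.2 ⟨hi, hR, h.1⟩)) (mem_coe.2 (mem_MV.2 ⟨hj, hR', h'.1⟩)) hF'
          · rw [F3 i h.1, F3 j h'.1] at hF'
            exact D.βI h.1 h'.1 hF'
          · obtain ⟨v, hv, rfl⟩ := h.1
            obtain ⟨w, hw, rfl⟩ := h'.1
            rw [F4 v hv, F4 w hw] at hF'
            rw [hz1 hv hw hF']
          · rcases h.1 with h1 | ⟨v, hv, rfl⟩ <;> rcases h'.1 with h2 | ⟨w, hw, rfl⟩
            · rw [F5 i h1, F5 j h2] at hF'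
              exact ha2 h1 h2 hF'
            · rw [F5 i h1, F6 w hw] at hF'
              exact absurd hF' (ha4 i h1 w hw)
            · rw [F6 v hv, F5 j h2] at hF'
              exact absurd hF'.symm (ha4 j h2 v hv)
            · rw [F6 v hv, F6 w hw] at hF'
              rw [ha3 hv hw hF']
  · -- range of the sums
    intro i hi0 hi
    have hSX : ∀ x ∈ Sm ∪ XS, x ∈ Win n := by
      intro x hx
      rcases s5 x hx with h1 | h1 | h1
      · exact D.SmR h1
      · exact D.YSR h1
      · exact D.FSR (hFS h1)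
    rcases hedge i hi0 hi with h | h | h | h | h | h
    · rw [G0 i h.1]
      exact D.rsW (mem_image_of_mem (fun r => lab r + lab (p r)) h.1)
    · rw [h.2.2]
      exact (mem_sdiff.1 (hE1 i h.1)).1
    · rw [h.2.2]
      exact D.FSR (h22 i h.1)
    · rw [G3 i h.1]
      exact D.cbW (mem_image_of_mem (fun v => lab (p v) + β v) h.1)
    · obtain ⟨v, hv, rfl⟩ := h.1
      rw [G4 v hv]
      rcases hz4 v hv with h' | h'
      · exact (mem_sdiff.1 h'.1).1
      · exact D.FSR h'.1
    · rcases h.1 with h1 | ⟨v, hv, rfl⟩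
      · rw [G5 i h1]; exact hSX _ (ha1 i h1).2.2.1
      · rw [G6 v hv]; exact hSX _ (ha1 v hv).2.2.2
  · -- injectivity of the sums
    apply injOn_classes (fun i => F i + F (p i)) (ecl p top R T' Tl Res) Sg
    · intro i hi
      rw [mem_Ico] at hi
      rcases hedge i (by omega) hi.2 with h | h | h | h | h | h
      · rw [h.2]
        show F i + F (p i) ∈ _
        rw [G0 i h.1]
        exact mem_image_of_mem (fun r => lab r + lab (p r)) h.1
      · rw [h.2.1]
        show F i + F (p i) ∈ _
        rw [h.2.2]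
        exact mem_image_of_mem (fun i => f1 i + f1 (p i)) h.1
      · rw [h.2.1]
        show F i + F (p i) ∈ _
        rw [h.2.2]
        exact mem_image_of_mem (fun i => f2 i + f2 (p i)) h.1
      · rw [h.2]
        show F i + F (p i) ∈ _
        rw [G3 i h.1]
        exact mem_image_of_mem (fun v => lab (p v) + β v) h.1
      · rw [h.2]
        obtain ⟨v, hv, rfl⟩ := h.1
        show F (uc n p v) + F (p (uc n p v)) ∈ _
        rw [G4 v hv]
        exact mem_image_of_mem (fun v => β v + z v) hv
      · rw [h.2]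
        rcases h.1 with h1 | ⟨v, hv, rfl⟩
        · show F i + F (p i) ∈ _
          rw [G5 i h1]; exact (ha1 i h1).2.2.1
        · show F (uc n p v) + F (p (uc n p v)) ∈ _
          rw [G6 v hv]; exact (ha1 v hv).2.2.2
    · intro i _ j _ hij
      exact hSgd _ _ (hel i) (hel j) hij
    · intro i hi j hj hc hF'
      rw [mem_Ico] at hi hj
      replace hF' : F i + F (p i) = F j + F (p j) := hF'
      rcases hedge i (by omega) hi.2 with h | h | h | h | h | h <;>
        rcases hedge j (by omega) hj.2 with h' | h' | h' | h' | h' | h'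
      · rw [G0 i h.1, G0 j h'.1] at hF'
        exact D.rsI (mem_coe.2 h.1) (mem_coe.2 h'.1) hF'
      · rw [h.2, h'.2.1] at hc; omega
      · rw [h.2, h'.2.1] at hc; omega
      · rw [h.2, h'.2] at hc; omega
      · rw [h.2, h'.2] at hc; omega
      · rw [h.2, h'.2] at hc; omega
      · rw [h.2.1, h'.2] at hc; omega
      · rw [h.2.2, h'.2.2] at hF'
        exact hJ1 (mem_coe.2 h.1) (mem_coe.2 h'.1) hF'
      · rw [h.2.1, h'.2.1] at hc; omega
      · rw [h.2.1, h'.2] at hc; omega
      · rw [h.2.1, h'.2] at hc; omega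
      · rw [h.2.1, h'.2] at hc; omega
      · rw [h.2.1, h'.2] at hc; omega
      · rw [h.2.1, h'.2.1] at hc; omega
      · rw [h.2.2, h'.2.2] at hF'
        exact h24 (mem_coe.2 h.1) (mem_coe.2 h'.1) hF'
      · rw [h.2.1, h'.2] at hc; omega
      · rw [h.2.1, h'.2] at hc; omega
      · rw [h.2.1, h'.2] at hc; omega
      · rw [h.2, h'.2] at hc; omega
      · rw [h.2, h'.2.1] at hc; omega
      · rw [h.2, h'.2.1] at hc; omega
      · rw [G3 i h.1, G3 j h'.1] at hF'
        exact D.cbI (mem_coe.2 h.1) (mem_coe.2 h'.1) hF'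
      · rw [h.2, h'.2] at hc; omega
      · rw [h.2, h'.2] at hc; omega
      · rw [h.2, h'.2] at hc; omega
      · rw [h.2, h'.2.1] at hc; omega
      · rw [h.2, h'.2.1] at hc; omega
      · rw [h.2, h'.2] at hc; omega
      · obtain ⟨v, hv, rfl⟩ := h.1
        obtain ⟨w, hw, rfl⟩ := h'.1
        rw [G4 v hv, G4 w hw] at hF'
        rw [hz2 hv hw hF']
      · rw [h.2, h'.2] at hc; omega
      · rw [h.2, h'.2] at hc; omega
      · rw [h.2, h'.2.1] at hc; omega
      · rw [h.2, h'.2.1] at hc; omega
      · rw [h.2, h'.2] at hc; omega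
      · rw [h.2, h'.2] at hc; omega
      · rcases h.1 with h1 | ⟨v, hv, rfl⟩ <;> rcases h'.1 with h2 | ⟨w, hw, rfl⟩
        · rw [G5 i h1, G5 j h2] at hF'
          exact ha5 h1 h2 hF'
        · rw [G5 i h1, G6 w hw] at hF'
          exact absurd hF' (ha7 i h1 w hw)
        · rw [G6 v hv, G5 j h2] at hF'
          exact absurd hF'.symm (ha7 j h2 v hv)
        · rw [G6 v hv, G6 w hw] at hF'
          rw [ha6 hv hw hF']

end

end Pool.Agent.SEM
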