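import Mathlib

/-!
# SEM-RB2: second expansion for the robustly matchable bipartite graph

Proof in words: take 20 injections `π_j : Fin N → Fin (3m) × Fin 2` (possible as `N ≤ 4m ≤ 6m`) and
`G i = {x : (π_j x).1 = i for some j}`, so `|G i| ≤ 40`.  If the conclusion fails there are `B` with `|B| = b`, `1 ≤ b ≤ 2m`, and
`X' ⊆ Fin (3m)` with `|X'| = b` and `π_j(B) ⊆ X' × Fin 2` for all `j`.  For given `B, X'` the fraction of injections `π` with
`π(B) ⊆ X' × Fin 2` is `(2b)_b / (6m)_b ≤ (2b/6m)^b` (falling factorials, `Fintype.card_embedding_eq`; e.g. restrict to `B`: the number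
of embeddings extending a given embedding of `B` does not depend on it).  Union bound over the 20 independent injections:
`∑_b C(4m,b) C(3m,b) (b/3m)^(20 b) ≤ ∑_b [ (4e m/b)(3e m/b)(b/3m)^20 ]^b = ∑_b [ (4e²/3)(b/3m)^18 ]^b ≤ ∑_b (1/4)^b < 1`
since `b/3m ≤ 2/3` and `(4e²/3)(2/3)^18 < 0.007`.
-/

set_option autoImplicit false

namespace Pool.Agent.SEM

open Finset

/-- `a^a ≤ 3^a a!` -/
theorem h60_pow_self_le (a : ℕ) : (a : ℝ) ^ a ≤ 3 ^ a * (a.factorial : ℝ) := by
  induction a with
  | zero => simp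
  | succ a ih =>
    rcases Nat.eq_zero_or_pos a with h0 | h0
    · subst h0; norm_num
    have ha : (0 : ℝ) < a := by exact_mod_cast h0
    have h1 : ((a : ℝ) + 1) ^ a ≤ 3 * (a : ℝ) ^ a := by
      have h2 : (1 + 1 / (a : ℝ)) ^ a ≤ 3 := by
        have h3 : 1 + 1 / (a : ℝ) ≤ Real.exp (1 / (a : ℝ)) := by
          have := Real.add_one_le_exp (1 / (a : ℝ)); linarith
        have h4 : (1 + 1 / (a : ℝ)) ^ a ≤ Real.exp (1 / (a : ℝ)) ^ a :=
          pow_le_pow_left₀ (by positivity) h3 a
        have h5 : Real.exp (1 / (a : ℝ)) ^ a = Real.exp 1 := by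
          rw [← Real.exp_nat_mul]; congr 1; field_simp
        have h6 : Real.exp 1 < 3 := lt_trans Real.exp_one_lt_d9 (by norm_num)
        linarith
      have h7 : ((a : ℝ) + 1) ^ a = (1 + 1 / (a : ℝ)) ^ a * (a : ℝ) ^ a := by
        rw [← mul_pow]; congr 1; field_simp
      rw [h7]
      exact mul_le_mul_of_nonneg_right h2 (by positivity)
    calc ((a + 1 : ℕ) : ℝ) ^ (a + 1) = ((a : ℝ) + 1) ^ a * ((a : ℝ) + 1) := by
          push_cast; rw [pow_succ]
      _ ≤ (3 * (a : ℝ) ^ a) * ((a : ℝ) + 1) := by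
          apply mul_le_mul_of_nonneg_right h1 (by positivity)
      _ ≤ (3 * (3 ^ a * (a.factorial : ℝ))) * ((a : ℝ) + 1) := by
          apply mul_le_mul_of_nonneg_right _ (by positivity)
          apply mul_le_mul_of_nonneg_left ih (by norm_num)
      _ = 3 ^ (a + 1) * ((a + 1).factorial : ℝ) := by
          rw [Nat.factorial_succ]; push_cast; ring

/-- the union bound term -/
theorem h60_term_le (m N b : ℕ) (hm : 1 ≤ m) (hN : N ≤ 4 * m) (hb : 1 ≤ b) (hb2 : b ≤ 2 * m) :
    (N.choose b : ℝ) * ((3 * m).choose b : ℝ) * ((b : ℝ) / (3 * m)) ^ (20 * b) ≤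
      (1 / 4) ^ b := by
  have hm0 : (0 : ℝ) < m := by exact_mod_cast hm
  have hb0 : (0 : ℝ) < b := by exact_mod_cast hb
  have hfac : (0 : ℝ) < (b.factorial : ℝ) := by exact_mod_cast Nat.factorial_pos b
  have h0 : (N.choose b : ℝ) ≤ ((4 * m).choose b : ℝ) := by
    exact_mod_cast Nat.choose_le_choose b hN
  have h1 : ((4 * m).choose b : ℝ) ≤ (4 * m : ℝ) ^ b / (b.factorial : ℝ) := by
    have := Nat.choose_le_pow_div (α := ℝ) b (4 * m)
    push_cast at this; exact this
  have h2 : ((3 * m).choose b : ℝ) ≤ (3 * m : ℝ) ^ b / (b.factorial : ℝ) := by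
    have := Nat.choose_le_pow_div (α := ℝ) b (3 * m)
    push_cast at this; exact this
  have h3 : 1 / (b.factorial : ℝ) ≤ 3 ^ b / (b : ℝ) ^ b := by
    rw [div_le_div_iff₀ hfac (by positivity)]
    linarith [h60_pow_self_le b]
  have h4 : (N.choose b : ℝ) ≤ (4 * m : ℝ) ^ b * (3 ^ b / (b : ℝ) ^ b) := by
    refine (h0.trans h1).trans ?_
    rw [div_eq_mul_one_div]
    exact mul_le_mul_of_nonneg_left h3 (by positivity)
  have h5 : ((3 * m).choose b : ℝ) ≤ (3 * m : ℝ) ^ b * (3 ^ b / (b : ℝ) ^ b) := by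
    refine h2.trans ?_
    rw [div_eq_mul_one_div]
    exact mul_le_mul_of_nonneg_left h3 (by positivity)
  have h6 : (N.choose b : ℝ) * ((3 * m).choose b : ℝ) ≤
      (4 * m : ℝ) ^ b * (3 ^ b / (b : ℝ) ^ b) * ((3 * m : ℝ) ^ b * (3 ^ b / (b : ℝ) ^ b)) :=
    mul_le_mul h4 h5 (by positivity) (by positivity)
  have h7 : (4 * m : ℝ) ^ b * (3 ^ b / (b : ℝ) ^ b) * ((3 * m : ℝ) ^ b * (3 ^ b / (b : ℝ) ^ b)) *
      ((b : ℝ) / (3 * m)) ^ (20 * b) = (12 * ((b : ℝ) / (3 * m)) ^ 18) ^ b := by
    rw [pow_mul, ← div_pow, ← mul_pow, ← mul_pow, ← mul_pow, ← mul_pow]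
    congr 1
    field_simp
    ring
  have h8 : 12 * ((b : ℝ) / (3 * m)) ^ 18 ≤ 1 / 4 := by
    have h9 : (b : ℝ) / (3 * m) ≤ 2 / 3 := by
      rw [div_le_div_iff₀ (by positivity) (by norm_num)]
      have : (b : ℝ) ≤ 2 * m := by exact_mod_cast hb2
      linarith
    have h10 : ((b : ℝ) / (3 * m)) ^ 18 ≤ (2 / 3 : ℝ) ^ 18 :=
      pow_le_pow_left₀ (by positivity) h9 18
    have h11 : (12 : ℝ) * (2 / 3) ^ 18 ≤ 1 / 4 := by norm_num
    linarith
  calc (N.choose b : ℝ) * ((3 * m).choose b : ℝ) * ((b : ℝ) / (3 * m)) ^ (20 * b)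
      ≤ (4 * m : ℝ) ^ b * (3 ^ b / (b : ℝ) ^ b) * ((3 * m : ℝ) ^ b * (3 ^ b / (b : ℝ) ^ b)) *
      ((b : ℝ) / (3 * m)) ^ (20 * b) := mul_le_mul_of_nonneg_right h6 (by positivity)
    _ = (12 * ((b : ℝ) / (3 * m)) ^ 18) ^ b := h7
    _ ≤ (1 / 4) ^ b := pow_le_pow_left₀ (by positivity) h8 b

/-- falling factorials: `(p)_k q^k ≤ (q)_k p^k` for `p ≤ q` -/
theorem h60_desc_le (p q : ℕ) (hpq : p ≤ q) (k : ℕ) :
    p.descFactorial k * q ^ k ≤ q.descFactorial k * p ^ k := by
  induction k with
  | zero => simp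
  | succ k ih =>
    rw [Nat.descFactorial_succ, Nat.descFactorial_succ]
    have h1 : (p - k) * q ≤ (q - k) * p := by
      rw [Nat.sub_mul, Nat.sub_mul, Nat.mul_comm q p]
      exact Nat.sub_le_sub_left (Nat.mul_le_mul_left k hpq) _
    calc (p - k) * p.descFactorial k * q ^ (k + 1)
        = ((p - k) * q) * (p.descFactorial k * q ^ k) := by ring
      _ ≤ ((q - k) * p) * (q.descFactorial k * p ^ k) := Nat.mul_le_mul h1 ih
      _ = (q - k) * q.descFactorial k * p ^ (k + 1) := by ring

/-- the embeddings sending `B` into `Y` -/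
theorem h60_card_emb {α V : Type} [Fintype α] [Fintype V] [DecidableEq α] [DecidableEq V]
    (B : Finset α) (Y : Finset V) :
    ((univ : Finset (α ↪ V)).filter fun π => ∀ x ∈ B, π x ∈ Y).card ≤
      Y.card.descFactorial B.card *
        (Fintype.card V - B.card).descFactorial (Fintype.card α - B.card) := by
  classical
  let T := Σ f : ({x // x ∈ B} ↪ {v // v ∈ Y}),
    ({x // x ∉ B} ↪ {v : V // v ∉ Set.range (fun x => (f x : V))})
  let F : {π : α ↪ V // ∀ x ∈ B, π x ∈ Y} → T := fun π =>
    ⟨⟨fun x => ⟨π.1 x.1, π.2 x.1 x.2⟩, fun x y h => by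
        have h1 : π.1 x.1 = π.1 y.1 := congrArg Subtype.val h
        exact Subtype.ext (π.1.injective h1)⟩,
      ⟨fun x => ⟨π.1 x.1, by
        rintro ⟨y, hy⟩
        have h1 : π.1 y.1 = π.1 x.1 := hy
        have h2 := π.1.injective h1
        exact x.2 (h2 ▸ y.2)⟩, fun x y h => by
        have h1 : π.1 x.1 = π.1 y.1 := congrArg Subtype.val h
        exact Subtype.ext (π.1.injective h1)⟩⟩
  let R : T → (α → V) := fun t x => if h : x ∈ B then (t.1 ⟨x, h⟩ : V) else (t.2 ⟨x, h⟩ : V)
  have hR : ∀ π, R (F π) = fun x => π.1 x := by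
    intro π
    funext x
    by_cases h : x ∈ B
    · simp only [R, h, dite_true]; rfl
    · simp only [R, h, dite_false]; rfl
  have hinj : Function.Injective F := by
    intro π π' h
    have h1 : R (F π) = R (F π') := by rw [h]
    rw [hR, hR] at h1
    apply Subtype.ext
    ext x
    exact congrFun h1 x
  have h1 := Fintype.card_le_of_injective F hinj
  have h2 : Fintype.card T = Y.card.descFactorial B.card *
        (Fintype.card V - B.card).descFactorial (Fintype.card α - B.card) := by
    rw [Fintype.card_sigma]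
    have h3 : ∀ f : ({x // x ∈ B} ↪ {v // v ∈ Y}),
        Fintype.card ({x // x ∉ B} ↪ {v : V // v ∉ Set.range (fun x => (f x : V))}) =
        (Fintype.card V - B.card).descFactorial (Fintype.card α - B.card) := by
      intro f
      rw [Fintype.card_embedding_eq]
      have hg : Function.Injective (fun x : {x // x ∈ B} => (f x : V)) := by
        intro x y h
        exact f.injective (Subtype.ext h)
      have h4 : Fintype.card {v : V // v ∉ Set.range (fun x => (f x : V))} =
          Fintype.card V - B.card := by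
        rw [Fintype.card_subtype_compl]
        congr 1
        have h5 : Fintype.card {v : V // v ∈ Set.range (fun x => (f x : V))} =
          Fintype.card {x // x ∈ B} :=
          (Fintype.card_congr (Equiv.ofInjective _ hg)).symm
        rw [h5, Fintype.card_coe]
      have h6 : Fintype.card {x // x ∉ B} = Fintype.card α - B.card := by
        rw [Fintype.card_subtype_compl, Fintype.card_coe]
      rw [h4, h6]
    rw [Finset.sum_congr rfl (fun f _ => h3 f), Finset.sum_const, Finset.card_univ,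
      Fintype.card_embedding_eq, Fintype.card_coe, Fintype.card_coe, smul_eq_mul]
  rw [h2] at h1
  rw [← Fintype.card_subtype]
  exact h1

/-- real form: the number of embeddings sending `B` into `Y` is at most a fraction
`(|Y|/|V|)^|B|` of all embeddings -/
theorem h60_card_emb_real {α V : Type} [Fintype α] [Fintype V] [DecidableEq α] [DecidableEq V]
    (B : Finset α) (Y : Finset V) (hV : 0 < Fintype.card V) :
    (((univ : Finset (α ↪ V)).filter fun π => ∀ x ∈ B, π x ∈ Y).card : ℝ) ≤
      ((Y.card : ℝ) / (Fintype.card V : ℝ)) ^ B.card * (Fintype.card (α ↪ V) : ℝ) := by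
  have hBα : B.card ≤ Fintype.card α := card_le_univ B
  have hY : Y.card ≤ Fintype.card V := card_le_univ Y
  have h1 := h60_card_emb B Y
  have h2 := Nat.descFactorial_mul_descFactorial (n := Fintype.card V) hBα
  have h3 := h60_desc_le Y.card (Fintype.card V) hY B.card
  have hV' : (0 : ℝ) < (Fintype.card V : ℝ) := by exact_mod_cast hV
  rw [Fintype.card_embedding_eq, ← h2]
  have h4 : (((univ : Finset (α ↪ V)).filter fun π => ∀ x ∈ B, π x ∈ Y).card : ℝ) ≤
      (Y.card.descFactorial B.card : ℝ) *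
        ((Fintype.card V - B.card).descFactorial (Fintype.card α - B.card) : ℝ) := by
    exact_mod_cast h1
  refine h4.trans ?_
  rw [div_pow, div_mul_eq_mul_div, le_div_iff₀ (by positivity)]
  have h5 : (Y.card.descFactorial B.card : ℝ) * (Fintype.card V : ℝ) ^ B.card ≤
      ((Fintype.card V).descFactorial B.card : ℝ) * (Y.card : ℝ) ^ B.card := by
    exact_mod_cast h3
  push_cast
  have h6 : (0 : ℝ) ≤ ((Fintype.card V - B.card).descFactorial (Fintype.card α - B.card) : ℝ) := by
    positivity
  nlinarith [mul_le_mul_of_nonneg_left h5 h6]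

theorem rb_second (m N : ℕ) (hm : 1 ≤ m) (hN : N ≤ 4 * m) :
    ∃ G : Fin (3 * m) → Finset (Fin N), (∀ i, (G i).card ≤ 40) ∧
      ∀ B : Finset (Fin N), B.card ≤ 2 * m →
        B.card ≤ ((univ : Finset (Fin (3 * m))).filter fun i => ¬ Disjoint (G i) B).card := by
  classical
  by_contra hcon
  push Not at hcon
  -- every family is bad
  let E := Fin N ↪ (Fin (3 * m) × Fin 2)
  let Bd : Finset (Fin N) → Finset (Fin (3 * m)) → Finset E := fun B X =>
    (univ : Finset E).filter fun π => ∀ x ∈ B, π x ∈ X ×ˢ (univ : Finset (Fin 2))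
  have hbad : ∀ P : Fin 20 → E, ∃ B : Finset (Fin N), ∃ X : Finset (Fin (3 * m)),
      1 ≤ B.card ∧ B.card ≤ 2 * m ∧ X.card = B.card ∧
      P ∈ Fintype.piFinset (fun _ : Fin 20 => Bd B X) := by
    intro P
    obtain ⟨B, hB, hlt⟩ := hcon (fun i => (univ : Finset (Fin N)).filter fun x =>
        ∃ j, (P j x).1 = i) (fun i => by
      have h1 : ((univ : Finset (Fin N)).filter fun x => ∃ j, (P j x).1 = i) ⊆
          (univ : Finset (Fin 20)).biUnion fun j =>
            (univ : Finset (Fin N)).filter fun x => (P j x).1 = i := by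
        intro x hx
        rw [mem_filter] at hx
        obtain ⟨_, j, hj⟩ := hx
        rw [mem_biUnion]
        exact ⟨j, mem_univ _, by rw [mem_filter]; exact ⟨mem_univ _, hj⟩⟩
      refine (card_le_card h1).trans ?_
      refine card_biUnion_le.trans ?_
      have h2 : ∀ j ∈ (univ : Finset (Fin 20)),
          ((univ : Finset (Fin N)).filter fun x => (P j x).1 = i).card ≤ 2 := by
        intro j _
        have h3 : ((univ : Finset (Fin N)).filter fun x => (P j x).1 = i).card ≤
            (univ : Finset (Fin 2)).card := by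
          apply card_le_card_of_injOn (fun x => (P j x).2) (fun x _ => mem_univ _)
          intro x hx y hy hxy
          have hx' : (P j x).1 = i := by
            have := Finset.mem_coe.mp hx
            rw [mem_filter] at this
            exact this.2
          have hy' : (P j y).1 = i := by
            have := Finset.mem_coe.mp hy
            rw [mem_filter] at this
            exact this.2
          apply (P j).injective
          exact Prod.ext (hx'.trans hy'.symm) hxy
        simpa using h3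
      refine (sum_le_sum h2).trans ?_
      simp)
    have h1 : 1 ≤ B.card := by
      by_contra h; have : B.card = 0 := by omega
      omega
    obtain ⟨X, hX1, hX2⟩ := Finset.exists_superset_card_eq
      (s := (univ : Finset (Fin (3 * m))).filter fun i =>
        ¬ Disjoint ((univ : Finset (Fin N)).filter fun x => ∃ j, (P j x).1 = i) B)
      (n := B.card) (by omega)
      (by rw [Fintype.card_fin]; omega)
    refine ⟨B, X, h1, hB, hX2, ?_⟩
    rw [Fintype.mem_piFinset]
    intro j
    simp only [Bd, mem_filter, mem_univ, true_and, mem_product, and_true]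
    intro x hx
    apply hX1
    rw [mem_filter]
    refine ⟨mem_univ _, ?_⟩
    rw [Finset.not_disjoint_iff]
    exact ⟨x, by rw [mem_filter]; exact ⟨mem_univ _, j, rfl⟩, hx⟩
  -- union bound
  have hcard : (univ : Finset (Fin 20 → E)).card ≤
      ∑ b ∈ Icc 1 (2 * m), ∑ B ∈ powersetCard b (univ : Finset (Fin N)),
        ∑ X ∈ powersetCard b (univ : Finset (Fin (3 * m))),
        (Fintype.piFinset (fun _ : Fin 20 => Bd B X)).card := by
    calc (univ : Finset (Fin 20 → E)).card
        ≤ ((Icc 1 (2 * m)).biUnion fun b =>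
            (powersetCard b (univ : Finset (Fin N))).biUnion fun B =>
            (powersetCard b (univ : Finset (Fin (3 * m)))).biUnion fun X =>
            (Fintype.piFinset (fun _ : Fin 20 => Bd B X))).card := by
          apply card_le_card
          intro P _
          obtain ⟨B, X, h1, h2, h3, h4⟩ := hbad P
          simp only [mem_biUnion]
          refine ⟨B.card, ?_, B, ?_, X, ?_, h4⟩
          · rw [mem_Icc]; omega
          · rw [mem_powersetCard]; exact ⟨subset_univ _, rfl⟩
          · rw [mem_powersetCard]; exact ⟨subset_univ _, h3⟩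
      _ ≤ _ := by
          refine card_biUnion_le.trans (sum_le_sum fun b _ => ?_)
          refine card_biUnion_le.trans (sum_le_sum fun B _ => ?_)
          exact card_biUnion_le
  have hm0 : (0 : ℝ) < m := by exact_mod_cast hm
  have hVcard : Fintype.card (Fin (3 * m) × Fin 2) = 6 * m := by
    rw [Fintype.card_prod, Fintype.card_fin, Fintype.card_fin]; ring
  have hEpos : 0 < Fintype.card E := by
    rw [Fintype.card_embedding_eq, hVcard, Fintype.card_fin]
    exact Nat.descFactorial_pos.mpr (by omega)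
  have hEpos' : (0 : ℝ) < (Fintype.card E : ℝ) := by exact_mod_cast hEpos
  have hBd : ∀ (b : ℕ) (B : Finset (Fin N)) (X : Finset (Fin (3 * m))), B.card = b → X.card = b →
      ((Bd B X).card : ℝ) ≤ ((b : ℝ) / (3 * m)) ^ b * (Fintype.card E : ℝ) := by
    intro b B X hB hX
    have h1 := h60_card_emb_real B (X ×ˢ (univ : Finset (Fin 2))) (by rw [hVcard]; omega)
    rw [hVcard, card_product, hB, hX, card_univ, Fintype.card_fin] at h1
    have h2 : (((b * 2 : ℕ) : ℝ) / ((6 * m : ℕ) : ℝ)) = (b : ℝ) / (3 * m) := by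
      push_cast
      rw [div_eq_div_iff (by positivity) (by positivity)]
      ring
    rw [h2] at h1
    convert h1 using 3
    ext π
    simp only [Bd, mem_filter, mem_univ, true_and]
  have hreal : (Fintype.card E : ℝ) ^ 20 ≤ ∑ b ∈ Icc 1 (2 * m),
      (1 / 4 : ℝ) ^ b * (Fintype.card E : ℝ) ^ 20 := by
    have h1 : ((univ : Finset (Fin 20 → E)).card : ℝ) ≤ _ :=
      Nat.cast_le.mpr hcard
    rw [card_univ, Fintype.card_fun, Fintype.card_fin] at h1
    push_cast at h1
    refine h1.trans (sum_le_sum fun b hb => ?_)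
    rw [mem_Icc] at hb
    have h2 : ∀ B ∈ powersetCard b (univ : Finset (Fin N)),
        ∑ X ∈ powersetCard b (univ : Finset (Fin (3 * m))),
        ((Fintype.piFinset (fun _ : Fin 20 => Bd B X)).card : ℝ) ≤
        ((3 * m).choose b : ℝ) * (((b : ℝ) / (3 * m)) ^ b * (Fintype.card E : ℝ)) ^ 20 := by
      intro B hB
      rw [mem_powersetCard] at hB
      have h3 : ∀ X ∈ powersetCard b (univ : Finset (Fin (3 * m))),
          ((Fintype.piFinset (fun _ : Fin 20 => Bd B X)).card : ℝ) ≤
          (((b : ℝ) / (3 * m)) ^ b * (Fintype.card E : ℝ)) ^ 20 := by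
        intro X hX
        rw [mem_powersetCard] at hX
        rw [Fintype.card_piFinset_const]
        push_cast
        exact pow_le_pow_left₀ (by positivity) (hBd b B X hB.2 hX.2) 20
      refine (sum_le_sum h3).trans ?_
      rw [sum_const, card_powersetCard, card_univ, Fintype.card_fin, nsmul_eq_mul]
    refine (sum_le_sum h2).trans ?_
    rw [sum_const, card_powersetCard, card_univ, Fintype.card_fin, nsmul_eq_mul]
    have h4 := h60_term_le m N b hm hN hb.1 hb.2
    rw [mul_pow, ← pow_mul, mul_comm b 20]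
    have h5 : (0 : ℝ) < (Fintype.card E : ℝ) ^ 20 := by positivity
    calc (N.choose b : ℝ) * (((3 * m).choose b : ℝ) *
          (((b : ℝ) / (3 * m)) ^ (20 * b) * (Fintype.card E : ℝ) ^ 20))
        = ((N.choose b : ℝ) * ((3 * m).choose b : ℝ) * ((b : ℝ) / (3 * m)) ^ (20 * b)) *
          (Fintype.card E : ℝ) ^ 20 := by ring
      _ ≤ (1 / 4 : ℝ) ^ b * (Fintype.card E : ℝ) ^ 20 :=
          mul_le_mul_of_nonneg_right h4 h5.le
  have hpos : (0 : ℝ) < (Fintype.card E : ℝ) ^ 20 := by positivity
  rw [← sum_mul] at hreal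
  have h2 : ∑ a ∈ Icc 1 (2 * m), (1 / 4 : ℝ) ^ a < 1 := by
    have h3 : ∀ N : ℕ, ∑ a ∈ Icc 1 N, (1 / 4 : ℝ) ^ a ≤ 1 / 3 * (1 - (1 / 4) ^ N) := by
      intro N
      induction N with
      | zero => simp
      | succ N ih =>
        rw [Finset.sum_Icc_succ_top (by omega)]
        rw [pow_succ]
        nlinarith [ih]
    have h4 := h3 (2 * m)
    have h5 : (0 : ℝ) < (1 / 4) ^ (2 * m) := by positivity
    linarith
  have h3 : (∑ a ∈ Icc 1 (2 * m), (1 / 4 : ℝ) ^ a) * (Fintype.card E : ℝ) ^ 20 <
      1 * (Fintype.card E : ℝ) ^ 20 := mul_lt_mul_of_pos_right h2 hpos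
  linarith

end Pool.Agent.SEM
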