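import Pool.Agent.Helper73.SEM.RB1
import Pool.Agent.Helper73.SEM.RB2

/-!
# SEM-RB3: robustly matchable bipartite graph (Montgomery)

Proof in words.  `F` from `rb_first`, `G` from `rb_second` with `N = 2m + z` (identify `Fin (2m) ⊕ Fin z` with `Fin (2m+z)`,
`finSumFinEquiv`), `H i = inl '' F i ∪ (G i)`.  Given `Z'` with `|Z'| = m`: let `Y' = {inl j} ∪ {inr j : j ∈ Z'}` (`3m` elements),
`H' i = H i ∩ Y'`.  Hall (`Finset.all_card_le_biUnion_card_iff_exists_injective`): for `A ⊆ Fin (3m)` with `2|A| ≤ 3m` the set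
`⋃_A H'` contains `inl '' ⋃_A F`, of size `≥ |A|`.  If `2|A| > 3m` and `|⋃_A H'| < |A|`, then `B = Y' \ ⋃_A H'` has
`|B| > 3m - |A|`; choose `B' ⊆ B` with `|B'| = 3m - |A| + 1 ≤ 2m` (as `2|A| ≥ 3m+1`, so `3m - |A| + 1 ≤ (3m+1)/2 ≤ 2m`);
every `i` with `G i ∩ B' ≠ ∅` is outside `A`, so `|B'| ≤ 3m - |A|` by `rb_second`, contradiction.
-/

set_option autoImplicit false

namespace Pool.Agent.SEM

open Finset

theorem rmbg (m z : ℕ) (hm : 1 ≤ m) (hz : z ≤ 2 * m) :
    ∃ H : Fin (3 * m) → Finset (Fin (2 * m) ⊕ Fin z), (∀ i, (H i).card ≤ 70) ∧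
      ∀ Z' : Finset (Fin z), Z'.card = m →
        ∃ f : Fin (3 * m) → Fin (2 * m) ⊕ Fin z, Function.Injective f ∧
          ∀ i, f i ∈ H i ∧ ∀ j, f i = Sum.inr j → j ∈ Z' := by
  classical
  obtain ⟨F, hF1, hF2⟩ := rb_first m hm
  obtain ⟨G, hG1, hG2⟩ := rb_second m (2 * m + z) hm (by omega)
  set e : Fin (2 * m) ⊕ Fin z ≃ Fin (2 * m + z) := finSumFinEquiv with he
  refine ⟨fun i => (F i).map Function.Embedding.inl ∪ (G i).map e.symm.toEmbedding, ?_, ?_⟩
  · intro i
    refine (card_union_le _ _).trans ?_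
    rw [card_map, card_map]
    have h1 := hF1 i
    have h2 := hG1 i
    omega
  intro Z' hZ'
  set Y : Finset (Fin (2 * m) ⊕ Fin z) := (univ : Finset (Fin (2 * m))).disjSum Z' with hY
  have hYc : Y.card = 3 * m := by
    rw [hY, card_disjSum, hZ', card_univ, Fintype.card_fin]
    omega
  set H' : Fin (3 * m) → Finset (Fin (2 * m) ⊕ Fin z) := fun i =>
    ((F i).map Function.Embedding.inl ∪ (G i).map e.symm.toEmbedding) ∩ Y with hH'
  have hall : ∀ A : Finset (Fin (3 * m)), A.card ≤ (A.biUnion H').card := by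
    intro A
    by_cases hA : 2 * A.card ≤ 3 * m
    · refine (hF2 A hA).trans ?_
      rw [← card_map (Function.Embedding.inl : Fin (2 * m) ↪ Fin (2 * m) ⊕ Fin z)]
      refine card_le_card fun x hx => ?_
      rw [mem_map] at hx
      obtain ⟨j, hj, rfl⟩ := hx
      rw [mem_biUnion] at hj ⊢
      obtain ⟨i, hi, hji⟩ := hj
      refine ⟨i, hi, ?_⟩
      rw [hH', mem_inter]
      refine ⟨mem_union_left _ (mem_map_of_mem _ hji), ?_⟩
      rw [hY]
      exact inl_mem_disjSum.2 (mem_univ j)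
    · by_contra hlt
      push Not at hlt
      have hsub : A.biUnion H' ⊆ Y := by
        intro x hx
        rw [mem_biUnion] at hx
        obtain ⟨i, -, hi⟩ := hx
        exact (mem_inter.1 hi).2
      have hBc : (Y \ A.biUnion H').card = 3 * m - (A.biUnion H').card := by
        rw [card_sdiff_of_subset hsub, hYc]
      have hA2 : A.card ≤ 3 * m := by
        have := card_le_univ A
        rwa [Fintype.card_fin] at this
      obtain ⟨B', hB', hB'c⟩ := exists_subset_card_eq
        (s := Y \ A.biUnion H') (n := 3 * m - A.card + 1) (by omega)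
      have h1 := hG2 (B'.map e.toEmbedding) (by rw [card_map, hB'c]; omega)
      rw [card_map, hB'c] at h1
      have h2 : ((univ : Finset (Fin (3 * m))).filter
          fun i => ¬ Disjoint (G i) (B'.map e.toEmbedding)) ⊆ Aᶜ := by
        intro i hi
        rw [mem_compl]
        intro hiA
        rw [mem_filter] at hi
        obtain ⟨x, hxG, hxB⟩ := not_disjoint_iff.1 hi.2
        rw [mem_map] at hxB
        obtain ⟨y, hyB, rfl⟩ := hxB
        have hy := mem_sdiff.1 (hB' hyB)
        refine hy.2 (mem_biUnion.2 ⟨i, hiA, ?_⟩)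
        rw [hH', mem_inter]
        refine ⟨mem_union_right _ (mem_map.2 ⟨_, hxG, ?_⟩), hy.1⟩
        simp
      have h3 := card_le_card h2
      rw [card_compl, Fintype.card_fin] at h3
      omega
  obtain ⟨f, hf1, hf2⟩ := (Finset.all_card_le_biUnion_card_iff_exists_injective H').1 hall
  refine ⟨f, hf1, fun i => ⟨(mem_inter.1 (hf2 i)).1, fun j hj => ?_⟩⟩
  have h1 := (mem_inter.1 (hf2 i)).2
  rw [hj, hY] at h1
  exact inr_mem_disjSum.1 h1

end Pool.Agent.SEM
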