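import Pool.Agent.Helper73.SEM.NB2

/-!
# SEM-NB3: the nibble theorem (weighted Kahn / Pippenger)

Proof in words.  Fix `k ≥ 1`, `ε ∈ (0,1]`, `γ = ε/(32 k)`, `η = ε γ / 32`, `C = 8k² + k e^{2k} + 2k`, `J` with
`exp(-γ J) ≤ ε/8`.
CLAIM(j): for all `δ` small enough (`δ ≤ δ_j`) every `Inst k δ VS S w`, `g : E → [0,1]` has a matching `M` with
`lam_j ∑ w g - err_j |VS| ≤ ∑_M g`, where `lam_0 = 0`, `err_0 = 0`,
`lam_{j+1} = γ(1-γk) + lam_j (1-η) exp(-γ-γ²δk)`, `err_{j+1} = err_j + exp(k) C δ/η²`.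
Step: make all loads equal to 1 by dummy edges `{v}`: use `E ⊕ (VS × Fin N)` with `N ≥ 1/δ` and weight `(1 - load v)/N ≤ δ`,
`g = 0` on them (codegrees do not change); apply `nb_bite`; the real edges of `E'` with
`w'' = (1-η) w exp(γ(|S e|-1))` form an instance (`E := {e // inl e ∈ E'}`) with loads `≤ 1` and codegrees and weights
`≤ e^k δ`; apply CLAIM(j) with `δ' = e^k δ`; the union of the two matchings works.  (`lam_j` computed with the largest `δ`
is a lower bound for all smaller ones; or state CLAIM(j) with an arbitrary number `lam ≤` the recursion.)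
Finally `lam_J = a (1 - b^J)/(1-b)` with `a = γ(1-γk)`, `b = (1-η)exp(-γ-γ²δk) ≥ 1 - γ - η - γ²δk`, so
`lam_J ≥ (1-γk)(1 - η/γ - γδk)(1 - ε/8) ≥ 1 - ε/2`, `∑ w g ≤ |VS|` (each edge has a vertex), and `err_J ≤ ε/2`.
-/

set_option autoImplicit false

namespace Pool.Agent.SEM

open Finset

/-- The statement proved by induction in the nibble theorem. -/
private def NbClaim (k : ℕ) (lam τ δ : ℝ) : Prop :=
  ∀ (E V : Type) [Fintype E] [DecidableEq V]
      (VS : Finset V) (S : E → Finset V) (w g : E → ℝ), Inst k δ VS S w →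
      (∀ e, 0 ≤ g e ∧ g e ≤ 1) →
      ∃ M : Finset E, (∀ e ∈ M, ∀ f ∈ M, e ≠ f → Disjoint (S e) (S f)) ∧
        lam * ∑ e, w e * g e - τ * VS.card ≤ ∑ e ∈ M, g e

private theorem nb3_sum_mem {A B : Type} [Fintype A] [Fintype B] (T : Finset (A ⊕ B))
    (h : A ⊕ B → ℝ) (F : Finset A) (hF : ∀ a, a ∈ F ↔ Sum.inl a ∈ T)
    (hB : ∀ b, Sum.inr b ∈ T → h (Sum.inr b) = 0) :
    ∑ x ∈ T, h x = ∑ a ∈ F, h (Sum.inl a) := by
  classical
  have h1 : ∑ x ∈ T, h x = ∑ x : A ⊕ B, if x ∈ T then h x else 0 := by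
    rw [← Finset.sum_filter]
    congr 1
    ext x
    simp
  have h2 : ∑ a ∈ F, h (Sum.inl a) = ∑ a : A, if a ∈ F then h (Sum.inl a) else 0 := by
    rw [← Finset.sum_filter]
    congr 1
    ext x
    simp
  rw [h1, h2, Fintype.sum_sum_type]
  have h3 : ∑ b : B, (if Sum.inr b ∈ T then h (Sum.inr b) else 0) = 0 := by
    apply Finset.sum_eq_zero
    intro b _
    split_ifs with hb
    · exact hB b hb
    · rfl
  rw [h3, add_zero]
  refine Finset.sum_congr rfl fun a _ => ?_
  by_cases ha : a ∈ F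
  · rw [if_pos ha, if_pos ((hF a).mp ha)]
  · rw [if_neg ha, if_neg fun hc => ha ((hF a).mpr hc)]

private theorem nb3_step {k : ℕ} (hk : 1 ≤ k) {lam lam' τ δ δ' γ η : ℝ}
    (hγ : 0 < γ) (hγ1 : γ ≤ 1)
    (hδ0 : 0 < δ) (hδ : 4 * (k : ℝ) ^ 2 * δ ≤ 1) (hδ2 : δ ≤ 1 / 2)
    (hη : 0 < η) (hη1 : η ≤ 1 / 2) (hl0 : 0 ≤ lam) (hl1 : lam ≤ 1)
    (hδ' : Real.exp k * δ ≤ δ')
    (hlam : lam' ≤ γ * (1 - γ * k) + lam * (1 - η) * Real.exp (-γ - γ ^ 2 * δ * k))
    (ih : NbClaim k lam τ δ') :
    NbClaim k lam' (τ + Real.exp k * ((8 * (k : ℝ) ^ 2 + k * Real.exp (2 * k) + 2 * k) * δ / η ^ 2))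
      δ := by
  classical
  intro E V _ _ VS S w g hI hg
  obtain ⟨N, hN⟩ := exists_nat_gt (1 / δ)
  have hN0 : (0 : ℝ) < N := lt_trans (by positivity) hN
  have hN1 : 1 / (N : ℝ) ≤ δ := by
    rw [div_le_iff₀ hN0]
    rw [div_lt_iff₀ hδ0] at hN
    linarith
  -- the padded instance
  let ld : V → ℝ := fun v => ∑ e with v ∈ S e, w e
  have hld0 : ∀ v, 0 ≤ ld v := fun v => Finset.sum_nonneg fun e _ => hI.nn e
  have hld1 : ∀ v ∈ VS, ld v ≤ 1 := fun v hv => hI.load v hv
  let S' : E ⊕ (VS × Fin N) → Finset V := Sum.elim S (fun x => {x.1.1})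
  let w' : E ⊕ (VS × Fin N) → ℝ := Sum.elim w (fun x => (1 - ld x.1.1) / N)
  let g' : E ⊕ (VS × Fin N) → ℝ := Sum.elim g (fun _ => 0)
  have hfull : ∀ v ∈ VS, ∑ e with v ∈ S' e, w' e = 1 := by
    intro v hv
    rw [Finset.sum_filter, Fintype.sum_sum_type]
    have h1 : (∑ a : E, if v ∈ S' (Sum.inl a) then w' (Sum.inl a) else 0) = ld v := by
      rw [← Finset.sum_filter]
      rfl
    have h2 : (∑ b : VS × Fin N, if v ∈ S' (Sum.inr b) then w' (Sum.inr b) else 0) = 1 - ld v := by
      rw [Fintype.sum_prod_type]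
      have h3 : ∀ u : VS, (∑ i : Fin N, if v ∈ S' (Sum.inr (u, i)) then w' (Sum.inr (u, i)) else 0)
          = if u = ⟨v, hv⟩ then 1 - ld v else 0 := by
        intro u
        by_cases hu : u = ⟨v, hv⟩
        · rw [if_pos hu]
          subst hu
          have h4 : ∀ i : Fin N, (if v ∈ S' (Sum.inr (⟨v, hv⟩, i)) then
              w' (Sum.inr (⟨v, hv⟩, i)) else 0) = (1 - ld v) / N := by
            intro i
            have h6 : v ∈ S' (Sum.inr (⟨v, hv⟩, i)) := Finset.mem_singleton_self v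
            rw [if_pos h6]
            rfl
          rw [Finset.sum_congr rfl fun i _ => h4 i, Finset.sum_const, Finset.card_univ,
            Fintype.card_fin, nsmul_eq_mul]
          field_simp
        · rw [if_neg hu]
          apply Finset.sum_eq_zero
          intro i _
          rw [if_neg]
          intro hc
          apply hu
          have h5 : v = u.1 := Finset.mem_singleton.mp hc
          exact Subtype.ext h5.symm
      rw [Finset.sum_congr rfl fun u _ => h3 u, Finset.sum_ite_eq' Finset.univ (⟨v, hv⟩ : VS),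
        if_pos (Finset.mem_univ _)]
    rw [h1, h2]
    ring
  have hI' : Inst k δ VS S' w' := by
    refine ⟨?_, ?_, ?_, ?_, ?_, ?_, ?_⟩
    · rintro (e | ⟨u, i⟩)
      · exact hI.sub e
      · exact Finset.singleton_subset_iff.mpr u.2
    · rintro (e | ⟨u, i⟩)
      · exact hI.ne e
      · exact Finset.singleton_nonempty _
    · rintro (e | ⟨u, i⟩)
      · exact hI.card e
      · exact hk
    · rintro (e | ⟨u, i⟩)
      · exact hI.nn e
      · exact div_nonneg (by have := hld1 u.1 u.2; linarith) hN0.le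
    · rintro (e | ⟨u, i⟩)
      · exact hI.le e
      · refine le_trans ?_ hN1
        exact div_le_div_of_nonneg_right (by have := hld0 u.1; linarith) hN0.le
    · intro v hv
      exact (hfull v hv).le
    · intro u hu v hv huv
      rw [Finset.sum_filter, Fintype.sum_sum_type]
      have h1 : (∑ a : E, if u ∈ S' (Sum.inl a) ∧ v ∈ S' (Sum.inl a) then w' (Sum.inl a) else 0)
          ≤ δ := by
        rw [← Finset.sum_filter]
        exact hI.cod u hu v hv huv
      have h2 : (∑ b : VS × Fin N, if u ∈ S' (Sum.inr b) ∧ v ∈ S' (Sum.inr b)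
          then w' (Sum.inr b) else 0) = 0 := by
        apply Finset.sum_eq_zero
        rintro ⟨x, i⟩ _
        rw [if_neg]
        rintro ⟨h3, h4⟩
        have h5 : u = x.1 := Finset.mem_singleton.mp h3
        have h6 : v = x.1 := Finset.mem_singleton.mp h4
        exact huv (h5.trans h6.symm)
      rw [h2, add_zero]
      exact h1
  have hg' : ∀ e, 0 ≤ g' e ∧ g' e ≤ 1 := by
    rintro (e | b)
    · exact hg e
    · exact ⟨le_refl _, zero_le_one⟩
  obtain ⟨M, E', hM, hME, hE, hsum⟩ := nb_bite hI' hfull hγ hγ1 hδ0.le hδ hδ2 hη hη1 hl0 hl1 hg'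
  -- the new instance
  let w2 : E → ℝ := fun e => (1 - η) * w e * Real.exp (γ * (((S e).card : ℝ) - 1))
  have hw20 : ∀ e, 0 ≤ w2 e := by
    intro e
    have := hI.nn e
    have h1 : 0 ≤ 1 - η := by linarith
    positivity
  have hw2le : ∀ e, w2 e ≤ Real.exp k * w e := by
    intro e
    have h0 := hI.nn e
    have h1 : Real.exp (γ * (((S e).card : ℝ) - 1)) ≤ Real.exp k := by
      apply Real.exp_le_exp.mpr
      have hc : ((S e).card : ℝ) ≤ k := by exact_mod_cast hI.card e
      have hc1 : (1 : ℝ) ≤ (S e).card := by exact_mod_cast (hI.ne e).card_pos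
      nlinarith
    have h2 : (1 - η) * w e ≤ w e := by nlinarith
    calc w2 e ≤ w e * Real.exp k := by
          apply mul_le_mul h2 h1 (Real.exp_pos _).le h0
      _ = Real.exp k * w e := mul_comm _ _
  let E1 := {e : E // Sum.inl e ∈ E'}
  have hsub : ∀ f : E → ℝ, ∑ e : E1, f e.1 = ∑ e with Sum.inl e ∈ E', f e := by
    intro f
    exact (Finset.sum_subtype _ (fun x => by simp) f).symm
  have hI1 : Inst k δ' VS (fun e : E1 => S e.1) (fun e : E1 => w2 e.1) := by
    refine ⟨fun e => hI.sub e.1, fun e => hI.ne e.1, fun e => hI.card e.1, fun e => hw20 e.1,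
      fun e => ?_, fun v hv => ?_, fun u hu v hv huv => ?_⟩
    · refine (hw2le e.1).trans (le_trans ?_ hδ')
      exact mul_le_mul_of_nonneg_left (hI.le e.1) (Real.exp_pos _).le
    · refine le_trans ?_ (hE v hv)
      rw [Finset.sum_filter, hsub (fun e => if v ∈ S e then w2 e else 0), Finset.sum_filter]
      have h1 : ∑ e ∈ E' with v ∈ S' e,
          (1 - η) * w' e * Real.exp (γ * (((S' e).card : ℝ) - 1)) =
          ∑ x : E ⊕ (VS × Fin N), if x ∈ E' then (if v ∈ S' x then
            (1 - η) * w' x * Real.exp (γ * (((S' x).card : ℝ) - 1)) else 0) else 0 := by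
        rw [Finset.sum_filter, ← Finset.sum_filter (fun x => x ∈ E')]
        congr 1
        ext x
        simp
      rw [h1, Fintype.sum_sum_type]
      have h2 : 0 ≤ ∑ b : VS × Fin N, (if Sum.inr b ∈ E' then (if v ∈ S' (Sum.inr b) then
            (1 - η) * w' (Sum.inr b) * Real.exp (γ * (((S' (Sum.inr b)).card : ℝ) - 1)) else 0)
            else 0) := by
        apply Finset.sum_nonneg
        intro b _
        have h3 := hI'.nn (Sum.inr b)
        have h4 : 0 ≤ 1 - η := by linarith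
        split_ifs
        · positivity
        · exact le_refl _
        · exact le_refl _
      refine le_trans (le_of_eq ?_) (le_add_of_nonneg_right h2)
      exact Finset.sum_congr rfl fun e _ => rfl
    · rw [Finset.sum_filter, hsub (fun e => if u ∈ S e ∧ v ∈ S e then w2 e else 0),
        Finset.sum_filter]
      have h1 : (∑ e : E, if Sum.inl e ∈ E' then (if u ∈ S e ∧ v ∈ S e then w2 e else 0) else 0) ≤
          ∑ e : E, if u ∈ S e ∧ v ∈ S e then Real.exp k * w e else 0 := by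
        apply Finset.sum_le_sum
        intro e _
        have h2 := hw2le e
        have h3 : 0 ≤ Real.exp k * w e := mul_nonneg (Real.exp_pos _).le (hI.nn e)
        split_ifs
        · exact h2
        · exact le_refl _
        · exact h3
        · exact le_refl _
      refine h1.trans (le_trans (le_of_eq ?_) (le_trans (mul_le_mul_of_nonneg_left
        (hI.cod u hu v hv huv) (Real.exp_pos _).le) hδ'))
      rw [← Finset.sum_filter, Finset.mul_sum]
  obtain ⟨M1, hM1, hsum1⟩ := ih E1 V VS (fun e => S e.1) (fun e => w2 e.1) (fun e => g e.1) hI1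
    (fun e => hg e.1)
  refine ⟨(univ.filter fun e => Sum.inl e ∈ M) ∪ M1.map (Function.Embedding.subtype _), ?_, ?_⟩
  · intro e he f hf hef
    rw [Finset.mem_union, Finset.mem_filter, Finset.mem_map] at he hf
    rcases he with he | ⟨e1, he1, rfl⟩
    · rcases hf with hf | ⟨f1, hf1, rfl⟩
      · exact hM _ he.2 _ hf.2 fun h => hef (Sum.inl_injective h)
      · exact hME _ he.2 _ f1.2
    · rcases hf with hf | ⟨f1, hf1, rfl⟩
      · exact (hME _ hf.2 _ e1.2).symm
      · exact hM1 _ he1 _ hf1 fun h => hef (by rw [h])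
  · have hdis : Disjoint (univ.filter fun e => Sum.inl e ∈ M)
        (M1.map (Function.Embedding.subtype _)) := by
      rw [Finset.disjoint_left]
      intro e he he2
      rw [Finset.mem_filter] at he
      rw [Finset.mem_map] at he2
      obtain ⟨e1, _, rfl⟩ := he2
      have h1 : Disjoint (S' (Sum.inl e1.1)) (S' (Sum.inl e1.1)) := hME _ he.2 _ e1.2
      rw [disjoint_self] at h1
      have h2 := hI.ne e1.1
      rw [Finset.nonempty_iff_ne_empty] at h2
      exact h2 h1
    rw [Finset.sum_union hdis, Finset.sum_map]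
    have hs1 : ∑ e ∈ M, g' e = ∑ e with Sum.inl e ∈ M, g e :=
      nb3_sum_mem M g' _ (fun a => by simp) (fun b _ => rfl)
    have hs2 : ∑ e ∈ E', (1 - η) * w' e * Real.exp (γ * (((S' e).card : ℝ) - 1)) * g' e
        = ∑ e : E1, w2 e.1 * g e.1 := by
      rw [hsub (fun e => w2 e * g e)]
      exact nb3_sum_mem E' (fun e => (1 - η) * w' e * Real.exp (γ * (((S' e).card : ℝ) - 1)) * g' e)
        _ (fun a => by simp) (fun b _ => mul_zero _)
    have hs3 : ∑ e, w' e * g' e = ∑ e, w e * g e := by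
      rw [Fintype.sum_sum_type]
      have h1 : ∑ b : VS × Fin N, w' (Sum.inr b) * g' (Sum.inr b) = 0 :=
        Finset.sum_eq_zero fun b _ => mul_zero _
      rw [h1, add_zero]
      rfl
    rw [hs1, hs2, hs3] at hsum
    have hW : 0 ≤ ∑ e, w e * g e := Finset.sum_nonneg fun e _ => mul_nonneg (hI.nn e) (hg e).1
    have h4 := mul_le_mul_of_nonneg_right hlam hW
    have h5 : ∑ x ∈ M1, g ((Function.Embedding.subtype _) x) = ∑ e ∈ M1, g e.1 := rfl
    rw [h5]
    linarith

/-- Weighted nibble theorem. -/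
theorem nibble (k : ℕ) (ε : ℝ) (hε : 0 < ε) :
    ∃ δ : ℝ, 0 < δ ∧ ∀ (E V : Type) [Fintype E] [DecidableEq V]
      (VS : Finset V) (S : E → Finset V) (w g : E → ℝ), Inst k δ VS S w →
      (∀ e, 0 ≤ g e ∧ g e ≤ 1) →
      ∃ M : Finset E, (∀ e ∈ M, ∀ f ∈ M, e ≠ f → Disjoint (S e) (S f)) ∧
        ∑ e, w e * g e - ε * VS.card ≤ ∑ e ∈ M, g e := by
  rcases Nat.eq_zero_or_pos k with hk0 | hk
  · refine ⟨1, one_pos, fun E V _ _ VS S w g hI _ => ⟨∅, by simp, ?_⟩⟩
    have hE : IsEmpty E := ⟨fun e => by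
      have h1 := hI.card e
      have h2 := (hI.ne e).card_pos
      omega⟩
    have h3 : 0 ≤ ε * VS.card := by positivity
    simp only [Finset.univ_eq_empty, Finset.sum_empty]
    linarith
  -- parameters
  let ε1 : ℝ := min ε 1
  have he0 : 0 < ε1 := lt_min hε one_pos
  have he1 : ε1 ≤ 1 := min_le_right _ _
  have hee : ε1 ≤ ε := min_le_left _ _
  have hkR : (1 : ℝ) ≤ k := by exact_mod_cast hk
  let γ : ℝ := ε1 / (32 * k)
  let η : ℝ := ε1 * γ / 32
  have hγ : 0 < γ := by positivity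
  have hη : 0 < η := by positivity
  have hγk : γ * k = ε1 / 32 := by
    change ε1 / (32 * k) * k = ε1 / 32
    field_simp
  have hγ32 : γ ≤ 1 / 32 := by
    have : γ * 1 ≤ γ * k := mul_le_mul_of_nonneg_left hkR hγ.le
    linarith
  have hηγ : η = ε1 * γ / 32 := rfl
  have hη2 : η ≤ γ / 32 := by
    rw [hηγ]
    have : ε1 * γ ≤ 1 * γ := mul_le_mul_of_nonneg_right he1 hγ.le
    linarith
  let b : ℝ := (1 - η) * Real.exp (-γ - γ ^ 2 * η * k)
  let L : ℝ := 1 - ε1 / 4
  have hb0 : 0 < b := mul_pos (by linarith) (Real.exp_pos _)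
  have hb1 : b < 1 := by
    have h1 : Real.exp (-γ - γ ^ 2 * η * k) < 1 := by
      rw [Real.exp_lt_one_iff]
      have : 0 ≤ γ ^ 2 * η * k := by positivity
      linarith
    have h2 : 0 < Real.exp (-γ - γ ^ 2 * η * k) := Real.exp_pos _
    change (1 - η) * Real.exp (-γ - γ ^ 2 * η * k) < 1
    nlinarith
  have hbL : L * (1 - b) ≤ γ * (1 - γ * k) := by
    have h1 : 1 - (γ + γ ^ 2 * η * k) ≤ Real.exp (-γ - γ ^ 2 * η * k) := by
      have := Real.add_one_le_exp (-γ - γ ^ 2 * η * k)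
      linarith
    have h2 : γ ^ 2 * η * k ≤ η := by
      have h3 : γ ^ 2 * η * k = (γ * k) * γ * η := by ring
      rw [h3, hγk]
      have h4 : ε1 / 32 * γ ≤ 1 := by nlinarith
      nlinarith
    have h3 : 1 - b ≤ γ + 2 * η := by
      have h4 : (1 - η) * (1 - (γ + γ ^ 2 * η * k)) ≤ b :=
        mul_le_mul_of_nonneg_left h1 (by linarith)
      nlinarith
    have hL0 : 0 ≤ L := by
      change 0 ≤ 1 - ε1 / 4
      linarith
    have h5 : L * (1 - b) ≤ L * (γ + 2 * η) := mul_le_mul_of_nonneg_left h3 hL0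
    refine h5.trans ?_
    rw [hγk, hηγ]
    change (1 - ε1 / 4) * (γ + 2 * (ε1 * γ / 32)) ≤ γ * (1 - ε1 / 32)
    have h6 : (1 - ε1 / 4) * (γ + 2 * (ε1 * γ / 32)) =
        γ * ((1 - ε1 / 4) * (1 + ε1 / 16)) := by ring
    rw [h6]
    apply mul_le_mul_of_nonneg_left _ hγ.le
    nlinarith
  have hclaim : ∀ j : ℕ, ∀ τ : ℝ, 0 < τ → ∃ δ : ℝ, 0 < δ ∧ NbClaim k (L * (1 - b ^ j)) τ δ := by
    intro j
    induction j with
    | zero =>
      intro τ hτ
      refine ⟨1, one_pos, fun E V _ _ VS S w g hI hg => ⟨∅, by simp, ?_⟩⟩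
      have h1 : 0 ≤ τ * VS.card := by positivity
      simp only [pow_zero, sub_self, mul_zero, zero_mul, Finset.sum_empty]
      linarith
    | succ j ih =>
      intro τ hτ
      obtain ⟨δ', hδ', hc⟩ := ih (τ / 2) (by linarith)
      let C : ℝ := Real.exp k * (8 * (k : ℝ) ^ 2 + k * Real.exp (2 * k) + 2 * k) / η ^ 2
      have hC : 0 < C := by positivity
      let δ : ℝ := min (min (δ' / Real.exp k) (1 / (4 * (k : ℝ) ^ 2))) (min η (τ / (2 * C)))
      have hd0 : 0 < δ := by
        refine lt_min (lt_min (by positivity) (by positivity)) (lt_min hη (by positivity))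
      have hd1 : δ ≤ δ' / Real.exp k := (min_le_left _ _).trans (min_le_left _ _)
      have hd2 : δ ≤ 1 / (4 * (k : ℝ) ^ 2) := (min_le_left _ _).trans (min_le_right _ _)
      have hd3 : δ ≤ η := (min_le_right _ _).trans (min_le_left _ _)
      have hd4 : δ ≤ τ / (2 * C) := (min_le_right _ _).trans (min_le_right _ _)
      have hbj0 : 0 ≤ b ^ j := pow_nonneg hb0.le j
      have hbj1 : b ^ j ≤ 1 := pow_le_one₀ hb0.le hb1.le
      have hL0 : 0 ≤ L := by
        change 0 ≤ 1 - ε1 / 4
        linarith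
      have hL1 : L ≤ 1 := by
        change 1 - ε1 / 4 ≤ 1
        linarith
      have hl0 : 0 ≤ L * (1 - b ^ j) := mul_nonneg hL0 (by linarith)
      have hl1 : L * (1 - b ^ j) ≤ 1 := by nlinarith
      refine ⟨δ, hd0, ?_⟩
      have hstep := nb3_step (k := k) hk (lam := L * (1 - b ^ j)) (lam' := L * (1 - b ^ (j + 1)))
        (τ := τ / 2) (δ := δ) (δ' := δ') (γ := γ) (η := η) hγ (by linarith) hd0 ?_
        (by linarith) hη (by linarith) hl0 hl1 ?_ ?_ hc
      · intro E V _ _ VS S w g hI hg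
        obtain ⟨M, hM, hs⟩ := hstep E V VS S w g hI hg
        refine ⟨M, hM, le_trans ?_ hs⟩
        have h1 : Real.exp k * ((8 * (k : ℝ) ^ 2 + k * Real.exp (2 * k) + 2 * k) * δ / η ^ 2)
            = C * δ := by
          change _ = Real.exp k * (8 * (k : ℝ) ^ 2 + k * Real.exp (2 * k) + 2 * k) / η ^ 2 * δ
          ring
        rw [h1]
        have h2 : C * δ ≤ τ / 2 := by
          rw [le_div_iff₀ (by positivity)] at hd4
          linarith
        have h3 : (0 : ℝ) ≤ VS.card := Nat.cast_nonneg _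
        have h4 : (τ / 2 + C * δ) * VS.card ≤ τ * VS.card :=
          mul_le_mul_of_nonneg_right (by linarith) h3
        linarith
      · rw [le_div_iff₀ (by positivity)] at hd2
        linarith
      · rw [le_div_iff₀ (Real.exp_pos _)] at hd1
        linarith
      · have h1 : b ≤ (1 - η) * Real.exp (-γ - γ ^ 2 * δ * k) := by
          apply mul_le_mul_of_nonneg_left _ (by linarith)
          apply Real.exp_le_exp.mpr
          have h2 : γ ^ 2 * δ * k ≤ γ ^ 2 * η * k := by
            apply mul_le_mul_of_nonneg_right _ (by linarith)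
            exact mul_le_mul_of_nonneg_left hd3 (by positivity)
          linarith
        have h3 : L * (1 - b ^ j) * b ≤
            L * (1 - b ^ j) * ((1 - η) * Real.exp (-γ - γ ^ 2 * δ * k)) :=
          mul_le_mul_of_nonneg_left h1 hl0
        have h4 : L * (1 - b ^ (j + 1)) = L * (1 - b) + L * (1 - b ^ j) * b := by
          rw [pow_succ]
          ring
        rw [h4]
        linarith
  obtain ⟨J, hJ⟩ := exists_pow_lt_of_lt_one (show 0 < ε1 / 4 by linarith) hb1
  obtain ⟨δ, hδ, hc⟩ := hclaim J (ε1 / 2) (by linarith)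
  refine ⟨min δ 1, lt_min hδ one_pos, fun E V _ _ VS S w g hI hg => ?_⟩
  have hI2 : Inst k δ VS S w :=
    ⟨hI.sub, hI.ne, hI.card, hI.nn, fun e => (hI.le e).trans (min_le_left _ _), hI.load,
      fun u hu v hv huv => (hI.cod u hu v hv huv).trans (min_le_left _ _)⟩
  obtain ⟨M, hM, hs⟩ := hc E V VS S w g hI2 hg
  refine ⟨M, hM, le_trans ?_ hs⟩
  have hW : ∑ e, w e * g e ≤ VS.card := by
    classical
    have h1 : ∀ e, w e * g e ≤ ∑ v ∈ VS, if v ∈ S e then w e else 0 := by
      intro e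
      obtain ⟨v, hv⟩ := hI.ne e
      have h2 : (if v ∈ S e then w e else 0) ≤ ∑ v ∈ VS, if v ∈ S e then w e else 0 := by
        refine Finset.single_le_sum (f := fun v => if v ∈ S e then w e else 0) (fun u _ => ?_)
          (hI.sub e hv)
        split_ifs
        · exact hI.nn e
        · exact le_refl _
      rw [if_pos hv] at h2
      have h3 := hI.nn e
      have h4 := hg e
      nlinarith
    calc ∑ e, w e * g e ≤ ∑ e, ∑ v ∈ VS, (if v ∈ S e then w e else 0) :=
          Finset.sum_le_sum fun e _ => h1 e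
      _ = ∑ v ∈ VS, ∑ e, (if v ∈ S e then w e else 0) := Finset.sum_comm
      _ ≤ ∑ v ∈ VS, (1 : ℝ) := by
          refine Finset.sum_le_sum fun v hv => ?_
          rw [← Finset.sum_filter]
          exact hI.load v hv
      _ = VS.card := by simp
  have hW0 : 0 ≤ ∑ e, w e * g e := Finset.sum_nonneg fun e _ => mul_nonneg (hI.nn e) (hg e).1
  have hlamJ : 1 - ε1 / 2 ≤ L * (1 - b ^ J) := by
    have h1 : 1 - ε1 / 4 ≤ 1 - b ^ J := by linarith
    have hL0 : 0 ≤ L := by
      change 0 ≤ 1 - ε1 / 4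
      linarith
    have h2 : L * (1 - ε1 / 4) ≤ L * (1 - b ^ J) := mul_le_mul_of_nonneg_left h1 hL0
    refine le_trans ?_ h2
    change 1 - ε1 / 2 ≤ (1 - ε1 / 4) * (1 - ε1 / 4)
    nlinarith
  have h3 : (1 - ε1 / 2) * ∑ e, w e * g e ≤ L * (1 - b ^ J) * ∑ e, w e * g e :=
    mul_le_mul_of_nonneg_right hlamJ hW0
  have h4 : (0 : ℝ) ≤ VS.card := Nat.cast_nonneg _
  have h5 : ε1 / 2 * ∑ e, w e * g e ≤ ε1 / 2 * VS.card :=
    mul_le_mul_of_nonneg_left hW (by linarith)
  have h6 : ε1 * VS.card ≤ ε * VS.card := mul_le_mul_of_nonneg_right hee h4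
  linarith

end Pool.Agent.SEM
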