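import Pool.Agent.Helper73.SEM.LW5
import Pool.Agent.Helper73.SEM.NB3

/-!
# SEM-LW6: from random labellings of the pieces to an almost complete packing

Proof in words.  `V = ℕ ⊕ ℕ ⊕ ℕ` (piece / label / sum), `VS = T ⊕ X ⊕ S` (at most `3n` elements: `|T| ≤ ∑ |P τ| ≤ n` as
`τ ∈ P τ`), `E = {(τ, ω) : τ ∈ T, ω : (L τ).Ω, wt ω ≠ 0, labels and sums injective}` (a Sigma type of subtypes),
`S_e = {piece τ} ∪ {label φ v : v ∈ P τ} ∪ {sum : i ∈ P τ ∪ ex τ}` (size `≤ 2K+2 =: k`), `w e = wt ω`.  Loads: piece: total mass `≤ 1`; label `x`: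
`∑_τ Pr (∃ v ∈ P τ, φ v = x) ≤ ∑_τ ∑_v Pr (φ v = x) ≤ 1` (`hX`); sums the same.  Codegrees (`piece_bounds`): piece/label, piece/sum, single weights
`≤ 4K²U⁴/n`; two pieces `0`; label/label and sum/sum: `≤ n * 4K²U⁴/n²`; label/sum:
`≤ 4K²U⁴/n + (#{τ : lab (p τ) = s - x}) U/n + (#{τ : ∃ r ∈ ex τ, lab r = s - x}) U/n ≤ 4K²U⁴/n + δ U + U/n` (`lab` injective on `R`, at most
`δ n` tops with the same parent; the exit `r` with this label is unique and belongs to one piece).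
`g e = |P τ|/K ≤ 1`.  `nibble` with `ε = ε1/(8K)`: matching `M`; `T' = {τ : some e ∈ M has first component τ}` (unique), `Φ` = `lab` on `R`, the
labels of the chosen `ω` on `P τ`, `τ ∈ T'`.  `∑_{T'} |P τ| ≥ ∑_T |P τ| (1 - 8K²U⁴/n) - K ε 3n ≥ ∑_T |P τ| - ε1 n` for `n ≥ n0`.
Disjointness of the `S_e` gives the injectivity across different pieces.
-/

set_option autoImplicit false

namespace Pool.Agent.SEM

open Finset


/-- edges of the auxiliary hypergraph: a piece and an outcome of its random labelling -/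
def EE (T : Finset ℕ) (L : ℕ → FL) : Type := Σ τ : {x // x ∈ T}, (L τ.1).Ω

instance instFintypeEE (T : Finset ℕ) (L : ℕ → FL) : Fintype (EE T L) :=
  letI : ∀ τ : {x // x ∈ T}, Fintype ((L τ.1).Ω) := fun τ => (L τ.1).fin
  inferInstanceAs (Fintype (Σ τ : {x // x ∈ T}, (L τ.1).Ω))

/-- the edge given by a piece and an outcome -/
def EE.mk {T : Finset ℕ} {L : ℕ → FL} (τ : {x // x ∈ T}) (ω : (L τ.1).Ω) : EE T L := ⟨τ, ω⟩

/-- the labelling of an edge -/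
def EE.fn {T : Finset ℕ} {L : ℕ → FL} (e : EE T L) : ℕ → ℕ := (L e.1.1).Φ e.2

/-- good outcomes -/
def EE.good {T : Finset ℕ} {L : ℕ → FL} (p : ℕ → ℕ) (P ex : ℕ → Finset ℕ) (e : EE T L) : Prop :=
  (L e.1.1).wt e.2 ≠ 0 ∧ Set.InjOn e.fn (P e.1.1) ∧
    Set.InjOn (fun i => e.fn i + e.fn (p i)) (P e.1.1 ∪ ex e.1.1 : Finset ℕ)

open Classical in
/-- weights -/
noncomputable def EE.w {T : Finset ℕ} {L : ℕ → FL} (p : ℕ → ℕ) (P ex : ℕ → Finset ℕ)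
    (e : EE T L) : ℝ := if e.good p P ex then (L e.1.1).wt e.2 else 0

open Classical in
/-- the vertices of an edge -/
noncomputable def EE.S {T : Finset ℕ} {L : ℕ → FL} (p : ℕ → ℕ) (P ex : ℕ → Finset ℕ)
    (e : EE T L) : Finset (ℕ ⊕ ℕ ⊕ ℕ) :=
  Finset.disjSum {e.1.1} (Finset.disjSum
    (if e.good p P ex then (P e.1.1).image e.fn else ∅)
    (if e.good p P ex then (P e.1.1 ∪ ex e.1.1).image (fun i => e.fn i + e.fn (p i)) else ∅))

theorem EE.sum_eq {T : Finset ℕ} {L : ℕ → FL} (F : EE T L → ℝ) :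
    ∑ e, F e = ∑ τ : {x // x ∈ T}, (letI := (L τ.1).fin; ∑ ω : (L τ.1).Ω, F (EE.mk τ ω)) := by
  let _ : ∀ τ : {x // x ∈ T}, Fintype ((L τ.1).Ω) := fun τ => (L τ.1).fin
  exact Fintype.sum_sigma (fun e : (Σ τ : {x // x ∈ T}, (L τ.1).Ω) => F e)

open Classical in
theorem EE.sum_le {T : Finset ℕ} {L : ℕ → FL} {p : ℕ → ℕ} {P ex : ℕ → Finset ℕ}
    (hnn : ∀ τ ∈ T, ∀ ω, 0 ≤ (L τ).wt ω) (q : EE T L → Prop) [DecidablePred q]
    (Q : ℕ → (ℕ → ℕ) → Prop)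
    (h : ∀ e : EE T L, e.good p P ex → q e → Q e.1.1 e.fn) :
    ∑ e with q e, e.w p P ex ≤ ∑ τ ∈ T, (L τ).Pr (Q τ) := by
  rw [sum_filter, EE.sum_eq, ← Finset.sum_coe_sort T (fun τ => (L τ).Pr (Q τ))]
  refine sum_le_sum fun τ _ => ?_
  unfold FL.Pr FL.Ex
  refine sum_le_sum fun ω _ => ?_
  have h0 := hnn τ.1 τ.2 ω
  have h1 := h (EE.mk τ ω)
  show _ ≤ (L τ.1).wt ω * (if Q τ.1 ((L τ.1).Φ ω) then (1 : ℝ) else 0)
  by_cases hq : q (EE.mk τ ω)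
  · by_cases hg : (EE.mk τ ω : EE T L).good p P ex
    · have h2 := h1 hg hq
      have h3 : Q τ.1 ((L τ.1).Φ ω) := h2
      rw [if_pos hq, if_pos h3, mul_one]
      unfold EE.w
      rw [if_pos hg]
      exact le_rfl
    · rw [if_pos hq]
      unfold EE.w
      rw [if_neg hg]
      exact mul_nonneg h0 (by split_ifs <;> norm_num)
  · rw [if_neg hq]
    exact mul_nonneg h0 (by split_ifs <;> norm_num)

open Classical in
theorem FL.Pr_false {L : FL} {Q : (ℕ → ℕ) → Prop} (h : ∀ φ, ¬ Q φ) : L.Pr Q = 0 := by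
  unfold FL.Pr FL.Ex
  refine sum_eq_zero fun ω _ => ?_
  show L.wt ω * (if Q (L.Φ ω) then (1 : ℝ) else 0) = 0
  rw [if_neg (h _), mul_zero]

theorem FL.Pr_congr {L : FL} {Q Q' : (ℕ → ℕ) → Prop} (h : ∀ φ, Q φ ↔ Q' φ) : L.Pr Q = L.Pr Q' := by
  have : Q = Q' := funext fun φ => propext (h φ)
  rw [this]

theorem EE.sum_le_one {T : Finset ℕ} {L : ℕ → FL} {p : ℕ → ℕ} {P ex : ℕ → Finset ℕ}
    (hnn : ∀ τ ∈ T, ∀ ω, 0 ≤ (L τ).wt ω) (q : EE T L → Prop) [DecidablePred q]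
    (τ0 : ℕ) (hτ : τ0 ∈ T) (Q : (ℕ → ℕ) → Prop)
    (h : ∀ e : EE T L, e.good p P ex → q e → e.1.1 = τ0 ∧ Q e.fn) :
    ∑ e with q e, e.w p P ex ≤ (L τ0).Pr Q := by
  have h1 := EE.sum_le hnn q (fun τ φ => τ = τ0 ∧ Q φ) (p := p) (P := P) (ex := ex) h
  refine h1.trans (le_of_eq ?_)
  rw [Finset.sum_eq_single τ0]
  · exact FL.Pr_congr (by simp)
  · intro b _ hb
    exact FL.Pr_false (by simp [hb])
  · intro h2
    exact absurd hτ h2

theorem EE.w_nonneg {T : Finset ℕ} {L : ℕ → FL} {p : ℕ → ℕ} {P ex : ℕ → Finset ℕ}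
    (hnn : ∀ τ ∈ T, ∀ ω, 0 ≤ (L τ).wt ω) (e : EE T L) : 0 ≤ e.w p P ex := by
  unfold EE.w
  split_ifs
  · exact hnn _ e.1.2 _
  · exact le_rfl

theorem EE.inl_mem {T : Finset ℕ} {L : ℕ → FL} {p : ℕ → ℕ} {P ex : ℕ → Finset ℕ} {e : EE T L}
    {τ : ℕ} : (Sum.inl τ : ℕ ⊕ ℕ ⊕ ℕ) ∈ e.S p P ex ↔ τ = e.1.1 := by
  unfold EE.S
  simp

theorem EE.lbl_mem {T : Finset ℕ} {L : ℕ → FL} {p : ℕ → ℕ} {P ex : ℕ → Finset ℕ} {e : EE T L}
    {x : ℕ} : (Sum.inr (Sum.inl x) : ℕ ⊕ ℕ ⊕ ℕ) ∈ e.S p P ex ↔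
      e.good p P ex ∧ ∃ v ∈ P e.1.1, e.fn v = x := by
  unfold EE.S
  by_cases h : e.good p P ex <;> simp [h]

theorem EE.sum_mem {T : Finset ℕ} {L : ℕ → FL} {p : ℕ → ℕ} {P ex : ℕ → Finset ℕ} {e : EE T L}
    {s : ℕ} : (Sum.inr (Sum.inr s) : ℕ ⊕ ℕ ⊕ ℕ) ∈ e.S p P ex ↔
      e.good p P ex ∧ ∃ i ∈ P e.1.1 ∪ ex e.1.1, e.fn i + e.fn (p i) = s := by
  unfold EE.S
  by_cases h : e.good p P ex <;> simp [h]



theorem pack_extract {n : ℕ} {p lab : ℕ → ℕ} {R X S T : Finset ℕ} {P ex : ℕ → Finset ℕ}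
    {L : ℕ → FL} {U : ℝ} (hG : ∀ τ ∈ T, Geo p R (P τ) (ex τ) τ)
    (hdP : ∀ τ ∈ T, ∀ τ' ∈ T, τ ≠ τ' → Disjoint (P τ) (P τ'))
    (hL : ∀ τ ∈ T, PL n p R lab X S (P τ) (ex τ) U (L τ))
    (M : Finset (EE T L)) (hM : ∀ e ∈ M, ∀ f ∈ M, e ≠ f → Disjoint (e.S p P ex) (f.S p P ex))
    (g : EE T L → ℝ) (c : ℝ)
    (hg : ∀ e : EE T L, e.good p P ex → g e ≤ c * (P e.1.1).card)
    (hg0 : ∀ e : EE T L, ¬ e.good p P ex → g e = 0) :
    ∃ (T' : Finset ℕ) (f : ℕ → ℕ), T' ⊆ T ∧ (∀ r ∈ R, f r = lab r) ∧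
      (∀ τ ∈ T', ∀ v ∈ P τ, f v ∈ X) ∧ (∀ τ ∈ T', ∀ i ∈ P τ ∪ ex τ, f i + f (p i) ∈ S) ∧
      Set.InjOn f (T'.biUnion P) ∧
      Set.InjOn (fun i => f i + f (p i)) (T'.biUnion fun τ => P τ ∪ ex τ : Finset ℕ) ∧
      ∑ e ∈ M, g e ≤ c * ∑ τ ∈ T', ((P τ).card : ℝ) := by
  classical
  set G : Finset (EE T L) := M.filter (fun e => e.good p P ex) with hGdef
  have hGM : ∀ e ∈ G, e ∈ M := fun e he => (mem_filter.1 he).1
  have hGg : ∀ e ∈ G, e.good p P ex := fun e he => (mem_filter.1 he).2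
  have hu1 : ∀ e ∈ G, ∀ e' ∈ G, e.1.1 = e'.1.1 → e = e' := by
    intro e he e' he' h
    by_contra hne
    have h1 := hM e (hGM e he) e' (hGM e' he') hne
    exact Finset.disjoint_left.1 h1 (EE.inl_mem.2 rfl) (EE.inl_mem.2 h)
  have hu2 : ∀ e ∈ G, ∀ e' ∈ G, ∀ v, v ∈ P e.1.1 → v ∈ P e'.1.1 → e = e' := by
    intro e he e' he' v hv hv'
    by_contra hne
    have h1 : e.1.1 ≠ e'.1.1 := fun h => hne (hu1 e he e' he' h)
    exact Finset.disjoint_left.1 (hdP _ e.1.2 _ e'.1.2 h1) hv hv'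
  set f : ℕ → ℕ := fun v => if h : ∃ e ∈ G, v ∈ P e.1.1 then (Classical.choose h).fn v else lab v with hf
  have k1 : ∀ e ∈ G, ∀ v ∈ P e.1.1, f v = e.fn v := by
    intro e he v hv
    have h : ∃ e ∈ G, v ∈ P e.1.1 := ⟨e, he, hv⟩
    have h1 := Classical.choose_spec h
    have h2 : Classical.choose h = e := hu2 _ h1.1 _ he v h1.2 hv
    have h3 : f v = (Classical.choose h).fn v := by rw [hf]; exact dif_pos h
    rw [h3, h2]
  have k2 : ∀ r ∈ R, f r = lab r := by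
    intro r hr
    have h : ¬ ∃ e ∈ G, r ∈ P e.1.1 := by
      rintro ⟨e, _, hv⟩
      exact Finset.disjoint_left.1 (hG _ e.1.2).PR hv hr
    rw [hf]; exact dif_neg h
  have k2' : ∀ e ∈ G, ∀ r ∈ R, f r = e.fn r := by
    intro e _ r hr
    rw [k2 r hr]
    exact ((hL _ e.1.2).onR e.2 r hr).symm
  have k3 : ∀ e ∈ G, ∀ i ∈ P e.1.1 ∪ ex e.1.1, f i = e.fn i ∧ f (p i) = e.fn (p i) := by
    intro e he i hi
    have hg := hG _ e.1.2
    rcases mem_union.1 hi with h | h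
    · refine ⟨k1 e he i h, ?_⟩
      by_cases hit : i = e.1.1
      · rw [hit]; exact k2' e he _ hg.tR
      · exact k1 e he _ (hg.st i h hit)
    · exact ⟨k2' e he i (hg.exR h), k1 e he _ (hg.exP i h).1⟩
  have k4 : ∀ e ∈ G, ∀ e' ∈ G, ∀ x, (∃ v ∈ P e.1.1, e.fn v = x) → (∃ v ∈ P e'.1.1, e'.fn v = x) →
      e = e' := by
    intro e he e' he' x h h'
    by_contra hne
    exact Finset.disjoint_left.1 (hM e (hGM e he) e' (hGM e' he') hne)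
      (EE.lbl_mem.2 ⟨hGg e he, h⟩) (EE.lbl_mem.2 ⟨hGg e' he', h'⟩)
  have k5 : ∀ e ∈ G, ∀ e' ∈ G, ∀ s, (∃ i ∈ P e.1.1 ∪ ex e.1.1, e.fn i + e.fn (p i) = s) →
      (∃ i ∈ P e'.1.1 ∪ ex e'.1.1, e'.fn i + e'.fn (p i) = s) → e = e' := by
    intro e he e' he' s h h'
    by_contra hne
    exact Finset.disjoint_left.1 (hM e (hGM e he) e' (hGM e' he') hne)
      (EE.sum_mem.2 ⟨hGg e he, h⟩) (EE.sum_mem.2 ⟨hGg e' he', h'⟩)
  have hT' : ∀ τ, τ ∈ G.image (fun e => e.1.1) ↔ ∃ e ∈ G, e.1.1 = τ := fun τ => mem_image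
  refine ⟨G.image (fun e => e.1.1), f, ?_, k2, ?_, ?_, ?_, ?_, ?_⟩
  · intro τ hτ
    obtain ⟨e, _, rfl⟩ := (hT' τ).1 hτ
    exact e.1.2
  · intro τ hτ v hv
    obtain ⟨e, he, rfl⟩ := (hT' τ).1 hτ
    rw [k1 e he v hv]
    exact (hL _ e.1.2).lbl e.2 (hGg e he).1 v hv
  · intro τ hτ i hi
    obtain ⟨e, he, rfl⟩ := (hT' τ).1 hτ
    rw [(k3 e he i hi).1, (k3 e he i hi).2]
    exact (hL _ e.1.2).sm e.2 (hGg e he).1 i hi
  · intro v hv v' hv' hvv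
    obtain ⟨τ, hτ, hv⟩ := mem_biUnion.1 (mem_coe.1 hv)
    obtain ⟨τ', hτ', hv'⟩ := mem_biUnion.1 (mem_coe.1 hv')
    obtain ⟨e, he, rfl⟩ := (hT' τ).1 hτ
    obtain ⟨e', he', rfl⟩ := (hT' τ').1 hτ'
    rw [k1 e he v hv, k1 e' he' v' hv'] at hvv
    have h1 := k4 e he e' he' (e.fn v) ⟨v, hv, rfl⟩ ⟨v', hv', hvv.symm⟩
    subst h1
    exact (hGg e he).2.1 (mem_coe.2 hv) (mem_coe.2 hv') hvv
  · intro i hi i' hi' hii
    obtain ⟨τ, hτ, hi⟩ := mem_biUnion.1 (mem_coe.1 hi)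
    obtain ⟨τ', hτ', hi'⟩ := mem_biUnion.1 (mem_coe.1 hi')
    obtain ⟨e, he, rfl⟩ := (hT' τ).1 hτ
    obtain ⟨e', he', rfl⟩ := (hT' τ').1 hτ'
    have hii' : e.fn i + e.fn (p i) = e'.fn i' + e'.fn (p i') := by
      have := hii
      simp only at this
      rw [(k3 e he i hi).1, (k3 e he i hi).2, (k3 e' he' i' hi').1, (k3 e' he' i' hi').2] at this
      exact this
    have h1 := k5 e he e' he' _ ⟨i, hi, rfl⟩ ⟨i', hi', hii'.symm⟩
    subst h1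
    exact (hGg e he).2.2 (mem_coe.2 hi) (mem_coe.2 hi') hii'
  · rw [Finset.sum_image (f := fun τ => ((P τ).card : ℝ)) (fun e he e' he' h => hu1 e he e' he' h),
      mul_sum]
    rw [← sum_filter_add_sum_filter_not M (fun e => e.good p P ex)]
    have z : ∑ e ∈ M with ¬ e.good p P ex, g e = 0 :=
      sum_eq_zero fun e he => hg0 e (mem_filter.1 he).2
    rw [z, add_zero]
    exact sum_le_sum fun e he => hg e (mem_filter.1 he).2

open Classical in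
theorem pack_mass {n : ℕ} {p lab : ℕ → ℕ} {R X S T : Finset ℕ} {P ex : ℕ → Finset ℕ}
    {L : ℕ → FL} {U b c : ℝ} (hc : 0 ≤ c)
    (hL : ∀ τ ∈ T, PL n p R lab X S (P τ) (ex τ) U (L τ))
    (hb : ∀ τ ∈ T, (L τ).Pr (fun φ => ¬ (Set.InjOn φ (P τ) ∧
      Set.InjOn (fun i => φ i + φ (p i)) (P τ ∪ ex τ : Finset ℕ))) ≤ b) :
    c * ∑ τ ∈ T, ((P τ).card : ℝ) * (1 - b) ≤
      ∑ e : EE T L, e.w p P ex * (if e.good p P ex then c * (P e.1.1).card else 0) := by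
  rw [EE.sum_eq, mul_sum, ← Finset.sum_coe_sort T (fun τ => c * (((P τ).card : ℝ) * (1 - b)))]
  refine sum_le_sum fun τ _ => ?_
  let _ := (L τ.1).fin
  have h1 : 1 - b ≤ ∑ ω : (L τ.1).Ω, (EE.mk τ ω : EE T L).w p P ex := by
    have h2 := hb τ.1 τ.2
    have h3 := (hL τ.1 τ.2).one
    unfold FL.Pr at h2
    unfold FL.Ex at h2 h3
    have h4 : ∑ ω : (L τ.1).Ω, (L τ.1).wt ω * 1 ≤ ∑ ω : (L τ.1).Ω, ((EE.mk τ ω : EE T L).w p P ex +
        (L τ.1).wt ω * (if ¬ (Set.InjOn ((L τ.1).Φ ω) (P τ.1) ∧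
      Set.InjOn (fun i => (L τ.1).Φ ω i + (L τ.1).Φ ω (p i)) (P τ.1 ∪ ex τ.1 : Finset ℕ)) then (1 : ℝ) else 0)) := by
      refine sum_le_sum fun ω _ => ?_
      have h0 := (hL τ.1 τ.2).nn ω
      by_cases hi : (Set.InjOn ((L τ.1).Φ ω) (P τ.1) ∧
        Set.InjOn (fun i => (L τ.1).Φ ω i + (L τ.1).Φ ω (p i)) (P τ.1 ∪ ex τ.1 : Finset ℕ))
      · by_cases hw : (L τ.1).wt ω = 0
        · rw [hw]
          have := EE.w_nonneg (p := p) (P := P) (ex := ex) (fun τ hτ => (hL τ hτ).nn) (EE.mk τ ω : EE T L)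
          linarith
        · have hgd : (EE.mk τ ω : EE T L).good p P ex := ⟨hw, hi.1, hi.2⟩
          unfold EE.w
          rw [if_pos hgd, if_neg (not_not.2 hi)]
          show (L τ.1).wt ω * 1 ≤ (L τ.1).wt ω + _
          linarith
      · rw [if_pos hi]
        have := EE.w_nonneg (p := p) (P := P) (ex := ex) (fun τ hτ => (hL τ hτ).nn) (EE.mk τ ω : EE T L)
        linarith
    rw [sum_add_distrib] at h4
    have h5 : ∑ ω : (L τ.1).Ω, (L τ.1).wt ω * 1 = 1 := h3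
    have h6 : ∑ ω : (L τ.1).Ω, (L τ.1).wt ω * (if ¬ (Set.InjOn ((L τ.1).Φ ω) (P τ.1) ∧
      Set.InjOn (fun i => (L τ.1).Φ ω i + (L τ.1).Φ ω (p i)) (P τ.1 ∪ ex τ.1 : Finset ℕ)) then (1 : ℝ) else 0) ≤ b := by
      refine le_trans (le_of_eq (sum_congr rfl fun ω _ => ?_)) h2
      by_cases hh : (Set.InjOn ((L τ.1).Φ ω) (P τ.1) ∧
        Set.InjOn (fun i => (L τ.1).Φ ω i + (L τ.1).Φ ω (p i)) (P τ.1 ∪ ex τ.1 : Finset ℕ))
      · rw [if_neg (not_not.2 hh)]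
        dsimp only
        rw [if_neg (not_not.2 hh)]
      · rw [if_pos hh]
        dsimp only
        rw [if_pos hh]
    linarith
  have h2 : ∑ ω : (L τ.1).Ω, (EE.mk τ ω : EE T L).w p P ex *
      (if (EE.mk τ ω : EE T L).good p P ex then c * (P (EE.mk τ ω : EE T L).1.1).card else 0) =
      (c * (P τ.1).card) * ∑ ω : (L τ.1).Ω, (EE.mk τ ω : EE T L).w p P ex := by
    rw [mul_sum]
    refine sum_congr rfl fun ω _ => ?_
    by_cases hgd : (EE.mk τ ω : EE T L).good p P ex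
    · rw [if_pos hgd]
      show _ * (c * ((P τ.1).card : ℝ)) = _
      ring
    · unfold EE.w
      rw [if_neg hgd, if_neg hgd]
      ring
  refine le_trans ?_ (le_of_eq h2.symm)
  have h3 : 0 ≤ c * ((P τ.1).card : ℝ) := by positivity
  calc c * (((P τ.1).card : ℝ) * (1 - b)) = (c * (P τ.1).card) * (1 - b) := by ring
    _ ≤ _ := mul_le_mul_of_nonneg_left h1 h3

open Classical in
theorem FL.Pr_exists_le {L : FL} (hnn : ∀ ω, 0 ≤ L.wt ω) (A : Finset ℕ)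
    (Q : ℕ → (ℕ → ℕ) → Prop) : L.Pr (fun φ => ∃ i ∈ A, Q i φ) ≤ ∑ i ∈ A, L.Pr (Q i) := by
  unfold FL.Pr FL.Ex
  rw [sum_comm]
  refine sum_le_sum fun ω _ => ?_
  rw [← mul_sum]
  refine mul_le_mul_of_nonneg_left ?_ (hnn ω)
  dsimp only
  by_cases h : ∃ i ∈ A, Q i (L.Φ ω)
  · rw [if_pos h]
    obtain ⟨v, hv, hvx⟩ := h
    have := single_le_sum (f := fun v => (if Q v (L.Φ ω) then (1 : ℝ) else 0))
      (fun v _ => by show (0 : ℝ) ≤ (if Q v (L.Φ ω) then (1 : ℝ) else 0); split_ifs <;> norm_num) hv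
    rw [if_pos hvx] at this
    exact this
  · rw [if_neg h]
    exact sum_nonneg fun v _ => by split_ifs <;> norm_num

open Classical in
theorem pack_inst {K n : ℕ} {U c δ δN : ℝ} {p lab : ℕ → ℕ} {R X S T : Finset ℕ}
    {P ex : ℕ → Finset ℕ} {L : ℕ → FL} (hn : 1 ≤ n) (hU : 1 ≤ U) (hc0 : 0 ≤ c)
    (hcU : c / n + δ * U + U / n ≤ δN)
    (hTn : (T.card : ℝ) ≤ n)
    (hG : ∀ τ ∈ T, Geo p R (P τ) (ex τ) τ) (hPK : ∀ τ ∈ T, (P τ).card ≤ K)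
    (hdE : ∀ τ ∈ T, ∀ τ' ∈ T, τ ≠ τ' → Disjoint (ex τ) (ex τ'))
    (hlab : Set.InjOn lab R) (hδ : ∀ r ∈ R, ((T.filter fun τ => p τ = r).card : ℝ) ≤ δ * n)
    (hδ0 : 0 ≤ δ)
    (hL : ∀ τ ∈ T, PL n p R lab X S (P τ) (ex τ) U (L τ))
    (hXl : ∀ x ∈ X, ∑ τ ∈ T, ∑ v ∈ P τ, (L τ).Pr (fun φ => φ v = x) ≤ 1)
    (hSl : ∀ s ∈ S, ∑ τ ∈ T, ∑ i ∈ P τ ∪ ex τ, (L τ).Pr (fun φ => φ i + φ (p i) = s) ≤ 1)
    (b1 : ∀ τ ∈ T, ∀ x, (L τ).Pr (fun φ => ∃ v ∈ P τ, φ v = x) ≤ c / n)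
    (b2 : ∀ τ ∈ T, ∀ s, (L τ).Pr (fun φ => ∃ i ∈ P τ ∪ ex τ, φ i + φ (p i) = s) ≤ c / n)
    (b3 : ∀ τ ∈ T, ∀ x x', x ≠ x' → (L τ).Pr (fun φ => (∃ v ∈ P τ, φ v = x) ∧ ∃ v ∈ P τ, φ v = x') ≤
      c / n ^ 2)
    (b4 : ∀ τ ∈ T, ∀ x s, (L τ).Pr (fun φ => (∃ v ∈ P τ, φ v = x) ∧ ∃ i ∈ P τ ∪ ex τ, φ i + φ (p i) = s) ≤
      c / n ^ 2 + (if x + lab (p τ) = s then U / n else 0) +
        ∑ r ∈ ex τ, if x + lab r = s then U / n else 0)
    (b5 : ∀ τ ∈ T, ∀ s s', s ≠ s' → (L τ).Pr (fun φ => (∃ i ∈ P τ ∪ ex τ, φ i + φ (p i) = s) ∧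
      ∃ i ∈ P τ ∪ ex τ, φ i + φ (p i) = s') ≤ c / n ^ 2) :
    Inst (2 * K + 2) δN (T.disjSum (X.disjSum S)) (fun e : EE T L => e.S p P ex)
      (fun e => e.w p P ex) := by
  have hnpos : (0 : ℝ) < n := by exact_mod_cast hn
  have hnn : ∀ τ ∈ T, ∀ ω, 0 ≤ (L τ).wt ω := fun τ hτ => (hL τ hτ).nn
  have hUn : 0 ≤ U / n := by positivity
  have hcn : c / n ≤ δN := by
    have : 0 ≤ δ * U := by positivity
    linarith
  have hδN : 0 ≤ δN := le_trans (by positivity) hcn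
  have hcnn : (T.card : ℝ) * (c / n ^ 2) ≤ c / n := by
    calc (T.card : ℝ) * (c / n ^ 2) ≤ n * (c / n ^ 2) := mul_le_mul_of_nonneg_right hTn (by positivity)
      _ = c / n := by field_simp
  have hsym : ∀ u v : ℕ ⊕ ℕ ⊕ ℕ, ∑ e : EE T L with (u ∈ e.S p P ex ∧ v ∈ e.S p P ex), e.w p P ex =
      ∑ e : EE T L with (v ∈ e.S p P ex ∧ u ∈ e.S p P ex), e.w p P ex := by
    intro u v
    refine sum_congr ?_ fun _ _ => rfl
    ext e
    simp only [mem_filter, and_comm]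
  -- piece and label
  have cPL : ∀ τ ∈ T, ∀ x, ∑ e : EE T L with ((Sum.inl τ : ℕ ⊕ ℕ ⊕ ℕ) ∈ e.S p P ex ∧
      (Sum.inr (Sum.inl x) : ℕ ⊕ ℕ ⊕ ℕ) ∈ e.S p P ex), e.w p P ex ≤ δN := by
    intro τ hτ x
    refine (EE.sum_le_one hnn _ τ hτ (fun φ => ∃ v ∈ P τ, φ v = x) ?_).trans ((b1 τ hτ x).trans hcn)
    intro e _ hq
    have h1 := EE.inl_mem.1 hq.1
    have h2 := (EE.lbl_mem.1 hq.2).2
    subst h1
    exact ⟨rfl, h2⟩
  have cPS : ∀ τ ∈ T, ∀ s, ∑ e : EE T L with ((Sum.inl τ : ℕ ⊕ ℕ ⊕ ℕ) ∈ e.S p P ex ∧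
      (Sum.inr (Sum.inr s) : ℕ ⊕ ℕ ⊕ ℕ) ∈ e.S p P ex), e.w p P ex ≤ δN := by
    intro τ hτ s
    refine (EE.sum_le_one hnn _ τ hτ (fun φ => ∃ i ∈ P τ ∪ ex τ, φ i + φ (p i) = s) ?_).trans
      ((b2 τ hτ s).trans hcn)
    intro e _ hq
    have h1 := EE.inl_mem.1 hq.1
    have h2 := (EE.sum_mem.1 hq.2).2
    subst h1
    exact ⟨rfl, h2⟩
  have cLL : ∀ x x', x ≠ x' → ∑ e : EE T L with ((Sum.inr (Sum.inl x) : ℕ ⊕ ℕ ⊕ ℕ) ∈ e.S p P ex ∧
      (Sum.inr (Sum.inl x') : ℕ ⊕ ℕ ⊕ ℕ) ∈ e.S p P ex), e.w p P ex ≤ δN := by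
    intro x x' hne
    refine (EE.sum_le hnn _ (fun τ φ => (∃ v ∈ P τ, φ v = x) ∧ ∃ v ∈ P τ, φ v = x') ?_).trans ?_
    · intro e _ hq
      exact ⟨(EE.lbl_mem.1 hq.1).2, (EE.lbl_mem.1 hq.2).2⟩
    · refine (sum_le_card_nsmul _ _ _ fun τ hτ => b3 τ hτ x x' hne).trans ?_
      rw [nsmul_eq_mul]
      exact hcnn.trans hcn
  have cSS : ∀ s s', s ≠ s' → ∑ e : EE T L with ((Sum.inr (Sum.inr s) : ℕ ⊕ ℕ ⊕ ℕ) ∈ e.S p P ex ∧
      (Sum.inr (Sum.inr s') : ℕ ⊕ ℕ ⊕ ℕ) ∈ e.S p P ex), e.w p P ex ≤ δN := by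
    intro s s' hne
    refine (EE.sum_le hnn _ (fun τ φ => (∃ i ∈ P τ ∪ ex τ, φ i + φ (p i) = s) ∧
      ∃ i ∈ P τ ∪ ex τ, φ i + φ (p i) = s') ?_).trans ?_
    · intro e _ hq
      exact ⟨(EE.sum_mem.1 hq.1).2, (EE.sum_mem.1 hq.2).2⟩
    · refine (sum_le_card_nsmul _ _ _ fun τ hτ => b5 τ hτ s s' hne).trans ?_
      rw [nsmul_eq_mul]
      exact hcnn.trans hcn
  have cLS : ∀ x s, ∑ e : EE T L with ((Sum.inr (Sum.inl x) : ℕ ⊕ ℕ ⊕ ℕ) ∈ e.S p P ex ∧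
      (Sum.inr (Sum.inr s) : ℕ ⊕ ℕ ⊕ ℕ) ∈ e.S p P ex), e.w p P ex ≤ δN := by
    intro x s
    refine (EE.sum_le hnn _ (fun τ φ => (∃ v ∈ P τ, φ v = x) ∧
      ∃ i ∈ P τ ∪ ex τ, φ i + φ (p i) = s) ?_).trans ?_
    · intro e _ hq
      exact ⟨(EE.lbl_mem.1 hq.1).2, (EE.sum_mem.1 hq.2).2⟩
    · refine (sum_le_sum fun τ hτ => b4 τ hτ x s).trans ?_
      rw [sum_add_distrib, sum_add_distrib]
      have a1 : ∑ _τ ∈ T, c / (n : ℝ) ^ 2 ≤ c / n := by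
        rw [sum_const, nsmul_eq_mul]; exact hcnn
      have a2 : ∑ τ ∈ T, (if x + lab (p τ) = s then U / n else 0) ≤ δ * U := by
        rw [← sum_filter, sum_const, nsmul_eq_mul]
        by_cases hex : ∃ τ0 ∈ T, x + lab (p τ0) = s
        · obtain ⟨τ0, hτ0, h0⟩ := hex
          have h1 : (T.filter fun τ => x + lab (p τ) = s) ⊆ T.filter fun τ => p τ = p τ0 := by
            intro τ hτ
            rw [mem_filter] at hτ ⊢
            refine ⟨hτ.1, hlab (hG τ hτ.1).tR (hG τ0 hτ0).tR ?_⟩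
            have := hτ.2
            omega
          have h2 : ((T.filter fun τ => x + lab (p τ) = s).card : ℝ) ≤ δ * n :=
            le_trans (by exact_mod_cast card_le_card h1) (hδ _ (hG τ0 hτ0).tR)
          calc ((T.filter fun τ => x + lab (p τ) = s).card : ℝ) * (U / n) ≤ (δ * n) * (U / n) :=
                mul_le_mul_of_nonneg_right h2 hUn
            _ = δ * U := by field_simp
        · have : (T.filter fun τ => x + lab (p τ) = s) = ∅ := by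
            rw [filter_eq_empty_iff]
            intro τ hτ h
            exact hex ⟨τ, hτ, h⟩
          rw [this]
          simp only [card_empty, Nat.cast_zero, zero_mul]
          positivity
      have a3 : ∑ τ ∈ T, ∑ r ∈ ex τ, (if x + lab r = s then U / n else 0) ≤ U / n := by
        rw [sum_sigma' T ex (fun _ r => if x + lab r = s then U / (n : ℝ) else 0), ← sum_filter,
          sum_const, nsmul_eq_mul]
        have h1 : ((T.sigma ex).filter fun q => x + lab q.2 = s).card ≤ 1 := by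
          rw [card_le_one]
          rintro ⟨τ, r⟩ hq ⟨τ', r'⟩ hq'
          rw [mem_filter, mem_sigma] at hq hq'
          obtain ⟨⟨ha, hb⟩, hc⟩ := hq
          obtain ⟨⟨ha', hb'⟩, hc'⟩ := hq'
          simp only at ha hb hc ha' hb' hc'
          have hr : r = r' := hlab ((hG τ ha).exR hb) ((hG τ' ha').exR hb') (by omega)
          subst hr
          by_cases hττ : τ = τ'
          · subst hττ; rfl
          · exact absurd hb' (Finset.disjoint_left.1 (hdE τ ha τ' ha' hττ) hb)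
        have h2 : (((T.sigma ex).filter fun q => x + lab q.2 = s).card : ℝ) ≤ 1 := by exact_mod_cast h1
        calc _ ≤ (1 : ℝ) * (U / n) := mul_le_mul_of_nonneg_right h2 hUn
          _ = U / n := one_mul _
      linarith
  refine ⟨?_, ?_, ?_, ?_, ?_, ?_, ?_⟩
  · -- sub
    intro e u hu
    rcases u with τ | x | s
    · rw [EE.inl_mem] at hu
      rw [inl_mem_disjSum, hu]; exact e.1.2
    · obtain ⟨hg, v, hv, rfl⟩ := EE.lbl_mem.1 hu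
      rw [inr_mem_disjSum, inl_mem_disjSum]
      exact (hL _ e.1.2).lbl e.2 hg.1 v hv
    · obtain ⟨hg, i, hi, rfl⟩ := EE.sum_mem.1 hu
      rw [inr_mem_disjSum, inr_mem_disjSum]
      exact (hL _ e.1.2).sm e.2 hg.1 i hi
  · intro e
    exact ⟨Sum.inl e.1.1, EE.inl_mem.2 rfl⟩
  · -- card
    intro e
    have h1 := hPK _ e.1.2
    have h2 := (hG _ e.1.2).ex1
    have h3 : (P e.1.1 ∪ ex e.1.1).card ≤ K + 1 := (card_union_le _ _).trans (by omega)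
    show (e.S p P ex).card ≤ _
    unfold EE.S
    rw [card_disjSum, card_disjSum, card_singleton]
    split_ifs
    · have h4 : ((P e.1.1).image e.fn).card ≤ K := card_image_le.trans h1
      have h5 : ((P e.1.1 ∪ ex e.1.1).image (fun i => e.fn i + e.fn (p i))).card ≤ K + 1 :=
        card_image_le.trans h3
      omega
    · simp only [card_empty]; omega
  · exact fun e => EE.w_nonneg hnn e
  · -- single weights
    intro e
    show e.w p P ex ≤ δN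
    by_cases hg : e.good p P ex
    · have h1 : e ∈ (univ : Finset (EE T L)).filter (fun e' => (Sum.inl e.1.1 : ℕ ⊕ ℕ ⊕ ℕ) ∈ e'.S p P ex ∧
          (Sum.inr (Sum.inl (e.fn e.1.1)) : ℕ ⊕ ℕ ⊕ ℕ) ∈ e'.S p P ex) :=
        mem_filter.2 ⟨mem_univ _, EE.inl_mem.2 rfl, EE.lbl_mem.2 ⟨hg, e.1.1, (hG _ e.1.2).tP, rfl⟩⟩
      have h2 := single_le_sum (f := fun e' : EE T L => e'.w p P ex) (fun e' _ => EE.w_nonneg hnn e') h1
      exact h2.trans (cPL _ e.1.2 _)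
    · unfold EE.w
      rw [if_neg hg]
      exact hδN
  · -- loads
    intro u hu
    rcases u with τ | x | s
    · rw [inl_mem_disjSum] at hu
      refine (EE.sum_le_one hnn _ τ hu (fun _ => True) ?_).trans ?_
      · intro e _ hq
        exact ⟨(EE.inl_mem.1 hq).symm, trivial⟩
      · have := (hL τ hu).one
        unfold FL.Pr
        simpa using this.le
    · rw [inr_mem_disjSum, inl_mem_disjSum] at hu
      refine (EE.sum_le hnn _ (fun τ φ => ∃ v ∈ P τ, φ v = x) ?_).trans ((sum_le_sum ?_).trans (hXl x hu))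
      · intro e _ hq
        exact (EE.lbl_mem.1 hq).2
      · intro τ hτ
        exact FL.Pr_exists_le (hnn τ hτ) (P τ) (fun v φ => φ v = x)
    · rw [inr_mem_disjSum, inr_mem_disjSum] at hu
      refine (EE.sum_le hnn _ (fun τ φ => ∃ i ∈ P τ ∪ ex τ, φ i + φ (p i) = s) ?_).trans
        ((sum_le_sum ?_).trans (hSl s hu))
      · intro e _ hq
        exact (EE.sum_mem.1 hq).2
      · intro τ hτ
        exact FL.Pr_exists_le (hnn τ hτ) (P τ ∪ ex τ) (fun i φ => φ i + φ (p i) = s)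
  · -- codegrees
    intro u hu v hv huv
    rcases u with τ | x | s <;> rcases v with τ' | x' | s'
    · have : ((univ : Finset (EE T L)).filter fun e => (Sum.inl τ : ℕ ⊕ ℕ ⊕ ℕ) ∈ e.S p P ex ∧
          (Sum.inl τ' : ℕ ⊕ ℕ ⊕ ℕ) ∈ e.S p P ex) = ∅ := by
        rw [filter_eq_empty_iff]
        rintro e _ ⟨h1, h2⟩
        exact huv (by rw [EE.inl_mem.1 h1, EE.inl_mem.1 h2])
      rw [this, sum_empty]; exact hδN
    · exact cPL τ (inl_mem_disjSum.1 hu) x'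
    · exact cPS τ (inl_mem_disjSum.1 hu) s'
    · rw [hsym]; exact cPL τ' (inl_mem_disjSum.1 hv) x
    · exact cLL x x' (fun h => huv (by rw [h]))
    · exact cLS x s'
    · rw [hsym]; exact cPS τ' (inl_mem_disjSum.1 hv) s
    · rw [hsym]; exact cLS x' s
    · exact cSS s s' (fun h => huv (by rw [h]))

theorem pack_laws (K : ℕ) (U ε1 : ℝ) (hK : 1 ≤ K) (hU : 1 ≤ U) (hε : 0 < ε1) :
    ∃ δ : ℝ, 0 < δ ∧ ∃ n0 : ℕ, ∀ (n : ℕ) (p lab : ℕ → ℕ) (R X S T : Finset ℕ)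
      (P ex : ℕ → Finset ℕ) (L : ℕ → FL), n0 ≤ n → X ⊆ Icc 1 n → S ⊆ Win n →
      (∀ τ ∈ T, Geo p R (P τ) (ex τ) τ) → (∀ τ ∈ T, (P τ).card ≤ K) →
      (∀ τ ∈ T, P τ ⊆ range n) →
      (∀ τ ∈ T, ∀ τ' ∈ T, τ ≠ τ' → Disjoint (P τ) (P τ')) →
      (∀ τ ∈ T, ∀ τ' ∈ T, τ ≠ τ' → Disjoint (ex τ) (ex τ')) →
      Set.InjOn lab R → (∀ r ∈ R, ((T.filter fun τ => p τ = r).card : ℝ) ≤ δ * n) →
      (∀ τ ∈ T, PL n p R lab X S (P τ) (ex τ) U (L τ)) →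
      (∀ x ∈ X, ∑ τ ∈ T, ∑ v ∈ P τ, (L τ).Pr (fun φ => φ v = x) ≤ 1) →
      (∀ s ∈ S, ∑ τ ∈ T, ∑ i ∈ P τ ∪ ex τ, (L τ).Pr (fun φ => φ i + φ (p i) = s) ≤ 1) →
      ∃ (T' : Finset ℕ) (f : ℕ → ℕ), T' ⊆ T ∧ (∀ r ∈ R, f r = lab r) ∧
        (∀ τ ∈ T', ∀ v ∈ P τ, f v ∈ X) ∧ (∀ τ ∈ T', ∀ i ∈ P τ ∪ ex τ, f i + f (p i) ∈ S) ∧
        Set.InjOn f (T'.biUnion P) ∧
        Set.InjOn (fun i => f i + f (p i)) (T'.biUnion fun τ => P τ ∪ ex τ : Finset ℕ) ∧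
        ((∑ τ ∈ T \ T', (P τ).card : ℕ) : ℝ) ≤ ε1 * n := by
  classical
  obtain ⟨δN, hδN, hnib⟩ := nibble (2 * K + 2) (ε1 / (8 * K)) (by positivity)
  set c : ℝ := 4 * (K : ℝ) ^ 2 * U ^ 4 with hc
  have hc0 : 0 ≤ c := by positivity
  have hU0 : 0 < U := by linarith
  obtain ⟨n0, hn0⟩ := exists_nat_gt (max (2 * (c + U) / δN) (4 * c / ε1))
  refine ⟨δN / (2 * U), by positivity, max n0 1, ?_⟩
  intro n p lab R X S T P ex L hn hX hS hG hPK hPn hdP hdE hlab hδ hL hXl hSl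
  have hn1 : 1 ≤ n := le_trans (le_max_right _ _) hn
  have hnpos : (0 : ℝ) < n := by exact_mod_cast hn1
  have hn0n : (n0 : ℝ) ≤ n := by exact_mod_cast le_trans (le_max_left _ _) hn
  have e1 : 2 * (c + U) / δN < n := lt_of_lt_of_le (lt_of_le_of_lt (le_max_left _ _) hn0) hn0n
  have e2 : 4 * c / ε1 < n := lt_of_lt_of_le (lt_of_le_of_lt (le_max_right _ _) hn0) hn0n
  rw [div_lt_iff₀ hδN] at e1
  rw [div_lt_iff₀ hε] at e2
  have hTn : T.card ≤ n := by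
    have : T ⊆ range n := fun τ hτ => hPn τ hτ (hG τ hτ).tP
    simpa using card_le_card this
  have hcU : c / n + δN / (2 * U) * U + U / n ≤ δN := by
    have h1 : δN / (2 * U) * U = δN / 2 := by field_simp
    have h2 : c / n + U / n ≤ δN / 2 := by
      rw [← add_div, div_le_iff₀ hnpos]; linarith
    linarith
  have hb := fun τ (hτ : τ ∈ T) => piece_bounds hn1 hX hS hU (hPK τ hτ) hK (hG τ hτ) (hL τ hτ)
  have hI := pack_inst (K := K) (δN := δN) (c := c) hn1 hU hc0 hcU (by exact_mod_cast hTn) hG hPK hdE hlab hδ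
    (by positivity) hL hXl hSl (fun τ hτ => (hb τ hτ).1) (fun τ hτ => (hb τ hτ).2.1)
    (fun τ hτ => (hb τ hτ).2.2.1) (fun τ hτ => (hb τ hτ).2.2.2.1) (fun τ hτ => (hb τ hτ).2.2.2.2.1)
  have hK0 : (0 : ℝ) < K := by exact_mod_cast hK
  set g : EE T L → ℝ := fun e => if e.good p P ex then (1 / (K : ℝ)) * (P e.1.1).card else 0 with hg
  have hg01 : ∀ e, 0 ≤ g e ∧ g e ≤ 1 := by
    intro e
    show 0 ≤ (if e.good p P ex then (1 / (K : ℝ)) * (P e.1.1).card else 0) ∧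
      (if e.good p P ex then (1 / (K : ℝ)) * (P e.1.1).card else 0) ≤ 1
    split_ifs
    · refine ⟨by positivity, ?_⟩
      have : ((P e.1.1).card : ℝ) ≤ K := by exact_mod_cast hPK _ e.1.2
      rw [one_div, inv_mul_le_iff₀ hK0, mul_one]
      exact this
    · exact ⟨le_rfl, zero_le_one⟩
  obtain ⟨M, hM, hMg⟩ := hnib (EE T L) (ℕ ⊕ ℕ ⊕ ℕ) _ _ _ g hI hg01
  obtain ⟨T', f, h1, h2, h3, h4, h5, h6, h7⟩ := pack_extract (c := 1 / (K : ℝ)) hG hdP hL M hM g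
    (fun e he => by rw [hg]; dsimp only; rw [if_pos he]) (fun e he => by rw [hg]; dsimp only; rw [if_neg he])
  refine ⟨T', f, h1, h2, h3, h4, h5, h6, ?_⟩
  have hmass := pack_mass (p := p) (lab := lab) (R := R) (X := X) (S := S) (P := P) (ex := ex) (U := U) (n := n)
    (b := 2 * c / n) (c := 1 / (K : ℝ)) (by positivity) hL (fun τ hτ => by
      have := (hb τ hτ).2.2.2.2.2
      rw [hc]
      refine this.trans (le_of_eq ?_)
      ring)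
  have hVS : ((T.disjSum (X.disjSum S)).card : ℝ) ≤ 3 * n := by
    rw [card_disjSum, card_disjSum]
    have a1 : X.card ≤ n := by simpa using card_le_card hX
    have a2 : S.card ≤ n := by
      refine (card_le_card hS).trans ?_
      unfold Win
      rw [Nat.card_Icc]
      omega
    push_cast
    have a3 : (X.card : ℝ) ≤ n := by exact_mod_cast a1
    have a4 : (S.card : ℝ) ≤ n := by exact_mod_cast a2
    have a5 : (T.card : ℝ) ≤ n := by exact_mod_cast hTn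
    linarith
  have hPsum : ∑ τ ∈ T, ((P τ).card : ℝ) ≤ n := by
    have b1 : (T.biUnion P).card = ∑ τ ∈ T, (P τ).card := card_biUnion fun τ hτ τ' hτ' h => hdP τ hτ τ' hτ' h
    have b2 : (T.biUnion P).card ≤ n := by
      have : T.biUnion P ⊆ range n := biUnion_subset.2 hPn
      simpa using card_le_card this
    rw [b1] at b2
    exact_mod_cast b2
  have hsplit : ((∑ τ ∈ T \ T', (P τ).card : ℕ) : ℝ) + ∑ τ ∈ T', ((P τ).card : ℝ) = ∑ τ ∈ T, ((P τ).card : ℝ) := by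
    push_cast
    exact sum_sdiff h1
  have hε8 : ε1 / (8 * K) * ((T.disjSum (X.disjSum S)).card : ℝ) ≤ (1 / K) * (3 / 8 * ε1 * n) := by
    calc ε1 / (8 * K) * ((T.disjSum (X.disjSum S)).card : ℝ) ≤ ε1 / (8 * K) * (3 * n) :=
          mul_le_mul_of_nonneg_left hVS (by positivity)
      _ = (1 / K) * (3 / 8 * ε1 * n) := by field_simp
  have hm2 : (1 / (K : ℝ)) * (∑ τ ∈ T, ((P τ).card : ℝ) - 2 * c) ≤
      1 / (K : ℝ) * ∑ τ ∈ T, ((P τ).card : ℝ) * (1 - 2 * c / n) := by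
    refine mul_le_mul_of_nonneg_left ?_ (by positivity)
    rw [← sum_mul]
    have : (∑ τ ∈ T, ((P τ).card : ℝ)) * (2 * c / n) ≤ n * (2 * c / n) :=
      mul_le_mul_of_nonneg_right hPsum (by positivity)
    have h' : (n : ℝ) * (2 * c / n) = 2 * c := by field_simp
    linarith
  have hfin : (1 / (K : ℝ)) * (∑ τ ∈ T, ((P τ).card : ℝ) - 2 * c) - (1 / K) * (3 / 8 * ε1 * n) ≤
      (1 / (K : ℝ)) * ∑ τ ∈ T', ((P τ).card : ℝ) := by
    have hMg' : ∑ e : EE T L, e.w p P ex * (if e.good p P ex then (1 / (K : ℝ)) * (P e.1.1).card else 0) -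
        ε1 / (8 * K) * ((T.disjSum (X.disjSum S)).card : ℝ) ≤ ∑ e ∈ M, g e := hMg
    linarith
  rw [← mul_sub, mul_le_mul_iff_of_pos_left (by positivity)] at hfin
  have : 2 * c ≤ 5 / 8 * ε1 * n := by nlinarith
  linarith

end Pool.Agent.SEM
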