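import Pool.Agent.Helper73.SEM.LW4
import Pool.Agent.Helper73.SEM.LW6

/-!
# SEM-PK: the packing theorem (almost all pieces are embedded)

Proof in words.  Combine `laws` and `pack_laws`.  `P τ = {v < n : v ∉ R, top v = τ}`, `ex τ = {r ∈ R : 0 < r, p r ∉ R, top (p r) = τ}`, `u = uc n p`,
`F τ = {v ∈ P τ : Pend n p v, uc n p v ∉ R}`, `Q τ = P τ \ (F τ ∪ u '' F τ)`.  From `Dec`: `top` is constant along the tree
outside `R` (`top_step`), `Geo p R (P τ) (ex τ) τ` for `τ ∈ T` (`top_root`; `p v ≠ ...`: if `v ∈ P τ` and `p v ∈ R` then `v = top v = τ`).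
If `v ∈ Q τ` then `p v ∈ R` or `p v ∈ Q τ`: a child of a flexible `v'` is `uc n p v' ∉ Q τ`, and `uc n p v'` has no child.  The exits `r` have
`p r ∈ Q τ` for the same reason (`r` would be the only child of `v'`, but this child is not in `R`).  `MV n R top T = ⋃_{τ ∈ T} P τ`,
`EM n p R top T = ⋃_{τ ∈ T} (P τ ∪ ex τ)` (`0 ∈ R`), so the cardinality hypotheses translate.  `#{τ ∈ T : p τ = r} ≤ |chl n p r| ≤ δ n`.
-/

set_option autoImplicit false

namespace Pool.Agent.SEM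

open Finset

section h85aux

variable {n K : ℕ} {p top : ℕ → ℕ} {R : Finset ℕ}

theorem h85_mem_pc {v τ : ℕ} : v ∈ pc n R top τ ↔ v < n ∧ v ∉ R ∧ top v = τ := by
  rw [pc, mem_filter, mem_range]

theorem h85_mem_exs {r τ : ℕ} :
    r ∈ exs p R top τ ↔ r ∈ R ∧ 0 < r ∧ p r ∉ R ∧ top (p r) = τ := by
  rw [exs, mem_filter]

theorem h85_pos (hD : Dec n p K R top) {v : ℕ} (hv : v ∉ R) : 0 < v :=
  Nat.pos_of_ne_zero fun h => hv (h ▸ hD.zero)

theorem h85_ltR (hD : Dec n p K R top) {r : ℕ} (hr : r ∈ R) : r < n := mem_range.1 (hD.sub hr)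

theorem h85_par_pc (hp : Par n p) (hD : Dec n p K R top) {v τ : ℕ} (hv : v ∈ pc n R top τ)
    (h : p v ∉ R) : p v ∈ pc n R top τ := by
  obtain ⟨h1, h2, h3⟩ := h85_mem_pc.1 hv
  have h4 := hp v (h85_pos hD h2) h1
  exact h85_mem_pc.2 ⟨h4.trans h1, h, by rw [← hD.top_step v h1 h2 h, h3]⟩

theorem h85_par_ex (hp : Par n p) (hD : Dec n p K R top) {r τ : ℕ} (hr : r ∈ exs p R top τ) :
    p r ∈ pc n R top τ := by
  obtain ⟨h1, h2, h3, h4⟩ := h85_mem_exs.1 hr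
  have h5 := h85_ltR hD h1
  exact h85_mem_pc.2 ⟨(hp r h2 h5).trans h5, h3, h4⟩

theorem h85_uc {v : ℕ} (hv : Pend n p v) :
    uc n p v < n ∧ 0 < uc n p v ∧ p (uc n p v) = v ∧ chl n p (uc n p v) = ∅ ∧
      ∀ i, 0 < i → i < n → p i = v → i = uc n p v := by
  obtain ⟨-, -, u, hu, hu'⟩ := hv
  have h1 : uc n p v = u := by
    rw [uc, hu, sup_singleton]
    rfl
  have h2 : u ∈ chl n p v := by
    rw [hu]
    exact mem_singleton_self u
  rw [h1]
  obtain ⟨h3, h4, h5⟩ := mem_filter.1 h2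
  refine ⟨mem_range.1 h3, h4, h5, hu', fun i hi0 hin hi => ?_⟩
  have h6 : i ∈ chl n p v := mem_filter.2 ⟨mem_range.2 hin, hi0, hi⟩
  rw [hu] at h6
  exact mem_singleton.1 h6

open Classical in
/-- the flexible vertices of a piece -/
noncomputable def h85F (n : ℕ) (p : ℕ → ℕ) (R : Finset ℕ) (top : ℕ → ℕ) (τ : ℕ) : Finset ℕ :=
  (pc n R top τ).filter fun v => Pend n p v ∧ uc n p v ∉ R

/-- the other vertices of a piece -/
noncomputable def h85Q (n : ℕ) (p : ℕ → ℕ) (R : Finset ℕ) (top : ℕ → ℕ) (τ : ℕ) : Finset ℕ :=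
  pc n R top τ \ (h85F n p R top τ ∪ (h85F n p R top τ).image (uc n p))

open Classical in
theorem h85_mem_F {v τ : ℕ} :
    v ∈ h85F n p R top τ ↔ v ∈ pc n R top τ ∧ Pend n p v ∧ uc n p v ∉ R := by
  rw [h85F, mem_filter]

theorem h85_mem_Q {v τ : ℕ} : v ∈ h85Q n p R top τ ↔ v ∈ pc n R top τ ∧
    v ∉ h85F n p R top τ ∧ v ∉ (h85F n p R top τ).image (uc n p) := by
  rw [h85Q, mem_sdiff, mem_union, not_or]

theorem h85_F_not_im {v τ τ' : ℕ} (hv : v ∈ h85F n p R top τ) :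
    v ∉ (h85F n p R top τ').image (uc n p) := by
  intro h
  obtain ⟨v', hv', rfl⟩ := mem_image.1 h
  obtain ⟨-, -, -, h4, -⟩ := h85_uc (h85_mem_F.1 hv').2.1
  obtain ⟨h5, h6, h7, -, -⟩ := h85_uc (h85_mem_F.1 hv).2.1
  have h8 : uc n p (uc n p v') ∈ chl n p (uc n p v') := mem_filter.2 ⟨mem_range.2 h5, h6, h7⟩
  rw [h4] at h8
  exact absurd h8 (notMem_empty _)

theorem h85_im_pc (hD : Dec n p K R top) {v τ : ℕ} (hv : v ∈ h85F n p R top τ) :
    uc n p v ∈ pc n R top τ := by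
  obtain ⟨h1, h2, h3⟩ := h85_mem_F.1 hv
  obtain ⟨h4, h5, h6, -, -⟩ := h85_uc h2
  obtain ⟨h7, h8, h9⟩ := h85_mem_pc.1 h1
  refine h85_mem_pc.2 ⟨h4, h3, ?_⟩
  rw [hD.top_step _ h4 h3 (by rw [h6]; exact h8), h6, h9]

theorem h85_key {i τ : ℕ} (hi0 : 0 < i) (hin : i < n) (hi : p i ∈ pc n R top τ)
    (him : i ∉ (h85F n p R top τ).image (uc n p)) : p i ∈ h85Q n p R top τ := by
  refine h85_mem_Q.2 ⟨hi, fun h => ?_, fun h => ?_⟩
  · obtain ⟨-, -, -, -, h5⟩ := h85_uc (h85_mem_F.1 h).2.1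
    exact him (mem_image.2 ⟨p i, h, (h5 i hi0 hin rfl).symm⟩)
  · obtain ⟨v', hv', h1⟩ := mem_image.1 h
    obtain ⟨-, -, -, h4, -⟩ := h85_uc (h85_mem_F.1 hv').2.1
    have h8 : i ∈ chl n p (uc n p v') := mem_filter.2 ⟨mem_range.2 hin, hi0, h1.symm⟩
    rw [h4] at h8
    exact absurd h8 (notMem_empty _)

theorem h85_union (hD : Dec n p K R top) (τ : ℕ) :
    h85Q n p R top τ ∪ h85F n p R top τ ∪ (h85F n p R top τ).image (uc n p) =
      pc n R top τ := by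
  ext v
  rw [mem_union, mem_union, h85_mem_Q]
  constructor
  · rintro ((h | h) | h)
    · exact h.1
    · exact (h85_mem_F.1 h).1
    · obtain ⟨w, hw, rfl⟩ := mem_image.1 h
      exact h85_im_pc hD hw
  · intro h
    by_cases h1 : v ∈ h85F n p R top τ
    · exact Or.inl (Or.inr h1)
    · by_cases h2 : v ∈ (h85F n p R top τ).image (uc n p)
      · exact Or.inr h2
      · exact Or.inl (Or.inl ⟨h, h1, h2⟩)

theorem h85_inj (τ : ℕ) : Set.InjOn (uc n p) (h85F n p R top τ) := by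
  intro a ha b hb hab
  obtain ⟨-, -, h1, -, -⟩ := h85_uc (h85_mem_F.1 ha).2.1
  obtain ⟨-, -, h2, -, -⟩ := h85_uc (h85_mem_F.1 hb).2.1
  rw [← h1, ← h2, hab]

theorem h85_card (hD : Dec n p K R top) (τ : ℕ) :
    (h85Q n p R top τ).card + 2 * (h85F n p R top τ).card = (pc n R top τ).card := by
  rw [← h85_union hD τ, card_union_of_disjoint, card_union_of_disjoint, card_image_of_injOn
    (h85_inj τ)]
  · ring
  · rw [disjoint_left]
    intro v hv
    exact (h85_mem_Q.1 hv).2.1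
  · rw [disjoint_left]
    intro v hv
    rcases mem_union.1 hv with hv | hv
    · exact (h85_mem_Q.1 hv).2.2
    · exact h85_F_not_im hv

theorem h85_MV (T : Finset ℕ) : MV n R top T = T.biUnion (pc n R top) := by
  ext v
  rw [MV, mem_filter, mem_biUnion, mem_range]
  constructor
  · rintro ⟨h1, h2, h3⟩
    exact ⟨top v, h3, h85_mem_pc.2 ⟨h1, h2, rfl⟩⟩
  · rintro ⟨τ, hτ, h⟩
    obtain ⟨h1, h2, h3⟩ := h85_mem_pc.1 h
    exact ⟨h1, h2, h3 ▸ hτ⟩

theorem h85_EM (hD : Dec n p K R top) (T : Finset ℕ) :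
    EM n p R top T = T.biUnion fun τ => pc n R top τ ∪ exs p R top τ := by
  ext i
  rw [EM, mem_filter, mem_biUnion, mem_range]
  constructor
  · rintro ⟨h1, h2, h3 | h3⟩
    · exact ⟨top i, h3.2, mem_union_left _ (h85_mem_pc.2 ⟨h1, h3.1, rfl⟩)⟩
    · exact ⟨top (p i), h3.2.2, mem_union_right _ (h85_mem_exs.2 ⟨h3.1, h2, h3.2.1, rfl⟩)⟩
  · rintro ⟨τ, hτ, h⟩
    rcases mem_union.1 h with h | h
    · obtain ⟨h1, h2, h3⟩ := h85_mem_pc.1 h
      exact ⟨h1, h85_pos hD h2, Or.inl ⟨h2, h3 ▸ hτ⟩⟩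
    · obtain ⟨h1, h2, h3, h4⟩ := h85_mem_exs.1 h
      exact ⟨h85_ltR hD h1, h2, Or.inr ⟨h1, h3, h4 ▸ hτ⟩⟩

theorem h85_pc_disj {τ τ' : ℕ} (h : τ ≠ τ') : Disjoint (pc n R top τ) (pc n R top τ') := by
  rw [disjoint_left]
  intro v hv hv'
  exact h ((h85_mem_pc.1 hv).2.2.symm.trans (h85_mem_pc.1 hv').2.2)

theorem h85_ex_disj {τ τ' : ℕ} (h : τ ≠ τ') : Disjoint (exs p R top τ) (exs p R top τ') := by
  rw [disjoint_left]
  intro v hv hv'
  exact h ((h85_mem_exs.1 hv).2.2.2.symm.trans (h85_mem_exs.1 hv').2.2.2)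

theorem h85_pc_ex_disj (τ τ' : ℕ) : Disjoint (pc n R top τ) (exs p R top τ') := by
  rw [disjoint_left]
  intro v hv hv'
  exact (h85_mem_pc.1 hv).2.1 (h85_mem_exs.1 hv').1

theorem h85_MV_card (T : Finset ℕ) :
    (MV n R top T).card = ∑ τ ∈ T, (pc n R top τ).card := by
  rw [h85_MV, card_biUnion]
  intro τ _ τ' _ h
  exact h85_pc_disj h

theorem h85_EM_card (hD : Dec n p K R top) (T : Finset ℕ) :
    (EM n p R top T).card = ∑ τ ∈ T, ((pc n R top τ).card + (exs p R top τ).card) := by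
  rw [h85_EM hD, card_biUnion]
  · refine sum_congr rfl fun τ _ => ?_
    rw [card_union_of_disjoint (h85_pc_ex_disj τ τ)]
  · intro τ _ τ' _ h
    change Disjoint (pc n R top τ ∪ exs p R top τ) (pc n R top τ' ∪ exs p R top τ')
    rw [disjoint_union_left, disjoint_union_right, disjoint_union_right]
    exact ⟨⟨h85_pc_disj h, h85_pc_ex_disj _ _⟩, (h85_pc_ex_disj _ _).symm, h85_ex_disj h⟩

theorem h85_ex1 (hD : Dec n p K R top) (τ : ℕ) : (exs p R top τ).card ≤ 1 := by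
  rw [card_le_one]
  intro a ha b hb
  obtain ⟨h1, h2, h3, h4⟩ := h85_mem_exs.1 ha
  obtain ⟨k1, k2, k3, k4⟩ := h85_mem_exs.1 hb
  exact hD.exit_unique a h1 b k1 h2 k2 h3 k3 (h4.trans k4.symm)

theorem h85_geo (hp : Par n p) (hD : Dec n p K R top) {τ : ℕ} (hτn : τ < n) (hτ : τ ∉ R)
    (hτR : p τ ∈ R) : Geo p R (pc n R top τ) (exs p R top τ) τ where
  tP := h85_mem_pc.2 ⟨hτn, hτ, hD.top_root τ hτn hτ hτR⟩
  tR := hτR
  st v hv hne := by
    refine h85_par_pc hp hD hv fun h => hne ?_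
    obtain ⟨h1, h2, h3⟩ := h85_mem_pc.1 hv
    rw [← hD.top_root v h1 h2 h, h3]
  lt v hv := by
    obtain ⟨h1, h2, h3⟩ := h85_mem_pc.1 hv
    exact hp v (h85_pos hD h2) h1
  PR := by
    rw [disjoint_left]
    intro v hv
    exact (h85_mem_pc.1 hv).2.1
  exR r hr := (h85_mem_exs.1 hr).1
  ex1 := h85_ex1 hD τ
  exP r hr := by
    refine ⟨h85_par_ex hp hD hr, fun h => ?_⟩
    obtain ⟨h1, h2, h3, h4⟩ := h85_mem_exs.1 hr
    have h5 := hD.exit_deep r h1 h2 h3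
    rw [h] at h5
    exact h5 hτR

end h85aux

open Classical in
theorem pack (e : ℝ) (he : 0 < e) (he1 : e ≤ 1) : ∃ τ0 : ℝ, 0 < τ0 ∧ ∀ (K : ℕ) (ε1 : ℝ),
    1 ≤ K → 0 < ε1 → ∃ δ : ℝ, 0 < δ ∧ ∃ n0 : ℕ, ∀ (n : ℕ) (p top lab : ℕ → ℕ) (R T X S : Finset ℕ),
    n0 ≤ n → Par n p → Dec n p K R top → (∀ v, v < n → ((chl n p v).card : ℝ) ≤ δ * n) →
    T ⊆ (range n).filter (fun τ => τ ∉ R ∧ p τ ∈ R) → Set.InjOn lab R →
    (∀ r ∈ R, lab r ∉ X) → (∀ r ∈ R, |(lab r : ℝ) - n / 2| ≤ τ0 * n) →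
    X ⊆ Icc 1 n → S ⊆ Win n → ((Icc 1 n \ X).card : ℝ) ≤ τ0 * n → ((Win n \ S).card : ℝ) ≤ τ0 * n →
    (MV n R top T).card = X.card → (EM n p R top T).card = S.card →
    e * n ≤ (((MV n R top T).filter fun v => Pend n p v ∧ uc n p v ∉ R).card : ℝ) →
    ∃ (T' : Finset ℕ) (f : ℕ → ℕ), T' ⊆ T ∧ (∀ r ∈ R, f r = lab r) ∧
      (∀ v ∈ MV n R top T', f v ∈ X) ∧ (∀ i ∈ EM n p R top T', f i + f (p i) ∈ S) ∧
      Set.InjOn f (MV n R top T') ∧
      Set.InjOn (fun i => f i + f (p i)) (EM n p R top T') ∧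
      ((MV n R top (T \ T')).card : ℝ) ≤ ε1 * n := by
  obtain ⟨τ0, U, hτ0, hU, n1, hlaws⟩ := laws e he he1
  refine ⟨τ0, hτ0, fun K ε1 hK hε1 => ?_⟩
  obtain ⟨δ, hδ, n2, hpack⟩ := pack_laws K U ε1 hK hU hε1
  refine ⟨δ, hδ, max n1 n2, fun n p top lab R T X S hn hp hD hdeg hT hinj hlX hlab hX hS hXc hSc
    hMV hEM hF => ?_⟩
  have hn1 : n1 ≤ n := (le_max_left _ _).trans hn
  have hn2 : n2 ≤ n := (le_max_right _ _).trans hn
  obtain ⟨L, hL, hLX, hLS⟩ := hlaws n p lab (uc n p) R X S T (h85Q n p R top) (exs p R top)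
    (h85F n p R top) hn1 hX hS hXc hSc hlX hlab
    (fun τ _ => by
      rw [disjoint_left]
      intro v hv
      exact (h85_mem_pc.1 (h85_mem_Q.1 hv).1).2.1)
    (fun τ _ r hr => (h85_mem_exs.1 hr).1)
    (fun τ _ => h85_ex1 hD τ)
    (fun τ _ r hr => by
      obtain ⟨h1, h2, h3, h4⟩ := h85_mem_exs.1 hr
      refine h85_key h2 (h85_ltR hD h1) (h85_par_ex hp hD hr) fun h => ?_
      obtain ⟨v, hv, rfl⟩ := mem_image.1 h
      exact (h85_mem_F.1 hv).2.2 h1)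
    (fun τ _ v hv => by
      obtain ⟨h1, h2, h3⟩ := h85_mem_Q.1 hv
      obtain ⟨h4, h5, h6⟩ := h85_mem_pc.1 h1
      refine ⟨hp v (h85_pos hD h5) h4, ?_⟩
      by_cases h7 : p v ∈ R
      · exact Or.inr h7
      · exact Or.inl (h85_key (h85_pos hD h5) h4 (h85_par_pc hp hD h1 h7) h3))
    (fun τ _ => by
      rw [disjoint_left]
      intro v hv h
      rcases mem_union.1 h with h | h
      · exact (h85_mem_Q.1 h).2.1 hv
      · exact (h85_mem_pc.1 (h85_mem_F.1 hv).1).2.1 h)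
    (fun τ _ v hv => by
      obtain ⟨h1, h2, h3⟩ := h85_mem_F.1 hv
      obtain ⟨h4, h5, h6⟩ := h85_mem_pc.1 h1
      have him : uc n p v ∈ (h85F n p R top τ).image (uc n p) := mem_image_of_mem _ hv
      refine ⟨?_, (h85_uc h2).2.2.1, ?_⟩
      · rw [mem_union, mem_union, not_or, not_or]
        exact ⟨⟨fun h => (h85_mem_Q.1 h).2.2 him, h3⟩, fun h => h85_F_not_im h him⟩
      · rw [mem_union]
        by_cases h7 : p v ∈ R
        · exact Or.inr h7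
        · exact Or.inl (h85_key (h85_pos hD h5) h4 (h85_par_pc hp hD h1 h7) (h85_F_not_im hv)))
    (fun τ _ => h85_inj τ)
    (by
      rw [← hMV, h85_MV_card]
      exact sum_congr rfl fun τ _ => h85_card hD τ)
    (by
      rw [← hEM, h85_EM_card hD]
      refine sum_congr rfl fun τ _ => ?_
      rw [← h85_card hD τ]
      ring)
    (by
      refine hF.trans (le_of_eq ?_)
      congr 1
      rw [h85_MV, filter_biUnion, card_biUnion]
      · rfl
      · intro τ _ τ' _ h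
        exact disjoint_filter_filter (h85_pc_disj h))
  have hu : ∀ τ, h85Q n p R top τ ∪ h85F n p R top τ ∪ (h85F n p R top τ).image (uc n p) =
      pc n R top τ := h85_union hD
  simp only [hu] at hL hLX hLS
  obtain ⟨T', f, h1, h2, h3, h4, h5, h6, h7⟩ := hpack n p lab R X S T (pc n R top)
    (exs p R top) L hn2 hX hS
    (fun τ hτ => by
      obtain ⟨k1, k2, k3⟩ := mem_filter.1 (hT hτ)
      exact h85_geo hp hD (mem_range.1 k1) k2 k3)
    (fun τ _ => hD.size τ)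
    (fun τ _ => filter_subset _ _)
    (fun τ _ τ' _ h => h85_pc_disj h)
    (fun τ _ τ' _ h => h85_ex_disj h)
    hinj
    (fun r hr => by
      refine le_trans ?_ (hdeg r (h85_ltR hD hr))
      have h8 : (T.filter fun τ => p τ = r).card ≤ (chl n p r).card := by
        refine card_le_card fun τ hτ => ?_
        obtain ⟨k1, k2⟩ := mem_filter.1 hτ
        obtain ⟨k3, k4, k5⟩ := mem_filter.1 (hT k1)
        exact mem_filter.2 ⟨k3, h85_pos hD k4, k2⟩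
      exact_mod_cast h8)
    hL hLX hLS
  refine ⟨T', f, h1, h2, ?_, ?_, ?_, ?_, ?_⟩
  · intro v hv
    rw [h85_MV, mem_biUnion] at hv
    obtain ⟨τ, hτ, hv⟩ := hv
    exact h3 τ hτ v hv
  · intro i hi
    rw [h85_EM hD, mem_biUnion] at hi
    obtain ⟨τ, hτ, hi⟩ := hi
    exact h4 τ hτ i hi
  · rw [h85_MV]
    exact h5
  · rw [h85_EM hD]
    exact h6
  · rw [h85_MV_card]
    exact h7

end Pool.Agent.SEM
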