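import Pool.Agent.Helper73.SEM.T2

/-!
# SEM-T3: decomposition with special pendant paths

Proof in words.  Take `R₀, top₀` from `cut`.  For a top `t` (that is `t < n`, `t ∉ R₀`, `p t ∈ R₀`) let `P_t` be its piece and
`q_t` the number of `v ∈ P_t` with `Pend n p v` (then `uc n p v ∈ P_t` too; `q_t ≤ |P_t| ≤ K`).  The tops with `(ε/2)|P_t| ≤ q_t` contain at
least `ε n - (ε/2) n` pendant `v`'s; take a minimal set `T₀` of such tops with `N ≤ ∑_{T₀} q_t` (exists as `N ≤ (ε/2) n`); then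
`∑_{T₀} q_t ≤ N + K` and `∑_{T₀} |P_t| ≤ (2/ε)(N+K)`.
`Sp = {v : Pend n p v, top₀ v ∈ T₀}` and `R = R₀ ∪ (⋃_{T₀} P_t \ {v, uc n p v : Pend n p v})`.  `top v = v`, `top (uc v) = v` for
`v ∈ Sp`, `top = top₀` on the other vertices.  Check `Dec`: the pieces are the old pieces outside `T₀` and the sets `{v, uc n p v}`,
`v ∈ Sp`: for such `v`, `p v` is in `P_t ∪ R₀`, it is not of the form `v'` or `uc n p v'` with `Pend n p v'` (the only child of such a `v'` is
childless, `v` is not childless; `uc n p v'` is childless), so `p v ∈ R`.  No vertex has its parent in `{v, uc n p v}` except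
`uc n p v`, so these pieces have no exits.  A vertex of `R \ R₀` has its parent in `P_t ∪ R₀` with `t ∈ T₀`, hence in `R` (a vertex with
parent `v'` (`Pend`) is `uc n p v' ∉ R`), so it is not an exit: exits are as before.
Proved by helper83.
-/

set_option autoImplicit false

namespace Pool.Agent.SEM

open Finset

theorem T3_greedy (q : ℕ → ℕ) (K N : ℕ) (G : Finset ℕ) (hq : ∀ t ∈ G, q t ≤ K)
    (hN : N ≤ ∑ t ∈ G, q t) :
    ∃ T₀ ⊆ G, N ≤ ∑ t ∈ T₀, q t ∧ ∑ t ∈ T₀, q t ≤ N + K := by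
  classical
  induction G using Finset.induction_on with
  | empty =>
    refine ⟨∅, subset_rfl, hN, ?_⟩
    simp
  | insert a G ha ih =>
    by_cases h : N ≤ ∑ t ∈ G, q t
    · obtain ⟨T₀, h1, h2, h3⟩ := ih (fun t ht => hq t (mem_insert_of_mem ht)) h
      exact ⟨T₀, h1.trans (subset_insert _ _), h2, h3⟩
    · refine ⟨insert a G, subset_rfl, hN, ?_⟩
      rw [Finset.sum_insert ha]
      have := hq a (mem_insert_self _ _)
      omega

theorem T3_uc (n : ℕ) (p : ℕ → ℕ) (v : ℕ) (h : Pend n p v) :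
    chl n p v = {uc n p v} ∧ chl n p (uc n p v) = ∅ ∧ 0 < uc n p v ∧ uc n p v < n ∧
      p (uc n p v) = v := by
  obtain ⟨h0, hn, u, hu, hu'⟩ := h
  have huc : uc n p v = u := by simp [uc, hu]
  rw [huc]
  have humem : u ∈ chl n p v := by rw [hu]; exact mem_singleton_self u
  simp only [chl, mem_filter, mem_range] at humem
  exact ⟨hu, hu', humem.2.1, humem.1, humem.2.2⟩

open Classical in
theorem decomp (n : ℕ) (p : ℕ → ℕ) (K N : ℕ) (ε : ℝ) (hp : Par n p) (hn : 0 < n) (hK : 2 ≤ K)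
    (hε : 0 < ε) (hε1 : ε ≤ 1)
    (hpend : ε * n ≤ (((range n).filter fun v => Pend n p v).card : ℝ))
    (hN : (N : ℝ) ≤ ε / 2 * n) :
    ∃ (R Sp : Finset ℕ) (top : ℕ → ℕ), Dec n p K R top ∧
      (R.card : ℝ) ≤ 4 * n / K + 4 + 2 / ε * (N + K) ∧
      (∀ v, Pend n p v → v ∉ R ∧ uc n p v ∉ R) ∧
      (∀ v ∈ Sp, Pend n p v ∧ p v ∈ R) ∧ N ≤ Sp.card ∧ Sp.card ≤ N + K := by
  obtain ⟨R₀, top₀, hD, hcard, hP₀⟩ := cut n p K hp hn hK
  have h0 : 0 ∈ R₀ := hD.zero
  have ht₀ : ∀ v, v < n → v ∉ R₀ → (p v ∈ R₀ → top₀ v = v) ∧ (p v ∉ R₀ → top₀ v = top₀ (p v)) :=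
    fun v hv hvR => ⟨hD.top_root v hv hvR, hD.top_step v hv hvR⟩
  have hist := T2_istop n p R₀ top₀ hp h0 ht₀
  have hpos : ∀ v, v ∉ R₀ → 0 < v := by
    intro v hv
    rcases Nat.eq_zero_or_pos v with h | h
    · subst h; exact absurd h0 hv
    · exact h
  set PV := (range n).filter fun v => Pend n p v with hPV
  set P : ℕ → Finset ℕ := fun t => (range n).filter fun v => v ∉ R₀ ∧ top₀ v = t with hPdef
  set q : ℕ → ℕ := fun t => (PV.filter fun v => top₀ v = t).card with hq
  set TT := ((range n).filter fun v => v ∉ R₀).image top₀ with hTT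
  have hqP : ∀ t, q t ≤ (P t).card := by
    intro t
    apply Finset.card_le_card
    intro v hv
    rw [mem_filter, hPV, mem_filter] at hv
    rw [hPdef]
    simp only [mem_filter]
    exact ⟨hv.1.1, (hP₀ v hv.1.2).1, hv.2⟩
  have hqK : ∀ t, q t ≤ K := fun t => (hqP t).trans (hD.size t)
  have hPVsum : PV.card = ∑ t ∈ TT, q t := by
    apply Finset.card_eq_sum_card_fiberwise
    intro v hv
    have hv' : v ∈ PV := hv
    rw [hPV, mem_filter] at hv'
    apply mem_coe.2
    rw [hTT]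
    exact mem_image_of_mem _ (mem_filter.2 ⟨hv'.1, (hP₀ v hv'.2).1⟩)
  have hPsum : ∑ t ∈ TT, (P t).card ≤ n := by
    have : ∑ t ∈ TT, (P t).card = ((range n).filter fun v => v ∉ R₀).card := by
      rw [Finset.card_eq_sum_card_fiberwise (s := (range n).filter fun v => v ∉ R₀) (t := TT)
        (f := top₀)]
      · refine Finset.sum_congr rfl fun t _ => ?_
        rw [hPdef]
        simp only [filter_filter]
      · intro v hv
        exact mem_coe.2 (mem_image_of_mem _ hv)
    rw [this]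
    exact (Finset.card_le_card (filter_subset _ _)).trans (by rw [card_range])
  set G := TT.filter fun t => ε / 2 * ((P t).card : ℝ) ≤ (q t : ℝ) with hG
  have hGsum : N ≤ ∑ t ∈ G, q t := by
    have h1 : (PV.card : ℝ) = ∑ t ∈ G, (q t : ℝ) +
        ∑ t ∈ TT.filter (fun t => ¬ (ε / 2 * ((P t).card : ℝ) ≤ (q t : ℝ))), (q t : ℝ) := by
      rw [hPVsum, hG, Finset.sum_filter_add_sum_filter_not]
      push_cast
      rfl
    have h2 : ∑ t ∈ TT.filter (fun t => ¬ (ε / 2 * ((P t).card : ℝ) ≤ (q t : ℝ))), (q t : ℝ) ≤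
        ε / 2 * n := by
      calc ∑ t ∈ TT.filter (fun t => ¬ (ε / 2 * ((P t).card : ℝ) ≤ (q t : ℝ))), (q t : ℝ)
          ≤ ∑ t ∈ TT.filter (fun t => ¬ (ε / 2 * ((P t).card : ℝ) ≤ (q t : ℝ))),
            ε / 2 * ((P t).card : ℝ) :=
            Finset.sum_le_sum fun t ht => (not_le.1 (mem_filter.1 ht).2).le
        _ ≤ ∑ t ∈ TT, ε / 2 * ((P t).card : ℝ) := by
            apply Finset.sum_le_sum_of_subset_of_nonneg (filter_subset _ _)
            intro t _ _; positivity
        _ = ε / 2 * ((∑ t ∈ TT, (P t).card : ℕ) : ℝ) := by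
            rw [← Finset.mul_sum]; push_cast; rfl
        _ ≤ ε / 2 * n := by
            gcongr
    have h3 : (N : ℝ) ≤ ∑ t ∈ G, (q t : ℝ) := by linarith
    exact_mod_cast h3
  obtain ⟨T₀, hT₀, hT1, hT2⟩ := T3_greedy q K N G (fun t _ => hqK t) hGsum
  set Sp := PV.filter fun v => top₀ v ∈ T₀ with hSp
  have hSpcard : Sp.card = ∑ t ∈ T₀, q t := by
    rw [Finset.card_eq_sum_card_fiberwise (s := Sp) (t := T₀) (f := top₀)]
    · refine Finset.sum_congr rfl fun t ht => ?_
      rw [hSp, hq]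
      simp only [filter_filter]
      congr 1
      ext v
      simp only [mem_filter]
      constructor
      · rintro ⟨h1, h2, h3⟩; exact ⟨h1, h3⟩
      · rintro ⟨h1, h3⟩; exact ⟨h1, by rw [h3]; exact ht, h3⟩
    · intro v hv
      exact (mem_filter.1 (mem_coe.1 hv)).2
  set UU := (range n).filter fun w => w ∉ R₀ ∧ top₀ w ∈ T₀ ∧ ¬ Pend n p w ∧
    ¬ ∃ v, Pend n p v ∧ uc n p v = w with hUU
  have hUcard : (UU.card : ℝ) ≤ 2 / ε * (N + K) := by
    have h1 : UU.card ≤ ∑ t ∈ T₀, (P t).card := by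
      rw [Finset.card_eq_sum_card_fiberwise (s := UU) (t := T₀) (f := top₀)]
      · apply Finset.sum_le_sum
        intro t ht
        apply Finset.card_le_card
        intro v hv
        rw [mem_filter, hUU, mem_filter] at hv
        rw [hPdef]
        simp only [mem_filter]
        exact ⟨hv.1.1, hv.1.2.1, hv.2⟩
      · intro v hv
        have hv' : v ∈ UU := hv
        rw [hUU, mem_filter] at hv'
        exact mem_coe.2 hv'.2.2.1
    have h2 : ∀ t ∈ T₀, ((P t).card : ℝ) ≤ 2 / ε * (q t : ℝ) := by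
      intro t ht
      have := (mem_filter.1 (hT₀ ht)).2
      rw [div_mul_eq_mul_div, le_div_iff₀ hε]
      linarith
    calc (UU.card : ℝ) ≤ ((∑ t ∈ T₀, (P t).card : ℕ) : ℝ) := by exact_mod_cast h1
      _ = ∑ t ∈ T₀, ((P t).card : ℝ) := by push_cast; rfl
      _ ≤ ∑ t ∈ T₀, 2 / ε * (q t : ℝ) := Finset.sum_le_sum h2
      _ = 2 / ε * ((∑ t ∈ T₀, q t : ℕ) : ℝ) := by rw [← Finset.mul_sum]; push_cast; rfl
      _ ≤ 2 / ε * ((N + K : ℕ) : ℝ) := by
          have : ((∑ t ∈ T₀, q t : ℕ) : ℝ) ≤ ((N + K : ℕ) : ℝ) := by exact_mod_cast hT2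
          gcongr
      _ = _ := by push_cast; rfl
  set R := R₀ ∪ UU with hR
  have hRR : R₀ ⊆ R := subset_union_left
  have hnR : ∀ v, v ∉ R → v ∉ R₀ ∧ v ∉ UU := by
    intro v hv
    rw [hR, mem_union, not_or] at hv
    exact hv
  -- a vertex of a special piece outside of R
  have hspec : ∀ v, v < n → v ∉ R → top₀ v ∈ T₀ →
      v ∈ Sp ∨ ∃ v' ∈ Sp, uc n p v' = v := by
    intro v hv hvR ht
    obtain ⟨h1, h2⟩ := hnR v hvR
    by_cases hPd : Pend n p v
    · left
      rw [hSp, hPV, mem_filter, mem_filter]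
      exact ⟨⟨mem_range.2 hv, hPd⟩, ht⟩
    · by_cases hex : ∃ v', Pend n p v' ∧ uc n p v' = v
      · obtain ⟨v', hv', hvv⟩ := hex
        right
        refine ⟨v', ?_, hvv⟩
        obtain ⟨k1, k2, k3, k4, k5⟩ := T3_uc n p v' hv'
        rw [hvv] at k5
        rw [hSp, hPV, mem_filter, mem_filter]
        refine ⟨⟨mem_range.2 hv'.2.1, hv'⟩, ?_⟩
        have h3 : p v ∉ R₀ := by rw [k5]; exact (hP₀ v' hv').1
        rw [(ht₀ v hv h1).2 h3, k5] at ht
        exact ht
      · exfalso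
        apply h2
        rw [hUU, mem_filter, mem_range]
        exact ⟨hv, h1, ht, hPd, hex⟩
  have hSpP : ∀ v ∈ Sp, Pend n p v ∧ top₀ v ∈ T₀ := by
    intro v hv
    rw [hSp, hPV, mem_filter, mem_filter] at hv
    exact ⟨hv.1.2, hv.2⟩
  have huctop : ∀ v ∈ Sp, top₀ (uc n p v) ∈ T₀ := by
    intro v hv
    obtain ⟨h1, h2⟩ := hSpP v hv
    obtain ⟨k1, k2, k3, k4, k5⟩ := T3_uc n p v h1
    have h3 : p (uc n p v) ∉ R₀ := by rw [k5]; exact (hP₀ v h1).1
    rw [(ht₀ _ k4 (hP₀ v h1).2).2 h3, k5]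
    exact h2
  have hPdR : ∀ v, Pend n p v → v ∉ R ∧ uc n p v ∉ R := by
    intro v hv
    constructor
    · rw [hR, mem_union, not_or]
      refine ⟨(hP₀ v hv).1, ?_⟩
      intro h
      exact (mem_filter.1 h).2.2.2.1 hv
    · rw [hR, mem_union, not_or]
      refine ⟨(hP₀ v hv).2, ?_⟩
      intro h
      exact (mem_filter.1 h).2.2.2.2 ⟨v, hv, rfl⟩
  -- children of pendant vertices
  have hchild : ∀ v, 0 < v → v < n → Pend n p (p v) → v = uc n p (p v) := by
    intro v hv0 hvn h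
    obtain ⟨k1, k2, k3, k4, k5⟩ := T3_uc n p (p v) h
    have : v ∈ chl n p (p v) := by
      simp only [chl, mem_filter, mem_range]; exact ⟨hvn, hv0, trivial⟩
    rw [k1, mem_singleton] at this
    exact this
  have hnochild : ∀ v, 0 < v → v < n → ∀ v', Pend n p v' → uc n p v' ≠ p v := by
    intro v hv0 hvn v' h hc
    obtain ⟨k1, k2, k3, k4, k5⟩ := T3_uc n p v' h
    have : v ∈ chl n p (uc n p v') := by
      simp only [chl, mem_filter, mem_range]; exact ⟨hvn, hv0, hc.symm⟩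
    rw [k2] at this
    simp at this
  have hSppar : ∀ v ∈ Sp, p v ∈ R := by
    intro v hv
    obtain ⟨h1, h2⟩ := hSpP v hv
    have hv0 := h1.1
    have hvn := h1.2.1
    have hpv := hp v hv0 hvn
    by_contra hc
    have hc₀ := (hnR _ hc).1
    have h3 : top₀ (p v) ∈ T₀ := by
      rw [← (ht₀ v hvn (hP₀ v h1).1).2 hc₀]; exact h2
    rcases hspec (p v) (by omega) hc h3 with h4 | ⟨v', hv', h4⟩
    · have h5 := (hSpP _ h4).1
      have h6 := hchild v hv0 hvn h5
      obtain ⟨k1, k2, k3, k4, k5⟩ := T3_uc n p (p v) h5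
      obtain ⟨l1, l2, l3, l4, l5⟩ := T3_uc n p v h1
      rw [← h6] at k2
      rw [k2] at l1
      simp at l1
    · exact hnochild v hv0 hvn v' (hSpP _ hv').1 h4
  -- the new top function
  set top : ℕ → ℕ := fun v => if v ∈ Sp then v else if (∃ v' ∈ Sp, uc n p v' = v) then p v
    else top₀ v with htop
  have htopSp : ∀ v ∈ Sp, top v = v := by
    intro v hv; rw [htop]; simp only [if_pos hv]
  have hucnotSp : ∀ v ∈ Sp, uc n p v ∉ Sp := by
    intro v hv hu
    obtain ⟨k1, k2, k3, k4, k5⟩ := T3_uc n p v (hSpP v hv).1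
    obtain ⟨l1, l2, l3, l4, l5⟩ := T3_uc n p _ (hSpP _ hu).1
    rw [k2] at l1
    simp at l1
  have htopuc : ∀ v ∈ Sp, top (uc n p v) = v := by
    intro v hv
    rw [htop]
    simp only [if_neg (hucnotSp v hv)]
    rw [if_pos ⟨v, hv, rfl⟩]
    exact (T3_uc n p v (hSpP v hv).1).2.2.2.2
  have htopelse : ∀ v, v ∉ Sp → (¬ ∃ v' ∈ Sp, uc n p v' = v) → top v = top₀ v := by
    intro v h1 h2
    rw [htop]; simp only [if_neg h1, if_neg h2]
  have htopnot : ∀ v, top₀ v ∉ T₀ → top v = top₀ v := by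
    intro v hv
    apply htopelse
    · intro h; exact hv (hSpP v h).2
    · rintro ⟨v', h1, h2⟩
      apply hv
      rw [← h2]
      exact huctop v' h1
  -- exits
  have hexit : ∀ r ∈ R, 0 < r → p r ∉ R → r ∈ R₀ ∧ top₀ (p r) ∉ T₀ := by
    intro r hr hr0 hpr
    have hRn : R ⊆ range n := by rw [hR]; exact union_subset hD.sub (filter_subset _ _)
    have hrn : r < n := mem_range.1 (hRn hr)
    have hprn : p r < n := by have := hp r hr0 hrn; omega
    have hpr₀ := (hnR _ hpr).1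
    have key : top₀ (p r) ∈ T₀ → r = uc n p (p r) ∧ Pend n p (p r) := by
      intro h
      rcases hspec (p r) hprn hpr h with h4 | ⟨v', hv', h4⟩
      · have h5 := (hSpP _ h4).1
        exact ⟨hchild r hr0 hrn h5, h5⟩
      · exact absurd h4 (hnochild r hr0 hrn v' (hSpP _ hv').1)
    constructor
    · rw [hR, mem_union] at hr
      rcases hr with hr | hr
      · exact hr
      · exfalso
        rw [hUU, mem_filter] at hr
        obtain ⟨_, g1, g2, g3, g4⟩ := hr
        rw [(ht₀ r hrn g1).2 hpr₀] at g2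
        obtain ⟨e1, e2⟩ := key g2
        exact g4 ⟨p r, e2, e1.symm⟩
    · intro h
      obtain ⟨e1, e2⟩ := key h
      have := (hPdR _ e2).2
      rw [← e1] at this
      exact this hr
  refine ⟨R, Sp, top, ⟨?_, hRR h0, ?_, ?_, ?_, ?_, ?_⟩, ?_, hPdR, ?_, ?_, ?_⟩
  · rw [hR]; exact union_subset hD.sub (filter_subset _ _)
  · -- top_root
    intro v hv hvR hpv
    have hv₀ := (hnR _ hvR).1
    have hv0 := hpos v hv₀
    by_cases h1 : v ∈ Sp
    · exact htopSp v h1
    · by_cases h2 : ∃ v' ∈ Sp, uc n p v' = v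
      · exfalso
        obtain ⟨v', hv', h3⟩ := h2
        have h4 := (T3_uc n p v' (hSpP v' hv').1).2.2.2.2
        rw [h3] at h4
        rw [h4] at hpv
        exact (hPdR v' (hSpP v' hv').1).1 hpv
      · rw [htopelse v h1 h2]
        rw [hR, mem_union] at hpv
        by_cases hpv₀ : p v ∈ R₀
        · exact (ht₀ v hv hv₀).1 hpv₀
        · exfalso
          rcases hpv with hpv | hpv
          · exact hpv₀ hpv
          · rw [hUU, mem_filter] at hpv
            have h3 : top₀ v ∈ T₀ := by rw [(ht₀ v hv hv₀).2 hpv₀]; exact hpv.2.2.1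
            rcases hspec v hv hvR h3 with h4 | h4
            · exact h1 h4
            · exact h2 h4
  · -- top_step
    intro v hv hvR hpvR
    have hv₀ := (hnR _ hvR).1
    have hv0 := hpos v hv₀
    by_cases h1 : v ∈ Sp
    · exact absurd (hSppar v h1) hpvR
    · by_cases h2 : ∃ v' ∈ Sp, uc n p v' = v
      · obtain ⟨v', hv', h3⟩ := h2
        have h4 := (T3_uc n p v' (hSpP v' hv').1).2.2.2.2
        rw [h3] at h4
        rw [h4, htopSp v' hv', ← h3]
        exact htopuc v' hv'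
      · rw [htopelse v h1 h2, (ht₀ v hv hv₀).2 (hnR _ hpvR).1]
        symm
        apply htopelse
        · intro h3
          have h5 := (hSpP _ h3).1
          exact h2 ⟨p v, h3, (hchild v hv0 hv h5).symm⟩
        · rintro ⟨v', hv', h3⟩
          exact hnochild v hv0 hv v' (hSpP v' hv').1 h3
  · -- size
    intro t
    by_cases hex : ∃ v₀, v₀ < n ∧ v₀ ∉ R ∧ top v₀ = t ∧ top₀ v₀ ∉ T₀
    · obtain ⟨v₀, g1, g2, g3, g4⟩ := hex
      have g5 : top₀ v₀ = t := by rw [← htopnot v₀ g4]; exact g3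
      obtain ⟨_, _, _, k4⟩ := hist v₀ g1 (hnR _ g2).1
      refine le_trans (Finset.card_le_card ?_) (hD.size t)
      intro v hv
      rw [mem_filter] at hv ⊢
      obtain ⟨hvn, hvR, hvt⟩ := hv
      refine ⟨hvn, (hnR _ hvR).1, ?_⟩
      by_cases h1 : top₀ v ∈ T₀
      · exfalso
        have h2 : t ∈ Sp := by
          rcases hspec v (mem_range.1 hvn) hvR h1 with h4 | ⟨v', hv', h4⟩
          · rw [htopSp v h4] at hvt; rw [← hvt]; exact h4
          · rw [← h4, htopuc v' hv'] at hvt; rw [← hvt]; exact hv'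
        have h3 := (hSpP t h2).2
        rw [← g5, k4] at h3
        exact g4 h3
      · rw [← htopnot v h1]; exact hvt
    · push Not at hex
      refine le_trans (Finset.card_le_card (t := {t, uc n p t}) ?_) (Finset.card_le_two.trans hK)
      intro v hv
      rw [mem_filter, mem_range] at hv
      obtain ⟨hvn, hvR, hvt⟩ := hv
      have h1 := hex v hvn hvR hvt
      rw [mem_insert, mem_singleton]
      rcases hspec v hvn hvR h1 with h4 | ⟨v', hv', h4⟩
      · left; rw [htopSp v h4] at hvt; exact hvt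
      · right; rw [← h4, htopuc v' hv'] at hvt; rw [← hvt]; exact h4.symm
  · -- exit_unique
    intro r hr r' hr' hr0 hr'0 hpr hpr' htt
    obtain ⟨a1, a2⟩ := hexit r hr hr0 hpr
    obtain ⟨b1, b2⟩ := hexit r' hr' hr'0 hpr'
    rw [htopnot _ a2, htopnot _ b2] at htt
    exact hD.exit_unique r a1 r' b1 hr0 hr'0 (hnR _ hpr).1 (hnR _ hpr').1 htt
  · -- exit_deep
    intro r hr hr0 hpr hpp
    obtain ⟨a1, a2⟩ := hexit r hr hr0 hpr
    have hrn : r < n := mem_range.1 (hD.sub a1)
    have hprn : p r < n := by have := hp r hr0 hrn; omega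
    have hpr₀ := (hnR _ hpr).1
    have h1 := hD.exit_deep r a1 hr0 hpr₀
    rw [hR, mem_union] at hpp
    rcases hpp with hpp | hpp
    · exact h1 hpp
    · rw [hUU, mem_filter] at hpp
      apply a2
      rw [(ht₀ (p r) hprn hpr₀).2 h1]
      exact hpp.2.2.1
  · -- cardinality of R
    have h1 : (R.card : ℝ) ≤ (R₀.card : ℝ) + (UU.card : ℝ) := by
      exact_mod_cast Finset.card_union_le R₀ UU
    have hKpos : (0 : ℝ) < K := by
      have : 0 < K := by omega
      exact_mod_cast this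
    have h2 : (R₀.card : ℝ) ≤ 4 * n / K + 4 := by
      have h3 : (R₀.card : ℝ) * K ≤ 4 * n + 4 * K := by exact_mod_cast hcard
      have h4 : (4 * (n : ℝ) / K + 4) = (4 * n + 4 * K) / K := by
        field_simp
      rw [h4, le_div_iff₀ hKpos]
      exact h3
    linarith
  · intro v hv
    exact ⟨(hSpP v hv).1, hSppar v hv⟩
  · rw [hSpcard]; exact hT1
  · rw [hSpcard]; exact hT2

end Pool.Agent.SEM
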