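import Pool.Agent.Helper73.SEM.T1

/-!
# SEM-T4: from graphs to parent functions and back

Proof in words.  `tree_parent` with any root `r` (`n ≥ 4`, so `Fin n` is nonempty) gives `e : Fin n ≃ Fin n` (after `Fintype.card_fin`) and `p`.
The neighbours of `v` are its children (under `e`) and its parent; so `#children ≤ degree ≤ maxDegree`.
Let `u` be a leaf whose neighbour `v` has degree 2, `u ≠ r`, `v ≠ r`: the parent of `u` is `v`; the two neighbours of `v` are `u` and the parent of
`v` (which is not `u`, as `u` is a child of `v`), so `v` has exactly one child `u`, and `u` has no child: `Pend n p (e v)`.  The map `u ↦ v`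
is injective on these `u` (`u` is the only child).  At most two leaves are lost: `u = r`, or `v = r` (then `v = r` has two neighbours; at most 2).
Conclusion: `f i = F (e i)`, `k = n/2 + 2 + 2n - 1`, `g {u,v} = k - f u - f v ∈ [n+1, 2n-1]` (`n/2 + 2 ≤ f u + f v ≤ n/2 + n`); `g` is injective since an
edge is `{i, parent i}` for a unique `i ≠ root` (under `e`) and `i ↦ F i + F (p i)` is injective on `[1,n)`.
-/

set_option autoImplicit false

namespace Pool.Agent.SEM

open Finset

/-- The form of `tree_parent` used below: numbers of the vertices. -/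
private theorem h15_num {n : ℕ} (hn : 4 ≤ n) (G : SimpleGraph (Fin n)) (hG : G.IsTree) :
    ∃ (r : Fin n) (E : Fin n → ℕ) (p : ℕ → ℕ), Par n p ∧ E r = 0 ∧ (∀ v, E v < n) ∧
      Function.Injective E ∧ (∀ i, i < n → ∃ v, E v = i) ∧
      ∀ u v, G.Adj u v ↔ (0 < E v ∧ p (E v) = E u) ∨ (0 < E u ∧ p (E u) = E v) := by
  have hr : 0 < n := by omega
  obtain ⟨e, p, h1, h2, h3⟩ := tree_parent G hG (⟨0, hr⟩ : Fin n)
  rw [Fintype.card_fin] at h1
  refine ⟨⟨0, hr⟩, fun v => (e v : ℕ), p, h1, h2, fun v => ?_, fun u v h => ?_, fun i hi => ?_,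
    fun u v => h3 u v⟩
  · exact (e v).isLt.trans_le (Fintype.card_fin n).le
  · exact e.injective (Fin.ext h)
  · have hi' : i < Fintype.card (Fin n) := by rwa [Fintype.card_fin]
    refine ⟨e.symm ⟨i, hi'⟩, ?_⟩
    simp

open Classical in
private theorem h15_children {n : ℕ} (G : SimpleGraph (Fin n)) {E : Fin n → ℕ} {p : ℕ → ℕ}
    (hsurj : ∀ i, i < n → ∃ v, E v = i)
    (hadj : ∀ u v, G.Adj u v ↔ (0 < E v ∧ p (E v) = E u) ∨ (0 < E u ∧ p (E u) = E v))
    (v : ℕ) (hv : v < n) : (chl n p v).card ≤ G.maxDegree := by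
  obtain ⟨w, rfl⟩ := hsurj v hv
  refine le_trans ?_ (G.degree_le_maxDegree w)
  have hsub : chl n p (E w) ⊆ (G.neighborFinset w).image E := by
    intro j hj
    unfold chl at hj
    rw [mem_filter, mem_range] at hj
    obtain ⟨hjn, hj0, hjp⟩ := hj
    obtain ⟨u, rfl⟩ := hsurj j hjn
    rw [mem_image]
    refine ⟨u, ?_, rfl⟩
    rw [SimpleGraph.mem_neighborFinset]
    exact (hadj w u).2 (Or.inl ⟨hj0, hjp⟩)
  exact (card_le_card hsub).trans card_image_le

open Classical in
private theorem h15_leaf {n : ℕ} (G : SimpleGraph (Fin n)) {u a b : Fin n}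
    (hu : G.degree u = 1) (ha : G.Adj u a) (hb : G.Adj u b) : a = b := by
  rw [← SimpleGraph.card_neighborFinset_eq_degree, card_eq_one] at hu
  obtain ⟨c, hc⟩ := hu
  have h1 : a ∈ G.neighborFinset u := (SimpleGraph.mem_neighborFinset _ _ _).2 ha
  have h2 : b ∈ G.neighborFinset u := (SimpleGraph.mem_neighborFinset _ _ _).2 hb
  rw [hc, mem_singleton] at h1 h2
  rw [h1, h2]

open Classical in
private theorem h15_two {n : ℕ} (G : SimpleGraph (Fin n)) {u a b c : Fin n}
    (hu : G.degree u = 2) (ha : G.Adj u a) (hb : G.Adj u b) (hc : G.Adj u c)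
    (hab : a ≠ b) (hac : a ≠ c) : b = c := by
  by_contra hbc
  rw [← SimpleGraph.card_neighborFinset_eq_degree] at hu
  have hsub : ({a, b, c} : Finset (Fin n)) ⊆ G.neighborFinset u := by
    intro x hx
    rw [SimpleGraph.mem_neighborFinset]
    rw [mem_insert, mem_insert, mem_singleton] at hx
    rcases hx with rfl | rfl | rfl
    · exact ha
    · exact hb
    · exact hc
  have h3 : ({a, b, c} : Finset (Fin n)).card = 3 := card_eq_three.2 ⟨a, b, c, hab, hac, hbc, rfl⟩
  have := card_le_card hsub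
  omega

open Classical in
private theorem h15_pend {n : ℕ} (G : SimpleGraph (Fin n)) {r : Fin n} {E : Fin n → ℕ} {p : ℕ → ℕ}
    (hPar : Par n p) (hr : E r = 0) (hlt : ∀ v, E v < n) (hinj : Function.Injective E)
    (hsurj : ∀ i, i < n → ∃ v, E v = i)
    (hadj : ∀ u v, G.Adj u v ↔ (0 < E v ∧ p (E v) = E u) ∨ (0 < E u ∧ p (E u) = E v))
    {u w : Fin n} (hu : G.degree u = 1) (huw : G.Adj u w) (hw : G.degree w = 2)
    (hur : u ≠ r) (hwr : w ≠ r) :
    p (E u) = E w ∧ Pend n p (E w) ∧ chl n p (E w) = {E u} := by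
  have hEu : 0 < E u := Nat.pos_of_ne_zero fun h => hur (hinj (h.trans hr.symm))
  have hEw : 0 < E w := Nat.pos_of_ne_zero fun h => hwr (hinj (h.trans hr.symm))
  have hpu := hPar (E u) hEu (hlt u)
  have hpw := hPar (E w) hEw (hlt w)
  have h1 : p (E u) = E w := by
    rcases (hadj u w).1 huw with ⟨-, h⟩ | ⟨-, h⟩
    · exfalso
      obtain ⟨x, hx⟩ := hsurj (p (E u)) (hpu.trans (hlt u))
      have hux : G.Adj u x := (hadj u x).2 (Or.inr ⟨hEu, hx.symm⟩)
      have hxw := h15_leaf G hu huw hux
      rw [← hxw] at hx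
      omega
    · exact h
  have hwu : E w < E u := by omega
  have hchu : chl n p (E u) = ∅ := by
    rw [eq_empty_iff_forall_notMem]
    intro j hj
    unfold chl at hj
    rw [mem_filter, mem_range] at hj
    obtain ⟨hjn, hj0, hjp⟩ := hj
    obtain ⟨x, rfl⟩ := hsurj j hjn
    have hux : G.Adj u x := (hadj u x).2 (Or.inl ⟨hj0, hjp⟩)
    have hxw := h15_leaf G hu huw hux
    have := hPar (E x) hj0 hjn
    rw [← hxw] at this hjp
    omega
  have hchw : chl n p (E w) = {E u} := by
    ext j
    rw [mem_singleton]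
    unfold chl
    rw [mem_filter, mem_range]
    constructor
    · rintro ⟨hjn, hj0, hjp⟩
      obtain ⟨x, rfl⟩ := hsurj j hjn
      have hwx : G.Adj w x := (hadj w x).2 (Or.inl ⟨hj0, hjp⟩)
      obtain ⟨y, hy⟩ := hsurj (p (E w)) (hpw.trans (hlt w))
      have hwy : G.Adj w y := (hadj w y).2 (Or.inr ⟨hEw, hy.symm⟩)
      have hxx := hPar (E x) hj0 hjn
      have h5 := h15_two G hw hwy hwx huw.symm
        (fun h => by rw [h] at hy; omega) (fun h => by rw [h] at hy; omega)
      rw [h5]
    · rintro rfl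
      exact ⟨hlt u, hEu, h1⟩
  exact ⟨h1, ⟨hEw, hlt w, E u, hchw, hchu⟩, hchw⟩

open Classical in
theorem to_parent {n : ℕ} (hn : 4 ≤ n) (G : SimpleGraph (Fin n)) (hG : G.IsTree) :
    ∃ p : ℕ → ℕ, Par n p ∧ (∀ v, v < n → (chl n p v).card ≤ G.maxDegree) ∧
      (univ.filter fun u : Fin n => G.degree u = 1 ∧ ∃ w, G.Adj u w ∧ G.degree w = 2).card ≤
        ((range n).filter fun v => Pend n p v).card + 2 ∧
      (IsSEM n p → ∃ (f : Fin n → ℕ) (g : G.edgeSet → ℕ) (k : ℕ),
        Function.Injective f ∧ (∀ v, 1 ≤ f v ∧ f v ≤ n) ∧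
        Function.Injective g ∧ (∀ e, n + 1 ≤ g e ∧ g e < 2 * n) ∧
        ∀ (e : G.edgeSet) (u v : Fin n), (e : Sym2 (Fin n)) = s(u, v) → f u + g e + f v = k) := by
  obtain ⟨r, E, p, hPar, hr, hlt, hinj, hsurj, hadj⟩ := h15_num hn G hG
  refine ⟨p, hPar, h15_children G hsurj hadj, ?_, ?_⟩
  · -- the leaves
    set A := univ.filter fun u : Fin n => G.degree u = 1 ∧ ∃ w, G.Adj u w ∧ G.degree w = 2
      with hA
    have hmA : ∀ u, u ∈ A ↔ G.degree u = 1 ∧ ∃ w, G.Adj u w ∧ G.degree w = 2 := by
      intro u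
      rw [hA, mem_filter]
      exact and_iff_right (mem_univ u)
    have hsplit := card_filter_add_card_filter_not (s := A) (fun u => u = r ∨ G.Adj u r)
    have h1 : (A.filter fun u => u = r ∨ G.Adj u r).card ≤ 2 := by
      by_cases hrd : G.degree r = 1
      · have hsub : (A.filter fun u => u = r ∨ G.Adj u r) ⊆ {r} := by
          intro u hu
          rw [mem_filter, hmA] at hu
          rw [mem_singleton]
          obtain ⟨⟨hu1, w, hw1, hw2⟩, hu2 | hu2⟩ := hu
          · exact hu2
          · have := h15_leaf G hu1 hu2 hw1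
            rw [← this] at hw2
            omega
        have := card_le_card hsub
        rw [card_singleton] at this
        omega
      · rcases (A.filter fun u => u = r ∨ G.Adj u r).eq_empty_or_nonempty with hem | ⟨u₀, hu₀⟩
        · rw [hem, card_empty]
          omega
        · have hmem : ∀ u ∈ A.filter (fun u => u = r ∨ G.Adj u r),
              G.Adj u r ∧ G.degree r = 2 := by
            intro u hu
            rw [mem_filter, hmA] at hu
            obtain ⟨⟨hu1, w, hw1, hw2⟩, hu2 | hu2⟩ := hu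
            · rw [hu2] at hu1
              exact absurd hu1 hrd
            · have := h15_leaf G hu1 hu2 hw1
              rw [← this] at hw2
              exact ⟨hu2, hw2⟩
          have hsub : (A.filter fun u => u = r ∨ G.Adj u r) ⊆ G.neighborFinset r := by
            intro u hu
            rw [SimpleGraph.mem_neighborFinset]
            exact (hmem u hu).1.symm
          refine (card_le_card hsub).trans ?_
          rw [SimpleGraph.card_neighborFinset_eq_degree]
          exact (hmem u₀ hu₀).2.le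
    have h2 : (A.filter fun u => ¬ (u = r ∨ G.Adj u r)).card ≤
        ((range n).filter fun v => Pend n p v).card := by
      have key : ∀ u ∈ A.filter (fun u => ¬ (u = r ∨ G.Adj u r)), ∃ w, p (E u) = E w ∧
          Pend n p (E w) ∧ chl n p (E w) = {E u} := by
        intro u hu
        rw [mem_filter, hmA] at hu
        obtain ⟨⟨hu1, w, hw1, hw2⟩, hu2⟩ := hu
        rw [not_or] at hu2
        refine ⟨w, h15_pend G hPar hr hlt hinj hsurj hadj hu1 hw1 hw2 hu2.1 ?_⟩
        rintro rfl
        exact hu2.2 hw1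
      refine card_le_card_of_injOn (fun u => p (E u)) ?_ ?_
      · intro u hu
        obtain ⟨w, h3, h4, -⟩ := key u hu
        rw [mem_coe, mem_filter, mem_range]
        change p (E u) < n ∧ Pend n p (p (E u))
        rw [h3]
        exact ⟨hlt w, h4⟩
      · intro u hu u' hu' heq
        obtain ⟨w, h3, -, h5⟩ := key u hu
        obtain ⟨w', h3', -, h5'⟩ := key u' hu'
        change p (E u) = p (E u') at heq
        rw [h3, h3'] at heq
        rw [heq, h5'] at h5
        exact hinj (singleton_injective h5).symm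
    omega
  · -- the labelling
    rintro ⟨F, hF1, hF2, hF3, hF4⟩
    have hpar : ∀ e : G.edgeSet, ∃ a b : Fin n, (e : Sym2 (Fin n)) = s(a, b) ∧ 0 < E a ∧
        p (E a) = E b := by
      rintro ⟨e, he⟩
      induction e using Sym2.ind with
      | _ u v =>
        rw [SimpleGraph.mem_edgeSet] at he
        rcases (hadj u v).1 he with ⟨h1, h2⟩ | ⟨h1, h2⟩
        · exact ⟨v, u, Sym2.eq_swap, h1, h2⟩
        · exact ⟨u, v, rfl, h1, h2⟩
    let S : Sym2 (Fin n) → ℕ := Sym2.lift ⟨fun u v => F (E u) + F (E v), fun u v => add_comm _ _⟩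
    have hS : ∀ u v, S s(u, v) = F (E u) + F (E v) := fun u v => rfl
    have hSw : ∀ e : G.edgeSet, n / 2 + 2 ≤ S e ∧ S e ≤ n / 2 + n := by
      intro e
      obtain ⟨a, b, h1, h2, h3⟩ := hpar e
      have h4 := hF3 (E a) h2 (hlt a)
      rw [Win, mem_Icc, h3] at h4
      rw [h1, hS]
      exact h4
    refine ⟨fun v => F (E v), fun e => n / 2 + 2 * n + 1 - S e, n / 2 + 2 * n + 1, ?_, ?_, ?_,
      ?_, ?_⟩
    · intro u v h
      exact hinj (hF2 (mem_coe.2 (mem_range.2 (hlt u))) (mem_coe.2 (mem_range.2 (hlt v))) h)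
    · intro v
      exact mem_Icc.1 (hF1 (E v) (hlt v))
    · intro e e' h
      have h1 := hSw e
      have h2 := hSw e'
      change n / 2 + 2 * n + 1 - S e = n / 2 + 2 * n + 1 - S e' at h
      have h3 : S e = S e' := by omega
      obtain ⟨a, b, k1, k2, k3⟩ := hpar e
      obtain ⟨a', b', k1', k2', k3'⟩ := hpar e'
      rw [k1, k1', hS, hS] at h3
      have h4 : E a = E a' := by
        refine hF4 (mem_coe.2 (mem_Ico.2 ⟨k2, hlt a⟩)) (mem_coe.2 (mem_Ico.2 ⟨k2', hlt a'⟩)) ?_
        change F (E a) + F (p (E a)) = F (E a') + F (p (E a'))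
        rw [k3, k3']
        exact h3
      have h5 : a = a' := hinj h4
      subst h5
      have h6 : b = b' := hinj (k3.symm.trans k3')
      subst h6
      exact Subtype.ext (k1.trans k1'.symm)
    · intro e
      have h1 := hSw e
      change n + 1 ≤ n / 2 + 2 * n + 1 - S e ∧ n / 2 + 2 * n + 1 - S e < 2 * n
      omega
    · intro e u v huv
      have h1 := hSw e
      change F (E u) + (n / 2 + 2 * n + 1 - S e) + F (E v) = n / 2 + 2 * n + 1
      rw [huv, hS] at h1 ⊢
      omega

end Pool.Agent.SEM
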