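import Pool.Agent.Helper73.SEM.LWD

/-!
# SEM-LW5: codegree and injectivity bounds for the labelling of one piece

Setting: piece `P` with top `τ` (`τ ∈ P`, `p τ ∈ R`, `p v ∈ P` for the other `v ∈ P`), exits `ex` (at most one, `p r ∈ P`, `p r ≠ τ`).
The edge `i ∈ P ∪ ex` has the sum `φ i + φ (p i)`.

Proof in words.  All events are unions of events `∀ v ∈ A, φ v = x v` with `A ⊆ P`, bounded by `(U/n)^|A|` (`PL.joint`).
An edge of type I is `i ∈ P`, `i ≠ τ`: two random labels `φ i, φ (p i)`; the edges `τ` (sum `φ τ + lab (p τ)`) and `r ∈ ex` (sum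
`φ (p r) + lab r`) are determined by one random label.
* `pr_label`: `Pr (∃ v ∈ P, φ v = x) ≤ K U/n`.  `pr_sum`: `Pr (∃ i ∈ P ∪ ex, sum = s) ≤ (K+1) n (U/n)² + ... ≤ (K+1) U²/n` (type I: sum over
  `x ≤ s` in `X`, at most `n` values, of `(U/n)²`; types `τ`, `r`: `U/n`).
* two labels `x ≠ x'`: `≤ K² (U/n)²`.
* label `x` and sum `s`: for `v ∈ P` and an edge `i`: if the edge has type I and `v ∉ {i, p i}`: three labels, one free: `n (U/n)³`; if `v ∈ {i, p i}`: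
  two determined labels `(U/n)²`; edge `τ` (resp. `r`): if `v ≠ τ` (`v ≠ p r`): `(U/n)²`; if `v = τ` the event needs `x + lab (p τ) = s`
  (resp. `x + lab r = s`) and has probability `≤ U/n`.
* two sums `s ≠ s'` (distinct edges `i ≠ j`): both type I: together 3 or 4 distinct vertices, `1` resp. `2` free labels: `≤ U³/n²`, `U⁴/n²`
  (if they share a vertex: `{i, p i} ∩ {j, p j}` has exactly one element since `i ≠ j`; note `{i,p i} = {j, p j}` would force `i = j`);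
  one of type I and one determined by one label: `≤ U²/n²·...` (`n (U/n)³` or `(U/n)²`); edges `τ` and `r`: labels of `τ ≠ p r`: `(U/n)²`.
* not injective: two vertices with the same label: `K² n (U/n)²`; two edges with the same sum `s`: sum over the `≤ n` values `s ∈ S` of the
  previous bound (which does not use `s ≠ s'`): `(K+1)² n · U⁴/n²`.
-/

set_option autoImplicit false

namespace Pool.Agent.SEM

open Finset

/-- geometry of a piece -/
structure Geo (p : ℕ → ℕ) (R P ex : Finset ℕ) (τ : ℕ) : Prop where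
  tP : τ ∈ P
  tR : p τ ∈ R
  st : ∀ v ∈ P, v ≠ τ → p v ∈ P
  lt : ∀ v ∈ P, p v < v
  PR : Disjoint P R
  exR : ex ⊆ R
  ex1 : ex.card ≤ 1
  exP : ∀ r ∈ ex, p r ∈ P ∧ p r ≠ τ

section H80

variable {n : ℕ} {p lab : ℕ → ℕ} {R X S P ex : Finset ℕ} {τ K : ℕ} {U : ℝ} {L : FL}

private theorem Pr_mono_h80 (hnn : ∀ ω, 0 ≤ L.wt ω) {E F : (ℕ → ℕ) → Prop}
    (h : ∀ ω, L.wt ω ≠ 0 → E (L.Φ ω) → F (L.Φ ω)) : L.Pr E ≤ L.Pr F := by
  unfold FL.Pr FL.Ex
  letI := L.fin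
  refine Finset.sum_le_sum fun ω _ => ?_
  by_cases hw : L.wt ω = 0
  · rw [hw, zero_mul, zero_mul]
  · refine mul_le_mul_of_nonneg_left ?_ (hnn ω)
    beta_reduce
    by_cases hE : E (L.Φ ω)
    · rw [if_pos hE, if_pos (h ω hw hE)]
    · rw [if_neg hE]
      split_ifs <;> norm_num

private theorem Pr_nonneg_h80 (hnn : ∀ ω, 0 ≤ L.wt ω) (E : (ℕ → ℕ) → Prop) : 0 ≤ L.Pr E := by
  unfold FL.Pr FL.Ex
  letI := L.fin
  refine Finset.sum_nonneg fun ω _ => mul_nonneg (hnn ω) ?_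
  beta_reduce
  split_ifs <;> norm_num

private theorem Pr_zero_h80 (hnn : ∀ ω, 0 ≤ L.wt ω) {E : (ℕ → ℕ) → Prop}
    (h : ∀ ω, L.wt ω ≠ 0 → ¬ E (L.Φ ω)) : L.Pr E ≤ 0 := by
  unfold FL.Pr FL.Ex
  letI := L.fin
  refine Finset.sum_nonpos fun ω _ => ?_
  by_cases hw : L.wt ω = 0
  · rw [hw, zero_mul]
  · beta_reduce
    rw [if_neg (h ω hw), mul_zero]

open Classical in
private theorem Pr_union_h80 (hnn : ∀ ω, 0 ≤ L.wt ω) {ι : Type*} (s : Finset ι)
    (E : ι → (ℕ → ℕ) → Prop) :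
    L.Pr (fun φ => ∃ i ∈ s, E i φ) ≤ ∑ i ∈ s, L.Pr (E i) := by
  unfold FL.Pr FL.Ex
  letI := L.fin
  rw [Finset.sum_comm]
  refine Finset.sum_le_sum fun ω _ => ?_
  rw [← Finset.mul_sum]
  refine mul_le_mul_of_nonneg_left ?_ (hnn ω)
  beta_reduce
  by_cases h : ∃ i ∈ s, E i (L.Φ ω)
  · rw [if_pos h]
    obtain ⟨i, hi, hE⟩ := h
    calc (1 : ℝ) = (if E i (L.Φ ω) then (1:ℝ) else 0) := by rw [if_pos hE]
      _ ≤ _ := Finset.single_le_sum (f := fun i => if E i (L.Φ ω) then (1:ℝ) else 0)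
          (fun j _ => by split_ifs <;> norm_num) hi
  · rw [if_neg h]
    exact Finset.sum_nonneg fun j _ => by split_ifs <;> norm_num

private theorem P1_h80 (hL : PL n p R lab X S P ex U L) {a : ℕ} (ha : a ∈ P)
    {E : (ℕ → ℕ) → Prop} (xa : ℕ)
    (hE : ∀ ω, L.wt ω ≠ 0 → E (L.Φ ω) → L.Φ ω a = xa) : L.Pr E ≤ U / n := by
  have h := hL.joint {a} (Finset.singleton_subset_iff.mpr ha) (fun _ => xa)
  rw [Finset.card_singleton, pow_one] at h
  refine (Pr_mono_h80 hL.nn fun ω hw hE' => ?_).trans h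
  intro v hv
  rw [Finset.mem_singleton.mp hv]
  exact hE ω hw hE'

private theorem P2_h80 (hL : PL n p R lab X S P ex U L) {a b : ℕ} (ha : a ∈ P) (hb : b ∈ P)
    (hab : a ≠ b) {E : (ℕ → ℕ) → Prop} (xa xb : ℕ)
    (hE : ∀ ω, L.wt ω ≠ 0 → E (L.Φ ω) → L.Φ ω a = xa ∧ L.Φ ω b = xb) :
    L.Pr E ≤ (U / n) ^ 2 := by
  have h := hL.joint {a, b} (by
    intro v hv
    rcases Finset.mem_insert.mp hv with rfl | hv
    · exact ha
    · rw [Finset.mem_singleton.mp hv]; exact hb) (fun v => if v = a then xa else xb)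
  rw [Finset.card_pair hab] at h
  refine (Pr_mono_h80 hL.nn fun ω hw hE' => ?_).trans h
  obtain ⟨h1, h2⟩ := hE ω hw hE'
  intro v hv
  rcases Finset.mem_insert.mp hv with rfl | hv
  · rw [if_pos rfl]; exact h1
  · rw [Finset.mem_singleton.mp hv, if_neg hab.symm]; exact h2

private theorem P3_h80 (hL : PL n p R lab X S P ex U L) {a b c : ℕ} (ha : a ∈ P) (hb : b ∈ P)
    (hc : c ∈ P) (hab : a ≠ b) (hac : a ≠ c) (hbc : b ≠ c) {E : (ℕ → ℕ) → Prop}
    (xa xb xc : ℕ)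
    (hE : ∀ ω, L.wt ω ≠ 0 → E (L.Φ ω) →
      L.Φ ω a = xa ∧ L.Φ ω b = xb ∧ L.Φ ω c = xc) :
    L.Pr E ≤ (U / n) ^ 3 := by
  have h := hL.joint {a, b, c} (by
    intro v hv
    rcases Finset.mem_insert.mp hv with rfl | hv
    · exact ha
    rcases Finset.mem_insert.mp hv with rfl | hv
    · exact hb
    · rw [Finset.mem_singleton.mp hv]; exact hc)
    (fun v => if v = a then xa else if v = b then xb else xc)
  have hcard : ({a, b, c} : Finset ℕ).card = 3 := by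
    rw [Finset.card_insert_of_notMem (by simp [hab, hac]),
      Finset.card_pair hbc]
  rw [hcard] at h
  refine (Pr_mono_h80 hL.nn fun ω hw hE' => ?_).trans h
  obtain ⟨h1, h2, h3⟩ := hE ω hw hE'
  intro v hv
  rcases Finset.mem_insert.mp hv with rfl | hv
  · rw [if_pos rfl]; exact h1
  rcases Finset.mem_insert.mp hv with rfl | hv
  · rw [if_neg hab.symm, if_pos rfl]; exact h2
  · rw [Finset.mem_singleton.mp hv, if_neg hac.symm, if_neg hbc.symm]; exact h3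

private theorem P4_h80 (hL : PL n p R lab X S P ex U L) {a b c d : ℕ} (ha : a ∈ P)
    (hb : b ∈ P) (hc : c ∈ P) (hd : d ∈ P) (hab : a ≠ b) (hac : a ≠ c) (had : a ≠ d)
    (hbc : b ≠ c) (hbd : b ≠ d) (hcd : c ≠ d) {E : (ℕ → ℕ) → Prop} (xa xb xc xd : ℕ)
    (hE : ∀ ω, L.wt ω ≠ 0 → E (L.Φ ω) →
      L.Φ ω a = xa ∧ L.Φ ω b = xb ∧ L.Φ ω c = xc ∧ L.Φ ω d = xd) :
    L.Pr E ≤ (U / n) ^ 4 := by
  have h := hL.joint {a, b, c, d} (by
    intro v hv
    rcases Finset.mem_insert.mp hv with rfl | hv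
    · exact ha
    rcases Finset.mem_insert.mp hv with rfl | hv
    · exact hb
    rcases Finset.mem_insert.mp hv with rfl | hv
    · exact hc
    · rw [Finset.mem_singleton.mp hv]; exact hd)
    (fun v => if v = a then xa else if v = b then xb else if v = c then xc else xd)
  have hcard : ({a, b, c, d} : Finset ℕ).card = 4 := by
    rw [Finset.card_insert_of_notMem (by simp [hab, hac, had]),
      Finset.card_insert_of_notMem (by simp [hbc, hbd]), Finset.card_pair hcd]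
  rw [hcard] at h
  refine (Pr_mono_h80 hL.nn fun ω hw hE' => ?_).trans h
  obtain ⟨h1, h2, h3, h4⟩ := hE ω hw hE'
  intro v hv
  rcases Finset.mem_insert.mp hv with rfl | hv
  · rw [if_pos rfl]; exact h1
  rcases Finset.mem_insert.mp hv with rfl | hv
  · rw [if_neg hab.symm, if_pos rfl]; exact h2
  rcases Finset.mem_insert.mp hv with rfl | hv
  · rw [if_neg hac.symm, if_neg hbc.symm, if_pos rfl]; exact h3
  · rw [Finset.mem_singleton.mp hv, if_neg had.symm, if_neg hbd.symm, if_neg hcd.symm]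
    exact h4

/-- fix the label of one vertex of `P` -/
private theorem cond_h80 (hL : PL n p R lab X S P ex U L) (hX : X ⊆ Icc 1 n) {a : ℕ}
    (ha : a ∈ P) {E : (ℕ → ℕ) → Prop} {B : ℝ} (hB : 0 ≤ B)
    (h : ∀ x, L.Pr (fun φ => E φ ∧ φ a = x) ≤ B) : L.Pr E ≤ n * B := by
  have h1 : L.Pr E ≤ L.Pr (fun φ => ∃ x ∈ X, (E φ ∧ φ a = x)) :=
    Pr_mono_h80 hL.nn fun ω hw hE => ⟨L.Φ ω a, hL.lbl ω hw a ha, hE, rfl⟩
  refine h1.trans ((Pr_union_h80 hL.nn X (fun x φ => E φ ∧ φ a = x)).trans ?_)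
  refine (Finset.sum_le_sum fun x _ => h x).trans ?_
  rw [Finset.sum_const, nsmul_eq_mul]
  refine mul_le_mul_of_nonneg_right ?_ hB
  have := Finset.card_le_card hX
  rw [Nat.card_Icc] at this
  exact_mod_cast this.trans (by omega)

private theorem arith_h80 (hn : 1 ≤ n) (hU : 1 ≤ U) :
    (U / n) ^ 2 ≤ U ^ 4 / n ^ 2 ∧ (n : ℝ) * (U / n) ^ 3 ≤ U ^ 4 / n ^ 2 ∧
      (n : ℝ) * (n * (U / n) ^ 4) ≤ U ^ 4 / n ^ 2 ∧ U / n ≤ U ^ 4 / n ∧
      (n : ℝ) * (U / n) ^ 2 ≤ U ^ 4 / n := by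
  have hn0 : (0 : ℝ) < n := by exact_mod_cast hn
  have hU0 : 0 < U := by linarith
  have h24 : U ^ 2 ≤ U ^ 4 := pow_le_pow_right₀ hU (by norm_num)
  have h34 : U ^ 3 ≤ U ^ 4 := pow_le_pow_right₀ hU (by norm_num)
  have h14 : U ≤ U ^ 4 := by
    calc U = U ^ 1 := (pow_one U).symm
      _ ≤ U ^ 4 := pow_le_pow_right₀ hU (by norm_num)
  refine ⟨?_, ?_, ?_, ?_, ?_⟩
  · rw [div_pow]
    exact div_le_div_of_nonneg_right h24 (by positivity)
  · have : (n : ℝ) * (U / n) ^ 3 = U ^ 3 / n ^ 2 := by field_simp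
    rw [this]
    exact div_le_div_of_nonneg_right h34 (by positivity)
  · have : (n : ℝ) * (n * (U / n) ^ 4) = U ^ 4 / n ^ 2 := by field_simp
    rw [this]
  · exact div_le_div_of_nonneg_right h14 hn0.le
  · have : (n : ℝ) * (U / n) ^ 2 = U ^ 2 / n := by field_simp
    rw [this]
    exact div_le_div_of_nonneg_right h24 hn0.le

/-- the two kinds of edges -/
private theorem kinds_h80 (hG : Geo p R P ex τ) (hL : PL n p R lab X S P ex U L) {i : ℕ}
    (hi : i ∈ P ∪ ex) :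
    (i ∈ P ∧ i ≠ τ ∧ p i ∈ P ∧ p i < i) ∨
      (i = τ ∧ ∀ ω, L.Φ ω i + L.Φ ω (p i) = L.Φ ω τ + lab (p τ)) ∨
      (i ∈ ex ∧ i ∉ P ∧ p i ∈ P ∧ p i ≠ τ ∧
        ∀ ω, L.Φ ω i + L.Φ ω (p i) = L.Φ ω (p i) + lab i) := by
  rcases Finset.mem_union.mp hi with hi | hi
  · by_cases hτ : i = τ
    · right; left
      refine ⟨hτ, fun ω => ?_⟩
      rw [hτ, hL.onR ω _ hG.tR]
    · left
      exact ⟨hi, hτ, hG.st i hi hτ, hG.lt i hi⟩
  · right; right
    refine ⟨hi, ?_, (hG.exP i hi).1, (hG.exP i hi).2, fun ω => ?_⟩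
    · intro hP
      exact Finset.disjoint_left.mp hG.PR hP (hG.exR hi)
    · rw [hL.onR ω _ (hG.exR hi)]
      ring

/-- one sum -/
private theorem sum1_h80 (hn : 1 ≤ n) (hX : X ⊆ Icc 1 n) (hU : 1 ≤ U) (hG : Geo p R P ex τ)
    (hL : PL n p R lab X S P ex U L) {i : ℕ} (hi : i ∈ P ∪ ex) (s : ℕ) :
    L.Pr (fun φ => φ i + φ (p i) = s) ≤ U ^ 4 / n := by
  obtain ⟨-, -, -, ha4, ha5⟩ := arith_h80 (n := n) hn hU
  have hn0 : (0 : ℝ) < n := by exact_mod_cast hn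
  have hU0 : 0 < U := by linarith
  rcases kinds_h80 hG hL hi with ⟨hiP, -, hpP, hlt⟩ | ⟨-, hsum⟩ | ⟨-, -, hpP, -, hsum⟩
  · refine (cond_h80 hL hX hiP (B := (U / n) ^ 2) (by positivity) fun x => ?_).trans ha5
    refine P2_h80 hL hiP hpP hlt.ne' x (s - x) fun ω _ hE => ?_
    obtain ⟨h1, h2⟩ := hE
    exact ⟨h2, by omega⟩
  · refine (P1_h80 hL hG.tP (s - lab (p τ)) fun ω _ hE => ?_).trans ha4
    rw [hsum ω] at hE
    omega
  · refine (P1_h80 hL hpP (s - lab i) fun ω _ hE => ?_).trans ha4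
    rw [hsum ω] at hE
    omega

private theorem swap_h80 (hnn : ∀ ω, 0 ≤ L.wt ω) {E F : (ℕ → ℕ) → Prop} :
    L.Pr (fun φ => E φ ∧ F φ) ≤ L.Pr (fun φ => F φ ∧ E φ) :=
  Pr_mono_h80 hnn fun _ _ h => ⟨h.2, h.1⟩

/-- an inner edge and a determined edge -/
private theorem inner_det_h80 (hn : 1 ≤ n) (hX : X ⊆ Icc 1 n) (hU : 1 ≤ U)
    (hL : PL n p R lab X S P ex U L) {i j w c : ℕ} (hiP : i ∈ P) (hpP : p i ∈ P)
    (hlt : p i < i) (hw : w ∈ P) (hsum : ∀ ω, L.Φ ω j + L.Φ ω (p j) = L.Φ ω w + c)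
    (s s' : ℕ) :
    L.Pr (fun φ => φ i + φ (p i) = s ∧ φ j + φ (p j) = s') ≤ U ^ 4 / n ^ 2 := by
  obtain ⟨ha1, ha2, -, -, -⟩ := arith_h80 (n := n) hn hU
  have hn0 : (0 : ℝ) < n := by exact_mod_cast hn
  have hU0 : 0 < U := by linarith
  by_cases h1 : w = i
  · refine (P2_h80 hL hiP hpP hlt.ne' (s' - c) (s - (s' - c)) fun ω _ hE => ?_).trans ha1
    obtain ⟨h2, h3⟩ := hE
    rw [hsum ω, h1] at h3
    omega
  by_cases h2 : w = p i
  · refine (P2_h80 hL hiP hpP hlt.ne' (s - (s' - c)) (s' - c) fun ω _ hE => ?_).trans ha1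
    obtain ⟨h3, h4⟩ := hE
    rw [hsum ω, h2] at h4
    omega
  · refine (cond_h80 hL hX hiP (B := (U / n) ^ 3) (by positivity) fun x => ?_).trans ha2
    refine P3_h80 hL hiP hpP hw hlt.ne' (Ne.symm h1) (Ne.symm h2) x (s - x) (s' - c)
      fun ω _ hE => ?_
    obtain ⟨⟨h3, h4⟩, h5⟩ := hE
    rw [hsum ω] at h4
    omega

/-- two inner edges -/
private theorem inner_inner_h80 (hn : 1 ≤ n) (hX : X ⊆ Icc 1 n) (hU : 1 ≤ U)
    (hL : PL n p R lab X S P ex U L) {i j : ℕ} (hiP : i ∈ P) (hpP : p i ∈ P)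
    (hlt : p i < i) (hjP : j ∈ P) (hqP : p j ∈ P) (hlt' : p j < j) (hij : i ≠ j)
    (s s' : ℕ) :
    L.Pr (fun φ => φ i + φ (p i) = s ∧ φ j + φ (p j) = s') ≤ U ^ 4 / n ^ 2 := by
  obtain ⟨ha1, ha2, ha3, -, -⟩ := arith_h80 (n := n) hn hU
  have hn0 : (0 : ℝ) < n := by exact_mod_cast hn
  have hU0 : 0 < U := by linarith
  by_cases h1 : p i = j
  · refine (cond_h80 hL hX hjP (B := (U / n) ^ 3) (by positivity) fun x => ?_).trans ha2
    refine P3_h80 hL hjP hiP hqP (Ne.symm hij) hlt'.ne' (by omega) x (s - x) (s' - x)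
      fun ω _ hE => ?_
    obtain ⟨⟨h3, h4⟩, h5⟩ := hE
    rw [h1] at h3
    omega
  by_cases h2 : p j = i
  · refine (cond_h80 hL hX hiP (B := (U / n) ^ 3) (by positivity) fun x => ?_).trans ha2
    refine P3_h80 hL hiP hjP hpP hij hlt.ne' (by omega) x (s' - x) (s - x)
      fun ω _ hE => ?_
    obtain ⟨⟨h3, h4⟩, h5⟩ := hE
    rw [h2] at h4
    omega
  by_cases h3 : p i = p j
  · refine (cond_h80 hL hX hpP (B := (U / n) ^ 3) (by positivity) fun x => ?_).trans ha2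
    refine P3_h80 hL hpP hiP hjP hlt.ne (by omega) hij x (s - x) (s' - x)
      fun ω _ hE => ?_
    obtain ⟨⟨h4, h5⟩, h6⟩ := hE
    rw [← h3] at h5
    omega
  · refine (cond_h80 hL hX hiP (B := n * (U / n) ^ 4) (by positivity) fun x => ?_).trans ha3
    refine cond_h80 hL hX hjP (B := (U / n) ^ 4) (by positivity) fun y => ?_
    refine P4_h80 hL hiP hpP hjP hqP hlt.ne' hij (Ne.symm h2) h1 h3 hlt'.ne' x (s - x) y
      (s' - y) fun ω _ hE => ?_
    obtain ⟨⟨⟨h4, h5⟩, h6⟩, h7⟩ := hE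
    omega

/-- two sums -/
private theorem sum2_h80 (hn : 1 ≤ n) (hX : X ⊆ Icc 1 n) (hU : 1 ≤ U) (hG : Geo p R P ex τ)
    (hL : PL n p R lab X S P ex U L) {i j : ℕ} (hi : i ∈ P ∪ ex) (hj : j ∈ P ∪ ex)
    (hij : i ≠ j) (s s' : ℕ) :
    L.Pr (fun φ => φ i + φ (p i) = s ∧ φ j + φ (p j) = s') ≤ U ^ 4 / n ^ 2 := by
  obtain ⟨ha1, -, -, -, -⟩ := arith_h80 (n := n) hn hU
  rcases kinds_h80 hG hL hi with ⟨hiP, -, hpP, hlt⟩ | ⟨hiτ, hsum⟩ | ⟨hie, -, hpP, hpτ, hsum⟩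
  · rcases kinds_h80 hG hL hj with ⟨hjP, -, hqP, hlt'⟩ | ⟨-, hsum'⟩ | ⟨-, -, hqP, -, hsum'⟩
    · exact inner_inner_h80 hn hX hU hL hiP hpP hlt hjP hqP hlt' hij s s'
    · exact inner_det_h80 hn hX hU hL hiP hpP hlt hG.tP hsum' s s'
    · exact inner_det_h80 hn hX hU hL hiP hpP hlt hqP hsum' s s'
  · rcases kinds_h80 hG hL hj with ⟨hjP, -, hqP, hlt'⟩ | ⟨hjτ, hsum'⟩ |
      ⟨-, -, hqP, hqτ, hsum'⟩
    · exact (swap_h80 hL.nn).trans
        (inner_det_h80 hn hX hU hL hjP hqP hlt' hG.tP hsum s' s)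
    · exact absurd (hiτ.trans hjτ.symm) hij
    · refine (P2_h80 hL hG.tP hqP (Ne.symm hqτ) (s - lab (p τ)) (s' - lab j)
        fun ω _ hE => ?_).trans ha1
      obtain ⟨h1, h2⟩ := hE
      rw [hsum ω] at h1
      rw [hsum' ω] at h2
      omega
  · rcases kinds_h80 hG hL hj with ⟨hjP, -, hqP, hlt'⟩ | ⟨hjτ, hsum'⟩ |
      ⟨hje, -, hqP, hqτ, hsum'⟩
    · exact (swap_h80 hL.nn).trans
        (inner_det_h80 hn hX hU hL hjP hqP hlt' hpP hsum s' s)
    · refine (P2_h80 hL hpP hG.tP hpτ (s - lab i) (s' - lab (p τ))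
        fun ω _ hE => ?_).trans ha1
      obtain ⟨h1, h2⟩ := hE
      rw [hsum ω] at h1
      rw [hsum' ω] at h2
      omega
    · exact absurd (Finset.card_le_one.mp hG.ex1 i hie j hje) hij

/-- a label and the sum of a determined edge -/
private theorem lab_det_h80 (hn : 1 ≤ n) (hU : 1 ≤ U)
    (hL : PL n p R lab X S P ex U L) {v i w c : ℕ} (hv : v ∈ P) (hw : w ∈ P)
    (hsum : ∀ ω, L.Φ ω i + L.Φ ω (p i) = L.Φ ω w + c) (x s : ℕ) :
    L.Pr (fun φ => φ v = x ∧ φ i + φ (p i) = s) ≤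
      U ^ 4 / n ^ 2 + if v = w ∧ x + c = s then U / n else 0 := by
  obtain ⟨ha1, ha2, -, -, -⟩ := arith_h80 (n := n) hn hU
  have hn0 : (0 : ℝ) < n := by exact_mod_cast hn
  have hU0 : 0 < U := by linarith
  have hB : (0:ℝ) ≤ U ^ 4 / n ^ 2 := by positivity
  by_cases h1 : v = w
  · by_cases h2 : x + c = s
    · rw [if_pos ⟨h1, h2⟩]
      have := P1_h80 hL hv (E := fun φ => φ v = x ∧ φ i + φ (p i) = s) x
        (fun ω _ hE => hE.1)
      linarith
    · rw [if_neg (fun h => h2 h.2), add_zero]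
      refine (Pr_zero_h80 hL.nn fun ω _ hE => h2 ?_).trans hB
      obtain ⟨h3, h4⟩ := hE
      rw [hsum ω, ← h1] at h4
      omega
  · rw [if_neg (fun h => h1 h.1), add_zero]
    refine (P2_h80 hL hv hw h1 x (s - c) fun ω _ hE => ?_).trans ha1
    obtain ⟨h3, h4⟩ := hE
    rw [hsum ω] at h4
    omega

/-- a label and a sum -/
private theorem lab_sum_h80 (hn : 1 ≤ n) (hX : X ⊆ Icc 1 n) (hU : 1 ≤ U)
    (hG : Geo p R P ex τ) (hL : PL n p R lab X S P ex U L) {v i : ℕ} (hv : v ∈ P)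
    (hi : i ∈ P ∪ ex) (x s : ℕ) :
    L.Pr (fun φ => φ v = x ∧ φ i + φ (p i) = s) ≤ U ^ 4 / n ^ 2 +
      (if i = τ ∧ v = τ then (if x + lab (p τ) = s then U / n else 0) else 0) +
      (if i ∈ ex ∧ v = p i then (if x + lab i = s then U / n else 0) else 0) := by
  obtain ⟨ha1, ha2, -, -, -⟩ := arith_h80 (n := n) hn hU
  have hn0 : (0 : ℝ) < n := by exact_mod_cast hn
  have hU0 : 0 < U := by linarith
  have hu : (0:ℝ) ≤ U / n := by positivity
  rcases kinds_h80 hG hL hi with ⟨hiP, hiτ, hpP, hlt⟩ | ⟨hiτ, hsum⟩ |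
    ⟨hie, hiP, hpP, hpτ, hsum⟩
  · rw [if_neg (fun h => hiτ h.1)]
    have hnex : ¬ (i ∈ ex ∧ v = p i) := fun h =>
      Finset.disjoint_left.mp hG.PR hiP (hG.exR h.1)
    rw [if_neg hnex, add_zero, add_zero]
    by_cases h1 : v = i
    · refine (P2_h80 hL hiP hpP hlt.ne' x (s - x) fun ω _ hE => ?_).trans ha1
      obtain ⟨h3, h4⟩ := hE
      rw [h1] at h3
      omega
    by_cases h2 : v = p i
    · refine (P2_h80 hL hiP hpP hlt.ne' (s - x) x fun ω _ hE => ?_).trans ha1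
      obtain ⟨h3, h4⟩ := hE
      rw [h2] at h3
      omega
    · refine (cond_h80 hL hX hiP (B := (U / n) ^ 3) (by positivity) fun y => ?_).trans ha2
      refine P3_h80 hL hiP hpP hv hlt.ne' (Ne.symm h1) (Ne.symm h2) y (s - y) x
        fun ω _ hE => ?_
      obtain ⟨⟨h3, h4⟩, h5⟩ := hE
      omega
  · have h := lab_det_h80 hn hU hL hv hG.tP hsum x s
    refine h.trans ?_
    have h3 : (if v = τ ∧ x + lab (p τ) = s then U / (n:ℝ) else 0) ≤
        (if i = τ ∧ v = τ then (if x + lab (p τ) = s then U / n else 0) else 0) := by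
      by_cases ha : v = τ ∧ x + lab (p τ) = s
      · rw [if_pos ha, if_pos ⟨hiτ, ha.1⟩, if_pos ha.2]
      · rw [if_neg ha]
        split_ifs <;> first | exact le_rfl | exact hu
    have h4 : (0:ℝ) ≤ (if i ∈ ex ∧ v = p i then (if x + lab i = s then U / n else 0) else 0) := by
      split_ifs <;> first | exact le_rfl | exact hu
    linarith
  · have h := lab_det_h80 hn hU hL hv hpP hsum x s
    refine h.trans ?_
    have h3 : (if v = p i ∧ x + lab i = s then U / (n:ℝ) else 0) ≤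
        (if i ∈ ex ∧ v = p i then (if x + lab i = s then U / n else 0) else 0) := by
      by_cases ha : v = p i ∧ x + lab i = s
      · rw [if_pos ha, if_pos ⟨hie, ha.1⟩, if_pos ha.2]
      · rw [if_neg ha]
        split_ifs <;> first | exact le_rfl | exact hu
    have h4 : (0:ℝ) ≤ (if i = τ ∧ v = τ then (if x + lab (p τ) = s then U / n else 0)
        else 0) := by
      split_ifs <;> first | exact le_rfl | exact hu
    linarith

end H80

theorem piece_bounds {n : ℕ} {p lab : ℕ → ℕ} {R X S P ex : Finset ℕ} {τ K : ℕ} {U : ℝ} {L : FL}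
    (hn : 1 ≤ n) (hX : X ⊆ Icc 1 n) (hS : S ⊆ Win n) (hU : 1 ≤ U) (hK : P.card ≤ K) (hK1 : 1 ≤ K)
    (hG : Geo p R P ex τ) (hL : PL n p R lab X S P ex U L) :
    (∀ x, L.Pr (fun φ => ∃ v ∈ P, φ v = x) ≤ 4 * K ^ 2 * U ^ 4 / n) ∧
    (∀ s, L.Pr (fun φ => ∃ i ∈ P ∪ ex, φ i + φ (p i) = s) ≤ 4 * K ^ 2 * U ^ 4 / n) ∧
    (∀ x x', x ≠ x' → L.Pr (fun φ => (∃ v ∈ P, φ v = x) ∧ ∃ v ∈ P, φ v = x') ≤
      4 * K ^ 2 * U ^ 4 / n ^ 2) ∧
    (∀ x s, L.Pr (fun φ => (∃ v ∈ P, φ v = x) ∧ ∃ i ∈ P ∪ ex, φ i + φ (p i) = s) ≤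
      4 * K ^ 2 * U ^ 4 / n ^ 2 + (if x + lab (p τ) = s then U / n else 0) +
        ∑ r ∈ ex, if x + lab r = s then U / n else 0) ∧
    (∀ s s', s ≠ s' → L.Pr (fun φ => (∃ i ∈ P ∪ ex, φ i + φ (p i) = s) ∧
      ∃ i ∈ P ∪ ex, φ i + φ (p i) = s') ≤ 4 * K ^ 2 * U ^ 4 / n ^ 2) ∧
    (L.Pr (fun φ => ¬ (Set.InjOn φ P ∧ Set.InjOn (fun i => φ i + φ (p i)) (P ∪ ex : Finset ℕ))) ≤
      8 * K ^ 2 * U ^ 4 / n) := by
  obtain ⟨ha1, ha2, ha3, ha4, ha5⟩ := arith_h80 (n := n) hn hU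
  have hn0 : (0 : ℝ) < n := by exact_mod_cast hn
  have hU0 : 0 < U := by linarith
  have hK0 : (1 : ℝ) ≤ K := by exact_mod_cast hK1
  have hPc : (P.card : ℝ) ≤ K := by exact_mod_cast hK
  have hec : ((P ∪ ex).card : ℝ) ≤ 2 * K := by
    have h1 := Finset.card_union_le P ex
    have h2 := hG.ex1
    have h3 : (P ∪ ex).card ≤ 2 * K := by omega
    exact_mod_cast h3
  have hU4 : (0:ℝ) < U ^ 4 := by positivity
  have hA : (0:ℝ) ≤ U ^ 4 / n := by positivity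
  have hB : (0:ℝ) ≤ U ^ 4 / n ^ 2 := by positivity
  have hKK : (K:ℝ) ≤ K ^ 2 := by nlinarith
  refine ⟨?_, ?_, ?_, ?_, ?_, ?_⟩
  · intro x
    refine (Pr_union_h80 hL.nn P (fun v φ => φ v = x)).trans ?_
    refine (Finset.sum_le_sum fun v hv =>
      (P1_h80 hL hv (E := fun φ => φ v = x) x (fun ω _ h => h)).trans ha4).trans ?_
    rw [Finset.sum_const, nsmul_eq_mul]
    calc (P.card : ℝ) * (U ^ 4 / n) ≤ (4 * K ^ 2) * (U ^ 4 / n) :=
          mul_le_mul_of_nonneg_right (by nlinarith) hA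
      _ = 4 * K ^ 2 * U ^ 4 / n := by ring
  · intro s
    refine (Pr_union_h80 hL.nn (P ∪ ex) (fun i φ => φ i + φ (p i) = s)).trans ?_
    refine (Finset.sum_le_sum fun i hi => sum1_h80 hn hX hU hG hL hi s).trans ?_
    rw [Finset.sum_const, nsmul_eq_mul]
    calc ((P ∪ ex).card : ℝ) * (U ^ 4 / n) ≤ (4 * K ^ 2) * (U ^ 4 / n) :=
          mul_le_mul_of_nonneg_right (by nlinarith) hA
      _ = 4 * K ^ 2 * U ^ 4 / n := by ring
  · intro x x' hxx
    have h1 : L.Pr (fun φ => (∃ v ∈ P, φ v = x) ∧ ∃ v ∈ P, φ v = x') ≤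
        L.Pr (fun φ => ∃ q ∈ P ×ˢ P, (φ q.1 = x ∧ φ q.2 = x')) := by
      refine Pr_mono_h80 hL.nn fun ω _ hE => ?_
      obtain ⟨⟨v, hv, h2⟩, w, hw, h3⟩ := hE
      exact ⟨(v, w), Finset.mem_product.mpr ⟨hv, hw⟩, h2, h3⟩
    refine h1.trans ((Pr_union_h80 hL.nn (P ×ˢ P)
      (fun q φ => φ q.1 = x ∧ φ q.2 = x')).trans ?_)
    refine (Finset.sum_le_sum (g := fun _ => U ^ 4 / (n:ℝ) ^ 2) fun q hq => ?_).trans ?_
    · obtain ⟨hq1, hq2⟩ := Finset.mem_product.mp hq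
      by_cases h : q.1 = q.2
      · refine (Pr_zero_h80 hL.nn fun ω _ hE => hxx ?_).trans hB
        rw [← hE.1, ← hE.2, h]
      · exact (P2_h80 hL hq1 hq2 h x x' (fun ω _ hE => hE)).trans ha1
    · rw [Finset.sum_const, nsmul_eq_mul, Finset.card_product, Nat.cast_mul]
      have h2 : (P.card : ℝ) * P.card ≤ 4 * K ^ 2 := by
        have := mul_le_mul hPc hPc (Nat.cast_nonneg _) (by linarith)
        nlinarith
      calc (P.card : ℝ) * P.card * (U ^ 4 / n ^ 2) ≤ (4 * K ^ 2) * (U ^ 4 / n ^ 2) :=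
            mul_le_mul_of_nonneg_right h2 hB
        _ = 4 * K ^ 2 * U ^ 4 / n ^ 2 := by ring
  · intro x s
    have h1 : L.Pr (fun φ => (∃ v ∈ P, φ v = x) ∧ ∃ i ∈ P ∪ ex, φ i + φ (p i) = s) ≤
        L.Pr (fun φ => ∃ q ∈ P ×ˢ (P ∪ ex), (φ q.1 = x ∧ φ q.2 + φ (p q.2) = s)) := by
      refine Pr_mono_h80 hL.nn fun ω _ hE => ?_
      obtain ⟨⟨v, hv, h2⟩, w, hw, h3⟩ := hE
      exact ⟨(v, w), Finset.mem_product.mpr ⟨hv, hw⟩, h2, h3⟩
    refine h1.trans ((Pr_union_h80 hL.nn (P ×ˢ (P ∪ ex))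
      (fun q φ => φ q.1 = x ∧ φ q.2 + φ (p q.2) = s)).trans ?_)
    refine (Finset.sum_le_sum fun q hq => lab_sum_h80 hn hX hU hG hL
      (Finset.mem_product.mp hq).1 (Finset.mem_product.mp hq).2 x s).trans ?_
    rw [Finset.sum_add_distrib, Finset.sum_add_distrib]
    have hS1 : ∑ q ∈ P ×ˢ (P ∪ ex), U ^ 4 / (n:ℝ) ^ 2 ≤ 4 * K ^ 2 * U ^ 4 / n ^ 2 := by
      rw [Finset.sum_const, nsmul_eq_mul, Finset.card_product, Nat.cast_mul]
      have h2 : (P.card : ℝ) * (P ∪ ex).card ≤ 4 * K ^ 2 := by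
        have := mul_le_mul hPc hec (Nat.cast_nonneg _) (by linarith)
        nlinarith
      calc (P.card : ℝ) * (P ∪ ex).card * (U ^ 4 / n ^ 2) ≤ (4 * K ^ 2) * (U ^ 4 / n ^ 2) :=
            mul_le_mul_of_nonneg_right h2 hB
        _ = 4 * K ^ 2 * U ^ 4 / n ^ 2 := by ring
    have hS2 : ∑ q ∈ P ×ˢ (P ∪ ex), (if q.2 = τ ∧ q.1 = τ then
        (if x + lab (p τ) = s then U / (n:ℝ) else 0) else 0) ≤
        (if x + lab (p τ) = s then U / n else 0) := by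
      rw [Finset.sum_eq_single_of_mem (τ, τ) (Finset.mem_product.mpr
        ⟨hG.tP, Finset.mem_union_left _ hG.tP⟩)]
      · rw [if_pos ⟨rfl, rfl⟩]
      · intro q _ hq
        rw [if_neg]
        rintro ⟨h2, h3⟩
        exact hq (Prod.ext h3 h2)
    have hS3 : ∑ q ∈ P ×ˢ (P ∪ ex), (if q.2 ∈ ex ∧ q.1 = p q.2 then
        (if x + lab q.2 = s then U / (n:ℝ) else 0) else 0) ≤
        ∑ r ∈ ex, if x + lab r = s then U / (n:ℝ) else 0 := by
      rw [Finset.sum_product_right]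
      rw [← Finset.sum_subset (Finset.subset_union_right : ex ⊆ P ∪ ex)]
      · refine Finset.sum_le_sum fun r hr => ?_
        rw [Finset.sum_eq_single_of_mem (p r) (hG.exP r hr).1]
        · beta_reduce
          rw [if_pos ⟨hr, rfl⟩]
        · intro v _ hv
          beta_reduce
          rw [if_neg (fun h => hv h.2)]
      · intro r _ hr
        refine Finset.sum_eq_zero fun v _ => ?_
        beta_reduce
        rw [if_neg (fun h => hr h.1)]
    linarith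
  · intro s s' hss
    have h1 : L.Pr (fun φ => (∃ i ∈ P ∪ ex, φ i + φ (p i) = s) ∧
        ∃ i ∈ P ∪ ex, φ i + φ (p i) = s') ≤
        L.Pr (fun φ => ∃ q ∈ (P ∪ ex) ×ˢ (P ∪ ex),
          (φ q.1 + φ (p q.1) = s ∧ φ q.2 + φ (p q.2) = s')) := by
      refine Pr_mono_h80 hL.nn fun ω _ hE => ?_
      obtain ⟨⟨v, hv, h2⟩, w, hw, h3⟩ := hE
      exact ⟨(v, w), Finset.mem_product.mpr ⟨hv, hw⟩, h2, h3⟩
    refine h1.trans ((Pr_union_h80 hL.nn ((P ∪ ex) ×ˢ (P ∪ ex))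
      (fun q φ => φ q.1 + φ (p q.1) = s ∧ φ q.2 + φ (p q.2) = s')).trans ?_)
    refine (Finset.sum_le_sum (g := fun _ => U ^ 4 / (n:ℝ) ^ 2) fun q hq => ?_).trans ?_
    · obtain ⟨hq1, hq2⟩ := Finset.mem_product.mp hq
      by_cases h : q.1 = q.2
      · refine (Pr_zero_h80 hL.nn fun ω _ hE => hss ?_).trans hB
        rw [← hE.1, ← hE.2, h]
      · exact sum2_h80 hn hX hU hG hL hq1 hq2 h s s'
    · rw [Finset.sum_const, nsmul_eq_mul, Finset.card_product, Nat.cast_mul]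
      have h2 : ((P ∪ ex).card : ℝ) * (P ∪ ex).card ≤ 4 * K ^ 2 := by
        have := mul_le_mul hec hec (Nat.cast_nonneg _) (by linarith)
        nlinarith
      calc ((P ∪ ex).card : ℝ) * (P ∪ ex).card * (U ^ 4 / n ^ 2)
          ≤ (4 * K ^ 2) * (U ^ 4 / n ^ 2) := mul_le_mul_of_nonneg_right h2 hB
        _ = 4 * K ^ 2 * U ^ 4 / n ^ 2 := by ring
  · -- not injective
    have h1 : L.Pr (fun φ => ¬ (Set.InjOn φ P ∧
        Set.InjOn (fun i => φ i + φ (p i)) (P ∪ ex : Finset ℕ))) ≤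
        L.Pr (fun φ => ∃ b ∈ (Finset.univ : Finset Bool), (if b then
          (∃ q ∈ (P ×ˢ P).filter (fun q => q.1 ≠ q.2), φ q.1 = φ q.2) else
          ∃ q ∈ ((P ∪ ex) ×ˢ (P ∪ ex)).filter (fun q => q.1 ≠ q.2),
            φ q.1 + φ (p q.1) = φ q.2 + φ (p q.2))) := by
      refine Pr_mono_h80 hL.nn fun ω _ hE => ?_
      rw [not_and_or] at hE
      rcases hE with hE | hE
      · refine ⟨true, Finset.mem_univ _, ?_⟩
        simp only [if_true]
        unfold Set.InjOn at hE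
        push Not at hE
        obtain ⟨a, ha, b, hb, hab, hne⟩ := hE
        exact ⟨(a, b), Finset.mem_filter.mpr ⟨Finset.mem_product.mpr
          ⟨Finset.mem_coe.mp ha, Finset.mem_coe.mp hb⟩, hne⟩, hab⟩
      · refine ⟨false, Finset.mem_univ _, ?_⟩
        simp only [Bool.false_eq_true, if_false]
        unfold Set.InjOn at hE
        push Not at hE
        obtain ⟨a, ha, b, hb, hab, hne⟩ := hE
        exact ⟨(a, b), Finset.mem_filter.mpr ⟨Finset.mem_product.mpr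
          ⟨Finset.mem_coe.mp ha, Finset.mem_coe.mp hb⟩, hne⟩, hab⟩
    refine h1.trans ((Pr_union_h80 hL.nn (Finset.univ : Finset Bool) _).trans ?_)
    rw [Fintype.sum_bool]
    have hT : L.Pr (fun φ => if true = true then
        (∃ q ∈ (P ×ˢ P).filter (fun q => q.1 ≠ q.2), φ q.1 = φ q.2) else
          ∃ q ∈ ((P ∪ ex) ×ˢ (P ∪ ex)).filter (fun q => q.1 ≠ q.2),
            φ q.1 + φ (p q.1) = φ q.2 + φ (p q.2)) ≤ 4 * K ^ 2 * U ^ 4 / n := by
      simp only [if_true]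
      refine (Pr_union_h80 hL.nn _ (fun (q : ℕ × ℕ) φ => φ q.1 = φ q.2)).trans ?_
      refine (Finset.sum_le_sum (g := fun _ => U ^ 4 / (n:ℝ)) fun q hq => ?_).trans ?_
      · obtain ⟨hq0, hne⟩ := Finset.mem_filter.mp hq
        obtain ⟨hq1, hq2⟩ := Finset.mem_product.mp hq0
        refine (cond_h80 hL hX hq1 (B := (U / n) ^ 2) (by positivity) fun x => ?_).trans ha5
        refine P2_h80 hL hq1 hq2 hne x x fun ω _ hE => ?_
        exact ⟨hE.2, hE.1 ▸ hE.2⟩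
      · rw [Finset.sum_const, nsmul_eq_mul]
        have h2 : (((P ×ˢ P).filter (fun q => q.1 ≠ q.2)).card : ℝ) ≤ 4 * K ^ 2 := by
          have h3 : (((P ×ˢ P).filter (fun q => q.1 ≠ q.2)).card : ℝ) ≤ P.card * P.card := by
            have := Finset.card_filter_le (P ×ˢ P) (fun q => q.1 ≠ q.2)
            rw [Finset.card_product] at this
            exact_mod_cast this
          have := mul_le_mul hPc hPc (Nat.cast_nonneg _) (by linarith)
          nlinarith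
        calc (((P ×ˢ P).filter (fun q => q.1 ≠ q.2)).card : ℝ) * (U ^ 4 / n)
            ≤ (4 * K ^ 2) * (U ^ 4 / n) := mul_le_mul_of_nonneg_right h2 hA
          _ = 4 * K ^ 2 * U ^ 4 / n := by ring
    have hF : L.Pr (fun φ => if false = true then
        (∃ q ∈ (P ×ˢ P).filter (fun q => q.1 ≠ q.2), φ q.1 = φ q.2) else
          ∃ q ∈ ((P ∪ ex) ×ˢ (P ∪ ex)).filter (fun q => q.1 ≠ q.2),
            φ q.1 + φ (p q.1) = φ q.2 + φ (p q.2)) ≤ 4 * K ^ 2 * U ^ 4 / n := by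
      simp only [Bool.false_eq_true, if_false]
      refine (Pr_union_h80 hL.nn _
        (fun (q : ℕ × ℕ) φ => φ q.1 + φ (p q.1) = φ q.2 + φ (p q.2))).trans ?_
      refine (Finset.sum_le_sum (g := fun _ => U ^ 4 / (n:ℝ)) fun q hq => ?_).trans ?_
      · obtain ⟨hq0, hne⟩ := Finset.mem_filter.mp hq
        obtain ⟨hq1, hq2⟩ := Finset.mem_product.mp hq0
        have h3 : L.Pr (fun φ => φ q.1 + φ (p q.1) = φ q.2 + φ (p q.2)) ≤
            L.Pr (fun φ => ∃ s ∈ S, (φ q.1 + φ (p q.1) = s ∧ φ q.2 + φ (p q.2) = s)) :=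
          Pr_mono_h80 hL.nn fun ω hw hE => ⟨_, hL.sm ω hw q.1 hq1, rfl, hE.symm⟩
        refine h3.trans ((Pr_union_h80 hL.nn S
          (fun s φ => φ q.1 + φ (p q.1) = s ∧ φ q.2 + φ (p q.2) = s)).trans ?_)
        refine (Finset.sum_le_sum fun s _ =>
          sum2_h80 hn hX hU hG hL hq1 hq2 hne s s).trans ?_
        rw [Finset.sum_const, nsmul_eq_mul]
        have h4 : (S.card : ℝ) ≤ n := by
          have := Finset.card_le_card hS
          unfold Win at this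
          rw [Nat.card_Icc] at this
          have h5 : S.card ≤ n := this.trans (by omega)
          exact_mod_cast h5
        calc (S.card : ℝ) * (U ^ 4 / n ^ 2) ≤ n * (U ^ 4 / n ^ 2) :=
              mul_le_mul_of_nonneg_right h4 hB
          _ = U ^ 4 / n := by field_simp
      · rw [Finset.sum_const, nsmul_eq_mul]
        have h2 : ((((P ∪ ex) ×ˢ (P ∪ ex)).filter (fun q => q.1 ≠ q.2)).card : ℝ) ≤
            4 * K ^ 2 := by
          have h3 : ((((P ∪ ex) ×ˢ (P ∪ ex)).filter (fun q => q.1 ≠ q.2)).card : ℝ) ≤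
              (P ∪ ex).card * (P ∪ ex).card := by
            have := Finset.card_filter_le ((P ∪ ex) ×ˢ (P ∪ ex)) (fun q => q.1 ≠ q.2)
            rw [Finset.card_product] at this
            exact_mod_cast this
          have := mul_le_mul hec hec (Nat.cast_nonneg _) (by linarith)
          nlinarith
        calc ((((P ∪ ex) ×ˢ (P ∪ ex)).filter (fun q => q.1 ≠ q.2)).card : ℝ) * (U ^ 4 / n)
            ≤ (4 * K ^ 2) * (U ^ 4 / n) := mul_le_mul_of_nonneg_right h2 hA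
          _ = 4 * K ^ 2 * U ^ 4 / n := by ring
    calc _ ≤ 4 * (K:ℝ) ^ 2 * U ^ 4 / n + 4 * K ^ 2 * U ^ 4 / n := add_le_add hT hF
      _ = 8 * K ^ 2 * U ^ 4 / n := by ring

end Pool.Agent.SEM
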