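import Pool.Agent.Helper73.SEM.Defs

/-!
# SEM-T2: cutting a tree into small pieces with at most one exit

Proof in words.  FIRST PASS, bottom up.  For `v` from `n-1` down to `0` define (by recursion on `n - v`; all children of `v` are larger
than `v`) the residual size `s v = 1 + ∑_{w child of v, w not marked} s w`, the number of exits
`h v = ∑_{w child} (if w marked then 1 else h w)` and mark `v` iff `v = 0` or `K < s v` or `2 ≤ h v`.
`R₀` = marked vertices.  For `v ∉ R₀` let `top v` = the top vertex of its component of the complement of `R₀`.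
For an unmarked top `t` (parent marked) the piece of `t` has `s t ≤ K` vertices and `h t ≤ 1` exits (marked vertices with parent in the
piece).  Counting: every vertex has a closest marked ancestor-or-self, so `∑_{v marked} s v = n`, hence at most `n/K` vertices are
marked with `K < s v`; every marked `v ≠ 0` has a closest marked strict ancestor, so `∑_{v marked} h v = |R₀| - 1`, hence at most
`|R₀|/2` vertices are marked with `2 ≤ h v`; so `|R₀| ≤ 1 + n/K + |R₀|/2`, i.e. `|R₀| ≤ 2n/K + 2`.
SECOND PASS.  `R = R₀ ∪ {v ∉ R₀ : p v ∈ R₀ and some r ∈ R₀ has p r = v}` (at most one such `v` for every `r ∈ R₀`, so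
`|R| ≤ 2|R₀|`).  The new pieces are subsets of the old ones; if the top `t` of an old piece was added (its unique exit is a child of `t`)
then the pieces of its children have no exits; otherwise the exit `r` of the piece has `p r ≠ t`, so `p (p r)` is in the piece.
New vertices `v ∈ R \ R₀` have `p v ∈ R`, so they are not exits.
If `Pend n p v` (child `u = uc n p v`), then `s u = 1`, `h u = 0`, `s v = 2 ≤ K`, `h v = 0`, so `u, v` are not marked; `v` has no marked
child and `u` has no child, so they are not added in the second pass.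
Proved by helper83.
-/

set_option autoImplicit false

namespace Pool.Agent.SEM

open Finset

/-- downward recursion -/
theorem T2_rec {α : Type} [Inhabited α] (n : ℕ) (F : ℕ → (ℕ → α) → α)
    (hF : ∀ v g g', (∀ w, v < w → w < n → g w = g' w) → F v g = F v g') :
    ∃ g : ℕ → α, ∀ v, v < n → g v = F v g := by
  have key : ∀ j, j ≤ n → ∃ g : ℕ → α, ∀ v, n - j ≤ v → v < n → g v = F v g := by
    intro j
    induction j with
    | zero => intro _; exact ⟨fun _ => default, fun v h1 h2 => by omega⟩
    | succ j ih =>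
      intro hj
      obtain ⟨g, hg⟩ := ih (by omega)
      refine ⟨Function.update g (n - (j + 1)) (F (n - (j + 1)) g), fun v h1 h2 => ?_⟩
      by_cases hv : v = n - (j + 1)
      · subst hv
        rw [Function.update_self]
        apply hF
        intro w hw _
        rw [Function.update_of_ne (by omega)]
      · rw [Function.update_of_ne hv, hg v (by omega) h2]
        apply hF
        intro w hw _
        rw [Function.update_of_ne (by omega)]
  obtain ⟨g, hg⟩ := key n le_rfl
  exact ⟨g, fun v hv => hg v (by omega) hv⟩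

/-- existence of the function `top` -/
theorem T2_top (n : ℕ) (p : ℕ → ℕ) (R : Finset ℕ) (hp : Par n p) (h0 : 0 ∈ R) :
    ∃ top : ℕ → ℕ, ∀ v, v < n → v ∉ R →
      (p v ∈ R → top v = v) ∧ (p v ∉ R → top v = top (p v)) := by
  classical
  have key : ∀ j, ∃ top : ℕ → ℕ, ∀ v, v < j → v < n → v ∉ R →
      (p v ∈ R → top v = v) ∧ (p v ∉ R → top v = top (p v)) := by
    intro j
    induction j with
    | zero => exact ⟨fun v => v, fun v h1 => by omega⟩
    | succ j ih =>
      obtain ⟨top, ht⟩ := ih
      refine ⟨Function.update top j (if p j ∈ R then j else top (p j)), fun v h1 h2 h3 => ?_⟩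
      have hv0 : 0 < v := by
        rcases Nat.eq_zero_or_pos v with h | h
        · subst h; exact absurd h0 h3
        · exact h
      have hpv := hp v hv0 h2
      by_cases hv : v = j
      · subst hv
        rw [Function.update_self, Function.update_of_ne (by omega)]
        constructor
        · intro h; rw [if_pos h]
        · intro h; rw [if_neg h]
      · rw [Function.update_of_ne hv, Function.update_of_ne (by omega)]
        exact ht v (by omega) h2 h3
  obtain ⟨top, ht⟩ := key n
  exact ⟨top, fun v hv => ht v hv hv⟩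

theorem T2_sum (n : ℕ) (p : ℕ → ℕ) (P R : Finset ℕ) (g : ℕ → ℕ) :
    ∑ v ∈ P, ∑ w ∈ (chl n p v).filter (fun w => w ∉ R), g w =
      ∑ w ∈ (range n).filter (fun w => 0 < w ∧ w ∉ R ∧ p w ∈ P), g w := by
  classical
  rw [← Finset.sum_fiberwise_of_maps_to
    (s := (range n).filter (fun w => 0 < w ∧ w ∉ R ∧ p w ∈ P)) (t := P) (g := p)]
  · refine Finset.sum_congr rfl fun v hv => Finset.sum_congr ?_ fun _ _ => rfl
    ext w
    simp only [chl, mem_filter, mem_range]
    constructor
    · rintro ⟨⟨h1, h2, h3⟩, h4⟩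
      subst h3
      exact ⟨⟨h1, h2, h4, hv⟩, rfl⟩
    · rintro ⟨⟨h1, h2, h4, _⟩, h3⟩
      exact ⟨⟨h1, h2, h3⟩, h4⟩
  · intro w hw
    exact (mem_filter.1 hw).2.2.2

/-- the top of a vertex is a real top -/
theorem T2_istop (n : ℕ) (p : ℕ → ℕ) (R : Finset ℕ) (top : ℕ → ℕ) (hp : Par n p) (h0 : 0 ∈ R)
    (ht : ∀ v, v < n → v ∉ R → (p v ∈ R → top v = v) ∧ (p v ∉ R → top v = top (p v))) :
    ∀ v, v < n → v ∉ R → top v < n ∧ top v ∉ R ∧ p (top v) ∈ R ∧ top (top v) = top v := by
  intro v
  induction v using Nat.strong_induction_on with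
  | _ v ih =>
    intro hv hvR
    have hv0 : 0 < v := by
      rcases Nat.eq_zero_or_pos v with h | h
      · subst h; exact absurd h0 hvR
      · exact h
    have hpv := hp v hv0 hv
    by_cases h : p v ∈ R
    · have := (ht v hv hvR).1 h
      rw [this]
      exact ⟨hv, hvR, h, this⟩
    · rw [(ht v hv hvR).2 h]
      exact ih (p v) hpv (by omega) h

/-- refinement of the pieces -/
theorem T2_refine (n : ℕ) (p : ℕ → ℕ) (R R' : Finset ℕ) (top top' : ℕ → ℕ) (hp : Par n p)
    (h0 : 0 ∈ R) (hRR : R ⊆ R')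
    (ht : ∀ v, v < n → v ∉ R → (p v ∈ R → top v = v) ∧ (p v ∉ R → top v = top (p v)))
    (ht' : ∀ v, v < n → v ∉ R' → (p v ∈ R' → top' v = v) ∧ (p v ∉ R' → top' v = top' (p v))) :
    ∀ v, v < n → v ∉ R' → top v = top (top' v) := by
  intro v
  induction v using Nat.strong_induction_on with
  | _ v ih =>
    intro hv hvR
    have hv0 : 0 < v := by
      rcases Nat.eq_zero_or_pos v with h | h
      · subst h; exact absurd (hRR h0) hvR
      · exact h
    have hpv := hp v hv0 hv
    by_cases h : p v ∈ R'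
    · rw [(ht' v hv hvR).1 h]
    · rw [(ht' v hv hvR).2 h, ← ih (p v) hpv (by omega) h]
      exact (ht v hv (fun hh => hvR (hRR hh))).2 (fun hh => h (hRR hh))

/-- value of a recursive quantity at the top of a piece -/
theorem T2_piece (n : ℕ) (p : ℕ → ℕ) (R : Finset ℕ) (top : ℕ → ℕ) (hp : Par n p) (h0 : 0 ∈ R)
    (ht : ∀ v, v < n → v ∉ R → (p v ∈ R → top v = v) ∧ (p v ∉ R → top v = top (p v)))
    (g c : ℕ → ℕ) (hg : ∀ v, v < n → g v = c v + ∑ w ∈ (chl n p v).filter (fun w => w ∉ R), g w)
    (t : ℕ) (htn : t < n) (htR : t ∉ R) (htp : p t ∈ R) :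
    g t = ∑ v ∈ (range n).filter (fun v => v ∉ R ∧ top v = t), c v := by
  classical
  set P := (range n).filter (fun v => v ∉ R ∧ top v = t) with hP
  have htP : t ∈ P := by
    rw [hP, mem_filter, mem_range]
    exact ⟨htn, htR, (ht t htn htR).1 htp⟩
  have h1 : ∑ v ∈ P, g v = ∑ v ∈ P, c v +
      ∑ v ∈ P, ∑ w ∈ (chl n p v).filter (fun w => w ∉ R), g w := by
    rw [← Finset.sum_add_distrib]
    refine Finset.sum_congr rfl fun v hv => ?_
    exact hg v (mem_range.1 (mem_filter.1 hv).1)
  rw [T2_sum] at h1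
  have h2 : (range n).filter (fun w => 0 < w ∧ w ∉ R ∧ p w ∈ P) = P.erase t := by
    ext w
    simp only [mem_filter, mem_range, mem_erase]
    constructor
    · rintro ⟨hw, hw0, hwR, hpw⟩
      rw [hP, mem_filter, mem_range] at hpw
      refine ⟨?_, ?_⟩
      · rintro rfl
        exact hpw.2.1 htp
      · rw [hP, mem_filter, mem_range]
        exact ⟨hw, hwR, by rw [(ht w hw hwR).2 hpw.2.1]; exact hpw.2.2⟩
    · rintro ⟨hwt, hwP⟩
      rw [hP, mem_filter, mem_range] at hwP
      obtain ⟨hw, hwR, hwt'⟩ := hwP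
      have hw0 : 0 < w := by
        rcases Nat.eq_zero_or_pos w with h | h
        · subst h; exact absurd h0 hwR
        · exact h
      refine ⟨hw, hw0, hwR, ?_⟩
      have hpw : p w ∉ R := by
        intro h
        have := (ht w hw hwR).1 h
        exact hwt (this.symm.trans hwt')
      rw [hP, mem_filter, mem_range]
      refine ⟨by have := hp w hw0 hw; omega, hpw, ?_⟩
      rw [← (ht w hw hwR).2 hpw]; exact hwt'
  rw [h2, ← Finset.add_sum_erase P g htP] at h1
  omega

/-- total of a recursive quantity over the marked vertices -/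
theorem T2_total (n : ℕ) (p : ℕ → ℕ) (R : Finset ℕ) (hp : Par n p) (h0 : 0 ∈ R)
    (hR : R ⊆ range n)
    (g c : ℕ → ℕ) (hg : ∀ v, v < n → g v = c v + ∑ w ∈ (chl n p v).filter (fun w => w ∉ R), g w) :
    ∑ v ∈ R, g v = ∑ v ∈ range n, c v := by
  classical
  have h1 : ∑ v ∈ range n, g v = ∑ v ∈ range n, c v +
      ∑ v ∈ range n, ∑ w ∈ (chl n p v).filter (fun w => w ∉ R), g w := by
    rw [← Finset.sum_add_distrib]
    refine Finset.sum_congr rfl fun v hv => ?_
    exact hg v (mem_range.1 hv)
  rw [T2_sum] at h1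
  have h2 : (range n).filter (fun w => 0 < w ∧ w ∉ R ∧ p w ∈ range n) = (range n) \ R := by
    ext w
    simp only [mem_filter, mem_range, mem_sdiff]
    constructor
    · rintro ⟨hw, _, hwR, _⟩
      exact ⟨hw, hwR⟩
    · rintro ⟨hw, hwR⟩
      have hw0 : 0 < w := by
        rcases Nat.eq_zero_or_pos w with h | h
        · subst h; exact absurd h0 hwR
        · exact h
      exact ⟨hw, hw0, hwR, by have := hp w hw0 hw; omega⟩
  rw [h2, ← Finset.sum_sdiff hR] at h1
  omega

theorem cut (n : ℕ) (p : ℕ → ℕ) (K : ℕ) (hp : Par n p) (hn : 0 < n) (hK : 2 ≤ K) :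
    ∃ (R : Finset ℕ) (top : ℕ → ℕ), Dec n p K R top ∧ R.card * K ≤ 4 * n + 4 * K ∧
      ∀ v, Pend n p v → v ∉ R ∧ uc n p v ∉ R := by
  classical
  -- the recursion
  obtain ⟨sh, hsh⟩ := T2_rec (α := ℕ × ℕ) n
    (fun v g => (1 + ∑ w ∈ (chl n p v).filter
        (fun w => ¬ (w = 0 ∨ K < (g w).1 ∨ 2 ≤ (g w).2)), (g w).1,
      ((chl n p v).filter (fun w => w = 0 ∨ K < (g w).1 ∨ 2 ≤ (g w).2)).card +
      ∑ w ∈ (chl n p v).filter
        (fun w => ¬ (w = 0 ∨ K < (g w).1 ∨ 2 ≤ (g w).2)), (g w).2)) (by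
      intro v g g' hgg
      have hc : ∀ w ∈ chl n p v, g w = g' w := by
        intro w hw
        simp only [chl, mem_filter, mem_range] at hw
        apply hgg w _ hw.1
        have := hp w hw.2.1 hw.1
        omega
      have e1 : (chl n p v).filter (fun w => w = 0 ∨ K < (g w).1 ∨ 2 ≤ (g w).2) =
          (chl n p v).filter (fun w => w = 0 ∨ K < (g' w).1 ∨ 2 ≤ (g' w).2) :=
        Finset.filter_congr fun w hw => by rw [hc w hw]
      have e2 : (chl n p v).filter (fun w => ¬ (w = 0 ∨ K < (g w).1 ∨ 2 ≤ (g w).2)) =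
          (chl n p v).filter (fun w => ¬ (w = 0 ∨ K < (g' w).1 ∨ 2 ≤ (g' w).2)) :=
        Finset.filter_congr fun w hw => by rw [hc w hw]
      have e3 : ∑ w ∈ (chl n p v).filter
          (fun w => ¬ (w = 0 ∨ K < (g' w).1 ∨ 2 ≤ (g' w).2)), (g w).1 =
          ∑ w ∈ (chl n p v).filter
          (fun w => ¬ (w = 0 ∨ K < (g' w).1 ∨ 2 ≤ (g' w).2)), (g' w).1 :=
        Finset.sum_congr rfl fun w hw => by rw [hc w (mem_filter.1 hw).1]
      have e4 : ∑ w ∈ (chl n p v).filter
          (fun w => ¬ (w = 0 ∨ K < (g' w).1 ∨ 2 ≤ (g' w).2)), (g w).2 =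
          ∑ w ∈ (chl n p v).filter
          (fun w => ¬ (w = 0 ∨ K < (g' w).1 ∨ 2 ≤ (g' w).2)), (g' w).2 :=
        Finset.sum_congr rfl fun w hw => by rw [hc w (mem_filter.1 hw).1]
      simp only [e1, e2, e3, e4])
  set s : ℕ → ℕ := fun v => (sh v).1 with hs
  set h : ℕ → ℕ := fun v => (sh v).2 with hh
  set R₀ : Finset ℕ := (range n).filter (fun w => w = 0 ∨ K < s w ∨ 2 ≤ h w) with hR₀
  have hR₀s : R₀ ⊆ range n := filter_subset _ _
  have h0 : 0 ∈ R₀ := by
    rw [hR₀, mem_filter, mem_range]; exact ⟨hn, Or.inl rfl⟩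
  have hmem : ∀ w, w < n → (w ∈ R₀ ↔ (w = 0 ∨ K < (sh w).1 ∨ 2 ≤ (sh w).2)) := by
    intro w hw
    rw [hR₀, mem_filter, mem_range]
    exact ⟨fun x => x.2, fun x => ⟨hw, x⟩⟩
  have hchl : ∀ v w, w ∈ chl n p v → w < n := by
    intro v w hw
    simp only [chl, mem_filter, mem_range] at hw
    exact hw.1
  have hsrec : ∀ v, v < n → s v = 1 + ∑ w ∈ (chl n p v).filter (fun w => w ∉ R₀), s w := by
    intro v hv
    have := hsh v hv
    have h1 : s v = 1 + ∑ w ∈ (chl n p v).filter
        (fun w => ¬ (w = 0 ∨ K < (sh w).1 ∨ 2 ≤ (sh w).2)), (sh w).1 := by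
      show (sh v).1 = _
      rw [this]
    rw [h1]
    congr 1
    refine Finset.sum_congr ?_ fun _ _ => rfl
    exact Finset.filter_congr fun w hw => by rw [hmem w (hchl v w hw)]
  have hhrec : ∀ v, v < n → h v = ((chl n p v).filter (fun w => w ∈ R₀)).card +
      ∑ w ∈ (chl n p v).filter (fun w => w ∉ R₀), h w := by
    intro v hv
    have := hsh v hv
    have h1 : h v = ((chl n p v).filter (fun w => w = 0 ∨ K < (sh w).1 ∨ 2 ≤ (sh w).2)).card +
        ∑ w ∈ (chl n p v).filter
        (fun w => ¬ (w = 0 ∨ K < (sh w).1 ∨ 2 ≤ (sh w).2)), (sh w).2 := by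
      show (sh v).2 = _
      rw [this]
    rw [h1]
    congr 1
    · congr 1
      exact Finset.filter_congr fun w hw => by rw [hmem w (hchl v w hw)]
    · refine Finset.sum_congr ?_ fun _ _ => rfl
      exact Finset.filter_congr fun w hw => by rw [hmem w (hchl v w hw)]
  -- totals
  have htots : ∑ v ∈ R₀, s v = n := by
    rw [T2_total n p R₀ hp h0 hR₀s s (fun _ => 1) hsrec]
    simp
  have hexit : ∑ v ∈ range n, ((chl n p v).filter (fun w => w ∈ R₀)).card = R₀.card - 1 := by
    rw [← Finset.card_erase_of_mem h0]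
    rw [Finset.card_eq_sum_card_fiberwise (s := R₀.erase 0) (t := range n) (f := p)]
    · refine Finset.sum_congr rfl fun v hv => ?_
      congr 1
      ext w
      simp only [chl, mem_filter, mem_range, mem_erase]
      constructor
      · rintro ⟨⟨h1, h2, h3⟩, h4⟩
        exact ⟨⟨by omega, h4⟩, h3⟩
      · rintro ⟨⟨h1, h2⟩, h3⟩
        exact ⟨⟨mem_range.1 (hR₀s h2), by omega, h3⟩, h2⟩
    · intro w hw
      have hw' : w ∈ R₀.erase 0 := hw
      rw [mem_erase] at hw'
      have h1 := mem_range.1 (hR₀s hw'.2)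
      have := hp w (by omega) h1
      simp only [coe_range, Set.mem_Iio]
      omega
  have htoth : ∑ v ∈ R₀, h v = R₀.card - 1 := by
    rw [T2_total n p R₀ hp h0 hR₀s h (fun v => ((chl n p v).filter (fun w => w ∈ R₀)).card)
      hhrec, hexit]
  -- counting
  have hcard : R₀.card * K + K ≤ 2 * n + 2 * K := by
    set a := (R₀.filter (fun v => K < s v)).card with ha
    set b := (R₀.filter (fun v => 2 ≤ h v)).card with hb
    have h1 : a * K ≤ n := by
      calc a * K = ∑ v ∈ R₀.filter (fun v => K < s v), K := by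
            rw [Finset.sum_const, smul_eq_mul]
        _ ≤ ∑ v ∈ R₀.filter (fun v => K < s v), s v :=
            Finset.sum_le_sum fun v hv => (mem_filter.1 hv).2.le
        _ ≤ ∑ v ∈ R₀, s v := Finset.sum_le_sum_of_subset (filter_subset _ _)
        _ = n := htots
    have h2 : b * 2 ≤ R₀.card - 1 := by
      calc b * 2 = ∑ v ∈ R₀.filter (fun v => 2 ≤ h v), 2 := by
            rw [Finset.sum_const, smul_eq_mul]
        _ ≤ ∑ v ∈ R₀.filter (fun v => 2 ≤ h v), h v :=
            Finset.sum_le_sum fun v hv => (mem_filter.1 hv).2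
        _ ≤ ∑ v ∈ R₀, h v := Finset.sum_le_sum_of_subset (filter_subset _ _)
        _ = R₀.card - 1 := htoth
    have h3 : R₀.card ≤ 1 + a + b := by
      have : R₀ ⊆ ({0} ∪ R₀.filter (fun v => K < s v)) ∪ R₀.filter (fun v => 2 ≤ h v) := by
        intro v hv
        have h4 := (mem_filter.1 hv).2
        simp only [mem_union, mem_singleton, mem_filter]
        rcases h4 with h4 | h4 | h4
        · exact Or.inl (Or.inl h4)
        · exact Or.inl (Or.inr ⟨hv, h4⟩)
        · exact Or.inr ⟨hv, h4⟩
      calc R₀.card ≤ _ := Finset.card_le_card this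
        _ ≤ ({0} ∪ R₀.filter (fun v => K < s v)).card + b := Finset.card_union_le _ _
        _ ≤ (({0} : Finset ℕ).card + a) + b := by gcongr; exact Finset.card_union_le _ _
        _ = 1 + a + b := by simp
    have h5 : R₀.card ≤ 2 * a + 1 := by omega
    nlinarith [Nat.mul_le_mul_right K h5]
  -- second pass
  set A : Finset ℕ := (range n).filter (fun v => v ∉ R₀ ∧ p v ∈ R₀ ∧ ∃ r ∈ R₀, 0 < r ∧ p r = v)
    with hA
  have hAcard : A.card ≤ R₀.card := by
    calc A.card ≤ (R₀.image p).card := by
          apply Finset.card_le_card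
          intro v hv
          obtain ⟨r, hr, _, hrv⟩ := (mem_filter.1 hv).2.2.2
          exact mem_image.2 ⟨r, hr, hrv⟩
      _ ≤ R₀.card := Finset.card_image_le
  set R := R₀ ∪ A with hRdef
  have hRR : R₀ ⊆ R := subset_union_left
  obtain ⟨top₀, ht₀⟩ := T2_top n p R₀ hp h0
  obtain ⟨top, ht⟩ := T2_top n p R hp (hRR h0)
  have href := T2_refine n p R₀ R top₀ top hp h0 hRR ht₀ ht
  have htop₀ := T2_istop n p R₀ top₀ hp h0 ht₀
  -- sizes
  have hsize₀ : ∀ t, ((range n).filter fun v => v ∉ R₀ ∧ top₀ v = t).card ≤ K := by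
    intro t
    rcases Finset.eq_empty_or_nonempty ((range n).filter fun v => v ∉ R₀ ∧ top₀ v = t) with
      he | ⟨v, hv⟩
    · rw [he]; simp
    · rw [mem_filter, mem_range] at hv
      obtain ⟨hv1, hv2, hv3⟩ := hv
      obtain ⟨k1, k2, k3, k4⟩ := htop₀ v hv1 hv2
      rw [hv3] at k1 k2 k3
      have := T2_piece n p R₀ top₀ hp h0 ht₀ s (fun _ => 1) hsrec t k1 k2 k3
      rw [Finset.sum_const, smul_eq_mul, mul_one] at this
      rw [← this]
      by_contra hc
      apply k2
      rw [hmem t k1]
      right; left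
      exact not_le.1 hc
  have hexit₀ : ∀ r ∈ R₀, ∀ r' ∈ R₀, 0 < r → 0 < r' → p r ∉ R₀ → p r' ∉ R₀ →
      top₀ (p r) = top₀ (p r') → r = r' := by
    intro r hr r' hr' hr0 hr'0 hpr hpr' htt
    have hrn := mem_range.1 (hR₀s hr)
    have hr'n := mem_range.1 (hR₀s hr')
    have hprn : p r < n := by have := hp r hr0 hrn; omega
    have hpr'n : p r' < n := by have := hp r' hr'0 hr'n; omega
    obtain ⟨k1, k2, k3, k4⟩ := htop₀ (p r) hprn hpr
    have h1 := T2_piece n p R₀ top₀ hp h0 ht₀ h
      (fun v => ((chl n p v).filter (fun w => w ∈ R₀)).card) hhrec (top₀ (p r)) k1 k2 k3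
    have h2 : h (top₀ (p r)) ≤ 1 := by
      by_contra hc
      apply k2
      rw [hmem _ k1]
      right; right
      have : 2 ≤ h (top₀ (p r)) := by omega
      exact this
    by_contra hne
    set P := (range n).filter (fun v => v ∉ R₀ ∧ top₀ v = top₀ (p r)) with hP
    have h3 : ∑ v ∈ P, ((chl n p v).filter (fun w => w ∈ R₀)).card =
        (P.biUnion fun v => (chl n p v).filter (fun w => w ∈ R₀)).card := by
      rw [Finset.card_biUnion]
      intro v hv w hw hvw
      rw [Function.onFun, Finset.disjoint_left]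
      intro x hx hx'
      simp only [chl, mem_filter] at hx hx'
      exact hvw (hx.1.2.2.symm.trans hx'.1.2.2)
    have h4 : ({r, r'} : Finset ℕ) ⊆ P.biUnion fun v => (chl n p v).filter (fun w => w ∈ R₀) := by
      intro x hx
      rw [mem_insert, mem_singleton] at hx
      rw [mem_biUnion]
      rcases hx with rfl | rfl
      · refine ⟨p x, ?_, ?_⟩
        · rw [hP, mem_filter, mem_range]; exact ⟨hprn, hpr, rfl⟩
        · simp only [chl, mem_filter, mem_range]
          exact ⟨⟨hrn, hr0, trivial⟩, hr⟩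
      · refine ⟨p x, ?_, ?_⟩
        · rw [hP, mem_filter, mem_range]; exact ⟨hpr'n, hpr', htt.symm⟩
        · simp only [chl, mem_filter, mem_range]
          exact ⟨⟨hr'n, hr'0, trivial⟩, hr'⟩
    have h5 := Finset.card_le_card h4
    rw [Finset.card_pair hne, ← h3, ← h1] at h5
    omega
  have hnotA : ∀ r ∈ R, 0 < r → p r ∉ R → r ∈ R₀ := by
    intro r hr _ hpr
    rw [hRdef, mem_union] at hr
    rcases hr with hr | hr
    · exact hr
    · exfalso
      apply hpr
      exact hRR (mem_filter.1 hr).2.2.1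
  refine ⟨R, top, ?_, ?_, ?_⟩
  · refine ⟨?_, hRR h0, ?_, ?_, ?_, ?_, ?_⟩
    · rw [hRdef]; exact union_subset hR₀s (filter_subset _ _)
    · intro v hv hvR h; exact (ht v hv hvR).1 h
    · intro v hv hvR h; exact (ht v hv hvR).2 h
    · intro t
      refine le_trans (Finset.card_le_card ?_) (hsize₀ (top₀ t))
      intro v hv
      rw [mem_filter, mem_range] at hv ⊢
      refine ⟨hv.1, fun hh => hv.2.1 (hRR hh), ?_⟩
      rw [href v hv.1 hv.2.1, hv.2.2]
    · intro r hr r' hr' hr0 hr'0 hpr hpr' htt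
      have hrR := hnotA r hr hr0 hpr
      have hr'R := hnotA r' hr' hr'0 hpr'
      have hrn := mem_range.1 (hR₀s hrR)
      have hr'n := mem_range.1 (hR₀s hr'R)
      have hprn : p r < n := by have := hp r hr0 hrn; omega
      have hpr'n : p r' < n := by have := hp r' hr'0 hr'n; omega
      refine hexit₀ r hrR r' hr'R hr0 hr'0 (fun hh => hpr (hRR hh)) (fun hh => hpr' (hRR hh)) ?_
      rw [href (p r) hprn hpr, href (p r') hpr'n hpr', htt]
    · intro r hr hr0 hpr
      have hrR := hnotA r hr hr0 hpr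
      have hrn := mem_range.1 (hR₀s hrR)
      have hprr := hp r hr0 hrn
      have hprn : p r < n := by omega
      have hpr₀ : p r ∉ R₀ := fun hh => hpr (hRR hh)
      have hpr0 : 0 < p r := by
        rcases Nat.eq_zero_or_pos (p r) with h | h
        · rw [h] at hpr₀; exact absurd h0 hpr₀
        · exact h
      have hpp := hp (p r) hpr0 hprn
      have hprA : p r ∉ A := fun hh => hpr (by rw [hRdef]; exact mem_union_right _ hh)
      have hppR₀ : p (p r) ∉ R₀ := by
        intro hh
        apply hprA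
        rw [hA, mem_filter, mem_range]
        exact ⟨hprn, hpr₀, hh, r, hrR, hr0, rfl⟩
      intro hpp2
      rw [hRdef, mem_union] at hpp2
      rcases hpp2 with hpp2 | hpp2
      · exact hppR₀ hpp2
      · rw [hA, mem_filter, mem_range] at hpp2
        obtain ⟨g1, g2, g3, r₁, hr₁, hr₁0, hr₁p⟩ := hpp2
        have e1 : top₀ (p r) = p (p r) := by
          rw [(ht₀ (p r) hprn hpr₀).2 hppR₀, (ht₀ (p (p r)) g1 g2).1 g3]
        have e2 : top₀ (p r₁) = p (p r) := by
          rw [hr₁p, (ht₀ (p (p r)) g1 g2).1 g3]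
        have e3 : r = r₁ := hexit₀ r hrR r₁ hr₁ hr0 hr₁0 hpr₀ (by rw [hr₁p]; exact g2)
          (e1.trans e2.symm)
        rw [← e3] at hr₁p
        omega
  · have : R.card ≤ R₀.card + R₀.card := by
      calc R.card ≤ R₀.card + A.card := Finset.card_union_le _ _
        _ ≤ _ := by omega
    nlinarith [Nat.mul_le_mul_right K this]
  · rintro v ⟨hv0, hvn, u, hu, hu'⟩
    have huc : uc n p v = u := by simp [uc, hu]
    rw [huc]
    have humem : u ∈ chl n p v := by rw [hu]; exact mem_singleton_self u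
    have humem' := humem
    simp only [chl, mem_filter, mem_range] at humem'
    obtain ⟨hun, hu0, hpu⟩ := humem'
    have hsu : s u = 1 := by rw [hsrec u hun, hu']; simp
    have hhu : h u = 0 := by rw [hhrec u hun, hu']; simp
    have huR : u ∉ R₀ := by
      rw [hR₀, mem_filter]
      rintro ⟨_, h1 | h1 | h1⟩
      · omega
      · rw [hsu] at h1; omega
      · rw [hhu] at h1; omega
    have hf1 : (chl n p v).filter (fun w => w ∉ R₀) = {u} := by
      rw [hu, Finset.filter_singleton, if_pos huR]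
    have hf2 : (chl n p v).filter (fun w => w ∈ R₀) = ∅ := by
      rw [hu, Finset.filter_singleton, if_neg huR]
    have hsv : s v = 2 := by rw [hsrec v hvn, hf1, Finset.sum_singleton, hsu]
    have hhv : h v = 0 := by rw [hhrec v hvn, hf1, hf2, Finset.sum_singleton, hhu]; simp
    have hvR : v ∉ R₀ := by
      rw [hR₀, mem_filter]
      rintro ⟨_, h1 | h1 | h1⟩
      · omega
      · rw [hsv] at h1; omega
      · rw [hhv] at h1; omega
    constructor
    · intro hh
      rw [hRdef, mem_union] at hh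
      rcases hh with hh | hh
      · exact hvR hh
      · obtain ⟨r, hr, hr0, hrv⟩ := (mem_filter.1 hh).2.2.2
        have : r ∈ chl n p v := by
          simp only [chl, mem_filter]
          exact ⟨hR₀s hr, hr0, hrv⟩
        rw [hu, mem_singleton] at this
        rw [this] at hr
        exact huR hr
    · intro hh
      rw [hRdef, mem_union] at hh
      rcases hh with hh | hh
      · exact huR hh
      · obtain ⟨r, hr, hr0, hrv⟩ := (mem_filter.1 hh).2.2.2
        have : r ∈ chl n p u := by
          simp only [chl, mem_filter]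
          exact ⟨hR₀s hr, hr0, hrv⟩
        rw [hu'] at this
        simp at this

end Pool.Agent.SEM
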