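import Mathlib

/-!
# SEM-MM: minimax for finitely many affine functions on a compact convex set

Proof in words: as in `Pool/Agent/Helper70/Minimax.lean` (`exists_mixed`): the image of `Q` under `q ↦ (a j + ∑ M j i q i)_j` is compact and
convex; if it is disjoint from the closed convex cone `{z : z j ≤ 0 for all j}`, a separating functional (`geometric_hahn_banach_compact_closed`)
has nonnegative coefficients `l` (the cone is unbounded downwards) and `∑ l j z j > 0` on the image, contradicting `h`.
-/

set_option autoImplicit false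

namespace Pool.Agent.SEM

open Finset

theorem minimax {ι J : Type} [Fintype ι] [Fintype J] (Q : Set (ι → ℝ)) (hQ : Convex ℝ Q)
    (hQc : IsCompact Q) (hQn : Q.Nonempty) (a : J → ℝ) (M : J → ι → ℝ)
    (h : ∀ l : J → ℝ, (∀ j, 0 ≤ l j) → ∃ q ∈ Q, ∑ j, l j * (a j + ∑ i, M j i * q i) ≤ 0) :
    ∃ q ∈ Q, ∀ j, a j + ∑ i, M j i * q i ≤ 0 := by
  classical
  set F : (ι → ℝ) → (J → ℝ) := fun q j => a j + ∑ i, M j i * q i with hF
  have hFc : Continuous F := by
    refine continuous_pi fun j => ?_
    refine continuous_const.add ?_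
    exact continuous_finsetSum _ fun i _ => continuous_const.mul (continuous_apply i)
  set S : Set (J → ℝ) := F '' Q with hS
  set B : Set (J → ℝ) := {z | ∀ j, z j ≤ 0} with hB
  have hS1 : Convex ℝ S := by
    rintro _ ⟨q, hq, rfl⟩ _ ⟨r, hr, rfl⟩ x y hx hy hxy
    refine ⟨x • q + y • r, hQ hq hr hx hy hxy, ?_⟩
    funext j
    simp only [hF, Pi.add_apply, Pi.smul_apply, smul_eq_mul]
    have h1 : ∑ i, M j i * (x * q i + y * r i) = x * ∑ i, M j i * q i + y * ∑ i, M j i * r i := by
      rw [Finset.mul_sum, Finset.mul_sum, ← Finset.sum_add_distrib]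
      refine Finset.sum_congr rfl fun i _ => ?_
      ring
    rw [h1]
    have h2 : a j = x * a j + y * a j := by rw [← add_mul, hxy, one_mul]
    nlinarith [h2]
  have hS2 : IsCompact S := hQc.image hFc
  have hB1 : Convex ℝ B := by
    intro z hz w hw x y hx hy hxy j
    simp only [Pi.add_apply, Pi.smul_apply, smul_eq_mul]
    have h1 := mul_nonneg hx (neg_nonneg.mpr (hz j))
    have h2 := mul_nonneg hy (neg_nonneg.mpr (hw j))
    nlinarith
  have hB2 : IsClosed B := by
    have : B = ⋂ j, {z : J → ℝ | z j ≤ 0} := by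
      ext z; simp [hB]
    rw [this]
    exact isClosed_iInter fun j => isClosed_le (continuous_apply j) continuous_const
  by_cases hd : Disjoint S B
  · exfalso
    obtain ⟨f, u, v, hfu, huv, hvf⟩ := geometric_hahn_banach_compact_closed hS1 hS2 hB1 hB2 hd
    have hfexp : ∀ z : J → ℝ, f z = ∑ j, z j * f (Pi.single j 1) := by
      intro z
      have : z = ∑ j, z j • (Pi.single j (1 : ℝ) : J → ℝ) := by
        funext k
        simp [Finset.sum_apply, Pi.single_apply]
      conv_lhs => rw [this]
      rw [map_sum]
      simp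
    have hv0 : v < 0 := by
      have := hvf 0 (by intro j; exact le_refl _)
      simpa using this
    have hfj : ∀ j, f (Pi.single j 1) ≤ 0 := by
      intro j
      by_contra hneg
      push Not at hneg
      set s : ℝ := (-v) / f (Pi.single j 1) with hs
      have hs0 : 0 ≤ s := div_nonneg (by linarith) hneg.le
      have hmem : (-s) • (Pi.single j (1 : ℝ) : J → ℝ) ∈ B := by
        intro k
        by_cases hk : k = j
        · subst hk
          simp [hs0]
        · simp [Pi.single_apply, hk]
      have h1 := hvf _ hmem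
      rw [map_smul, smul_eq_mul] at h1
      have h2 : s * f (Pi.single j 1) = -v := by
        rw [hs]; field_simp
      linarith
    obtain ⟨q, hq, hq0⟩ := h (fun j => - f (Pi.single j 1)) (fun j => by have := hfj j; linarith)
    have h3 := hfu (F q) ⟨q, hq, rfl⟩
    rw [hfexp] at h3
    have h4 : ∑ j, -f (Pi.single j 1) * (a j + ∑ i, M j i * q i) = - ∑ j, F q j * f (Pi.single j 1) := by
      rw [← Finset.sum_neg_distrib]
      refine Finset.sum_congr rfl fun j _ => ?_
      simp only [hF]
      ring
    rw [h4] at hq0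
    linarith
  · rw [Set.not_disjoint_iff] at hd
    obtain ⟨z, ⟨q, hq, rfl⟩, hz⟩ := hd
    exact ⟨q, hq, hz⟩

end Pool.Agent.SEM
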