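import Pool.Agent.Helper73.SEM.Defs

/-!
# SEM-T1: a tree in parent form

Proof in words.  Order the vertices by (distance from `r`, arbitrary tie-break): an equivalence `e : V ≃ Fin (card V)` with
`dist r u < dist r v → e u < e v` and `e r = 0`.  Every `v ≠ r` has exactly one neighbour at distance `dist r v - 1` (in a tree adjacent
vertices have distances differing by exactly one, and two lower neighbours would give a cycle; see `IsTree.dist_ne_of_adj`,
`IsTree.existsUnique_path`); `p (e v) = e (this neighbour)`.
Alternatively by induction on the number of vertices (remove a leaf `≠ r`, which gets the last number; see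
`SimpleGraph.IsTree.induct...`/`exists_vert_degree_one_of_nontrivial`).
-/

set_option autoImplicit false

namespace Pool.Agent.SEM

open Finset

/-- the lower neighbour is the penultimate vertex of every path from the root -/
theorem h76_lower {V : Type*} (G : SimpleGraph V) (hG : G.IsTree) (r : V) {v w : V} {q : G.Walk r v}
    (hq : q.IsPath) (hadj : G.Adj v w) (hd : G.dist r w < G.dist r v) : q.penultimate = w := by
  classical
  obtain ⟨p, hp, hp'⟩ := hG.connected.exists_path_of_dist r w
  have h1 : v ∉ p.support := by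
    intro h
    have h2 := SimpleGraph.dist_le (p.takeUntil v h)
    have h3 := p.length_takeUntil_le_length h
    omega
  have h2 : w ∈ q.support :=
    hG.isAcyclic.mem_support_of_ne_mem_support_of_adj_of_isPath hq hp hadj h1
  rw [hG.isAcyclic.path_concat hp hq hadj.symm h2, SimpleGraph.Walk.penultimate_concat]

theorem h76_lower_unique {V : Type*} (G : SimpleGraph V) (hG : G.IsTree) (r : V) {v w w' : V}
    (hadj : G.Adj v w) (hd : G.dist r w < G.dist r v)
    (hadj' : G.Adj v w') (hd' : G.dist r w' < G.dist r v) : w = w' := by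
  obtain ⟨q, hq, _⟩ := hG.connected.exists_path_of_dist r v
  rw [← h76_lower G hG r hq hadj hd, h76_lower G hG r hq hadj' hd']

theorem h76_lower_exists {V : Type*} (G : SimpleGraph V) (hG : G.IsTree) (r : V) {v : V}
    (hv : v ≠ r) : ∃ w, G.Adj v w ∧ G.dist r w < G.dist r v := by
  obtain ⟨q, hq, hql⟩ := hG.connected.exists_path_of_dist r v
  have hn : ¬ q.Nil := fun h => hv h.eq.symm
  refine ⟨q.penultimate, (q.adj_penultimate hn).symm, ?_⟩
  have h1 := SimpleGraph.dist_le q.dropLast
  have h2 := SimpleGraph.Walk.length_dropLast_add_one hn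
  omega

theorem tree_parent {V : Type*} [Fintype V] (G : SimpleGraph V) (hG : G.IsTree) (r : V) :
    ∃ (e : V ≃ Fin (Fintype.card V)) (p : ℕ → ℕ), Par (Fintype.card V) p ∧ (e r : ℕ) = 0 ∧
      ∀ u v, G.Adj u v ↔ (0 < (e v : ℕ) ∧ p (e v) = (e u : ℕ)) ∨ (0 < (e u : ℕ) ∧ p (e u) = (e v : ℕ)) := by
  classical
  set e0 : V ≃ Fin (Fintype.card V) := Fintype.equivFin V with he0
  set g : Fin (Fintype.card V) → ℕ := fun i => G.dist r (e0.symm i) with hg
  set σ := Tuple.sort g with hσ
  have hmono : Monotone (g ∘ σ) := Tuple.monotone_sort g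
  set e : V ≃ Fin (Fintype.card V) := e0.trans σ.symm with he
  have hdist : ∀ i, G.dist r (e.symm i) = (g ∘ σ) i := fun i => by
    simp [he, hg]
  have hlt : ∀ u v, G.dist r u < G.dist r v → e u < e v := by
    intro u v h
    by_contra hc
    have h1 := hmono (not_lt.1 hc)
    rw [← hdist, ← hdist, Equiv.symm_apply_apply, Equiv.symm_apply_apply] at h1
    omega
  have hr0 : (e r : ℕ) = 0 := by
    by_contra hc
    have hn : 0 < Fintype.card V := Fintype.card_pos_iff.2 ⟨r⟩
    set w := e.symm ⟨0, hn⟩ with hw
    have h1 : e w = ⟨0, hn⟩ := by rw [hw, Equiv.apply_symm_apply]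
    have hwr : w ≠ r := by
      intro h
      apply hc
      rw [← h, h1]
    have h2 : G.dist r r < G.dist r w := by
      rw [SimpleGraph.dist_self]
      exact hG.connected.pos_dist_of_ne (Ne.symm hwr)
    have h3 := hlt _ _ h2
    rw [h1, Fin.lt_def] at h3
    simp at h3
  have hpos : ∀ v, v ≠ r → 0 < (e v : ℕ) := by
    intro v hv
    rcases Nat.eq_zero_or_pos (e v : ℕ) with h | h
    · exact absurd (e.injective (Fin.ext (h.trans hr0.symm))) hv
    · exact h
  have hex : ∀ v : V, ∃ w, v ≠ r → G.Adj v w ∧ G.dist r w < G.dist r v := by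
    intro v
    by_cases hv : v = r
    · exact ⟨r, fun h => absurd hv h⟩
    · obtain ⟨w, hw⟩ := h76_lower_exists G hG r hv
      exact ⟨w, fun _ => hw⟩
  choose par hpar using hex
  set p : ℕ → ℕ := fun i => if h : i < Fintype.card V then (e (par (e.symm ⟨i, h⟩)) : ℕ) else 0 with hp
  have hpe : ∀ v, p (e v) = (e (par v) : ℕ) := by
    intro v
    simp only [hp]
    rw [dif_pos (e v).2]
    simp
  refine ⟨e, p, ?_, hr0, ?_⟩
  · intro i hi0 hin
    have h1 : (e (e.symm ⟨i, hin⟩) : ℕ) = i := by rw [Equiv.apply_symm_apply]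
    have h2 : e.symm ⟨i, hin⟩ ≠ r := by
      intro h
      rw [h, hr0] at h1
      omega
    have h3 := (hpar _ h2).2
    have h4 := hlt _ _ h3
    have h5 := hpe (e.symm ⟨i, hin⟩)
    rw [h1] at h5
    rw [h5]
    have h6 := Fin.lt_def.1 h4
    rw [h1] at h6
    exact h6
  · have key : ∀ u v, G.Adj u v → G.dist r u < G.dist r v → 0 < (e v : ℕ) ∧ p (e v) = (e u : ℕ) := by
      intro u v hadj hd
      have hv : v ≠ r := by
        rintro rfl
        rw [SimpleGraph.dist_self] at hd
        omega
      refine ⟨hpos v hv, ?_⟩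
      rw [hpe]
      obtain ⟨h1, h2⟩ := hpar v hv
      rw [h76_lower_unique G hG r h1 h2 hadj.symm hd]
    have key2 : ∀ u v, 0 < (e v : ℕ) ∧ p (e v) = (e u : ℕ) → G.Adj u v := by
      rintro u v ⟨h1, h2⟩
      have hv : v ≠ r := by
        rintro rfl
        omega
      rw [hpe] at h2
      have h3 : par v = u := e.injective (Fin.ext h2)
      rw [← h3]
      exact (hpar v hv).1.symm
    intro u v
    constructor
    · intro hadj
      rcases hG.dist_eq_dist_add_one_of_adj r hadj with h | h
      · exact Or.inr (key v u hadj.symm (by omega))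
      · exact Or.inl (key u v hadj (by omega))
    · rintro (h | h)
      · exact key2 u v h
      · exact (key2 v u h).symm

end Pool.Agent.SEM
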