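import Pool.Agent.Helper73.SEM.Defs

/-!
# SEM-KX: row sums and diagonal sums of the hexagon kernel

`hexa n x y = max(|2x-(n+1)|, |2y-(n+1)|, |2(x+y)-2(n+1)|)`.  For `x ∈ [1,n]` the sum over the `y ∈ [1,n]` with `x+y` in the window is
`n²/2 + O(n)`, and for every `s` in the window the sum over `x + y = s` is `n²/2 + O(n)` (numerically the errors are `≤ n`).

Proof in words.  With `X = 2x-(n+1)`, `Y = 2y-(n+1)` we have `2(x+y)-2(n+1) = X+Y`.  By the symmetry `x ↦ n+1-x`, `y ↦ n+1-y` (which maps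
the window to itself up to one element, each term is `≤ n`) assume `X ≤ 0`, put `a = -X = n+1-2x ≥ 0`.  The condition on `y` is
`-n ≤ X+Y ≤ n` up to one element, i.e. `Y ≥ a - n`.
`|X+Y| = a - Y` for `Y ≤ a`; so the maximum is `a - Y` for `Y ≤ 0`,
`max(a, Y, |Y-a|) = a` for `0 ≤ Y ≤ a`, `Y` for `Y ≥ a`.  Sum over `Y` in steps of 2: `∑_{Y=a-n}^{0}(a-Y) + a·a/2 + ∑_{Y=a}^{n} Y`
`≈ (1/2)[(a(n-a) + (n-a)²/2) + a² + (n²-a²)/2] = (1/2)[ a n - a² + n²/2 - a n + a²/2 + a² + n²/2 - a²/2 ] = n²/2`.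
(For `a ≤ n` always.)  Diagonal: fix `s`, `D = 2s - 2(n+1)`, `|D| ≤ n`, by symmetry `D ≥ 0`: `Y = D - X`, `X ∈ [D-n, n]`, the maximum is
`X` for `X ≥ D`, `D` for `0 ≤ X ≤ D`, `D - X` for `X ≤ 0`: `(1/2)[(n²-D²)/2 + D² + D(n-D) + (n-D)²/2] = n²/2`.
(Any proof is fine, e.g. exact evaluation by `Finset.sum_range_id_mul_two`-type formulas on three intervals, or a telescoping/induction
argument; the constant 2 gives room.)
-/

set_option autoImplicit false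

namespace Pool.Agent.SEM

open Finset

/-- the hexagon kernel -/
noncomputable def hexa (n x y : ℕ) : ℝ :=
  max |2 * (x : ℝ) - (n + 1)| (max |2 * (y : ℝ) - (n + 1)| |2 * ((x : ℝ) + y) - 2 * (n + 1)|)

theorem hexa_two (n x y : ℕ) : 2 * hexa n x y =
    |2 * (x : ℝ) - (n + 1)| + |2 * (y : ℝ) - (n + 1)| + |2 * ((x : ℝ) + y) - 2 * (n + 1)| := by
  have key : ∀ a b : ℝ, 2 * max |a| (max |b| |a + b|) = |a| + |b| + |a + b| := by
    intro a b
    rcases abs_cases a with h1 | h1 <;> rcases abs_cases b with h2 | h2 <;>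
      rcases abs_cases (a + b) with h3 | h3 <;>
      rcases max_cases |b| |a + b| with h4 | h4 <;>
      rcases max_cases |a| (max |b| |a + b|) with h5 | h5 <;> linarith
  unfold hexa
  have h := key (2 * (x : ℝ) - (n + 1)) (2 * (y : ℝ) - (n + 1))
  have e : 2 * (x : ℝ) - (n + 1) + (2 * (y : ℝ) - (n + 1)) = 2 * ((x : ℝ) + y) - 2 * (n + 1) := by
    ring
  rw [e] at h
  exact h

theorem step_up53 (t : ℤ) : 4 * |t| ≤ (t + 1) * |t + 1| - (t - 1) * |t - 1| := by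
  rcases lt_trichotomy t 0 with h | h | h
  · rw [abs_of_neg h, abs_of_nonpos (by omega : t + 1 ≤ 0), abs_of_neg (by omega : t - 1 < 0)]
    nlinarith
  · subst h
    norm_num
  · rw [abs_of_pos h, abs_of_pos (by omega : 0 < t + 1), abs_of_nonneg (by omega : 0 ≤ t - 1)]
    nlinarith

theorem step_lo53 (t : ℤ) : ((t + 1) * |t + 1| - (t + 1).sign) - ((t - 1) * |t - 1| - (t - 1).sign)
    ≤ 4 * |t| := by
  rcases lt_trichotomy t 0 with h | h | h
  · rw [abs_of_neg h, abs_of_nonpos (by omega : t + 1 ≤ 0), abs_of_neg (by omega : t - 1 < 0),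
      Int.sign_eq_neg_one_of_neg (by omega : t - 1 < 0)]
    rcases eq_or_lt_of_le (by omega : t + 1 ≤ 0) with h1 | h1
    · rw [h1]
      have : t = -1 := by omega
      subst this
      norm_num
    · rw [Int.sign_eq_neg_one_of_neg h1]
      nlinarith
  · subst h
    norm_num
  · rw [abs_of_pos h, abs_of_pos (by omega : 0 < t + 1), abs_of_nonneg (by omega : 0 ≤ t - 1),
      Int.sign_eq_one_of_pos (by omega : 0 < t + 1)]
    rcases eq_or_lt_of_le (by omega : 0 ≤ t - 1) with h1 | h1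
    · rw [← h1]
      have : t = 1 := by omega
      subst this
      norm_num
    · rw [Int.sign_eq_one_of_pos h1]
      nlinarith

theorem sum_up53 (c : ℤ) (m k : ℕ) (h : m ≤ k) :
    4 * ∑ y ∈ Ico m k, |2 * (y : ℤ) - c| ≤ (2 * (k : ℤ) - 1 - c) * |2 * (k : ℤ) - 1 - c| -
      (2 * (m : ℤ) - 1 - c) * |2 * (m : ℤ) - 1 - c| := by
  induction k, h using Nat.le_induction with
  | base => simp
  | succ k hk ih =>
    rw [Finset.sum_Ico_succ_top hk, mul_add]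
    have h1 := step_up53 (2 * (k : ℤ) - c)
    have e1 : 2 * (k : ℤ) - c + 1 = 2 * ((k + 1 : ℕ) : ℤ) - 1 - c := by push_cast; ring
    have e2 : 2 * (k : ℤ) - c - 1 = 2 * (k : ℤ) - 1 - c := by ring
    rw [e1, e2] at h1
    linarith

theorem sum_lo53 (c : ℤ) (m k : ℕ) (h : m ≤ k) :
    ((2 * (k : ℤ) - 1 - c) * |2 * (k : ℤ) - 1 - c| - (2 * (k : ℤ) - 1 - c).sign) -
      ((2 * (m : ℤ) - 1 - c) * |2 * (m : ℤ) - 1 - c| - (2 * (m : ℤ) - 1 - c).sign) ≤
      4 * ∑ y ∈ Ico m k, |2 * (y : ℤ) - c| := by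
  induction k, h using Nat.le_induction with
  | base => simp
  | succ k hk ih =>
    rw [Finset.sum_Ico_succ_top hk, mul_add]
    have h1 := step_lo53 (2 * (k : ℤ) - c)
    have e1 : 2 * (k : ℤ) - c + 1 = 2 * ((k + 1 : ℕ) : ℤ) - 1 - c := by push_cast; ring
    have e2 : 2 * (k : ℤ) - c - 1 = 2 * (k : ℤ) - 1 - c := by ring
    rw [e1, e2] at h1
    linarith

theorem sign_bd53 (t : ℤ) : -1 ≤ t.sign ∧ t.sign ≤ 1 := by
  rcases lt_trichotomy t 0 with h | h | h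
  · rw [Int.sign_eq_neg_one_of_neg h]
    norm_num
  · subst h
    norm_num
  · rw [Int.sign_eq_one_of_pos h]
    norm_num

/-- sums of `|2y-c|`, real version -/
theorem sum_abs53 (c : ℤ) (m k : ℕ) (h : m ≤ k) :
    |4 * (∑ y ∈ Ico m k, |2 * (y : ℝ) - c|) - ((2 * (k : ℝ) - 1 - c) * |2 * (k : ℝ) - 1 - c| -
      (2 * (m : ℝ) - 1 - c) * |2 * (m : ℝ) - 1 - c|)| ≤ 2 := by
  have h1 := sum_up53 c m k h
  have h2 := sum_lo53 c m k h
  have h3 := sign_bd53 (2 * (k : ℤ) - 1 - c)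
  have h4 := sign_bd53 (2 * (m : ℤ) - 1 - c)
  have h5 : |4 * (∑ y ∈ Ico m k, |2 * (y : ℤ) - c|) - ((2 * (k : ℤ) - 1 - c) * |2 * (k : ℤ) - 1 - c| -
      (2 * (m : ℤ) - 1 - c) * |2 * (m : ℤ) - 1 - c|)| ≤ 2 := by
    rw [abs_le]
    constructor <;> linarith [h3.1, h3.2, h4.1, h4.2]
  exact_mod_cast h5

theorem hexa_le (n x y : ℕ) (hx : x ∈ Icc 1 n) (hy : y ∈ Icc 1 n) (hs : x + y ∈ Win n) :
    hexa n x y ≤ n := by
  unfold Win at hs
  rw [mem_Icc] at hx hy hs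
  unfold hexa
  have h1 : (1 : ℝ) ≤ x := by exact_mod_cast hx.1
  have h2 : (x : ℝ) ≤ n := by exact_mod_cast hx.2
  have h3 : (1 : ℝ) ≤ y := by exact_mod_cast hy.1
  have h4 : (y : ℝ) ≤ n := by exact_mod_cast hy.2
  have h5 : (n : ℝ) + 2 ≤ 2 * ((x : ℝ) + y) := by
    have : n + 2 ≤ 2 * (x + y) := by omega
    exact_mod_cast this
  have h6 : 2 * ((x : ℝ) + y) ≤ 3 * n := by
    have : 2 * (x + y) ≤ 3 * n := by omega
    exact_mod_cast this
  refine max_le ?_ (max_le ?_ ?_)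
  · rw [abs_le]; constructor <;> linarith
  · rw [abs_le]; constructor <;> linarith
  · rw [abs_le]; constructor <;> linarith

theorem hexa_row (n x : ℕ) (hx : x ∈ Icc 1 n) :
    |(∑ y ∈ (Icc 1 n).filter (fun y => x + y ∈ Win n), hexa n x y) - (n : ℝ) ^ 2 / 2| ≤ 2 * (n : ℝ) := by
  rw [mem_Icc] at hx
  obtain ⟨hx1, hx2⟩ := hx
  -- a general formula on an interval
  have gen : ∀ m k : ℕ, m ≤ k → |8 * (∑ y ∈ Ico m k, hexa n x y) -
      (4 * |2 * (x : ℝ) - (n + 1)| * ((k : ℝ) - m) +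
      ((2 * (k : ℝ) - 1 - (n + 1)) * |2 * (k : ℝ) - 1 - (n + 1)| -
      (2 * (m : ℝ) - 1 - (n + 1)) * |2 * (m : ℝ) - 1 - (n + 1)|) +
      ((2 * (k : ℝ) - 1 - (2 * (n + 1) - 2 * x)) * |2 * (k : ℝ) - 1 - (2 * (n + 1) - 2 * x)| -
      (2 * (m : ℝ) - 1 - (2 * (n + 1) - 2 * x)) * |2 * (m : ℝ) - 1 - (2 * (n + 1) - 2 * x)|))| ≤ 4 := by
    intro m k hmk
    have e1 : 8 * (∑ y ∈ Ico m k, hexa n x y) = 4 * |2 * (x : ℝ) - (n + 1)| * ((k : ℝ) - m) +
        4 * (∑ y ∈ Ico m k, |2 * (y : ℝ) - ((n + 1 : ℤ) : ℝ)|) +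
        4 * (∑ y ∈ Ico m k, |2 * (y : ℝ) - ((2 * (n + 1) - 2 * x : ℤ) : ℝ)|) := by
      have e2 : 8 * (∑ y ∈ Ico m k, hexa n x y) = 4 * ∑ y ∈ Ico m k, 2 * hexa n x y := by
        rw [← Finset.mul_sum]
        ring
      rw [e2]
      simp_rw [hexa_two]
      rw [Finset.sum_add_distrib, Finset.sum_add_distrib, Finset.sum_const, Nat.card_Ico,
        nsmul_eq_mul, Nat.cast_sub hmk]
      have e3 : ∀ y : ℕ, |2 * ((x : ℝ) + y) - 2 * (n + 1)| =
          |2 * (y : ℝ) - ((2 * (n + 1) - 2 * x : ℤ) : ℝ)| := by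
        intro y
        congr 1
        push_cast
        ring
      simp_rw [e3]
      push_cast
      ring
    rw [e1]
    have h1 := sum_abs53 (n + 1 : ℤ) m k hmk
    have h2 := sum_abs53 (2 * (n + 1) - 2 * x : ℤ) m k hmk
    push_cast at h1 h2 ⊢
    rw [abs_le] at h1 h2 ⊢
    constructor <;> linarith [h1.1, h1.2, h2.1, h2.2]
  have hn1 : 1 ≤ n := hx1.trans hx2
  obtain ⟨q, r, hr, hn⟩ : ∃ q r : ℕ, r < 2 ∧ n = 2 * q + r := ⟨n / 2, n % 2, by omega, by omega⟩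
  have hq : n / 2 = q := by omega
  have hcase : (x ≤ q ∧ (Icc 1 n).filter (fun y => x + y ∈ Win n) = Ico (q + 2 - x) (n + 1)) ∨
      (q + 1 ≤ x ∧ (Icc 1 n).filter (fun y => x + y ∈ Win n) = Ico 1 (q + n + 1 - x)) := by
    rcases Nat.lt_or_ge q x with h | h
    · right
      refine ⟨h, ?_⟩
      ext y
      simp only [Win, mem_filter, mem_Icc, mem_Ico, hq]
      omega
    · left
      refine ⟨h, ?_⟩
      ext y
      simp only [Win, mem_filter, mem_Icc, mem_Ico, hq]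
      omega
  rcases hcase with ⟨h1, h2⟩ | ⟨h1, h2⟩
  · rw [h2]
    have h3 := gen (q + 2 - x) (n + 1) (by omega)
    have ek : ((n + 1 : ℕ) : ℝ) = 2 * q + r + 1 := by rw [hn]; push_cast; ring
    have em : ((q + 2 - x : ℕ) : ℝ) = q + 2 - x := by
      rw [Nat.cast_sub (by omega)]
      push_cast
      ring
    rw [ek, em] at h3
    have hxq : (x : ℝ) ≤ q := by exact_mod_cast h1
    have hx1' : (1 : ℝ) ≤ x := by exact_mod_cast hx1
    have hnr : (n : ℝ) = 2 * q + r := by exact_mod_cast hn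
    have hr0 : (0 : ℝ) ≤ r := by positivity
    have hq1 : (1 : ℝ) ≤ q := hx1'.trans hxq
    rw [hnr] at h3 ⊢
    generalize (∑ y ∈ Ico (q + 2 - x) (n + 1), hexa n x y) = S at *
    rw [abs_of_nonpos (by linarith : 2 * (x : ℝ) - (2 * q + r + 1) ≤ 0),
      abs_of_nonneg (by linarith : 0 ≤ 2 * (2 * (q : ℝ) + r + 1) - 1 - (2 * q + r + 1)),
      abs_of_nonpos (by linarith : 2 * ((q : ℝ) + 2 - x) - 1 - (2 * q + r + 1) ≤ 0),
      abs_of_nonneg (by linarith : 0 ≤ 2 * (2 * (q : ℝ) + r + 1) - 1 - (2 * (2 * q + r + 1) - 2 * x)),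
      abs_of_nonpos (by linarith : 2 * ((q : ℝ) + 2 - x) - 1 - (2 * (2 * q + r + 1) - 2 * x) ≤ 0)] at h3
    have hr2 : r = 0 ∨ r = 1 := by omega
    rw [abs_le] at h3 ⊢
    rcases hr2 with rfl | rfl
    · push_cast at h3 ⊢
      constructor <;> nlinarith only [h3.1, h3.2, hq1]
    · push_cast at h3 ⊢
      constructor <;> nlinarith only [h3.1, h3.2, hq1]
  · rw [h2]
    have h3 := gen 1 (q + n + 1 - x) (by omega)
    have ek : ((q + n + 1 - x : ℕ) : ℝ) = q + (2 * q + r) + 1 - x := by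
      rw [Nat.cast_sub (by omega), hn]
      push_cast
      ring
    rw [ek] at h3
    have hxq : (q : ℝ) + 1 ≤ x := by exact_mod_cast h1
    have hnr : (n : ℝ) = 2 * q + r := by exact_mod_cast hn
    have hxn : (x : ℝ) ≤ 2 * q + r := by rw [← hnr]; exact_mod_cast hx2
    have hr0 : (0 : ℝ) ≤ r := by positivity
    have hr1 : (r : ℝ) ≤ 1 := by exact_mod_cast (by omega : r ≤ 1)
    have hq0 : (0 : ℝ) ≤ q := by positivity
    have hn1' : (1 : ℝ) ≤ 2 * q + r := by rw [← hnr]; exact_mod_cast hn1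
    rw [hnr] at h3 ⊢
    generalize (∑ y ∈ Ico 1 (q + n + 1 - x), hexa n x y) = S at *
    have hF : ∀ s : ℝ, (0 ≤ s ∨ s = -1) → s ^ 2 - 2 ≤ s * |s| ∧ s * |s| ≤ s ^ 2 := by
      intro s hs
      rcases hs with hs | hs
      · rw [abs_of_nonneg hs]
        constructor <;> nlinarith
      · subst hs
        norm_num
    have hA := hF (2 * ((q : ℝ) + (2 * q + r) + 1 - x) - 1 - (2 * q + r + 1)) (by
      have : (x ≤ 2 * q ) ∨ (x = 2 * q + 1 ∧ r = 1) := by omega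
      rcases this with h | ⟨h, h'⟩
      · left
        have : (x : ℝ) ≤ 2 * q := by exact_mod_cast h
        linarith
      · right
        rw [h, h']
        push_cast
        ring)
    have hB := hF (2 * ((q : ℝ) + (2 * q + r) + 1 - x) - 1 - (2 * (2 * q + r + 1) - 2 * x)) (by
      rcases Nat.eq_zero_or_pos q with h | h
      · right
        rw [h]
        push_cast
        ring
      · left
        have : (1 : ℝ) ≤ q := by exact_mod_cast h
        linarith)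
    rw [abs_of_nonneg (by linarith : 0 ≤ 2 * (x : ℝ) - (2 * q + r + 1)),
      abs_of_nonpos (by push_cast; linarith : 2 * ((1 : ℕ) : ℝ) - 1 - (2 * q + r + 1) ≤ 0),
      abs_of_nonpos (by push_cast; linarith : 2 * ((1 : ℕ) : ℝ) - 1 - (2 * (2 * q + r + 1) - 2 * x) ≤ 0)] at h3
    generalize (2 * ((q : ℝ) + (2 * q + r) + 1 - x) - 1 - (2 * q + r + 1)) *
      |2 * ((q : ℝ) + (2 * q + r) + 1 - x) - 1 - (2 * q + r + 1)| = FA at *
    generalize (2 * ((q : ℝ) + (2 * q + r) + 1 - x) - 1 - (2 * (2 * q + r + 1) - 2 * x)) *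
      |2 * ((q : ℝ) + (2 * q + r) + 1 - x) - 1 - (2 * (2 * q + r + 1) - 2 * x)| = FB at *
    obtain ⟨hA1, hA2⟩ := hA
    obtain ⟨hB1, hB2⟩ := hB
    have hr2 : r = 0 ∨ r = 1 := by omega
    rw [abs_le] at h3 ⊢
    rcases hr2 with rfl | rfl
    · push_cast at h3 hA1 hA2 hB1 hB2 hn1' ⊢
      constructor <;> nlinarith only [h3.1, h3.2, hA1, hA2, hB1, hB2, hn1']
    · push_cast at h3 hA1 hA2 hB1 hB2 hn1' ⊢
      constructor <;> nlinarith only [h3.1, h3.2, hA1, hA2, hB1, hB2, hn1']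

theorem hexa_dia (n s : ℕ) (hs : s ∈ Win n) :
    |(∑ x ∈ (Icc 1 n).filter (fun x => x < s ∧ s - x ∈ Icc 1 n), hexa n x (s - x))
      - (n : ℝ) ^ 2 / 2| ≤ 2 * (n : ℝ) := by
  unfold Win at hs
  rw [mem_Icc] at hs
  obtain ⟨hs1, hs2⟩ := hs
  have gen : ∀ m k : ℕ, m ≤ k → k ≤ s → |8 * (∑ x ∈ Ico m k, hexa n x (s - x)) -
      (4 * |2 * (s : ℝ) - 2 * (n + 1)| * ((k : ℝ) - m) +
      ((2 * (k : ℝ) - 1 - (n + 1)) * |2 * (k : ℝ) - 1 - (n + 1)| -
      (2 * (m : ℝ) - 1 - (n + 1)) * |2 * (m : ℝ) - 1 - (n + 1)|) +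
      ((2 * (k : ℝ) - 1 - (2 * s - (n + 1))) * |2 * (k : ℝ) - 1 - (2 * s - (n + 1))| -
      (2 * (m : ℝ) - 1 - (2 * s - (n + 1))) * |2 * (m : ℝ) - 1 - (2 * s - (n + 1))|))| ≤ 4 := by
    intro m k hmk hks
    have e1 : 8 * (∑ x ∈ Ico m k, hexa n x (s - x)) = 4 * |2 * (s : ℝ) - 2 * (n + 1)| * ((k : ℝ) - m) +
        4 * (∑ x ∈ Ico m k, |2 * (x : ℝ) - ((n + 1 : ℤ) : ℝ)|) +
        4 * (∑ x ∈ Ico m k, |2 * (x : ℝ) - ((2 * s - (n + 1) : ℤ) : ℝ)|) := by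
      have e2 : 8 * (∑ x ∈ Ico m k, hexa n x (s - x)) = 4 * ∑ x ∈ Ico m k, 2 * hexa n x (s - x) := by
        rw [← Finset.mul_sum]
        ring
      rw [e2]
      have e4 : ∑ x ∈ Ico m k, 2 * hexa n x (s - x) = ∑ x ∈ Ico m k,
          (|2 * (x : ℝ) - ((n + 1 : ℤ) : ℝ)| + |2 * (x : ℝ) - ((2 * s - (n + 1) : ℤ) : ℝ)| +
            |2 * (s : ℝ) - 2 * (n + 1)|) := by
        refine Finset.sum_congr rfl fun x hx => ?_
        rw [mem_Ico] at hx
        have hxs : x ≤ s := by omega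
        rw [hexa_two, Nat.cast_sub hxs]
        have a1 : |2 * ((s : ℝ) - x) - (n + 1)| = |2 * (x : ℝ) - ((2 * s - (n + 1) : ℤ) : ℝ)| := by
          rw [← abs_neg]
          congr 1
          push_cast
          ring
        have a2 : 2 * ((x : ℝ) + (s - x)) - 2 * (n + 1) = 2 * (s : ℝ) - 2 * (n + 1) := by ring
        rw [a1, a2]
        push_cast
        ring
      rw [e4, Finset.sum_add_distrib, Finset.sum_add_distrib, Finset.sum_const, Nat.card_Ico,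
        nsmul_eq_mul, Nat.cast_sub hmk]
      ring
    rw [e1]
    have h1 := sum_abs53 (n + 1 : ℤ) m k hmk
    have h2 := sum_abs53 (2 * s - (n + 1) : ℤ) m k hmk
    push_cast at h1 h2 ⊢
    rw [abs_le] at h1 h2 ⊢
    constructor <;> linarith [h1.1, h1.2, h2.1, h2.2]
  have hcase : (s ≤ n ∧ (Icc 1 n).filter (fun x => x < s ∧ s - x ∈ Icc 1 n) = Ico 1 s) ∨
      (n + 1 ≤ s ∧ (Icc 1 n).filter (fun x => x < s ∧ s - x ∈ Icc 1 n) = Ico (s - n) (n + 1)) := by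
    rcases Nat.lt_or_ge n s with h | h
    · right
      refine ⟨h, ?_⟩
      ext y
      simp only [mem_filter, mem_Icc, mem_Ico]
      omega
    · left
      refine ⟨h, ?_⟩
      ext y
      simp only [mem_filter, mem_Icc, mem_Ico]
      omega
  have hn1 : (1 : ℝ) ≤ n := by exact_mod_cast (by omega : 1 ≤ n)
  have hs1' : (n : ℝ) + 3 ≤ 2 * s := by exact_mod_cast (by omega : n + 3 ≤ 2 * s)
  have hs2' : 2 * (s : ℝ) ≤ 3 * n := by exact_mod_cast (by omega : 2 * s ≤ 3 * n)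
  rcases hcase with ⟨h1, h2⟩ | ⟨h1, h2⟩
  · rw [h2]
    have h3 := gen 1 s (by omega) le_rfl
    have h1' : (s : ℝ) ≤ n := by exact_mod_cast h1
    generalize (∑ x ∈ Ico 1 s, hexa n x (s - x)) = S at *
    rw [abs_of_nonpos (by linarith : 2 * (s : ℝ) - 2 * (n + 1) ≤ 0),
      abs_of_nonneg (by linarith : 0 ≤ 2 * (s : ℝ) - 1 - (n + 1)),
      abs_of_nonpos (by push_cast; linarith : 2 * ((1 : ℕ) : ℝ) - 1 - (n + 1) ≤ 0),
      abs_of_nonneg (by linarith : 0 ≤ 2 * (s : ℝ) - 1 - (2 * s - (n + 1))),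
      abs_of_nonpos (by push_cast; linarith : 2 * ((1 : ℕ) : ℝ) - 1 - (2 * s - (n + 1)) ≤ 0)] at h3
    rw [abs_le] at h3 ⊢
    push_cast at h3
    constructor <;> nlinarith only [h3.1, h3.2, hn1]
  · rw [h2]
    have h3 := gen (s - n) (n + 1) (by omega) (by omega)
    have h1' : (n : ℝ) + 1 ≤ s := by exact_mod_cast h1
    have em : ((s - n : ℕ) : ℝ) = s - n := by
      rw [Nat.cast_sub (by omega)]
    have ek : ((n + 1 : ℕ) : ℝ) = n + 1 := by push_cast; ring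
    generalize (∑ x ∈ Ico (s - n) (n + 1), hexa n x (s - x)) = S at *
    rw [em, ek] at h3
    rw [abs_of_nonneg (by linarith : 0 ≤ 2 * (s : ℝ) - 2 * (n + 1)),
      abs_of_nonneg (by linarith : 0 ≤ 2 * ((n : ℝ) + 1) - 1 - (n + 1)),
      abs_of_nonpos (by linarith : 2 * ((s : ℝ) - n) - 1 - (n + 1) ≤ 0),
      abs_of_nonneg (by linarith : 0 ≤ 2 * ((n : ℝ) + 1) - 1 - (2 * s - (n + 1))),
      abs_of_nonpos (by linarith : 2 * ((s : ℝ) - n) - 1 - (2 * s - (n + 1)) ≤ 0)] at h3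
    rw [abs_le] at h3 ⊢
    constructor <;> nlinarith only [h3.1, h3.2, hn1]

end Pool.Agent.SEM
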