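import Pool.Agent.Helper73.SEM.Defs

/-!
# SEM-FT: tree facts and cardinalities for the final assembly
-/

set_option autoImplicit false

namespace Pool.Agent.SEM

open Finset

theorem mem_chl {n : ℕ} {p : ℕ → ℕ} {v j : ℕ} : j ∈ chl n p v ↔ j < n ∧ 0 < j ∧ p j = v := by
  simp [chl]

theorem Pend.uc_mem {n : ℕ} {p : ℕ → ℕ} {v : ℕ} (h : Pend n p v) :
    chl n p v = {uc n p v} ∧ chl n p (uc n p v) = ∅ := by
  obtain ⟨_, _, u, hu, hu'⟩ := h
  have : uc n p v = u := by simp [uc, hu]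
  rw [this]; exact ⟨hu, hu'⟩

theorem Pend.uc_spec {n : ℕ} {p : ℕ → ℕ} {v : ℕ} (h : Pend n p v) :
    uc n p v < n ∧ 0 < uc n p v ∧ p (uc n p v) = v := by
  have h1 := h.uc_mem.1
  have : uc n p v ∈ chl n p v := by rw [h1]; simp
  exact mem_chl.1 this

theorem Pend.child_eq {n : ℕ} {p : ℕ → ℕ} {v j : ℕ} (h : Pend n p v) (hj : j < n) (hj0 : 0 < j)
    (hp : p j = v) : j = uc n p v := by
  have : j ∈ chl n p v := mem_chl.2 ⟨hj, hj0, hp⟩
  rw [h.uc_mem.1] at this
  simpa using this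

theorem Pend.no_child {n : ℕ} {p : ℕ → ℕ} {v j : ℕ} (h : Pend n p v) (hj : j < n) (hj0 : 0 < j) :
    p j ≠ uc n p v := by
  intro hp
  have : j ∈ chl n p (uc n p v) := mem_chl.2 ⟨hj, hj0, hp⟩
  rw [h.uc_mem.2] at this
  simp at this

/-- tops of the pieces -/
def tops (n : ℕ) (p : ℕ → ℕ) (R : Finset ℕ) : Finset ℕ :=
  (range n).filter fun t => t ∉ R ∧ p t ∈ R

theorem mem_tops {n : ℕ} {p : ℕ → ℕ} {R : Finset ℕ} {t : ℕ} :
    t ∈ tops n p R ↔ t < n ∧ t ∉ R ∧ p t ∈ R := by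
  simp [tops]

section
variable {n K : ℕ} {p top : ℕ → ℕ} {R : Finset ℕ}

theorem Dec.pos (hD : Dec n p K R top) {v : ℕ} (hv : v ∉ R) : 0 < v := by
  rcases Nat.eq_zero_or_pos v with h | h
  · subst h; exact absurd hD.zero hv
  · exact h

theorem Dec.top_mem (hp : Par n p) (hD : Dec n p K R top) :
    ∀ v, v < n → v ∉ R → top v ∈ tops n p R ∧ top (top v) = top v := by
  intro v
  induction v using Nat.strong_induction_on with
  | _ v ih =>
    intro hv hvR
    by_cases h : p v ∈ R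
    · have := hD.top_root v hv hvR h
      rw [this]
      exact ⟨mem_tops.2 ⟨hv, hvR, h⟩, this⟩
    · have h1 := hp v (hD.pos hvR) hv
      rw [hD.top_step v hv hvR h]
      exact ih (p v) h1 (by omega) h

theorem Dec.top_of_tops (hD : Dec n p K R top) {t : ℕ} (ht : t ∈ tops n p R) : top t = t := by
  obtain ⟨h1, h2, h3⟩ := mem_tops.1 ht
  exact hD.top_root t h1 h2 h3

/-- the piece of a special pendant path -/
theorem Dec.sp_piece (hp : Par n p) (hD : Dec n p K R top) {v : ℕ} (hv : Pend n p v) (hpv : p v ∈ R)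
    (hvR : v ∉ R) (huR : uc n p v ∉ R) {i : ℕ} (hi : i < n) (hiR : i ∉ R) :
    top i = v ↔ i = v ∨ i = uc n p v := by
  constructor
  · revert hi hiR
    induction i using Nat.strong_induction_on with
    | _ i ih =>
      intro hi hiR htop
      by_cases h : p i ∈ R
      · left; rw [← htop, hD.top_root i hi hiR h]
      · have h1 := hp i (hD.pos hiR) hi
        rw [hD.top_step i hi hiR h] at htop
        rcases ih (p i) h1 (by omega) h htop with h2 | h2
        · right; exact hv.child_eq hi (hD.pos hiR) h2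
        · exact absurd h2 (hv.no_child hi (hD.pos hiR))
  · rintro (rfl | rfl)
    · exact hD.top_root i hi hiR hpv
    · have h1 := hv.uc_spec
      rw [hD.top_step _ hi hiR (by rw [h1.2.2]; exact hvR), h1.2.2]
      exact hD.top_root v hv.2.1 hvR hpv

theorem Dec.exit_not_sp (hp : Par n p) (hD : Dec n p K R top) {v : ℕ} (hv : Pend n p v)
    (hpv : p v ∈ R) (hvR : v ∉ R) (huR : uc n p v ∉ R) {r : ℕ} (hr : r ∈ R) (hr0 : 0 < r)
    (hpr : p r ∉ R) : top (p r) ≠ v := by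
  intro h
  have hrn : r < n := by simpa using hD.sub hr
  have h1 := hp r hr0 hrn
  rcases (hD.sp_piece hp hv hpv hvR huR (by omega) hpr).1 h with h2 | h2
  · have := hv.child_eq hrn hr0 h2
    rw [this] at hr; exact huR hr
  · exact hv.no_child hrn hr0 h2

theorem mem_MV {T : Finset ℕ} {v : ℕ} : v ∈ MV n R top T ↔ v < n ∧ v ∉ R ∧ top v ∈ T := by
  simp [MV]

theorem mem_EM {T : Finset ℕ} {i : ℕ} : i ∈ EM n p R top T ↔ i < n ∧ 0 < i ∧
    ((i ∉ R ∧ top i ∈ T) ∨ (i ∈ R ∧ p i ∉ R ∧ top (p i) ∈ T)) := by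
  simp [EM]

theorem MV_sub {T T' : Finset ℕ} (h : T ⊆ T') : MV n R top T ⊆ MV n R top T' := by
  intro v hv
  rw [mem_MV] at hv ⊢
  exact ⟨hv.1, hv.2.1, h hv.2.2⟩

theorem EM_sub {T T' : Finset ℕ} (h : T ⊆ T') : EM n p R top T ⊆ EM n p R top T' := by
  intro v hv
  rw [mem_EM] at hv ⊢
  refine ⟨hv.1, hv.2.1, ?_⟩
  rcases hv.2.2 with h1 | h1
  · exact Or.inl ⟨h1.1, h h1.2⟩
  · exact Or.inr ⟨h1.1, h1.2.1, h h1.2.2⟩

theorem MV_sdiff_card {T T' : Finset ℕ} (h : T' ⊆ T) :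
    (MV n R top T').card + (MV n R top (T \ T')).card = (MV n R top T).card := by
  rw [← card_union_of_disjoint]
  · congr 1
    ext v
    simp only [mem_union, mem_MV, mem_sdiff]
    constructor
    · rintro (h1 | h1)
      · exact ⟨h1.1, h1.2.1, h h1.2.2⟩
      · exact ⟨h1.1, h1.2.1, h1.2.2.1⟩
    · intro h1
      by_cases h2 : top v ∈ T'
      · exact Or.inl ⟨h1.1, h1.2.1, h2⟩
      · exact Or.inr ⟨h1.1, h1.2.1, h1.2.2, h2⟩
  · rw [disjoint_left]
    intro v h1 h2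
    rw [mem_MV] at h1 h2
    exact (mem_sdiff.1 h2.2.2).2 h1.2.2

theorem EM_sdiff_card {T T' : Finset ℕ} (h : T' ⊆ T) :
    (EM n p R top T').card + (EM n p R top (T \ T')).card = (EM n p R top T).card := by
  rw [← card_union_of_disjoint]
  · congr 1
    ext v
    simp only [mem_union, mem_EM, mem_sdiff]
    constructor
    · rintro (h1 | h1)
      · refine ⟨h1.1, h1.2.1, ?_⟩
        rcases h1.2.2 with h3 | h3
        · exact Or.inl ⟨h3.1, h h3.2⟩
        · exact Or.inr ⟨h3.1, h3.2.1, h h3.2.2⟩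
      · refine ⟨h1.1, h1.2.1, ?_⟩
        rcases h1.2.2 with h3 | h3
        · exact Or.inl ⟨h3.1, h3.2.1⟩
        · exact Or.inr ⟨h3.1, h3.2.1, h3.2.2.1⟩
    · intro h1
      rcases h1.2.2 with h3 | h3
      · by_cases h2 : top v ∈ T'
        · exact Or.inl ⟨h1.1, h1.2.1, Or.inl ⟨h3.1, h2⟩⟩
        · exact Or.inr ⟨h1.1, h1.2.1, Or.inl ⟨h3.1, h3.2, h2⟩⟩
      · by_cases h2 : top (p v) ∈ T'
        · exact Or.inl ⟨h1.1, h1.2.1, Or.inr ⟨h3.1, h3.2.1, h2⟩⟩
        · exact Or.inr ⟨h1.1, h1.2.1, Or.inr ⟨h3.1, h3.2.1, h3.2.2, h2⟩⟩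
  · rw [disjoint_left]
    intro v h1 h2
    rw [mem_EM] at h1 h2
    rcases h1.2.2 with h3 | h3 <;> rcases h2.2.2 with h4 | h4
    · exact (mem_sdiff.1 h4.2).2 h3.2
    · exact h3.1 h4.1
    · exact h4.1 h3.1
    · exact (mem_sdiff.1 h4.2.2).2 h3.2.2

/-- each piece has at most one exit: `|EM| ≤ 2 |MV|` -/
theorem EM_le (hp : Par n p) (hD : Dec n p K R top) (T : Finset ℕ) :
    (EM n p R top T).card ≤ 2 * (MV n R top T).card := by
  classical
  have h1 : EM n p R top T ⊆ MV n R top T ∪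
      (R.filter fun r => 0 < r ∧ p r ∉ R ∧ top (p r) ∈ T) := by
    intro i hi
    rw [mem_EM] at hi
    rw [mem_union]
    rcases hi.2.2 with h | h
    · left; rw [mem_MV]; exact ⟨hi.1, h.1, h.2⟩
    · right; rw [mem_filter]; exact ⟨h.1, hi.2.1, h.2.1, h.2.2⟩
  have h2 : (R.filter fun r => 0 < r ∧ p r ∉ R ∧ top (p r) ∈ T).card ≤ (MV n R top T).card := by
    apply card_le_card_of_injOn p
    · intro r hr
      simp only [coe_filter, Set.mem_setOf_eq] at hr
      simp only [mem_coe, mem_MV]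
      have hrn : r < n := by simpa using hD.sub hr.1
      have := hp r hr.2.1 hrn
      exact ⟨by omega, hr.2.2.1, hr.2.2.2⟩
    · intro r hr r' hr' h
      simp only [coe_filter, Set.mem_setOf_eq] at hr hr'
      exact hD.exit_unique r hr.1 r' hr'.1 hr.2.1 hr'.2.1 hr.2.2.1 hr'.2.2.1 (by rw [h])
  have h3 := card_le_card h1
  have h4 := card_union_le (MV n R top T) (R.filter fun r => 0 < r ∧ p r ∉ R ∧ top (p r) ∈ T)
  omega

end

end Pool.Agent.SEM
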