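import Mathlib

/-!
# SEM-DG: L1 Poincare inequality through a hub

`dg`, proof in words.  `T = ∑_{z ∈ H} ∑_{i ∈ I, good i z} |f i - f z|`, `h = |H|`.  Choose `z0 ∈ H` with
`∑_{i ∈ I, good i z0} |f i - f z0| ≤ T/h`.  For `i ∈ I` with `¬ good i z0` at least `h/2` of the `z ∈ H` satisfy `good i z` and `good z0 z`; for
them `|f i - f z0| ≤ |f i - f z| + |f z - f z0|`, so `|f i - f z0| ≤ (2/h) (∑_{z ∈ H, good i z} |f i - f z| + ∑_{z ∈ H, good z z0} |f z - f z0|)`.
Sum over these `i`: `≤ (2/h) T + (2/h) |I| T/h`.  Total `(1 + 2 + 2|I|/h) T/h`.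

`dg2`: apply `dg` to `(I1, H1)` and `(I2, H2)`, giving `z1 ∈ H1`, `z2 ∈ H2` and
`D_j = ∑_{I_j} |f - f z_j| ≤ (3 + 2/0.09)/(0.09 n) T_j ≤ 280 T_j / n`.  As `H1 ⊆ I1 ∩ I2`,
`|f z1 - f z2| ≤ (D1 + D2)/|H1| ≤ 12 (D1 + D2)/n`, so `∑_{I2} |f - f z1| ≤ D2 + 12 (D1 + D2)`.  Total `≤ 14 (D1 + D2) ≤ 3920 (T1+T2)/n`.
-/

set_option autoImplicit false

namespace Pool.Agent.SEM

open Finset

open Classical in
theorem dg (I H : Finset ℕ) (hHI : H ⊆ I) (hH : H.Nonempty) (f : ℕ → ℝ) (good : ℕ → ℕ → Prop)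
    (hsymm : ∀ i j, good i j → good j i)
    (hbad : ∀ i ∈ I, 4 * (H.filter fun z => ¬ good i z).card ≤ H.card) :
    ∃ z0 ∈ H, ∑ i ∈ I, |f i - f z0| ≤
      (3 + 2 * (I.card : ℝ) / H.card) / H.card *
        ∑ z ∈ H, ∑ i ∈ I.filter (fun i => good i z), |f i - f z| := by
  set g : ℕ → ℝ := fun z => ∑ i ∈ I.filter (fun i => good i z), |f i - f z| with hg
  set T : ℝ := ∑ z ∈ H, g z with hT
  have hh : (0 : ℝ) < H.card := by exact_mod_cast hH.card_pos
  obtain ⟨z0, hz0, hmin⟩ := H.exists_min_image g hH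
  refine ⟨z0, hz0, ?_⟩
  have hgz0 : H.card * g z0 ≤ T := by
    have h1 : ∑ _z ∈ H, g z0 ≤ ∑ z ∈ H, g z := Finset.sum_le_sum fun z hz => hmin z hz
    rwa [Finset.sum_const, nsmul_eq_mul] at h1
  have hg0 : 0 ≤ g z0 := Finset.sum_nonneg fun i _ => abs_nonneg _
  have hT0 : 0 ≤ T := Finset.sum_nonneg fun z _ => Finset.sum_nonneg fun i _ => abs_nonneg _
  -- the sums around a bad point
  have hA : ∑ i ∈ I, ∑ z ∈ H.filter (fun z => good i z), |f i - f z| = T := by
    simp only [hT, hg, Finset.sum_filter]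
    exact Finset.sum_comm
  have hbadi : ∀ i ∈ I, H.card * |f i - f z0| ≤
      2 * (∑ z ∈ H.filter (fun z => good i z), |f i - f z|) + 2 * g z0 := by
    intro i hi
    set G : Finset ℕ := H.filter (fun z => good i z ∧ good z0 z) with hG
    have hGc : (H.card : ℝ) ≤ 2 * G.card := by
      have h1 := hbad i hi
      have h2 := hbad z0 (hHI hz0)
      have h3 : H.card ≤ G.card + ((H.filter fun z => ¬ good i z).card + (H.filter fun z => ¬ good z0 z).card) := by
        have hsub : H ⊆ G ∪ ((H.filter fun z => ¬ good i z) ∪ (H.filter fun z => ¬ good z0 z)) := by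
          intro z hz
          simp only [hG, Finset.mem_union, Finset.mem_filter]
          tauto
        refine (Finset.card_le_card hsub).trans ?_
        refine (Finset.card_union_le _ _).trans ?_
        gcongr
        exact Finset.card_union_le _ _
      have h4 : H.card ≤ 2 * G.card := by omega
      exact_mod_cast h4
    have h5 : (G.card : ℝ) * |f i - f z0| ≤ ∑ z ∈ G, (|f i - f z| + |f z - f z0|) := by
      rw [← nsmul_eq_mul, ← Finset.sum_const]
      refine Finset.sum_le_sum fun z _ => ?_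
      have := abs_add_le (f i - f z) (f z - f z0)
      simpa using this
    rw [Finset.sum_add_distrib] at h5
    have h6 : ∑ z ∈ G, |f i - f z| ≤ ∑ z ∈ H.filter (fun z => good i z), |f i - f z| := by
      refine Finset.sum_le_sum_of_subset_of_nonneg ?_ fun _ _ _ => abs_nonneg _
      intro z hz
      simp only [hG, Finset.mem_filter] at hz ⊢
      exact ⟨hz.1, hz.2.1⟩
    have h7 : ∑ z ∈ G, |f z - f z0| ≤ g z0 := by
      refine Finset.sum_le_sum_of_subset_of_nonneg ?_ fun _ _ _ => abs_nonneg _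
      intro z hz
      simp only [hG, Finset.mem_filter] at hz ⊢
      exact ⟨hHI hz.1, hsymm _ _ hz.2.2⟩
    have h8 : (H.card : ℝ) * |f i - f z0| ≤ 2 * (G.card * |f i - f z0|) := by
      have := mul_le_mul_of_nonneg_right hGc (abs_nonneg (f i - f z0))
      linarith
    linarith
  have hsplit : ∑ i ∈ I, |f i - f z0| =
      g z0 + ∑ i ∈ I.filter (fun i => ¬ good i z0), |f i - f z0| := by
    rw [hg]
    exact (Finset.sum_filter_add_sum_filter_not I (fun i => good i z0) _).symm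
  have hbadsum : H.card * ∑ i ∈ I.filter (fun i => ¬ good i z0), |f i - f z0| ≤ 2 * T + 2 * (I.card * g z0) := by
    have h1 : H.card * ∑ i ∈ I.filter (fun i => ¬ good i z0), |f i - f z0| ≤ ∑ i ∈ I, H.card * |f i - f z0| := by
      rw [Finset.mul_sum]
      refine Finset.sum_le_sum_of_subset_of_nonneg (Finset.filter_subset _ _) fun _ _ _ => ?_
      positivity
    refine h1.trans ((Finset.sum_le_sum hbadi).trans ?_)
    rw [Finset.sum_add_distrib, ← Finset.mul_sum, hA, Finset.sum_const, nsmul_eq_mul]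
    linarith
  have hfin : H.card * (H.card * ∑ i ∈ I, |f i - f z0|) ≤ (3 * H.card + 2 * I.card) * T := by
    rw [hsplit]
    have h1 : (H.card : ℝ) * (H.card * (g z0 + ∑ i ∈ I.filter (fun i => ¬ good i z0), |f i - f z0|)) =
        H.card * (H.card * g z0) + H.card * (H.card * ∑ i ∈ I.filter (fun i => ¬ good i z0), |f i - f z0|) := by ring
    rw [h1]
    have h2 : (H.card : ℝ) * (H.card * g z0) ≤ H.card * T := mul_le_mul_of_nonneg_left hgz0 hh.le
    have h3 : (H.card : ℝ) * (H.card * ∑ i ∈ I.filter (fun i => ¬ good i z0), |f i - f z0|) ≤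
        H.card * (2 * T + 2 * (I.card * g z0)) := mul_le_mul_of_nonneg_left hbadsum hh.le
    have h4 : (I.card : ℝ) * (H.card * g z0) ≤ I.card * T := mul_le_mul_of_nonneg_left hgz0 (Nat.cast_nonneg _)
    nlinarith
  have heq : (3 + 2 * (I.card : ℝ) / H.card) / H.card * T = ((3 * H.card + 2 * I.card) * T) / (H.card * H.card) := by
    field_simp
  rw [heq, le_div_iff₀ (by positivity)]
  linarith

open Classical in
theorem dg2 (n : ℕ) (hn : 1 ≤ n) (I1 I2 H1 H2 : Finset ℕ) (h11 : H1 ⊆ I1) (h12 : H1 ⊆ I2)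
    (h22 : H2 ⊆ I2) (hI1 : I1.card ≤ n) (hI2 : I2.card ≤ n)
    (hH1 : (9 / 100 : ℝ) * n ≤ H1.card) (hH2 : (9 / 100 : ℝ) * n ≤ H2.card)
    (f : ℕ → ℝ) (good : ℕ → ℕ → Prop) (hsymm : ∀ i j, good i j → good j i)
    (hb1 : ∀ i ∈ I1, 4 * (H1.filter fun z => ¬ good i z).card ≤ H1.card)
    (hb2 : ∀ i ∈ I2, 4 * (H2.filter fun z => ¬ good i z).card ≤ H2.card) :
    ∃ z0 ∈ H1, ∑ i ∈ I1 ∪ I2, |f i - f z0| ≤ 4000 / n *
        ((∑ z ∈ H1, ∑ i ∈ I1.filter (fun i => good i z), |f i - f z|) +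
         (∑ z ∈ H2, ∑ i ∈ I2.filter (fun i => good i z), |f i - f z|)) := by
  have hn0 : (0 : ℝ) < n := by exact_mod_cast hn
  have hne : ∀ H : Finset ℕ, (9 / 100 : ℝ) * n ≤ H.card → H.Nonempty := by
    intro H hH
    rw [← Finset.card_pos]
    have : (0 : ℝ) < H.card := lt_of_lt_of_le (by positivity) hH
    exact_mod_cast this
  have key : ∀ I H : Finset ℕ, I.card ≤ n → (9 / 100 : ℝ) * n ≤ H.card → ∀ T : ℝ, 0 ≤ T →
      (3 + 2 * (I.card : ℝ) / H.card) / H.card * T ≤ 281 / n * T := by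
    intro I H hI hH T hT
    have hHp : (0 : ℝ) < H.card := lt_of_lt_of_le (by positivity) hH
    have hI' : (I.card : ℝ) ≤ n := by exact_mod_cast hI
    refine mul_le_mul_of_nonneg_right ?_ hT
    rw [div_le_div_iff₀ hHp hn0]
    have h1 : 2 * (I.card : ℝ) / H.card ≤ 200 / 9 := by
      rw [div_le_iff₀ hHp]
      linarith
    have h2 : (3 + 2 * (I.card : ℝ) / H.card) * n ≤ (3 + 200 / 9) * n := by
      refine mul_le_mul_of_nonneg_right ?_ hn0.le
      linarith
    nlinarith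
  obtain ⟨z1, hz1, hD1⟩ := dg I1 H1 h11 (hne H1 hH1) f good hsymm hb1
  obtain ⟨z2, hz2, hD2⟩ := dg I2 H2 h22 (hne H2 hH2) f good hsymm hb2
  set T1 : ℝ := ∑ z ∈ H1, ∑ i ∈ I1.filter (fun i => good i z), |f i - f z| with hT1
  set T2 : ℝ := ∑ z ∈ H2, ∑ i ∈ I2.filter (fun i => good i z), |f i - f z| with hT2
  have hT1n : 0 ≤ T1 := Finset.sum_nonneg fun z _ => Finset.sum_nonneg fun i _ => abs_nonneg _
  have hT2n : 0 ≤ T2 := Finset.sum_nonneg fun z _ => Finset.sum_nonneg fun i _ => abs_nonneg _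
  set D1 : ℝ := ∑ i ∈ I1, |f i - f z1| with hD1'
  set D2 : ℝ := ∑ i ∈ I2, |f i - f z2| with hD2'
  have hD1n : 0 ≤ D1 := Finset.sum_nonneg fun z _ => abs_nonneg _
  have hD2n : 0 ≤ D2 := Finset.sum_nonneg fun z _ => abs_nonneg _
  have hD1b : D1 ≤ 281 / n * T1 := hD1.trans (key I1 H1 hI1 hH1 T1 hT1n)
  have hD2b : D2 ≤ 281 / n * T2 := hD2.trans (key I2 H2 hI2 hH2 T2 hT2n)
  have hH1p : (0 : ℝ) < H1.card := lt_of_lt_of_le (by positivity) hH1
  have hz : (H1.card : ℝ) * |f z2 - f z1| ≤ D1 + D2 := by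
    have h1 : (H1.card : ℝ) * |f z2 - f z1| ≤ ∑ z ∈ H1, (|f z - f z1| + |f z - f z2|) := by
      rw [← nsmul_eq_mul, ← Finset.sum_const]
      refine Finset.sum_le_sum fun z _ => ?_
      have := abs_sub (f z - f z1) (f z - f z2)
      simpa using this
    rw [Finset.sum_add_distrib] at h1
    have h2 : ∑ z ∈ H1, |f z - f z1| ≤ D1 :=
      Finset.sum_le_sum_of_subset_of_nonneg h11 fun _ _ _ => abs_nonneg _
    have h3 : ∑ z ∈ H1, |f z - f z2| ≤ D2 :=
      Finset.sum_le_sum_of_subset_of_nonneg h12 fun _ _ _ => abs_nonneg _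
    linarith
  have hz' : (n : ℝ) * |f z2 - f z1| ≤ 100 / 9 * (D1 + D2) := by
    have := mul_le_mul_of_nonneg_right hH1 (abs_nonneg (f z2 - f z1))
    linarith
  refine ⟨z1, hz1, ?_⟩
  have hU : ∑ i ∈ I1 ∪ I2, |f i - f z1| ≤ D1 + ∑ i ∈ I2, |f i - f z1| := by
    have := Finset.sum_union_inter (s₁ := I1) (s₂ := I2) (f := fun i => |f i - f z1|)
    have h0 : 0 ≤ ∑ i ∈ I1 ∩ I2, |f i - f z1| := Finset.sum_nonneg fun _ _ => abs_nonneg _
    linarith
  have hI2' : ∑ i ∈ I2, |f i - f z1| ≤ D2 + I2.card * |f z2 - f z1| := by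
    rw [← nsmul_eq_mul, ← Finset.sum_const, ← Finset.sum_add_distrib]
    refine Finset.sum_le_sum fun i _ => ?_
    have := abs_add_le (f i - f z2) (f z2 - f z1)
    simpa using this
  have hI2'' : (I2.card : ℝ) * |f z2 - f z1| ≤ n * |f z2 - f z1| := by
    have : (I2.card : ℝ) ≤ n := by exact_mod_cast hI2
    exact mul_le_mul_of_nonneg_right this (abs_nonneg _)
  have hsum : 281 / n * T1 + 281 / n * T2 = 281 / n * (T1 + T2) := by ring
  have hfin : ∑ i ∈ I1 ∪ I2, |f i - f z1| ≤ 109 / 9 * (281 / n * (T1 + T2)) := by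
    linarith
  refine hfin.trans ?_
  have h9 : (109 / 9 * (281 / n * (T1 + T2)) : ℝ) = (109 * 281 / 9) / n * (T1 + T2) := by ring
  rw [h9]
  have h10 : ((109 * 281 / 9) / n : ℝ) ≤ 4000 / n := by
    rw [div_le_div_iff_of_pos_right hn0]
    norm_num
  exact mul_le_mul_of_nonneg_right h10 (by linarith)

end Pool.Agent.SEM
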