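import Pool.Agent.Helper73.SEM.FB

/-!
# SEM-FE: the finish
-/

set_option autoImplicit false

namespace Pool.Agent.SEM

open Finset

section
variable {n K mX mS κ κ' : ℕ} {p top lab β : ℕ → ℕ} {R Res P FX FS YX YS L Sm : Finset ℕ}

/-- the completion step: after the main packing and the embedding of the leftover pieces -/
theorem Dat.complete (D : Dat n K mX mS κ κ' p top lab β R Res P FX FS YX YS L Sm)
    {T' : Finset ℕ} {f1 : ℕ → ℕ} {E : ℕ} (hT' : T' ⊆ TT n p R Res P)
    (hV1 : ∀ v ∈ MV n R top T', f1 v ∈ XX n lab β R Res FX YX L)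
    (hE1 : ∀ i ∈ EM n p R top T', f1 i + f1 (p i) ∈ SS n p lab β R Res FS YS Sm)
    (hI1 : Set.InjOn f1 (MV n R top T'))
    (hJ1 : Set.InjOn (fun i => f1 i + f1 (p i)) (EM n p R top T'))
    (hleft : (MV n R top (TT n p R Res P \ T')).card ≤ E) (hκ : 9 * E < κ)
    (hκ' : 2 * Res.card + 5 * E < κ') :
    ∃ (f2 z y y' : ℕ → ℕ) (XL XS FX2 FS2 : Finset ℕ),
      (∀ r ∈ R, f2 r = lab r) ∧
      (∀ v ∈ MV n R top (TT n p R Res P \ T'), f2 v ∈ FX) ∧
      (∀ i ∈ EM n p R top (TT n p R Res P \ T'), f2 i + f2 (p i) ∈ FS) ∧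
      Set.InjOn f2 (MV n R top (TT n p R Res P \ T')) ∧
      Set.InjOn (fun i => f2 i + f2 (p i)) (EM n p R top (TT n p R Res P \ T')) ∧
      Set.InjOn z Res ∧ Set.InjOn (fun v => β v + z v) Res ∧
      (∀ v ∈ Res, (z v ∈ XX n lab β R Res FX YX L ∧ z v ∉ (MV n R top T').image f1) ∨
        (z v ∈ FX ∧ z v ∉ (MV n R top (TT n p R Res P \ T')).image f2)) ∧
      (∀ v ∈ Res, (β v + z v ∈ SS n p lab β R Res FS YS Sm ∧
          β v + z v ∉ (EM n p R top T').image fun i => f1 i + f1 (p i)) ∨
        (β v + z v ∈ FS ∧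
          β v + z v ∉ (EM n p R top (TT n p R Res P \ T')).image fun i => f2 i + f2 (p i))) ∧
      FX2 ⊆ FX ∧ Disjoint FX2 ((MV n R top (TT n p R Res P \ T')).image f2) ∧
      Disjoint FX2 (Res.image z) ∧
      FS2 ⊆ FS ∧
      Disjoint FS2 ((EM n p R top (TT n p R Res P \ T')).image fun i => f2 i + f2 (p i)) ∧
      Disjoint FS2 (Res.image fun v => β v + z v) ∧
      XL ⊆ YX ∪ FX2 ∧ XS ⊆ YS ∪ FS2 ∧
      (∀ i ∈ P, y i ∈ L ∪ XL ∧ y' i ∈ L ∪ XL ∧ lab (p i) + y i ∈ Sm ∪ XS ∧ y i + y' i ∈ Sm ∪ XS) ∧
      Set.InjOn y P ∧ Set.InjOn y' P ∧ (∀ i ∈ P, ∀ j ∈ P, y i ≠ y' j) ∧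
      Set.InjOn (fun i => lab (p i) + y i) P ∧ Set.InjOn (fun i => y i + y' i) P ∧
      ∀ i ∈ P, ∀ j ∈ P, lab (p i) + y i ≠ y j + y' j := by
  classical
  set T := TT n p R Res P with hTdef
  set X := XX n lab β R Res FX YX L with hXdef
  set S := SS n p lab β R Res FS YS Sm with hSdef
  set Tl := T \ T' with hTl
  have hEl : (EM n p R top Tl).card ≤ 2 * E :=
    (EM_le D.par D.dec Tl).trans (by omega)
  have hlabFX : ∀ r ∈ R, lab r ∉ FX := by
    intro r hr h
    have := D.dX1
    rw [disjoint_left] at this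
    exact this (mem_image_of_mem lab hr) (mem_union_left _ h)
  obtain ⟨f2, h20, h21, h22, h23, h24⟩ := embed_left D.par D.dec (Tl := Tl) (κ := κ') hlabFX D.c4
    (by omega)
  -- leftover labels and sums
  set JX := X \ (MV n R top T').image f1 with hJX
  set JS := S \ (EM n p R top T').image (fun i => f1 i + f1 (p i)) with hJS
  have hsub1 : (MV n R top T').image f1 ⊆ X := by
    intro x hx
    obtain ⟨v, hv, rfl⟩ := mem_image.1 hx
    exact hV1 v hv
  have hsub2 : (EM n p R top T').image (fun i => f1 i + f1 (p i)) ⊆ S := by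
    intro x hx
    obtain ⟨v, hv, rfl⟩ := mem_image.1 hx
    exact hE1 v hv
  have hJXc : JX.card = (MV n R top Tl).card := by
    have h1 := card_sdiff_add_card_eq_card hsub1
    rw [card_image_of_injOn hI1] at h1
    have h2 := MV_sdiff_card (n := n) (R := R) (top := top) hT'
    have h3 := D.cardX
    rw [← hTdef, ← hXdef] at h3
    rw [hJX, hTl]; omega
  have hJSc : JS.card = (EM n p R top Tl).card := by
    have h1 := card_sdiff_add_card_eq_card hsub2
    rw [card_image_of_injOn hJ1] at h1
    have h2 := EM_sdiff_card (n := n) (p := p) (R := R) (top := top) hT'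
    have h3 := D.cardS
    rw [← hTdef, ← hSdef] at h3
    rw [hJS, hTl]; omega
  -- remaining flexible labels and sums
  set UL := (MV n R top Tl).image f2 with hUL
  set US := (EM n p R top Tl).image (fun i => f2 i + f2 (p i)) with hUS
  have hULsub : UL ⊆ FX := by
    intro x hx
    obtain ⟨v, hv, rfl⟩ := mem_image.1 hx
    exact h21 v hv
  have hUSsub : US ⊆ FS := by
    intro x hx
    obtain ⟨v, hv, rfl⟩ := mem_image.1 hx
    exact h22 v hv
  have hULc : UL.card = (MV n R top Tl).card := card_image_of_injOn h23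
  have hUSc : US.card = (EM n p R top Tl).card := card_image_of_injOn h24
  have hXR : X ⊆ Icc 1 n := sdiff_subset
  have hSR : S ⊆ Win n := sdiff_subset
  have hFXX : Disjoint FX X := by
    rw [disjoint_left]
    intro x hx hx'
    have := (mem_sdiff.1 hx').2
    apply this
    exact mem_union_left _ (mem_union_right _ (mem_union_left _ hx))
  have hFSS : Disjoint FS S := by
    rw [disjoint_left]
    intro x hx hx'
    have := (mem_sdiff.1 hx').2
    apply this
    exact mem_union_left _ (mem_union_right _ (mem_union_left _ hx))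
  have hc1 : ∀ x ∈ JX, κ - 3 * E ≤ (Res.filter fun v => β v + x ∈ FS \ US).card := by
    intro x hx
    have h1 := D.c1 x (hXR (mem_sdiff.1 hx).1)
    have h2 : (Res.filter fun v => β v + x ∈ FS).card ≤
        (Res.filter fun v => β v + x ∈ FS \ US).card + US.card := by
      have h3 : (Res.filter fun v => β v + x ∈ FS) ⊆
          (Res.filter fun v => β v + x ∈ FS \ US) ∪ (Res.filter fun v => β v + x ∈ US) := by
        intro v hv
        rw [mem_filter] at hv
        rw [mem_union, mem_filter, mem_filter, mem_sdiff]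
        by_cases h : β v + x ∈ US
        · exact Or.inr ⟨hv.1, h⟩
        · exact Or.inl ⟨hv.1, hv.2, h⟩
      have h4 : (Res.filter fun v => β v + x ∈ US).card ≤ US.card := by
        apply card_le_card_of_injOn (fun v => β v + x)
        · intro v hv
          rw [mem_coe, mem_filter] at hv
          exact hv.2
        · intro v hv w hw h
          rw [mem_coe, mem_filter] at hv hw
          exact D.βI hv.1 hw.1 (by simpa using h)
      have h5 := card_le_card h3
      have h6 := card_union_le (Res.filter fun v => β v + x ∈ FS \ US)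
        (Res.filter fun v => β v + x ∈ US)
      omega
    omega
  have hc2 : ∀ s ∈ JS, κ - 3 * E ≤ (Res.filter fun v => β v < s ∧ s - β v ∈ FX \ UL).card := by
    intro s hs
    have h1 := D.c2 s (hSR (mem_sdiff.1 hs).1)
    have h2 : (Res.filter fun v => β v < s ∧ s - β v ∈ FX).card ≤
        (Res.filter fun v => β v < s ∧ s - β v ∈ FX \ UL).card + UL.card := by
      have h3 : (Res.filter fun v => β v < s ∧ s - β v ∈ FX) ⊆
          (Res.filter fun v => β v < s ∧ s - β v ∈ FX \ UL) ∪
            (Res.filter fun v => β v < s ∧ s - β v ∈ UL) := by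
        intro v hv
        rw [mem_filter] at hv
        rw [mem_union, mem_filter, mem_filter, mem_sdiff]
        by_cases h : s - β v ∈ UL
        · exact Or.inr ⟨hv.1, hv.2.1, h⟩
        · exact Or.inl ⟨hv.1, hv.2.1, hv.2.2, h⟩
      have h4 : (Res.filter fun v => β v < s ∧ s - β v ∈ UL).card ≤ UL.card := by
        apply card_le_card_of_injOn (fun v => s - β v)
        · intro v hv
          rw [mem_coe, mem_filter] at hv
          exact hv.2.2
        · intro v hv w hw h
          rw [mem_coe, mem_filter] at hv hw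
          have h' : s - β v = s - β w := h
          have := hv.2.1
          have := hw.2.1
          exact D.βI hv.1 hw.1 (by omega)
      have h5 := card_le_card h3
      have h6 := card_union_le (Res.filter fun v => β v < s ∧ s - β v ∈ FX \ UL)
        (Res.filter fun v => β v < s ∧ s - β v ∈ UL)
      omega
    omega
  have hc3 : ∀ v ∈ Res, κ' - 3 * E ≤ ((FX \ UL).filter fun x => β v + x ∈ FS \ US).card := by
    intro v hv
    have h1 := D.c3 v hv
    have h2 : (FX.filter fun x => β v + x ∈ FS).card ≤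
        ((FX \ UL).filter fun x => β v + x ∈ FS \ US).card + (UL.card + US.card) := by
      have h3 : (FX.filter fun x => β v + x ∈ FS) ⊆
          ((FX \ UL).filter fun x => β v + x ∈ FS \ US) ∪
            (UL ∪ (FX.filter fun x => β v + x ∈ US)) := by
        intro x hx
        rw [mem_filter] at hx
        simp only [mem_union, mem_filter, mem_sdiff]
        by_cases h : x ∈ UL
        · exact Or.inr (Or.inl h)
        · by_cases h' : β v + x ∈ US
          · exact Or.inr (Or.inr ⟨hx.1, h'⟩)
          · exact Or.inl ⟨⟨hx.1, h⟩, hx.2, h'⟩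
      have h4 : (FX.filter fun x => β v + x ∈ US).card ≤ US.card := by
        apply card_le_card_of_injOn (fun x => β v + x)
        · intro x hx
          rw [mem_coe, mem_filter] at hx
          exact hx.2
        · intro x _ x' _ h
          simpa using h
      have h5 := card_le_card h3
      have h6 := card_union_le ((FX \ UL).filter fun x => β v + x ∈ FS \ US)
        (UL ∪ (FX.filter fun x => β v + x ∈ US))
      have h7 := card_union_le UL (FX.filter fun x => β v + x ∈ US)
      omega
    omega
  obtain ⟨z, hz1, hz2, hz3, hz4, hz5⟩ := cover (V := Res) (FX := FX \ UL) (FS := FS \ US) (JX := JX)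
    (JS := JS) (β := β) (κ := κ - 3 * E) (κ' := κ' - 3 * E) D.βI
    (disjoint_of_subset_left sdiff_subset (disjoint_of_subset_right sdiff_subset hFXX))
    (disjoint_of_subset_left sdiff_subset (disjoint_of_subset_right sdiff_subset hFSS))
    hc1 hc2 hc3 (by omega) (by omega)
  -- remaining flexible sets
  set FX2 := (FX \ UL) \ Res.image z with hFX2
  set FS2 := (FS \ US) \ Res.image (fun v => β v + z v) with hFS2
  have hFX2c : FX2.card = mX := by
    have h1 : (Res.image z).card = Res.card := card_image_of_injOn hz1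
    have h2 : Res.image z ⊆ JX ∪ (FX \ UL) := by
      intro x hx
      obtain ⟨v, hv, rfl⟩ := mem_image.1 hx
      rw [mem_union]
      rcases hz3 v hv with h | h | h
      · exact Or.inl h.1
      · exact Or.inr h.1
      · exact Or.inr h.1
    have h3 : Disjoint JX (FX \ UL) :=
      (disjoint_of_subset_left sdiff_subset (disjoint_of_subset_right sdiff_subset hFXX)).symm
    -- |FX2| = |(JX ∪ (FX\UL)) \ image| 
    have h4 : (JX ∪ (FX \ UL)) \ Res.image z = FX2 := by
      ext x
      simp only [mem_sdiff, mem_union, hFX2]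
      constructor
      · rintro ⟨h5 | h5, h6⟩
        · exact absurd (hz4 h5) h6
        · exact ⟨h5, h6⟩
      · rintro ⟨h5, h6⟩
        exact ⟨Or.inr h5, h6⟩
    have h5 := card_sdiff_add_card_eq_card h2
    rw [h4, card_union_of_disjoint h3, h1, hJXc] at h5
    have h6 := card_sdiff_add_card_eq_card hULsub
    have := D.cX
    omega
  have hFS2c : FS2.card = mS := by
    have h1 : (Res.image fun v => β v + z v).card = Res.card := card_image_of_injOn hz2
    have h2 : (Res.image fun v => β v + z v) ⊆ JS ∪ (FS \ US) := by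
      intro x hx
      obtain ⟨v, hv, rfl⟩ := mem_image.1 hx
      rw [mem_union]
      rcases hz3 v hv with h | h | h
      · exact Or.inr h.2
      · exact Or.inl h.2
      · exact Or.inr h.2
    have h3 : Disjoint JS (FS \ US) :=
      (disjoint_of_subset_left sdiff_subset (disjoint_of_subset_right sdiff_subset hFSS)).symm
    have h4 : (JS ∪ (FS \ US)) \ (Res.image fun v => β v + z v) = FS2 := by
      ext x
      simp only [mem_sdiff, mem_union, hFS2]
      constructor
      · rintro ⟨h5 | h5, h6⟩
        · exact absurd (hz5 h5) h6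
        · exact ⟨h5, h6⟩
      · rintro ⟨h5, h6⟩
        exact ⟨Or.inr h5, h6⟩
    have h5 := card_sdiff_add_card_eq_card h2
    rw [h4, card_union_of_disjoint h3, h1, hJSc] at h5
    have h6 := card_sdiff_add_card_eq_card hUSsub
    have := D.cS
    omega
  have hFX2s : FX2 ⊆ FX := sdiff_subset.trans sdiff_subset
  have hFS2s : FS2 ⊆ FS := sdiff_subset.trans sdiff_subset
  obtain ⟨XL, XS, hXL, hXS, y, y', ha1, ha2, ha3, ha4, ha5, ha6, ha7⟩ :=
    D.absb FX2 hFX2s hFX2c FS2 hFS2s hFS2c
  refine ⟨f2, z, y, y', XL, XS, FX2, FS2, h20, h21, h22, h23, h24, hz1, hz2, ?_, ?_, hFX2s, ?_, ?_,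
    hFS2s, ?_, ?_, hXL, hXS, ha1, ha2, ha3, ha4, ha5, ha6, ha7⟩
  · intro v hv
    rcases hz3 v hv with h | h | h
    · exact Or.inl (mem_sdiff.1 h.1)
    · exact Or.inr (mem_sdiff.1 h.1)
    · exact Or.inr (mem_sdiff.1 h.1)
  · intro v hv
    rcases hz3 v hv with h | h | h
    · exact Or.inr (mem_sdiff.1 h.2)
    · exact Or.inl (mem_sdiff.1 h.2)
    · exact Or.inr (mem_sdiff.1 h.2)
  · rw [disjoint_left]; intro x hx hx'
    exact (mem_sdiff.1 (mem_sdiff.1 hx).1).2 hx'
  · rw [disjoint_left]; intro x hx hx'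
    exact (mem_sdiff.1 hx).2 hx'
  · rw [disjoint_left]; intro x hx hx'
    exact (mem_sdiff.1 (mem_sdiff.1 hx).1).2 hx'
  · rw [disjoint_left]; intro x hx hx'
    exact (mem_sdiff.1 hx).2 hx'

end

end Pool.Agent.SEM
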