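import Pool.Agent.Helper73.SEM.GA
import Pool.Agent.Helper73.SEM.RB3

/-!
# SEM-FP1: the absorber for arbitrary subsets of the flexible sets
-/

set_option autoImplicit false

namespace Pool.Agent.SEM

open Finset

/-- template side: neighbourhoods of the nodes inside `Y ∪ F` -/
theorem template (m : ℕ) (hm : 1 ≤ m) (Y F : Finset ℕ) (hY : Y.card = 2 * m) (hF : F.card ≤ 2 * m)
    (hd : Disjoint F Y) :
    ∃ Ns : Fin (3 * m) → Finset ℕ, (∀ i, Ns i ⊆ Y ∪ F) ∧ (∀ i, (Ns i).card ≤ 70) ∧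
      ∀ F' ⊆ F, F'.card = m → ∃ x : Fin (3 * m) → ℕ, Function.Injective x ∧ (∀ i, x i ∈ Ns i) ∧
        ∀ i, x i ∈ Y ∪ F' := by
  classical
  obtain ⟨H, hH1, hH2⟩ := rmbg m F.card hm hF
  have eY : Fin (2 * m) ≃ Y := (Finset.equivFinOfCardEq hY).symm
  have eF : Fin F.card ≃ F := (Finset.equivFin F).symm
  let g : Fin (2 * m) ⊕ Fin F.card → ℕ := Sum.elim (fun i => (eY i : ℕ)) (fun i => (eF i : ℕ))
  have hg : Function.Injective g := by
    intro a b hab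
    rcases a with a | a <;> rcases b with b | b
    · have : (eY a : ℕ) = eY b := hab
      rw [eY.injective (Subtype.ext this)]
    · exfalso
      have : (eY a : ℕ) = eF b := hab
      exact disjoint_left.1 hd (eF b).2 (by rw [← this]; exact (eY a).2)
    · exfalso
      have : (eF a : ℕ) = eY b := hab
      exact disjoint_left.1 hd (eF a).2 (by rw [this]; exact (eY b).2)
    · have : (eF a : ℕ) = eF b := hab
      rw [eF.injective (Subtype.ext this)]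
  refine ⟨fun i => (H i).image g, ?_, ?_, ?_⟩
  · intro i x hx
    obtain ⟨a, _, rfl⟩ := mem_image.1 hx
    rcases a with a | a
    · exact mem_union_left _ (eY a).2
    · exact mem_union_right _ (eF a).2
  · intro i
    exact card_image_le.trans (hH1 i)
  · intro F' hF' hF'c
    let Z' : Finset (Fin F.card) := univ.filter fun j => (eF j : ℕ) ∈ F'
    have hZ' : Z'.card = m := by
      rw [← hF'c]
      apply card_bij (fun j _ => (eF j : ℕ))
      · intro j hj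
        exact (mem_filter.1 hj).2
      · intro j _ j' _ h
        exact eF.injective (Subtype.ext h)
      · intro x hx
        refine ⟨eF.symm ⟨x, hF' hx⟩, ?_, by simp⟩
        simp [Z', hx]
    obtain ⟨f, hf1, hf2⟩ := hH2 Z' hZ'
    refine ⟨fun i => g (f i), hg.comp hf1, fun i => mem_image_of_mem g (hf2 i).1, ?_⟩
    intro i
    have h2 := (hf2 i).2
    show g (f i) ∈ _
    rcases hfi : f i with a | a
    · exact mem_union_left _ (eY a).2
    · have := h2 a hfi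
      exact mem_union_right _ (mem_filter.1 this).2

theorem absorb_all {n h D u mX mS : ℕ} {c : ℕ → ℕ} {Sup UX US FX FS YX YS : Finset ℕ}
    (hmid : ∀ i ∈ Sup, n / 2 ≤ c i + h ∧ c i ≤ n / 2 + h) (hh : 1000 * h + 1000 ≤ n)
    (hmult : ∀ x, (Sup.filter fun i => c i = x).card ≤ D)
    (hbig : 100 * 71 ^ 2 * (D + 1) + 71 * (3 * mX) + 211 * (3 * mS) ≤ Sup.card)
    (hcU : ∀ i ∈ Sup, c i ∈ UX) (huX : UX.card ≤ u) (huS : US.card ≤ u)
    (hu2 : 1000 * 71 * (u + 422 * (3 * mX + 3 * mS) + 710) ≤ n)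
    (hmX : 1 ≤ mX) (hmS : 1 ≤ mS) (hYX : YX.card = 2 * mX) (hFX : FX.card ≤ 2 * mX)
    (hdX : Disjoint FX YX) (hYS : YS.card = 2 * mS) (hFS : FS.card ≤ 2 * mS) (hdS : Disjoint FS YS)
    (hFXU : FX ⊆ UX) (hYXU : YX ⊆ UX) (hFSU : FS ⊆ US) (hYSU : YS ⊆ US)
    (hrX : ∀ x ∈ YX ∪ FX, 9 * n ≤ 100 * x ∧ 100 * x ≤ 91 * n)
    (hrS : ∀ s ∈ YS ∪ FS, 6 * n ≤ 10 * s ∧ 10 * s ≤ 14 * n)
    (hcX : ∀ i ∈ Sup, c i ∉ YX ∪ FX) :
    ∃ P L S : Finset ℕ, P ⊆ Sup ∧ Disjoint L UX ∧ Disjoint S US ∧ L ⊆ Icc 1 n ∧ S ⊆ Win n ∧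
      2 * P.card = L.card + 3 * mX ∧ 2 * P.card = S.card + 3 * mS ∧
      P.card ≤ 71 * (3 * mX) + 211 * (3 * mS) ∧
      ∀ FX' ⊆ FX, FX'.card = mX → ∀ FS' ⊆ FS, FS'.card = mS → ∃ XL XS : Finset ℕ,
        XL ⊆ YX ∪ FX' ∧ XS ⊆ YS ∪ FS' ∧ Abs c P (L ∪ XL) (S ∪ XS) := by
  classical
  obtain ⟨Ns, hN1, hN2, hN3⟩ := template mX hmX YX FX hYX hFX hdX
  obtain ⟨Ms, hM1, hM2, hM3⟩ := template mS hmS YS FS hYS hFS hdS
  obtain ⟨P, L, S, hP, hL, hS, hLr, hSr, cP, cL, cS, hab⟩ := absorber hmid hh hmult hbig hcU huX huS hu2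
    Ns Ms
    (fun i => ⟨(hN1 i).trans (union_subset hYXU hFXU), hN2 i, fun x hx => hrX x (hN1 i hx),
      fun j hj h => hcX j hj (hN1 i h)⟩)
    (fun i => ⟨(hM1 i).trans (union_subset hYSU hFSU), hM2 i, fun s hs => hrS s (hM1 i hs)⟩)
  refine ⟨P, L, S, hP, hL, hS, hLr, hSr, ?_, ?_, ?_, ?_⟩
  · rw [cP, cL]
    simp only [sum_add_distrib, ← mul_sum, sum_const, card_univ, Fintype.card_fin, smul_eq_mul]
    ring
  · rw [cP, cS]
    simp only [sum_add_distrib, ← mul_sum, sum_const, card_univ, Fintype.card_fin, smul_eq_mul]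
    ring
  · rw [cP]
    have h1 : ∑ i, ((Ns i).card + 1) ≤ ∑ _i : Fin (3 * mX), 71 :=
      sum_le_sum fun i _ => by have := hN2 i; omega
    have h2 : ∑ i, (3 * (Ms i).card + 1) ≤ ∑ _i : Fin (3 * mS), 211 :=
      sum_le_sum fun i _ => by have := hM2 i; omega
    simp only [sum_const, card_univ, Fintype.card_fin, smul_eq_mul] at h1 h2
    omega
  · intro FX' hFX' hFX'c FS' hFS' hFS'c
    obtain ⟨x, hx1, hx2, hx3⟩ := hN3 FX' hFX' hFX'c
    obtain ⟨s, hs1, hs2, hs3⟩ := hM3 FS' hFS' hFS'c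
    refine ⟨univ.image x, univ.image s, ?_, ?_, hab x s hx1 hs1 hx2 hs2⟩
    · intro a ha
      obtain ⟨i, _, rfl⟩ := mem_image.1 ha
      exact hx3 i
    · intro a ha
      obtain ⟨i, _, rfl⟩ := mem_image.1 ha
      exact hs3 i

end Pool.Agent.SEM
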