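import Pool.Agent.Helper73.SEM.Defs

/-!
# SEM-RL: labels of the separating vertices, colours, reserved paths

`rlabel`, proof in words: induction on `R` (remove the largest element `r`; `p r < r`, no other element of `R` has parent `r`).  The new
label `x` must be in the set of `hcount` (with `a` = label of `p r`, arbitrary in `W` if `p r ∉ R`), different from the at most `|R|` old labels, and
`x + lab (p r)` different from the at most `|R|` old sums.  The old sums do not change.

`color`, proof in words: weights `w r = #{v ∈ Sp : p v = r} ≤ D`, total `|Sp| ≥ 3 D`.  Take a maximal set `C ⊆ R` (adding elements one by one) with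
`3 w(C) ≤ 2 |Sp|`... e.g. a set `C` with `3 w(C) ≤ 2|Sp|` of maximal weight; if `3 w(C) < |Sp|` then adding any `r ∉ C` with `w r > 0` (exists)
keeps `3 w ≤ |Sp| + 3 D ≤ 2 |Sp|`, contradiction.  So `|Sp| ≤ 3 w(C)` and `|Sp| ≤ 3 (|Sp| - w(C))`.

`reserve`, proof in words: sort `A` by the value of `c` (`c` nondecreasing along the list), take the first `|B|` elements and give them the elements of `B`
in increasing order: then `c v + β v` is strictly increasing.
-/

set_option autoImplicit false

namespace Pool.Agent.SEM

open Finset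

theorem rlabel {n : ℕ} {p : ℕ → ℕ} (hp : Par n p) (R W FL FS : Finset ℕ) (ρ : ℕ → ℕ)
    (hR : R ⊆ range n) (hW : W.Nonempty)
    (hcount : ∀ a ∈ W, ∀ r ∈ R, 2 * R.card <
      (W.filter fun x => x % 5 = ρ r ∧ x ∉ FL ∧ a + x ∉ FS).card) :
    ∃ lab : ℕ → ℕ, (∀ r ∈ R, lab r ∈ W ∧ lab r % 5 = ρ r ∧ lab r ∉ FL) ∧ Set.InjOn lab R ∧
      (∀ r ∈ R, 0 < r → p r ∈ R → lab r + lab (p r) ∉ FS) ∧
      Set.InjOn (fun r => lab r + lab (p r)) (R.filter fun r => 0 < r ∧ p r ∈ R : Finset ℕ) := by
  obtain ⟨w0, hw0⟩ := hW
  suffices H : ∀ R' : Finset ℕ, R' ⊆ R → ∃ lab : ℕ → ℕ, (∀ r ∈ R', lab r ∈ W ∧ lab r % 5 = ρ r ∧ lab r ∉ FL) ∧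
      Set.InjOn lab R' ∧ (∀ r ∈ R', 0 < r → p r ∈ R' → lab r + lab (p r) ∉ FS) ∧
      Set.InjOn (fun r => lab r + lab (p r)) (R'.filter fun r => 0 < r ∧ p r ∈ R' : Finset ℕ) from
    H R (Finset.Subset.refl R)
  intro R'
  induction R' using Finset.induction_on_max with
  | empty =>
    intro _
    refine ⟨fun _ => 0, ?_, ?_, ?_, ?_⟩ <;> simp
  | insert r s hlt ih =>
    intro hsub
    have hrR : r ∈ R := hsub (Finset.mem_insert_self r s)
    have hsR : s ⊆ R := (Finset.subset_insert r s).trans hsub
    obtain ⟨lab, h1, h2, h3, h4⟩ := ih hsR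
    have hrs : r ∉ s := fun h => lt_irrefl _ (hlt r h)
    have hpr : ∀ x ∈ insert r s, 0 < x → p x < x := fun x hx hx0 =>
      hp x hx0 (Finset.mem_range.mp (hR (hsub hx)))
    set a0 : ℕ := if p r ∈ s then lab (p r) else w0 with ha0
    have ha0W : a0 ∈ W := by
      rw [ha0]
      split_ifs with h
      · exact (h1 _ h).1
      · exact hw0
    set F : Finset ℕ := W.filter fun x => x % 5 = ρ r ∧ x ∉ FL ∧ a0 + x ∉ FS with hF
    set bad : Finset ℕ := s.image lab ∪ s.image (fun r' => lab r' + lab (p r') - a0) with hbad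
    have hbc : bad.card ≤ 2 * R.card := by
      have e1 : (s.image lab).card ≤ R.card := Finset.card_image_le.trans (Finset.card_le_card hsR)
      have e2 : (s.image (fun r' => lab r' + lab (p r') - a0)).card ≤ R.card :=
        Finset.card_image_le.trans (Finset.card_le_card hsR)
      have e3 := Finset.card_union_le (s.image lab) (s.image (fun r' => lab r' + lab (p r') - a0))
      rw [← hbad] at e3
      omega
    have hex : ∃ x ∈ F, x ∉ bad := by
      have h5 : bad.card < F.card := lt_of_le_of_lt hbc (hcount a0 ha0W r hrR)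
      exact Finset.exists_mem_notMem_of_card_lt_card h5
    obtain ⟨x, hxF, hxb⟩ := hex
    rw [hF, Finset.mem_filter] at hxF
    obtain ⟨hxW, hx5, hxFL, hxFS⟩ := hxF
    rw [hbad, Finset.mem_union, not_or] at hxb
    obtain ⟨hxb1, hxb2⟩ := hxb
    set lab' : ℕ → ℕ := Function.update lab r x with hlab'
    have hr' : lab' r = x := by simp [hlab']
    have hs' : ∀ y ∈ s, lab' y = lab y := by
      intro y hy
      have : y ≠ r := fun h => hrs (h ▸ hy)
      simp [hlab', this]
    have hps : ∀ y ∈ s, 0 < y → p y ∈ insert r s → p y ∈ s := by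
      intro y hy hy0 hpy
      rcases Finset.mem_insert.mp hpy with h | h
      · have := hpr y (Finset.mem_insert_of_mem hy) hy0
        have := hlt y hy
        omega
      · exact h
    have hpr' : 0 < r → p r ∈ insert r s → p r ∈ s := by
      intro hr0 hpy
      rcases Finset.mem_insert.mp hpy with h | h
      · have := hpr r (Finset.mem_insert_self r s) hr0
        omega
      · exact h
    refine ⟨lab', ?_, ?_, ?_, ?_⟩
    · intro y hy
      rcases Finset.mem_insert.mp hy with rfl | hy
      · rw [hr']
        exact ⟨hxW, hx5, hxFL⟩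
      · rw [hs' y hy]
        exact h1 y hy
    · intro y hy z hz hyz
      rw [Finset.mem_coe] at hy hz
      rcases Finset.mem_insert.mp hy with hy' | hy' <;> rcases Finset.mem_insert.mp hz with hz' | hz'
      · rw [hy', hz']
      · exfalso
        rw [hy', hr', hs' z hz'] at hyz
        exact hxb1 (Finset.mem_image.mpr ⟨z, hz', hyz.symm⟩)
      · exfalso
        rw [hz', hr', hs' y hy'] at hyz
        exact hxb1 (Finset.mem_image.mpr ⟨y, hy', hyz⟩)
      · rw [hs' y hy', hs' z hz'] at hyz
        exact h2 (Finset.mem_coe.mpr hy') (Finset.mem_coe.mpr hz') hyz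
    · intro y hy hy0 hpy
      rcases Finset.mem_insert.mp hy with hy' | hy'
      · subst hy'
        have hp1 := hpr' hy0 hpy
        rw [hr', hs' _ hp1]
        have : a0 = lab (p y) := by rw [ha0, if_pos hp1]
        rw [add_comm, ← this]
        exact hxFS
      · have hp1 := hps y hy' hy0 hpy
        rw [hs' y hy', hs' _ hp1]
        exact h3 y hy' hy0 hp1
    · -- the new sum is different from the old ones
      have hnew : ∀ y ∈ s, 0 < y → p y ∈ insert r s → 0 < r → p r ∈ insert r s →
          lab' y + lab' (p y) ≠ lab' r + lab' (p r) := by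
        intro y hy hy0 hpy hr0 hprr heq
        have hp1 := hps y hy hy0 hpy
        have hp2 := hpr' hr0 hprr
        rw [hs' y hy, hs' _ hp1, hr', hs' _ hp2] at heq
        have ha : a0 = lab (p r) := by rw [ha0, if_pos hp2]
        rw [← ha] at heq
        refine hxb2 (Finset.mem_image.mpr ⟨y, hy, ?_⟩)
        omega
      intro y hy z hz hyz
      simp only [Finset.coe_filter, Set.mem_ofPred_eq] at hy hz
      obtain ⟨hy1, hy0, hpy⟩ := hy
      obtain ⟨hz1, hz0, hpz⟩ := hz
      simp only at hyz
      rcases Finset.mem_insert.mp hy1 with hy' | hy' <;> rcases Finset.mem_insert.mp hz1 with hz' | hz'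
      · rw [hy', hz']
      · exfalso
        subst hy'
        exact hnew z hz' hz0 hpz hy0 hpy hyz.symm
      · exfalso
        subst hz'
        exact hnew y hy' hy0 hpy hz0 hpz hyz
      · have hp1 := hps y hy' hy0 hpy
        have hp2 := hps z hz' hz0 hpz
        rw [hs' y hy', hs' z hz', hs' _ hp1, hs' _ hp2] at hyz
        refine h4 ?_ ?_ hyz
        · simp only [Finset.coe_filter, Set.mem_ofPred_eq]
          exact ⟨hy', hy0, hp1⟩
        · simp only [Finset.coe_filter, Set.mem_ofPred_eq]
          exact ⟨hz', hz0, hp2⟩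

theorem color (p : ℕ → ℕ) (R Sp : Finset ℕ) (D : ℕ) (hSp : ∀ v ∈ Sp, p v ∈ R)
    (hD : ∀ r, (Sp.filter fun v => p v = r).card ≤ D) (h3 : 3 * D ≤ Sp.card) :
    ∃ C ⊆ R, Sp.card ≤ 3 * (Sp.filter fun v => p v ∈ C).card ∧
      Sp.card ≤ 3 * (Sp.filter fun v => p v ∉ C).card := by
  set w : Finset ℕ → ℕ := fun C => (Sp.filter fun v => p v ∈ C).card with hw
  set Fm : Finset (Finset ℕ) := R.powerset.filter (fun C => 3 * w C ≤ 2 * Sp.card) with hFm
  have hne : Fm.Nonempty := ⟨∅, by simp [hFm, hw]⟩
  obtain ⟨C, hC, hmax⟩ := Fm.exists_max_image w hne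
  rw [hFm, Finset.mem_filter, Finset.mem_powerset] at hC
  obtain ⟨hCR, hC2⟩ := hC
  refine ⟨C, hCR, ?_, ?_⟩
  · by_contra hcon
    push Not at hcon
    have hcon' : 3 * w C < Sp.card := hcon
    have hex : ∃ v ∈ Sp, p v ∉ C := by
      by_contra hall
      push Not at hall
      have : w C = Sp.card := by
        rw [hw]
        simp only
        rw [Finset.filter_true_of_mem hall]
      omega
    obtain ⟨v, hv, hvC⟩ := hex
    have hins : w (insert (p v) C) = w C + (Sp.filter fun u => p u = p v).card := by
      simp only [hw]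
      rw [← Finset.card_union_of_disjoint]
      · congr 1
        ext u
        simp only [Finset.mem_filter, Finset.mem_insert, Finset.mem_union]
        tauto
      · rw [Finset.disjoint_left]
        intro u hu hu2
        simp only [Finset.mem_filter] at hu hu2
        rw [hu2.2] at hu
        exact hvC hu.2
    have hpos : 0 < (Sp.filter fun u => p u = p v).card := by
      rw [Finset.card_pos]
      exact ⟨v, by simp [hv]⟩
    have hle := hD (p v)
    have hmem : insert (p v) C ∈ Fm := by
      rw [hFm, Finset.mem_filter, Finset.mem_powerset]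
      refine ⟨Finset.insert_subset (hSp v hv) hCR, ?_⟩
      omega
    have := hmax _ hmem
    omega
  · have := Finset.card_filter_add_card_filter_not (s := Sp) (fun v => p v ∈ C)
    have h4 : 3 * (Sp.filter fun v => p v ∈ C).card ≤ 2 * Sp.card := hC2
    omega

theorem reserve (A B : Finset ℕ) (c : ℕ → ℕ) (h : B.card ≤ A.card) :
    ∃ (V : Finset ℕ) (β : ℕ → ℕ), V ⊆ A ∧ V.card = B.card ∧ (∀ v ∈ V, β v ∈ B) ∧
      Set.InjOn β V ∧ Set.InjOn (fun v => c v + β v) V := by
  induction B using Finset.induction_on_max generalizing A with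
  | empty => exact ⟨∅, fun _ => 0, by simp⟩
  | insert b s hlt ih =>
    have hbs : b ∉ s := fun h => lt_irrefl _ (hlt b h)
    rw [Finset.card_insert_of_notMem hbs] at h
    have hAne : A.Nonempty := by
      rw [← Finset.card_pos]; omega
    obtain ⟨v0, hv0, hmax⟩ := A.exists_max_image c hAne
    have hA' : s.card ≤ (A.erase v0).card := by
      rw [Finset.card_erase_of_mem hv0]; omega
    obtain ⟨V, β, h1, h2, h3, h4, h5⟩ := ih (A.erase v0) hA'
    have hv0V : v0 ∉ V := fun hh => by
      have := h1 hh
      simp at this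
    have hV : ∀ v ∈ V, v ≠ v0 := fun v hv hh => hv0V (hh ▸ hv)
    refine ⟨insert v0 V, Function.update β v0 b, ?_, ?_, ?_, ?_, ?_⟩
    · exact Finset.insert_subset hv0 (h1.trans (Finset.erase_subset _ _))
    · rw [Finset.card_insert_of_notMem hv0V, Finset.card_insert_of_notMem hbs, h2]
    · intro v hv
      rcases Finset.mem_insert.mp hv with hv | hv
      · subst hv; simp
      · rw [Function.update_of_ne (hV v hv)]
        exact Finset.mem_insert_of_mem (h3 v hv)
    · intro y hy z hz hyz
      rw [Finset.mem_coe] at hy hz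
      rcases Finset.mem_insert.mp hy with hy' | hy' <;> rcases Finset.mem_insert.mp hz with hz' | hz'
      · rw [hy', hz']
      · exfalso
        rw [hy', Function.update_self, Function.update_of_ne (hV z hz')] at hyz
        exact hbs (hyz ▸ h3 z hz')
      · exfalso
        rw [hz', Function.update_self, Function.update_of_ne (hV y hy')] at hyz
        exact hbs (hyz ▸ h3 y hy')
      · rw [Function.update_of_ne (hV y hy'), Function.update_of_ne (hV z hz')] at hyz
        exact h4 (Finset.mem_coe.mpr hy') (Finset.mem_coe.mpr hz') hyz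
    · have hnew : ∀ z ∈ V, c z + β z < c v0 + b := by
        intro z hz
        have e1 := hmax z (Finset.mem_of_mem_erase (h1 hz))
        have e2 := hlt _ (h3 z hz)
        omega
      intro y hy z hz hyz
      simp only at hyz
      rw [Finset.mem_coe] at hy hz
      rcases Finset.mem_insert.mp hy with hy' | hy' <;> rcases Finset.mem_insert.mp hz with hz' | hz'
      · rw [hy', hz']
      · exfalso
        rw [hy', Function.update_self, Function.update_of_ne (hV z hz')] at hyz
        have := hnew z hz'
        omega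
      · exfalso
        rw [hz', Function.update_self, Function.update_of_ne (hV y hy')] at hyz
        have := hnew y hy'
        omega
      · rw [Function.update_of_ne (hV y hy'), Function.update_of_ne (hV z hz')] at hyz
        exact h5 (Finset.mem_coe.mpr hy') (Finset.mem_coe.mpr hz') hyz

end Pool.Agent.SEM
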