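import Pool.Agent.Helper73.SEM.Defs

/-!
# SEM-ST: the structured flexible sets

`q1, q2, q3, q5` pairwise coprime and coprime to 40.  `FX` flexible labels, `FS` flexible sums, `B0 ∪ B1` reserved labels.

Proof in words.  Everything is the Chinese remainder theorem: a residue class modulo `m` meets every interval of `ℓ` consecutive integers in
at least `⌊ℓ/m⌋` elements (`ap_count`).  (Combine the congruences into one class modulo the product with `Nat.chineseRemainder` or the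
`Finset`/`List` version; put this in a lemma `crt_count`: for pairwise coprime moduli and given residues the interval `[a, a+ℓ)` contains at least
`ℓ/(product) - 1` solutions.)
`(st1)` `x ∈ [1,n]`: choose the class `κ`: if `x % 5 ∈ {2,3,4}` use `B0` (`b ≡ 0 mod 5`), if `x % 5 ∈ {0,1}` use `B1` (`b ≡ 2 mod 5`): in both cases
`(b+x) % 5 ∉ {0,1}`.  Congruences: `b ≡ 0 (q5)`, `b ≡ 0 (8)`, `b ≡ -x (q1)`; then `q1 ∣ b + x`.  The range
`max(n/20, 6n/10 - x) < b ≤ min(19n/20, 14n/10 - x)` has length `≥ 0.35 n - 3`; removing the central zone (`8h + 2 ≤ n/100` integers) leaves an interval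
of length `≥ 0.17 n - 3`.
`(st2)` `s ∈ Win n`: `b ≡ 0 (q5)`, `b ≡ 0 (5)`, `b ≡ s (q3)` and `b ≡ e (8)`, `e ∈ {0,1,3}` with `(s - e) mod 8 ∉ {0,1,3}` (such an `e` exists for
each of the 8 classes of `s`: `decide`).  Range `max(n/20, s - 9n/10) ≤ b < min(19n/20, s - n/10)`: length `≥ 0.35n - 3`.
`(st3)` `b ∈ B0 ∪ B1`: `x ≡ 0 (q3)`, `x ≡ 2 (8)`, `x ≡ -b (q1)`, `x mod 5` with `(b + x) % 5 ∉ {0,1}`; range
`max(n/10, 6n/10 - b) < x ≤ min(9n/10, 14n/10 - b)`, length `≥ 0.35 n - 3`.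
`(st4)` `x ≡ 0 (q3)`, `x ≡ 2 (8)`, `x ≡ -a (q1)`, `x ≡ -a' (q2)`, `x mod 5` avoiding the 4 values `-a, 1-a, -a', 1-a'`; range
`max(n/10, 6n/10-a, 6n/10-a') < x ≤ min(9n/10, 14n/10-a, 14n/10-a')`, length `≥ 0.35 n` for `a ∈ [n/10, 9n/10+1]`, `a' ∈ [n/2-h, n/2+h]`.
`(st5)` upper bounds for the sizes (multiples of `q` in an interval of length `≤ n`); lower bounds from `(st3)`.
`(st6)` central labels for the separating vertices: in `[n/2-h, n/2+h]` the class `ρ mod 5` has at least `(2h+1)/5 - 1` elements; at most `(2h+1)/q3+1` are in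
`FX`, none in `B0 ∪ B1`, at most `(2h+1)/q1 + (2h+1)/q2 + 2` satisfy `a + x ∈ FS`; the `q`'s are `≥ 100` and `h ≥ 100`.
-/

set_option autoImplicit false

namespace Pool.Agent.SEM

open Finset

def FXs (n q3 : ℕ) : Finset ℕ :=
  (Icc (n / 10 + 1) (9 * n / 10)).filter fun x => x % q3 = 0 ∧ x % 8 ≠ 0 ∧ x % 8 ≠ 1 ∧ x % 8 ≠ 3

def FSs (n q1 q2 : ℕ) : Finset ℕ :=
  (Icc (6 * n / 10 + 1) (14 * n / 10)).filter fun s =>
    (s % q1 = 0 ∨ s % q2 = 0) ∧ s % 5 ≠ 0 ∧ s % 5 ≠ 1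

/-- reserved labels, `ρ = 0` or `ρ = 2` -/
def Bs (n h q5 ρ : ℕ) : Finset ℕ :=
  (Icc (n / 20 + 1) (19 * n / 20)).filter fun b =>
    (b % 8 = 0 ∨ b % 8 = 1 ∨ b % 8 = 3) ∧ b % q5 = 0 ∧ b % 5 = ρ ∧
      (b + 4 * h < n / 2 ∨ n / 2 + 4 * h < b)

/-- admissible moduli -/
structure Mod (q1 q2 q3 q5 : ℕ) : Prop where
  g1 : 100 ≤ q1
  g2 : 100 ≤ q2
  g3 : 100 ≤ q3
  g5 : 1000 * (40 * q1 * q2 * q3) ≤ q5
  c12 : Nat.Coprime q1 q2
  c13 : Nat.Coprime q1 q3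
  c15 : Nat.Coprime q1 q5
  c23 : Nat.Coprime q2 q3
  c25 : Nat.Coprime q2 q5
  c35 : Nat.Coprime q3 q5
  d1 : Nat.Coprime q1 40
  d2 : Nat.Coprime q2 40
  d3 : Nat.Coprime q3 40
  d5 : Nat.Coprime q5 40

section st97

/-- A residue class meets an interval. -/
private theorem st97_low {m : ℕ} (hm : 0 < m) (r A B k : ℕ) (h : A + k * m ≤ B) :
    k ≤ ((Ioc A B).filter fun x => x ≡ r [MOD m]).card := by
  classical
  set c : ℕ := (r + (m - 1) * (A + 1)) % m with hc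
  have hcm : c < m := Nat.mod_lt _ hm
  have hcong : A + 1 + c ≡ r [MOD m] := by
    have h1 : c ≡ r + (m - 1) * (A + 1) [MOD m] := Nat.mod_modEq _ _
    have h2 : A + 1 + c ≡ A + 1 + (r + (m - 1) * (A + 1)) [MOD m] := Nat.ModEq.add_left _ h1
    refine h2.trans ?_
    have h3 : A + 1 + (r + (m - 1) * (A + 1)) = r + m * (A + 1) := by
      obtain ⟨j, rfl⟩ : ∃ j, m = j + 1 := ⟨m - 1, by omega⟩
      rw [Nat.add_sub_cancel]
      ring
    rw [h3]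
    have h4 : r + m * (A + 1) ≡ r + 0 [MOD m] :=
      Nat.ModEq.add_left _ ((Nat.modEq_zero_iff_dvd).2 (dvd_mul_right _ _))
    simp only [add_zero] at h4
    exact h4
  have hinj : Set.InjOn (fun i : ℕ => A + 1 + c + i * m) (range k : Finset ℕ) := by
    intro i _ j _ hij
    have h1 : i * m = j * m := by
      have : A + 1 + c + i * m = A + 1 + c + j * m := hij
      omega
    exact Nat.eq_of_mul_eq_mul_right hm h1
  rw [← card_range k, ← card_image_of_injOn hinj]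
  refine card_le_card ?_
  intro y hy
  obtain ⟨i, hi, rfl⟩ := mem_image.1 hy
  rw [mem_range] at hi
  rw [mem_filter, mem_Ioc]
  have h1 : (i + 1) * m ≤ k * m := Nat.mul_le_mul_right m hi
  have h2 : (i + 1) * m = i * m + m := by ring
  refine ⟨⟨by omega, by omega⟩, ?_⟩
  have h3 : A + 1 + c + i * m ≡ A + 1 + c + 0 [MOD m] :=
    Nat.ModEq.add_left _ ((Nat.modEq_zero_iff_dvd).2 (dvd_mul_left _ _))
  exact h3.trans (by simpa using hcong)

/-- Multiples in an interval. -/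
private theorem st97_mult {q : ℕ} (A B : ℕ) :
    ((Icc (A + 1) B).filter fun x => x % q = 0).card ≤ B / q - A / q := by
  classical
  have h0 : B / q - A / q = (Ioc (A / q) (B / q)).card := by rw [Nat.card_Ioc]
  rw [h0]
  have hinj : Set.InjOn (fun x : ℕ => x / q) ((Icc (A + 1) B).filter fun x => x % q = 0 : Finset ℕ) := by
    intro x hx y hy hxy
    have hx' := (mem_filter.1 (mem_coe.1 hx)).2
    have hy' := (mem_filter.1 (mem_coe.1 hy)).2
    have h1 := Nat.div_add_mod x q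
    have h2 := Nat.div_add_mod y q
    have h3 : x / q = y / q := hxy
    rw [hx', h3] at h1
    rw [hy'] at h2
    omega
  rw [← card_image_of_injOn hinj]
  refine card_le_card ?_
  intro t ht
  obtain ⟨x, hx, rfl⟩ := mem_image.1 ht
  obtain ⟨hx1, hx2⟩ := mem_filter.1 hx
  rw [mem_Icc] at hx1
  rw [mem_Ioc]
  refine ⟨?_, Nat.div_le_div_right hx1.2⟩
  by_contra h1
  push Not at h1
  have h2 := Nat.div_add_mod x q
  rw [hx2, add_zero] at h2
  have h3 : q * (x / q) ≤ q * (A / q) := Nat.mul_le_mul_left q h1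
  have h4 := Nat.mul_div_le A q
  omega

/-- The number of `x` in `[u, v]` with `q ∣ a + x`. -/
private theorem st97_up {q : ℕ} (hq : 0 < q) (a u v : ℕ) :
    ((Icc u v).filter fun x => (a + x) % q = 0).card ≤ (v - u) / q + 2 := by
  classical
  rcases Nat.lt_or_ge v u with huv | huv
  · rw [Icc_eq_empty (by omega), filter_empty, card_empty]
    exact Nat.zero_le _
  have hinj : Set.InjOn (fun x : ℕ => (a + x) / q)
      ((Icc u v).filter fun x => (a + x) % q = 0 : Finset ℕ) := by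
    intro x hx y hy hxy
    have hx' := (mem_filter.1 (mem_coe.1 hx)).2
    have hy' := (mem_filter.1 (mem_coe.1 hy)).2
    have h1 := Nat.div_add_mod (a + x) q
    have h2 := Nat.div_add_mod (a + y) q
    have h3 : (a + x) / q = (a + y) / q := hxy
    rw [hx', h3] at h1
    rw [hy'] at h2
    omega
  rw [← card_image_of_injOn hinj]
  have h1 : (image (fun x : ℕ => (a + x) / q) ((Icc u v).filter fun x => (a + x) % q = 0)) ⊆
      Icc ((a + u) / q) ((a + v) / q) := by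
    intro t ht
    obtain ⟨x, hx, rfl⟩ := mem_image.1 ht
    obtain ⟨hx1, -⟩ := mem_filter.1 hx
    rw [mem_Icc] at hx1 ⊢
    exact ⟨Nat.div_le_div_right (by omega), Nat.div_le_div_right (by omega)⟩
  refine (card_le_card h1).trans ?_
  rw [Nat.card_Icc]
  have h2 : a + v = (a + u) + (v - u) := by omega
  have h3 := Nat.add_div (a := a + u) (b := v - u) hq
  rw [← h2] at h3
  generalize (v - u) / q = e at h3 ⊢
  split_ifs at h3 <;> omega

variable {q1 q2 q3 q5 : ℕ}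

private theorem st97_crt5 (hq : Mod q1 q2 q3 q5) (e f c1 c2 c3 : ℕ) :
    ∃ r, r ≡ e [MOD 8] ∧ r ≡ f [MOD 5] ∧ r ≡ c1 [MOD q1] ∧ r ≡ c2 [MOD q2] ∧ r ≡ c3 [MOD q3] := by
  obtain ⟨r1, h1, h2⟩ := Nat.chineseRemainder (show Nat.Coprime 8 5 by norm_num) e f
  have k1 : Nat.Coprime (8 * 5) q1 := hq.d1.symm
  obtain ⟨r2, h3, h4⟩ := Nat.chineseRemainder k1 r1 c1
  have k2 : Nat.Coprime (8 * 5 * q1) q2 := Nat.Coprime.mul_left hq.d2.symm hq.c12
  obtain ⟨r3, h5, h6⟩ := Nat.chineseRemainder k2 r2 c2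
  have k3 : Nat.Coprime (8 * 5 * q1 * q2) q3 :=
    Nat.Coprime.mul_left (Nat.Coprime.mul_left hq.d3.symm hq.c13) hq.c23
  obtain ⟨r4, h7, h8⟩ := Nat.chineseRemainder k3 r3 c3
  have e3 : r4 ≡ r3 [MOD 8 * 5 * q1] := h7.of_dvd (dvd_mul_right _ _)
  have e2 : r4 ≡ r2 [MOD 8 * 5 * q1] := e3.trans h5
  have e1 : r4 ≡ r1 [MOD 8 * 5] := (e2.of_dvd (dvd_mul_right _ _)).trans h3
  refine ⟨r4, (e1.of_dvd (dvd_mul_right _ _)).trans h1, (e1.of_dvd (dvd_mul_left _ _)).trans h2,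
    (e2.of_dvd (dvd_mul_left _ _)).trans h4, (h7.of_dvd (dvd_mul_left _ _)).trans h6, h8⟩

private theorem st97_crt6 (hq : Mod q1 q2 q3 q5) (e f c1 c2 c3 c5 : ℕ) :
    ∃ r, r ≡ e [MOD 8] ∧ r ≡ f [MOD 5] ∧ r ≡ c1 [MOD q1] ∧ r ≡ c2 [MOD q2] ∧ r ≡ c3 [MOD q3] ∧
      r ≡ c5 [MOD q5] := by
  obtain ⟨r, h1, h2, h3, h4, h5⟩ := st97_crt5 hq e f c1 c2 c3
  have k : Nat.Coprime (40 * q1 * q2 * q3) q5 :=
    Nat.Coprime.mul_left (Nat.Coprime.mul_left (Nat.Coprime.mul_left hq.d5.symm hq.c15)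
      hq.c25) hq.c35
  obtain ⟨r', h6, h7⟩ := Nat.chineseRemainder k r c5
  refine ⟨r', (h6.of_dvd ?_).trans h1, (h6.of_dvd ?_).trans h2, (h6.of_dvd ?_).trans h3,
    (h6.of_dvd ?_).trans h4, (h6.of_dvd ?_).trans h5, h7⟩
  · exact Dvd.dvd.mul_right (Dvd.dvd.mul_right (Dvd.dvd.mul_right (by norm_num) _) _) _
  · exact Dvd.dvd.mul_right (Dvd.dvd.mul_right (Dvd.dvd.mul_right (by norm_num) _) _) _
  · exact Dvd.dvd.mul_right (Dvd.dvd.mul_right (dvd_mul_left _ _) _) _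
  · exact Dvd.dvd.mul_right (dvd_mul_left _ _) _
  · exact dvd_mul_left _ _

/-- At least `n / (8 M)` solutions in an interval of length `n / 8`. -/
private theorem st97_cnt5 (hq : Mod q1 q2 q3 q5) (e f c1 c2 c3 n A B : ℕ) (hAB : A + n / 8 ≤ B)
    (F : Finset ℕ) (hF : ∀ x, A < x → x ≤ B → x ≡ e [MOD 8] → x ≡ f [MOD 5] → x ≡ c1 [MOD q1] →
      x ≡ c2 [MOD q2] → x ≡ c3 [MOD q3] → x ∈ F) : n / (8 * (40 * q1 * q2 * q3)) ≤ F.card := by
  obtain ⟨r, h1, h2, h3, h4, h5⟩ := st97_crt5 hq e f c1 c2 c3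
  have hM : 0 < 40 * q1 * q2 * q3 := by
    have := hq.g1
    have := hq.g2
    have := hq.g3
    positivity
  refine (st97_low hM r A B _ ?_).trans (card_le_card fun x hx => ?_)
  · refine le_trans (Nat.add_le_add_left ?_ A) hAB
    rw [← Nat.div_div_eq_div_mul]
    exact Nat.div_mul_le_self _ _
  · obtain ⟨hx1, hx2⟩ := mem_filter.1 hx
    rw [mem_Ioc] at hx1
    refine hF x hx1.1 hx1.2 ((hx2.of_dvd ?_).trans h1) ((hx2.of_dvd ?_).trans h2)
      ((hx2.of_dvd ?_).trans h3) ((hx2.of_dvd ?_).trans h4) ((hx2.of_dvd ?_).trans h5)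
    · exact Dvd.dvd.mul_right (Dvd.dvd.mul_right (Dvd.dvd.mul_right (by norm_num) _) _) _
    · exact Dvd.dvd.mul_right (Dvd.dvd.mul_right (Dvd.dvd.mul_right (by norm_num) _) _) _
    · exact Dvd.dvd.mul_right (Dvd.dvd.mul_right (dvd_mul_left _ _) _) _
    · exact Dvd.dvd.mul_right (dvd_mul_left _ _) _
    · exact dvd_mul_left _ _

private theorem st97_cnt6 (hq : Mod q1 q2 q3 q5) (e f c1 c2 c3 c5 n A B : ℕ) (hAB : A + n / 8 ≤ B)
    (F : Finset ℕ) (hF : ∀ x, A < x → x ≤ B → x ≡ e [MOD 8] → x ≡ f [MOD 5] → x ≡ c1 [MOD q1] →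
      x ≡ c2 [MOD q2] → x ≡ c3 [MOD q3] → x ≡ c5 [MOD q5] → x ∈ F) :
    n / (8 * (40 * q1 * q2 * q3 * q5)) ≤ F.card := by
  obtain ⟨r, h1, h2, h3, h4, h5, h6⟩ := st97_crt6 hq e f c1 c2 c3 c5
  have hM3 : 0 < 40 * q1 * q2 * q3 := by
    have := hq.g1
    have := hq.g2
    have := hq.g3
    positivity
  have hM : 0 < 40 * q1 * q2 * q3 * q5 := by
    have := hq.g5
    have : 0 < q5 := by omega
    positivity
  refine (st97_low hM r A B _ ?_).trans (card_le_card fun x hx => ?_)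
  · refine le_trans (Nat.add_le_add_left ?_ A) hAB
    rw [← Nat.div_div_eq_div_mul]
    exact Nat.div_mul_le_self _ _
  · obtain ⟨hx1, hx2⟩ := mem_filter.1 hx
    rw [mem_Ioc] at hx1
    have hx3 : x ≡ r [MOD 40 * q1 * q2 * q3] := hx2.of_dvd (dvd_mul_right _ _)
    refine hF x hx1.1 hx1.2 ((hx3.of_dvd ?_).trans h1) ((hx3.of_dvd ?_).trans h2)
      ((hx3.of_dvd ?_).trans h3) ((hx3.of_dvd ?_).trans h4) ((hx3.of_dvd ?_).trans h5)
      ((hx2.of_dvd (dvd_mul_left _ _)).trans h6)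
    · exact Dvd.dvd.mul_right (Dvd.dvd.mul_right (Dvd.dvd.mul_right (by norm_num) _) _) _
    · exact Dvd.dvd.mul_right (Dvd.dvd.mul_right (Dvd.dvd.mul_right (by norm_num) _) _) _
    · exact Dvd.dvd.mul_right (Dvd.dvd.mul_right (dvd_mul_left _ _) _) _
    · exact Dvd.dvd.mul_right (dvd_mul_left _ _) _
    · exact dvd_mul_left _ _

/-- `x ≡ (q - 1) a` modulo `q` gives `q ∣ a + x`. -/
private theorem st97_neg {q a x : ℕ} (hq : 0 < q) (h : x ≡ (q - 1) * a [MOD q]) :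
    (a + x) % q = 0 := by
  have h1 : a + x ≡ a + (q - 1) * a [MOD q] := Nat.ModEq.add_left _ h
  have h2 : a + (q - 1) * a = q * a := by
    obtain ⟨j, rfl⟩ : ∃ j, q = j + 1 := ⟨q - 1, by omega⟩
    rw [Nat.add_sub_cancel]
    ring
  rw [h2] at h1
  have h3 : a + x ≡ 0 [MOD q] := h1.trans ((Nat.modEq_zero_iff_dvd).2 (dvd_mul_right _ _))
  exact h3

private theorem st97_zero {q x : ℕ} (h : x ≡ 0 [MOD q]) : x % q = 0 := h

private theorem st97_pos (hq : Mod q1 q2 q3 q5) : 0 < q1 ∧ 0 < q2 ∧ 0 < q3 ∧ 0 < q5 := by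
  have h1 := hq.g1
  have h2 := hq.g2
  have h3 := hq.g3
  have h5 := hq.g5
  have h6 : 0 < 40 * q1 * q2 * q3 := by positivity
  exact ⟨by omega, by omega, by omega, by omega⟩

private theorem st97_arith {T G a b c x1 x2 x3 h : ℕ} (h1 : (2 * h + 1) / 5 ≤ T)
    (h2 : T ≤ G + (a + (b + c))) (ha : a ≤ x3 + 2) (hb : b ≤ x1 + 2) (hc : c ≤ x2 + 2)
    (k3 : x3 ≤ 2 * h / 100) (k1 : x1 ≤ 2 * h / 100) (k2 : x2 ≤ 2 * h / 100) (hh : 100 ≤ h) :
    h / 5 ≤ G := by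
  omega

private theorem st97_p1 (hq : Mod q1 q2 q3 q5) {n h : ℕ} (hn : 1000 * h ≤ n) (hh : 100 ≤ h)
    {x : ℕ} (hx : x ∈ Icc 1 n) : n / (8 * (40 * q1 * q2 * q3 * q5)) ≤
      ((Bs n h q5 0 ∪ Bs n h q5 2).filter fun b => b + x ∈ FSs n q1 q2).card := by
  have z1 := (st97_pos hq).1
  rw [mem_Icc] at hx
  obtain ⟨ρ, hρ, hρ1, hρ2⟩ : ∃ ρ : ℕ, (ρ = 0 ∨ ρ = 2) ∧ (ρ + x) % 5 ≠ 0 ∧ (ρ + x) % 5 ≠ 1 := by
    rcases Nat.lt_or_ge (x % 5) 2 with h1 | h1
    · exact ⟨2, Or.inr rfl, by omega, by omega⟩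
    · exact ⟨0, Or.inl rfl, by omega, by omega⟩
  obtain ⟨A, B, hAB, hA, hB, hA', hB', hc⟩ : ∃ A B : ℕ, A + n / 8 ≤ B ∧ n / 20 ≤ A ∧
      B ≤ 19 * n / 20 ∧ 6 * n / 10 ≤ A + x ∧ B + x ≤ 14 * n / 10 ∧
      (B + 4 * h < n / 2 ∨ n / 2 + 4 * h < A) := by
    rcases Nat.lt_or_ge (n / 2) x with h1 | h1
    · exact ⟨n / 10, 4 * n / 10, by omega, by omega, by omega, by omega, by omega, by omega⟩
    · exact ⟨6 * n / 10, 9 * n / 10, by omega, by omega, by omega, by omega, by omega,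
        by omega⟩
  refine st97_cnt6 hq 0 ρ ((q1 - 1) * x) 0 0 0 n A B hAB _
    fun b hb1 hb2 k1 k2 k3 _ _ k6 => ?_
  have k1' : b % 8 = 0 := k1
  have k2' : b % 5 = ρ % 5 := k2
  have k6' : b % q5 = 0 := st97_zero k6
  have k3' := st97_neg z1 k3
  rw [add_comm] at k3'
  clear k1 k2 k3 k6 hAB
  rw [mem_filter]
  refine ⟨?_, ?_⟩
  · have hmem : b ∈ Bs n h q5 ρ := by
      rw [Bs, mem_filter, mem_Icc]
      refine ⟨⟨by omega, by omega⟩, Or.inl k1', k6', ?_, by omega⟩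
      rcases hρ with h1 | h1 <;> omega
    rcases hρ with h1 | h1
    · exact mem_union_left _ (h1 ▸ hmem)
    · exact mem_union_right _ (h1 ▸ hmem)
  · rw [FSs, mem_filter, mem_Icc]
    exact ⟨⟨by omega, by omega⟩, Or.inl k3', by omega, by omega⟩

private theorem st97_p2 (hq : Mod q1 q2 q3 q5) {n h : ℕ} (hn : 1000 * h ≤ n) (hh : 100 ≤ h)
    {s : ℕ} (hs : s ∈ Win n) : n / (8 * (40 * q1 * q2 * q3 * q5)) ≤
      ((Bs n h q5 0 ∪ Bs n h q5 2).filter fun b => b < s ∧ s - b ∈ FXs n q3).card := by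
  rw [Win, mem_Icc] at hs
  obtain ⟨e, he, he1, he2, he3⟩ : ∃ e : ℕ, (e = 0 ∨ e = 1 ∨ e = 3) ∧ (s + 8 - e) % 8 ≠ 0 ∧
      (s + 8 - e) % 8 ≠ 1 ∧ (s + 8 - e) % 8 ≠ 3 := by
    have h1 : s % 8 < 8 := Nat.mod_lt _ (by norm_num)
    by_cases h2 : s % 8 = 1
    · exact ⟨3, by simp, by omega, by omega, by omega⟩
    by_cases h3 : s % 8 = 0
    · exact ⟨1, by simp, by omega, by omega, by omega⟩
    by_cases h4 : s % 8 = 3
    · exact ⟨1, by simp, by omega, by omega, by omega⟩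
    · exact ⟨0, by simp, by omega, by omega, by omega⟩
  obtain ⟨A, B, hAB, hA, hB, hA', hB', hc⟩ : ∃ A B : ℕ, A + n / 8 ≤ B ∧ n / 20 ≤ A ∧
      B ≤ 19 * n / 20 ∧ s ≤ A + 9 * n / 10 ∧ B + n / 10 < s ∧
      (B + 4 * h < n / 2 ∨ n / 2 + 4 * h < A) := by
    rcases Nat.lt_or_ge n s with h1 | h1
    · exact ⟨6 * n / 10 + 1, 9 * n / 10 - 1, by omega, by omega, by omega, by omega, by omega,
        by omega⟩
    · exact ⟨n / 10 + 1, 4 * n / 10 - 1, by omega, by omega, by omega, by omega, by omega,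
        by omega⟩
  refine st97_cnt6 hq e 0 0 0 s 0 n A B hAB _ fun b hb1 hb2 k1 k2 _ _ k5 k6 => ?_
  have k1' : b % 8 = e % 8 := k1
  have k2' : b % 5 = 0 := k2
  have k6' : b % q5 = 0 := st97_zero k6
  have hbs : b < s := by omega
  have h1 : q3 ∣ s - b := (Nat.modEq_iff_dvd' hbs.le).1 k5
  have h2 : (s - b) % q3 = 0 := Nat.mod_eq_zero_of_dvd h1
  clear k1 k2 k5 k6 hAB h1
  rw [mem_filter]
  refine ⟨mem_union_left _ ?_, hbs, ?_⟩
  · rw [Bs, mem_filter, mem_Icc]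
    exact ⟨⟨by omega, by omega⟩, by omega, k6', k2', by omega⟩
  · rw [FXs, mem_filter, mem_Icc]
    exact ⟨⟨by omega, by omega⟩, h2, by omega, by omega, by omega⟩

private theorem st97_p3 (hq : Mod q1 q2 q3 q5) {n h : ℕ} (hn : 1000 * h ≤ n) (hh : 100 ≤ h)
    {b : ℕ} (hb : b ∈ Bs n h q5 0 ∪ Bs n h q5 2) : n / (8 * (40 * q1 * q2 * q3)) ≤
      ((FXs n q3).filter fun x => b + x ∈ FSs n q1 q2).card := by
  have z1 := (st97_pos hq).1
  have hb1 : n / 20 + 1 ≤ b ∧ b ≤ 19 * n / 20 := by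
    rcases mem_union.1 hb with hb | hb <;> exact mem_Icc.1 (mem_filter.1 hb).1
  obtain ⟨f, hf, hf'⟩ : ∃ f : ℕ, (b + f) % 5 ≠ 0 ∧ (b + f) % 5 ≠ 1 := by
    refine ⟨7 - b % 5, ?_, ?_⟩ <;> omega
  obtain ⟨A, B, hAB, hA, hB, hA', hB'⟩ : ∃ A B : ℕ, A + n / 8 ≤ B ∧ n / 10 ≤ A ∧
      B ≤ 9 * n / 10 ∧ 6 * n / 10 ≤ b + A ∧ b + B ≤ 14 * n / 10 := by
    rcases Nat.lt_or_ge (n / 2) b with h1 | h1
    · exact ⟨n / 10 + 1, 4 * n / 10, by omega, by omega, by omega, by omega, by omega⟩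
    · exact ⟨6 * n / 10, 9 * n / 10, by omega, by omega, by omega, by omega, by omega⟩
  refine st97_cnt5 hq 2 f ((q1 - 1) * b) 0 0 n A B hAB _ fun x hx1 hx2 k1 k2 k3 _ k5 => ?_
  have k1' : x % 8 = 2 % 8 := k1
  have k2' : x % 5 = f % 5 := k2
  have k5' : x % q3 = 0 := st97_zero k5
  have k3' := st97_neg z1 k3
  clear k1 k2 k3 k5 hAB
  rw [mem_filter, FXs, FSs, mem_filter, mem_filter, mem_Icc, mem_Icc]
  exact ⟨⟨⟨by omega, by omega⟩, k5', by omega, by omega, by omega⟩, ⟨by omega, by omega⟩,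
    Or.inl k3', by omega, by omega⟩

private theorem st97_p4 (hq : Mod q1 q2 q3 q5) {n h : ℕ} (hn : 1000 * h ≤ n) (hh : 100 ≤ h)
    {a a' : ℕ} (ha : n / 10 ≤ a) (ha2 : a ≤ 9 * n / 10 + 1) (ha' : n / 2 - h ≤ a')
    (ha2' : a' ≤ n / 2 + h) : n / (8 * (40 * q1 * q2 * q3)) ≤
        ((FXs n q3).filter fun x => a + x ∈ FSs n q1 q2 ∧ a' + x ∈ FSs n q1 q2).card := by
  have z1 := (st97_pos hq).1
  have z2 := (st97_pos hq).2.1
  obtain ⟨f, hf1, hf2, hf3, hf4⟩ : ∃ f : ℕ, (a + f) % 5 ≠ 0 ∧ (a + f) % 5 ≠ 1 ∧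
      (a' + f) % 5 ≠ 0 ∧ (a' + f) % 5 ≠ 1 := by
    clear ha ha2 ha' ha2' hn hh z1 z2
    have key : ∀ u v : Fin 5, ∃ f : Fin 5, ((u : ℕ) + f) % 5 ≠ 0 ∧ ((u : ℕ) + f) % 5 ≠ 1 ∧
      ((v : ℕ) + f) % 5 ≠ 0 ∧ ((v : ℕ) + f) % 5 ≠ 1 := by decide
    obtain ⟨f, h1, h2, h3, h4⟩ := key ⟨a % 5, Nat.mod_lt _ (by norm_num)⟩
      ⟨a' % 5, Nat.mod_lt _ (by norm_num)⟩
    simp only at h1 h2 h3 h4
    refine ⟨f, ?_, ?_, ?_, ?_⟩ <;> omega
  obtain ⟨A, B, hAB, hA, hB, hA', hB', hA2, hB2⟩ : ∃ A B : ℕ, A + n / 8 ≤ B ∧ n / 10 ≤ A ∧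
      B ≤ 9 * n / 10 ∧ 6 * n / 10 ≤ a + A ∧ a + B ≤ 14 * n / 10 ∧
      6 * n / 10 ≤ a' + A ∧ a' + B ≤ 14 * n / 10 := by
    rcases Nat.lt_or_ge (n / 2) a with h1 | h1
    · exact ⟨11 * n / 100 + 1, 4 * n / 10 - 1, by omega, by omega, by omega, by omega,
        by omega, by omega, by omega⟩
    · exact ⟨6 * n / 10, 89 * n / 100, by omega, by omega, by omega, by omega, by omega,
        by omega, by omega⟩
  refine st97_cnt5 hq 2 f ((q1 - 1) * a) ((q2 - 1) * a') 0 n A B hAB _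
    fun x hx1 hx2 k1 k2 k3 k4 k5 => ?_
  have k1' : x % 8 = 2 % 8 := k1
  have k2' : x % 5 = f % 5 := k2
  have k5' : x % q3 = 0 := st97_zero k5
  have k3' := st97_neg z1 k3
  have k4' := st97_neg z2 k4
  clear k1 k2 k3 k4 k5 hAB ha ha2 ha' ha2'
  simp only [FXs, FSs, mem_filter, mem_Icc]
  exact ⟨⟨⟨by omega, by omega⟩, k5', by omega, by omega, by omega⟩, ⟨⟨by omega, by omega⟩,
    Or.inl k3', by omega, by omega⟩, ⟨by omega, by omega⟩, Or.inr k4', by omega, by omega⟩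

private theorem st97_B5 (n h q5 : ℕ) : (Bs n h q5 0 ∪ Bs n h q5 2).card ≤ n / q5 := by
  classical
  have h1 : Bs n h q5 0 ∪ Bs n h q5 2 ⊆
      (Icc (n / 20 + 1) (19 * n / 20)).filter fun x => x % q5 = 0 := by
    intro b hb
    rcases mem_union.1 hb with hb | hb
    · have := mem_filter.1 hb
      exact mem_filter.2 ⟨this.1, this.2.2.1⟩
    · have := mem_filter.1 hb
      exact mem_filter.2 ⟨this.1, this.2.2.1⟩
  refine (card_le_card h1).trans ((st97_mult _ _).trans ?_)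
  have h2 : 19 * n / 20 / q5 ≤ n / q5 := Nat.div_le_div_right (by omega)
  exact (Nat.sub_le _ _).trans h2

private theorem st97_B20 (hq : Mod q1 q2 q3 q5) (n h : ℕ) :
    20 * (Bs n h q5 0 ∪ Bs n h q5 2).card ≤ n / (8 * (40 * q1 * q2 * q3)) := by
  obtain ⟨z1, z2, z3, z5⟩ := st97_pos hq
  have hM : 0 < 40 * q1 * q2 * q3 := by positivity
  have h1 : n / q5 ≤ n / (1000 * (40 * q1 * q2 * q3)) := Nat.div_le_div_left hq.g5 (by positivity)
  have h2 : 20 * (n / (1000 * (40 * q1 * q2 * q3))) ≤ n / (8 * (40 * q1 * q2 * q3)) := by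
    rw [Nat.le_div_iff_mul_le (by positivity)]
    have h3 := Nat.div_mul_le_self n (1000 * (40 * q1 * q2 * q3))
    calc 20 * (n / (1000 * (40 * q1 * q2 * q3))) * (8 * (40 * q1 * q2 * q3))
        = 160 * (n / (1000 * (40 * q1 * q2 * q3)) * (40 * q1 * q2 * q3)) := by ring
      _ ≤ 1000 * (n / (1000 * (40 * q1 * q2 * q3)) * (40 * q1 * q2 * q3)) :=
          Nat.mul_le_mul_right _ (by norm_num)
      _ = n / (1000 * (40 * q1 * q2 * q3)) * (1000 * (40 * q1 * q2 * q3)) := by ring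
      _ ≤ n := h3
  exact (Nat.mul_le_mul_left _ (st97_B5 n h q5)).trans ((Nat.mul_le_mul_left _ h1).trans h2)

private theorem st97_FX (n q3 : ℕ) : (FXs n q3).card ≤ n / q3 := by
  classical
  have h1 : FXs n q3 ⊆ (Icc (n / 10 + 1) (9 * n / 10)).filter fun x => x % q3 = 0 := by
    intro b hb
    have := mem_filter.1 hb
    exact mem_filter.2 ⟨this.1, this.2.1⟩
  refine (card_le_card h1).trans ((st97_mult _ _).trans ?_)
  have h2 : 9 * n / 10 / q3 ≤ n / q3 := Nat.div_le_div_right (by omega)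
  exact (Nat.sub_le _ _).trans h2

private theorem st97_FS {q1 q2 : ℕ} (n : ℕ) (z1 : 0 < q1) (z2 : 0 < q2) :
    (FSs n q1 q2).card ≤ n / q1 + n / q2 + 2 := by
  classical
  have h1 : FSs n q1 q2 ⊆ ((Icc (6 * n / 10 + 1) (14 * n / 10)).filter fun x => x % q1 = 0) ∪
      (Icc (6 * n / 10 + 1) (14 * n / 10)).filter fun x => x % q2 = 0 := by
    intro b hb
    have h2 := mem_filter.1 hb
    rcases h2.2.1 with h3 | h3
    · exact mem_union_left _ (mem_filter.2 ⟨h2.1, h3⟩)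
    · exact mem_union_right _ (mem_filter.2 ⟨h2.1, h3⟩)
  have key : ∀ q : ℕ, 0 < q → 14 * n / 10 / q - 6 * n / 10 / q ≤ n / q + 1 := by
    intro q hq0
    have h2 : 14 * n / 10 ≤ 6 * n / 10 + n := by omega
    have h3 : 14 * n / 10 / q ≤ (6 * n / 10 + n) / q := Nat.div_le_div_right h2
    have h4 := Nat.add_div (a := 6 * n / 10) (b := n) hq0
    generalize 14 * n / 10 / q = u at *
    generalize (6 * n / 10 + n) / q = v at *
    generalize 6 * n / 10 / q = w at *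
    generalize n / q = t at *
    split_ifs at h4 <;> omega
  have h2 := st97_mult (q := q1) (6 * n / 10) (14 * n / 10)
  have h3 := st97_mult (q := q2) (6 * n / 10) (14 * n / 10)
  have h4 := key q1 z1
  have h5 := key q2 z2
  refine (card_le_card h1).trans ((card_union_le _ _).trans ((Nat.add_le_add (h2.trans h4)
    (h3.trans h5)).trans ?_))
  generalize n / q1 = u
  generalize n / q2 = v
  omega

private theorem st97_p6 (hq : Mod q1 q2 q3 q5) {n h : ℕ} (hn : 1000 * h ≤ n) (hh : 100 ≤ h)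
    {a ρ : ℕ} (hρ : ρ < 5) :
    h / 5 ≤ ((Icc (n / 2 - h) (n / 2 + h)).filter fun x => x % 5 = ρ ∧
        x ∉ FXs n q3 ∪ Bs n h q5 0 ∪ Bs n h q5 2 ∧ a + x ∉ FSs n q1 q2).card := by
  classical
  obtain ⟨z1, z2, z3, z5⟩ := st97_pos hq
  have hlow : (2 * h + 1) / 5 ≤
      ((Icc (n / 2 - h) (n / 2 + h)).filter fun x => x % 5 = ρ).card := by
    have h1 := st97_low (m := 5) (by norm_num) ρ (n / 2 - h - 1) (n / 2 + h) ((2 * h + 1) / 5)
      (by omega)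
    refine h1.trans (card_le_card fun x hx => ?_)
    obtain ⟨hx1, hx2⟩ := mem_filter.1 hx
    rw [mem_Ioc] at hx1
    rw [mem_filter, mem_Icc]
    have h2 : x % 5 = ρ % 5 := hx2
    clear hx2 h1 hx
    refine ⟨by omega, by omega⟩
  have hcov : ((Icc (n / 2 - h) (n / 2 + h)).filter fun x => x % 5 = ρ) ⊆
      ((Icc (n / 2 - h) (n / 2 + h)).filter fun x => x % 5 = ρ ∧
        x ∉ FXs n q3 ∪ Bs n h q5 0 ∪ Bs n h q5 2 ∧
        a + x ∉ FSs n q1 q2) ∪ (((Icc (n / 2 - h) (n / 2 + h)).filter fun x => (0 + x) % q3 = 0) ∪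
      (((Icc (n / 2 - h) (n / 2 + h)).filter fun x => (a + x) % q1 = 0) ∪
        ((Icc (n / 2 - h) (n / 2 + h)).filter fun x => (a + x) % q2 = 0))) := by
    intro x hx
    obtain ⟨hx1, hx2⟩ := mem_filter.1 hx
    by_cases h1 : x ∈ FXs n q3 ∪ Bs n h q5 0 ∪ Bs n h q5 2
    · have hx1' := mem_Icc.1 hx1
      have hnB : ∀ ρ', x ∉ Bs n h q5 ρ' := by
        intro ρ' hx'
        have h2 := (mem_filter.1 hx').2.2.2.2
        clear h1 hx hx1 hx' hlow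
        omega
      rcases mem_union.1 h1 with h2 | h2
      · rcases mem_union.1 h2 with h3 | h3
        · refine mem_union_right _ (mem_union_left _ (mem_filter.2 ⟨hx1, ?_⟩))
          rw [zero_add]
          exact (mem_filter.1 h3).2.1
        · exact absurd h3 (hnB _)
      · exact absurd h2 (hnB _)
    · by_cases h2 : a + x ∈ FSs n q1 q2
      · rcases (mem_filter.1 h2).2.1 with h3 | h3
        · exact mem_union_right _ (mem_union_right _ (mem_union_left _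
            (mem_filter.2 ⟨hx1, h3⟩)))
        · exact mem_union_right _ (mem_union_right _ (mem_union_right _
            (mem_filter.2 ⟨hx1, h3⟩)))
      · exact mem_union_left _ (mem_filter.2 ⟨hx1, hx2, h1, h2⟩)
  have hc := (card_le_card hcov).trans ((card_union_le _ _).trans (Nat.add_le_add_left
    ((card_union_le _ _).trans (Nat.add_le_add_left (card_union_le _ _) _)) _))
  have u3 := st97_up z3 0 (n / 2 - h) (n / 2 + h)
  have u1 := st97_up z1 a (n / 2 - h) (n / 2 + h)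
  have u2 := st97_up z2 a (n / 2 - h) (n / 2 + h)
  have hlen : n / 2 + h - (n / 2 - h) = 2 * h := by
    clear hc u1 u2 u3 hcov hlow
    omega
  rw [hlen] at u1 u2 u3
  have v1 : 2 * h / q1 ≤ 2 * h / 100 := Nat.div_le_div_left hq.g1 (by norm_num)
  have v2 : 2 * h / q2 ≤ 2 * h / 100 := Nat.div_le_div_left hq.g2 (by norm_num)
  have v3 : 2 * h / q3 ≤ 2 * h / 100 := Nat.div_le_div_left hq.g3 (by norm_num)
  exact st97_arith hlow hc u3 u1 u2 v3 v1 v2 hh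

end st97

theorem mod_exists (Q0 : ℕ) : ∃ q1 q2 q3 q5 : ℕ, Mod q1 q2 q3 q5 ∧ Q0 ≤ q1 ∧ Q0 ≤ q2 ∧ Q0 ≤ q3 := by
  obtain ⟨q1, hq1, p1⟩ := Nat.exists_infinite_primes (Q0 + 100)
  obtain ⟨q2, hq2, p2⟩ := Nat.exists_infinite_primes (q1 + 1)
  obtain ⟨q3, hq3, p3⟩ := Nat.exists_infinite_primes (q2 + 1)
  obtain ⟨q5, hq5, p5⟩ := Nat.exists_infinite_primes (q3 + 1 + 1000 * (40 * q1 * q2 * q3))
  have hcop : ∀ q, q.Prime → 100 ≤ q → Nat.Coprime q 40 := by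
    intro q hq h
    rw [Nat.Prime.coprime_iff_not_dvd hq]
    intro hd
    exact absurd (Nat.le_of_dvd (by norm_num) hd) (by omega)
  refine ⟨q1, q2, q3, q5, ⟨by omega, by omega, by omega, by omega, ?_, ?_, ?_, ?_, ?_, ?_,
    hcop _ p1 (by omega), hcop _ p2 (by omega), hcop _ p3 (by omega), hcop _ p5 (by omega)⟩,
    by omega, by omega, by omega⟩
  · exact (Nat.coprime_primes p1 p2).2 (by omega)
  · exact (Nat.coprime_primes p1 p3).2 (by omega)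
  · exact (Nat.coprime_primes p1 p5).2 (by omega)
  · exact (Nat.coprime_primes p2 p3).2 (by omega)
  · exact (Nat.coprime_primes p2 p5).2 (by omega)
  · exact (Nat.coprime_primes p3 p5).2 (by omega)

theorem st_sets (q1 q2 q3 q5 : ℕ) (hq : Mod q1 q2 q3 q5) : ∃ n0 : ℕ, ∀ n h : ℕ, n0 ≤ n →
    1000 * h ≤ n → 100 ≤ h →
    -- (st1)
    (∀ x ∈ Icc 1 n, n / (8 * (40 * q1 * q2 * q3 * q5)) ≤
      ((Bs n h q5 0 ∪ Bs n h q5 2).filter fun b => b + x ∈ FSs n q1 q2).card) ∧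
    -- (st2)
    (∀ s ∈ Win n, n / (8 * (40 * q1 * q2 * q3 * q5)) ≤
      ((Bs n h q5 0 ∪ Bs n h q5 2).filter fun b => b < s ∧ s - b ∈ FXs n q3).card) ∧
    -- (st3)
    (∀ b ∈ Bs n h q5 0 ∪ Bs n h q5 2, n / (8 * (40 * q1 * q2 * q3)) ≤
      ((FXs n q3).filter fun x => b + x ∈ FSs n q1 q2).card) ∧
    -- (st4)
    (∀ a a' : ℕ, n / 10 ≤ a → a ≤ 9 * n / 10 + 1 → n / 2 - h ≤ a' → a' ≤ n / 2 + h →
      n / (8 * (40 * q1 * q2 * q3)) ≤
        ((FXs n q3).filter fun x => a + x ∈ FSs n q1 q2 ∧ a' + x ∈ FSs n q1 q2).card) ∧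
    -- (st5)
    ((FXs n q3).card ≤ n / q3 + 1 ∧ (FSs n q1 q2).card ≤ n / q1 + n / q2 + 2 ∧
      (Bs n h q5 0 ∪ Bs n h q5 2).card ≤ n / q5 + 1 ∧
      20 * (Bs n h q5 0 ∪ Bs n h q5 2).card ≤ n / (8 * (40 * q1 * q2 * q3)) ∧
      20 * (Bs n h q5 0 ∪ Bs n h q5 2).card ≤ (FXs n q3).card ∧
      20 * (Bs n h q5 0 ∪ Bs n h q5 2).card ≤ (FSs n q1 q2).card) ∧
    -- (st6)
    (∀ a ρ : ℕ, ρ < 5 → n / 2 - h ≤ a → a ≤ n / 2 + h →
      h / 5 ≤ ((Icc (n / 2 - h) (n / 2 + h)).filter fun x => x % 5 = ρ ∧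
        x ∉ FXs n q3 ∪ Bs n h q5 0 ∪ Bs n h q5 2 ∧ a + x ∉ FSs n q1 q2).card) := by
  classical
  refine ⟨0, fun n h _ hn hh => ?_⟩
  obtain ⟨z1, z2, z3, z5⟩ := st97_pos hq
  refine ⟨fun x hx => st97_p1 hq hn hh hx, fun s hs => st97_p2 hq hn hh hs,
    fun b hb => st97_p3 hq hn hh hb, fun a a' h1 h2 h3 h4 => st97_p4 hq hn hh h1 h2 h3 h4,
    ⟨(st97_FX n q3).trans (Nat.le_succ _), st97_FS n z1 z2, (st97_B5 n h q5).trans
      (Nat.le_succ _), st97_B20 hq n h, ?_, ?_⟩, fun a ρ h1 _ _ => st97_p6 hq hn hh h1⟩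
  · rcases (Bs n h q5 0 ∪ Bs n h q5 2).eq_empty_or_nonempty with h1 | ⟨b, hb⟩
    · rw [h1, card_empty]
      exact Nat.zero_le _
    · exact (st97_B20 hq n h).trans ((st97_p3 hq hn hh hb).trans (card_filter_le _ _))
  · rcases (Bs n h q5 0 ∪ Bs n h q5 2).eq_empty_or_nonempty with h1 | ⟨b, hb⟩
    · rw [h1, card_empty]
      exact Nat.zero_le _
    · refine (st97_B20 hq n h).trans ((st97_p3 hq hn hh hb).trans ?_)
      refine card_le_card_of_injOn (fun x => b + x) (fun x hx => ?_) (fun x _ y _ hxy => ?_)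
      · exact (mem_filter.1 hx).2
      · exact Nat.add_left_cancel hxy

end Pool.Agent.SEM
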