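import Pool.Agent.Helper73.SEM.FB
import Pool.Agent.Helper73.SEM.FP1
import Pool.Agent.Helper73.SEM.RL
import Pool.Agent.Helper73.SEM.ST

/-!
# SEM-FP2: construction of the data
-/

set_option autoImplicit false

namespace Pool.Agent.SEM

open Finset

theorem count_res {Res B : Finset ℕ} {β : ℕ → ℕ} (hc : Res.card = B.card)
    (hB : ∀ v ∈ Res, β v ∈ B) (hI : Set.InjOn β Res) (Q : ℕ → Prop) [DecidablePred Q] :
    (B.filter Q).card ≤ (Res.filter fun v => Q (β v)).card := by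
  have h1 : Res.image β = B := by
    apply eq_of_subset_of_card_le
    · intro b hb
      obtain ⟨v, hv, rfl⟩ := mem_image.1 hb
      exact hB v hv
    · rw [card_image_of_injOn hI, hc]
  rw [← h1]
  have h2 : (Res.image β).filter Q = (Res.filter fun v => Q (β v)).image β := by
    ext b
    simp only [mem_filter, mem_image]
    constructor
    · rintro ⟨⟨v, hv, rfl⟩, h⟩
      exact ⟨v, ⟨hv, h⟩, rfl⟩
    · rintro ⟨v, ⟨hv, h⟩, rfl⟩
      exact ⟨⟨v, hv, rfl⟩, h⟩
  rw [h2]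
  exact card_image_le

theorem mem_Bs {n h q5 ρ b : ℕ} : b ∈ Bs n h q5 ρ ↔ (n / 20 + 1 ≤ b ∧ b ≤ 19 * n / 20) ∧
    (b % 8 = 0 ∨ b % 8 = 1 ∨ b % 8 = 3) ∧ b % q5 = 0 ∧ b % 5 = ρ ∧
      (b + 4 * h < n / 2 ∨ n / 2 + 4 * h < b) := by
  simp only [Bs, mem_filter, mem_Icc]

theorem mem_FXs {n q3 x : ℕ} : x ∈ FXs n q3 ↔ (n / 10 + 1 ≤ x ∧ x ≤ 9 * n / 10) ∧
    x % q3 = 0 ∧ x % 8 ≠ 0 ∧ x % 8 ≠ 1 ∧ x % 8 ≠ 3 := by
  simp only [FXs, mem_filter, mem_Icc]

theorem mem_FSs {n q1 q2 s : ℕ} : s ∈ FSs n q1 q2 ↔ (6 * n / 10 + 1 ≤ s ∧ s ≤ 14 * n / 10) ∧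
    (s % q1 = 0 ∨ s % q2 = 0) ∧ s % 5 ≠ 0 ∧ s % 5 ≠ 1 := by
  simp only [FSs, mem_filter, mem_Icc]

/-- reserved paths -/
theorem reserve2 {p lab : ℕ → ℕ} {C Sp : Finset ℕ} {n h q5 : ℕ}
    (hl0 : ∀ v ∈ Sp, p v ∉ C → lab (p v) % 5 = 0) (hl1 : ∀ v ∈ Sp, p v ∈ C → lab (p v) % 5 = 4)
    (hb0 : (Bs n h q5 0).card ≤ (Sp.filter fun v => p v ∉ C).card)
    (hb1 : (Bs n h q5 2).card ≤ (Sp.filter fun v => p v ∈ C).card) :
    ∃ (Res : Finset ℕ) (β : ℕ → ℕ), Res ⊆ Sp ∧ Res.card = (Bs n h q5 0 ∪ Bs n h q5 2).card ∧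
      (∀ v ∈ Res, β v ∈ Bs n h q5 0 ∪ Bs n h q5 2) ∧ Set.InjOn β Res ∧
      Set.InjOn (fun v => lab (p v) + β v) Res ∧
      ∀ v ∈ Res, (lab (p v) + β v) % 5 = 0 ∨ (lab (p v) + β v) % 5 = 1 := by
  classical
  obtain ⟨V0, β0, a1, a2, a3, a4, a5⟩ := reserve (Sp.filter fun v => p v ∉ C) (Bs n h q5 0)
    (fun v => lab (p v)) hb0
  obtain ⟨V1, β1, b1, b2, b3, b4, b5⟩ := reserve (Sp.filter fun v => p v ∈ C) (Bs n h q5 2)
    (fun v => lab (p v)) hb1
  have hV0 : ∀ v ∈ V0, v ∈ Sp ∧ p v ∉ C := fun v hv => mem_filter.1 (a1 hv)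
  have hV1 : ∀ v ∈ V1, v ∈ Sp ∧ p v ∈ C := fun v hv => mem_filter.1 (b1 hv)
  set β : ℕ → ℕ := fun v => if p v ∈ C then β1 v else β0 v with hβ
  have hβ0 : ∀ v ∈ V0, β v = β0 v := fun v hv => by simp [hβ, (hV0 v hv).2]
  have hβ1 : ∀ v ∈ V1, β v = β1 v := fun v hv => by simp [hβ, (hV1 v hv).2]
  have hdB : Disjoint (Bs n h q5 0) (Bs n h q5 2) := by
    rw [disjoint_left]; intro b h1 h2
    rw [mem_Bs] at h1 h2
    omega
  have hdV : Disjoint V0 V1 := by
    rw [disjoint_left]; intro v h1 h2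
    exact (hV0 v h1).2 (hV1 v h2).2
  have m0 : ∀ v ∈ V0, β v ∈ Bs n h q5 0 ∧ (lab (p v) + β v) % 5 = 0 := by
    intro v hv
    have h1 := a3 v hv
    rw [hβ0 v hv]
    refine ⟨h1, ?_⟩
    rw [mem_Bs] at h1
    have := hl0 v (hV0 v hv).1 (hV0 v hv).2
    omega
  have m1 : ∀ v ∈ V1, β v ∈ Bs n h q5 2 ∧ (lab (p v) + β v) % 5 = 1 := by
    intro v hv
    have h1 := b3 v hv
    rw [hβ1 v hv]
    refine ⟨h1, ?_⟩
    rw [mem_Bs] at h1
    have := hl1 v (hV1 v hv).1 (hV1 v hv).2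
    omega
  refine ⟨V0 ∪ V1, β, ?_, ?_, ?_, ?_, ?_, ?_⟩
  · intro v hv
    rcases mem_union.1 hv with h | h
    · exact (hV0 v h).1
    · exact (hV1 v h).1
  · rw [card_union_of_disjoint hdV, card_union_of_disjoint hdB, a2, b2]
  · intro v hv
    rcases mem_union.1 hv with h | h
    · exact mem_union_left _ (m0 v h).1
    · exact mem_union_right _ (m1 v h).1
  · intro v hv w hw h
    rw [mem_coe, mem_union] at hv hw
    rcases hv with hv | hv <;> rcases hw with hw | hw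
    · rw [hβ0 v hv, hβ0 w hw] at h
      exact a4 hv hw h
    · exact absurd (h ▸ (m0 v hv).1) (fun h' => disjoint_left.1 hdB h' (m1 w hw).1)
    · exact absurd (m0 w hw).1 (fun h' => disjoint_left.1 hdB h' (h ▸ (m1 v hv).1))
    · rw [hβ1 v hv, hβ1 w hw] at h
      exact b4 hv hw h
  · intro v hv w hw h
    rw [mem_coe, mem_union] at hv hw
    replace h : lab (p v) + β v = lab (p w) + β w := h
    rcases hv with hv | hv <;> rcases hw with hw | hw
    · rw [hβ0 v hv, hβ0 w hw] at h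
      exact a5 hv hw h
    · have h1 := (m0 v hv).2
      have h2 := (m1 w hw).2
      omega
    · have h1 := (m1 v hv).2
      have h2 := (m0 w hw).2
      omega
    · rw [hβ1 v hv, hβ1 w hw] at h
      exact b5 hv hw h
  · intro v hv
    rcases mem_union.1 hv with h | h
    · exact Or.inl (m0 v h).2
    · exact Or.inr (m1 v h).2

/-- construction of all the data -/
theorem mk_dat {n K h D q1 q2 q3 q5 κ κ' : ℕ} {p top : ℕ → ℕ} {R Sp : Finset ℕ}
    (hp : Par n p) (hD : Dec n p K R top)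
    (hchl : ∀ v, v < n → (chl n p v).card ≤ D)
    (hnR : ∀ v, Pend n p v → v ∉ R ∧ uc n p v ∉ R)
    (hSp : ∀ v ∈ Sp, Pend n p v ∧ p v ∈ R)
    (st1 : ∀ x ∈ Icc 1 n, κ ≤
      ((Bs n h q5 0 ∪ Bs n h q5 2).filter fun b => b + x ∈ FSs n q1 q2).card)
    (st2 : ∀ s ∈ Win n, κ ≤
      ((Bs n h q5 0 ∪ Bs n h q5 2).filter fun b => b < s ∧ s - b ∈ FXs n q3).card)
    (st3 : ∀ b ∈ Bs n h q5 0 ∪ Bs n h q5 2, κ' ≤
      ((FXs n q3).filter fun x => b + x ∈ FSs n q1 q2).card)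
    (st4 : ∀ a a' : ℕ, n / 10 ≤ a → a ≤ 9 * n / 10 + 1 → n / 2 - h ≤ a' → a' ≤ n / 2 + h →
      κ' ≤ ((FXs n q3).filter fun x => a + x ∈ FSs n q1 q2 ∧ a' + x ∈ FSs n q1 q2).card)
    (st5X : 20 * (Bs n h q5 0 ∪ Bs n h q5 2).card ≤ (FXs n q3).card)
    (st5S : 20 * (Bs n h q5 0 ∪ Bs n h q5 2).card ≤ (FSs n q1 q2).card)
    (st6 : ∀ a ρ : ℕ, ρ < 5 → n / 2 - h ≤ a → a ≤ n / 2 + h →
      h / 5 ≤ ((Icc (n / 2 - h) (n / 2 + h)).filter fun x => x % 5 = ρ ∧
        x ∉ FXs n q3 ∪ Bs n h q5 0 ∪ Bs n h q5 2 ∧ a + x ∉ FSs n q1 q2).card)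
    (hh : 1000 * h + 1000 ≤ n) (hh1 : 100 ≤ h) (hRh : 10 * R.card + 10 ≤ h) (hκ : 1 ≤ κ)
    (hD3 : 3 * D ≤ Sp.card) (hb3 : 3 * (Bs n h q5 0 ∪ Bs n h q5 2).card ≤ Sp.card)
    (hbig : 504100 * (D + 1) + 213 * (FXs n q3).card + 633 * (FSs n q1 q2).card +
      (Bs n h q5 0 ∪ Bs n h q5 2).card ≤ Sp.card)
    (hu2 : 71000 * (R.card + 1269 * ((FXs n q3).card + (FSs n q1 q2).card) +
      (Bs n h q5 0 ∪ Bs n h q5 2).card + 710) ≤ n) :
    ∃ (lab β : ℕ → ℕ) (Res P YX YS L Sm : Finset ℕ),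
      Dat n K ((FXs n q3).card - (Bs n h q5 0 ∪ Bs n h q5 2).card)
        ((FSs n q1 q2).card - (Bs n h q5 0 ∪ Bs n h q5 2).card) κ κ' p top lab β R Res P
        (FXs n q3) (FSs n q1 q2) YX YS L Sm ∧
      Res.card = (Bs n h q5 0 ∪ Bs n h q5 2).card ∧ Res ∪ P ⊆ Sp ∧
      (∀ r ∈ R, n / 2 ≤ lab r + h ∧ lab r ≤ n / 2 + h) ∧
      (UXs lab β R Res (FXs n q3) YX ∪ L).card ≤
        R.card + 2000 * ((FXs n q3).card + (FSs n q1 q2).card) ∧
      (USs p lab β R Res (FSs n q1 q2) YS ∪ Sm).card ≤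
        R.card + 2000 * ((FXs n q3).card + (FSs n q1 q2).card) := by
  classical
  set B := Bs n h q5 0 ∪ Bs n h q5 2 with hBdef
  set FX := FXs n q3 with hFXdef
  set FS := FSs n q1 q2 with hFSdef
  have hB1 : 1 ≤ B.card := by
    have h1 := st1 1 (mem_Icc.2 ⟨le_rfl, by omega⟩)
    have h2 := card_filter_le B (fun b => b + 1 ∈ FS)
    omega
  have hSpn : ∀ v ∈ Sp, 0 < v ∧ v < n := fun v hv => ⟨(hSp v hv).1.1, (hSp v hv).1.2.1⟩
  have hpD : ∀ r, (Sp.filter fun v => p v = r).card ≤ D := by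
    intro r
    rcases (Sp.filter fun v => p v = r).eq_empty_or_nonempty with h0 | ⟨v, hv⟩
    · rw [h0, card_empty]; omega
    · rw [mem_filter] at hv
      have hrn : r < n := by
        have := hp v (hSpn v hv.1).1 (hSpn v hv.1).2
        have := (hSpn v hv.1).2
        omega
      refine (card_le_card ?_).trans (hchl r hrn)
      intro w hw
      rw [mem_filter] at hw
      exact mem_chl.2 ⟨(hSpn w hw.1).2, (hSpn w hw.1).1, hw.2⟩
  obtain ⟨C, hCR, hC1, hC0⟩ := color p R Sp D (fun v hv => (hSp v hv).2) hpD hD3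
  set W := Icc (n / 2 - h) (n / 2 + h) with hW
  obtain ⟨lab, l1, l2, l3, l4⟩ := rlabel hp R W (FX ∪ Bs n h q5 0 ∪ Bs n h q5 2) FS
    (fun r => if r ∈ C then 4 else 0) hD.sub ⟨n / 2, by rw [hW, mem_Icc]; omega⟩ (by
      intro a ha r hr
      rw [hW, mem_Icc] at ha
      have := st6 a (if r ∈ C then 4 else 0) (by split_ifs <;> omega) ha.1 ha.2
      omega)
  have lmid : ∀ r ∈ R, n / 2 ≤ lab r + h ∧ lab r ≤ n / 2 + h := by
    intro r hr
    have := (l1 r hr).1
    rw [hW, mem_Icc] at this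
    omega
  have lnot : ∀ r ∈ R, lab r ∉ FX ∧ lab r ∉ B := by
    intro r hr
    have := (l1 r hr).2.2
    simp only [mem_union, not_or, hBdef] at this ⊢
    exact ⟨this.1.1, this.1.2, this.2⟩
  have hB0B : (Bs n h q5 0).card ≤ B.card := card_le_card subset_union_left
  have hB1B : (Bs n h q5 2).card ≤ B.card := card_le_card subset_union_right
  obtain ⟨Res, β, r1, r2, r3, r4, r5, r6⟩ := reserve2 (p := p) (lab := lab) (C := C) (Sp := Sp)
    (n := n) (h := h) (q5 := q5)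
    (fun v hv hC => by have := (l1 _ (hSp v hv).2).2.1; simpa [hC] using this)
    (fun v hv hC => by have := (l1 _ (hSp v hv).2).2.1; simpa [hC] using this)
    (by omega) (by omega)
  rw [← hBdef] at r2 r3
  have hBm : ∀ b ∈ B, (n / 20 + 1 ≤ b ∧ b ≤ 19 * n / 20) ∧ (b % 8 = 0 ∨ b % 8 = 1 ∨ b % 8 = 3) ∧
      (b + 4 * h < n / 2 ∨ n / 2 + 4 * h < b) := by
    intro b hb
    rw [hBdef, mem_union, mem_Bs, mem_Bs] at hb
    rcases hb with hb | hb
    · exact ⟨hb.1, hb.2.1, hb.2.2.2.2⟩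
    · exact ⟨hb.1, hb.2.1, hb.2.2.2.2⟩
  -- sums inside R
  set RS := (RR p R).image (fun r => lab r + lab (p r)) with hRS
  set CB := Res.image (fun v => lab (p v) + β v) with hCB
  have hRRm : ∀ r ∈ RR p R, r ∈ R ∧ 0 < r ∧ p r ∈ R := by
    intro r hr; unfold RR at hr; rw [mem_filter] at hr; exact hr
  have hRSm : ∀ s ∈ RS, n ≤ s + 2 * h + 1 ∧ s ≤ n + 2 * h ∧ s ∉ FS := by
    intro s hs
    obtain ⟨r, hr, rfl⟩ := mem_image.1 hs
    obtain ⟨g1, g2, g3⟩ := hRRm r hr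
    have g4 := lmid r g1
    have g5 := lmid _ g3
    refine ⟨?_, ?_, l3 r g1 g2 g3⟩ <;> omega
  have hCBm : ∀ s ∈ CB, (s + 3 * h < 2 * (n / 2) ∨ 2 * (n / 2) + 3 * h < s) ∧
      n / 2 + n / 20 + 1 ≤ s + h ∧ s ≤ n / 2 + h + 19 * n / 20 ∧ (s % 5 = 0 ∨ s % 5 = 1) := by
    intro s hs
    obtain ⟨v, hv, rfl⟩ := mem_image.1 hs
    have g1 := hBm _ (r3 v hv)
    have g2 := lmid _ (hSp v (r1 hv)).2
    have g3 := r6 v hv
    refine ⟨?_, ?_, ?_, g3⟩ <;> omega
  have hRc : (R.image lab).card = R.card := card_image_of_injOn l2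
  have hRSc : RS.card ≤ R.card := card_image_le.trans (card_le_card (filter_subset _ _))
  have hβc : (Res.image β).card = B.card := by rw [card_image_of_injOn r4, r2]
  have hCBc : CB.card = B.card := by rw [hCB, card_image_of_injOn r5, r2]
  set mX := FX.card - B.card with hmX
  set mS := FS.card - B.card with hmS
  -- the sets YX, YS
  obtain ⟨YX, hYX1, hYX2⟩ := exists_subset_card_eq (s := Icc (n / 10 + 1) (9 * n / 10) \
      (R.image lab ∪ (FX ∪ B))) (n := 2 * mX) (by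
    have h1 := le_card_sdiff (R.image lab ∪ (FX ∪ B)) (Icc (n / 10 + 1) (9 * n / 10))
    rw [Nat.card_Icc] at h1
    have h2 := card_union_le (R.image lab) (FX ∪ B)
    have h3 := card_union_le FX B
    omega)
  obtain ⟨YS, hYS1, hYS2⟩ := exists_subset_card_eq (s := Icc (6 * n / 10 + 1) (14 * n / 10) \
      (RS ∪ (FS ∪ CB))) (n := 2 * mS) (by
    have h1 := le_card_sdiff (RS ∪ (FS ∪ CB)) (Icc (6 * n / 10 + 1) (14 * n / 10))
    rw [Nat.card_Icc] at h1
    have h2 := card_union_le RS (FS ∪ CB)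
    have h3 := card_union_le FS CB
    omega)
  have hYXm : ∀ x ∈ YX, n / 10 + 1 ≤ x ∧ x ≤ 9 * n / 10 ∧ x ∉ R.image lab ∧ x ∉ FX ∧ x ∉ B := by
    intro x hx
    have := hYX1 hx
    rw [mem_sdiff, mem_Icc, mem_union, mem_union, not_or, not_or] at this
    exact ⟨this.1.1, this.1.2, this.2.1, this.2.2.1, this.2.2.2⟩
  have hYSm : ∀ x ∈ YS, 6 * n / 10 + 1 ≤ x ∧ x ≤ 14 * n / 10 ∧ x ∉ RS ∧ x ∉ FS ∧ x ∉ CB := by
    intro x hx
    have := hYS1 hx
    rw [mem_sdiff, mem_Icc, mem_union, mem_union, not_or, not_or] at this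
    exact ⟨this.1.1, this.1.2, this.2.1, this.2.2.1, this.2.2.2⟩
  have hFXm : ∀ x ∈ FX, n / 10 + 1 ≤ x ∧ x ≤ 9 * n / 10 ∧ x % 8 ≠ 0 ∧ x % 8 ≠ 1 ∧ x % 8 ≠ 3 := by
    intro x hx
    rw [hFXdef, mem_FXs] at hx
    exact ⟨hx.1.1, hx.1.2, hx.2.2⟩
  have hFSm : ∀ x ∈ FS, 6 * n / 10 + 1 ≤ x ∧ x ≤ 14 * n / 10 ∧ x % 5 ≠ 0 ∧ x % 5 ≠ 1 := by
    intro x hx
    rw [hFSdef, mem_FSs] at hx
    exact ⟨hx.1.1, hx.1.2, hx.2.2⟩
  have dFXB : ∀ x ∈ FX, x ∉ B := by
    intro x hx hb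
    have h1 := hFXm x hx
    have h2 := (hBm x hb).2.1
    omega
  set UX := UXs lab β R Res FX YX with hUX
  set US := USs p lab β R Res FS YS with hUS
  have hUXc : UX.card ≤ R.card + 3 * FX.card + B.card := by
    rw [hUX]; unfold UXs
    have h1 := card_union_le (R.image lab) (FX ∪ (YX ∪ Res.image β))
    have h2 := card_union_le FX (YX ∪ Res.image β)
    have h3 := card_union_le YX (Res.image β)
    omega
  have hUSc : US.card ≤ R.card + 3 * FS.card + B.card := by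
    have hUSe : US = RS ∪ (FS ∪ (YS ∪ CB)) := rfl
    rw [hUSe]
    have h1 := card_union_le RS (FS ∪ (YS ∪ CB))
    have h2 := card_union_le FS (YS ∪ CB)
    have h3 := card_union_le YS CB
    omega
  have hSupc : (Sp \ Res).card + B.card = Sp.card := by
    rw [← r2]; exact card_sdiff_add_card_eq_card r1
  obtain ⟨P, L, Sm, a1, a2, a3, a4, a5, a6, a7, a8, a9⟩ := absorb_all (n := n) (h := h) (D := D)
    (u := R.card + 3 * (FX.card + FS.card) + B.card) (mX := mX) (mS := mS)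
    (c := fun v => lab (p v)) (Sup := Sp \ Res) (UX := UX) (US := US) (FX := FX) (FS := FS)
    (YX := YX) (YS := YS)
    (fun i hi => lmid _ (hSp i (mem_sdiff.1 hi).1).2) hh
    (by
      intro x
      rcases ((Sp \ Res).filter fun i => lab (p i) = x).eq_empty_or_nonempty with h0 | ⟨v, hv⟩
      · rw [h0, card_empty]; omega
      · rw [mem_filter, mem_sdiff] at hv
        refine (card_le_card ?_).trans (hpD (p v))
        intro w hw
        rw [mem_filter, mem_sdiff] at hw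
        rw [mem_filter]
        refine ⟨hw.1.1, l2 (hSp w hw.1.1).2 (hSp v hv.1.1).2 ?_⟩
        rw [hw.2, hv.2])
    (by
      have e0 : 100 * 71 ^ 2 * (D + 1) = 504100 * (D + 1) := by norm_num
      rw [e0]
      omega)
    (fun i hi => by
      rw [hUX]; unfold UXs
      exact mem_union_left _ (mem_image_of_mem lab (hSp i (mem_sdiff.1 hi).1).2))
    (by omega) (by omega)
    (by
      have e1 : 1000 * 71 = 71000 := by norm_num
      rw [e1]
      exact (Nat.mul_le_mul_left _ (by omega)).trans hu2)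
    (by omega) (by omega) hYX2 (by omega)
    (by rw [disjoint_left]; intro x h1 h2; exact (hYXm x h2).2.2.2.1 h1)
    hYS2 (by omega)
    (by rw [disjoint_left]; intro x h1 h2; exact (hYSm x h2).2.2.2.1 h1)
    (by rw [hUX]; unfold UXs; exact fun x hx => mem_union_right _ (mem_union_left _ hx))
    (by rw [hUX]; unfold UXs
        exact fun x hx => mem_union_right _ (mem_union_right _ (mem_union_left _ hx)))
    (by rw [hUS]; unfold USs; exact fun x hx => mem_union_right _ (mem_union_left _ hx))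
    (by rw [hUS]; unfold USs
        exact fun x hx => mem_union_right _ (mem_union_right _ (mem_union_left _ hx)))
    (by
      intro x hx
      rcases mem_union.1 hx with h1 | h1
      · have := hYXm x h1; omega
      · have := hFXm x h1; omega)
    (by
      intro x hx
      rcases mem_union.1 hx with h1 | h1
      · have := hYSm x h1; omega
      · have := hFSm x h1; omega)
    (by
      intro i hi h1
      have hpi := (hSp i (mem_sdiff.1 hi).1).2
      rcases mem_union.1 h1 with h1 | h1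
      · exact (hYXm _ h1).2.2.1 (mem_image_of_mem lab hpi)
      · exact (lnot _ hpi).1 h1)
  have hPSp : ∀ v ∈ P, v ∈ Sp ∧ v ∉ Res := fun v hv => mem_sdiff.1 (a1 hv)
  refine ⟨lab, β, Res, P, YX, YS, L, Sm, ?_, r2, ?_, lmid, ?_, ?_⟩
  · refine ⟨hp, hD, ?_, ?_, l2, ?_, l4, ?_, r4, ?_, r5, ?_, ?_, ?_, a4, ?_, ?_, a5, ?_, ?_, ?_, a2,
      ?_, ?_, ?_, a3, ?_, hYX2, a6, ?_, hYS2, a7, a9, ?_, ?_, ?_, ?_⟩
    · -- sp
      intro v hv
      have hvS : v ∈ Sp := by
        rcases mem_union.1 hv with h1 | h1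
        · exact r1 h1
        · exact (hPSp v h1).1
      exact ⟨(hSp v hvS).1, (hSp v hvS).2, hnR v (hSp v hvS).1⟩
    · rw [disjoint_left]; intro v h1 h2; exact (hPSp v h2).2 h1
    · intro x hx
      obtain ⟨r, hr, rfl⟩ := mem_image.1 hx
      have := lmid r hr
      rw [mem_Icc]; omega
    · intro s hs
      have := hRSm s hs
      rw [Win, mem_Icc]; omega
    · intro x hx
      obtain ⟨v, hv, rfl⟩ := mem_image.1 hx
      have := hBm _ (r3 v hv)
      rw [mem_Icc]; omega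
    · intro s hs
      have := hCBm s hs
      rw [Win, mem_Icc]; omega
    · intro x hx
      have := hFXm x hx
      rw [mem_Icc]; omega
    · intro x hx
      have := hYXm x hx
      rw [mem_Icc]; omega
    · intro x hx
      have := hFSm x hx
      rw [Win, mem_Icc]; omega
    · intro x hx
      have := hYSm x hx
      rw [Win, mem_Icc]; omega
    · -- dX1
      rw [disjoint_left]
      intro x h1 h2
      obtain ⟨r, hr, rfl⟩ := mem_image.1 h1
      rcases mem_union.1 h2 with h3 | h3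
      · exact (lnot r hr).1 h3
      · rcases mem_union.1 h3 with h4 | h4
        · exact (hYXm _ h4).2.2.1 h1
        · obtain ⟨v, hv, hvr⟩ := mem_image.1 h4
          exact (lnot r hr).2 (hvr ▸ r3 v hv)
    · -- dX2
      rw [disjoint_left]
      intro x h1 h2
      rcases mem_union.1 h2 with h4 | h4
      · exact (hYXm _ h4).2.2.2.1 h1
      · obtain ⟨v, hv, rfl⟩ := mem_image.1 h4
        exact dFXB _ h1 (r3 v hv)
    · -- dX3
      rw [disjoint_left]
      intro x h1 h2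
      obtain ⟨v, hv, rfl⟩ := mem_image.1 h2
      exact (hYXm _ h1).2.2.2.2 (r3 v hv)
    · -- dS1
      rw [disjoint_left]
      intro s h1 h2
      rcases mem_union.1 h2 with h3 | h3
      · exact (hRSm s h1).2.2 h3
      · rcases mem_union.1 h3 with h4 | h4
        · exact (hYSm _ h4).2.2.1 h1
        · have g1 := hRSm s h1
          have g2 := hCBm s h4
          omega
    · -- dS2
      rw [disjoint_left]
      intro s h1 h2
      rcases mem_union.1 h2 with h4 | h4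
      · exact (hYSm _ h4).2.2.2.1 h1
      · have g1 := hFSm s h1
        have g2 := hCBm s h4
        omega
    · -- dS3
      rw [disjoint_left]
      intro s h1 h2
      exact (hYSm _ h1).2.2.2.2 h2
    · omega
    · omega
    · -- c1
      intro x hx
      exact (st1 x hx).trans (count_res r2 r3 r4 (fun b => b + x ∈ FS))
    · intro s hs
      exact (st2 s hs).trans (count_res r2 r3 r4 (fun b => b < s ∧ s - b ∈ FX))
    · intro v hv
      exact st3 _ (r3 v hv)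
    · intro a a' ha ha'
      obtain ⟨r', hr', rfl⟩ := mem_image.1 ha'
      have g' := lmid r' hr'
      have g : n / 10 ≤ a ∧ a ≤ 9 * n / 10 + 1 := by
        rcases ha with h1 | h1
        · have := hFXm a h1; omega
        · obtain ⟨r, hr, rfl⟩ := mem_image.1 h1
          have := lmid r hr
          omega
      exact st4 a (lab r') g.1 g.2 (by omega) (by omega)
  · intro v hv
    rcases mem_union.1 hv with h1 | h1
    · exact r1 h1
    · exact (hPSp v h1).1
  · have h1 := card_union_le UX L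
    refine h1.trans ?_
    omega
  · have h1 := card_union_le US Sm
    refine h1.trans ?_
    omega

end Pool.Agent.SEM
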