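import Pool.Agent.Helper73.SEM.FF
import Pool.Agent.Helper73.SEM.FP2
import Pool.Agent.Helper73.SEM.PK
import Pool.Agent.Helper73.SEM.T3
import Pool.Agent.Helper73.SEM.T4

/-!
# SEM-FP3: parameters and the main theorem
-/

set_option autoImplicit false

namespace Pool.Agent.SEM

open Finset

open Classical in
theorem flex_card {n K : ℕ} {p top : ℕ → ℕ} {R Res P : Finset ℕ} (hp : Par n p)
    (hD : Dec n p K R top) (hnR : ∀ v, Pend n p v → v ∉ R ∧ uc n p v ∉ R)
    (hZ : ∀ v ∈ Res ∪ P, Pend n p v ∧ p v ∈ R ∧ v ∉ R ∧ uc n p v ∉ R) :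
    ((range n).filter fun v => Pend n p v).card ≤
      ((MV n R top (TT n p R Res P)).filter fun v => Pend n p v ∧ uc n p v ∉ R).card +
        (Res ∪ P).card := by
  have h1 : ((range n).filter fun v => Pend n p v) ⊆
      ((MV n R top (TT n p R Res P)).filter fun v => Pend n p v ∧ uc n p v ∉ R) ∪ (Res ∪ P) := by
    intro v hv
    rw [mem_filter, mem_range] at hv
    obtain ⟨hvn, hP⟩ := hv
    rw [mem_union]
    by_cases hZv : v ∈ Res ∪ P
    · exact Or.inr hZv
    · left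
      obtain ⟨g1, g2⟩ := hnR v hP
      rw [mem_filter, mem_MV]
      refine ⟨⟨hvn, g1, ?_⟩, hP, g2⟩
      unfold TT
      rw [mem_sdiff]
      refine ⟨(hD.top_mem hp v hvn g1).1, fun hw => ?_⟩
      obtain ⟨k1, k2, k3, k4⟩ := hZ _ hw
      rcases (hD.sp_piece hp k1 k2 k3 k4 hvn g1).1 rfl with h | h
      · rw [← h] at hw; exact hZv hw
      · have h5 := k1.uc_mem.2
        have h6 := hP.uc_mem.1
        rw [← h] at h5
        rw [h5] at h6
        exact singleton_ne_empty _ h6.symm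
  exact (card_le_card h1).trans (card_union_le _ _)

open Classical in
theorem sem_main (ε : ℝ) (hε : 0 < ε) (hε1 : ε ≤ 1) : ∃ δ : ℝ, 0 < δ ∧ ∃ n0 : ℕ,
    ∀ (n : ℕ) (p : ℕ → ℕ), n0 ≤ n → Par n p → (∀ v, v < n → ((chl n p v).card : ℝ) ≤ δ * n) →
      ε * n ≤ (((range n).filter fun v => Pend n p v).card : ℝ) → IsSEM n p := by
  obtain ⟨τ0, hτ0, hpack⟩ := pack (ε / 4) (by positivity) (by linarith)
  obtain ⟨τ, hτ, hττ0, hτ1⟩ : ∃ τ : ℝ, 0 < τ ∧ τ ≤ τ0 ∧ τ ≤ 1 / 1000 :=
    ⟨min τ0 (1 / 1000), by positivity, min_le_left _ _, min_le_right _ _⟩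
  obtain ⟨ν, hν⟩ : ∃ ν : ℝ, ν = τ / 1000000 := ⟨_, rfl⟩
  have hν0 : 0 < ν := by rw [hν]; positivity
  obtain ⟨θ, hθ⟩ : ∃ θ : ℝ, θ = ε * ν / 12 := ⟨_, rfl⟩
  have hθ0 : 0 < θ := by rw [hθ]; positivity
  have hθν : 12 * θ ≤ ν := by
    rw [hθ]; nlinarith
  obtain ⟨K, hK⟩ : ∃ K : ℕ, K = ⌈12 / ν⌉₊ + 2 := ⟨_, rfl⟩
  have hK2 : 2 ≤ K := by omega
  have hKν : 12 / ν ≤ K := by
    have := Nat.le_ceil (12 / ν)
    rw [hK]; push_cast; linarith
  obtain ⟨q1, q2, q3, q5, hq, hq1, hq2, hq3⟩ := mod_exists ⌈10000000 / θ⌉₊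
  obtain ⟨n1, hst⟩ := st_sets q1 q2 q3 q5 hq
  obtain ⟨Q8, hQ8⟩ : ∃ Q8 : ℕ, Q8 = 8 * (40 * q1 * q2 * q3 * q5) := ⟨_, rfl⟩
  have g1 := hq.g1
  have g2 := hq.g2
  have g3 := hq.g3
  have g5 : 1000 ≤ q5 := by
    have h1 := hq.g5
    have h2 : 1 ≤ 40 * q1 * q2 * q3 := by
      have : 0 < 40 * q1 * q2 * q3 := by positivity
      omega
    omega
  have hQ80 : 0 < Q8 := by rw [hQ8]; positivity
  have hQ80' : (0 : ℝ) < Q8 := by exact_mod_cast hQ80
  obtain ⟨δp, hδp, n2, hpk⟩ := hpack K (1 / (100 * Q8)) (by omega) (by positivity)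
  have hKpos : (0 : ℝ) < K := by
    have : 0 < K := by omega
    exact_mod_cast this
  -- moduli are large
  have hQr : ∀ q : ℕ, ⌈10000000 / θ⌉₊ ≤ q → 10000000 ≤ θ * q := by
    intro q hq
    have h1 := Nat.le_ceil (10000000 / θ)
    have h2 : ((⌈10000000 / θ⌉₊ : ℕ) : ℝ) ≤ q := by exact_mod_cast hq
    have h3 : 10000000 / θ ≤ q := h1.trans h2
    rw [div_le_iff₀ hθ0] at h3
    linarith
  have hQn : ∀ (q n : ℕ), 10000000 ≤ θ * q → ((n / q : ℕ) : ℝ) ≤ θ * n / 10000000 := by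
    intro q n hq
    rcases Nat.eq_zero_or_pos q with h0 | h0
    · subst h0; norm_num at hq
    have h1 : ((n / q : ℕ) : ℝ) ≤ n / q := Nat.cast_div_le
    have h0' : (0 : ℝ) < q := by exact_mod_cast h0
    refine h1.trans ?_
    rw [div_le_div_iff₀ h0' (by norm_num)]
    have hn : (0 : ℝ) ≤ n := Nat.cast_nonneg n
    nlinarith
  have hq5 : 10000000 ≤ θ * q5 := by
    refine (hQr q1 hq1).trans ?_
    have h1 : q1 ≤ q5 := by
      have h2 := hq.g5
      have h3 : q1 * 1 ≤ q1 * (40000 * q2 * q3) := by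
        apply Nat.mul_le_mul_left
        have : 0 < 40000 * q2 * q3 := by positivity
        omega
      nlinarith
    have h2 : (q1 : ℝ) ≤ q5 := by exact_mod_cast h1
    nlinarith
  refine ⟨min δp (θ / 10000000), by positivity, max (max n1 n2)
    ⌈1000000 / θ + 12 * K / (ε * ν) + 13 * Q8⌉₊, ?_⟩
  intro n p hn hp hchl hpend
  have hn1 : n1 ≤ n := ((le_max_left _ _).trans (le_max_left _ _)).trans hn
  have hn2 : n2 ≤ n := ((le_max_right _ _).trans (le_max_left _ _)).trans hn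
  have hn3 : 1000000 / θ + 12 * K / (ε * ν) + 13 * Q8 ≤ n := by
    have h1 : ⌈1000000 / θ + 12 * K / (ε * ν) + 13 * Q8⌉₊ ≤ n := (le_max_right _ _).trans hn
    have h2 := Nat.le_ceil (1000000 / θ + 12 * K / (ε * ν) + 13 * (Q8 : ℝ))
    have h3 : ((⌈1000000 / θ + 12 * K / (ε * ν) + 13 * (Q8 : ℝ)⌉₊ : ℕ) : ℝ) ≤ n := by
      exact_mod_cast h1
    linarith
  have p1 : 0 < 1000000 / θ := by positivity
  have p2 : 0 < 12 * K / (ε * ν) := by positivity
  have hθn : 1000000 ≤ θ * n := by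
    have h1 : 1000000 / θ ≤ n := by linarith
    rw [div_le_iff₀ hθ0] at h1
    linarith
  have hKn : 12 * K ≤ ε * ν * n := by
    have h1 : 12 * K / (ε * ν) ≤ n := by linarith
    rw [div_le_iff₀ (by positivity)] at h1
    linarith
  have hQn8 : 13 * Q8 ≤ n := by
    have h1 : (13 : ℝ) * Q8 ≤ n := by linarith
    exact_mod_cast h1
  have hn0' : (0 : ℝ) < n := by
    by_contra h
    push Not at h
    nlinarith
  have hn0 : 0 < n := by exact_mod_cast hn0'
  have hνn : 12000000 ≤ ν * n := by nlinarith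
  have hτn : τ * n = 1000000 * (ν * n) := by rw [hν]; ring
  have hν9 : ν ≤ 1 / 1000000000 := by rw [hν]; linarith
  have hn9 : 1000000000 * (ν * n) ≤ n := by nlinarith
  -- the natural number parameters
  obtain ⟨N, hN⟩ : ∃ N : ℕ, N = ⌊θ * n⌋₊ := ⟨_, rfl⟩
  have hN1 : (N : ℝ) ≤ θ * n := by rw [hN]; exact Nat.floor_le (by positivity)
  have hN2 : θ * n < N + 1 := by rw [hN]; exact Nat.lt_floor_add_one _
  obtain ⟨h, hh⟩ : ∃ h : ℕ, h = ⌊τ * n / 4⌋₊ := ⟨_, rfl⟩
  have hh1 : (h : ℝ) ≤ τ * n / 4 := by rw [hh]; exact Nat.floor_le (by positivity)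
  have hh2 : τ * n / 4 < h + 1 := by rw [hh]; exact Nat.lt_floor_add_one _
  obtain ⟨D, hD⟩ : ∃ D : ℕ, D = ⌊θ / 10000000 * n⌋₊ := ⟨_, rfl⟩
  have hD1 : (D : ℝ) ≤ θ / 10000000 * n := by rw [hD]; exact Nat.floor_le (by positivity)
  have hchlD : ∀ v, v < n → (chl n p v).card ≤ D := by
    intro v hv
    rw [hD]
    apply Nat.le_floor
    refine (hchl v hv).trans ?_
    exact mul_le_mul_of_nonneg_right (min_le_right _ _) hn0'.le
  have hchlδ : ∀ v, v < n → ((chl n p v).card : ℝ) ≤ δp * n := by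
    intro v hv
    refine (hchl v hv).trans ?_
    exact mul_le_mul_of_nonneg_right (min_le_left _ _) hn0'.le
  -- decomposition
  obtain ⟨R, Sp, top, dD, dR, dnR, dSp, dN, dNK⟩ := decomp n p K N ε hp hn0 hK2 hε hε1 hpend (by
    refine hN1.trans ?_
    have : θ ≤ ε / 2 := by rw [hθ]; nlinarith
    exact mul_le_mul_of_nonneg_right this hn0'.le)
  have hRn : (R.card : ℝ) ≤ ν * n := by
    refine dR.trans ?_
    have e1 : 4 * (n : ℝ) / K ≤ ν * n / 3 := by
      rw [div_le_div_iff₀ hKpos (by norm_num)]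
      have h1 : 12 ≤ ν * K := by
        rw [div_le_iff₀ hν0] at hKν
        linarith
      nlinarith
    have e2 : 2 / ε * (N + K) ≤ ν * n / 6 + ν * n / 6 := by
      have h1 : 2 / ε * (N + K) = 2 * N / ε + 2 * K / ε := by ring
      rw [h1]
      have h2 : 2 * (N : ℝ) / ε ≤ ν * n / 6 := by
        rw [div_le_div_iff₀ hε (by norm_num)]
        have : (N : ℝ) * 12 ≤ ε * ν * n := by
          have : θ * n * 12 = ε * ν * n := by rw [hθ]; ring
          linarith
        linarith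
      have h3 : 2 * (K : ℝ) / ε ≤ ν * n / 6 := by
        rw [div_le_div_iff₀ hε (by norm_num)]
        linarith
      linarith
    linarith
  have hhn : 1000 * h + 1000 ≤ n := by
    have h1 : (1000 : ℝ) * h + 1000 ≤ n := by nlinarith
    exact_mod_cast h1
  have hh100 : 100 ≤ h := by
    have h1 : (100 : ℝ) ≤ h := by linarith
    exact_mod_cast h1
  obtain ⟨s1, s2, s3, s4, ⟨s5a, s5b, s5c, s5d, s5e, s5f⟩, s6⟩ := hst n h hn1 (by omega) hh100
  rw [← hQ8] at s1 s2
  have hfX : ((FXs n q3).card : ℝ) ≤ θ * n / 10000000 + 1 := by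
    have h1 : ((FXs n q3).card : ℝ) ≤ ((n / q3 : ℕ) : ℝ) + 1 := by exact_mod_cast s5a
    have h2 := hQn q3 n (hQr q3 hq3)
    linarith
  have hfS : ((FSs n q1 q2).card : ℝ) ≤ 2 * (θ * n / 10000000 + 1) := by
    have h1 : ((FSs n q1 q2).card : ℝ) ≤ ((n / q1 : ℕ) : ℝ) + ((n / q2 : ℕ) : ℝ) + 2 := by
      exact_mod_cast s5b
    have h2 := hQn q1 n (hQr q1 hq1)
    have h3 := hQn q2 n (hQr q2 hq2)
    linarith
  have hfB : ((Bs n h q5 0 ∪ Bs n h q5 2).card : ℝ) ≤ θ * n / 10000000 + 1 := by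
    have h1 : ((Bs n h q5 0 ∪ Bs n h q5 2).card : ℝ) ≤ ((n / q5 : ℕ) : ℝ) + 1 := by
      exact_mod_cast s5c
    have h2 := hQn q5 n hq5
    linarith
  have hSpN : θ * n - 1 ≤ (Sp.card : ℝ) := by
    have h1 : (N : ℝ) ≤ Sp.card := by exact_mod_cast dN
    linarith
  have hκ1 : 13 ≤ n / Q8 := (Nat.le_div_iff_mul_le hQ80).2 hQn8
  obtain ⟨lab, β, Res, P, YX, YS, L, Sm, hDat, hResc, hZ, hmid, hUXc, hUSc⟩ :=
    mk_dat (κ := n / Q8) hp dD hchlD dnR dSp s1 s2 s3 s4 s5e s5f s6 hhn hh100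
      (by
        have h1 : (10 : ℝ) * R.card + 10 ≤ h := by linarith
        exact_mod_cast h1)
      (by omega)
      (by
        have h1 : (3 : ℝ) * D ≤ Sp.card := by linarith
        exact_mod_cast h1)
      (by
        have h1 : (3 : ℝ) * (Bs n h q5 0 ∪ Bs n h q5 2).card ≤ Sp.card := by linarith
        exact_mod_cast h1)
      (by
        have h1 : 504100 * ((D : ℝ) + 1) + 213 * (FXs n q3).card + 633 * (FSs n q1 q2).card +
            (Bs n h q5 0 ∪ Bs n h q5 2).card ≤ Sp.card := by linarith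
        exact_mod_cast h1)
      (by
        have h1 : 71000 * ((R.card : ℝ) + 1269 * ((FXs n q3).card + (FSs n q1 q2).card) +
            (Bs n h q5 0 ∪ Bs n h q5 2).card + 710) ≤ n := by nlinarith
        exact_mod_cast h1)
  have hcardR : ∀ c : ℕ, c ≤ R.card + 2000 * ((FXs n q3).card + (FSs n q1 q2).card) →
      (c : ℝ) ≤ τ0 * n := by
    intro c hc
    have h1 : (c : ℝ) ≤ R.card + 2000 * ((FXs n q3).card + (FSs n q1 q2).card) := by
      exact_mod_cast hc
    have h2 : τ * n ≤ τ0 * n := mul_le_mul_of_nonneg_right hττ0 hn0'.le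
    nlinarith
  have hsdX : Icc 1 n \ XX n lab β R Res (FXs n q3) YX L ⊆
      UXs lab β R Res (FXs n q3) YX ∪ L := by
    intro x hx
    unfold XX at hx
    rw [mem_sdiff, mem_sdiff, not_and, not_not] at hx
    exact hx.2 hx.1
  have hsdS : Win n \ SS n p lab β R Res (FSs n q1 q2) YS Sm ⊆
      USs p lab β R Res (FSs n q1 q2) YS ∪ Sm := by
    intro x hx
    unfold SS at hx
    rw [mem_sdiff, mem_sdiff, not_and, not_not] at hx
    exact hx.2 hx.1
  have hflex := flex_card hp dD dnR hDat.sp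
  obtain ⟨T', f, t1, t2, t3, t4, t5, t6, t7⟩ := hpk n p top lab R (TT n p R Res P)
    (XX n lab β R Res (FXs n q3) YX L) (SS n p lab β R Res (FSs n q1 q2) YS Sm) hn2 hp dD hchlδ
    (by
      intro t ht
      unfold TT at ht
      rw [mem_sdiff, mem_tops] at ht
      rw [mem_filter, mem_range]
      exact ht.1)
    hDat.labI
    (by
      intro r hr h1
      unfold XX at h1
      rw [mem_sdiff, mem_union, not_or] at h1
      apply h1.2.1
      unfold UXs
      exact mem_union_left _ (mem_image_of_mem lab hr))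
    (by
      intro r hr
      obtain ⟨m1, m2⟩ := hmid r hr
      have h2 : τ * n ≤ τ0 * n := mul_le_mul_of_nonneg_right hττ0 hn0'.le
      have m1' : n ≤ 2 * lab r + 2 * h + 1 := by omega
      have m2' : 2 * lab r ≤ n + 2 * h := by omega
      have m1'' : (n : ℝ) ≤ 2 * lab r + 2 * h + 1 := by exact_mod_cast m1'
      have m2'' : (2 : ℝ) * lab r ≤ n + 2 * h := by exact_mod_cast m2'
      rw [abs_le]
      constructor <;> nlinarith)
    sdiff_subset sdiff_subset
    (hcardR _ ((card_le_card hsdX).trans hUXc))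
    (hcardR _ ((card_le_card hsdS).trans hUSc))
    hDat.cardX hDat.cardS
    (by
      have h1 : (((range n).filter fun v => Pend n p v).card : ℝ) ≤
          ((MV n R top (TT n p R Res P)).filter fun v => Pend n p v ∧ uc n p v ∉ R).card +
            Sp.card := by
        have := card_le_card hZ
        exact_mod_cast (by omega : ((range n).filter fun v => Pend n p v).card ≤
          ((MV n R top (TT n p R Res P)).filter fun v => Pend n p v ∧ uc n p v ∉ R).card +
            Sp.card)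
      have h2 : (Sp.card : ℝ) ≤ N + K := by exact_mod_cast dNK
      have h3 : θ * n ≤ ε * n / 4 := by
        have : θ ≤ ε / 4 := by rw [hθ]; nlinarith
        have := mul_le_mul_of_nonneg_right this hn0'.le
        linarith
      have h4 : (K : ℝ) ≤ ε * n / 4 := by
        have h5 : ε * ν * n ≤ ε * n := by nlinarith [mul_pos hε hn0']
        linarith
      linarith)
  refine hDat.finish (T' := T') (f1 := f) (E := n / Q8 / 10) t1 t2 t3 t4 t5 t6 ?_ (by omega) ?_
  · apply (Nat.le_div_iff_mul_le (by norm_num)).2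
    apply (Nat.le_div_iff_mul_le hQ80).2
    have h1 : ((MV n R top (TT n p R Res P \ T')).card : ℝ) * (100 * Q8) ≤ n := by
      have h2 : 1 / (100 * (Q8 : ℝ)) * n * (100 * Q8) = n := by field_simp
      calc ((MV n R top (TT n p R Res P \ T')).card : ℝ) * (100 * Q8)
          ≤ 1 / (100 * (Q8 : ℝ)) * n * (100 * Q8) :=
            mul_le_mul_of_nonneg_right t7 (by positivity)
        _ = n := h2
    have h2 : (MV n R top (TT n p R Res P \ T')).card * (100 * Q8) ≤ n := by exact_mod_cast h1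
    calc (MV n R top (TT n p R Res P \ T')).card * 10 * Q8
        ≤ (MV n R top (TT n p R Res P \ T')).card * (100 * Q8) := by
          rw [mul_assoc]
          exact Nat.mul_le_mul_left _ (by omega)
      _ ≤ n := h2
  · rw [hResc]
    have h1 : n / Q8 ≤ n / (8 * (40 * q1 * q2 * q3)) := by
      apply Nat.div_le_div_left
      · rw [hQ8]
        have : 8 * (40 * q1 * q2 * q3) * 1 ≤ 8 * (40 * q1 * q2 * q3) * q5 :=
          Nat.mul_le_mul_left _ (by omega)
        calc 8 * (40 * q1 * q2 * q3) = 8 * (40 * q1 * q2 * q3) * 1 := by ring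
          _ ≤ 8 * (40 * q1 * q2 * q3) * q5 := this
          _ = 8 * (40 * q1 * q2 * q3 * q5) := by ring
      · positivity
    omega

end Pool.Agent.SEM
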