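import Pool.Agent.Helper73.SEM.GD

/-!
# SEM-GL: gadget absorbing exactly one of the labels of a set `N` (proof by helper20)

Proof in words.  `k = |N| ≤ d`, `N = {x_1, .., x_k}`.  Choose `i₀ ∈ Sup` arbitrary, `c₀ = c i₀`.
(1) Choose `b ∈ [0.49 n, 0.51 n]` (at least `0.02 n - 1` integers) with `b ∉ UX`, `c₀ + b ∉ US`, `σ_j := b + x_j ∉ US` for all `j`, and for every `j`:
`#{i ∈ Sup : σ_j - c i ∈ UX} ≤ |Sup|/10` (for each `i` at most `u` values `b` are bad, so by double counting at most `10 u` values `b` violate this).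
Excluded: `(2 + k + 10 k) u < 0.02 n - 1`.
(2) Choose `τ ∈ [0.99 n, 1.01 n]`, `τ ∉ US`, `τ ≠ σ_j`, `τ ≠ c₀ + b`, with `#{i : τ - c i ∈ UX} ≤ |Sup|/10` and
`#{i : τ + σ_j - 2 c i ∈ US} ≤ |Sup|/10` for all `j`.  Excluded: `(1 + 10 + 10k) u + k + 1`.
(3) For `j = 1..k` choose successively `i_j ∈ Sup`, different from the previous ones, with `σ_j - c_j ∉ UX`, `τ - c_j ∉ UX`,
`τ + σ_j - 2c_j ∉ US` (at least `0.7 |Sup|` choices), and with `c_j = c i_j` not equal to the at most `6k+6` values for which one of the new labels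
`σ_j - c_j, τ - c_j` coincides with `b` or a previous new label, or `τ + σ_j - 2c_j` coincides with `c₀+b`, `τ`, some `σ_l` or a previous
`τ + σ_l - 2 c_l` (each coincidence fixes the value of `c_j`, so excludes at most `D` paths).  (`σ_j - c_j ≠ τ - c_j` as `σ_j ≠ τ`.)
`P = {i₀, i_1, .., i_k}`, `L = {b} ∪ {σ_j - c_j, τ - c_j}`, `S = {c₀ + b, τ} ∪ {σ_j} ∪ {τ + σ_j - 2c_j}`.  (`c₀ + b ≠ σ_j` as `x_j ≠ c₀`.)
To absorb `x_j`: path `i₀`: labels `b, x_j`, sums `c₀+b, σ_j`; path `i_l`, `l ≠ j`: `y = σ_l - c_l`, `z = τ - c_l`, sums `σ_l`, `τ+σ_l-2c_l`;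
path `i_j`: `y = τ - c_j`, `z = σ_j - c_j`, sums `τ`, `τ+σ_j-2c_j`.
Ranges: `c ∈ [0.499n, 0.501n]`, `x ∈ [0.09 n, 0.91 n]`: `σ ∈ [0.58 n, 1.42 n]`, `σ - c ∈ [0.079n, 0.921n]`, `τ - c ∈ [0.489 n, 0.511 n]`,
`τ + σ - 2c ∈ [0.568 n, 1.432 n]`, all in `[1,n]` resp. `Win n`.
-/

set_option autoImplicit false

namespace Pool.Agent.SEM

open Finset

/-- common hypotheses on the supply of paths and the used labels and sums -/
structure Sply (n h D u d : ℕ) (c : ℕ → ℕ) (Sup UX US : Finset ℕ) : Prop where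
  mid : ∀ i ∈ Sup, n / 2 ≤ c i + h ∧ c i ≤ n / 2 + h
  hh : 1000 * h + 1000 ≤ n
  mult : ∀ a, (Sup.filter fun i => c i = a).card ≤ D
  big : 100 * (d + 1) ^ 2 * (D + 1) ≤ Sup.card
  cU : ∀ i ∈ Sup, c i ∈ UX
  uX : UX.card ≤ u
  uS : US.card ≤ u
  hu : 1000 * (d + 1) * (u + 10 * d + 10) ≤ n

private theorem avg20 {I Sup : Finset ℕ} {bad : ℕ → ℕ → Prop}
    [∀ b i, Decidable (bad b i)] {u : ℕ}
    (hS : 0 < Sup.card) (h : ∀ i ∈ Sup, (I.filter fun b => bad b i).card ≤ u) :
    (I.filter fun b => Sup.card < 10 * (Sup.filter fun i => bad b i).card).card ≤ 10 * u := by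
  set J := I.filter fun b => Sup.card < 10 * (Sup.filter fun i => bad b i).card with hJ
  have h1 : J.card * Sup.card ≤ ∑ b ∈ J, 10 * (Sup.filter fun i => bad b i).card := by
    rw [← smul_eq_mul]
    refine Finset.card_nsmul_le_sum _ _ _ fun b hb => ?_
    exact (Finset.mem_filter.mp hb).2.le
  have h2 : ∑ b ∈ J, (Sup.filter fun i => bad b i).card
      = ∑ i ∈ Sup, (J.filter fun b => bad b i).card := by
    simp only [Finset.card_filter]
    exact Finset.sum_comm
  have h3 : ∑ i ∈ Sup, (J.filter fun b => bad b i).card ≤ Sup.card * u := by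
    rw [← smul_eq_mul]
    refine Finset.sum_le_card_nsmul _ _ _ fun i hi => ?_
    refine le_trans (Finset.card_le_card ?_) (h i hi)
    intro b hb
    rw [Finset.mem_filter] at hb ⊢
    exact ⟨(Finset.mem_filter.mp hb.1).1, hb.2⟩
  rw [← Finset.mul_sum, h2] at h1
  have h4 : J.card * Sup.card ≤ (10 * u) * Sup.card := by nlinarith
  exact Nat.le_of_mul_le_mul_right h4 hS

private theorem greedy20 (Sup : Finset ℕ) (bad : ℕ → ℕ → Prop) (conf : ℕ → ℕ → ℕ → ℕ → Prop)
    [∀ x i, Decidable (bad x i)] [∀ x i y j, Decidable (conf x i y j)] (a e : ℕ) (hsymm : ∀ x i y j, conf x i y j → conf y j x i) (N : Finset ℕ) :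
    (∀ x ∈ N, (Sup.filter fun i => bad x i).card ≤ a) →
    (∀ x ∈ N, ∀ y ∈ N, ∀ j ∈ Sup, (Sup.filter fun i => conf x i y j).card ≤ e) →
    a + N.card * e < Sup.card →
    ∃ g : ℕ → ℕ, (∀ x ∈ N, g x ∈ Sup ∧ ¬ bad x (g x)) ∧
      ∀ x ∈ N, ∀ y ∈ N, x ≠ y → ¬ conf x (g x) y (g y) := by
  induction N using Finset.induction_on with
  | empty => intro _ _ _; exact ⟨fun _ => 0, by simp, by simp⟩
  | insert x N hx ih =>
    intro h1 h2 h3
    rw [Finset.card_insert_of_notMem hx] at h3
    obtain ⟨g, hg1, hg2⟩ := ih (fun y hy => h1 y (mem_insert_of_mem hy))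
      (fun y hy z hz => h2 y (mem_insert_of_mem hy) z (mem_insert_of_mem hz))
      (by nlinarith)
    have hb : ((Sup.filter fun i => bad x i) ∪
        N.biUnion fun y => Sup.filter fun i => conf x i y (g y)).card < Sup.card := by
      refine lt_of_le_of_lt (Finset.card_union_le _ _) ?_
      have e1 := h1 x (mem_insert_self _ _)
      have e2 : (N.biUnion fun y => Sup.filter fun i => conf x i y (g y)).card ≤ N.card * e :=
        Finset.card_biUnion_le_card_mul _ _ _ fun y hy =>
          h2 x (mem_insert_self _ _) y (mem_insert_of_mem hy) _ (hg1 y hy).1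
      nlinarith
    obtain ⟨i, hiS, hi⟩ : ∃ i ∈ Sup, i ∉ ((Sup.filter fun i => bad x i) ∪
        N.biUnion fun y => Sup.filter fun i => conf x i y (g y)) := by
      by_contra hcon
      push Not at hcon
      exact absurd (Finset.card_le_card hcon) (not_le.mpr hb)
    rw [Finset.mem_union, not_or, Finset.mem_biUnion] at hi
    obtain ⟨hi1, hi2⟩ := hi
    have hi1' : ¬ bad x i := fun h => hi1 (Finset.mem_filter.mpr ⟨hiS, h⟩)
    have hi2' : ∀ y ∈ N, ¬ conf x i y (g y) := fun y hy h =>
      hi2 ⟨y, hy, Finset.mem_filter.mpr ⟨hiS, h⟩⟩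
    have hu : ∀ y ∈ N, Function.update g x i y = g y := fun y hy =>
      Function.update_of_ne (by rintro rfl; exact hx hy) _ _
    refine ⟨Function.update g x i, ?_, ?_⟩
    · intro y hy
      rcases Finset.mem_insert.mp hy with rfl | hy
      · rw [Function.update_self]; exact ⟨hiS, hi1'⟩
      · rw [hu y hy]; exact hg1 y hy
    · intro y hy z hz hyz
      rcases Finset.mem_insert.mp hy with rfl | hy'
      · rcases Finset.mem_insert.mp hz with rfl | hz'
        · exact absurd rfl hyz
        · rw [Function.update_self, hu z hz']; exact hi2' z hz'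
      · rcases Finset.mem_insert.mp hz with rfl | hz'
        · rw [Function.update_self, hu y hy']
          exact fun h => hi2' y hy' (hsymm _ _ _ _ h)
        · rw [hu y hy', hu z hz']; exact hg2 y hy' z hz' hyz

/-- choice outside of finitely many bad sets -/
private theorem pick20 {I B : Finset ℕ} (h : B.card < I.card) : ∃ b ∈ I, b ∉ B := by
  by_contra hcon
  push Not at hcon
  exact absurd (Finset.card_le_card hcon) (not_le.mpr h)

private theorem cardle20 {I T : Finset ℕ} {f : ℕ → ℕ} {u : ℕ} (hT : T.card ≤ u)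
    (hf : Set.InjOn f I) : (I.filter fun b => f b ∈ T).card ≤ u := by
  refine le_trans ?_ hT
  refine Finset.card_le_card_of_injOn f (fun b hb => (Finset.mem_filter.mp hb).2) ?_
  intro a ha b hb hab
  exact hf (Finset.mem_filter.mp ha).1 (Finset.mem_filter.mp hb).1 hab

theorem glab {n h D u d : ℕ} {c : ℕ → ℕ} {Sup N UX US : Finset ℕ}
    (hs : Sply n h D u d c Sup UX US) (hN : N ⊆ UX) (hNd : N.card ≤ d)
    (hN1 : ∀ x ∈ N, 9 * n ≤ 100 * x ∧ 100 * x ≤ 91 * n) (hNc : ∀ i ∈ Sup, c i ∉ N) :
    ∃ P L S : Finset ℕ, P ⊆ Sup ∧ P.card = N.card + 1 ∧ Disjoint L UX ∧ Disjoint S US ∧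
      L ⊆ Icc 1 n ∧ S ⊆ Win n ∧ L.card = 2 * N.card + 1 ∧ S.card = 2 * N.card + 2 ∧
      ∀ x ∈ N, Abs c P (insert x L) S := by
  classical
  obtain ⟨mid, hh, mult, big, cU, uX, uS, hu⟩ := hs
  set k := N.card with hk
  set s := n / 100 with hs
  have hSpos : 0 < Sup.card := by
    refine lt_of_lt_of_le ?_ big
    positivity
  have hsu : 10 * (d + 1) * (u + 10 * d + 10) ≤ s := by
    rw [hs, Nat.le_div_iff_mul_le (by norm_num)]
    calc 10 * (d + 1) * (u + 10 * d + 10) * 100 = 1000 * (d + 1) * (u + 10 * d + 10) := by ring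
      _ ≤ n := hu
  obtain ⟨i₀, hi₀⟩ := Finset.card_pos.mp hSpos
  -- ranges
  have hs1 : 100 * s ≤ n := by rw [hs]; omega
  have hs2 : n < 100 * s + 100 := by rw [hs]; omega
  have hmid : ∀ i ∈ Sup, n / 2 ≤ c i + h ∧ c i ≤ n / 2 + h := mid
  -- choice of b
  have hI1 : ((Icc (n / 2 - s) (n / 2 + s)).card) = 2 * s + 1 := by
    rw [Nat.card_Icc]; omega
  obtain ⟨b, hbI, hb⟩ : ∃ b ∈ Icc (n / 2 - s) (n / 2 + s), b ∉
      ((Icc (n / 2 - s) (n / 2 + s)).filter fun b => b ∈ UX) ∪
      (((Icc (n / 2 - s) (n / 2 + s)).filter fun b => c i₀ + b ∈ US) ∪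
      ((N.biUnion fun x => (Icc (n / 2 - s) (n / 2 + s)).filter fun b => b + x ∈ US) ∪
      (N.biUnion fun x => (Icc (n / 2 - s) (n / 2 + s)).filter fun b =>
        Sup.card < 10 * (Sup.filter fun i => b + x - c i ∈ UX).card))) := by
    refine pick20 ?_
    rw [hI1]
    have e1 : ((Icc (n / 2 - s) (n / 2 + s)).filter fun b => b ∈ UX).card ≤ u :=
      cardle20 (f := fun b => b) uX (fun a _ b _ hab => hab)
    have e2 : ((Icc (n / 2 - s) (n / 2 + s)).filter fun b => c i₀ + b ∈ US).card ≤ u :=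
      cardle20 (f := fun b => c i₀ + b) uS (fun a _ b _ hab => by
        simpa using hab)
    have e3 : (N.biUnion fun x => (Icc (n / 2 - s) (n / 2 + s)).filter
        fun b => b + x ∈ US).card ≤ k * u :=
      Finset.card_biUnion_le_card_mul _ _ _ fun x hx =>
        cardle20 (f := fun b => b + x) uS (fun a _ b _ hab => by simpa using hab)
    have e4 : (N.biUnion fun x => (Icc (n / 2 - s) (n / 2 + s)).filter fun b =>
        Sup.card < 10 * (Sup.filter fun i => b + x - c i ∈ UX).card).card ≤ k * (10 * u) := by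
      refine Finset.card_biUnion_le_card_mul _ _ _ fun x hx => ?_
      refine avg20 (bad := fun b i => b + x - c i ∈ UX) hSpos fun i hi => ?_
      refine cardle20 (f := fun b => b + x - c i) uX ?_
      intro a ha b hb hab
      rw [Finset.coe_Icc, Set.mem_Icc] at ha hb
      have h1 := hN1 x hx
      have h2 := hmid i hi
      simp only at hab
      omega
    refine lt_of_le_of_lt (Finset.card_union_le _ _) ?_
    refine lt_of_le_of_lt (Nat.add_le_add e1 (le_trans (Finset.card_union_le _ _)
      (Nat.add_le_add e2 (le_trans (Finset.card_union_le _ _) (Nat.add_le_add e3 e4))))) ?_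
    have h5 : k * u ≤ d * u := Nat.mul_le_mul_right _ hNd
    nlinarith [Nat.zero_le (d * u), Nat.zero_le (d * d), Nat.zero_le d, Nat.zero_le u]
  simp only [Finset.mem_union, Finset.mem_filter, Finset.mem_biUnion, hbI, true_and, not_or,
    not_exists, not_and, not_lt] at hb
  obtain ⟨hb1, hb2, hb3, hb4⟩ := hb
  rw [Finset.mem_Icc] at hbI
  -- choice of τ
  have hI2 : ((Icc (n - s) (n + s)).card) = 2 * s + 1 := by
    rw [Nat.card_Icc]; omega
  obtain ⟨τ, hτI, hτ⟩ : ∃ τ ∈ Icc (n - s) (n + s), τ ∉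
      ((Icc (n - s) (n + s)).filter fun τ => τ ∈ US) ∪
      ((N.image fun x => b + x) ∪ ({c i₀ + b} ∪
      (((Icc (n - s) (n + s)).filter fun τ =>
        Sup.card < 10 * (Sup.filter fun i => τ - c i ∈ UX).card) ∪
      (N.biUnion fun x => (Icc (n - s) (n + s)).filter fun τ =>
        Sup.card < 10 * (Sup.filter fun i => τ + (b + x) - 2 * c i ∈ US).card)))) := by
    refine pick20 ?_
    rw [hI2]
    have e1 : ((Icc (n - s) (n + s)).filter fun τ => τ ∈ US).card ≤ u :=
      cardle20 (f := fun b => b) uS (fun a _ b _ hab => hab)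
    have e2 : (N.image fun x => b + x).card ≤ k := Finset.card_image_le
    have e3 : ({c i₀ + b} : Finset ℕ).card ≤ 1 := by simp
    have e4 : ((Icc (n - s) (n + s)).filter fun τ =>
        Sup.card < 10 * (Sup.filter fun i => τ - c i ∈ UX).card).card ≤ 10 * u := by
      refine avg20 (bad := fun τ i => τ - c i ∈ UX) hSpos fun i hi => ?_
      refine cardle20 (f := fun τ => τ - c i) uX ?_
      intro a ha b hb hab
      rw [Finset.coe_Icc, Set.mem_Icc] at ha hb
      have h2 := hmid i hi
      simp only at hab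
      omega
    have e5 : (N.biUnion fun x => (Icc (n - s) (n + s)).filter fun τ =>
        Sup.card < 10 * (Sup.filter fun i => τ + (b + x) - 2 * c i ∈ US).card).card
        ≤ k * (10 * u) := by
      refine Finset.card_biUnion_le_card_mul _ _ _ fun x hx => ?_
      refine avg20 (bad := fun τ i => τ + (b + x) - 2 * c i ∈ US) hSpos fun i hi => ?_
      refine cardle20 (f := fun τ => τ + (b + x) - 2 * c i) uS ?_
      intro a ha b hb hab
      rw [Finset.coe_Icc, Set.mem_Icc] at ha hb
      have h1 := hN1 x hx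
      have h2 := hmid i hi
      simp only at hab
      omega
    refine lt_of_le_of_lt (Finset.card_union_le _ _) ?_
    refine lt_of_le_of_lt (Nat.add_le_add e1 (le_trans (Finset.card_union_le _ _)
      (Nat.add_le_add e2 (le_trans (Finset.card_union_le _ _) (Nat.add_le_add e3
      (le_trans (Finset.card_union_le _ _) (Nat.add_le_add e4 e5))))))) ?_
    have h5 : k * u ≤ d * u := Nat.mul_le_mul_right _ hNd
    nlinarith [Nat.zero_le (d * u), Nat.zero_le (d * d), Nat.zero_le d, Nat.zero_le u]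
  simp only [Finset.mem_union, Finset.mem_filter, Finset.mem_biUnion, hτI, true_and, not_or,
    not_exists, not_and, not_lt, Finset.mem_image, Finset.mem_singleton] at hτ
  obtain ⟨hτ1, hτ2, hτ3, hτ4, hτ5⟩ := hτ
  rw [Finset.mem_Icc] at hτI
  -- choice of the paths
  obtain ⟨g, hg1, hg2⟩ := greedy20 Sup
    (fun x i => i = i₀ ∨ (b + x - c i ∈ UX ∨ (τ - c i ∈ UX ∨ (τ + (b + x) - 2 * c i ∈ US ∨
      (τ - c i = b ∨ (τ + (b + x) - 2 * c i = c i₀ + b ∨ (τ + (b + x) - 2 * c i = τ ∨
      ∃ v ∈ N, τ + (b + x) - 2 * c i = b + v)))))))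
    (fun x i y j => i = j ∨ (c i = c j ∨ (b + x - c i = b + y - c j ∨ (b + x - c i = τ - c j ∨
      (τ - c i = b + y - c j ∨ τ + (b + x) - 2 * c i = τ + (b + y) - 2 * c j)))))
    (1 + 3 * (Sup.card / 10) + (k + 3) * D) (1 + 5 * D)
    (by
      intro x i y j h
      rcases h with h | h | h | h | h | h
      · exact Or.inl h.symm
      · exact Or.inr (Or.inl h.symm)
      · exact Or.inr (Or.inr (Or.inl h.symm))
      · exact Or.inr (Or.inr (Or.inr (Or.inr (Or.inl h.symm))))
      · exact Or.inr (Or.inr (Or.inr (Or.inl h.symm)))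
      · exact Or.inr (Or.inr (Or.inr (Or.inr (Or.inr h.symm)))))
    N
    (by
      intro x hx
      have hT : ∀ i ∈ Sup, 2 * c i ≤ τ + (b + x) ∧ c i ≤ τ := by
        intro i hi
        have h1 := hN1 x hx
        have h2 := hmid i hi
        omega
      have hD : ∀ (Q : ℕ → Prop) [DecidablePred Q] (a : ℕ), (∀ i ∈ Sup, Q i → c i = a) →
          (Sup.filter Q).card ≤ D := by
        intro Q _ a hQ
        refine le_trans (Finset.card_le_card ?_) (mult a)
        intro i hi
        rw [Finset.mem_filter] at hi ⊢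
        exact ⟨hi.1, hQ i hi.1 hi.2⟩
      have f1 : (Sup.filter fun i => i = i₀).card ≤ 1 := by
        refine le_trans (Finset.card_le_card (t := {i₀}) ?_) (by simp)
        intro i hi
        rw [Finset.mem_singleton]; exact (Finset.mem_filter.mp hi).2
      have f2 : (Sup.filter fun i => b + x - c i ∈ UX).card ≤ Sup.card / 10 := by
        have := hb4 x hx; omega
      have f3 : (Sup.filter fun i => τ - c i ∈ UX).card ≤ Sup.card / 10 := by
        have := hτ4; omega
      have f4 : (Sup.filter fun i => τ + (b + x) - 2 * c i ∈ US).card ≤ Sup.card / 10 := by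
        have := hτ5 x hx; omega
      have f5 : (Sup.filter fun i => τ - c i = b).card ≤ D :=
        hD _ (τ - b) (fun i hi h => by have := hT i hi; omega)
      have f6 : (Sup.filter fun i => τ + (b + x) - 2 * c i = c i₀ + b).card ≤ D :=
        hD _ ((τ + (b + x) - (c i₀ + b)) / 2) (fun i hi h => by have := hT i hi; omega)
      have f7 : (Sup.filter fun i => τ + (b + x) - 2 * c i = τ).card ≤ D :=
        hD _ ((τ + (b + x) - τ) / 2) (fun i hi h => by have := hT i hi; omega)
      have f8 : (Sup.filter fun i => ∃ v ∈ N, τ + (b + x) - 2 * c i = b + v).card ≤ k * D := by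
        refine le_trans (Finset.card_le_card (t := N.biUnion fun v => Sup.filter fun i =>
          τ + (b + x) - 2 * c i = b + v) ?_) (Finset.card_biUnion_le_card_mul _ _ _ fun v hv =>
          hD _ ((τ + (b + x) - (b + v)) / 2) (fun i hi h => by have := hT i hi; omega))
        intro i hi
        obtain ⟨hi1, v, hv, hi2⟩ := Finset.mem_filter.mp hi
        exact Finset.mem_biUnion.mpr ⟨v, hv, Finset.mem_filter.mpr ⟨hi1, hi2⟩⟩
      simp only [Finset.filter_or]
      refine le_trans (Finset.card_union_le _ _) ?_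
      refine le_trans (Nat.add_le_add f1 (le_trans (Finset.card_union_le _ _)
        (Nat.add_le_add f2 (le_trans (Finset.card_union_le _ _)
        (Nat.add_le_add f3 (le_trans (Finset.card_union_le _ _)
        (Nat.add_le_add f4 (le_trans (Finset.card_union_le _ _)
        (Nat.add_le_add f5 (le_trans (Finset.card_union_le _ _)
        (Nat.add_le_add f6 (le_trans (Finset.card_union_le _ _)
        (Nat.add_le_add f7 f8))))))))))))) ?_
      ring_nf
      omega)
    (by
      intro x hx y hy j hj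
      have hT : ∀ i ∈ Sup, 2 * c i ≤ τ + (b + x) ∧ c i ≤ τ ∧ c i ≤ b + x := by
        intro i hi
        have h1 := hN1 x hx
        have h2 := hmid i hi
        omega
      have hT' : 2 * c j ≤ τ + (b + y) ∧ c j ≤ τ ∧ c j ≤ b + y ∧ c j < b + y ∧ c j < τ ∧
          2 * c j < τ + (b + y) := by
        have h1 := hN1 y hy
        have h2 := hmid j hj
        omega
      have hD : ∀ (Q : ℕ → Prop) [DecidablePred Q] (a : ℕ), (∀ i ∈ Sup, Q i → c i = a) →
          (Sup.filter Q).card ≤ D := by
        intro Q _ a hQ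
        refine le_trans (Finset.card_le_card ?_) (mult a)
        intro i hi
        rw [Finset.mem_filter] at hi ⊢
        exact ⟨hi.1, hQ i hi.1 hi.2⟩
      have f1 : (Sup.filter fun i => i = j).card ≤ 1 := by
        refine le_trans (Finset.card_le_card (t := {j}) ?_) (by simp)
        intro i hi
        rw [Finset.mem_singleton]; exact (Finset.mem_filter.mp hi).2
      have f2 : (Sup.filter fun i => c i = c j).card ≤ D := mult _
      have f3 : (Sup.filter fun i => b + x - c i = b + y - c j).card ≤ D :=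
        hD _ (b + x - (b + y - c j)) (fun i hi h => by have := hT i hi; omega)
      have f4 : (Sup.filter fun i => b + x - c i = τ - c j).card ≤ D :=
        hD _ (b + x - (τ - c j)) (fun i hi h => by have := hT i hi; omega)
      have f5 : (Sup.filter fun i => τ - c i = b + y - c j).card ≤ D :=
        hD _ (τ - (b + y - c j)) (fun i hi h => by have := hT i hi; omega)
      have f6 : (Sup.filter fun i => τ + (b + x) - 2 * c i = τ + (b + y) - 2 * c j).card ≤ D :=
        hD _ ((τ + (b + x) - (τ + (b + y) - 2 * c j)) / 2)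
          (fun i hi h => by have := hT i hi; omega)
      simp only [Finset.filter_or]
      refine le_trans (Finset.card_union_le _ _) ?_
      refine le_trans (Nat.add_le_add f1 (le_trans (Finset.card_union_le _ _)
        (Nat.add_le_add f2 (le_trans (Finset.card_union_le _ _)
        (Nat.add_le_add f3 (le_trans (Finset.card_union_le _ _)
        (Nat.add_le_add f4 (le_trans (Finset.card_union_le _ _)
        (Nat.add_le_add f5 f6))))))))) ?_
      omega)
    (by
      have h6 : 10 * (Sup.card / 10) ≤ Sup.card := by omega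
      have h7 : k * D ≤ d * D := Nat.mul_le_mul_right _ hNd
      have h8 : (d + 1) ^ 2 * (D + 1) = d * d * D + d * d + 2 * (d * D) + 2 * d + D + 1 := by ring
      have h9 : 100 * (d * d * D + d * d + 2 * (d * D) + 2 * d + D + 1) ≤ Sup.card := by
        rw [← h8]; linarith [big]
      have h10 : 0 ≤ d * d * D := Nat.zero_le _
      have h11 : 0 ≤ d * d := Nat.zero_le _
      have h12 : (k + 3) * D = k * D + 3 * D := by ring
      have h13 : N.card * (1 + 5 * D) = k + 5 * (k * D) := by rw [← hk]; ring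
      rw [h12, h13]
      omega)
  -- facts about the choice
  have hgS : ∀ w ∈ N, g w ∈ Sup := fun w hw => (hg1 w hw).1
  have hR : ∀ w ∈ N, c (g w) + (b + w - c (g w)) = b + w ∧ c (g w) + (τ - c (g w)) = τ ∧
      (b + w - c (g w)) + (τ - c (g w)) = τ + (b + w) - 2 * c (g w) ∧
      1 ≤ b + w - c (g w) ∧ b + w - c (g w) ≤ n ∧ 1 ≤ τ - c (g w) ∧ τ - c (g w) ≤ n ∧
      n / 2 + 2 ≤ τ + (b + w) - 2 * c (g w) ∧ τ + (b + w) - 2 * c (g w) ≤ n / 2 + n ∧
      n / 2 + 2 ≤ b + w ∧ b + w ≤ n / 2 + n := by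
    intro w hw
    have h1 := hN1 w hw
    have h2 := hmid _ (hgS w hw)
    omega
  have hR0 : 1 ≤ b ∧ b ≤ n ∧ n / 2 + 2 ≤ c i₀ + b ∧ c i₀ + b ≤ n / 2 + n ∧
      n / 2 + 2 ≤ τ ∧ τ ≤ n / 2 + n := by
    have h2 := hmid _ hi₀
    omega
  have hg3 : ∀ w ∈ N, g w ≠ i₀ ∧ b + w - c (g w) ∉ UX ∧ τ - c (g w) ∉ UX ∧
      τ + (b + w) - 2 * c (g w) ∉ US ∧ τ - c (g w) ≠ b ∧
      τ + (b + w) - 2 * c (g w) ≠ c i₀ + b ∧ τ + (b + w) - 2 * c (g w) ≠ τ ∧
      ∀ v ∈ N, τ + (b + w) - 2 * c (g w) ≠ b + v := by
    intro w hw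
    have h1 := (hg1 w hw).2
    simp only [not_or, not_exists, not_and] at h1
    obtain ⟨a1, a2, a3, a4, a5, a6, a7, a8⟩ := h1
    exact ⟨a1, a2, a3, a4, a5, a6, a7, a8⟩
  have hg4 : ∀ w ∈ N, ∀ v ∈ N, w ≠ v → g w ≠ g v ∧ c (g w) ≠ c (g v) ∧
      b + w - c (g w) ≠ b + v - c (g v) ∧ b + w - c (g w) ≠ τ - c (g v) ∧
      τ - c (g w) ≠ b + v - c (g v) ∧
      τ + (b + w) - 2 * c (g w) ≠ τ + (b + v) - 2 * c (g v) := by
    intro w hw v hv hwv
    have h1 := hg2 w hw v hv hwv
    simp only [not_or] at h1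
    exact h1
  -- names
  obtain ⟨a, ha⟩ : ∃ a : ℕ → ℕ, a = fun w => b + w - c (g w) := ⟨_, rfl⟩
  obtain ⟨β, hβ⟩ : ∃ β : ℕ → ℕ, β = fun w => τ - c (g w) := ⟨_, rfl⟩
  obtain ⟨t, ht⟩ : ∃ t : ℕ → ℕ, t = fun w => τ + (b + w) - 2 * c (g w) := ⟨_, rfl⟩
  have ha' : ∀ w, b + w - c (g w) = a w := fun w => by rw [ha]
  have hβ' : ∀ w, τ - c (g w) = β w := fun w => by rw [hβ]
  have ht' : ∀ w, τ + (b + w) - 2 * c (g w) = t w := fun w => by rw [ht]
  simp only [ha', hβ', ht'] at hR hg3 hg4
  have hab : ∀ w ∈ N, a w ≠ b := by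
    intro w hw h
    have h1 := (hR w hw).1
    rw [h] at h1
    have : c (g w) = w := by omega
    exact hNc _ (hgS w hw) (by rw [this]; exact hw)
  have haβ : ∀ w ∈ N, a w ≠ β w := by
    intro w hw h
    have h1 := (hR w hw).1
    have h2 := (hR w hw).2.1
    exact hτ2 w hw (by omega)
  have hββ : ∀ w ∈ N, ∀ v ∈ N, w ≠ v → β w ≠ β v := by
    intro w hw v hv hwv h
    have h1 := (hR w hw).2.1
    have h2 := (hR v hv).2.1
    exact (hg4 w hw v hv hwv).2.1 (by omega)
  have hc0 : ∀ w ∈ N, c i₀ ≠ w := fun w hw h => hNc _ hi₀ (h ▸ hw)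
  have ginj : Set.InjOn g N := by
    intro w hw v hv h
    by_contra hne
    exact (hg4 w hw v hv hne).1 h
  have hL0 : b ∉ N.image a ∪ N.image β := by
    intro h
    rcases Finset.mem_union.mp h with h | h
    · obtain ⟨w, hw, h⟩ := Finset.mem_image.mp h
      exact hab w hw h
    · obtain ⟨w, hw, h⟩ := Finset.mem_image.mp h
      exact (hg3 w hw).2.2.2.2.1 h
  have hL1 : Disjoint (N.image a) (N.image β) := by
    rw [Finset.disjoint_left]
    intro v hv hv'
    obtain ⟨w, hw, h⟩ := Finset.mem_image.mp hv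
    obtain ⟨w', hw', h'⟩ := Finset.mem_image.mp hv'
    by_cases hww : w = w'
    · subst hww; exact haβ w hw (h.trans h'.symm)
    · exact (hg4 w hw w' hw' hww).2.2.2.1 (h.trans h'.symm)
  have hS2 : Disjoint (N.image fun x => b + x) (N.image t) := by
    rw [Finset.disjoint_left]
    intro v hv hv'
    obtain ⟨w, hw, h⟩ := Finset.mem_image.mp hv
    obtain ⟨w', hw', h'⟩ := Finset.mem_image.mp hv'
    exact (hg3 w' hw').2.2.2.2.2.2.2 w hw (h'.trans h.symm)
  have hS1 : τ ∉ (N.image fun x => b + x) ∪ N.image t := by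
    intro h
    rcases Finset.mem_union.mp h with h | h
    · obtain ⟨w, hw, h⟩ := Finset.mem_image.mp h
      exact hτ2 w hw h
    · obtain ⟨w, hw, h⟩ := Finset.mem_image.mp h
      exact (hg3 w hw).2.2.2.2.2.2.1 h
  have hS0 : c i₀ + b ∉ insert τ ((N.image fun x => b + x) ∪ N.image t) := by
    intro h
    rcases Finset.mem_insert.mp h with h | h
    · exact hτ3 h.symm
    rcases Finset.mem_union.mp h with h | h
    · obtain ⟨w, hw, h⟩ := Finset.mem_image.mp h
      exact hc0 w hw (by omega)
    · obtain ⟨w, hw, h⟩ := Finset.mem_image.mp h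
      exact (hg3 w hw).2.2.2.2.2.1 h
  have hP0 : i₀ ∉ N.image g := by
    intro h
    obtain ⟨w, hw, h⟩ := Finset.mem_image.mp h
    exact (hg3 w hw).1 h
  refine ⟨insert i₀ (N.image g), insert b (N.image a ∪ N.image β),
    insert (c i₀ + b) (insert τ ((N.image fun x => b + x) ∪ N.image t)),
    ?_, ?_, ?_, ?_, ?_, ?_, ?_, ?_, ?_⟩
  · intro i hi
    rcases Finset.mem_insert.mp hi with rfl | hi
    · exact hi₀
    · obtain ⟨w, hw, rfl⟩ := Finset.mem_image.mp hi
      exact hgS w hw
  · rw [Finset.card_insert_of_notMem hP0, Finset.card_image_of_injOn ginj]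
  · rw [Finset.disjoint_left]
    intro v hv hvU
    rcases Finset.mem_insert.mp hv with rfl | hv
    · exact hb1 hvU
    rcases Finset.mem_union.mp hv with hv | hv
    · obtain ⟨w, hw, rfl⟩ := Finset.mem_image.mp hv
      exact (hg3 w hw).2.1 hvU
    · obtain ⟨w, hw, rfl⟩ := Finset.mem_image.mp hv
      exact (hg3 w hw).2.2.1 hvU
  · rw [Finset.disjoint_left]
    intro v hv hvU
    rcases Finset.mem_insert.mp hv with rfl | hv
    · exact hb2 hvU
    rcases Finset.mem_insert.mp hv with rfl | hv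
    · exact hτ1 hvU
    rcases Finset.mem_union.mp hv with hv | hv
    · obtain ⟨w, hw, rfl⟩ := Finset.mem_image.mp hv
      exact hb3 w hw hvU
    · obtain ⟨w, hw, rfl⟩ := Finset.mem_image.mp hv
      exact (hg3 w hw).2.2.2.1 hvU
  · intro v hv
    rw [Finset.mem_Icc]
    rcases Finset.mem_insert.mp hv with rfl | hv
    · exact ⟨hR0.1, hR0.2.1⟩
    rcases Finset.mem_union.mp hv with hv | hv
    · obtain ⟨w, hw, rfl⟩ := Finset.mem_image.mp hv
      obtain ⟨-, -, -, r1, r2, -⟩ := hR w hw
      exact ⟨r1, r2⟩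
    · obtain ⟨w, hw, rfl⟩ := Finset.mem_image.mp hv
      obtain ⟨-, -, -, -, -, r1, r2, -⟩ := hR w hw
      exact ⟨r1, r2⟩
  · intro v hv
    rw [Win, Finset.mem_Icc]
    rcases Finset.mem_insert.mp hv with rfl | hv
    · exact ⟨hR0.2.2.1, hR0.2.2.2.1⟩
    rcases Finset.mem_insert.mp hv with rfl | hv
    · exact ⟨hR0.2.2.2.2.1, hR0.2.2.2.2.2⟩
    rcases Finset.mem_union.mp hv with hv | hv
    · obtain ⟨w, hw, rfl⟩ := Finset.mem_image.mp hv
      obtain ⟨-, -, -, -, -, -, -, -, -, r1, r2⟩ := hR w hw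
      exact ⟨r1, r2⟩
    · obtain ⟨w, hw, rfl⟩ := Finset.mem_image.mp hv
      obtain ⟨-, -, -, -, -, -, -, r1, r2, -⟩ := hR w hw
      exact ⟨r1, r2⟩
  · rw [Finset.card_insert_of_notMem hL0, Finset.card_union_of_disjoint hL1,
      Finset.card_image_of_injOn, Finset.card_image_of_injOn]
    · omega
    · intro w hw v hv h
      by_contra hne
      exact hββ w hw v hv hne h
    · intro w hw v hv h
      by_contra hne
      exact (hg4 w hw v hv hne).2.2.1 h
  · rw [Finset.card_insert_of_notMem hS0, Finset.card_insert_of_notMem hS1,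
      Finset.card_union_of_disjoint hS2, Finset.card_image_of_injOn, Finset.card_image_of_injOn]
    · omega
    · intro w hw v hv h
      by_contra hne
      exact (hg4 w hw v hv hne).2.2.2.2.2 h
    · intro w hw v hv h
      simpa using h
  · intro x hx
    have hxU : x ∈ UX := hN hx
    have hxa : ∀ w ∈ N, a w ≠ x := fun w hw h => (hg3 w hw).2.1 (h ▸ hxU)
    have hxβ : ∀ w ∈ N, β w ≠ x := fun w hw h => (hg3 w hw).2.2.1 (h ▸ hxU)
    have hxb : b ≠ x := fun h => hb1 (h ▸ hxU)
    obtain ⟨W, hW⟩ : ∃ W : ℕ → ℕ, ∀ w ∈ N, W (g w) = w :=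
      ⟨Function.invFunOn g N, fun w hw => ginj.leftInvOn_invFunOn hw⟩
    obtain ⟨y, hy⟩ : ∃ y : ℕ → ℕ, y = fun i => if i = i₀ then b else
      if W i = x then β (W i) else a (W i) := ⟨_, rfl⟩
    obtain ⟨z, hz⟩ : ∃ z : ℕ → ℕ, z = fun i => if i = i₀ then x else
      if W i = x then a (W i) else β (W i) := ⟨_, rfl⟩
    have y0 : y i₀ = b := by rw [hy]; simp
    have z0 : z i₀ = x := by rw [hz]; simp
    have y1 : ∀ w ∈ N, y (g w) = if w = x then β w else a w := by
      intro w hw
      rw [hy]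
      simp only [(hg3 w hw).1, if_false, hW w hw]
    have z1 : ∀ w ∈ N, z (g w) = if w = x then a w else β w := by
      intro w hw
      rw [hz]
      simp only [(hg3 w hw).1, if_false, hW w hw]
    have cy1 : ∀ w ∈ N, c (g w) + y (g w) = if w = x then τ else b + w := by
      intro w hw
      rw [y1 w hw]
      split_ifs
      · exact (hR w hw).2.1
      · exact (hR w hw).1
    have yz1 : ∀ w ∈ N, y (g w) + z (g w) = t w := by
      intro w hw
      rw [y1 w hw, z1 w hw]
      split_ifs
      · rw [add_comm]; exact (hR w hw).2.2.1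
      · exact (hR w hw).2.2.1
    have hP : ∀ i ∈ insert i₀ (N.image g), i = i₀ ∨ ∃ w ∈ N, i = g w := by
      intro i hi
      rcases Finset.mem_insert.mp hi with h | h
      · exact Or.inl h
      · obtain ⟨w, hw, h⟩ := Finset.mem_image.mp h
        exact Or.inr ⟨w, hw, h.symm⟩
    have mA : ∀ w ∈ N, a w ∈ insert x (insert b (N.image a ∪ N.image β)) := fun w hw =>
      mem_insert_of_mem (mem_insert_of_mem (mem_union_left _ (mem_image_of_mem _ hw)))
    have mB : ∀ w ∈ N, β w ∈ insert x (insert b (N.image a ∪ N.image β)) := fun w hw =>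
      mem_insert_of_mem (mem_insert_of_mem (mem_union_right _ (mem_image_of_mem _ hw)))
    refine ⟨y, z, ?_, ?_, ?_, ?_, ?_, ?_, ?_⟩
    · intro i hi
      rcases hP i hi with rfl | ⟨w, hw, rfl⟩
      · rw [y0, z0]
        refine ⟨mem_insert_of_mem (mem_insert_self _ _), mem_insert_self _ _,
          mem_insert_self _ _, ?_⟩
        exact mem_insert_of_mem (mem_insert_of_mem (mem_union_left _
          (mem_image_of_mem _ hx)))
      · rw [cy1 w hw, yz1 w hw, y1 w hw, z1 w hw]
        refine ⟨?_, ?_, ?_, ?_⟩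
        · split_ifs
          · exact mB w hw
          · exact mA w hw
        · split_ifs
          · exact mA w hw
          · exact mB w hw
        · split_ifs
          · exact mem_insert_of_mem (mem_insert_self _ _)
          · exact mem_insert_of_mem (mem_insert_of_mem (mem_union_left _
              (mem_image_of_mem _ hw)))
        · exact mem_insert_of_mem (mem_insert_of_mem (mem_union_right _
              (mem_image_of_mem _ hw)))
    · intro i hi j hj hij
      rcases hP i hi with rfl | ⟨w, hw, rfl⟩ <;> rcases hP j hj with rfl | ⟨v, hv, rfl⟩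
      · rfl
      · exfalso
        rw [y0, y1 v hv] at hij
        split_ifs at hij
        · exact (hg3 v hv).2.2.2.2.1 hij.symm
        · exact hab v hv hij.symm
      · exfalso
        rw [y0, y1 w hw] at hij
        split_ifs at hij
        · exact (hg3 w hw).2.2.2.2.1 hij
        · exact hab w hw hij
      · by_cases hwv : w = v
        · rw [hwv]
        exfalso
        rw [y1 w hw, y1 v hv] at hij
        have q := hg4 w hw v hv hwv
        split_ifs at hij
        · exact hββ w hw v hv hwv hij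
        · exact q.2.2.2.2.1 hij
        · exact q.2.2.2.1 hij
        · exact q.2.2.1 hij
    · intro i hi j hj hij
      rcases hP i hi with rfl | ⟨w, hw, rfl⟩ <;> rcases hP j hj with rfl | ⟨v, hv, rfl⟩
      · rfl
      · exfalso
        rw [z0, z1 v hv] at hij
        split_ifs at hij
        · exact hxa v hv hij.symm
        · exact hxβ v hv hij.symm
      · exfalso
        rw [z0, z1 w hw] at hij
        split_ifs at hij
        · exact hxa w hw hij
        · exact hxβ w hw hij
      · by_cases hwv : w = v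
        · rw [hwv]
        exfalso
        rw [z1 w hw, z1 v hv] at hij
        have q := hg4 w hw v hv hwv
        split_ifs at hij
        · exact q.2.2.1 hij
        · exact q.2.2.2.1 hij
        · exact q.2.2.2.2.1 hij
        · exact hββ w hw v hv hwv hij
    · intro i hi j hj hij
      rcases hP i hi with rfl | ⟨w, hw, rfl⟩ <;> rcases hP j hj with rfl | ⟨v, hv, rfl⟩
      · rw [y0, z0] at hij; exact hxb hij
      · rw [y0, z1 v hv] at hij
        split_ifs at hij
        · exact hab v hv hij.symm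
        · exact (hg3 v hv).2.2.2.2.1 hij.symm
      · rw [z0, y1 w hw] at hij
        split_ifs at hij
        · exact hxβ w hw hij
        · exact hxa w hw hij
      · rw [y1 w hw, z1 v hv] at hij
        by_cases hwv : w = v
        · subst hwv
          split_ifs at hij
          · exact haβ w hw hij.symm
          · exact haβ w hw hij
        · have q := hg4 w hw v hv hwv
          split_ifs at hij
          · exact q.2.2.2.2.1 hij
          · exact hββ w hw v hv hwv hij
          · exact q.2.2.1 hij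
          · exact q.2.2.2.1 hij
    · intro i hi j hj hij
      simp only at hij
      rcases hP i hi with rfl | ⟨w, hw, rfl⟩ <;> rcases hP j hj with rfl | ⟨v, hv, rfl⟩
      · rfl
      · exfalso
        rw [y0, cy1 v hv] at hij
        split_ifs at hij
        · exact hτ3 hij.symm
        · exact hc0 v hv (by omega)
      · exfalso
        rw [y0, cy1 w hw] at hij
        split_ifs at hij
        · exact hτ3 hij
        · exact hc0 w hw (by omega)
      · by_cases hwv : w = v
        · rw [hwv]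
        exfalso
        rw [cy1 w hw, cy1 v hv] at hij
        split_ifs at hij with e1 e2 e2
        · exact hwv (e1.trans e2.symm)
        · exact hτ2 v hv hij.symm
        · exact hτ2 w hw hij
        · exact hwv (by omega)
    · intro i hi j hj hij
      simp only at hij
      rcases hP i hi with rfl | ⟨w, hw, rfl⟩ <;> rcases hP j hj with rfl | ⟨v, hv, rfl⟩
      · rfl
      · exfalso
        rw [y0, z0, yz1 v hv] at hij
        exact (hg3 v hv).2.2.2.2.2.2.2 x hx hij.symm
      · exfalso
        rw [y0, z0, yz1 w hw] at hij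
        exact (hg3 w hw).2.2.2.2.2.2.2 x hx hij
      · by_cases hwv : w = v
        · rw [hwv]
        exfalso
        rw [yz1 w hw, yz1 v hv] at hij
        exact (hg4 w hw v hv hwv).2.2.2.2.2 hij
    · intro i hi j hj hij
      rcases hP i hi with rfl | ⟨w, hw, rfl⟩ <;> rcases hP j hj with rfl | ⟨v, hv, rfl⟩
      · rw [y0, z0] at hij; exact hc0 x hx (by omega)
      · rw [y0, yz1 v hv] at hij
        exact (hg3 v hv).2.2.2.2.2.1 hij.symm
      · rw [y0, z0, cy1 w hw] at hij
        split_ifs at hij with e1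
        · exact hτ2 x hx hij.symm
        · exact e1 (by omega)
      · rw [cy1 w hw, yz1 v hv] at hij
        split_ifs at hij
        · exact (hg3 v hv).2.2.2.2.2.2.1 hij.symm
        · exact (hg3 v hv).2.2.2.2.2.2.2 w hw hij.symm

end Pool.Agent.SEM
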