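import Pool.Agent.Helper73.SEM.GL

/-!
# SEM-GS: gadget absorbing exactly one of the sums of a set `M`

Proof in words.  `k = |M| ≤ d`, `M = {s_1,..,s_k}`.  Choose `i₀ ∈ Sup`, then `b ∈ [0.49 n, 0.51 n]` with `b ∉ UX`, `c₀ + b ∉ US`,
`w_j := s_j - b ∉ UX`, `w_j ≠ b` (excluded: `(2 + k) u + k` values).  Then `x₀ ∈ [0.49 n, 0.51 n]`, `x₀ ∉ UX ∪ {b, w_1, .., w_k}`.
For `j = 1, .., k` apply `glab` with `d = 2` to `N = {x₀, w_j}`, the supply `Sup` minus the used paths, `UX' = UX ∪ {b, x₀, w_1..w_k} ∪` the previous `L`s,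
`US' = US ∪ {c₀ + b} ∪` the previous `S`s (sizes `≤ u + 6k + 2`; `c i ∈ UX` so `c i ∉ N`); it gives `P_j, L_j, S_j` with
`|P_j| = 3`, `|L_j| = 5`, `|S_j| = 6`.  `P = {i₀} ∪ ⋃ P_j`, `L = {b, x₀, w_1, .., w_k} ∪ ⋃ L_j`, `S = {c₀ + b} ∪ ⋃ S_j`.
To absorb `s_j`: path `i₀`: labels `b, w_j`, sums `c₀ + b, s_j` (`c₀ + b ∉ US ∋ s_j`); gadget `l ≠ j` absorbs `w_l`; gadget `j` absorbs `x₀`.
(`w_j ∈ [0.09n, 0.91n]` as `s_j ∈ [0.6n, 1.4n]`.)
-/

set_option autoImplicit false

namespace Pool.Agent.SEM

open Finset

namespace GS56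

/-- the gadgets for the labels `w s`, `s ∈ T` -/
theorem gadgets {n h D u d : ℕ} {c : ℕ → ℕ} {Sup UX US M : Finset ℕ} (hd : 3 ≤ d)
    (hs : Sply n h D u d c Sup UX US) (hMd : M.card ≤ d) (i₀ b x₀ t₀ : ℕ) (w : ℕ → ℕ)
    (hw : Set.InjOn w M) (hw1 : ∀ s ∈ M, 9 * n ≤ 100 * w s ∧ 100 * w s ≤ 91 * n)
    (hwU : ∀ s ∈ M, w s ∉ UX) (hx1 : 9 * n ≤ 100 * x₀ ∧ 100 * x₀ ≤ 91 * n) (hxU : x₀ ∉ UX)
    (hxw : ∀ s ∈ M, w s ≠ x₀) :
    ∀ T ⊆ M, ∃ P L S : Finset ℕ, P ⊆ Sup.erase i₀ ∧ P.card = 3 * T.card ∧
      Disjoint L (insert b (insert x₀ (UX ∪ M.image w))) ∧ Disjoint S (insert t₀ US) ∧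
      L ⊆ Icc 1 n ∧ S ⊆ Win n ∧ L.card = 5 * T.card ∧ S.card = 6 * T.card ∧
      Abs c P (L ∪ T.image w) S ∧
      ∀ s ∈ T, Abs c P (L ∪ insert x₀ ((T.erase s).image w)) S := by
  intro T
  induction T using Finset.induction_on with
  | empty =>
    intro _
    refine ⟨∅, ∅, ∅, by simp, by simp, by simp, by simp, by simp, by simp, by simp, by simp, ?_,
      by simp⟩
    exact ⟨fun _ => 0, fun _ => 0, by simp, by simp, by simp, by simp, by simp, by simp, by simp⟩
  | insert s T hsT ih =>
    intro hTM
    have hsM : s ∈ M := hTM (mem_insert_self s T)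
    have hTM' : T ⊆ M := fun t ht => hTM (mem_insert_of_mem ht)
    obtain ⟨P, L, S, hP, hPc, hL, hS, hL1, hS1, hLc, hSc, hA, hB⟩ := ih hTM'
    have hTc : T.card + 1 ≤ d := by
      have := card_le_card hTM
      rw [card_insert_of_notMem hsT] at this
      omega
    -- the new data
    set Sup' : Finset ℕ := (Sup.erase i₀) \ P with hSup'
    set UX' : Finset ℕ := insert b (insert x₀ (UX ∪ M.image w)) ∪ L with hUX'
    set US' : Finset ℕ := insert t₀ US ∪ S with hUS'
    have hsub : Sup' ⊆ Sup := fun i hi => mem_of_mem_erase (mem_sdiff.1 hi).1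
    have hUXs : UX ⊆ UX' := fun x hx => mem_union_left _
      (mem_insert_of_mem (mem_insert_of_mem (mem_union_left _ hx)))
    have hs' : Sply n h D (u + 6 * d + 2) 2 c Sup' UX' US' := by
      refine ⟨fun i hi => hs.mid i (hsub hi), hs.hh, fun a => ?_, ?_,
        fun i hi => hUXs (hs.cU i (hsub hi)), ?_, ?_, ?_⟩
      · exact (card_le_card (filter_subset_filter _ hsub)).trans (hs.mult a)
      · have h1 : Sup.card ≤ Sup'.card + 1 + P.card := by
          have h2 : Sup ⊆ Sup' ∪ ({i₀} ∪ P) := by
            intro i hi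
            by_cases h3 : i = i₀
            · exact mem_union_right _ (mem_union_left _ (mem_singleton.2 h3))
            · by_cases h4 : i ∈ P
              · exact mem_union_right _ (mem_union_right _ h4)
              · exact mem_union_left _ (mem_sdiff.2 ⟨mem_erase.2 ⟨h3, hi⟩, h4⟩)
          have h3 := card_le_card h2
          have h4 := card_union_le Sup' ({i₀} ∪ P)
          have h5 := card_union_le {i₀} P
          rw [card_singleton] at h5
          omega
        have h2 := hs.big
        have h3 : 900 * (D + 1) + 3 * d + 1 ≤ 100 * (d + 1) ^ 2 * (D + 1) := by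
          obtain ⟨e, rfl⟩ : ∃ e, d = e + 3 := ⟨d - 3, by omega⟩
          nlinarith [Nat.zero_le (e * D), Nat.zero_le (e * e * D), Nat.zero_le (e * e)]
        have h4 : 100 * (2 + 1) ^ 2 * (D + 1) = 900 * (D + 1) := by ring
        omega
      · have h1 := card_union_le (insert b (insert x₀ (UX ∪ M.image w))) L
        have h2 := card_insert_le b (insert x₀ (UX ∪ M.image w))
        have h3 := card_insert_le x₀ (UX ∪ M.image w)
        have h4 := card_union_le UX (M.image w)
        have h5 : (M.image w).card ≤ M.card := card_image_le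
        have h6 := hs.uX
        rw [hUX']
        omega
      · have h1 := card_union_le (insert t₀ US) S
        have h2 := card_insert_le t₀ US
        have h6 := hs.uS
        rw [hUS']
        omega
      · have h1 := hs.hu
        have h2 : 1000 * (2 + 1) * (u + 6 * d + 2 + 10 * 2 + 10) ≤
            1000 * (d + 1) * (u + 10 * d + 10) := by
          obtain ⟨e, rfl⟩ : ∃ e, d = e + 3 := ⟨d - 3, by omega⟩
          nlinarith [Nat.zero_le (e * u), Nat.zero_le (e * e)]
        exact h2.trans h1
    have hN : ({x₀, w s} : Finset ℕ) ⊆ UX' := by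
      intro x hx
      rw [mem_insert, mem_singleton] at hx
      rcases hx with rfl | rfl
      · exact mem_union_left _ (mem_insert_of_mem (mem_insert_self _ _))
      · exact mem_union_left _ (mem_insert_of_mem (mem_insert_of_mem
          (mem_union_right _ (mem_image_of_mem w hsM))))
    have hNc : ({x₀, w s} : Finset ℕ).card = 2 := card_pair (hxw s hsM).symm
    obtain ⟨P', L', S', hP', hPc', hL', hS', hL1', hS1', hLc', hSc', hA'⟩ := glab hs' hN hNc.le
      (by
        intro x hx
        rw [mem_insert, mem_singleton] at hx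
        rcases hx with rfl | rfl
        · exact hx1
        · exact hw1 s hsM)
      (by
        intro i hi hx
        have h1 := hs.cU i (hsub hi)
        rw [mem_insert, mem_singleton] at hx
        rcases hx with hx | hx
        · rw [hx] at h1
          exact hxU h1
        · rw [hx] at h1
          exact hwU s hsM h1)
    rw [hNc] at hPc' hLc' hSc'
    have hxA := hA' x₀ (mem_insert_self _ _)
    have hwA := hA' (w s) (mem_insert_of_mem (mem_singleton_self _))
    have hLd := disjoint_left.1 hL
    have hLd' := disjoint_left.1 hL'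
    have hSd := disjoint_left.1 hS
    have hSd' := disjoint_left.1 hS'
    have hPP : Disjoint P P' := disjoint_left.2 fun i hi hi' => (mem_sdiff.1 (hP' hi')).2 hi
    have hSS : Disjoint S S' := disjoint_left.2 fun i hi hi' => hSd' hi' (mem_union_right _ hi)
    have hLL : Disjoint L L' := disjoint_left.2 fun i hi hi' => hLd' hi' (mem_union_right _ hi)
    have himg : ∀ t ∈ M, w t ∈ insert b (insert x₀ (UX ∪ M.image w)) := fun t ht =>
      mem_insert_of_mem (mem_insert_of_mem (mem_union_right _ (mem_image_of_mem w ht)))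
    have hx0m : x₀ ∈ insert b (insert x₀ (UX ∪ M.image w)) :=
      mem_insert_of_mem (mem_insert_self _ _)
    refine ⟨P ∪ P', L ∪ L', S ∪ S', ?_, ?_, ?_, ?_, union_subset hL1 hL1', union_subset hS1 hS1',
      ?_, ?_, ?_, ?_⟩
    · exact union_subset hP fun i hi => (mem_sdiff.1 (hP' hi)).1
    · rw [card_union_of_disjoint hPP, card_insert_of_notMem hsT]
      omega
    · exact disjoint_union_left.2 ⟨hL, disjoint_left.2 fun x hx hx' =>
        hLd' hx (mem_union_left _ hx')⟩
    · exact disjoint_union_left.2 ⟨hS, disjoint_left.2 fun x hx hx' =>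
        hSd' hx (mem_union_left _ hx')⟩
    · rw [card_union_of_disjoint hLL, card_insert_of_notMem hsT]
      omega
    · rw [card_union_of_disjoint hSS, card_insert_of_notMem hsT]
      omega
    · refine (hA.union hwA hPP ?_ hSS).mono ?_ (Subset.refl _)
      · rw [disjoint_left]
        intro x hx hx'
        rw [mem_union, mem_image] at hx
        rw [mem_insert] at hx'
        rcases hx with hx | ⟨t, ht, rfl⟩
        · rcases hx' with rfl | hx'
          · exact hLd hx (himg s hsM)
          · exact hLd' hx' (mem_union_right _ hx)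
        · rcases hx' with hx' | hx'
          · have := hw (hTM' ht) hsM hx'
            rw [this] at ht
            exact hsT ht
          · exact hLd' hx' (mem_union_left _ (himg t (hTM' ht)))
      · intro x hx
        rw [mem_union, mem_union, mem_insert] at hx
        rw [mem_union, mem_union, image_insert, mem_insert]
        tauto
    · intro t ht
      rw [mem_insert] at ht
      rcases ht with rfl | ht
      · refine (hA.union hxA hPP ?_ hSS).mono ?_ (Subset.refl _)
        · rw [disjoint_left]
          intro x hx hx'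
          rw [mem_union, mem_image] at hx
          rw [mem_insert] at hx'
          rcases hx with hx | ⟨t', ht', rfl⟩
          · rcases hx' with rfl | hx'
            · exact hLd hx hx0m
            · exact hLd' hx' (mem_union_right _ hx)
          · rcases hx' with hx' | hx'
            · exact hxw t' (hTM' ht') hx'
            · exact hLd' hx' (mem_union_left _ (himg t' (hTM' ht')))
        · rw [erase_insert hsT]
          intro x hx
          rw [mem_union, mem_union, mem_insert] at hx
          rw [mem_union, mem_union, mem_insert]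
          tauto
      · have hne : s ≠ t := by
          rintro rfl
          exact hsT ht
        refine ((hB t ht).union hwA hPP ?_ hSS).mono ?_ (Subset.refl _)
        · rw [disjoint_left]
          intro x hx hx'
          rw [mem_union, mem_insert, mem_image] at hx
          rw [mem_insert] at hx'
          rcases hx with hx | hx | ⟨t', ht', rfl⟩
          · rcases hx' with rfl | hx'
            · exact hLd hx (himg s hsM)
            · exact hLd' hx' (mem_union_right _ hx)
          · rw [hx] at hx'
            rcases hx' with hx' | hx'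
            · exact hxw s hsM hx'.symm
            · exact hLd' hx' (mem_union_left _ hx0m)
          · have ht'T : t' ∈ T := mem_of_mem_erase ht'
            rcases hx' with hx' | hx'
            · have := hw (hTM' ht'T) hsM hx'
              rw [this] at ht'T
              exact hsT ht'T
            · exact hLd' hx' (mem_union_left _ (himg t' (hTM' ht'T)))
        · rw [erase_insert_of_ne hne, image_insert]
          intro x hx
          rw [mem_union, mem_union, mem_insert, mem_insert] at hx
          rw [mem_union, mem_union, mem_insert, mem_insert]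
          tauto

/-- a free value in the interval `[n/2, n/2 + n/200]` -/
theorem free {n : ℕ} {B : Finset ℕ} (h : B.card ≤ n / 200) :
    ∃ b, b ∉ B ∧ n / 2 ≤ b ∧ b ≤ n / 2 + n / 200 := by
  have h1 : B.card < (Icc (n / 2) (n / 2 + n / 200)).card := by
    rw [Nat.card_Icc]
    omega
  obtain ⟨b, hb, hb'⟩ := exists_mem_notMem_of_card_lt_card h1
  rw [mem_Icc] at hb
  exact ⟨b, hb', hb.1, hb.2⟩

end GS56

open GS56

theorem gsum {n h D u d : ℕ} {c : ℕ → ℕ} {Sup M UX US : Finset ℕ} (hd : 3 ≤ d)
    (hs : Sply n h D u d c Sup UX US) (hM : M ⊆ US) (hMd : M.card ≤ d)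
    (hM1 : ∀ s ∈ M, 6 * n ≤ 10 * s ∧ 10 * s ≤ 14 * n) :
    ∃ P L S : Finset ℕ, P ⊆ Sup ∧ P.card = 3 * M.card + 1 ∧ Disjoint L UX ∧ Disjoint S US ∧
      L ⊆ Icc 1 n ∧ S ⊆ Win n ∧ L.card = 6 * M.card + 2 ∧ S.card = 6 * M.card + 1 ∧
      ∀ s ∈ M, Abs c P L (insert s S) := by
  have hn := hs.hh
  have hu := hs.hu
  have huX := hs.uX
  have huS := hs.uS
  -- `n/200` is large
  have hbig : 5 * ((d + 1) * (u + 10 * d + 10)) ≤ n / 200 := by
    rw [Nat.le_div_iff_mul_le (by norm_num)]
    calc _ = 1000 * (d + 1) * (u + 10 * d + 10) := by ring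
      _ ≤ n := hu
  obtain ⟨i₀, hi₀⟩ : Sup.Nonempty := by
    rw [← card_pos]
    refine lt_of_lt_of_le ?_ hs.big
    positivity
  have hmid := hs.mid i₀ hi₀
  -- the label `b`
  set B1 : Finset ℕ := (UX ∪ US.image (fun t => t - c i₀)) ∪
    ((M ×ˢ UX).image (fun q => q.1 - q.2) ∪ M.image (fun s => s / 2)) with hB1
  have hB1c : B1.card ≤ n / 200 := by
    have h1 := card_union_le (UX ∪ US.image (fun t => t - c i₀))
      ((M ×ˢ UX).image (fun q => q.1 - q.2) ∪ M.image (fun s => s / 2))
    have h2 := card_union_le UX (US.image (fun t => t - c i₀))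
    have h3 := card_union_le ((M ×ˢ UX).image (fun q => q.1 - q.2)) (M.image (fun s => s / 2))
    have h4 : (US.image (fun t => t - c i₀)).card ≤ US.card := card_image_le
    have h5 : ((M ×ˢ UX).image (fun q => q.1 - q.2)).card ≤ (M ×ˢ UX).card := card_image_le
    have h6 : (M.image (fun s => s / 2)).card ≤ M.card := card_image_le
    rw [card_product] at h5
    have h7 : M.card * UX.card ≤ d * u := Nat.mul_le_mul hMd huX
    have h8 : 2 * u + d * u + d ≤ 5 * ((d + 1) * (u + 10 * d + 10)) := by
      nlinarith [Nat.zero_le (d * u), Nat.zero_le (d * d)]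
    rw [hB1]
    omega
  obtain ⟨b, hb, hb1, hb2⟩ := free hB1c
  have hbU : b ∉ UX := fun h => hb (mem_union_left _ (mem_union_left _ h))
  have hbS : c i₀ + b ∉ US := fun h => hb (mem_union_left _ (mem_union_right _
    (mem_image.2 ⟨_, h, by omega⟩)))
  have hbs : ∀ s ∈ M, b ≤ s := by
    intro s hsM
    have := hM1 s hsM
    omega
  have hwU : ∀ s ∈ M, s - b ∉ UX := by
    intro s hsM h
    refine hb (mem_union_right _ (mem_union_left _ (mem_image.2 ⟨(s, s - b),
      mem_product.2 ⟨hsM, h⟩, ?_⟩)))
    have := hbs s hsM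
    dsimp only
    omega
  have hwb : ∀ s ∈ M, s - b ≠ b := by
    intro s hsM h
    refine hb (mem_union_right _ (mem_union_right _ (mem_image.2 ⟨s, hsM, ?_⟩)))
    have := hbs s hsM
    omega
  -- the label `x₀`
  set B2 : Finset ℕ := insert b (UX ∪ M.image (fun s => s - b)) with hB2
  have hB2c : B2.card ≤ n / 200 := by
    have h1 := card_insert_le b (UX ∪ M.image (fun s => s - b))
    have h2 := card_union_le UX (M.image (fun s => s - b))
    have h3 : (M.image (fun s => s - b)).card ≤ M.card := card_image_le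
    have h8 : u + d + 1 ≤ 5 * ((d + 1) * (u + 10 * d + 10)) := by
      nlinarith [Nat.zero_le (d * u), Nat.zero_le (d * d)]
    rw [hB2]
    omega
  obtain ⟨x₀, hx, hxa, hxb⟩ := free hB2c
  have hxb' : x₀ ≠ b := fun h => hx (by
    rw [h]
    exact mem_insert_self _ _)
  have hxU : x₀ ∉ UX := fun h => hx (mem_insert_of_mem (mem_union_left _ h))
  have hxw : ∀ s ∈ M, s - b ≠ x₀ := fun s hsM h => hx (mem_insert_of_mem (mem_union_right _
    (mem_image.2 ⟨s, hsM, h⟩)))
  have hw1 : ∀ s ∈ M, 9 * n ≤ 100 * (s - b) ∧ 100 * (s - b) ≤ 91 * n := by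
    intro s hsM
    have h1 := hM1 s hsM
    have h2 := hbs s hsM
    omega
  have hinj : Set.InjOn (fun s => s - b) (M : Set ℕ) := by
    intro s hsM t htM hst
    have h1 := hbs s hsM
    have h2 := hbs t htM
    dsimp only at hst
    omega
  obtain ⟨P, L, S, hP, hPc, hL, hS, hL1, hS1, hLc, hSc, -, hB⟩ :=
    gadgets hd hs hMd i₀ b x₀ (c i₀ + b) (fun s => s - b) hinj hw1 hwU (by omega) hxU hxw M
      (Subset.refl _)
  have hLd := disjoint_left.1 hL
  have hSd := disjoint_left.1 hS
  have hi₀P : i₀ ∉ P := fun h => (mem_erase.1 (hP h)).1 rfl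
  have hLimg : Disjoint (M.image fun s => s - b) L := disjoint_left.2 fun x hx1 hx2 =>
    hLd hx2 (mem_insert_of_mem (mem_insert_of_mem (mem_union_right _ hx1)))
  have hximg : x₀ ∉ M.image fun s => s - b := by
    rw [mem_image]
    rintro ⟨s, hsM, h⟩
    exact hxw s hsM h
  have hbimg : b ∉ M.image fun s => s - b := by
    rw [mem_image]
    rintro ⟨s, hsM, h⟩
    exact hwb s hsM h
  have hxL : x₀ ∉ L := fun h => hLd h (mem_insert_of_mem (mem_insert_self _ _))
  have hbL : b ∉ L := fun h => hLd h (mem_insert_self _ _)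
  refine ⟨insert i₀ P, insert b (insert x₀ ((M.image fun s => s - b) ∪ L)),
    insert (c i₀ + b) S, ?_, ?_, ?_, ?_, ?_, ?_, ?_, ?_, ?_⟩
  · intro i hi
    rw [mem_insert] at hi
    rcases hi with rfl | hi
    · exact hi₀
    · exact mem_of_mem_erase (hP hi)
  · rw [card_insert_of_notMem hi₀P, hPc]
  · rw [disjoint_left]
    intro x hx1 hx2
    rw [mem_insert, mem_insert, mem_union, mem_image] at hx1
    rcases hx1 with rfl | rfl | ⟨s, hsM, rfl⟩ | hx1
    · exact hbU hx2
    · exact hxU hx2
    · exact hwU s hsM hx2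
    · exact hLd hx1 (mem_insert_of_mem (mem_insert_of_mem (mem_union_left _ hx2)))
  · rw [disjoint_left]
    intro x hx1 hx2
    rw [mem_insert] at hx1
    rcases hx1 with rfl | hx1
    · exact hbS hx2
    · exact hSd hx1 (mem_insert_of_mem hx2)
  · intro x hx1
    rw [mem_insert, mem_insert, mem_union, mem_image] at hx1
    rcases hx1 with rfl | rfl | ⟨s, hsM, rfl⟩ | hx1
    · rw [mem_Icc]
      omega
    · rw [mem_Icc]
      omega
    · have := hw1 s hsM
      rw [mem_Icc]
      omega
    · exact hL1 hx1
  · intro x hx1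
    rw [mem_insert] at hx1
    rcases hx1 with rfl | hx1
    · rw [Win, mem_Icc]
      omega
    · exact hS1 hx1
  · rw [card_insert_of_notMem, card_insert_of_notMem, card_union_of_disjoint hLimg,
      card_image_of_injOn hinj, hLc]
    · ring
    · rw [mem_union]
      rintro (h | h)
      · exact hximg h
      · exact hxL h
    · rw [mem_insert, mem_union]
      rintro (h | h | h)
      · exact hxb' h.symm
      · exact hbimg h
      · exact hbL h
  · rw [card_insert_of_notMem, hSc]
    intro h
    exact hSd h (mem_insert_self _ _)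
  · intro s hsM
    have hsb := hbs s hsM
    have h1 : Abs c {i₀} {b, s - b} {c i₀ + b, s} := by
      refine ⟨fun _ => b, fun _ => s - b, ?_, by simp, by simp, ?_, by simp, by simp, ?_⟩
      · intro i hi
        rw [mem_singleton] at hi
        subst hi
        refine ⟨by simp, by simp, by simp, ?_⟩
        rw [mem_insert, mem_singleton]
        right
        exact Nat.add_sub_cancel' hsb
      · intro i _ j _ h
        exact hwb s hsM h.symm
      · intro i hi j _ h
        rw [mem_singleton] at hi
        subst hi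
        apply hbS
        rw [h]
        have : b + (s - b) = s := by omega
        rw [this]
        exact hM hsM
    refine (h1.union (hB s hsM) ?_ ?_ ?_).mono ?_ ?_
    · rw [disjoint_singleton_left]
      exact hi₀P
    · rw [disjoint_left]
      intro x hx1 hx2
      rw [mem_insert, mem_singleton] at hx1
      rw [mem_union, mem_insert, mem_image] at hx2
      rcases hx1 with rfl | rfl
      · rcases hx2 with h | h | ⟨t, ht, h⟩
        · exact hbL h
        · exact hxb' h.symm
        · exact hwb t (mem_of_mem_erase ht) h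
      · rcases hx2 with h | h | ⟨t, ht, h⟩
        · exact disjoint_left.1 hLimg (mem_image.2 ⟨s, hsM, rfl⟩) h
        · exact hxw s hsM h
        · exact (mem_erase.1 ht).1 (hinj (mem_of_mem_erase ht) hsM h)
    · rw [disjoint_left]
      intro x hx1 hx2
      rw [mem_insert, mem_singleton] at hx1
      rcases hx1 with rfl | rfl
      · exact hSd hx2 (mem_insert_self _ _)
      · exact hSd hx2 (mem_insert_of_mem (hM hsM))
    · intro x hx1
      rw [mem_union, mem_insert, mem_singleton, mem_union, mem_insert, mem_image] at hx1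
      rw [mem_insert, mem_insert, mem_union]
      rcases hx1 with (h | h) | h | h | ⟨t, ht, h⟩
      · exact Or.inl h
      · exact Or.inr (Or.inr (Or.inl (mem_image.2 ⟨s, hsM, h.symm⟩)))
      · exact Or.inr (Or.inr (Or.inr h))
      · exact Or.inr (Or.inl h)
      · exact Or.inr (Or.inr (Or.inl (mem_image.2 ⟨t, mem_of_mem_erase ht, h⟩)))
    · intro x hx1
      rw [mem_union, mem_insert, mem_singleton] at hx1
      rw [mem_insert, mem_insert]
      tauto

end Pool.Agent.SEM
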