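import Pool.Agent.Helper73.SEM.KX

/-!
# SEM-KD: the transition kernel

`Ker n X S Cl t k π`: `X ⊆ [1,n]` are the available labels, `S ⊆ Win n` the available sums, `Cl` the labels (outside `X`, central) of
the separating vertices; `k x y` is the probability that a child of a vertex with label `x` gets the label `y`; `π` is the (unnormalised to
one up to `1 ± t`) stationary law.

`ker_ok`, proof in words: `τ = 1/1000`, `n ≥ n₀`.  `k x y = a(x,y)/A(x)` for `x ∈ X`, with `a(x,y) = hexa n x y` if `x, y ∈ X`,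
`x + y ∈ S`, else `0`; `k c y = 1/|{y ∈ X : c + y ∈ S}|` for `c ∉ X` (if `y ∈ X`, `c + y ∈ S`, else `0`); `π x = A(x)/∑_X A`.
By `hexa_row`, `hexa_le`: `n²/2 - 2n - n·2τn ≤ A(x) ≤ n²/2 + 2n` (at most `τn` labels and `τn` sums are excluded), so
`(1-5τ)n²/2 ≤ A(x) ≤ (1+τ)n²/2`, `(1-τ)(1-5τ)n³/2 ≤ ∑ A ≤ (1+τ)n³/2`; all the bounds follow (`t = 8τ`):
`k x y ≤ n/A(x) ≤ 3/n`; `dia`: `∑_x π x k x (s-x) = ∑ a(x,s-x)/∑A ≤ (n²/2+2n)/∑A`; `lo`: `hexa ≥ |2x-n| - 1 ≥ n/10 - 1`,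
`A(x) ≤ 0.51 n²`; `col`: `∑_{y ∈ X} a(y,x)/A(y) ≥ A(x)/((1+τ)n²/2)`; `colS` from `hexa_dia` minus `2τn·n`; for `c ∈ Cl`
(`|c - n/2| ≤ τ n`) the sum `c + y` is in the window if `τn + 3 ≤ y ≤ n - τn - 3`, so
`n(1-5τ) ≤ |{y ∈ X : c+y ∈ S}| ≤ n`.
-/

set_option autoImplicit false

namespace Pool.Agent.SEM

open Finset

structure Ker (n : ℕ) (X S Cl : Finset ℕ) (t : ℝ) (k : ℕ → ℕ → ℝ) (π : ℕ → ℝ) : Prop where
  X_sub : X ⊆ Icc 1 n
  S_sub : S ⊆ Win n
  X_big : ((Icc 1 n \ X).card : ℝ) ≤ t * n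
  S_big : ((Win n \ S).card : ℝ) ≤ t * n
  Cl_X : ∀ c ∈ Cl, c ∉ X
  Cl_mid : ∀ c ∈ Cl, |(c : ℝ) - n / 2| ≤ t * n
  nn : ∀ x y, 0 ≤ k x y
  supp : ∀ x y, k x y ≠ 0 → y ∈ X ∧ x + y ∈ S
  one : ∀ x ∈ X ∪ Cl, ∑ y ∈ X, k x y = 1
  up : ∀ x y, k x y ≤ 3 / n
  piLo : ∀ x ∈ X, (1 - t) / n ≤ π x
  piUp : ∀ x ∈ X, π x ≤ (1 + t) / n
  rev : ∀ x ∈ X, ∀ y ∈ X, π x * k x y = π y * k y x
  dia : ∀ s, ∑ x ∈ X with x ≤ s, π x * k x (s - x) ≤ (1 + t) / n
  clUp : ∀ c ∈ Cl, ∀ y, k c y ≤ (1 + t) / n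
  clLo : ∀ c ∈ Cl, ∀ y ∈ X, c + y ∈ S → 1 / (n : ℝ) ≤ k c y
  lo : ∀ x ∈ X, ∀ y ∈ X, x + y ∈ S →
    ((n : ℝ) / 10 ≤ |2 * (x : ℝ) - n| ∨ (n : ℝ) / 10 ≤ |2 * (y : ℝ) - n|) → 1 / (20 * n : ℝ) ≤ k x y
  col : ∀ x ∈ X, 4 / 5 ≤ ∑ y ∈ X, k y x
  colS : ∀ s ∈ S, 4 / 5 ≤ ∑ y ∈ X with y ≤ s, k y (s - y)

section h24

private theorem h24_sum_le {P Q : Finset ℕ} {g h : ℕ → ℝ} (hh : ∀ x ∈ Q, 0 ≤ h x)
    (H : ∀ x ∈ P, g x ≠ 0 → x ∈ Q ∧ g x ≤ h x) : ∑ x ∈ P, g x ≤ ∑ x ∈ Q, h x := by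
  classical
  have h1 : ∑ x ∈ P, g x = ∑ x ∈ P.filter (fun x => g x ≠ 0), g x := by
    rw [Finset.sum_filter_ne_zero]
  rw [h1]
  refine (Finset.sum_le_sum fun x hx => ?_).trans
    (Finset.sum_le_sum_of_subset_of_nonneg (f := h) ?_ fun x hx _ => hh x hx)
  · rw [Finset.mem_filter] at hx
    exact (H x hx.1 hx.2).2
  · intro x hx
    rw [Finset.mem_filter] at hx
    exact (H x hx.1 hx.2).1

private theorem h24_sum_ge {P Q E : Finset ℕ} {g h : ℕ → ℝ} {M : ℝ} (hM : 0 ≤ M)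
    (hg : ∀ x ∈ P, 0 ≤ g x) (H : ∀ x ∈ Q, x ∉ E → x ∈ P ∧ h x ≤ g x) (HM : ∀ x ∈ Q, h x ≤ M) :
    ∑ x ∈ Q, h x ≤ ∑ x ∈ P, g x + E.card * M := by
  classical
  rw [← Finset.sum_filter_add_sum_filter_not Q (fun x => x ∉ E)]
  refine add_le_add ?_ ?_
  · refine (Finset.sum_le_sum fun x hx => ?_).trans
      (Finset.sum_le_sum_of_subset_of_nonneg (f := g) ?_ fun x hx _ => hg x hx)
    · rw [Finset.mem_filter] at hx
      exact (H x hx.1 hx.2).2
    · intro x hx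
      rw [Finset.mem_filter] at hx
      exact (H x hx.1 hx.2).1
  · have h1 : (Q.filter (fun x => ¬ x ∉ E)).card ≤ E.card := by
      refine Finset.card_le_card fun x hx => ?_
      rw [Finset.mem_filter] at hx
      exact not_not.1 hx.2
    have h2 : ∑ x ∈ Q.filter (fun x => ¬ x ∉ E), h x ≤
        (Q.filter (fun x => ¬ x ∉ E)).card • M := by
      refine Finset.sum_le_card_nsmul _ _ _ fun x hx => ?_
      rw [Finset.mem_filter] at hx
      exact HM x hx.1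
    rw [nsmul_eq_mul] at h2
    refine h2.trans ?_
    have h3 : ((Q.filter (fun x => ¬ x ∉ E)).card : ℝ) ≤ (E.card : ℝ) := by exact_mod_cast h1
    exact mul_le_mul_of_nonneg_right h3 hM

private theorem h24_hexa_nonneg (n x y : ℕ) : 0 ≤ hexa n x y :=
  (abs_nonneg _).trans (le_max_left _ _)

private theorem h24_hexa_symm (n x y : ℕ) : hexa n x y = hexa n y x := by
  unfold hexa
  rw [max_left_comm, add_comm (x : ℝ) y]

/-- the weights -/
private noncomputable def h24_a (n : ℕ) (X S : Finset ℕ) (x y : ℕ) : ℝ :=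
  if x ∈ X ∧ y ∈ X ∧ x + y ∈ S then hexa n x y else 0

private noncomputable def h24_A (n : ℕ) (X S : Finset ℕ) (x : ℕ) : ℝ := ∑ y ∈ X, h24_a n X S x y

private def h24_N (X S : Finset ℕ) (c : ℕ) : ℕ := (X.filter (fun y => c + y ∈ S)).card

private noncomputable def h24_k (n : ℕ) (X S Cl : Finset ℕ) (x y : ℕ) : ℝ :=
  if x ∈ X then h24_a n X S x y / h24_A n X S x
  else if x ∈ Cl ∧ y ∈ X ∧ x + y ∈ S then 1 / (h24_N X S x : ℝ) else 0

private theorem h24_a_nonneg (n : ℕ) (X S : Finset ℕ) (x y : ℕ) : 0 ≤ h24_a n X S x y := by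
  unfold h24_a
  split_ifs
  · exact h24_hexa_nonneg n x y
  · exact le_rfl

private theorem h24_a_symm (n : ℕ) (X S : Finset ℕ) (x y : ℕ) :
    h24_a n X S x y = h24_a n X S y x := by
  unfold h24_a
  rw [h24_hexa_symm, add_comm x y]
  by_cases h1 : x ∈ X <;> by_cases h2 : y ∈ X <;> simp [h1, h2]

private theorem h24_a_eq {n : ℕ} {X S : Finset ℕ} {x y : ℕ} (hx : x ∈ X) (hy : y ∈ X)
    (hs : x + y ∈ S) : h24_a n X S x y = hexa n x y := if_pos ⟨hx, hy, hs⟩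

private theorem h24_a_ne {n : ℕ} {X S : Finset ℕ} {x y : ℕ} (h : h24_a n X S x y ≠ 0) :
    x ∈ X ∧ y ∈ X ∧ x + y ∈ S := by
  by_contra hc
  exact h (if_neg hc)

variable {n : ℕ} {X S : Finset ℕ} (hX : X ⊆ Icc 1 n) (hS : S ⊆ Win n)
include hX hS

private theorem h24_a_le (x y : ℕ) : h24_a n X S x y ≤ n := by
  unfold h24_a
  split_ifs with h
  · exact hexa_le n x y (hX h.1) (hX h.2.1) (hS h.2.2)
  · exact Nat.cast_nonneg n

private theorem h24_A_up {x : ℕ} (hx : x ∈ X) : h24_A n X S x ≤ (n : ℝ) ^ 2 / 2 + 2 * n := by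
  have h1 : h24_A n X S x ≤ ∑ y ∈ (Icc 1 n).filter (fun y => x + y ∈ Win n), hexa n x y := by
    refine h24_sum_le (fun y _ => h24_hexa_nonneg n x y) fun y hy hne => ?_
    obtain ⟨_, h2, h3⟩ := h24_a_ne hne
    refine ⟨Finset.mem_filter.2 ⟨hX h2, hS h3⟩, ?_⟩
    rw [h24_a_eq hx h2 h3]
  have h2 := (abs_le.1 (hexa_row n x (hX hx))).2
  linarith

private theorem h24_A_lo {m : ℝ} (h1 : ((Icc 1 n \ X).card : ℝ) ≤ m)
    (h2 : ((Win n \ S).card : ℝ) ≤ m) {x : ℕ} (hx : x ∈ X) :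
    (n : ℝ) ^ 2 / 2 - 2 * n - 2 * m * n ≤ h24_A n X S x := by
  classical
  have h3 : ∑ y ∈ (Icc 1 n).filter (fun y => x + y ∈ Win n), hexa n x y ≤
      ∑ y ∈ X, h24_a n X S x y +
        (((Icc 1 n \ X) ∪ (Win n \ S).image (fun s => s - x)).card : ℝ) * n := by
    refine h24_sum_ge (Nat.cast_nonneg n) (fun y _ => h24_a_nonneg n X S x y)
      (fun y hy hE => ?_) fun y hy => ?_
    · rw [Finset.mem_filter] at hy
      rw [Finset.mem_union, not_or] at hE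
      have hyX : y ∈ X := by
        by_contra hc
        exact hE.1 (Finset.mem_sdiff.2 ⟨hy.1, hc⟩)
      have hyS : x + y ∈ S := by
        by_contra hc
        exact hE.2 (Finset.mem_image.2 ⟨x + y, Finset.mem_sdiff.2 ⟨hy.2, hc⟩, by omega⟩)
      exact ⟨hyX, (h24_a_eq hx hyX hyS).ge⟩
    · rw [Finset.mem_filter] at hy
      exact hexa_le n x y (hX hx) hy.1 hy.2
  have h4 : (((Icc 1 n \ X) ∪ (Win n \ S).image (fun s => s - x)).card : ℝ) ≤ 2 * m := by
    have h5 : ((Icc 1 n \ X) ∪ (Win n \ S).image (fun s => s - x)).card ≤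
        (Icc 1 n \ X).card + (Win n \ S).card :=
      (Finset.card_union_le _ _).trans (Nat.add_le_add_left Finset.card_image_le _)
    have h6 : (((Icc 1 n \ X) ∪ (Win n \ S).image (fun s => s - x)).card : ℝ) ≤
        ((Icc 1 n \ X).card : ℝ) + ((Win n \ S).card : ℝ) := by exact_mod_cast h5
    linarith
  have h5 := (abs_le.1 (hexa_row n x (hX hx))).1
  have h6 : (((Icc 1 n \ X) ∪ (Win n \ S).image (fun s => s - x)).card : ℝ) * n ≤ 2 * m * n :=
    mul_le_mul_of_nonneg_right h4 (Nat.cast_nonneg n)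
  unfold h24_A
  linarith

private theorem h24_dia_up {s : ℕ} (hs : s ∈ S) :
    ∑ x ∈ X with x ≤ s, h24_a n X S x (s - x) ≤ (n : ℝ) ^ 2 / 2 + 2 * n := by
  have h1 : ∑ x ∈ X with x ≤ s, h24_a n X S x (s - x) ≤
      ∑ x ∈ (Icc 1 n).filter (fun x => x < s ∧ s - x ∈ Icc 1 n), hexa n x (s - x) := by
    refine h24_sum_le (fun y _ => h24_hexa_nonneg n _ _) fun x hx hne => ?_
    obtain ⟨h1, h2, h3⟩ := h24_a_ne hne
    have h4 := Finset.mem_Icc.1 (hX h2)
    refine ⟨Finset.mem_filter.2 ⟨hX h1, by omega, hX h2⟩, ?_⟩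
    rw [h24_a_eq h1 h2 h3]
  have h2 := (abs_le.1 (hexa_dia n s (hS hs))).2
  linarith

private theorem h24_dia_lo {m : ℝ} (h1 : ((Icc 1 n \ X).card : ℝ) ≤ m) {s : ℕ} (hs : s ∈ S) :
    (n : ℝ) ^ 2 / 2 - 2 * n - 2 * m * n ≤ ∑ x ∈ X with x ≤ s, h24_a n X S x (s - x) := by
  classical
  have h3 : ∑ x ∈ (Icc 1 n).filter (fun x => x < s ∧ s - x ∈ Icc 1 n), hexa n x (s - x) ≤
      ∑ x ∈ X with x ≤ s, h24_a n X S x (s - x) +
        (((Icc 1 n \ X) ∪ (Icc 1 n \ X).image (fun y => s - y)).card : ℝ) * n := by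
    refine h24_sum_ge (Nat.cast_nonneg n) (fun y _ => h24_a_nonneg n X S _ _)
      (fun y hy hE => ?_) fun y hy => ?_
    · rw [Finset.mem_filter] at hy
      rw [Finset.mem_union, not_or] at hE
      have hyX : y ∈ X := by
        by_contra hc
        exact hE.1 (Finset.mem_sdiff.2 ⟨hy.1, hc⟩)
      have hyS : s - y ∈ X := by
        by_contra hc
        exact hE.2 (Finset.mem_image.2 ⟨s - y, Finset.mem_sdiff.2 ⟨hy.2.2, hc⟩, by omega⟩)
      have hys : y + (s - y) = s := by omega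
      exact ⟨Finset.mem_filter.2 ⟨hyX, hy.2.1.le⟩, (h24_a_eq hyX hyS (hys.symm ▸ hs)).ge⟩
    · rw [Finset.mem_filter] at hy
      have hys : y + (s - y) = s := by omega
      exact hexa_le n y (s - y) hy.1 hy.2.2 (by rw [hys]; exact hS hs)
  have h4 : (((Icc 1 n \ X) ∪ (Icc 1 n \ X).image (fun y => s - y)).card : ℝ) ≤ 2 * m := by
    have h5 : ((Icc 1 n \ X) ∪ (Icc 1 n \ X).image (fun y => s - y)).card ≤
        (Icc 1 n \ X).card + (Icc 1 n \ X).card :=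
      (Finset.card_union_le _ _).trans (Nat.add_le_add_left Finset.card_image_le _)
    have h6 : (((Icc 1 n \ X) ∪ (Icc 1 n \ X).image (fun y => s - y)).card : ℝ) ≤
        ((Icc 1 n \ X).card : ℝ) + ((Icc 1 n \ X).card : ℝ) := by exact_mod_cast h5
    linarith
  have h5 := (abs_le.1 (hexa_dia n s (hS hs))).1
  have h6 : (((Icc 1 n \ X) ∪ (Icc 1 n \ X).image (fun y => s - y)).card : ℝ) * n ≤ 2 * m * n :=
    mul_le_mul_of_nonneg_right h4 (Nat.cast_nonneg n)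
  linarith

omit hS in
private theorem h24_N_lo {m : ℝ} (h1 : ((Icc 1 n \ X).card : ℝ) ≤ m)
    (h2 : ((Win n \ S).card : ℝ) ≤ m) {c : ℕ} (hc : |(c : ℝ) - n / 2| ≤ m) :
    (n : ℝ) - 4 * m - 5 ≤ h24_N X S c := by
  classical
  have hm0 : 0 ≤ m := (abs_nonneg _).trans hc
  set M : ℕ := ⌈m⌉₊ with hM
  have hM1 : m ≤ M := Nat.le_ceil m
  have hM2 : (M : ℝ) < m + 1 := Nat.ceil_lt_add_one hm0
  have hc1 := abs_le.1 hc
  have hcM1 : (n : ℝ) ≤ 2 * c + 2 * M := by linarith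
  have hcM2 : 2 * (c : ℝ) ≤ n + 2 * M := by linarith
  have hcM1' : n ≤ 2 * c + 2 * M := by exact_mod_cast hcM1
  have hcM2' : 2 * c ≤ n + 2 * M := by exact_mod_cast hcM2
  have hsub : Icc (M + 3) (n - M - 1) ⊆ X.filter (fun y => c + y ∈ S) ∪
      ((Icc 1 n \ X) ∪ (Win n \ S).image (fun s => s - c)) := by
    intro y hy
    rw [Finset.mem_Icc] at hy
    rw [Finset.mem_union, Finset.mem_union]
    have hW : c + y ∈ Win n := by
      unfold Win
      rw [Finset.mem_Icc]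
      omega
    by_cases hyX : y ∈ X
    · by_cases hyS : c + y ∈ S
      · exact Or.inl (Finset.mem_filter.2 ⟨hyX, hyS⟩)
      · exact Or.inr (Or.inr (Finset.mem_image.2 ⟨c + y, Finset.mem_sdiff.2 ⟨hW, hyS⟩, by omega⟩))
    · exact Or.inr (Or.inl (Finset.mem_sdiff.2 ⟨Finset.mem_Icc.2 (by omega), hyX⟩))
  have hcard := (Finset.card_le_card hsub).trans ((Finset.card_union_le _ _).trans
    (Nat.add_le_add_left ((Finset.card_union_le _ _).trans
      (Nat.add_le_add_left Finset.card_image_le _)) _))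
  rw [Nat.card_Icc] at hcard
  have h3 : n ≤ h24_N X S c + ((Icc 1 n \ X).card + (Win n \ S).card) + 2 * M + 3 := by
    unfold h24_N
    omega
  have h4 : (n : ℝ) ≤ h24_N X S c + (((Icc 1 n \ X).card : ℝ) + ((Win n \ S).card : ℝ)) + 2 * M + 3 := by
    exact_mod_cast h3
  linarith

end h24

theorem ker_ok : ∀ τ : ℝ, 0 < τ → τ ≤ 1 / 1000 → ∃ n0 : ℕ, ∀ (n : ℕ) (X S Cl : Finset ℕ), n0 ≤ n →
    X ⊆ Icc 1 n → S ⊆ Win n → ((Icc 1 n \ X).card : ℝ) ≤ τ * n → ((Win n \ S).card : ℝ) ≤ τ * n →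
    (∀ c ∈ Cl, c ∉ X) → (∀ c ∈ Cl, |(c : ℝ) - n / 2| ≤ τ * n) →
    ∃ (k : ℕ → ℕ → ℝ) (π : ℕ → ℝ), Ker n X S Cl (8 * τ) k π := by
  intro τ hτ0 hτ1
  refine ⟨⌈5 / τ⌉₊, ?_⟩
  intro n X S Cl hn hX hS hXc hSc hClX hClm
  have hnτ : 5 ≤ τ * n := by
    have h1 : 5 / τ ≤ n := (Nat.le_ceil _).trans (by exact_mod_cast hn)
    rw [div_le_iff₀ hτ0] at h1
    linarith
  have hn0 : (5000 : ℝ) ≤ n := by nlinarith
  have hnpos : (0 : ℝ) < n := by linarith
  have hnn : 5 * (n : ℝ) ≤ τ * n ^ 2 := by nlinarith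
  -- bounds for A
  have hAlo : ∀ x ∈ X, (1 - 5 * τ) * ((n : ℝ) ^ 2 / 2) ≤ h24_A n X S x := by
    intro x hx
    have h1 := h24_A_lo hX hS hXc hSc hx
    nlinarith
  have hAup : ∀ x ∈ X, h24_A n X S x ≤ (1 + τ) * ((n : ℝ) ^ 2 / 2) := by
    intro x hx
    have h1 := h24_A_up hX hS hx
    nlinarith
  have h5τ : (0 : ℝ) < 1 - 5 * τ := by linarith
  have hn2 : (0 : ℝ) < (n : ℝ) ^ 2 / 2 := by positivity
  have hApos : ∀ x ∈ X, 0 < h24_A n X S x := fun x hx =>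
    lt_of_lt_of_le (mul_pos h5τ hn2) (hAlo x hx)
  have hdup : ∀ s ∈ S, ∑ x ∈ X with x ≤ s, h24_a n X S x (s - x) ≤ (1 + τ) * ((n : ℝ) ^ 2 / 2) := by
    intro s hs
    have h1 := h24_dia_up hX hS hs
    nlinarith
  have hdlo : ∀ s ∈ S, (1 - 5 * τ) * ((n : ℝ) ^ 2 / 2) ≤
      ∑ x ∈ X with x ≤ s, h24_a n X S x (s - x) := by
    intro s hs
    have h1 := h24_dia_lo hX hS hXc hs
    nlinarith
  have hNlo : ∀ c ∈ Cl, (1 - 5 * τ) * n ≤ h24_N X S c := by
    intro c hc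
    have h1 := h24_N_lo hX hXc hSc (hClm c hc)
    linarith
  have hXle : (X.card : ℝ) ≤ n := by
    have h1 := Finset.card_le_card hX
    rw [Nat.card_Icc] at h1
    have h2 : X.card ≤ n := by omega
    exact_mod_cast h2
  have hXge : (1 - τ) * n ≤ (X.card : ℝ) := by
    have h1 : (Icc 1 n \ X).card + X.card = (Icc 1 n).card := Finset.card_sdiff_add_card_eq_card hX
    rw [Nat.card_Icc] at h1
    have h2 : n ≤ (Icc 1 n \ X).card + X.card := by omega
    have h3 : (n : ℝ) ≤ ((Icc 1 n \ X).card : ℝ) + X.card := by exact_mod_cast h2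
    linarith
  -- the total
  set Tt : ℝ := ∑ z ∈ X, h24_A n X S z with hTt
  have hTlo : (1 - τ) * n * ((1 - 5 * τ) * ((n : ℝ) ^ 2 / 2)) ≤ Tt := by
    have h1 : (X.card : ℝ) * ((1 - 5 * τ) * ((n : ℝ) ^ 2 / 2)) ≤ Tt := by
      have h2 := Finset.card_nsmul_le_sum X (fun z => h24_A n X S z) _ hAlo
      rwa [nsmul_eq_mul] at h2
    exact (mul_le_mul_of_nonneg_right hXge (mul_pos h5τ hn2).le).trans h1
  have hTup : Tt ≤ n * ((1 + τ) * ((n : ℝ) ^ 2 / 2)) := by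
    have h2 := Finset.sum_le_card_nsmul X (fun z => h24_A n X S z) _ hAup
    rw [nsmul_eq_mul] at h2
    refine h2.trans (mul_le_mul_of_nonneg_right hXle ?_)
    positivity
  have hTpos : 0 < Tt := lt_of_lt_of_le (mul_pos (mul_pos (by linarith) hnpos) (mul_pos h5τ hn2)) hTlo
  -- basic comparison: B ≤ (1+τ) n²/2 implies B / Tt ≤ (1 + 8τ)/n
  have hcmp : ∀ B : ℝ, B ≤ (1 + τ) * ((n : ℝ) ^ 2 / 2) → B / Tt ≤ (1 + 8 * τ) / n := by
    intro B hB
    rw [div_le_div_iff₀ hTpos hnpos]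
    have h1 : B * n ≤ (1 + τ) * ((n : ℝ) ^ 2 / 2) * n := mul_le_mul_of_nonneg_right hB hnpos.le
    have h2 : (1 + 8 * τ) * ((1 - τ) * n * ((1 - 5 * τ) * ((n : ℝ) ^ 2 / 2))) ≤ (1 + 8 * τ) * Tt :=
      mul_le_mul_of_nonneg_left hTlo (by linarith)
    have h3 : 1 + τ ≤ (1 + 8 * τ) * ((1 - τ) * (1 - 5 * τ)) := by nlinarith [sq_nonneg τ, mul_pos hτ0 hτ0]
    have h4 : (1 + τ) * ((n : ℝ) ^ 2 / 2 * n) ≤ (1 + 8 * τ) * ((1 - τ) * (1 - 5 * τ)) * ((n : ℝ) ^ 2 / 2 * n) :=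
      mul_le_mul_of_nonneg_right h3 (by positivity)
    linarith
  have hk1 : ∀ x ∈ X, ∀ y, h24_k n X S Cl x y = h24_a n X S x y / h24_A n X S x :=
    fun x hx y => if_pos hx
  have hk2 : ∀ c ∈ Cl, ∀ y, h24_k n X S Cl c y =
      if y ∈ X ∧ c + y ∈ S then 1 / (h24_N X S c : ℝ) else 0 := by
    intro c hc y
    unfold h24_k
    rw [if_neg (hClX c hc)]
    simp [hc]
  have hAnn : ∀ x, 0 ≤ h24_A n X S x := fun x =>
    Finset.sum_nonneg fun y _ => h24_a_nonneg n X S x y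
  have hknn : ∀ x y, 0 ≤ h24_k n X S Cl x y := by
    intro x y
    unfold h24_k
    split_ifs
    · exact div_nonneg (h24_a_nonneg _ _ _ _ _) (hAnn x)
    · positivity
    · exact le_rfl
  have hNpos : ∀ c ∈ Cl, (0 : ℝ) < h24_N X S c := fun c hc =>
    lt_of_lt_of_le (mul_pos h5τ hnpos) (hNlo c hc)
  have hNinv : ∀ c ∈ Cl, 1 / (h24_N X S c : ℝ) ≤ (1 + 8 * τ) / n := by
    intro c hc
    rw [div_le_div_iff₀ (hNpos c hc) hnpos]
    have h1 := hNlo c hc
    have h2 : (1 + 8 * τ) * ((1 - 5 * τ) * n) ≤ (1 + 8 * τ) * h24_N X S c :=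
      mul_le_mul_of_nonneg_left h1 (by linarith)
    have h3 : 1 ≤ (1 + 8 * τ) * (1 - 5 * τ) := by nlinarith
    have h4 : 1 * (n : ℝ) ≤ (1 + 8 * τ) * (1 - 5 * τ) * n := mul_le_mul_of_nonneg_right h3 hnpos.le
    linarith
  have h83 : (1 + 8 * τ) / n ≤ 3 / (n : ℝ) := div_le_div_of_nonneg_right (by linarith) hnpos.le
  refine ⟨h24_k n X S Cl, fun x => h24_A n X S x / Tt, ?_⟩
  refine
    { X_sub := hX
      S_sub := hS
      X_big := ?_
      S_big := ?_
      Cl_X := hClX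
      Cl_mid := ?_
      nn := hknn
      supp := ?_
      one := ?_
      up := ?_
      piLo := ?_
      piUp := ?_
      rev := ?_
      dia := ?_
      clUp := ?_
      clLo := ?_
      lo := ?_
      col := ?_
      colS := ?_ }
  · nlinarith
  · nlinarith
  · intro c hc
    have := hClm c hc
    nlinarith
  · -- supp
    intro x y hne
    by_cases hx : x ∈ X
    · rw [hk1 x hx] at hne
      have h1 : h24_a n X S x y ≠ 0 := fun h => hne (by rw [h, zero_div])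
      exact (h24_a_ne h1).2
    · unfold h24_k at hne
      rw [if_neg hx] at hne
      by_contra hc
      exact hne (if_neg fun h => hc h.2)
  · -- one
    intro x hx
    by_cases hxX : x ∈ X
    · rw [Finset.sum_congr rfl fun y _ => hk1 x hxX y, ← Finset.sum_div]
      exact div_self (hApos x hxX).ne'
    · have hxc : x ∈ Cl := by
        rcases Finset.mem_union.1 hx with h | h
        · exact absurd h hxX
        · exact h
      rw [Finset.sum_congr rfl fun y _ => hk2 x hxc y]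
      have h1 : ∀ y ∈ X, (if y ∈ X ∧ x + y ∈ S then 1 / (h24_N X S x : ℝ) else 0) =
          if x + y ∈ S then 1 / (h24_N X S x : ℝ) else 0 := by
        intro y hy
        simp [hy]
      rw [Finset.sum_congr rfl h1, ← Finset.sum_filter, Finset.sum_const, nsmul_eq_mul]
      exact mul_one_div_cancel (hNpos x hxc).ne'
  · -- up
    intro x y
    by_cases hx : x ∈ X
    · rw [hk1 x hx, div_le_div_iff₀ (hApos x hx) hnpos]
      have h1 := hAlo x hx
      have h2 := h24_a_le hX hS x y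
      have h3 : h24_a n X S x y * n ≤ n * n := mul_le_mul_of_nonneg_right h2 hnpos.le
      nlinarith
    · by_cases hc : x ∈ Cl
      · rw [hk2 x hc]
        split_ifs
        · exact (hNinv x hc).trans h83
        · positivity
      · have : h24_k n X S Cl x y = 0 := by
          unfold h24_k
          rw [if_neg hx, if_neg fun h => hc h.1]
        rw [this]
        positivity
  · -- piLo
    intro x hx
    rw [div_le_div_iff₀ hnpos hTpos]
    have h1 := hAlo x hx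
    have h2 : (1 - 8 * τ) * Tt ≤ (1 - 8 * τ) * (n * ((1 + τ) * ((n : ℝ) ^ 2 / 2))) :=
      mul_le_mul_of_nonneg_left hTup (by linarith)
    have h3 : (1 - 8 * τ) * (1 + τ) ≤ 1 - 5 * τ := by nlinarith
    have h4 : (1 - 8 * τ) * (1 + τ) * ((n : ℝ) ^ 2 / 2 * n) ≤ (1 - 5 * τ) * ((n : ℝ) ^ 2 / 2 * n) :=
      mul_le_mul_of_nonneg_right h3 (by positivity)
    have h5 : (1 - 5 * τ) * ((n : ℝ) ^ 2 / 2) * n ≤ h24_A n X S x * n :=
      mul_le_mul_of_nonneg_right h1 hnpos.le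
    linarith
  · -- piUp
    intro x hx
    exact hcmp _ (hAup x hx)
  · -- rev
    intro x hx y hy
    rw [hk1 x hx, hk1 y hy, h24_a_symm n X S y x]
    have h1 := (hApos x hx).ne'
    have h2 := (hApos y hy).ne'
    have h3 := hTpos.ne'
    field_simp
  · -- dia
    intro s
    by_cases hs : s ∈ S
    · have h1 : ∑ x ∈ X with x ≤ s, h24_A n X S x / Tt * h24_k n X S Cl x (s - x) =
          (∑ x ∈ X with x ≤ s, h24_a n X S x (s - x)) / Tt := by
        rw [Finset.sum_div]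
        refine Finset.sum_congr rfl fun x hx => ?_
        rw [Finset.mem_filter] at hx
        rw [hk1 x hx.1]
        have h1 := (hApos x hx.1).ne'
        have h3 := hTpos.ne'
        field_simp
      rw [h1]
      exact hcmp _ (hdup s hs)
    · have h1 : ∑ x ∈ X with x ≤ s, h24_A n X S x / Tt * h24_k n X S Cl x (s - x) = 0 := by
        refine Finset.sum_eq_zero fun x hx => ?_
        rw [Finset.mem_filter] at hx
        rw [hk1 x hx.1]
        have h2 : h24_a n X S x (s - x) = 0 := by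
          by_contra hne
          have h3 := (h24_a_ne hne).2.2
          rw [Nat.add_sub_cancel' hx.2] at h3
          exact hs h3
        rw [h2, zero_div, mul_zero]
      rw [h1]
      positivity
  · -- clUp
    intro c hc y
    rw [hk2 c hc]
    split_ifs
    · exact hNinv c hc
    · positivity
  · -- clLo
    intro c hc y hy hcy
    rw [hk2 c hc, if_pos ⟨hy, hcy⟩]
    refine one_div_le_one_div_of_le (hNpos c hc) ?_
    have h1 : h24_N X S c ≤ X.card := Finset.card_filter_le _ _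
    have h2 : (h24_N X S c : ℝ) ≤ X.card := by exact_mod_cast h1
    linarith
  · -- lo
    intro x hx y hy hxy hor
    rw [hk1 x hx, h24_a_eq hx hy hxy, div_le_div_iff₀ (by positivity) (hApos x hx)]
    have h1 : (n : ℝ) / 10 - 1 ≤ hexa n x y := by
      rcases hor with h | h
      · have h2 : |2 * (x : ℝ) - n| ≤ |2 * (x : ℝ) - (n + 1)| + 1 := by
          have h3 := abs_add_le (2 * (x : ℝ) - (n + 1)) 1
          rw [abs_one] at h3
          have h4 : 2 * (x : ℝ) - (n + 1) + 1 = 2 * x - n := by ring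
          rw [h4] at h3
          exact h3
        have h5 : |2 * (x : ℝ) - (n + 1)| ≤ hexa n x y := le_max_left _ _
        linarith
      · have h2 : |2 * (y : ℝ) - n| ≤ |2 * (y : ℝ) - (n + 1)| + 1 := by
          have h3 := abs_add_le (2 * (y : ℝ) - (n + 1)) 1
          rw [abs_one] at h3
          have h4 : 2 * (y : ℝ) - (n + 1) + 1 = 2 * y - n := by ring
          rw [h4] at h3
          exact h3
        have h5 : |2 * (y : ℝ) - (n + 1)| ≤ hexa n x y :=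
          (le_max_left _ _).trans (le_max_right _ _)
        linarith
    have h2 := hAup x hx
    nlinarith
  · -- col
    intro x hx
    have h1 : ∀ y ∈ X, h24_a n X S x y / ((1 + τ) * ((n : ℝ) ^ 2 / 2)) ≤ h24_k n X S Cl y x := by
      intro y hy
      rw [hk1 y hy, h24_a_symm n X S y x]
      exact div_le_div_of_nonneg_left (h24_a_nonneg _ _ _ _ _) (hApos y hy) (hAup y hy)
    refine le_trans ?_ (Finset.sum_le_sum h1)
    rw [← Finset.sum_div]
    rw [le_div_iff₀ (by positivity)]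
    have h2 := hAlo x hx
    unfold h24_A at h2
    nlinarith
  · -- colS
    intro s hs
    have h1 : ∀ y ∈ X.filter (fun y => y ≤ s), h24_a n X S y (s - y) / ((1 + τ) * ((n : ℝ) ^ 2 / 2)) ≤
        h24_k n X S Cl y (s - y) := by
      intro y hy
      rw [Finset.mem_filter] at hy
      rw [hk1 y hy.1]
      exact div_le_div_of_nonneg_left (h24_a_nonneg _ _ _ _ _) (hApos y hy.1) (hAup y hy.1)
    refine le_trans ?_ (Finset.sum_le_sum h1)
    rw [← Finset.sum_div]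
    rw [le_div_iff₀ (by positivity)]
    have h2 := hdlo s hs
    nlinarith

end Pool.Agent.SEM
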