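import Pool.Agent.Helper73.SEM.LPD
import Pool.Agent.Helper73.SEM.DG

/-!
# SEM-LP1: Poincare inequality for the sums, one attachment label `c`

Proof in words.  `good y z := y + z ∈ S`, `I1 = {y ∈ X : c+y ∈ S, y ≤ 0.75 n}`, `I2 = {y ∈ X : c+y ∈ S, y ≥ 0.25 n}`,
`H1 = {z ∈ X : c+z ∈ S, 0.6 n ≤ z ≤ 0.7 n}`, `H2 = {z ∈ X : c+z ∈ S, 0.3 n ≤ z ≤ 0.4 n}`, `f y = g (c+y)`.
`|H1|, |H2| ≥ 0.1 n - 1 - 2 t n ≥ 0.09 n` (the sums `c + z` are in the window); for `y ∈ I1`, `z ∈ H1` the sum `y + z` is in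
the window, so at most `t n ≤ |H1|/4` of the `z` are bad; same for `I2, H2`.  For good pairs with `z ∈ H1 ∪ H2`:
`|2z - n| ≥ n/10`, so `k y z, k z y ≥ 1/(20 n)` (`Ker.lo`), and `k c y, k c z ≥ κ/n`, so the min is `≥ κ/(20 n²)`.
Apply `dg2`: `≤ (4000/n) * 2 * (20 n²/κ) * (sum)`.
-/

set_option autoImplicit false

namespace Pool.Agent.SEM

open Finset

private theorem win7 {n s : ℕ} (h1 : (n : ℝ) + 4 ≤ 2 * s) (h2 : 2 * (s : ℝ) + 1 ≤ 3 * n) :
    s ∈ Win n := by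
  have h3 : n + 4 ≤ 2 * s := by exact_mod_cast h1
  have h4 : 2 * s + 1 ≤ 3 * n := by exact_mod_cast h2
  unfold Win
  rw [mem_Icc]
  omega

open Classical in
private noncomputable def HB7 (n c : ℕ) (X S : Finset ℕ) (α β : ℝ) : Finset ℕ :=
  X.filter fun z => c + z ∈ S ∧ α * n ≤ z ∧ (z : ℝ) ≤ β * n

private theorem mem_HB7 {n c : ℕ} {X S : Finset ℕ} {α β : ℝ} {z : ℕ} :
    z ∈ HB7 n c X S α β ↔ z ∈ X ∧ c + z ∈ S ∧ α * n ≤ z ∧ (z : ℝ) ≤ β * n := by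
  unfold HB7
  rw [mem_filter]

private theorem hub7 {n : ℕ} {X S Cl : Finset ℕ} {t : ℝ} {k : ℕ → ℕ → ℝ} {π : ℕ → ℝ}
    (hk : Ker n X S Cl t k π) (hn : 1000 ≤ n) (c : ℕ) (α β : ℝ)
    (hα : 1 / 100 ≤ α) (hβ : β ≤ 1)
    (hw : ∀ z : ℕ, α * n ≤ z → (z : ℝ) ≤ β * n → c + z ∈ Win n) :
    (β - α) * n - 1 - 2 * (t * n) ≤ (HB7 n c X S α β).card := by
  classical
  have hn' : (1000 : ℝ) ≤ n := by exact_mod_cast hn
  set Z : Finset ℕ := Icc ⌈α * n⌉₊ ⌊β * n⌋₊ with hZ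
  have hZm : ∀ z ∈ Z, α * n ≤ z ∧ (z : ℝ) ≤ β * n := by
    intro z hz
    rw [hZ, mem_Icc] at hz
    refine ⟨Nat.ceil_le.1 hz.1, ?_⟩
    by_cases hb : 0 ≤ β * n
    · exact (Nat.le_floor_iff hb).1 hz.2
    · push Not at hb
      have h0 : ⌊β * n⌋₊ = 0 := Nat.floor_of_nonpos hb.le
      have h1 : 1 ≤ ⌈α * n⌉₊ := Nat.one_le_ceil_iff.2 (by nlinarith)
      omega
  have hcard : (β - α) * n - 1 ≤ Z.card := by
    rw [hZ, Nat.card_Icc]
    have h1 : β * n < ⌊β * n⌋₊ + 1 := Nat.lt_floor_add_one _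
    have h2 : (⌈α * n⌉₊ : ℝ) < α * n + 1 := Nat.ceil_lt_add_one (by positivity)
    have h3 : ((⌊β * n⌋₊ + 1 : ℕ) : ℝ) - ⌈α * n⌉₊ ≤ ((⌊β * n⌋₊ + 1 - ⌈α * n⌉₊ : ℕ) : ℝ) := by
      rw [sub_le_iff_le_add]
      have : ⌊β * n⌋₊ + 1 ≤ (⌊β * n⌋₊ + 1 - ⌈α * n⌉₊) + ⌈α * n⌉₊ := by omega
      exact_mod_cast this
    push_cast at h3 ⊢
    nlinarith
  have hsub : Z ⊆ HB7 n c X S α β ∪ ((Icc 1 n \ X) ∪ Z.filter fun z => c + z ∈ Win n \ S) := by
    intro z hz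
    obtain ⟨h1, h2⟩ := hZm z hz
    rw [mem_union, mem_union]
    by_cases hx : z ∈ X
    · by_cases hs : c + z ∈ S
      · exact Or.inl (mem_HB7.2 ⟨hx, hs, h1, h2⟩)
      · refine Or.inr (Or.inr ?_)
        rw [mem_filter, mem_sdiff]
        exact ⟨hz, hw z h1 h2, hs⟩
    · refine Or.inr (Or.inl ?_)
      rw [mem_sdiff, mem_Icc]
      refine ⟨⟨?_, ?_⟩, hx⟩
      · have : (0:ℝ) < z := by nlinarith
        have : 0 < z := by exact_mod_cast this
        omega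
      · have : (z : ℝ) ≤ n := by nlinarith
        exact_mod_cast this
  have hle : (Z.filter fun z => c + z ∈ Win n \ S).card ≤ (Win n \ S).card := by
    refine card_le_card_of_injOn (fun z => c + z) (fun z hz => ?_) (fun a _ b _ hab => ?_)
    · exact (mem_filter.1 (mem_coe.1 hz)).2
    · have : c + a = c + b := hab
      omega
  have hfin : Z.card ≤ (HB7 n c X S α β).card + ((Icc 1 n \ X).card + (Win n \ S).card) := by
    refine (card_le_card hsub).trans ((card_union_le _ _).trans ?_)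
    refine Nat.add_le_add_left ((card_union_le _ _).trans ?_) _
    exact Nat.add_le_add_left hle _
  have hfin' : (Z.card : ℝ) ≤ (HB7 n c X S α β).card + ((Icc 1 n \ X).card + (Win n \ S).card) := by
    exact_mod_cast hfin
  have h1 := hk.X_big
  have h2 := hk.S_big
  linarith

open Classical in
private theorem bad7 {n : ℕ} {X S Cl : Finset ℕ} {t : ℝ} {k : ℕ → ℕ → ℝ} {π : ℕ → ℝ}
    (hk : Ker n X S Cl t k π) (ht : t ≤ 1 / 1000) (y : ℕ) (H : Finset ℕ)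
    (hH : (9 / 100 : ℝ) * n ≤ H.card) (hw : ∀ z ∈ H, y + z ∈ Win n) :
    4 * (H.filter fun z => ¬ (y + z ∈ S)).card ≤ H.card := by
  have hle : (H.filter fun z => ¬ (y + z ∈ S)).card ≤ (Win n \ S).card := by
    refine card_le_card_of_injOn (fun z => y + z) (fun z hz => ?_) (fun a _ b _ hab => ?_)
    · have h1 := mem_filter.1 (mem_coe.1 hz)
      exact mem_coe.2 (mem_sdiff.2 ⟨hw z h1.1, h1.2⟩)
    · have : y + a = y + b := hab
      omega
  have hle' : ((H.filter fun z => ¬ (y + z ∈ S)).card : ℝ) ≤ (Win n \ S).card := by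
    exact_mod_cast hle
  have h1 := hk.S_big
  have h2 : t * n ≤ 1 / 1000 * n := by gcongr
  have h3 : (0:ℝ) ≤ n := Nat.cast_nonneg n
  have : (4:ℝ) * (H.filter fun z => ¬ (y + z ∈ S)).card ≤ H.card := by linarith
  exact_mod_cast this

theorem g_poinc {n : ℕ} {X S Cl : Finset ℕ} {t : ℝ} {k : ℕ → ℕ → ℝ} {π : ℕ → ℝ}
    (hk : Ker n X S Cl t k π) (ht0 : 0 < t) (ht : t ≤ 1 / 1000) (hn : 1000 ≤ n) (c : ℕ)
    (hc1 : 37 / 100 * (n : ℝ) ≤ c) (hc2 : (c : ℝ) ≤ 63 / 100 * n) (κ : ℝ) (hκ0 : 0 < κ)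
    (hκ1 : κ ≤ 1) (hκ : ∀ y ∈ X, c + y ∈ S → κ / n ≤ k c y) (g : ℕ → ℝ) :
    ∃ z0 ∈ X, c + z0 ∈ S ∧
      ∑ y ∈ X with c + y ∈ S, |g (c + y) - g (c + z0)| ≤
        200000 * n / κ *
          ∑ y ∈ X, ∑ z ∈ X, min (k c y * k y z) (k c z * k z y) * |g (c + y) - g (c + z)| := by
  classical
  have hn' : (1000 : ℝ) ≤ n := by exact_mod_cast hn
  have hn0 : (0 : ℝ) < n := by linarith
  have htn : t * n ≤ 1 / 1000 * n := by gcongr
  set I1 : Finset ℕ := X.filter fun y => c + y ∈ S ∧ (y : ℝ) ≤ 75 / 100 * n with hI1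
  set I2 : Finset ℕ := X.filter fun y => c + y ∈ S ∧ 25 / 100 * (n : ℝ) ≤ y with hI2
  set H1 : Finset ℕ := HB7 n c X S (6 / 10) (7 / 10) with hH1
  set H2 : Finset ℕ := HB7 n c X S (3 / 10) (4 / 10) with hH2
  have hX : ∀ y ∈ X, (1:ℝ) ≤ y ∧ (y:ℝ) ≤ n := by
    intro y hy
    have := mem_Icc.1 (hk.X_sub hy)
    exact ⟨by exact_mod_cast this.1, by exact_mod_cast this.2⟩
  have hXc : X.card ≤ n := by
    have := card_le_card hk.X_sub
    rwa [Nat.card_Icc, Nat.add_sub_cancel] at this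
  have h11 : H1 ⊆ I1 := by
    intro z hz
    obtain ⟨a, b, c1, d⟩ := mem_HB7.1 hz
    exact mem_filter.2 ⟨a, b, by linarith⟩
  have h12 : H1 ⊆ I2 := by
    intro z hz
    obtain ⟨a, b, c1, d⟩ := mem_HB7.1 hz
    exact mem_filter.2 ⟨a, b, by linarith⟩
  have h22 : H2 ⊆ I2 := by
    intro z hz
    obtain ⟨a, b, c1, d⟩ := mem_HB7.1 hz
    exact mem_filter.2 ⟨a, b, by linarith⟩
  have hc1' : I1.card ≤ n := (card_filter_le _ _).trans hXc
  have hc2' : I2.card ≤ n := (card_filter_le _ _).trans hXc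
  have hH1c : (9 / 100 : ℝ) * n ≤ H1.card := by
    have h := hub7 hk hn c (6 / 10) (7 / 10) (by norm_num) (by norm_num) (fun z h1 h2 => by
      refine win7 ?_ ?_ <;> push_cast <;> linarith)
    rw [← hH1] at h
    linarith
  have hH2c : (9 / 100 : ℝ) * n ≤ H2.card := by
    have h := hub7 hk hn c (3 / 10) (4 / 10) (by norm_num) (by norm_num) (fun z h1 h2 => by
      refine win7 ?_ ?_ <;> push_cast <;> linarith)
    rw [← hH2] at h
    linarith
  have hb1 : ∀ i ∈ I1, 4 * (H1.filter fun z => ¬ (i + z ∈ S)).card ≤ H1.card := by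
    intro i hi
    obtain ⟨a, b, c1⟩ := mem_filter.1 hi
    have hx := hX i a
    refine bad7 hk ht i H1 hH1c fun z hz => ?_
    obtain ⟨a', b', c', d'⟩ := mem_HB7.1 hz
    refine win7 ?_ ?_ <;> push_cast <;> linarith
  have hb2 : ∀ i ∈ I2, 4 * (H2.filter fun z => ¬ (i + z ∈ S)).card ≤ H2.card := by
    intro i hi
    obtain ⟨a, b, c1⟩ := mem_filter.1 hi
    have hx := hX i a
    refine bad7 hk ht i H2 hH2c fun z hz => ?_
    obtain ⟨a', b', c', d'⟩ := mem_HB7.1 hz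
    refine win7 ?_ ?_ <;> push_cast <;> linarith
  obtain ⟨z0, hz0, hle⟩ := dg2 n (by omega) I1 I2 H1 H2 h11 h12 h22 hc1' hc2' hH1c hH2c
    (fun y => g (c + y)) (fun i j => i + j ∈ S) (fun i j h => by rwa [add_comm])
    (fun i hi => by convert hb1 i hi) (fun i hi => by convert hb2 i hi)
  obtain ⟨hz0X, hz0S, -, -⟩ := mem_HB7.1 hz0
  refine ⟨z0, hz0X, hz0S, ?_⟩
  -- the union
  have hU : (X.filter fun y => c + y ∈ S) ⊆ I1 ∪ I2 := by
    intro y hy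
    obtain ⟨a, b⟩ := mem_filter.1 hy
    rw [mem_union]
    by_cases h : (y : ℝ) ≤ 75 / 100 * n
    · exact Or.inl (mem_filter.2 ⟨a, b, h⟩)
    · push Not at h
      exact Or.inr (mem_filter.2 ⟨a, b, by linarith⟩)
  set D : ℝ := ∑ y ∈ X, ∑ z ∈ X, min (k c y * k y z) (k c z * k z y) * |g (c + y) - g (c + z)|
    with hD
  have hmin0 : ∀ y z, 0 ≤ min (k c y * k y z) (k c z * k z y) * |g (c + y) - g (c + z)| :=
    fun y z => mul_nonneg (le_min (mul_nonneg (hk.nn _ _) (hk.nn _ _))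
      (mul_nonneg (hk.nn _ _) (hk.nn _ _))) (abs_nonneg _)
  have hD0 : 0 ≤ D := sum_nonneg fun y _ => sum_nonneg fun z _ => hmin0 y z
  -- lower bound for the min
  have hmin : ∀ y ∈ X, c + y ∈ S → ∀ z ∈ X, c + z ∈ S → y + z ∈ S →
      (n : ℝ) / 10 ≤ |2 * (z : ℝ) - n| →
      |g (c + y) - g (c + z)| ≤ 20 * n ^ 2 / κ *
        (min (k c y * k y z) (k c z * k z y) * |g (c + y) - g (c + z)|) := by
    intro y hy hcy z hz hcz hyz hl
    have a1 := hκ y hy hcy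
    have a2 := hκ z hz hcz
    have a3 := hk.lo y hy z hz hyz (Or.inr hl)
    have a4 := hk.lo z hz y hy (by rwa [add_comm]) (Or.inl hl)
    have a5 : κ / n * (1 / (20 * n)) ≤ min (k c y * k y z) (k c z * k z y) := by
      refine le_min ?_ ?_
      · exact mul_le_mul a1 a3 (by positivity) (hk.nn _ _)
      · exact mul_le_mul a2 a4 (by positivity) (hk.nn _ _)
    have a6 : (1:ℝ) ≤ 20 * n ^ 2 / κ * min (k c y * k y z) (k c z * k z y) := by
      calc (1:ℝ) = 20 * n ^ 2 / κ * (κ / n * (1 / (20 * n))) := by field_simp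
        _ ≤ _ := by gcongr
    calc |g (c + y) - g (c + z)| = 1 * |g (c + y) - g (c + z)| := (one_mul _).symm
      _ ≤ (20 * n ^ 2 / κ * min (k c y * k y z) (k c z * k z y)) * |g (c + y) - g (c + z)| := by
          gcongr
      _ = _ := by ring
  have hsum : ∀ (I H : Finset ℕ), (∀ y ∈ I, y ∈ X ∧ c + y ∈ S) →
      (∀ z ∈ H, z ∈ X ∧ c + z ∈ S ∧ (n : ℝ) / 10 ≤ |2 * (z : ℝ) - n|) →
      ∑ z ∈ H, ∑ i ∈ I.filter (fun i => i + z ∈ S), |g (c + i) - g (c + z)| ≤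
        20 * n ^ 2 / κ * D := by
    intro I H hI hH
    calc ∑ z ∈ H, ∑ i ∈ I.filter (fun i => i + z ∈ S), |g (c + i) - g (c + z)|
        ≤ ∑ z ∈ H, ∑ i ∈ I.filter (fun i => i + z ∈ S), 20 * n ^ 2 / κ *
        (min (k c i * k i z) (k c z * k z i) * |g (c + i) - g (c + z)|) := by
          refine sum_le_sum fun z hz => sum_le_sum fun i hi => ?_
          obtain ⟨b1, b2⟩ := mem_filter.1 hi
          obtain ⟨b3, b4⟩ := hI i b1
          obtain ⟨b5, b6, b7⟩ := hH z hz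
          exact hmin i b3 b4 z b5 b6 b2 b7
      _ ≤ ∑ z ∈ X, ∑ i ∈ X, 20 * n ^ 2 / κ *
        (min (k c i * k i z) (k c z * k z i) * |g (c + i) - g (c + z)|) := by
          refine (sum_le_sum fun z _ => sum_le_sum_of_subset_of_nonneg (t := X)
            (fun i hi => (hI i (mem_filter.1 hi).1).1)
            fun i _ _ => mul_nonneg (by positivity) (hmin0 _ _)).trans ?_
          exact sum_le_sum_of_subset_of_nonneg (fun z hz => (hH z hz).1)
            fun z _ _ => sum_nonneg fun i _ => mul_nonneg (by positivity) (hmin0 _ _)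
      _ = 20 * n ^ 2 / κ * D := by
          rw [hD, sum_comm, mul_sum]
          refine sum_congr rfl fun y _ => ?_
          rw [mul_sum]
  have s1 := hsum I1 H1 (fun y hy => ⟨(mem_filter.1 hy).1, (mem_filter.1 hy).2.1⟩)
    (fun z hz => by
      obtain ⟨a, b, c1, d⟩ := mem_HB7.1 hz
      refine ⟨a, b, ?_⟩
      rw [le_abs]
      left
      linarith)
  have s2 := hsum I2 H2 (fun y hy => ⟨(mem_filter.1 hy).1, (mem_filter.1 hy).2.1⟩)
    (fun z hz => by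
      obtain ⟨a, b, c1, d⟩ := mem_HB7.1 hz
      refine ⟨a, b, ?_⟩
      rw [le_abs]
      right
      linarith)
  calc ∑ y ∈ X with c + y ∈ S, |g (c + y) - g (c + z0)|
      ≤ ∑ y ∈ I1 ∪ I2, |g (c + y) - g (c + z0)| :=
        sum_le_sum_of_subset_of_nonneg hU fun _ _ _ => abs_nonneg _
    _ ≤ 4000 / n * ((∑ z ∈ H1, ∑ i ∈ I1.filter (fun i => i + z ∈ S), |g (c + i) - g (c + z)|) +
         (∑ z ∈ H2, ∑ i ∈ I2.filter (fun i => i + z ∈ S), |g (c + i) - g (c + z)|)) := by convert hle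
    _ ≤ 4000 / n * (20 * n ^ 2 / κ * D + 20 * n ^ 2 / κ * D) := by gcongr
    _ = 160000 * n / κ * D := by field_simp; ring
    _ ≤ 200000 * n / κ * D := by
        gcongr
        norm_num

end Pool.Agent.SEM
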