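import Pool.Agent.Helper73.SEM.LP1

/-!
# SEM-LP2: Poincare inequality for the sums

Proof in words.  `D1 = ∑_c m c * Sc(c)`, `Sc(c) = ∑_{y,z} min(k c y k y z, k c z k z y)|g(c+y)-g(c+z)|`
(as `min (m a) (m b) = m min a b`).
CASE R: `∑_{Cl} m ≥ e n/2`.  There is `c ∈ Cl` with `Sc(c) ≤ D1/∑_{Cl} m ≤ 2 D1/(e n)`; `g_poinc` with `κ = 1` (`Ker.clLo`; `c` is central)
gives `G = g(c+z0) ≥ 0` and `∑_{y ∈ X, c+y ∈ S} |g(c+y) - G| ≤ 400000 D1/e`; `Sc = {s ∈ S : s = c + y, y ∈ X}`; the other `s ∈ S` have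
`s - c ∉ [1,n]` (at most `t n + 3`) or `s - c ∉ X` (at most `t n`).
CASE P: `M = ∑_X m ≥ e n/2`.  For `J1 = {c ∈ X : 0.38 n ≤ c ≤ 0.42 n}`: `∑_{X \ J1} m ≤ (1+t)² M (n - |J1|)/n` and
`|J1| ≥ 0.038 n`, so `∑_{J1} m ≥ 0.03 M`; hence some `c1 ∈ J1` has `Sc(c1) ≤ D1/(0.03 M) ≤ 70 D1/(e n)`; `g_poinc` with `κ = 1/20`
(`Ker.lo`, `|2c-n| ≥ n/10`) gives `G1` with `E1 := ∑_{y} |g(c1+y) - G1| ≤ 2.8e8 D1/e`; same for `J2 = [0.58 n, 0.62 n]`: `c2, G2, E2`.
The `s ∈ S` with `s - c1 ∈ X` and `s - c2 ∈ X` number at least `0.7 n`, so `|G1 - G2| ≤ (E1+E2)/(0.7 n)`.  `Sc` = all `s ∈ S` with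
`s - c1 ∈ X` or `s - c2 ∈ X` (every `s` in the window has `s - c1` or `s - c2` in `[1,n]`); `G = G1`:
`∑_{Sc} |g - G1| ≤ E1 + E2 + n |G1-G2| ≤ 3 (E1+E2)`.
-/

set_option autoImplicit false

namespace Pool.Agent.SEM

open Finset

/-- the local Dirichlet form at `c` -/
private noncomputable def sc43 (X : Finset ℕ) (k : ℕ → ℕ → ℝ) (g : ℕ → ℝ) (c : ℕ) : ℝ :=
  ∑ y ∈ X, ∑ z ∈ X, min (k c y * k y z) (k c z * k z y) * |g (c + y) - g (c + z)|

private theorem sc43_nonneg (X : Finset ℕ) (k : ℕ → ℕ → ℝ) (g : ℕ → ℝ) (c : ℕ)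
    (hk : ∀ x y, 0 ≤ k x y) : 0 ≤ sc43 X k g c :=
  Finset.sum_nonneg fun _ _ => Finset.sum_nonneg fun _ _ =>
    mul_nonneg (le_min (mul_nonneg (hk _ _) (hk _ _)) (mul_nonneg (hk _ _) (hk _ _)))
      (abs_nonneg _)

private theorem D1_eq43 (X CC : Finset ℕ) (k : ℕ → ℕ → ℝ) (m g : ℕ → ℝ) (hm : ∀ c, 0 ≤ m c) :
    D1 X CC k m g = ∑ c ∈ CC, m c * sc43 X k g c := by
  unfold D1 sc43 q0
  refine Finset.sum_congr rfl fun c _ => ?_
  rw [Finset.mul_sum]
  refine Finset.sum_congr rfl fun y _ => ?_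
  rw [Finset.mul_sum]
  refine Finset.sum_congr rfl fun z _ => ?_
  rw [← mul_assoc, mul_min_of_nonneg _ _ (hm c), mul_assoc, mul_assoc]

private theorem avg43 (X CC J : Finset ℕ) (k : ℕ → ℕ → ℝ) (m g : ℕ → ℝ) (hm : ∀ c, 0 ≤ m c)
    (hk : ∀ x y, 0 ≤ k x y) (hJ : J ⊆ CC) (hpos : 0 < ∑ c ∈ J, m c) :
    ∃ c ∈ J, sc43 X k g c * ∑ c ∈ J, m c ≤ D1 X CC k m g := by
  have hne : J.Nonempty := by
    rw [Finset.nonempty_iff_ne_empty]
    rintro rfl
    simp at hpos
  obtain ⟨c, hc, hmin⟩ := Finset.exists_min_image J (sc43 X k g) hne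
  refine ⟨c, hc, ?_⟩
  rw [D1_eq43 X CC k m g hm, Finset.mul_sum]
  calc ∑ i ∈ J, sc43 X k g c * m i ≤ ∑ i ∈ J, m i * sc43 X k g i := by
        refine Finset.sum_le_sum fun i hi => ?_
        rw [mul_comm]
        exact mul_le_mul_of_nonneg_left (hmin i hi) (hm i)
    _ ≤ _ := Finset.sum_le_sum_of_subset_of_nonneg hJ fun i _ _ =>
        mul_nonneg (hm i) (sc43_nonneg X k g i hk)

/-- the sums reached from `c` -/
private def T43 (X S : Finset ℕ) (c : ℕ) : Finset ℕ := (X.filter fun y => c + y ∈ S).image (c + ·)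

private theorem mem_T43 {X S : Finset ℕ} {c s : ℕ} : s ∈ T43 X S c ↔ s ∈ S ∧ c ≤ s ∧ s - c ∈ X := by
  unfold T43
  rw [Finset.mem_image]
  constructor
  · rintro ⟨y, hy, rfl⟩
    rw [Finset.mem_filter] at hy
    refine ⟨hy.2, by omega, ?_⟩
    have : c + y - c = y := by omega
    rw [this]
    exact hy.1
  · rintro ⟨h1, h2, h3⟩
    refine ⟨s - c, ?_, by omega⟩
    rw [Finset.mem_filter]
    refine ⟨h3, ?_⟩
    have : c + (s - c) = s := by omega
    rw [this]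
    exact h1

private theorem sum_T43 (X S : Finset ℕ) (c : ℕ) (h : ℕ → ℝ) :
    ∑ s ∈ T43 X S c, h s = ∑ y ∈ X with c + y ∈ S, h (c + y) := by
  unfold T43
  rw [Finset.sum_image]
  intro a _ b _ hab
  exact Nat.add_left_cancel hab

private theorem card_T43 {n : ℕ} {X S : Finset ℕ} {c : ℕ} (hX : X ⊆ Icc 1 n) :
    ((T43 X S c).card : ℝ) ≤ n := by
  have h1 : (T43 X S c).card ≤ n := by
    refine Finset.card_image_le.trans ?_
    refine (Finset.card_filter_le _ _).trans ?_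
    refine (Finset.card_le_card hX).trans ?_
    simp
  exact_mod_cast h1

private theorem cnt43 {n : ℕ} {X : Finset ℕ} {t α β : ℝ} (hX : ((Icc 1 n \ X).card : ℝ) ≤ t * n)
    (h1 : 1 ≤ α) (h2 : β ≤ n) :
    β - α - 1 - t * n ≤ ((X.filter fun c : ℕ => α ≤ c ∧ (c : ℝ) ≤ β).card : ℝ) := by
  rcases lt_or_ge β 0 with hβ | hβ
  · have h3 : (0 : ℝ) ≤ t * n := le_trans (Nat.cast_nonneg _) hX
    have h4 : (0 : ℝ) ≤ ((X.filter fun c : ℕ => α ≤ c ∧ (c : ℝ) ≤ β).card : ℝ) := Nat.cast_nonneg _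
    linarith
  have hsub : Icc ⌈α⌉₊ ⌊β⌋₊ ⊆ (X.filter fun c : ℕ => α ≤ c ∧ (c : ℝ) ≤ β) ∪ (Icc 1 n \ X) := by
    intro c hc
    rw [Finset.mem_Icc] at hc
    have e1 : α ≤ c := Nat.ceil_le.mp hc.1
    have e2 : (c : ℝ) ≤ β := (Nat.le_floor_iff hβ).mp hc.2
    rw [Finset.mem_union, Finset.mem_filter, Finset.mem_sdiff, Finset.mem_Icc]
    by_cases h : c ∈ X
    · exact Or.inl ⟨h, e1, e2⟩
    · refine Or.inr ⟨⟨?_, ?_⟩, h⟩
      · have : (1 : ℝ) ≤ c := h1.trans e1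
        exact_mod_cast this
      · have : (c : ℝ) ≤ n := e2.trans h2
        exact_mod_cast this
  have h3 := (Finset.card_le_card hsub).trans (Finset.card_union_le _ _)
  rw [Nat.card_Icc] at h3
  have h4 : (⌊β⌋₊ : ℝ) + 1 - ⌈α⌉₊ ≤ ((⌊β⌋₊ + 1 - ⌈α⌉₊ : ℕ) : ℝ) := by
    have : (⌊β⌋₊ + 1 : ℕ) ≤ (⌊β⌋₊ + 1 - ⌈α⌉₊) + ⌈α⌉₊ := by omega
    have h5 : ((⌊β⌋₊ + 1 : ℕ) : ℝ) ≤ (((⌊β⌋₊ + 1 - ⌈α⌉₊) + ⌈α⌉₊ : ℕ) : ℝ) := by exact_mod_cast this
    push_cast at h5
    linarith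
  have h5 : ((⌊β⌋₊ + 1 - ⌈α⌉₊ : ℕ) : ℝ) ≤
      ((X.filter fun c : ℕ => α ≤ c ∧ (c : ℝ) ≤ β).card : ℝ) + ((Icc 1 n \ X).card : ℝ) := by
    exact_mod_cast h3
  have h6 := Nat.lt_floor_add_one β
  have h7 := Nat.ceil_lt_add_one (by linarith : (0 : ℝ) ≤ α)
  linarith

private theorem half43 (n : ℕ) : ((n / 2 : ℕ) : ℝ) ≤ n / 2 ∧ (n : ℝ) / 2 - 1 / 2 ≤ ((n / 2 : ℕ) : ℝ) := by
  have h1 : n = 2 * (n / 2) + n % 2 := (Nat.div_add_mod n 2).symm
  have h2 : n % 2 < 2 := Nat.mod_lt _ (by norm_num)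
  have h3 : (n : ℝ) = 2 * ((n / 2 : ℕ) : ℝ) + ((n % 2 : ℕ) : ℝ) := by exact_mod_cast h1
  have h4 : ((n % 2 : ℕ) : ℝ) ≤ 1 := by
    have : n % 2 ≤ 1 := by omega
    exact_mod_cast this
  have h5 : (0 : ℝ) ≤ ((n % 2 : ℕ) : ℝ) := Nat.cast_nonneg _
  constructor <;> linarith

private theorem img43 {n : ℕ} {X : Finset ℕ} {t : ℝ} (hX : ((Icc 1 n \ X).card : ℝ) ≤ t * n)
    (c : ℕ) : (((Icc 1 n \ X).image (c + ·)).card : ℝ) ≤ t * n := by
  refine le_trans ?_ hX
  exact_mod_cast Finset.card_image_le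

/-- One attachment label. -/
private theorem one43 {n : ℕ} {X S Cl : Finset ℕ} {t : ℝ} {k : ℕ → ℕ → ℝ} {π : ℕ → ℝ}
    (hk : Ker n X S Cl t k π) (ht0 : 0 < t) (ht : t ≤ 1 / 1000) (hn : 1000 ≤ n) (c : ℕ)
    (hc1 : 37 / 100 * (n : ℝ) ≤ c) (hc2 : (c : ℝ) ≤ 63 / 100 * n) (κ : ℝ) (hκ0 : 0 < κ)
    (hκ1 : κ ≤ 1) (hκ : ∀ y ∈ X, c + y ∈ S → κ / n ≤ k c y) (g : ℕ → ℝ) (hg : ∀ s, 0 ≤ g s) :
    ∃ G : ℝ, 0 ≤ G ∧ ∑ s ∈ T43 X S c, |g s - G| ≤ 200000 * n / κ * sc43 X k g c := by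
  obtain ⟨z0, -, -, h⟩ := g_poinc hk ht0 ht hn c hc1 hc2 κ hκ0 hκ1 hκ g
  refine ⟨g (c + z0), hg _, ?_⟩
  rw [sum_T43]
  exact h

/-- The window `[α n, (α + 0.04) n]` carries a good part of the mass. -/
private theorem mass43 {n : ℕ} {X S Cl : Finset ℕ} {e t : ℝ} {k : ℕ → ℕ → ℝ} {π m : ℕ → ℝ}
    (hk : Ker n X S Cl t k π) (hM : Mass n X Cl e t π m) (ht0 : 0 < t) (ht : t ≤ 1 / 1000)
    (hn : 1000 ≤ n) (α : ℝ) (hα : 1 / 100 ≤ α) (hα2 : α ≤ 9 / 10) :
    3 / 100 * ∑ c ∈ X, m c ≤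
      ∑ c ∈ X with (α * n ≤ (c : ℕ) ∧ ((c : ℕ) : ℝ) ≤ (α + 4 / 100) * n), m c := by
  have hn' : (1000 : ℝ) ≤ n := by exact_mod_cast hn
  have hn0 : (0 : ℝ) < n := by linarith
  set J := X.filter fun c : ℕ => α * n ≤ (c : ℝ) ∧ (c : ℝ) ≤ (α + 4 / 100) * n with hJ
  have hcard : 38 / 1000 * (n : ℝ) ≤ (J.card : ℝ) := by
    have h1 := cnt43 (X := X) (α := α * n) (β := (α + 4 / 100) * n) hk.X_big (by nlinarith)
      (by nlinarith)
    have h2 : t * n ≤ 1 / 1000 * n := mul_le_mul_of_nonneg_right ht hn0.le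
    have h3 : (α + 4 / 100) * (n : ℝ) - α * n = 4 / 100 * n := by ring
    rw [← hJ, h3] at h1
    linarith
  have hXc : (X.card : ℝ) ≤ n := by
    have := Finset.card_le_card hk.X_sub
    rw [Nat.card_Icc] at this
    have h2 : X.card ≤ n := by omega
    exact_mod_cast h2
  set M := ∑ c ∈ X, m c with hMdef
  have hM0 : 0 ≤ M := Finset.sum_nonneg fun c _ => hM.nn c
  have hsplit : ∑ c ∈ J, m c + ∑ c ∈ X \ J, m c = M := by
    rw [add_comm]
    exact Finset.sum_sdiff (Finset.filter_subset _ _)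
  have hbound : ∑ c ∈ X \ J, m c ≤ (1 + t) * M * ((1 + t) / n) * ((X \ J).card : ℝ) := by
    have h1 : ∀ c ∈ X \ J, m c ≤ (1 + t) * M * ((1 + t) / n) := by
      intro c hc
      have hcX := (Finset.mem_sdiff.mp hc).1
      refine (hM.spread c hcX).trans ?_
      apply mul_le_mul_of_nonneg_left (hk.piUp c hcX)
      have : 0 ≤ 1 + t := by linarith
      positivity
    have h2 := Finset.sum_le_sum h1
    rw [Finset.sum_const, nsmul_eq_mul] at h2
    linarith
  have hcard2 : ((X \ J).card : ℝ) ≤ (1 - 38 / 1000) * n := by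
    have h1 : ((X \ J).card : ℝ) + (J.card : ℝ) = X.card := by
      exact_mod_cast Finset.card_sdiff_add_card_eq_card (Finset.filter_subset _ _)
    linarith
  have h3 : (1 + t) * M * ((1 + t) / n) * ((X \ J).card : ℝ) ≤ 97 / 100 * M := by
    have h4 : (1 + t) * M * ((1 + t) / n) * ((X \ J).card : ℝ) ≤
        (1 + t) * M * ((1 + t) / n) * ((1 - 38 / 1000) * n) := by
      apply mul_le_mul_of_nonneg_left hcard2
      have : 0 ≤ 1 + t := by linarith
      positivity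
    have h5 : (1 + t) * M * ((1 + t) / n) * ((1 - 38 / 1000) * n) =
        (1 + t) ^ 2 * (1 - 38 / 1000) * M := by
      field_simp
    rw [h5] at h4
    refine h4.trans ?_
    apply mul_le_mul_of_nonneg_right _ hM0
    nlinarith
  linarith

theorem g_main : ∃ C : ℝ, 0 < C ∧ ∀ {n : ℕ} {X S Cl : Finset ℕ} {e t : ℝ} {k : ℕ → ℕ → ℝ}
    {π m : ℕ → ℝ}, Ker n X S Cl t k π → Mass n X Cl e t π m → 0 < e → 0 < t → t ≤ 1 / 1000 →
    1000 ≤ n → ∀ g : ℕ → ℝ, (∀ s, 0 ≤ g s) →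
    ∃ (G : ℝ) (Sc : Finset ℕ), 0 ≤ G ∧ Sc ⊆ S ∧ ((S \ Sc).card : ℝ) ≤ 3 * t * n + 10 ∧
      ∑ s ∈ Sc, |g s - G| ≤ C / e * D1 X (X ∪ Cl) k m g := by
  refine ⟨2000000000, by norm_num, ?_⟩
  intro n X S Cl e t k π m hk hM he ht0 ht hn g hg
  have hn' : (1000 : ℝ) ≤ n := by exact_mod_cast hn
  have hn0 : (0 : ℝ) < n := by linarith
  obtain ⟨hh1, hh2⟩ := half43 n
  have htn : 0 ≤ t * n := by positivity
  have htn2 : t * n ≤ n / 1000 := by nlinarith
  have hD0 : 0 ≤ D1 X (X ∪ Cl) k m g := by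
    rw [D1_eq43 _ _ _ _ _ hM.nn]
    exact Finset.sum_nonneg fun c _ => mul_nonneg (hM.nn c) (sc43_nonneg X k g c hk.nn)
  have hdisj : Disjoint X Cl := by
    rw [Finset.disjoint_left]
    intro c hc hc'
    exact hk.Cl_X c hc' hc
  have hlo := hM.lo
  rw [Finset.sum_union hdisj] at hlo
  have hSmem : ∀ s ∈ S, n / 2 + 2 ≤ s ∧ s ≤ n / 2 + n := by
    intro s hs
    exact Finset.mem_Icc.mp (hk.S_sub hs)
  by_cases hcase : e * n / 2 ≤ ∑ c ∈ Cl, m c
  · -- case R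
    have hen : 0 < e * n / 2 := by positivity
    obtain ⟨c, hc, hcD⟩ := avg43 X (X ∪ Cl) Cl k m g hM.nn hk.nn Finset.subset_union_right
      (lt_of_lt_of_le hen hcase)
    have hmid := hk.Cl_mid c hc
    rw [abs_le] at hmid
    obtain ⟨G, hG0, hG⟩ := one43 hk ht0 ht hn c (by linarith) (by linarith) 1 one_pos le_rfl
      (fun y hy hcy => hk.clLo c hc y hy hcy) g hg
    refine ⟨G, T43 X S c, hG0, fun s hs => (mem_T43.mp hs).1, ?_, ?_⟩
    · have hsub : S \ T43 X S c ⊆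
          (Icc (n / 2 + 2) c ∪ Icc (n + c + 1) (n / 2 + n)) ∪ (Icc 1 n \ X).image (c + ·) := by
        intro s hs
        rw [Finset.mem_sdiff, mem_T43] at hs
        obtain ⟨hs1, hs2⟩ := hs
        have hw := hSmem s hs1
        rw [Finset.mem_union, Finset.mem_union, Finset.mem_Icc, Finset.mem_Icc, Finset.mem_image]
        by_cases h1 : s ≤ c
        · exact Or.inl (Or.inl ⟨hw.1, h1⟩)
        by_cases h2 : n + c + 1 ≤ s
        · exact Or.inl (Or.inr ⟨h2, hw.2⟩)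
        refine Or.inr ⟨s - c, ?_, by omega⟩
        rw [Finset.mem_sdiff, Finset.mem_Icc]
        refine ⟨⟨by omega, by omega⟩, fun h3 => hs2 ⟨hs1, by omega, h3⟩⟩
      have h1 := ((Finset.card_le_card hsub).trans (Finset.card_union_le _ _)).trans
        (Nat.add_le_add_right (Finset.card_union_le _ _) _)
      rw [Nat.card_Icc, Nat.card_Icc] at h1
      have h2 : ((S \ T43 X S c).card : ℝ) ≤ ((c + 1 - (n / 2 + 2) : ℕ) : ℝ) +
          ((n / 2 + n + 1 - (n + c + 1) : ℕ) : ℝ) + (((Icc 1 n \ X).image (c + ·)).card : ℝ) := by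
        exact_mod_cast h1
      have h3 := img43 hk.X_big c
      have h4 : ((c + 1 - (n / 2 + 2) : ℕ) : ℝ) ≤ t * n := by
        rcases le_total (c + 1) (n / 2 + 2) with h | h
        · rw [Nat.sub_eq_zero_of_le h, Nat.cast_zero]
          exact htn
        · rw [Nat.cast_sub h]
          push_cast
          linarith
      have h5 : ((n / 2 + n + 1 - (n + c + 1) : ℕ) : ℝ) ≤ t * n := by
        rcases le_total (n / 2 + n + 1) (n + c + 1) with h | h
        · rw [Nat.sub_eq_zero_of_le h, Nat.cast_zero]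
          exact htn
        · rw [Nat.cast_sub h]
          push_cast
          linarith
      linarith
    · refine hG.trans ?_
      have h1 : sc43 X k g c * (e * n / 2) ≤ D1 X (X ∪ Cl) k m g :=
        (mul_le_mul_of_nonneg_left hcase (sc43_nonneg X k g c hk.nn)).trans hcD
      have h2 : 200000 * (n : ℝ) / 1 * sc43 X k g c =
          400000 / e * (sc43 X k g c * (e * n / 2)) := by
        field_simp
        ring
      rw [h2]
      calc 400000 / e * (sc43 X k g c * (e * n / 2)) ≤ 400000 / e * D1 X (X ∪ Cl) k m g := by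
            apply mul_le_mul_of_nonneg_left h1
            positivity
        _ ≤ _ := by
            apply mul_le_mul_of_nonneg_right _ hD0
            apply div_le_div_of_nonneg_right _ he.le
            norm_num
  · -- case P
    push Not at hcase
    have hMX : e * n / 2 ≤ ∑ c ∈ X, m c := by linarith
    have hen : 0 < e * n / 2 := by positivity
    have hside : ∀ α : ℝ, 38 / 100 ≤ α → α ≤ 58 / 100 → (α ≤ 38 / 100 ∨ 58 / 100 ≤ α) →
        ∃ c ∈ X, α * n ≤ (c : ℝ) ∧ (c : ℝ) ≤ (α + 4 / 100) * n ∧ ∃ G : ℝ, 0 ≤ G ∧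
          ∑ s ∈ T43 X S c, |g s - G| ≤ 280000000 / e * D1 X (X ∪ Cl) k m g := by
      intro α h1 h2 h3
      have hmass := mass43 hk hM ht0 ht hn α (by linarith) (by linarith)
      set J := X.filter fun c : ℕ => α * n ≤ (c : ℝ) ∧ (c : ℝ) ≤ (α + 4 / 100) * n with hJ
      have hJpos : 3 / 100 * (e * n / 2) ≤ ∑ c ∈ J, m c := by linarith
      obtain ⟨c, hc, hcD⟩ := avg43 X (X ∪ Cl) J k m g hM.nn hk.nn
        ((Finset.filter_subset _ _).trans Finset.subset_union_left)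
        (lt_of_lt_of_le (by positivity) hJpos)
      rw [hJ, Finset.mem_filter] at hc
      obtain ⟨hcX, hc1, hc2⟩ := hc
      have hab : (n : ℝ) / 10 ≤ |2 * (c : ℝ) - n| := by
        rcases h3 with h3 | h3
        · rw [abs_sub_comm]
          refine le_trans ?_ (le_abs_self _)
          nlinarith
        · refine le_trans ?_ (le_abs_self _)
          nlinarith
      obtain ⟨G, hG0, hG⟩ := one43 hk ht0 ht hn c (by nlinarith) (by nlinarith) (1 / 20)
        (by norm_num) (by norm_num) (fun y hy hcy => by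
          have := hk.lo c hcX y hy hcy (Or.inl hab)
          have e1 : (1 / 20 : ℝ) / n = 1 / (20 * n) := by field_simp
          rw [e1]
          exact this) g hg
      refine ⟨c, hcX, hc1, hc2, G, hG0, hG.trans ?_⟩
      have h4 : sc43 X k g c * (3 / 100 * (e * n / 2)) ≤ D1 X (X ∪ Cl) k m g :=
        (mul_le_mul_of_nonneg_left hJpos (sc43_nonneg X k g c hk.nn)).trans hcD
      have h5 : 200000 * (n : ℝ) / (1 / 20) * sc43 X k g c =
          (800000000 / 3) / e * (sc43 X k g c * (3 / 100 * (e * n / 2))) := by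
        field_simp
        ring
      rw [h5]
      calc (800000000 / 3) / e * (sc43 X k g c * (3 / 100 * (e * n / 2)))
          ≤ (800000000 / 3) / e * D1 X (X ∪ Cl) k m g := by
            apply mul_le_mul_of_nonneg_left h4
            positivity
        _ ≤ _ := by
            apply mul_le_mul_of_nonneg_right _ hD0
            apply div_le_div_of_nonneg_right _ he.le
            norm_num
    obtain ⟨c1, hc1X, hc1a, hc1b, G1, hG1, hE1⟩ :=
      hside (38 / 100) le_rfl (by norm_num) (Or.inl le_rfl)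
    obtain ⟨c2, hc2X, hc2a, hc2b, G2, hG2, hE2⟩ :=
      hside (58 / 100) (by norm_num) le_rfl (Or.inr le_rfl)
    set E := 280000000 / e * D1 X (X ∪ Cl) k m g with hE
    have hE0 : 0 ≤ E := by positivity
    -- natural number inequalities
    have k1 : c1 < n / 2 := by
      have : (c1 : ℝ) < ((n / 2 : ℕ) : ℝ) := by linarith
      exact_mod_cast this
    have k2 : n / 2 + 1 ≤ c2 := by
      have : ((n / 2 : ℕ) : ℝ) + 1 ≤ (c2 : ℝ) := by linarith
      exact_mod_cast this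
    have k3 : c2 ≤ n := by
      have : (c2 : ℝ) ≤ n := by linarith
      exact_mod_cast this
    -- common sums
    set T := T43 X S c1 ∩ T43 X S c2 with hT
    have hTcard : 7 / 10 * (n : ℝ) ≤ (T.card : ℝ) := by
      have hsub : Icc (c2 + 1) (c1 + n) ⊆
          (T ∪ (Win n \ S)) ∪ ((Icc 1 n \ X).image (c1 + ·) ∪ (Icc 1 n \ X).image (c2 + ·)) := by
        intro s hs
        rw [Finset.mem_Icc] at hs
        rw [Finset.mem_union, Finset.mem_union, Finset.mem_union, hT, Finset.mem_inter, mem_T43,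
          mem_T43, Finset.mem_sdiff, Finset.mem_image, Finset.mem_image]
        by_cases h1 : s ∈ S
        · by_cases h2 : s - c1 ∈ X
          · by_cases h3 : s - c2 ∈ X
            · exact Or.inl (Or.inl ⟨⟨h1, by omega, h2⟩, ⟨h1, by omega, h3⟩⟩)
            · refine Or.inr (Or.inr ⟨s - c2, ?_, by omega⟩)
              rw [Finset.mem_sdiff, Finset.mem_Icc]
              exact ⟨⟨by omega, by omega⟩, h3⟩
          · refine Or.inr (Or.inl ⟨s - c1, ?_, by omega⟩)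
            rw [Finset.mem_sdiff, Finset.mem_Icc]
            exact ⟨⟨by omega, by omega⟩, h2⟩
        · refine Or.inl (Or.inr ⟨?_, h1⟩)
          unfold Win
          rw [Finset.mem_Icc]
          constructor <;> omega
      have h1 := (Finset.card_le_card hsub).trans (Finset.card_union_le _ _)
      have h2 := h1.trans (Nat.add_le_add (Finset.card_union_le _ _) (Finset.card_union_le _ _))
      rw [Nat.card_Icc] at h2
      have h3 : ((c1 + n + 1 - (c2 + 1) : ℕ) : ℝ) ≤ (T.card : ℝ) + ((Win n \ S).card : ℝ) +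
          ((((Icc 1 n \ X).image (c1 + ·)).card : ℝ) + (((Icc 1 n \ X).image (c2 + ·)).card : ℝ)) := by
        exact_mod_cast h2
      have h4 := img43 hk.X_big c1
      have h5 := img43 hk.X_big c2
      have h6 := hk.S_big
      have h7 : ((c1 + n + 1 - (c2 + 1) : ℕ) : ℝ) = (c1 : ℝ) + n - c2 := by
        rw [Nat.cast_sub (by omega)]
        push_cast
        ring
      rw [h7] at h3
      linarith
    have hGG : (T.card : ℝ) * |G1 - G2| ≤ E + E := by
      have h1 : ∑ s ∈ T, |G1 - G2| ≤ ∑ s ∈ T, (|g s - G1| + |g s - G2|) := by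
        refine Finset.sum_le_sum fun s _ => ?_
        have e1 : G1 - G2 = (g s - G2) - (g s - G1) := by ring
        rw [e1]
        exact (abs_sub _ _).trans (le_of_eq (add_comm _ _))
      rw [Finset.sum_const, nsmul_eq_mul, Finset.sum_add_distrib] at h1
      refine h1.trans (add_le_add ?_ ?_)
      · refine le_trans ?_ hE1
        exact Finset.sum_le_sum_of_subset_of_nonneg Finset.inter_subset_left
          fun _ _ _ => abs_nonneg _
      · refine le_trans ?_ hE2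
        exact Finset.sum_le_sum_of_subset_of_nonneg Finset.inter_subset_right
          fun _ _ _ => abs_nonneg _
    have hnG : (n : ℝ) * |G1 - G2| ≤ 3 * E := by
      have h1 : 7 / 10 * (n : ℝ) * |G1 - G2| ≤ E + E :=
        (mul_le_mul_of_nonneg_right hTcard (abs_nonneg _)).trans hGG
      nlinarith [abs_nonneg (G1 - G2)]
    refine ⟨G1, T43 X S c1 ∪ T43 X S c2, hG1, ?_, ?_, ?_⟩
    · intro s hs
      rw [Finset.mem_union, mem_T43, mem_T43] at hs
      rcases hs with hs | hs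
      · exact hs.1
      · exact hs.1
    · have hsub : S \ (T43 X S c1 ∪ T43 X S c2) ⊆
          (Icc 1 n \ X).image (c1 + ·) ∪ (Icc 1 n \ X).image (c2 + ·) := by
        intro s hs
        rw [Finset.mem_sdiff, Finset.mem_union, mem_T43, mem_T43] at hs
        obtain ⟨hs1, hs2⟩ := hs
        push Not at hs2
        have hw := hSmem s hs1
        rw [Finset.mem_union, Finset.mem_image, Finset.mem_image]
        by_cases h1 : s ≤ c1 + n
        · refine Or.inl ⟨s - c1, ?_, by omega⟩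
          rw [Finset.mem_sdiff, Finset.mem_Icc]
          exact ⟨⟨by omega, by omega⟩, hs2.1 hs1 (by omega)⟩
        · refine Or.inr ⟨s - c2, ?_, by omega⟩
          rw [Finset.mem_sdiff, Finset.mem_Icc]
          exact ⟨⟨by omega, by omega⟩, hs2.2 hs1 (by omega)⟩
      have h1 := (Finset.card_le_card hsub).trans (Finset.card_union_le _ _)
      have h2 : ((S \ (T43 X S c1 ∪ T43 X S c2)).card : ℝ) ≤
          (((Icc 1 n \ X).image (c1 + ·)).card : ℝ) + (((Icc 1 n \ X).image (c2 + ·)).card : ℝ) := by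
        exact_mod_cast h1
      have h4 := img43 hk.X_big c1
      have h5 := img43 hk.X_big c2
      linarith
    · have h1 : ∑ s ∈ T43 X S c1 ∪ T43 X S c2, |g s - G1| ≤
          ∑ s ∈ T43 X S c1, |g s - G1| + ∑ s ∈ T43 X S c2, |g s - G1| := by
        rw [← Finset.sum_union_inter]
        have : 0 ≤ ∑ s ∈ T43 X S c1 ∩ T43 X S c2, |g s - G1| :=
          Finset.sum_nonneg fun _ _ => abs_nonneg _
        linarith
      have h2 : ∑ s ∈ T43 X S c2, |g s - G1| ≤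
          ∑ s ∈ T43 X S c2, (|g s - G2| + |G1 - G2|) := by
        refine Finset.sum_le_sum fun s _ => ?_
        have e1 : g s - G1 = (g s - G2) - (G1 - G2) := by ring
        rw [e1]
        exact abs_sub _ _
      rw [Finset.sum_add_distrib, Finset.sum_const, nsmul_eq_mul] at h2
      have h3 : ((T43 X S c2).card : ℝ) * |G1 - G2| ≤ n * |G1 - G2| :=
        mul_le_mul_of_nonneg_right (card_T43 hk.X_sub) (abs_nonneg _)
      have h4 : 2000000000 / e * D1 X (X ∪ Cl) k m g = 50 / 7 * E := by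
        rw [hE]
        ring
      rw [h4]
      linarith

end Pool.Agent.SEM
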