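import Pool.Agent.Helper73.SEM.LP2

/-!
# SEM-LP3: the full Poincare inequality

Proof in words.  `N = ∑ m ≥ e n`, `QY y = ∑_c m c k c y`.
(a) `QY y ≤ (1+t)² N/n` for `y ∈ X`: for `c ∈ X`, `∑_{c ∈ X} m c k c y ≤ (1+t) M_X ∑_c π c k c y = (1+t) M_X π y ∑_c k y c = (1+t) M_X π y` (`rev`, `one`),
for `c ∈ Cl` use `clUp`.  `∑_y QY y = N` (`one`).  So `yg = {y ∈ X : N/(2n) ≤ QY y}` has `|X \ yg| ≤ 6 t n`
(put it in a lemma `yg_big`).
(b) `D2 ≥ ∑_{y ∈ yg} (N/2n) ∑_{z,z'} k y z k y z' |F y z - F y z'|`, `F y z = b z + g(y+z)`; with `T = ∑_{y ∈ yg, z, z'}` of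
`k y z k y z' |F y z - F y z'|` we get `T ≤ 2 D2/e`.
(c) labels: `I1 = {z ∈ X : z ≤ 0.75 n}`, `H1 = {z ∈ X : 0.6 n ≤ z ≤ 0.7 n}`.  For `z ∈ I1`, `z' ∈ H1` there are at least `0.05 n` elements
`y ∈ yg ∩ [0.6 n, 0.7 n]` with `y+z, y+z' ∈ S` (all these sums are in the window); for them `k y z, k y z' ≥ 1/(20 n)` and
`|b z - b z'| ≤ |F y z - F y z'| + |g(y+z) - G| + |g(y+z') - G|`.  Average over `y` and sum:
`∑_{z ∈ I1, z' ∈ H1} |b z - b z'| ≤ (20/n) (400 n² T + 2 * 0.2 n * n * Ds)`, `Ds = ∑_{s ∈ S} |g s - G|` (for fixed `z'` each sum `s = y+z`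
is hit at most `0.2 n` times).  Same for `I2 = {z ≥ 0.25 n}`, `H2 = [0.3n, 0.4n]` with `y ∈ [0.3 n, 0.4 n]`.  `dg2` with `good = True`
gives `B = b(z0)` with `Dl = ∑_X |b - B| ≤ C (T + Ds)`.
(d) the sums `s ∈ S \ Sc` (`|S \ Sc| ≤ 3tn+10 ≤ 4 t n`... `LP2`): for `s ≥ 0.7 n` take `y ∈ yg ∩ [0.6n, 0.7n]` with `s - y ∈ X` (at least `0.05 n`;
if `s - y` is outside `[1,n]` choose the part of the interval where it is inside: for `0.7 n ≤ s ≤ 1.5 n` all `y ∈ [0.6 n, min(0.7 n, s-1)]`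
with `s - y ≤ n` work) and `z' ∈ H1` with `y + z' ∈ S`:
`|g s - G| ≤ |F y (s-y) - F y z'| + |b(s-y) - B| + |b z' - B| + |g(y+z') - G|`; average and sum over `s ∈ S \ Sc`:
`≤ C T + C (|S \ Sc|/n)(Dl + Ds)`; for `s < 0.7 n` use `y ∈ [0.3 n, 0.4 n]`, `z' ∈ H2`.
(e) `Ds ≤ (C/e) D1 + C T + C t' (Dl + Ds)`, `Dl ≤ C (T + Ds)`; for `t ≤ t0` small and `n` large (`n0 ≤ t n`) absorb.
(Here `hnt : 10 ≤ t * n` makes `3 t n + 10 ≤ 4 t n`.)
-/

set_option autoImplicit false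

namespace Pool.Agent.SEM

open Finset

/-- load of the label `y` by the middle vertices of the flexible paths -/
noncomputable def QY (CC : Finset ℕ) (k : ℕ → ℕ → ℝ) (m : ℕ → ℝ) (y : ℕ) : ℝ :=
  ∑ c ∈ CC, m c * k c y

theorem QY_le {n : ℕ} {X S Cl : Finset ℕ} {e t : ℝ} {k : ℕ → ℕ → ℝ} {π m : ℕ → ℝ}
    (hk : Ker n X S Cl t k π) (hm : Mass n X Cl e t π m) (ht0 : 0 < t) (ht : t ≤ 1 / 1000)
    (hn : 1000 ≤ n) : ∀ y ∈ X, QY (X ∪ Cl) k m y ≤ (1 + 3 * t) * (∑ c ∈ X ∪ Cl, m c) / n := by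
  intro y hy
  have hn0 : (0 : ℝ) < n := by
    have : (1000 : ℝ) ≤ n := by exact_mod_cast hn
    linarith
  have hdis : Disjoint X Cl := Finset.disjoint_left.mpr (fun c hc hc' => hk.Cl_X c hc' hc)
  have hMX : 0 ≤ ∑ c ∈ X, m c := Finset.sum_nonneg fun c _ => hm.nn c
  have hMC : 0 ≤ ∑ c ∈ Cl, m c := Finset.sum_nonneg fun c _ => hm.nn c
  unfold QY
  rw [Finset.sum_union hdis, Finset.sum_union hdis]
  have h1 : ∑ c ∈ X, m c * k c y ≤ (1 + 3 * t) * (∑ c ∈ X, m c) / n := by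
    calc ∑ c ∈ X, m c * k c y
        ≤ ∑ c ∈ X, ((1 + t) * (∑ c' ∈ X, m c')) * (π y * k y c) := by
          apply Finset.sum_le_sum
          intro c hc
          have h3 := hm.spread c hc
          have h2 := hk.rev c hc y hy
          calc m c * k c y ≤ ((1 + t) * (∑ c' ∈ X, m c') * π c) * k c y :=
                mul_le_mul_of_nonneg_right h3 (hk.nn c y)
            _ = ((1 + t) * (∑ c' ∈ X, m c')) * (π y * k y c) := by rw [mul_assoc, h2]
      _ = ((1 + t) * (∑ c' ∈ X, m c')) * π y := by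
          rw [← Finset.mul_sum, ← Finset.mul_sum, hk.one y (mem_union_left _ hy), mul_one]
      _ ≤ ((1 + t) * (∑ c' ∈ X, m c')) * ((1 + t) / n) :=
          mul_le_mul_of_nonneg_left (hk.piUp y hy) (by positivity)
      _ = (1 + t) ^ 2 * (∑ c ∈ X, m c) / n := by ring
      _ ≤ (1 + 3 * t) * (∑ c ∈ X, m c) / n := by
          apply div_le_div_of_nonneg_right _ hn0.le
          apply mul_le_mul_of_nonneg_right _ hMX
          nlinarith
  have h2 : ∑ c ∈ Cl, m c * k c y ≤ (1 + 3 * t) * (∑ c ∈ Cl, m c) / n := by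
    calc ∑ c ∈ Cl, m c * k c y ≤ ∑ c ∈ Cl, m c * ((1 + t) / n) := by
          apply Finset.sum_le_sum
          intro c hc
          exact mul_le_mul_of_nonneg_left (hk.clUp c hc y) (hm.nn c)
      _ = (1 + t) * (∑ c ∈ Cl, m c) / n := by rw [← Finset.sum_mul]; ring
      _ ≤ (1 + 3 * t) * (∑ c ∈ Cl, m c) / n := by
          apply div_le_div_of_nonneg_right _ hn0.le
          apply mul_le_mul_of_nonneg_right _ hMC
          linarith
  calc ∑ c ∈ X, m c * k c y + ∑ c ∈ Cl, m c * k c y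
      ≤ (1 + 3 * t) * (∑ c ∈ X, m c) / n + (1 + 3 * t) * (∑ c ∈ Cl, m c) / n := add_le_add h1 h2
    _ = (1 + 3 * t) * (∑ c ∈ X, m c + ∑ c ∈ Cl, m c) / n := by ring

theorem yg_big {n : ℕ} {X S Cl : Finset ℕ} {e t : ℝ} {k : ℕ → ℕ → ℝ} {π m : ℕ → ℝ}
    (hk : Ker n X S Cl t k π) (hm : Mass n X Cl e t π m) (he : 0 < e) (ht0 : 0 < t)
    (ht : t ≤ 1 / 1000) (hn : 1000 ≤ n) :
    ((X.filter fun y => QY (X ∪ Cl) k m y < (∑ c ∈ X ∪ Cl, m c) / (2 * n)).card : ℝ) ≤ 6 * t * n := by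
  have hn0 : (0 : ℝ) < n := by
    have : (1000 : ℝ) ≤ n := by exact_mod_cast hn
    linarith
  set N := ∑ c ∈ X ∪ Cl, m c with hN
  have hNpos : 0 < N := lt_of_lt_of_le (by positivity) hm.lo
  set Bad := X.filter fun y => QY (X ∪ Cl) k m y < N / (2 * n) with hBad
  have hsum : ∑ y ∈ X, QY (X ∪ Cl) k m y = N := by
    unfold QY
    rw [Finset.sum_comm]
    rw [hN]
    apply Finset.sum_congr rfl
    intro c hc
    rw [← Finset.mul_sum, hk.one c hc, mul_one]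
  have hsplit := Finset.sum_filter_add_sum_filter_not X
    (fun y => QY (X ∪ Cl) k m y < N / (2 * n)) (fun y => QY (X ∪ Cl) k m y)
  have hXn : (X.card : ℝ) ≤ n := by
    have : X.card ≤ (Icc 1 n).card := Finset.card_le_card hk.X_sub
    rw [Nat.card_Icc] at this
    have h2 : X.card ≤ n := by omega
    exact_mod_cast h2
  have hcard : (Bad.card : ℝ) + ((X.filter fun y => ¬ QY (X ∪ Cl) k m y < N / (2 * n)).card : ℝ)
      = X.card := by
    have h0 := Finset.card_filter_add_card_filter_not (s := X)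
      (fun y => QY (X ∪ Cl) k m y < N / (2 * n))
    have h0' := congrArg (Nat.cast (R := ℝ)) h0
    rw [Nat.cast_add] at h0'
    exact h0'
  have h1 : ∑ y ∈ Bad, QY (X ∪ Cl) k m y ≤ Bad.card * (N / (2 * n)) := by
    rw [← nsmul_eq_mul]
    apply Finset.sum_le_card_nsmul
    intro y hy
    exact (Finset.mem_filter.mp hy).2.le
  have h2 : ∑ y ∈ X.filter (fun y => ¬ QY (X ∪ Cl) k m y < N / (2 * n)), QY (X ∪ Cl) k m y
      ≤ (X.filter fun y => ¬ QY (X ∪ Cl) k m y < N / (2 * n)).card * ((1 + 3 * t) * N / n) := by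
    rw [← nsmul_eq_mul]
    apply Finset.sum_le_card_nsmul
    intro y hy
    exact QY_le hk hm ht0 ht hn y (Finset.mem_filter.mp hy).1
  set a : ℝ := (Bad.card : ℝ) with ha
  set c : ℝ := ((X.filter fun y => ¬ QY (X ∪ Cl) k m y < N / (2 * n)).card : ℝ) with hc
  have hc0 : 0 ≤ c := by positivity
  have ha0 : 0 ≤ a := by positivity
  have h3 : N ≤ a * (N / (2 * n)) + c * ((1 + 3 * t) * N / n) := by
    rw [← hsum]
    calc ∑ y ∈ X, QY (X ∪ Cl) k m y = _ := hsplit.symm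
      _ ≤ _ := by
        rw [hsum]
        exact add_le_add h1 h2
  have h4 : 1 ≤ a * (1 / (2 * n)) + c * ((1 + 3 * t) / n) := by
    have h5 : N * 1 ≤ N * (a * (1 / (2 * n)) + c * ((1 + 3 * t) / n)) := by
      calc N * 1 = N := mul_one N
        _ ≤ _ := h3
        _ = _ := by ring
    exact le_of_mul_le_mul_left h5 hNpos
  have h6 : (n : ℝ) ≤ a / 2 + c * (1 + 3 * t) := by
    have := mul_le_mul_of_nonneg_left h4 hn0.le
    calc (n : ℝ) = n * 1 := (mul_one _).symm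
      _ ≤ n * (a * (1 / (2 * n)) + c * ((1 + 3 * t) / n)) := this
      _ = a / 2 + c * (1 + 3 * t) := by field_simp
  have h7 : c ≤ n - a := by linarith
  nlinarith

/-! ### counting -/

theorem h32_card_Icc (n : ℕ) (a b : ℝ) (hb : 0 ≤ b) (hb1 : b ≤ 1) (ha1 : 1 ≤ a * n) :
    (b - a) * n - 1 ≤
      (((Icc 1 n).filter fun z : ℕ => a * (n : ℝ) ≤ (z : ℝ) ∧ (z : ℝ) ≤ b * (n : ℝ)).card : ℝ) := by
  have hsub : Icc ⌈a * (n : ℝ)⌉₊ ⌊b * (n : ℝ)⌋₊ ⊆
      (Icc 1 n).filter fun z : ℕ => a * (n : ℝ) ≤ (z : ℝ) ∧ (z : ℝ) ≤ b * (n : ℝ) := by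
    intro z hz
    rw [Finset.mem_Icc] at hz
    obtain ⟨h1, h2⟩ := hz
    have h3 : a * (n : ℝ) ≤ z := Nat.ceil_le.mp h1
    have h4 : (z : ℝ) ≤ b * n := (Nat.le_floor_iff (by positivity)).mp h2
    rw [Finset.mem_filter, Finset.mem_Icc]
    refine ⟨⟨?_, ?_⟩, h3, h4⟩
    · have : (1 : ℝ) ≤ z := ha1.trans h3
      exact_mod_cast this
    · have : (z : ℝ) ≤ n := h4.trans (by nlinarith [Nat.cast_nonneg (α := ℝ) n])
      exact_mod_cast this
  have h1 := Finset.card_le_card hsub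
  rw [Nat.card_Icc] at h1
  have h2 : (⌊b * (n : ℝ)⌋₊ : ℝ) + 1 - ⌈a * (n : ℝ)⌉₊ ≤
      ((⌊b * (n : ℝ)⌋₊ + 1 - ⌈a * (n : ℝ)⌉₊ : ℕ) : ℝ) := by
    have : (⌊b * (n : ℝ)⌋₊ + 1 : ℕ) ≤ (⌊b * (n : ℝ)⌋₊ + 1 - ⌈a * (n : ℝ)⌉₊) + ⌈a * (n : ℝ)⌉₊ := by
      omega
    have h3 : ((⌊b * (n : ℝ)⌋₊ + 1 : ℕ) : ℝ) ≤
      (((⌊b * (n : ℝ)⌋₊ + 1 - ⌈a * (n : ℝ)⌉₊) + ⌈a * (n : ℝ)⌉₊ : ℕ) : ℝ) := by
      exact_mod_cast this
    push_cast at h3
    linarith
  have h3 : (⌈a * (n : ℝ)⌉₊ : ℝ) < a * n + 1 := Nat.ceil_lt_add_one (by positivity)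
  have h4 : b * (n : ℝ) < ⌊b * (n : ℝ)⌋₊ + 1 := Nat.lt_floor_add_one _
  have h5 : ((⌊b * (n : ℝ)⌋₊ + 1 - ⌈a * (n : ℝ)⌉₊ : ℕ) : ℝ) ≤
      (((Icc 1 n).filter fun z : ℕ => a * (n : ℝ) ≤ (z : ℝ) ∧ (z : ℝ) ≤ b * (n : ℝ)).card : ℝ) := by
    exact_mod_cast h1
  linarith

/-- the hub `X ∩ [a n, b n]` -/
noncomputable def h32hub (n : ℕ) (X : Finset ℕ) (a b : ℝ) : Finset ℕ :=
  X.filter fun z : ℕ => a * (n : ℝ) ≤ (z : ℝ) ∧ (z : ℝ) ≤ b * (n : ℝ)

theorem h32_hub_card {n : ℕ} {X : Finset ℕ} {a b t : ℝ}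
    (hb : ((Icc 1 n \ X).card : ℝ) ≤ t * n) (hb0 : 0 ≤ b) (hb1 : b ≤ 1)
    (ha1 : 1 ≤ a * n) : (b - a) * n - 1 - t * n ≤ ((h32hub n X a b).card : ℝ) := by
  have h1 := h32_card_Icc n a b hb0 hb1 ha1
  have h2 : (Icc 1 n).filter (fun z : ℕ => a * (n : ℝ) ≤ (z : ℝ) ∧ (z : ℝ) ≤ b * (n : ℝ)) ⊆
      h32hub n X a b ∪ (Icc 1 n \ X) := by
    intro z hz
    rw [Finset.mem_filter] at hz
    rw [Finset.mem_union, Finset.mem_sdiff, h32hub, Finset.mem_filter]
    by_cases hzX : z ∈ X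
    · left; exact ⟨hzX, hz.2⟩
    · right; exact ⟨hz.1, hzX⟩
  have h3 := (Finset.card_le_card h2).trans (Finset.card_union_le _ _)
  have h4 : (((Icc 1 n).filter fun z : ℕ => a * (n : ℝ) ≤ (z : ℝ) ∧ (z : ℝ) ≤ b * (n : ℝ)).card : ℝ)
      ≤ (h32hub n X a b).card + (Icc 1 n \ X).card := by exact_mod_cast h3
  linarith

/-- number of `y ∈ A` for which `y + z` is not an available sum -/
theorem h32_bad_add {n : ℕ} {S A : Finset ℕ} {t : ℝ} (hS : ((Win n \ S).card : ℝ) ≤ t * n) (z : ℕ)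
    (hA : ∀ y ∈ A, y + z ∈ Win n) : ((A.filter fun y => ¬ (y + z ∈ S)).card : ℝ) ≤ t * n := by
  have h1 : (A.filter fun y => ¬ (y + z ∈ S)).card ≤ (Win n \ S).card := by
    apply Finset.card_le_card_of_injOn (fun y => y + z)
    · intro y hy
      have hy' := Finset.mem_filter.mp hy
      exact Finset.mem_coe.mpr (Finset.mem_sdiff.mpr ⟨hA y hy'.1, hy'.2⟩)
    · intro y _ y' _ h
      have h' : y + z = y' + z := h
      omega
  have h2 : ((A.filter fun y => ¬ (y + z ∈ S)).card : ℝ) ≤ ((Win n \ S).card : ℝ) := by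
    exact_mod_cast h1
  linarith

/-- number of `y ∈ A` for which `s - y` is not an available label -/
theorem h32_bad_sub {n : ℕ} {X A : Finset ℕ} {t : ℝ} (hX : ((Icc 1 n \ X).card : ℝ) ≤ t * n) (s : ℕ)
    (hA : ∀ y ∈ A, y < s ∧ s - y ≤ n) : ((A.filter fun y => ¬ (s - y ∈ X)).card : ℝ) ≤ t * n := by
  have h1 : (A.filter fun y => ¬ (s - y ∈ X)).card ≤ (Icc 1 n \ X).card := by
    apply Finset.card_le_card_of_injOn (fun y => s - y)
    · intro y hy
      have hy' := Finset.mem_filter.mp hy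
      have h2 := hA y hy'.1
      refine Finset.mem_coe.mpr (Finset.mem_sdiff.mpr ⟨Finset.mem_Icc.mpr ?_, hy'.2⟩)
      show 1 ≤ s - y ∧ s - y ≤ n
      omega
    · intro y hy y' hy' h
      have h' : s - y = s - y' := h
      have h2 := hA y (Finset.mem_filter.mp (Finset.mem_coe.mp hy)).1
      have h3 := hA y' (Finset.mem_filter.mp (Finset.mem_coe.mp hy')).1
      omega
  have h2 : ((A.filter fun y => ¬ (s - y ∈ X)).card : ℝ) ≤ ((Icc 1 n \ X).card : ℝ) := by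
    exact_mod_cast h1
  linarith

/-! ### sums -/

noncomputable def h32phi (S : Finset ℕ) (b g : ℕ → ℝ) (y z z' : ℕ) : ℝ :=
  if y + z ∈ S ∧ y + z' ∈ S then |b z + g (y + z) - b z' - g (y + z')| else 0

noncomputable def h32gam (S : Finset ℕ) (g : ℕ → ℝ) (G : ℝ) (s : ℕ) : ℝ :=
  if s ∈ S then |g s - G| else 0

theorem h32phi_nonneg (S : Finset ℕ) (b g : ℕ → ℝ) (y z z' : ℕ) : 0 ≤ h32phi S b g y z z' := by
  unfold h32phi
  split_ifs
  · exact abs_nonneg _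
  · exact le_refl _

theorem h32gam_nonneg (S : Finset ℕ) (g : ℕ → ℝ) (G : ℝ) (s : ℕ) : 0 ≤ h32gam S g G s := by
  unfold h32gam
  split_ifs
  · exact abs_nonneg _
  · exact le_refl _

theorem h32_gam_sum_le (S A : Finset ℕ) (g : ℕ → ℝ) (G : ℝ) (y : ℕ) :
    ∑ z ∈ A, h32gam S g G (y + z) ≤ ∑ s ∈ S, |g s - G| := by
  unfold h32gam
  rw [← Finset.sum_filter]
  have hinj : Set.InjOn (fun z => y + z) (A.filter fun z => y + z ∈ S) := by
    intro z _ z' _ h
    have h' : y + z = y + z' := h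
    omega
  have h1 : ∑ z ∈ A.filter (fun z => y + z ∈ S), |g (y + z) - G| =
      ∑ s ∈ (A.filter fun z => y + z ∈ S).image (fun z => y + z), |g s - G| := by
    rw [Finset.sum_image hinj]
  rw [h1]
  apply Finset.sum_le_sum_of_subset_of_nonneg
  · intro s hs
    obtain ⟨z, hz, rfl⟩ := Finset.mem_image.mp hs
    exact (Finset.mem_filter.mp hz).2
  · intro _ _ _
    exact abs_nonneg _

/-- for fixed `s`, sum over `y` -/
theorem h32_sub_sum_le (X A : Finset ℕ) (f : ℕ → ℝ) (hf : ∀ x ∈ X, 0 ≤ f x) (s : ℕ) :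
    ∑ y ∈ A, (if y < s ∧ s - y ∈ X then f (s - y) else 0) ≤ ∑ x ∈ X, f x := by
  rw [← Finset.sum_filter]
  have hinj : Set.InjOn (fun y => s - y) (A.filter fun y => y < s ∧ s - y ∈ X) := by
    intro y hy y' hy' h
    have h' : s - y = s - y' := h
    have h1 := (Finset.mem_filter.mp (Finset.mem_coe.mp hy)).2.1
    have h2 := (Finset.mem_filter.mp (Finset.mem_coe.mp hy')).2.1
    omega
  have h1 : ∑ y ∈ A.filter (fun y => y < s ∧ s - y ∈ X), f (s - y) =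
      ∑ x ∈ (A.filter fun y => y < s ∧ s - y ∈ X).image (fun y => s - y), f x := by
    rw [Finset.sum_image hinj]
  rw [h1]
  apply Finset.sum_le_sum_of_subset_of_nonneg
  · intro x hx
    obtain ⟨z, hz, rfl⟩ := Finset.mem_image.mp hx
    exact (Finset.mem_filter.mp hz).2.2
  · intro x hx _
    exact hf x hx

/-- for fixed `y`, sum over `s` -/
theorem h32_sub_sum_le' (X A : Finset ℕ) (f : ℕ → ℝ) (hf : ∀ x ∈ X, 0 ≤ f x) (y : ℕ) :
    ∑ s ∈ A, (if y < s ∧ s - y ∈ X then f (s - y) else 0) ≤ ∑ x ∈ X, f x := by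
  rw [← Finset.sum_filter]
  have hinj : Set.InjOn (fun s => s - y) (A.filter fun s => y < s ∧ s - y ∈ X) := by
    intro s hs s' hs' h
    have h' : s - y = s' - y := h
    have h1 := (Finset.mem_filter.mp (Finset.mem_coe.mp hs)).2.1
    have h2 := (Finset.mem_filter.mp (Finset.mem_coe.mp hs')).2.1
    omega
  have h1 : ∑ s ∈ A.filter (fun s => y < s ∧ s - y ∈ X), f (s - y) =
      ∑ x ∈ (A.filter fun s => y < s ∧ s - y ∈ X).image (fun s => s - y), f x := by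
    rw [Finset.sum_image hinj]
  rw [h1]
  apply Finset.sum_le_sum_of_subset_of_nonneg
  · intro x hx
    obtain ⟨z, hz, rfl⟩ := Finset.mem_image.mp hx
    exact (Finset.mem_filter.mp hz).2.2
  · intro x hx _
    exact hf x hx

theorem h32_U {n : ℕ} {X S Cl : Finset ℕ} {e t : ℝ} {k : ℕ → ℕ → ℝ} {π m : ℕ → ℝ}
    (hk : Ker n X S Cl t k π) (hm : Mass n X Cl e t π m) (he : 0 < e) (hn : 1000 ≤ n)
    (Y : Finset ℕ) (hYX : Y ⊆ X) (hYhub : ∀ y ∈ Y, (n : ℝ) / 10 ≤ |2 * (y : ℝ) - n|)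
    (hYQ : ∀ y ∈ Y, (∑ c ∈ X ∪ Cl, m c) / (2 * n) ≤ QY (X ∪ Cl) k m y) (b g : ℕ → ℝ) :
    ∑ y ∈ Y, ∑ z ∈ X, ∑ z' ∈ X, h32phi S b g y z z' ≤
      800 * (n : ℝ) ^ 2 / e * D2 X (X ∪ Cl) k m b g := by
  have hn0 : (0 : ℝ) < n := by
    have : (1000 : ℝ) ≤ n := by exact_mod_cast hn
    linarith
  set W : ℕ → ℝ := fun y => ∑ z ∈ X, ∑ z' ∈ X,
    k y z * k y z' * |b z + g (y + z) - b z' - g (y + z')| with hW
  have hW0 : ∀ y, 0 ≤ W y := by
    intro y
    apply Finset.sum_nonneg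
    intro z _
    apply Finset.sum_nonneg
    intro z' _
    exact mul_nonneg (mul_nonneg (hk.nn _ _) (hk.nn _ _)) (abs_nonneg _)
  have hD : D2 X (X ∪ Cl) k m b g = ∑ y ∈ X, QY (X ∪ Cl) k m y * W y := by
    unfold D2
    rw [Finset.sum_comm]
    apply Finset.sum_congr rfl
    intro y _
    unfold QY
    rw [Finset.sum_mul]
    apply Finset.sum_congr rfl
    intro c _
    rw [hW]
    simp only []
    rw [Finset.mul_sum]
    apply Finset.sum_congr rfl
    intro z _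
    rw [Finset.mul_sum]
    apply Finset.sum_congr rfl
    intro z' _
    ring
  have hQ0 : ∀ y, 0 ≤ QY (X ∪ Cl) k m y := by
    intro y
    apply Finset.sum_nonneg
    intro c _
    exact mul_nonneg (hm.nn c) (hk.nn _ _)
  have hWY : ∀ y ∈ Y, (1 / (20 * n : ℝ)) ^ 2 * (∑ z ∈ X, ∑ z' ∈ X, h32phi S b g y z z') ≤ W y := by
    intro y hy
    rw [hW, Finset.mul_sum]
    apply Finset.sum_le_sum
    intro z hz
    rw [Finset.mul_sum]
    apply Finset.sum_le_sum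
    intro z' hz'
    unfold h32phi
    split_ifs with h
    · have h1 := hk.lo y (hYX hy) z hz h.1 (Or.inl (hYhub y hy))
      have h2 := hk.lo y (hYX hy) z' hz' h.2 (Or.inl (hYhub y hy))
      apply mul_le_mul_of_nonneg_right _ (abs_nonneg _)
      rw [sq]
      exact mul_le_mul h1 h2 (by positivity) (hk.nn _ _)
    · rw [mul_zero]
      exact mul_nonneg (mul_nonneg (hk.nn _ _) (hk.nn _ _)) (abs_nonneg _)
  set N := ∑ c ∈ X ∪ Cl, m c with hN
  have hNe : e * n ≤ N := hm.lo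
  have hNpos : 0 < N := lt_of_lt_of_le (by positivity) hNe
  set U := ∑ y ∈ Y, ∑ z ∈ X, ∑ z' ∈ X, h32phi S b g y z z' with hU
  have hU0 : 0 ≤ U := Finset.sum_nonneg fun y _ => Finset.sum_nonneg fun z _ =>
    Finset.sum_nonneg fun z' _ => h32phi_nonneg _ _ _ _ _ _
  have h1 : N / (2 * n) * (1 / (20 * n : ℝ)) ^ 2 * U ≤ D2 X (X ∪ Cl) k m b g := by
    rw [hD]
    calc N / (2 * n) * (1 / (20 * n : ℝ)) ^ 2 * U
        = ∑ y ∈ Y, N / (2 * n) * ((1 / (20 * n : ℝ)) ^ 2 *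
            (∑ z ∈ X, ∑ z' ∈ X, h32phi S b g y z z')) := by
          rw [hU, Finset.mul_sum]
          apply Finset.sum_congr rfl
          intro y _
          ring
      _ ≤ ∑ y ∈ Y, QY (X ∪ Cl) k m y * W y := by
          apply Finset.sum_le_sum
          intro y hy
          have h2 : 0 ≤ ∑ z ∈ X, ∑ z' ∈ X, h32phi S b g y z z' :=
            Finset.sum_nonneg fun z _ => Finset.sum_nonneg fun z' _ => h32phi_nonneg _ _ _ _ _ _
          exact mul_le_mul (hYQ y hy) (hWY y hy) (by positivity) (hQ0 y)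
      _ ≤ ∑ y ∈ X, QY (X ∪ Cl) k m y * W y := by
          apply Finset.sum_le_sum_of_subset_of_nonneg hYX
          intro y _ _
          exact mul_nonneg (hQ0 y) (hW0 y)
  have h3 : e / (800 * (n : ℝ) ^ 2) * U ≤ D2 X (X ∪ Cl) k m b g := by
    refine le_trans ?_ h1
    apply mul_le_mul_of_nonneg_right _ hU0
    have h4 : e / (800 * (n : ℝ) ^ 2) = e * n / (2 * n) * (1 / (20 * n : ℝ)) ^ 2 := by
      field_simp
      norm_num
    rw [h4]
    apply mul_le_mul_of_nonneg_right _ (by positivity)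
    apply div_le_div_of_nonneg_right hNe (by positivity)
  calc U = 800 * (n : ℝ) ^ 2 / e * (e / (800 * (n : ℝ) ^ 2) * U) := by
        field_simp
    _ ≤ 800 * (n : ℝ) ^ 2 / e * D2 X (X ∪ Cl) k m b g :=
        mul_le_mul_of_nonneg_left h3 (by positivity)

theorem h32_swap3 (A B C : Finset ℕ) (f : ℕ → ℕ → ℕ → ℝ) :
    ∑ a ∈ A, ∑ b ∈ B, ∑ c ∈ C, f c b a = ∑ c ∈ C, ∑ b ∈ B, ∑ a ∈ A, f c b a := by
  rw [Finset.sum_comm]
  rw [show (∑ b ∈ B, ∑ a ∈ A, ∑ c ∈ C, f c b a) = ∑ b ∈ B, ∑ c ∈ C, ∑ a ∈ A, f c b a from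
    Finset.sum_congr rfl (fun b _ => Finset.sum_comm)]
  rw [Finset.sum_comm]

theorem h32_lemA {n : ℕ} {X S : Finset ℕ} (Y H I : Finset ℕ) (b g : ℕ → ℝ) (G : ℝ)
    (hYn : Y.card ≤ n) (hHn : H.card ≤ n) (hIn : I.card ≤ n) (hI : I ⊆ X) (hH : H ⊆ X)
    (hcount : ∀ z ∈ I, ∀ z' ∈ H,
      (n : ℝ) / 20 ≤ ((Y.filter fun y => y + z ∈ S ∧ y + z' ∈ S).card : ℝ)) :
    (n : ℝ) / 20 * ∑ z' ∈ H, ∑ z ∈ I, |b z - b z'| ≤
      (∑ y ∈ Y, ∑ z ∈ X, ∑ z' ∈ X, h32phi S b g y z z') +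
        2 * (n : ℝ) ^ 2 * ∑ s ∈ S, |g s - G| := by
  set Ds := ∑ s ∈ S, |g s - G| with hDs
  have hDs0 : 0 ≤ Ds := Finset.sum_nonneg fun _ _ => abs_nonneg _
  have hpt : ∀ z' ∈ H, ∀ z ∈ I, (n : ℝ) / 20 * |b z - b z'| ≤
      ∑ y ∈ Y, (h32phi S b g y z z' + h32gam S g G (y + z) + h32gam S g G (y + z')) := by
    intro z' hz' z hz
    calc (n : ℝ) / 20 * |b z - b z'|
        ≤ ((Y.filter fun y => y + z ∈ S ∧ y + z' ∈ S).card : ℝ) * |b z - b z'| :=
          mul_le_mul_of_nonneg_right (hcount z hz z' hz') (abs_nonneg _)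
      _ = ∑ y ∈ Y.filter (fun y => y + z ∈ S ∧ y + z' ∈ S), |b z - b z'| := by
          rw [Finset.sum_const, nsmul_eq_mul]
      _ ≤ ∑ y ∈ Y.filter (fun y => y + z ∈ S ∧ y + z' ∈ S),
            (h32phi S b g y z z' + h32gam S g G (y + z) + h32gam S g G (y + z')) := by
          apply Finset.sum_le_sum
          intro y hy
          have h := (Finset.mem_filter.mp hy).2
          unfold h32phi h32gam
          rw [if_pos h, if_pos h.1, if_pos h.2]
          calc |b z - b z'| = |(b z + g (y + z) - b z' - g (y + z')) - (g (y + z) - G)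
                + (g (y + z') - G)| := by congr 1; ring
            _ ≤ |(b z + g (y + z) - b z' - g (y + z')) - (g (y + z) - G)| + |g (y + z') - G| :=
                abs_add_le _ _
            _ ≤ |b z + g (y + z) - b z' - g (y + z')| + |g (y + z) - G| + |g (y + z') - G| := by
                have := abs_sub (b z + g (y + z) - b z' - g (y + z')) (g (y + z) - G)
                linarith
      _ ≤ _ := by
          apply Finset.sum_le_sum_of_subset_of_nonneg (Finset.filter_subset _ _)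
          intro y _ _
          have h1 := h32phi_nonneg S b g y z z'
          have h2 := h32gam_nonneg S g G (y + z)
          have h3 := h32gam_nonneg S g G (y + z')
          linarith
  have h1 : (n : ℝ) / 20 * ∑ z' ∈ H, ∑ z ∈ I, |b z - b z'| ≤
      ∑ z' ∈ H, ∑ z ∈ I, ∑ y ∈ Y,
        (h32phi S b g y z z' + h32gam S g G (y + z) + h32gam S g G (y + z')) := by
    rw [Finset.mul_sum]
    apply Finset.sum_le_sum
    intro z' hz'
    rw [Finset.mul_sum]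
    apply Finset.sum_le_sum
    intro z hz
    exact hpt z' hz' z hz
  have h2 : ∑ z' ∈ H, ∑ z ∈ I, ∑ y ∈ Y, h32phi S b g y z z' ≤
      ∑ y ∈ Y, ∑ z ∈ X, ∑ z' ∈ X, h32phi S b g y z z' := by
    calc ∑ z' ∈ H, ∑ z ∈ I, ∑ y ∈ Y, h32phi S b g y z z'
        = ∑ y ∈ Y, ∑ z ∈ I, ∑ z' ∈ H, h32phi S b g y z z' := by
          exact h32_swap3 H I Y fun y z z' => h32phi S b g y z z'
      _ ≤ _ := by
          apply Finset.sum_le_sum
          intro y _
          calc ∑ z ∈ I, ∑ z' ∈ H, h32phi S b g y z z' ≤ ∑ z ∈ I, ∑ z' ∈ X, h32phi S b g y z z' := by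
                apply Finset.sum_le_sum
                intro z _
                apply Finset.sum_le_sum_of_subset_of_nonneg hH
                intro z' _ _
                exact h32phi_nonneg _ _ _ _ _ _
            _ ≤ _ := by
                apply Finset.sum_le_sum_of_subset_of_nonneg hI
                intro z _ _
                exact Finset.sum_nonneg fun z' _ => h32phi_nonneg _ _ _ _ _ _
  have hYn' : (Y.card : ℝ) ≤ n := by exact_mod_cast hYn
  have hHn' : (H.card : ℝ) ≤ n := by exact_mod_cast hHn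
  have hIn' : (I.card : ℝ) ≤ n := by exact_mod_cast hIn
  have h3 : ∑ z' ∈ H, ∑ z ∈ I, ∑ y ∈ Y, h32gam S g G (y + z) ≤ (n : ℝ) ^ 2 * Ds := by
    calc ∑ z' ∈ H, ∑ z ∈ I, ∑ y ∈ Y, h32gam S g G (y + z)
        = ∑ z' ∈ H, ∑ y ∈ Y, ∑ z ∈ I, h32gam S g G (y + z) :=
          Finset.sum_congr rfl fun z' _ => Finset.sum_comm
      _ ≤ ∑ z' ∈ H, ∑ y ∈ Y, Ds := by
          apply Finset.sum_le_sum
          intro z' _
          apply Finset.sum_le_sum
          intro y _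
          exact h32_gam_sum_le S I g G y
      _ = (H.card : ℝ) * ((Y.card : ℝ) * Ds) := by
          rw [Finset.sum_const, Finset.sum_const, nsmul_eq_mul, nsmul_eq_mul]
      _ ≤ (n : ℝ) * ((n : ℝ) * Ds) := by gcongr
      _ = _ := by ring
  have h4 : ∑ z' ∈ H, ∑ z ∈ I, ∑ y ∈ Y, h32gam S g G (y + z') ≤ (n : ℝ) ^ 2 * Ds := by
    calc ∑ z' ∈ H, ∑ z ∈ I, ∑ y ∈ Y, h32gam S g G (y + z')
        = ∑ y ∈ Y, ∑ z ∈ I, ∑ z' ∈ H, h32gam S g G (y + z') :=
          h32_swap3 H I Y fun y _ z' => h32gam S g G (y + z')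
      _ ≤ ∑ y ∈ Y, ∑ z ∈ I, Ds := by
          apply Finset.sum_le_sum
          intro y _
          apply Finset.sum_le_sum
          intro z _
          exact h32_gam_sum_le S H g G y
      _ = (Y.card : ℝ) * ((I.card : ℝ) * Ds) := by
          rw [Finset.sum_const, Finset.sum_const, nsmul_eq_mul, nsmul_eq_mul]
      _ ≤ (n : ℝ) * ((n : ℝ) * Ds) := by gcongr
      _ = _ := by ring
  calc (n : ℝ) / 20 * ∑ z' ∈ H, ∑ z ∈ I, |b z - b z'|
      ≤ ∑ z' ∈ H, ∑ z ∈ I, ∑ y ∈ Y,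
        (h32phi S b g y z z' + h32gam S g G (y + z) + h32gam S g G (y + z')) := h1
    _ = (∑ z' ∈ H, ∑ z ∈ I, ∑ y ∈ Y, h32phi S b g y z z') +
        (∑ z' ∈ H, ∑ z ∈ I, ∑ y ∈ Y, h32gam S g G (y + z)) +
        ∑ z' ∈ H, ∑ z ∈ I, ∑ y ∈ Y, h32gam S g G (y + z') := by
        simp only [Finset.sum_add_distrib]
    _ ≤ _ := by linarith

theorem h32_lemB {n : ℕ} {X S : Finset ℕ} (Y H Sh : Finset ℕ) (b g : ℕ → ℝ) (B G : ℝ)
    (hn : 1 ≤ n) (hYn : Y.card ≤ n) (hHn : H.card ≤ n) (hH : H ⊆ X) (hSh : Sh ⊆ S)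
    (hc1 : ∀ s ∈ Sh, (n : ℝ) / 20 ≤ ((Y.filter fun y => y < s ∧ s - y ∈ X).card : ℝ))
    (hc2 : ∀ y ∈ Y, (n : ℝ) / 20 ≤ ((H.filter fun z' => y + z' ∈ S).card : ℝ)) :
    ((n : ℝ) / 20) ^ 2 * ∑ s ∈ Sh, |g s - G| ≤
      (∑ y ∈ Y, ∑ z ∈ X, ∑ z' ∈ X, h32phi S b g y z z') +
        (Sh.card : ℝ) * n * (2 * (∑ x ∈ X, |b x - B|) + ∑ s ∈ S, |g s - G|) := by
  set Ds := ∑ s ∈ S, |g s - G| with hDs
  set Dl := ∑ x ∈ X, |b x - B| with hDl
  have hDs0 : 0 ≤ Ds := Finset.sum_nonneg fun _ _ => abs_nonneg _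
  have hDl0 : 0 ≤ Dl := Finset.sum_nonneg fun _ _ => abs_nonneg _
  have hn0 : (0 : ℝ) < n := by exact_mod_cast hn
  have hYn' : (Y.card : ℝ) ≤ n := by exact_mod_cast hYn
  have hHn' : (H.card : ℝ) ≤ n := by exact_mod_cast hHn
  -- the majorant
  set M : ℕ → ℕ → ℕ → ℝ := fun s y z' =>
    (if y < s ∧ s - y ∈ X then h32phi S b g y (s - y) z' else 0) +
      (if y < s ∧ s - y ∈ X then |b (s - y) - B| else 0) + |b z' - B| + h32gam S g G (y + z') with hM
  have hM0 : ∀ s y z', 0 ≤ M s y z' := by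
    intro s y z'
    rw [hM]
    have h1 : 0 ≤ (if y < s ∧ s - y ∈ X then h32phi S b g y (s - y) z' else 0) := by
      split_ifs
      · exact h32phi_nonneg _ _ _ _ _ _
      · exact le_refl _
    have h2 : 0 ≤ (if y < s ∧ s - y ∈ X then |b (s - y) - B| else 0) := by
      split_ifs
      · exact abs_nonneg _
      · exact le_refl _
    have h3 := abs_nonneg (b z' - B)
    have h4 := h32gam_nonneg S g G (y + z')
    simp only []
    linarith
  have hpt : ∀ s ∈ Sh, ((n : ℝ) / 20) ^ 2 * |g s - G| ≤ ∑ y ∈ Y, ∑ z' ∈ H, M s y z' := by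
    intro s hs
    have hinner : ∀ y ∈ Y.filter (fun y => y < s ∧ s - y ∈ X),
        (n : ℝ) / 20 * |g s - G| ≤ ∑ z' ∈ H, M s y z' := by
      intro y hy
      obtain ⟨hyY, hys, hyX⟩ := Finset.mem_filter.mp hy
      calc (n : ℝ) / 20 * |g s - G|
          ≤ ((H.filter fun z' => y + z' ∈ S).card : ℝ) * |g s - G| :=
            mul_le_mul_of_nonneg_right (hc2 y hyY) (abs_nonneg _)
        _ = ∑ z' ∈ H.filter (fun z' => y + z' ∈ S), |g s - G| := by
            rw [Finset.sum_const, nsmul_eq_mul]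
        _ ≤ ∑ z' ∈ H.filter (fun z' => y + z' ∈ S), M s y z' := by
            apply Finset.sum_le_sum
            intro z' hz'
            have hz'S := (Finset.mem_filter.mp hz').2
            have hys' : y + (s - y) = s := by omega
            rw [hM]
            simp only []
            rw [if_pos ⟨hys, hyX⟩, if_pos ⟨hys, hyX⟩]
            unfold h32phi h32gam
            rw [hys', if_pos ⟨hSh hs, hz'S⟩, if_pos hz'S]
            have e1 : g s - G = (b (s - y) + g s - b z' - g (y + z')) - (b (s - y) - B)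
                + (b z' - B) + (g (y + z') - G) := by ring
            calc |g s - G| = |(b (s - y) + g s - b z' - g (y + z')) - (b (s - y) - B)
                + (b z' - B) + (g (y + z') - G)| := congrArg _ e1
              _ ≤ |(b (s - y) + g s - b z' - g (y + z')) - (b (s - y) - B)
                + (b z' - B)| + |g (y + z') - G| := abs_add_le _ _
              _ ≤ |(b (s - y) + g s - b z' - g (y + z')) - (b (s - y) - B)|
                + |b z' - B| + |g (y + z') - G| := by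
                  have := abs_add_le ((b (s - y) + g s - b z' - g (y + z')) - (b (s - y) - B))
                    (b z' - B)
                  linarith
              _ ≤ _ := by
                  have := abs_sub (b (s - y) + g s - b z' - g (y + z')) (b (s - y) - B)
                  linarith
        _ ≤ ∑ z' ∈ H, M s y z' := by
            apply Finset.sum_le_sum_of_subset_of_nonneg (Finset.filter_subset _ _)
            intro z' _ _
            exact hM0 s y z'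
    calc ((n : ℝ) / 20) ^ 2 * |g s - G| = (n : ℝ) / 20 * ((n : ℝ) / 20 * |g s - G|) := by ring
      _ ≤ ((Y.filter fun y => y < s ∧ s - y ∈ X).card : ℝ) * ((n : ℝ) / 20 * |g s - G|) :=
          mul_le_mul_of_nonneg_right (hc1 s hs) (by positivity)
      _ = ∑ y ∈ Y.filter (fun y => y < s ∧ s - y ∈ X), ((n : ℝ) / 20 * |g s - G|) := by
          rw [Finset.sum_const, nsmul_eq_mul]
      _ ≤ ∑ y ∈ Y.filter (fun y => y < s ∧ s - y ∈ X), ∑ z' ∈ H, M s y z' :=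
          Finset.sum_le_sum hinner
      _ ≤ _ := by
          apply Finset.sum_le_sum_of_subset_of_nonneg (Finset.filter_subset _ _)
          intro y _ _
          exact Finset.sum_nonneg fun z' _ => hM0 s y z'
  have h1 : ((n : ℝ) / 20) ^ 2 * ∑ s ∈ Sh, |g s - G| ≤ ∑ s ∈ Sh, ∑ y ∈ Y, ∑ z' ∈ H, M s y z' := by
    rw [Finset.mul_sum]
    exact Finset.sum_le_sum hpt
  have hsplit : ∑ s ∈ Sh, ∑ y ∈ Y, ∑ z' ∈ H, M s y z' =
      (∑ s ∈ Sh, ∑ y ∈ Y, ∑ z' ∈ H,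
        (if y < s ∧ s - y ∈ X then h32phi S b g y (s - y) z' else 0)) +
      (∑ s ∈ Sh, ∑ y ∈ Y, ∑ z' ∈ H, (if y < s ∧ s - y ∈ X then |b (s - y) - B| else 0)) +
      (∑ s ∈ Sh, ∑ y ∈ Y, ∑ z' ∈ H, |b z' - B|) +
      (∑ s ∈ Sh, ∑ y ∈ Y, ∑ z' ∈ H, h32gam S g G (y + z')) := by
    rw [hM]
    simp only [Finset.sum_add_distrib]
  have p1 : ∑ s ∈ Sh, ∑ y ∈ Y, ∑ z' ∈ H,
        (if y < s ∧ s - y ∈ X then h32phi S b g y (s - y) z' else 0) ≤
      ∑ y ∈ Y, ∑ z ∈ X, ∑ z' ∈ X, h32phi S b g y z z' := by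
    rw [Finset.sum_comm]
    apply Finset.sum_le_sum
    intro y _
    calc ∑ s ∈ Sh, ∑ z' ∈ H, (if y < s ∧ s - y ∈ X then h32phi S b g y (s - y) z' else 0)
        = ∑ s ∈ Sh, (if y < s ∧ s - y ∈ X then (∑ z' ∈ H, h32phi S b g y (s - y) z') else 0) := by
          apply Finset.sum_congr rfl
          intro s _
          split_ifs
          · rfl
          · exact Finset.sum_const_zero
      _ ≤ ∑ z ∈ X, ∑ z' ∈ H, h32phi S b g y z z' :=
          h32_sub_sum_le' X Sh (fun z => ∑ z' ∈ H, h32phi S b g y z z')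
            (fun z _ => Finset.sum_nonneg fun z' _ => h32phi_nonneg _ _ _ _ _ _) y
      _ ≤ _ := by
          apply Finset.sum_le_sum
          intro z _
          apply Finset.sum_le_sum_of_subset_of_nonneg hH
          intro z' _ _
          exact h32phi_nonneg _ _ _ _ _ _
  have p2 : ∑ s ∈ Sh, ∑ y ∈ Y, ∑ z' ∈ H, (if y < s ∧ s - y ∈ X then |b (s - y) - B| else 0) ≤
      (Sh.card : ℝ) * n * Dl := by
    calc ∑ s ∈ Sh, ∑ y ∈ Y, ∑ z' ∈ H, (if y < s ∧ s - y ∈ X then |b (s - y) - B| else 0)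
        = ∑ s ∈ Sh, ∑ z' ∈ H, ∑ y ∈ Y, (if y < s ∧ s - y ∈ X then |b (s - y) - B| else 0) :=
          Finset.sum_congr rfl fun s _ => Finset.sum_comm
      _ ≤ ∑ s ∈ Sh, ∑ z' ∈ H, Dl := by
          apply Finset.sum_le_sum
          intro s _
          apply Finset.sum_le_sum
          intro z' _
          exact h32_sub_sum_le X Y (fun x => |b x - B|) (fun x _ => abs_nonneg _) s
      _ = (Sh.card : ℝ) * ((H.card : ℝ) * Dl) := by
          rw [Finset.sum_const, Finset.sum_const, nsmul_eq_mul, nsmul_eq_mul]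
      _ ≤ (Sh.card : ℝ) * ((n : ℝ) * Dl) := by gcongr
      _ = _ := by ring
  have p3 : ∑ s ∈ Sh, ∑ y ∈ Y, ∑ z' ∈ H, |b z' - B| ≤ (Sh.card : ℝ) * n * Dl := by
    calc ∑ s ∈ Sh, ∑ y ∈ Y, ∑ z' ∈ H, |b z' - B| ≤ ∑ s ∈ Sh, ∑ y ∈ Y, Dl := by
          apply Finset.sum_le_sum
          intro s _
          apply Finset.sum_le_sum
          intro y _
          apply Finset.sum_le_sum_of_subset_of_nonneg hH
          intro _ _ _
          exact abs_nonneg _
      _ = (Sh.card : ℝ) * ((Y.card : ℝ) * Dl) := by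
          rw [Finset.sum_const, Finset.sum_const, nsmul_eq_mul, nsmul_eq_mul]
      _ ≤ (Sh.card : ℝ) * ((n : ℝ) * Dl) := by gcongr
      _ = _ := by ring
  have p4 : ∑ s ∈ Sh, ∑ y ∈ Y, ∑ z' ∈ H, h32gam S g G (y + z') ≤ (Sh.card : ℝ) * n * Ds := by
    calc ∑ s ∈ Sh, ∑ y ∈ Y, ∑ z' ∈ H, h32gam S g G (y + z') ≤ ∑ s ∈ Sh, ∑ y ∈ Y, Ds := by
          apply Finset.sum_le_sum
          intro s _
          apply Finset.sum_le_sum
          intro y _
          exact h32_gam_sum_le S H g G y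
      _ = (Sh.card : ℝ) * ((Y.card : ℝ) * Ds) := by
          rw [Finset.sum_const, Finset.sum_const, nsmul_eq_mul, nsmul_eq_mul]
      _ ≤ (Sh.card : ℝ) * ((n : ℝ) * Ds) := by gcongr
      _ = _ := by ring
  calc ((n : ℝ) / 20) ^ 2 * ∑ s ∈ Sh, |g s - G| ≤ ∑ s ∈ Sh, ∑ y ∈ Y, ∑ z' ∈ H, M s y z' := h1
    _ ≤ _ := by
      rw [hsplit]
      have : (Sh.card : ℝ) * n * (2 * Dl + Ds) =
        (Sh.card : ℝ) * n * Dl + (Sh.card : ℝ) * n * Dl + (Sh.card : ℝ) * n * Ds := by ring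
      rw [this]
      linarith

/-- the good part of the hub -/
noncomputable def h32Y (n : ℕ) (X CC : Finset ℕ) (a b : ℝ) (k : ℕ → ℕ → ℝ) (m : ℕ → ℝ) : Finset ℕ :=
  (h32hub n X a b).filter fun y => (∑ c ∈ CC, m c) / (2 * n) ≤ QY CC k m y

theorem h32_two_filter (A : Finset ℕ) (p q : ℕ → Prop) [DecidablePred p] [DecidablePred q] :
    (A.card : ℝ) ≤ ((A.filter fun y => p y ∧ q y).card : ℝ) + ((A.filter fun y => ¬ p y).card : ℝ)
      + ((A.filter fun y => ¬ q y).card : ℝ) := by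
  have hsub : A ⊆ (A.filter fun y => p y ∧ q y) ∪ (A.filter fun y => ¬ p y) ∪
      (A.filter fun y => ¬ q y) := by
    intro y hy
    simp only [Finset.mem_union, Finset.mem_filter]
    by_cases h1 : p y
    · by_cases h2 : q y
      · exact Or.inl (Or.inl ⟨hy, h1, h2⟩)
      · exact Or.inr ⟨hy, h2⟩
    · exact Or.inl (Or.inr ⟨hy, h1⟩)
  have h1 := Finset.card_le_card hsub
  have h2 := Finset.card_union_le ((A.filter fun y => p y ∧ q y) ∪ (A.filter fun y => ¬ p y))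
    (A.filter fun y => ¬ q y)
  have h3 := Finset.card_union_le (A.filter fun y => p y ∧ q y) (A.filter fun y => ¬ p y)
  have h4 : A.card ≤ (A.filter fun y => p y ∧ q y).card + (A.filter fun y => ¬ p y).card
      + (A.filter fun y => ¬ q y).card := by omega
  exact_mod_cast h4

theorem h32_counts {n : ℕ} {X S Cl : Finset ℕ} {e t : ℝ} {k : ℕ → ℕ → ℝ} {π m : ℕ → ℝ}
    (hk : Ker n X S Cl t k π) (hm : Mass n X Cl e t π m) (he : 0 < e) (ht0 : 0 < t)
    (ht : t ≤ 1 / 1000) (hn : 1000 ≤ n) {a b : ℝ} (hab : b - a = 1 / 10) (hb0 : 0 ≤ b)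
    (hb1 : b ≤ 1) (ha1 : 1 ≤ a * n) (I Sh : Finset ℕ)
    (hI : ∀ z ∈ I, ∀ y ∈ h32hub n X a b, y + z ∈ Win n)
    (hHH : ∀ z ∈ h32hub n X a b, ∀ y ∈ h32hub n X a b, y + z ∈ Win n)
    (hSh : ∀ s ∈ Sh, ∀ y ∈ h32hub n X a b, y < s ∧ s - y ≤ n) :
    (9 / 100 : ℝ) * n ≤ ((h32hub n X a b).card : ℝ) ∧
    (∀ z ∈ I, ∀ z' ∈ h32hub n X a b, (n : ℝ) / 20 ≤
      (((h32Y n X (X ∪ Cl) a b k m).filter fun y => y + z ∈ S ∧ y + z' ∈ S).card : ℝ)) ∧
    (∀ s ∈ Sh, (n : ℝ) / 20 ≤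
      (((h32Y n X (X ∪ Cl) a b k m).filter fun y => y < s ∧ s - y ∈ X).card : ℝ)) ∧
    (∀ y ∈ h32Y n X (X ∪ Cl) a b k m, (n : ℝ) / 20 ≤
      (((h32hub n X a b).filter fun z' => y + z' ∈ S).card : ℝ)) := by
  have hn' : (1000 : ℝ) ≤ n := by exact_mod_cast hn
  have hn0 : (0 : ℝ) < n := by linarith
  have htn : t * n ≤ 1 / 1000 * n := mul_le_mul_of_nonneg_right ht hn0.le
  have hH := h32_hub_card (X := X) (a := a) (b := b) hk.X_big hb0 hb1 ha1
  rw [hab] at hH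
  have hYH : h32Y n X (X ∪ Cl) a b k m ⊆ h32hub n X a b := Finset.filter_subset _ _
  have hHX : h32hub n X a b ⊆ X := Finset.filter_subset _ _
  have hY : ((h32hub n X a b).card : ℝ) - 6 * t * n ≤ ((h32Y n X (X ∪ Cl) a b k m).card : ℝ) := by
    have h1 := yg_big hk hm he ht0 ht hn
    have h2 : h32hub n X a b ⊆ h32Y n X (X ∪ Cl) a b k m ∪
        (X.filter fun y => QY (X ∪ Cl) k m y < (∑ c ∈ X ∪ Cl, m c) / (2 * n)) := by
      intro y hy
      rw [Finset.mem_union, h32Y, Finset.mem_filter, Finset.mem_filter]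
      by_cases h : (∑ c ∈ X ∪ Cl, m c) / (2 * n) ≤ QY (X ∪ Cl) k m y
      · exact Or.inl ⟨hy, h⟩
      · exact Or.inr ⟨hHX hy, not_le.mp h⟩
    have h3 := (Finset.card_le_card h2).trans (Finset.card_union_le _ _)
    have h4 : ((h32hub n X a b).card : ℝ) ≤ ((h32Y n X (X ∪ Cl) a b k m).card : ℝ) +
        ((X.filter fun y => QY (X ∪ Cl) k m y < (∑ c ∈ X ∪ Cl, m c) / (2 * n)).card : ℝ) := by
      exact_mod_cast h3
    linarith
  refine ⟨by linarith, ?_, ?_, ?_⟩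
  · intro z hz z' hz'
    have h1 := h32_two_filter (h32Y n X (X ∪ Cl) a b k m) (fun y => y + z ∈ S) (fun y => y + z' ∈ S)
    have h2 := h32_bad_add (A := h32Y n X (X ∪ Cl) a b k m) hk.S_big z
      (fun y hy => hI z hz y (hYH hy))
    have h3 := h32_bad_add (A := h32Y n X (X ∪ Cl) a b k m) hk.S_big z'
      (fun y hy => hHH z' hz' y (hYH hy))
    linarith
  · intro s hs
    have h1 := h32_two_filter (h32Y n X (X ∪ Cl) a b k m) (fun y => y < s) (fun y => s - y ∈ X)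
    have h2 := h32_bad_sub (A := h32Y n X (X ∪ Cl) a b k m) hk.X_big s
      (fun y hy => hSh s hs y (hYH hy))
    have h3 : ((h32Y n X (X ∪ Cl) a b k m).filter fun y => ¬ y < s) = ∅ := by
      rw [Finset.filter_eq_empty_iff]
      intro y hy
      exact not_not.mpr (hSh s hs y (hYH hy)).1
    rw [h3] at h1
    simp only [Finset.card_empty, Nat.cast_zero] at h1
    linarith
  · intro y hy
    have h1 := h32_two_filter (h32hub n X a b) (fun z' => y + z' ∈ S) (fun z' => y + z' ∈ S)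
    have h2 := h32_bad_add (A := h32hub n X a b) hk.S_big y
      (fun z' hz' => hHH y (hYH hy) z' hz')
    have h3 : ((h32hub n X a b).filter fun z' => ¬ (z' + y ∈ S)) =
        ((h32hub n X a b).filter fun z' => ¬ (y + z' ∈ S)) := by
      apply Finset.filter_congr
      intro z' _
      rw [add_comm]
    rw [h3] at h2
    have h4 : ((h32hub n X a b).filter fun z' => y + z' ∈ S ∧ y + z' ∈ S) =
        ((h32hub n X a b).filter fun z' => y + z' ∈ S) := by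
      apply Finset.filter_congr
      intro z' _
      exact and_self_iff
    rw [h4] at h1
    linarith

theorem h32_D1_nonneg {n : ℕ} {X S Cl : Finset ℕ} {e t : ℝ} {k : ℕ → ℕ → ℝ} {π m : ℕ → ℝ}
    (hk : Ker n X S Cl t k π) (hm : Mass n X Cl e t π m) (g : ℕ → ℝ) :
    0 ≤ D1 X (X ∪ Cl) k m g := by
  unfold D1
  refine Finset.sum_nonneg fun c _ => Finset.sum_nonneg fun y _ => Finset.sum_nonneg fun z _ => ?_
  apply mul_nonneg _ (abs_nonneg _)
  unfold q0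
  exact le_min (mul_nonneg (mul_nonneg (hm.nn _) (hk.nn _ _)) (hk.nn _ _))
    (mul_nonneg (mul_nonneg (hm.nn _) (hk.nn _ _)) (hk.nn _ _))

theorem h32_D2_nonneg {n : ℕ} {X S Cl : Finset ℕ} {e t : ℝ} {k : ℕ → ℕ → ℝ} {π m : ℕ → ℝ}
    (hk : Ker n X S Cl t k π) (hm : Mass n X Cl e t π m) (b g : ℕ → ℝ) :
    0 ≤ D2 X (X ∪ Cl) k m b g := by
  unfold D2
  refine Finset.sum_nonneg fun c _ => Finset.sum_nonneg fun y _ => Finset.sum_nonneg fun z _ =>
    Finset.sum_nonneg fun z' _ => ?_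
  exact mul_nonneg (mul_nonneg (mul_nonneg (mul_nonneg (hm.nn _) (hk.nn _ _)) (hk.nn _ _))
    (hk.nn _ _)) (abs_nonneg _)

theorem h32_win {n s : ℕ} (h1 : (n : ℝ) / 2 + 2 ≤ s) (h2 : (s : ℝ) ≤ 3 / 2 * n - 1 / 2) :
    s ∈ Win n := by
  unfold Win
  rw [Finset.mem_Icc]
  constructor
  · have : n + 4 ≤ 2 * s := by
      have : (n : ℝ) + 4 ≤ 2 * s := by linarith
      exact_mod_cast this
    omega
  · have : 2 * s + 1 ≤ 3 * n := by
      have : 2 * (s : ℝ) + 1 ≤ 3 * n := by linarith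
      exact_mod_cast this
    omega

theorem poincare : ∃ C t0 : ℝ, 0 < C ∧ 0 < t0 ∧ ∀ {n : ℕ} {X S Cl : Finset ℕ} {e t : ℝ}
    {k : ℕ → ℕ → ℝ} {π m : ℕ → ℝ}, Ker n X S Cl t k π → Mass n X Cl e t π m → 0 < e → e ≤ 1 →
    0 < t → t ≤ t0 → 1000 ≤ n → 10 ≤ t * n →
    ∀ b g : ℕ → ℝ, (∀ x, 0 ≤ b x) → (∀ s, 0 ≤ g s) →
    ∃ B G : ℝ, 0 ≤ B ∧ 0 ≤ G ∧
      (∑ x ∈ X, |b x - B|) + (∑ s ∈ S, |g s - G|) ≤
        C / e * (D1 X (X ∪ Cl) k m g + D2 X (X ∪ Cl) k m b g) := by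
  obtain ⟨C0, hC0, hmain⟩ := g_main
  refine ⟨10 ^ 6 * C0 + 10 ^ 12, 1 / 10 ^ 10, by positivity, by positivity, ?_⟩
  intro n X S Cl e t k π m hk hm he he1 ht0 ht hn htn b g hb hg
  have ht' : t ≤ 1 / 1000 := ht.trans (by norm_num)
  have hn' : (1000 : ℝ) ≤ n := by exact_mod_cast hn
  have hn0 : (0 : ℝ) < n := by linarith
  obtain ⟨G, Sc, hG, hScS, hSccard, hSc⟩ := hmain hk hm he ht0 ht' hn g hg
  -- sets
  set H1 := h32hub n X (6 / 10) (7 / 10) with hH1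
  set H2 := h32hub n X (3 / 10) (4 / 10) with hH2
  set I1 := X.filter fun z : ℕ => (z : ℝ) ≤ 75 / 100 * n with hI1
  set I2 := X.filter fun z : ℕ => 25 / 100 * (n : ℝ) ≤ z with hI2
  set Sh1 := (S \ Sc).filter fun s : ℕ => 71 / 100 * (n : ℝ) ≤ s with hSh1
  set Sh2 := (S \ Sc).filter fun s : ℕ => ¬ 71 / 100 * (n : ℝ) ≤ s with hSh2
  have mH1 : ∀ y ∈ H1, y ∈ X ∧ 6 / 10 * (n : ℝ) ≤ y ∧ (y : ℝ) ≤ 7 / 10 * n := by
    intro y hy
    have := Finset.mem_filter.mp hy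
    exact ⟨this.1, this.2.1, this.2.2⟩
  have mH2 : ∀ y ∈ H2, y ∈ X ∧ 3 / 10 * (n : ℝ) ≤ y ∧ (y : ℝ) ≤ 4 / 10 * n := by
    intro y hy
    have := Finset.mem_filter.mp hy
    exact ⟨this.1, this.2.1, this.2.2⟩
  have mX : ∀ x ∈ X, (1 : ℝ) ≤ x ∧ (x : ℝ) ≤ n := by
    intro x hx
    have := Finset.mem_Icc.mp (hk.X_sub hx)
    exact ⟨by exact_mod_cast this.1, by exact_mod_cast this.2⟩
  have mS : ∀ s ∈ S, (n : ℝ) / 2 + 1 ≤ s ∧ (s : ℝ) ≤ 3 / 2 * n := by
    intro s hs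
    have h1 := Finset.mem_Icc.mp (hk.S_sub hs)
    have h2 : n + 2 ≤ 2 * s := by omega
    have h3 : 2 * s ≤ 3 * n := by omega
    have h2' : (n : ℝ) + 2 ≤ 2 * s := by exact_mod_cast h2
    have h3' : 2 * (s : ℝ) ≤ 3 * n := by exact_mod_cast h3
    constructor <;> linarith
  have hX1 : H1 ⊆ X := Finset.filter_subset _ _
  have hX2 : H2 ⊆ X := Finset.filter_subset _ _
  have hXI1 : I1 ⊆ X := Finset.filter_subset _ _
  have hXI2 : I2 ⊆ X := Finset.filter_subset _ _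
  have hXn : X.card ≤ n := by
    have : X.card ≤ (Icc 1 n).card := Finset.card_le_card hk.X_sub
    rw [Nat.card_Icc] at this
    omega
  obtain ⟨c11, c12, c13, c14⟩ := h32_counts hk hm he ht0 ht' hn (a := 6 / 10) (b := 7 / 10)
    (by norm_num) (by norm_num) (by norm_num) (by linarith) I1 Sh1
    (by
      intro z hz y hy
      have h1 := mH1 y hy
      have h2 := Finset.mem_filter.mp hz
      have h3 := mX z h2.1
      apply h32_win
      · push_cast; linarith [h1.2.1]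
      · push_cast; linarith [h1.2.2, h2.2])
    (by
      intro z hz y hy
      have h1 := mH1 y hy
      have h2 := mH1 z hz
      apply h32_win
      · push_cast; linarith [h1.2.1, h2.2.1]
      · push_cast; linarith [h1.2.2, h2.2.2])
    (by
      intro s hs y hy
      have h1 := mH1 y hy
      have h2 := Finset.mem_filter.mp hs
      have h3 := mS s (Finset.mem_sdiff.mp h2.1).1
      have h4 : (y : ℝ) < s := by linarith [h1.2.2, h2.2]
      have h5 : y < s := by exact_mod_cast h4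
      refine ⟨h5, ?_⟩
      have h6 : (s : ℝ) ≤ n + y := by linarith [h1.2.1, h3.2]
      have h7 : s ≤ n + y := by exact_mod_cast h6
      omega)
  obtain ⟨c21, c22, c23, c24⟩ := h32_counts hk hm he ht0 ht' hn (a := 3 / 10) (b := 4 / 10)
    (by norm_num) (by norm_num) (by norm_num) (by linarith) I2 Sh2
    (by
      intro z hz y hy
      have h1 := mH2 y hy
      have h2 := Finset.mem_filter.mp hz
      have h3 := mX z h2.1
      apply h32_win
      · push_cast; linarith [h1.2.1, h2.2]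
      · push_cast; linarith [h1.2.2, h3.2])
    (by
      intro z hz y hy
      have h1 := mH2 y hy
      have h2 := mH2 z hz
      apply h32_win
      · push_cast; linarith [h1.2.1, h2.2.1]
      · push_cast; linarith [h1.2.2, h2.2.2])
    (by
      intro s hs y hy
      have h1 := mH2 y hy
      have h2 := Finset.mem_filter.mp hs
      have h3 := mS s (Finset.mem_sdiff.mp h2.1).1
      have h2' := not_le.mp h2.2
      have h4 : (y : ℝ) < s := by linarith [h1.2.2, h3.1]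
      have h5 : y < s := by exact_mod_cast h4
      refine ⟨h5, ?_⟩
      have h6 : (s : ℝ) ≤ n + y := by linarith [h1.2.1]
      have h7 : s ≤ n + y := by exact_mod_cast h6
      omega)
  set Y1 := h32Y n X (X ∪ Cl) (6 / 10) (7 / 10) k m with hY1
  set Y2 := h32Y n X (X ∪ Cl) (3 / 10) (4 / 10) k m with hY2
  have hYH1 : Y1 ⊆ H1 := Finset.filter_subset _ _
  have hYH2 : Y2 ⊆ H2 := Finset.filter_subset _ _
  set D1v := D1 X (X ∪ Cl) k m g with hD1v
  set D2v := D2 X (X ∪ Cl) k m b g with hD2v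
  have hD1 : 0 ≤ D1v := h32_D1_nonneg hk hm g
  have hD2 : 0 ≤ D2v := h32_D2_nonneg hk hm b g
  have hU1 := h32_U hk hm he hn Y1 (hYH1.trans hX1)
    (by
      intro y hy
      have h1 := mH1 y (hYH1 hy)
      rw [abs_of_nonneg (by linarith [h1.2.1])]
      linarith [h1.2.1])
    (fun y hy => (Finset.mem_filter.mp hy).2) b g
  have hU2 := h32_U hk hm he hn Y2 (hYH2.trans hX2)
    (by
      intro y hy
      have h1 := mH2 y (hYH2 hy)
      rw [abs_of_nonpos (by linarith [h1.2.2])]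
      linarith [h1.2.2])
    (fun y hy => (Finset.mem_filter.mp hy).2) b g
  have hcH1 : H1.card ≤ n := (Finset.card_le_card hX1).trans hXn
  have hcH2 : H2.card ≤ n := (Finset.card_le_card hX2).trans hXn
  have hcY1 : Y1.card ≤ n := (Finset.card_le_card hYH1).trans hcH1
  have hcY2 : Y2.card ≤ n := (Finset.card_le_card hYH2).trans hcH2
  have hcI1 : I1.card ≤ n := (Finset.card_le_card hXI1).trans hXn
  have hcI2 : I2.card ≤ n := (Finset.card_le_card hXI2).trans hXn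
  have hA1 := h32_lemA (S := S) Y1 H1 I1 b g G hcY1 hcH1 hcI1 hXI1 hX1 c12
  have hA2 := h32_lemA (S := S) Y2 H2 I2 b g G hcY2 hcH2 hcI2 hXI2 hX2 c22
  -- labels
  obtain ⟨z0, hz0, hlab⟩ := dg2 n (by omega) I1 I2 H1 H2
    (by
      intro y hy
      have h1 := mH1 y hy
      exact Finset.mem_filter.mpr ⟨h1.1, by linarith [h1.2.2]⟩)
    (by
      intro y hy
      have h1 := mH1 y hy
      exact Finset.mem_filter.mpr ⟨h1.1, by linarith [h1.2.1]⟩)
    (by
      intro y hy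
      have h1 := mH2 y hy
      exact Finset.mem_filter.mpr ⟨h1.1, by linarith [h1.2.1]⟩)
    hcI1 hcI2 c11 c21 b (fun _ _ => True) (fun _ _ _ => trivial)
    (by intro i _; simp) (by intro i _; simp)
  have hIX : I1 ∪ I2 = X := by
    ext x
    rw [Finset.mem_union, hI1, hI2, Finset.mem_filter, Finset.mem_filter]
    constructor
    · rintro (h | h)
      · exact h.1
      · exact h.1
    · intro hx
      by_cases h : (x : ℝ) ≤ 75 / 100 * n
      · exact Or.inl ⟨hx, h⟩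
      · exact Or.inr ⟨hx, by linarith⟩
  rw [hIX] at hlab
  simp only [Finset.filter_true] at hlab
  set B := b z0 with hB
  have hB1 := h32_lemB (n := n) (X := X) (S := S) Y1 H1 Sh1 b g B G (by omega) hcY1 hcH1 hX1
    ((Finset.filter_subset _ _).trans Finset.sdiff_subset) c13 c14
  have hB2 := h32_lemB (n := n) (X := X) (S := S) Y2 H2 Sh2 b g B G (by omega) hcY2 hcH2 hX2
    ((Finset.filter_subset _ _).trans Finset.sdiff_subset) c23 c24
  refine ⟨B, G, hb z0, hG, ?_⟩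
  set Dl := ∑ x ∈ X, |b x - B| with hDl
  set Ds := ∑ s ∈ S, |g s - G| with hDs
  have hDl0 : 0 ≤ Dl := Finset.sum_nonneg fun _ _ => abs_nonneg _
  have hDs0 : 0 ≤ Ds := Finset.sum_nonneg fun _ _ => abs_nonneg _
  set P := D2v / e with hP
  have hP0 : 0 ≤ P := div_nonneg hD2 he.le
  set Q := C0 / e * D1v with hQ
  have hQ0 : 0 ≤ Q := by positivity
  have hn2 : (0 : ℝ) < (n : ℝ) ^ 2 := by positivity
  have eU : 800 * (n : ℝ) ^ 2 / e * D2v = 800 * (n : ℝ) ^ 2 * P := by rw [hP]; ring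
  rw [eU] at hU1 hU2
  -- labels
  have key1 : ∀ A U : ℝ, (n : ℝ) / 20 * A ≤ U + 2 * (n : ℝ) ^ 2 * Ds → U ≤ 800 * (n : ℝ) ^ 2 * P →
      4000 / (n : ℝ) * A ≤ 64000000 * P + 160000 * Ds := by
    intro A U h1 h2
    have h3 : (n : ℝ) / 20 * A ≤ (n : ℝ) ^ 2 * (800 * P + 2 * Ds) := by linarith
    have h4 : 4000 / (n : ℝ) * A = 80000 / (n : ℝ) ^ 2 * ((n : ℝ) / 20 * A) := by
      field_simp
      ring
    rw [h4]
    calc 80000 / (n : ℝ) ^ 2 * ((n : ℝ) / 20 * A)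
        ≤ 80000 / (n : ℝ) ^ 2 * ((n : ℝ) ^ 2 * (800 * P + 2 * Ds)) :=
          mul_le_mul_of_nonneg_left h3 (by positivity)
      _ = 80000 * (800 * P + 2 * Ds) := by field_simp
      _ = 64000000 * P + 160000 * Ds := by ring
  have k1 := key1 _ _ hA1 hU1
  have k2 := key1 _ _ hA2 hU2
  rw [mul_add] at hlab
  have hDl1 : Dl ≤ 128000000 * P + 320000 * Ds := by linarith
  -- sums
  have hcSh : ∀ A ⊆ S \ Sc, (A.card : ℝ) ≤ 4 * t * n := by
    intro A hA
    have h1 : (A.card : ℝ) ≤ ((S \ Sc).card : ℝ) := by exact_mod_cast Finset.card_le_card hA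
    linarith
  have key2 : ∀ E U c : ℝ, ((n : ℝ) / 20) ^ 2 * E ≤ U + c * n * (2 * Dl + Ds) →
      U ≤ 800 * (n : ℝ) ^ 2 * P → c ≤ 4 * t * n → E ≤ 320000 * P + 1600 * t * (2 * Dl + Ds) := by
    intro E U c h1 h2 h3
    have h4 : c * n * (2 * Dl + Ds) ≤ 4 * t * n * n * (2 * Dl + Ds) := by
      apply mul_le_mul_of_nonneg_right _ (by positivity)
      exact mul_le_mul_of_nonneg_right h3 hn0.le
    have h5 : ((n : ℝ) / 20) ^ 2 * E ≤
        ((n : ℝ) / 20) ^ 2 * (320000 * P + 1600 * t * (2 * Dl + Ds)) := by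
      calc ((n : ℝ) / 20) ^ 2 * E ≤ 800 * (n : ℝ) ^ 2 * P + 4 * t * n * n * (2 * Dl + Ds) := by
            linarith
        _ = _ := by ring
    exact le_of_mul_le_mul_left h5 (by positivity)
  have k3 := key2 _ _ _ hB1 hU1 (hcSh Sh1 (Finset.filter_subset _ _))
  have k4 := key2 _ _ _ hB2 hU2 (hcSh Sh2 (Finset.filter_subset _ _))
  have hDsplit : Ds = ∑ s ∈ Sc, |g s - G| + (∑ s ∈ Sh1, |g s - G| + ∑ s ∈ Sh2, |g s - G|) := by
    have h1 := Finset.sum_sdiff (f := fun s => |g s - G|) hScS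
    have h2 := Finset.sum_filter_add_sum_filter_not (S \ Sc)
      (fun s : ℕ => 71 / 100 * (n : ℝ) ≤ s) (fun s => |g s - G|)
    rw [hDs, ← h1, ← h2]
    ring
  have hDs1 : Ds ≤ Q + 640000 * P + 3200 * t * (2 * Dl + Ds) := by
    have e1 : 3200 * t * (2 * Dl + Ds) = 1600 * t * (2 * Dl + Ds) + 1600 * t * (2 * Dl + Ds) := by
      ring
    rw [e1]
    linarith
  have h2Dl : 2 * Dl + Ds ≤ 256000000 * P + 640001 * Ds := by linarith
  have ht3 : 3200 * t ≤ 32 / 10 ^ 8 := by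
    have : t ≤ 1 / 10 ^ 10 := ht
    linarith
  have h3 : 3200 * t * (2 * Dl + Ds) ≤ 32 / 10 ^ 8 * (256000000 * P + 640001 * Ds) := by
    apply mul_le_mul ht3 h2Dl (by positivity) (by norm_num)
  have hDs2 : Ds ≤ 2 * Q + 2000000 * P := by
    have : Ds ≤ Q + 640000 * P + 32 / 10 ^ 8 * (256000000 * P + 640001 * Ds) := by linarith
    linarith
  calc Dl + Ds ≤ 10 ^ 6 * Q + 10 ^ 12 * P := by linarith
    _ ≤ (10 ^ 6 * C0 + 10 ^ 12) / e * (D1v + D2v) := by
      have e1 : (10 ^ 6 * C0 + 10 ^ 12) / e * (D1v + D2v) =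
          10 ^ 6 * (C0 / e * D1v) + 10 ^ 12 * (D2v / e) + (10 ^ 6 * C0 / e * D2v +
            10 ^ 12 / e * D1v) := by ring
      rw [e1]
      have h4 : 0 ≤ 10 ^ 6 * C0 / e * D2v := by positivity
      have h5 : 0 ≤ 10 ^ 12 / e * D1v := by positivity
      linarith

end Pool.Agent.SEM
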