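import Pool.Agent.Helper73.SEM.LPD

/-!
# SEM-LP4: gain by resampling

Proof in words.  For triples `ω = (c,y,z)` let `κ(ω,ω') = ½ κ₁ + ½ κ₂` with `κ₁((c,y,z),(c,z,y)) = min(q0 c y z, q0 c z y)` and
`κ₂((c,y,z),(c,y,z')) = m c k c y k y z k y z'`; both are symmetric with row sums `≤ q0 ω` (`∑_{z'} k y z' = 1`).
`q ω = q0 ω + ∑_{ω'} κ(ω,ω') sgn(H ω' - H ω)` (mass moves from the larger to the smaller cost `H = HH b g`).  Then `0 ≤ q ≤ 2 q0`, sums over `(y,z)`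
are preserved for every `c`, and `∑ (q0 - q) H = ½ ∑ κ(ω,ω') |H ω - H ω'| = ¼ (D1 + D2)`, because
`H(c,y,z) - H(c,z,y) = g(c+y) - g(c+z)` and `H(c,y,z) - H(c,y,z') = b z + g(y+z) - b z' - g(y+z')`.
(One may also take `q = (q₁+q₂)/2` with the two kinds of moves separately, each of gain `½ D_i`; `q₁ c y z = q0 + sgn(..) min(..)` etc.)
-/

set_option autoImplicit false

namespace Pool.Agent.SEM

open Finset

/-- real sign function -/
private noncomputable def sg16 (x : ℝ) : ℝ := if 0 < x then 1 else if x < 0 then -1 else 0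

private theorem sg16_neg (x : ℝ) : sg16 (-x) = - sg16 x := by
  unfold sg16
  rcases lt_trichotomy x 0 with h | h | h
  · have h1 : 0 < -x := by linarith
    have h2 : ¬ 0 < x := by linarith
    simp [h, h1, h2]
  · subst h; simp
  · have h1 : ¬ 0 < -x := by linarith
    have h2 : -x < 0 := by linarith
    simp [h, h1]

private theorem sg16_mul (x : ℝ) : sg16 x * x = |x| := by
  unfold sg16
  rcases lt_trichotomy x 0 with h | h | h
  · have h2 : ¬ 0 < x := by linarith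
    simp [h, h2, abs_of_neg h]
  · subst h; simp
  · simp [h, abs_of_pos h]

private theorem sg16_abs (x : ℝ) : |sg16 x| ≤ 1 := by
  unfold sg16
  split_ifs <;> simp

private theorem sg16_lo (x : ℝ) : -1 ≤ sg16 x := (abs_le.mp (sg16_abs x)).1

private theorem sg16_hi (x : ℝ) : sg16 x ≤ 1 := (abs_le.mp (sg16_abs x)).2

private theorem anti0_h16 (X : Finset ℕ) (w A : ℕ → ℕ → ℝ) (hw : ∀ y z, w y z = w z y) :
    ∑ y ∈ X, ∑ z ∈ X, w y z * sg16 (A z y - A y z) = 0 := by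
  have h1 : ∑ y ∈ X, ∑ z ∈ X, w y z * sg16 (A z y - A y z)
      = - ∑ y ∈ X, ∑ z ∈ X, w y z * sg16 (A z y - A y z) := by
    conv_lhs => rw [Finset.sum_comm]
    rw [← Finset.sum_neg_distrib]
    refine Finset.sum_congr rfl (fun y _ => ?_)
    rw [← Finset.sum_neg_distrib]
    refine Finset.sum_congr rfl (fun z _ => ?_)
    rw [hw z y, show A y z - A z y = -(A z y - A y z) by ring, sg16_neg]
    ring
  linarith

private theorem anti1_h16 (X : Finset ℕ) (w A : ℕ → ℕ → ℝ) (hw : ∀ y z, w y z = w z y) :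
    ∑ y ∈ X, ∑ z ∈ X, w y z * sg16 (A z y - A y z) * A y z
      = - (1 / 2) * ∑ y ∈ X, ∑ z ∈ X, w y z * |A z y - A y z| := by
  have h1 : ∑ y ∈ X, ∑ z ∈ X, w y z * sg16 (A z y - A y z) * A y z
      = ∑ y ∈ X, ∑ z ∈ X, - (w y z * sg16 (A z y - A y z) * A z y) := by
    conv_lhs => rw [Finset.sum_comm]
    refine Finset.sum_congr rfl (fun y _ => ?_)
    refine Finset.sum_congr rfl (fun z _ => ?_)
    rw [hw z y, show A y z - A z y = -(A z y - A y z) by ring, sg16_neg]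
    ring
  have h2 : ∑ y ∈ X, ∑ z ∈ X, w y z * sg16 (A z y - A y z) * A y z
      + ∑ y ∈ X, ∑ z ∈ X, - (w y z * sg16 (A z y - A y z) * A z y)
      = - ∑ y ∈ X, ∑ z ∈ X, w y z * |A z y - A y z| := by
    rw [← Finset.sum_add_distrib, ← Finset.sum_neg_distrib]
    refine Finset.sum_congr rfl (fun y _ => ?_)
    rw [← Finset.sum_add_distrib, ← Finset.sum_neg_distrib]
    refine Finset.sum_congr rfl (fun z _ => ?_)
    rw [← sg16_mul]
    ring
  linarith

private theorem q0_nn_h16 {n : ℕ} {X S Cl : Finset ℕ} {t : ℝ} {k : ℕ → ℕ → ℝ} {π m : ℕ → ℝ}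
    (hk : Ker n X S Cl t k π) (hm : ∀ c, 0 ≤ m c) (c y z : ℕ) : 0 ≤ q0 m k c y z :=
  mul_nonneg (mul_nonneg (hm c) (hk.nn c y)) (hk.nn y z)

private theorem q0_sum_h16 {n : ℕ} {X S Cl : Finset ℕ} {t : ℝ} {k : ℕ → ℕ → ℝ} {π m : ℕ → ℝ}
    (hk : Ker n X S Cl t k π) (c : ℕ) (hc : c ∈ X ∪ Cl) :
    ∑ y ∈ X, ∑ z ∈ X, q0 m k c y z = m c := by
  have h1 : ∀ y ∈ X, ∑ z ∈ X, q0 m k c y z = m c * k c y := by
    intro y hy
    unfold q0
    rw [← Finset.mul_sum, hk.one y (Finset.mem_union_left _ hy), mul_one]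
  rw [Finset.sum_congr rfl h1, ← Finset.mul_sum, hk.one c hc, mul_one]

/-- the first kind of moves -/
private noncomputable def e1_h16 (m : ℕ → ℝ) (k : ℕ → ℕ → ℝ) (b g : ℕ → ℝ) (c y z : ℕ) : ℝ :=
  min (q0 m k c y z) (q0 m k c z y) * sg16 (HH b g c z y - HH b g c y z)

/-- the second kind of moves -/
private noncomputable def e2_h16 (X : Finset ℕ) (m : ℕ → ℝ) (k : ℕ → ℕ → ℝ) (b g : ℕ → ℝ) (c y z : ℕ) : ℝ :=
  ∑ z' ∈ X, m c * k c y * k y z * k y z' * sg16 (HH b g c y z' - HH b g c y z)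

private theorem e1_abs_h16 {n : ℕ} {X S Cl : Finset ℕ} {t : ℝ} {k : ℕ → ℕ → ℝ} {π m : ℕ → ℝ}
    (hk : Ker n X S Cl t k π) (hm : ∀ c, 0 ≤ m c) (b g : ℕ → ℝ) (c y z : ℕ) :
    |e1_h16 m k b g c y z| ≤ q0 m k c y z := by
  unfold e1_h16
  rw [abs_mul, abs_of_nonneg (le_min (q0_nn_h16 hk hm c y z) (q0_nn_h16 hk hm c z y))]
  calc min (q0 m k c y z) (q0 m k c z y) * |sg16 (HH b g c z y - HH b g c y z)|
      ≤ q0 m k c y z * 1 := by
        refine mul_le_mul (min_le_left _ _) (sg16_abs _) (abs_nonneg _) (q0_nn_h16 hk hm c y z)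
    _ = q0 m k c y z := mul_one _

private theorem e2_abs_h16 {n : ℕ} {X S Cl : Finset ℕ} {t : ℝ} {k : ℕ → ℕ → ℝ} {π m : ℕ → ℝ}
    (hk : Ker n X S Cl t k π) (hm : ∀ c, 0 ≤ m c) (b g : ℕ → ℝ) (c y z : ℕ) :
    |e2_h16 X m k b g c y z| ≤ q0 m k c y z := by
  by_cases hy : y ∈ X
  · unfold e2_h16
    calc |∑ z' ∈ X, m c * k c y * k y z * k y z' * sg16 (HH b g c y z' - HH b g c y z)|
        ≤ ∑ z' ∈ X, |m c * k c y * k y z * k y z' * sg16 (HH b g c y z' - HH b g c y z)| :=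
          Finset.abs_sum_le_sum_abs _ _
      _ ≤ ∑ z' ∈ X, q0 m k c y z * k y z' := by
          refine Finset.sum_le_sum (fun z' _ => ?_)
          have h0 : 0 ≤ m c * k c y * k y z * k y z' :=
            mul_nonneg (q0_nn_h16 hk hm c y z) (hk.nn y z')
          rw [abs_mul, abs_of_nonneg h0]
          calc m c * k c y * k y z * k y z' * |sg16 (HH b g c y z' - HH b g c y z)|
              ≤ m c * k c y * k y z * k y z' * 1 := mul_le_mul_of_nonneg_left (sg16_abs _) h0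
            _ = q0 m k c y z * k y z' := by unfold q0; ring
      _ = q0 m k c y z := by
          rw [← Finset.mul_sum, hk.one y (Finset.mem_union_left _ hy), mul_one]
  · have h0 : k c y = 0 := by
      by_contra h
      exact hy (hk.supp c y h).1
    have h1 : e2_h16 X m k b g c y z = 0 := by
      unfold e2_h16
      refine Finset.sum_eq_zero (fun z' _ => ?_)
      rw [h0]; ring
    rw [h1, abs_zero]
    exact q0_nn_h16 hk hm c y z

private theorem e1_sum_h16 (X : Finset ℕ) (m : ℕ → ℝ) (k : ℕ → ℕ → ℝ) (b g : ℕ → ℝ) (c : ℕ) :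
    ∑ y ∈ X, ∑ z ∈ X, e1_h16 m k b g c y z = 0 := by
  exact anti0_h16 X (fun y z => min (q0 m k c y z) (q0 m k c z y)) (fun y z => HH b g c y z)
    (fun y z => min_comm _ _)

private theorem e2_sum_h16 (X : Finset ℕ) (m : ℕ → ℝ) (k : ℕ → ℕ → ℝ) (b g : ℕ → ℝ) (c : ℕ) :
    ∑ y ∈ X, ∑ z ∈ X, e2_h16 X m k b g c y z = 0 := by
  refine Finset.sum_eq_zero (fun y _ => ?_)
  exact anti0_h16 X (fun z z' => m c * k c y * k y z * k y z') (fun z _ => HH b g c y z)
    (fun z z' => by ring)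

private theorem e1_gain_h16 (X : Finset ℕ) (m : ℕ → ℝ) (k : ℕ → ℕ → ℝ) (b g : ℕ → ℝ) (c : ℕ) :
    ∑ y ∈ X, ∑ z ∈ X, e1_h16 m k b g c y z * HH b g c y z
      = - (1 / 2) * ∑ y ∈ X, ∑ z ∈ X, min (q0 m k c y z) (q0 m k c z y) * |g (c + y) - g (c + z)| := by
  have h := anti1_h16 X (fun y z => min (q0 m k c y z) (q0 m k c z y)) (fun y z => HH b g c y z)
    (fun y z => min_comm _ _)
  have h2 : ∀ y z, |HH b g c z y - HH b g c y z| = |g (c + y) - g (c + z)| := by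
    intro y z
    rw [abs_sub_comm]
    congr 1
    unfold HH
    rw [Nat.add_comm z y]
    ring
  simp only [h2] at h
  exact h

private theorem e2_gain_h16 (X : Finset ℕ) (m : ℕ → ℝ) (k : ℕ → ℕ → ℝ) (b g : ℕ → ℝ) (c : ℕ) :
    ∑ y ∈ X, ∑ z ∈ X, e2_h16 X m k b g c y z * HH b g c y z
      = - (1 / 2) * ∑ y ∈ X, ∑ z ∈ X, ∑ z' ∈ X,
        m c * k c y * k y z * k y z' * |b z + g (y + z) - b z' - g (y + z')| := by
  rw [Finset.mul_sum]
  refine Finset.sum_congr rfl (fun y _ => ?_)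
  have h := anti1_h16 X (fun z z' => m c * k c y * k y z * k y z') (fun z _ => HH b g c y z)
    (fun z z' => by ring)
  have h2 : ∀ z z', |HH b g c y z' - HH b g c y z| = |b z + g (y + z) - b z' - g (y + z')| := by
    intro z z'
    rw [abs_sub_comm]
    congr 1
    unfold HH
    ring
  simp only [h2] at h
  rw [← h]
  refine Finset.sum_congr rfl (fun z _ => ?_)
  unfold e2_h16
  rw [Finset.sum_mul]

theorem gain1 {n : ℕ} {X S Cl : Finset ℕ} {t : ℝ} {k : ℕ → ℕ → ℝ} {π m : ℕ → ℝ}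
    (hk : Ker n X S Cl t k π) (hm : ∀ c, 0 ≤ m c) (hms : ∀ c, m c ≠ 0 → c ∈ X ∪ Cl)
    (b g : ℕ → ℝ) :
    ∃ q : ℕ → ℕ → ℕ → ℝ, (∀ c y z, 0 ≤ q c y z ∧ q c y z ≤ 2 * q0 m k c y z) ∧
      (∀ c ∈ X ∪ Cl, ∑ y ∈ X, ∑ z ∈ X, q c y z = m c) ∧
      1 / 4 * (D1 X (X ∪ Cl) k m g + D2 X (X ∪ Cl) k m b g) ≤
        ∑ c ∈ X ∪ Cl, ∑ y ∈ X, ∑ z ∈ X, (q0 m k c y z - q c y z) * HH b g c y z := by
  refine ⟨fun c y z => q0 m k c y z + 1 / 2 * (e1_h16 m k b g c y z + e2_h16 X m k b g c y z),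
    ?_, ?_, ?_⟩
  · intro c y z
    have h1 := abs_le.mp (e1_abs_h16 hk hm b g c y z)
    have h2 := abs_le.mp (e2_abs_h16 hk hm b g c y z)
    have h3 := q0_nn_h16 hk hm c y z
    constructor
    · linarith [h1.1, h2.1]
    · linarith [h1.2, h2.2]
  · intro c hc
    simp only [Finset.sum_add_distrib, ← Finset.mul_sum]
    rw [q0_sum_h16 hk c hc, e1_sum_h16, e2_sum_h16]
    ring
  · have hterm : ∀ c ∈ X ∪ Cl, ∑ y ∈ X, ∑ z ∈ X,
        (q0 m k c y z - (q0 m k c y z + 1 / 2 * (e1_h16 m k b g c y z + e2_h16 X m k b g c y z)))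
          * HH b g c y z
        = 1 / 4 * (∑ y ∈ X, ∑ z ∈ X, min (q0 m k c y z) (q0 m k c z y) * |g (c + y) - g (c + z)|)
          + 1 / 4 * (∑ y ∈ X, ∑ z ∈ X, ∑ z' ∈ X,
        m c * k c y * k y z * k y z' * |b z + g (y + z) - b z' - g (y + z')|) := by
      intro c _
      have h1 := e1_gain_h16 X m k b g c
      have h2 := e2_gain_h16 X m k b g c
      have h3 : ∑ y ∈ X, ∑ z ∈ X,
        (q0 m k c y z - (q0 m k c y z + 1 / 2 * (e1_h16 m k b g c y z + e2_h16 X m k b g c y z)))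
          * HH b g c y z
          = - (1 / 2) * (∑ y ∈ X, ∑ z ∈ X, e1_h16 m k b g c y z * HH b g c y z)
            + - (1 / 2) * (∑ y ∈ X, ∑ z ∈ X, e2_h16 X m k b g c y z * HH b g c y z) := by
        rw [Finset.mul_sum, Finset.mul_sum, ← Finset.sum_add_distrib]
        refine Finset.sum_congr rfl (fun y _ => ?_)
        rw [Finset.mul_sum, Finset.mul_sum, ← Finset.sum_add_distrib]
        refine Finset.sum_congr rfl (fun z _ => ?_)
        ring
      rw [h3, h1, h2]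
      ring
    rw [Finset.sum_congr rfl hterm, Finset.sum_add_distrib, ← Finset.mul_sum, ← Finset.mul_sum]
    unfold D1 D2
    linarith

end Pool.Agent.SEM
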