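import Pool.Agent.Helper73.SEM.LP3

/-!
# SEM-LP5: moving mass onto deficient labels and sums

Proof in words.  `N = ∑ m ≥ e n`, `yg = {y ∈ X : N/(2n) ≤ QY y}`.  For `x ∈ X`:
`lamX x = ∑_{y ∈ X} QY y k y x ≥ (N/2n)(4/5 - |X \ yg| 3/n) ≥ N/(4n)` (`Ker.col`, `yg_big`); for `s ∈ S`:
`lamS s = ∑_{y ∈ X, y ≤ s} QY y k y (s-y) ≥ N/(4n)` (`Ker.colS`).
For `x` and `(c,y)`: `T x c y = uX x * m c * k c y * k y x / lamX x`; for `s`: `T' s c y = uS s * m c * k c y * k y (s-y)/lamS s` (`y ≤ s`).  Then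
`∑_{c,y} T x c y = uX x` and `∑_{c,y} T' s c y = uS s`.
`q c y z = q0 c y z + T z c y + T' (y+z) c y - k y z (∑_{x} T x c y + ∑_s T' s c y)`  (for `y, z ∈ X`, `y+z ∈ S`; `0` elsewhere).
The sum over `(y,z)` is unchanged; the removed part is at most `q0 c y z * (8/e)(3/n)(|Ux| + |Us|) ≤ q0 c y z * 24 r/e ≤ q0 c y z`; the added part
is at most `(16/e) q0 c y z`.
Gain: `∑ (q0 - q) H = ∑_x ∑_{c,y} T x c y [∑_z k y z (b z + g(y+z)) - b x - g(y+x)] + (same for s with b(s-y) + g s)`; write `b z = B + (b z - B)` etc.: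
`≥ ∑_x uX x (B - b x) - ∑_x ∑_y (∑_c T x c y) [∑_z k y z (|b z - B| + |g(y+z) - G|) + |g(y+x) - G|]`, and
`∑_c T x c y ≤ (2/(N/4n)) (2N/n)(3/n) = 48/n`; `∑_y ∑_z k y z |b z - B| ≤ 3 Dl`, `∑_y ∑_z k y z |g(y+z)-G| ≤ 3 Ds`,
`∑_y |g(y+x) - G| ≤ Ds` (only `y` with `k y x ≠ 0`, i.e. `y + x ∈ S`).  Same for the sums.  Total error
`≤ 48 r (4 Dl + 4 Ds)`.
-/

set_option autoImplicit false

namespace Pool.Agent.SEM

open Finset

section aux_h99

variable {X S : Finset ℕ} {k : ℕ → ℕ → ℝ}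

/-- Reindexing by the sum, for a fixed `y`. -/
private theorem rex_h99 (hsupp : ∀ x y, k x y ≠ 0 → y ∈ X ∧ x + y ∈ S) (y : ℕ)
    (h : ℕ → ℕ → ℝ) :
    ∑ z ∈ X, k y z * h z (y + z) = ∑ s ∈ S with y ≤ s, k y (s - y) * h (s - y) s := by
  refine Finset.sum_bij_ne_zero (fun z _ _ => y + z) ?_ ?_ ?_ ?_
  · intro z _ hz
    have h1 := hsupp y z (left_ne_zero_of_mul hz)
    exact Finset.mem_filter.2 ⟨h1.2, Nat.le_add_right _ _⟩
  · intro a _ _ b _ _ hab
    exact Nat.add_left_cancel hab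
  · intro s hs hz
    have h1 := hsupp y (s - y) (left_ne_zero_of_mul hz)
    have h2 := (Finset.mem_filter.1 hs).2
    refine ⟨s - y, h1.1, ?_, Nat.add_sub_cancel' h2⟩
    rw [Nat.add_sub_cancel' h2]
    exact hz
  · intro z _ _
    rw [Nat.add_sub_cancel_left]

/-- Reindexing by the sum. -/
private theorem rex2_h99 (hsupp : ∀ x y, k x y ≠ 0 → y ∈ X ∧ x + y ∈ S)
    (h : ℕ → ℕ → ℕ → ℝ) :
    ∑ y ∈ X, ∑ z ∈ X, k y z * h y z (y + z) =
      ∑ s ∈ S, ∑ y ∈ X with y ≤ s, k y (s - y) * h y (s - y) s := by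
  rw [Finset.sum_congr rfl fun y _ => rex_h99 hsupp y (h y)]
  refine Finset.sum_comm' fun y s => ?_
  simp only [Finset.mem_filter]
  tauto

/-- Lower bound for weighted sums of `QY`. -/
private theorem lam_h99 {Q w : ℕ → ℝ} {A : Finset ℕ} {n N : ℝ} (hn : 0 < n) (hN : 0 < N)
    (hA : A ⊆ X) (hQ : ∀ y, 0 ≤ Q y) (hw0 : ∀ y, 0 ≤ w y) (hw : ∀ y, w y ≤ 3 / n)
    (hw1 : 4 / 5 ≤ ∑ y ∈ A, w y)
    (hbad : ((X.filter fun y => Q y < N / (2 * n)).card : ℝ) ≤ 6 / 1000 * n) :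
    N / (4 * n) ≤ ∑ y ∈ A, Q y * w y := by
  have h1 : ∀ y ∈ A, N / (2 * n) * (w y - if Q y < N / (2 * n) then 3 / n else 0) ≤
      Q y * w y := by
    intro y _
    by_cases hy : Q y < N / (2 * n)
    · rw [if_pos hy]
      have h2 : N / (2 * n) * (w y - 3 / n) ≤ 0 :=
        mul_nonpos_of_nonneg_of_nonpos (by positivity) (by linarith [hw y])
      exact h2.trans (mul_nonneg (hQ y) (hw0 y))
    · rw [if_neg hy, sub_zero]
      exact mul_le_mul_of_nonneg_right (not_lt.1 hy) (hw0 y)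
  have h2 := Finset.sum_le_sum h1
  rw [← Finset.mul_sum, Finset.sum_sub_distrib, ← Finset.sum_filter, Finset.sum_const,
    nsmul_eq_mul] at h2
  have h3 : ((A.filter fun y => Q y < N / (2 * n)).card : ℝ) ≤ 6 / 1000 * n := by
    refine le_trans ?_ hbad
    exact_mod_cast Finset.card_le_card (Finset.filter_subset_filter _ hA)
  have h4 : ((A.filter fun y => Q y < N / (2 * n)).card : ℝ) * (3 / n) ≤ 18 / 1000 := by
    calc ((A.filter fun y => Q y < N / (2 * n)).card : ℝ) * (3 / n) ≤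
        (6 / 1000 * n) * (3 / n) := mul_le_mul_of_nonneg_right h3 (by positivity)
      _ = 18 / 1000 := by field_simp; norm_num
  refine le_trans ?_ h2
  have h5 : N / (4 * n) = N / (2 * n) * (1 / 2) := by field_simp; norm_num
  rw [h5]
  exact mul_le_mul_of_nonneg_left (by linarith) (by positivity)

/-- Sums of `u / lam`. -/
private theorem sumU_h99 {u lam : ℕ → ℝ} {A : Finset ℕ} {K : ℝ} (hK : 0 < K)
    (hu : ∀ x, 0 ≤ u x ∧ u x ≤ 2) (hl : ∀ x ∈ A, 2 / K ≤ lam x) :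
    (∀ x ∈ A, 0 ≤ u x / lam x ∧ u x / lam x ≤ K) ∧
      ∑ x ∈ A, u x / lam x ≤ K * ((A.filter fun x => u x ≠ 0).card : ℝ) := by
  have h1 : ∀ x ∈ A, 0 ≤ u x / lam x ∧ u x / lam x ≤ K := by
    intro x hx
    have h2 := hl x hx
    have h3 : 0 < lam x := lt_of_lt_of_le (by positivity) h2
    refine ⟨div_nonneg (hu x).1 h3.le, ?_⟩
    rw [div_le_iff₀ h3]
    rw [div_le_iff₀ hK] at h2
    linarith [(hu x).2]
  refine ⟨h1, ?_⟩
  have h2 : ∀ x ∈ A, u x / lam x ≤ if u x ≠ 0 then K else 0 := by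
    intro x hx
    by_cases h : u x = 0
    · rw [h, zero_div, if_neg (by simp)]
    · rw [if_pos h]
      exact (h1 x hx).2
  refine (Finset.sum_le_sum h2).trans_eq ?_
  rw [← Finset.sum_filter, Finset.sum_const, nsmul_eq_mul, mul_comm]

/-- Sums along a translate, first variable. -/
private theorem tr1_h99 {h : ℕ → ℝ} (hh : ∀ s, 0 ≤ h s) {w : ℕ → ℝ} {K : ℝ} (hK : 0 ≤ K)
    (hw : ∀ y, w y ≤ K) (z : ℕ) (hS : ∀ y, w y ≠ 0 → y + z ∈ S) :
    ∑ y ∈ X, w y * h (y + z) ≤ K * ∑ s ∈ S, h s := by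
  have h1 : ∀ y ∈ X, w y * h (y + z) ≤ if y + z ∈ S then K * h (y + z) else 0 := by
    intro y _
    by_cases hy : y + z ∈ S
    · rw [if_pos hy]
      exact mul_le_mul_of_nonneg_right (hw y) (hh _)
    · rw [if_neg hy]
      have : w y = 0 := by
        by_contra h2
        exact hy (hS y h2)
      rw [this, zero_mul]
  refine (Finset.sum_le_sum h1).trans ?_
  rw [← Finset.sum_filter, ← Finset.mul_sum]
  refine mul_le_mul_of_nonneg_left ?_ hK
  have h2 : ∑ y ∈ X with y + z ∈ S, h (y + z) =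
      ∑ s ∈ (X.filter fun y => y + z ∈ S).image (fun y => y + z), h s := by
    rw [Finset.sum_image]
    intro a _ b _ hab
    exact Nat.add_right_cancel hab
  rw [h2]
  refine Finset.sum_le_sum_of_subset_of_nonneg ?_ fun s _ _ => hh s
  intro s hs
  obtain ⟨y, hy, rfl⟩ := Finset.mem_image.1 hs
  exact (Finset.mem_filter.1 hy).2

/-- Sums along a reflection. -/
private theorem tr2_h99 {h : ℕ → ℝ} (hh : ∀ s, 0 ≤ h s) {w : ℕ → ℝ} {K : ℝ} (hK : 0 ≤ K)
    (hw : ∀ y, w y ≤ K) (s : ℕ) (hS : ∀ y, w y ≠ 0 → s - y ∈ X) :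
    ∑ y ∈ X with y ≤ s, w y * h (s - y) ≤ K * ∑ z ∈ X, h z := by
  have h1 : ∀ y ∈ X.filter (fun y => y ≤ s), w y * h (s - y) ≤
      if s - y ∈ X then K * h (s - y) else 0 := by
    intro y _
    by_cases hy : s - y ∈ X
    · rw [if_pos hy]
      exact mul_le_mul_of_nonneg_right (hw y) (hh _)
    · rw [if_neg hy]
      have : w y = 0 := by
        by_contra h2
        exact hy (hS y h2)
      rw [this, zero_mul]
  refine (Finset.sum_le_sum h1).trans ?_
  rw [← Finset.sum_filter, ← Finset.mul_sum]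
  refine mul_le_mul_of_nonneg_left ?_ hK
  have h2 : ∑ y ∈ (X.filter (fun y => y ≤ s)).filter (fun y => s - y ∈ X), h (s - y) =
      ∑ z ∈ ((X.filter (fun y => y ≤ s)).filter (fun y => s - y ∈ X)).image (fun y => s - y),
        h z := by
    rw [Finset.sum_image]
    intro a ha b hb hab
    have h3 := (Finset.mem_filter.1 (Finset.mem_filter.1 ha).1).2
    have h4 := (Finset.mem_filter.1 (Finset.mem_filter.1 hb).1).2
    have h5 : s - a = s - b := hab
    omega
  rw [h2]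
  refine Finset.sum_le_sum_of_subset_of_nonneg ?_ fun s _ _ => hh s
  intro z hz
  obtain ⟨y, hy, rfl⟩ := Finset.mem_image.1 hz
  exact (Finset.mem_filter.1 hy).2

end aux_h99

theorem gain2 {n : ℕ} {X S Cl : Finset ℕ} {e t : ℝ} {k : ℕ → ℕ → ℝ} {π m : ℕ → ℝ}
    (hk : Ker n X S Cl t k π) (hm : Mass n X Cl e t π m) (he : 0 < e) (he1 : e ≤ 1) (ht0 : 0 < t)
    (ht : t ≤ 1 / 1000) (hn : 1000 ≤ n) (b g : ℕ → ℝ) (B G r : ℝ) (hr0 : 0 ≤ r) (hr : r ≤ e / 30)
    (uX uS : ℕ → ℝ) (huX : ∀ x, 0 ≤ uX x ∧ uX x ≤ 2) (huS : ∀ s, 0 ≤ uS s ∧ uS s ≤ 2)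
    (hr1 : ((X.filter fun x => uX x ≠ 0).card : ℝ) + ((S.filter fun s => uS s ≠ 0).card : ℝ) ≤ r * n) :
    ∃ q : ℕ → ℕ → ℕ → ℝ, (∀ c y z, 0 ≤ q c y z ∧ q c y z ≤ (1 + 20 / e) * q0 m k c y z) ∧
      (∀ c ∈ X ∪ Cl, ∑ y ∈ X, ∑ z ∈ X, q c y z = m c) ∧
      (∑ x ∈ X, uX x * (B - b x)) + (∑ s ∈ S, uS s * (G - g s))
          - 200 * r * ((∑ x ∈ X, |b x - B|) + ∑ s ∈ S, |g s - G|) ≤
        ∑ c ∈ X ∪ Cl, ∑ y ∈ X, ∑ z ∈ X, (q0 m k c y z - q c y z) * HH b g c y z := by
  classical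
  have hn0 : (0 : ℝ) < n := by
    have : (1000 : ℝ) ≤ n := by exact_mod_cast hn
    linarith
  obtain ⟨N, hNdef⟩ : ∃ N, N = ∑ c ∈ X ∪ Cl, m c := ⟨_, rfl⟩
  have hN1 : e * n ≤ N := hNdef ▸ hm.lo
  have hN0 : 0 < N := lt_of_lt_of_le (by positivity) hN1
  obtain ⟨Q, hQdef⟩ : ∃ Q : ℕ → ℝ, Q = QY (X ∪ Cl) k m := ⟨_, rfl⟩
  have hQy : ∀ y, Q y = ∑ c ∈ X ∪ Cl, m c * k c y := fun y => by rw [hQdef]; rfl
  have hQ0 : ∀ y, 0 ≤ Q y := fun y => by
    rw [hQy]
    exact Finset.sum_nonneg fun c _ => mul_nonneg (hm.nn c) (hk.nn c y)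
  have hQ1 : ∀ y ∈ X, Q y ≤ 251 / 250 * N / n := by
    intro y hy
    have h1 := QY_le hk hm ht0 ht hn y hy
    rw [← hQdef, ← hNdef] at h1
    refine h1.trans ?_
    exact div_le_div_of_nonneg_right (mul_le_mul_of_nonneg_right (by linarith) hN0.le) hn0.le
  have hbad : ((X.filter fun y => Q y < N / (2 * n)).card : ℝ) ≤ 6 / 1000 * n := by
    have h1 := yg_big hk hm he ht0 ht hn
    rw [← hQdef, ← hNdef] at h1
    refine h1.trans ?_
    have : 6 * t ≤ 6 / 1000 := by linarith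
    exact mul_le_mul_of_nonneg_right this hn0.le
  -- the two normalisations
  obtain ⟨lx, hlx⟩ : ∃ lx : ℕ → ℝ, ∀ x, lx x = ∑ y ∈ X, Q y * k y x := ⟨_, fun _ => rfl⟩
  obtain ⟨ls, hls⟩ : ∃ ls : ℕ → ℝ, ∀ s, ls s = ∑ y ∈ X with y ≤ s, Q y * k y (s - y) :=
    ⟨_, fun _ => rfl⟩
  have hlx1 : ∀ x ∈ X, N / (4 * n) ≤ lx x := fun x hx => by
    rw [hlx]
    exact lam_h99 hn0 hN0 (Finset.Subset.refl X) hQ0 (fun y => hk.nn y x) (fun y => hk.up y x)
      (hk.col x hx) hbad
  have hls1 : ∀ s ∈ S, N / (4 * n) ≤ ls s := fun s hs => by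
    rw [hls]
    exact lam_h99 hn0 hN0 (Finset.filter_subset _ X) hQ0 (fun y => hk.nn y (s - y))
      (fun y => hk.up y (s - y)) (hk.colS s hs) hbad
  obtain ⟨κ, hκ⟩ : ∃ κ : ℝ, κ = 8 * n / N := ⟨_, rfl⟩
  have hκ0 : 0 < κ := by rw [hκ]; positivity
  have hκ2 : 2 / κ = N / (4 * n) := by rw [hκ]; field_simp; norm_num
  have hκe : κ ≤ 8 / e := by
    rw [hκ, div_le_div_iff₀ hN0 he]
    nlinarith
  have hUX := sumU_h99 (lam := lx) (A := X) hκ0 huX (fun x hx => hκ2.trans_le (hlx1 x hx))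
  have hUS := sumU_h99 (lam := ls) (A := S) hκ0 huS (fun s hs => hκ2.trans_le (hls1 s hs))
  obtain ⟨hUX1, hUX2⟩ := hUX
  obtain ⟨hUS1, hUS2⟩ := hUS
  have hlx0 : ∀ x ∈ X, lx x ≠ 0 := fun x hx =>
    (lt_of_lt_of_le (by positivity) (hlx1 x hx)).ne'
  have hls0 : ∀ s ∈ S, ls s ≠ 0 := fun s hs =>
    (lt_of_lt_of_le (by positivity) (hls1 s hs)).ne'
  generalize hA : ((X.filter fun x => uX x ≠ 0).card : ℝ) = cX at *
  generalize hB : ((S.filter fun s => uS s ≠ 0).card : ℝ) = cS at *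
  have hcX : 0 ≤ cX := hA ▸ Nat.cast_nonneg _
  have hcS : 0 ≤ cS := hB ▸ Nat.cast_nonneg _
  obtain ⟨UX, hUXd⟩ : ∃ UX : ℕ → ℝ, ∀ x, UX x = uX x / lx x := ⟨_, fun _ => rfl⟩
  obtain ⟨US, hUSd⟩ : ∃ US : ℕ → ℝ, ∀ s, US s = uS s / ls s := ⟨_, fun _ => rfl⟩
  replace hUX1 : ∀ x ∈ X, 0 ≤ UX x ∧ UX x ≤ κ := fun x hx => by
    rw [hUXd]; exact hUX1 x hx
  replace hUS1 : ∀ s ∈ S, 0 ≤ US s ∧ US s ≤ κ := fun s hs => by
    rw [hUSd]; exact hUS1 s hs
  replace hUX2 : ∑ x ∈ X, UX x ≤ κ * cX := by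
    rw [Finset.sum_congr rfl fun x _ => hUXd x]; exact hUX2
  replace hUS2 : ∑ s ∈ S, US s ≤ κ * cS := by
    rw [Finset.sum_congr rfl fun s _ => hUSd s]; exact hUS2
  obtain ⟨a, ha⟩ : ∃ a : ℕ → ℕ → ℝ, ∀ y z, a y z = UX z + US (y + z) := ⟨_, fun _ _ => rfl⟩
  obtain ⟨ρ, hρ⟩ : ∃ ρ : ℕ → ℝ, ∀ y, ρ y = ∑ z ∈ X, k y z * a y z := ⟨_, fun _ => rfl⟩
  have hup0 : (0 : ℝ) ≤ 3 / n := by positivity
  have ha0 : ∀ y z, k y z ≠ 0 → 0 ≤ a y z ∧ a y z ≤ 2 * κ := by
    intro y z h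
    obtain ⟨h1, h2⟩ := hk.supp y z h
    rw [ha]
    have h3 := hUX1 z h1
    have h4 := hUS1 _ h2
    constructor <;> linarith [h3.1, h3.2, h4.1, h4.2]
  have hka : ∀ y z, 0 ≤ k y z * a y z := by
    intro y z
    by_cases h : k y z = 0
    · rw [h, zero_mul]
    · exact mul_nonneg (hk.nn y z) (ha0 y z h).1
  have hρ0 : ∀ y, 0 ≤ ρ y := fun y => by
    rw [hρ]
    exact Finset.sum_nonneg fun z _ => hka y z
  have hρ1 : ∀ y, ρ y ≤ 3 / n * (κ * (cX + cS)) := by
    intro y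
    have h1 : ρ y = (∑ z ∈ X, k y z * UX z) + ∑ z ∈ X, k y z * US (y + z) := by
      rw [hρ, ← Finset.sum_add_distrib]
      exact Finset.sum_congr rfl fun z _ => by rw [ha]; ring
    have h2 : ∑ z ∈ X, k y z * UX z ≤ 3 / n * (κ * cX) := by
      refine (Finset.sum_le_sum (g := fun z => 3 / n * UX z) fun z hz =>
        mul_le_mul_of_nonneg_right (hk.up y z) (hUX1 z hz).1).trans ?_
      rw [← Finset.mul_sum]
      exact mul_le_mul_of_nonneg_left hUX2 hup0
    have h3 : ∑ z ∈ X, k y z * US (y + z) ≤ 3 / n * (κ * cS) := by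
      rw [rex_h99 hk.supp y (fun _ s => US s)]
      refine (Finset.sum_le_sum (g := fun s => 3 / n * US s) fun s hs =>
        mul_le_mul_of_nonneg_right (hk.up y _) (hUS1 s (Finset.mem_filter.1 hs).1).1).trans ?_
      rw [← Finset.mul_sum]
      refine mul_le_mul_of_nonneg_left (le_trans ?_ hUS2) hup0
      exact Finset.sum_le_sum_of_subset_of_nonneg (Finset.filter_subset _ _)
        fun s hs _ => (hUS1 s hs).1
    rw [h1]
    have : 3 / (n : ℝ) * (κ * (cX + cS)) = 3 / n * (κ * cX) + 3 / n * (κ * cS) := by ring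
    linarith
  have hρ2 : ∀ y, ρ y ≤ 1 := by
    intro y
    refine (hρ1 y).trans ?_
    have h1 : κ * (cX + cS) ≤ 8 / e * (r * n) :=
      mul_le_mul hκe hr1 (by positivity) (by positivity)
    have h2 : 3 / (n : ℝ) * (8 / e * (r * n)) = 24 * r / e := by field_simp; ring
    have h3 : 24 * r / e ≤ 1 := by
      rw [div_le_one he]
      linarith
    exact (mul_le_mul_of_nonneg_left h1 hup0).trans (h2.trans_le h3)
  have hq0 : ∀ c y z, 0 ≤ q0 m k c y z := fun c y z =>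
    mul_nonneg (mul_nonneg (hm.nn c) (hk.nn c y)) (hk.nn y z)
  -- sums over z
  have hone : ∀ y ∈ X, ∑ z ∈ X, k y z = 1 := fun y hy =>
    hk.one y (Finset.mem_union_left _ hy)
  have hsum0 : ∀ y ∈ X, ∑ z ∈ X, k y z * (ρ y - a y z) = 0 := by
    intro y hy
    have h1 : ∑ z ∈ X, k y z * (ρ y - a y z) = (∑ z ∈ X, k y z) * ρ y - ∑ z ∈ X, k y z * a y z := by
      rw [Finset.sum_mul, ← Finset.sum_sub_distrib]
      exact Finset.sum_congr rfl fun z _ => by ring
    rw [h1, hone y hy, ← hρ, one_mul, sub_self]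
  refine ⟨fun c y z => q0 m k c y z * (1 + a y z - ρ y), ?_, ?_, ?_⟩
  · intro c y z
    show 0 ≤ q0 m k c y z * (1 + a y z - ρ y) ∧
      q0 m k c y z * (1 + a y z - ρ y) ≤ (1 + 20 / e) * q0 m k c y z
    by_cases h : k y z = 0
    · have h1 : q0 m k c y z = 0 := by rw [q0, h, mul_zero]
      rw [h1, zero_mul, mul_zero]
      exact ⟨le_rfl, le_rfl⟩
    · obtain ⟨h1, h2⟩ := ha0 y z h
      have h3 : 2 * κ ≤ 20 / e := by
        have h4 : (20 : ℝ) / e = 2 * (8 / e) + 4 / e := by ring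
        have h5 : 0 ≤ 4 / e := by positivity
        linarith
      constructor
      · exact mul_nonneg (hq0 c y z) (by linarith [hρ2 y])
      · rw [mul_comm (1 + 20 / e)]
        exact mul_le_mul_of_nonneg_left (by linarith [hρ0 y]) (hq0 c y z)
  · intro c hc
    have h1 : ∀ y ∈ X, ∑ z ∈ X, q0 m k c y z * (1 + a y z - ρ y) = m c * k c y := by
      intro y hy
      have h2 : ∑ z ∈ X, q0 m k c y z * (1 + a y z - ρ y) =
          m c * k c y * ((∑ z ∈ X, k y z) - ∑ z ∈ X, k y z * (ρ y - a y z)) := by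
        rw [← Finset.sum_sub_distrib, Finset.mul_sum]
        exact Finset.sum_congr rfl fun z _ => by rw [q0]; ring
      rw [h2, hone y hy, hsum0 y hy, sub_zero, mul_one]
    rw [Finset.sum_congr rfl h1, ← Finset.mul_sum, hk.one c hc, mul_one]
  · -- the gain
    obtain ⟨F, hF⟩ : ∃ F : ℕ → ℕ → ℝ, ∀ y z, F y z = (b z - B) + (g (y + z) - G) :=
      ⟨_, fun _ _ => rfl⟩
    have hgain : ∑ c ∈ X ∪ Cl, ∑ y ∈ X, ∑ z ∈ X,
        (q0 m k c y z - q0 m k c y z * (1 + a y z - ρ y)) * HH b g c y z =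
        ∑ y ∈ X, Q y * ∑ z ∈ X, k y z * (ρ y - a y z) * F y z := by
      have h1 : ∀ c ∈ X ∪ Cl, ∀ y ∈ X, ∑ z ∈ X,
          (q0 m k c y z - q0 m k c y z * (1 + a y z - ρ y)) * HH b g c y z =
          m c * k c y * ∑ z ∈ X, k y z * (ρ y - a y z) * F y z := by
        intro c _ y hy
        have h2 : ∑ z ∈ X, (q0 m k c y z - q0 m k c y z * (1 + a y z - ρ y)) * HH b g c y z =
            m c * k c y * ((∑ z ∈ X, k y z * (ρ y - a y z) * F y z) +
              (b y + g (c + y) + B + G) * ∑ z ∈ X, k y z * (ρ y - a y z)) := by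
          rw [Finset.mul_sum _ _ (b y + g (c + y) + B + G), ← Finset.sum_add_distrib,
            Finset.mul_sum]
          exact Finset.sum_congr rfl fun z _ => by rw [q0, HH, hF]; ring
        rw [h2, hsum0 y hy, mul_zero, add_zero]
      rw [Finset.sum_congr rfl fun c hc => Finset.sum_congr rfl (h1 c hc), Finset.sum_comm]
      refine Finset.sum_congr rfl fun y _ => ?_
      rw [← Finset.sum_mul, hQy]
    rw [hgain]
    obtain ⟨Dl, hDl⟩ : ∃ Dl, Dl = ∑ x ∈ X, |b x - B| := ⟨_, rfl⟩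
    obtain ⟨Ds, hDs⟩ : ∃ Ds, Ds = ∑ s ∈ S, |g s - G| := ⟨_, rfl⟩
    rw [← hDl, ← hDs]
    have hDl0 : 0 ≤ Dl := hDl ▸ Finset.sum_nonneg fun _ _ => abs_nonneg _
    have hDs0 : 0 ≤ Ds := hDs ▸ Finset.sum_nonneg fun _ _ => abs_nonneg _
    -- splitting
    have hsplit : ∑ y ∈ X, Q y * ∑ z ∈ X, k y z * (ρ y - a y z) * F y z =
        (∑ y ∈ X, Q y * (ρ y * ∑ z ∈ X, k y z * F y z))
        - (∑ y ∈ X, ∑ z ∈ X, k y z * (Q y * (UX z * (b z - B))))
        - (∑ y ∈ X, ∑ z ∈ X, k y z * (Q y * (UX z * (g (y + z) - G))))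
        - (∑ y ∈ X, ∑ z ∈ X, k y z * (Q y * (US (y + z) * (b z - B))))
        - (∑ y ∈ X, ∑ z ∈ X, k y z * (Q y * (US (y + z) * (g (y + z) - G)))) := by
      rw [← Finset.sum_sub_distrib, ← Finset.sum_sub_distrib, ← Finset.sum_sub_distrib,
        ← Finset.sum_sub_distrib]
      refine Finset.sum_congr rfl fun y _ => ?_
      rw [Finset.mul_sum, Finset.mul_sum, Finset.mul_sum, ← Finset.sum_sub_distrib,
        ← Finset.sum_sub_distrib, ← Finset.sum_sub_distrib, ← Finset.sum_sub_distrib]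
      refine Finset.sum_congr rfl fun z _ => ?_
      rw [ha, hF]
      ring
    rw [hsplit]
    -- main terms
    have hM1 : ∑ y ∈ X, ∑ z ∈ X, k y z * (Q y * (UX z * (b z - B))) =
        -∑ x ∈ X, uX x * (B - b x) := by
      rw [Finset.sum_comm, ← Finset.sum_neg_distrib]
      refine Finset.sum_congr rfl fun z hz => ?_
      have h1 : ∑ y ∈ X, k y z * (Q y * (UX z * (b z - B))) = UX z * lx z * (b z - B) := by
        rw [hlx, Finset.mul_sum, Finset.sum_mul]
        exact Finset.sum_congr rfl fun y _ => by ring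
      rw [h1, hUXd, div_mul_cancel₀ _ (hlx0 z hz)]
      ring
    have hM2 : ∑ y ∈ X, ∑ z ∈ X, k y z * (Q y * (US (y + z) * (g (y + z) - G))) =
        -∑ s ∈ S, uS s * (G - g s) := by
      rw [rex2_h99 hk.supp (fun y _ s => Q y * (US s * (g s - G))), ← Finset.sum_neg_distrib]
      refine Finset.sum_congr rfl fun s hs => ?_
      have h1 : ∑ y ∈ X with y ≤ s, k y (s - y) * (Q y * (US s * (g s - G))) =
          US s * ls s * (g s - G) := by
        rw [hls, Finset.mul_sum, Finset.sum_mul]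
        exact Finset.sum_congr rfl fun y _ => by ring
      rw [h1, hUSd, div_mul_cancel₀ _ (hls0 s hs)]
      ring
    rw [hM1, hM2]
    -- bounds for the error terms
    have hκn : 251 / 250 * N / n * κ = 1004 / 125 := by
      rw [hκ]
      field_simp
      norm_num
    have hQ2 : (0 : ℝ) ≤ 251 / 250 * N / n := by positivity
    have hXn : (X.card : ℝ) ≤ n := by
      have h1 := Finset.card_le_card hk.X_sub
      rw [Nat.card_Icc] at h1
      exact_mod_cast h1
    -- the sum over y of the kernel averages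
    have hE : ∑ y ∈ X, |∑ z ∈ X, k y z * F y z| ≤ 3 * (Dl + Ds) := by
      have h1 : ∀ y ∈ X, |∑ z ∈ X, k y z * F y z| ≤ 3 / n * (Dl + Ds) := by
        intro y _
        have h2 : |∑ z ∈ X, k y z * F y z| ≤
            (∑ z ∈ X, k y z * |b z - B|) + ∑ z ∈ X, k y z * |g (y + z) - G| := by
          refine (Finset.abs_sum_le_sum_abs _ _).trans ?_
          rw [← Finset.sum_add_distrib]
          refine Finset.sum_le_sum fun z _ => ?_
          rw [abs_mul, abs_of_nonneg (hk.nn y z), hF, ← mul_add]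
          exact mul_le_mul_of_nonneg_left (abs_add_le _ _) (hk.nn y z)
        have h3 : ∑ z ∈ X, k y z * |b z - B| ≤ 3 / n * Dl := by
          rw [hDl, Finset.mul_sum]
          exact Finset.sum_le_sum fun z _ =>
            mul_le_mul_of_nonneg_right (hk.up y z) (abs_nonneg _)
        have h4 : ∑ z ∈ X, k y z * |g (y + z) - G| ≤ 3 / n * Ds := by
          have h5 := tr1_h99 (X := X) (S := S) (h := fun s => |g s - G|) (fun s => abs_nonneg _)
            (w := fun z => k y z) hup0 (fun z => hk.up y z) y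
            (fun z hz => by rw [add_comm]; exact (hk.supp y z hz).2)
          rw [hDs]
          simpa only [add_comm] using h5
        have h5 : 3 / (n : ℝ) * (Dl + Ds) = 3 / n * Dl + 3 / n * Ds := by ring
        linarith
      refine (Finset.sum_le_sum h1).trans ?_
      rw [Finset.sum_const, nsmul_eq_mul]
      have h2 : (X.card : ℝ) * (3 / n * (Dl + Ds)) ≤ n * (3 / n * (Dl + Ds)) :=
        mul_le_mul_of_nonneg_right hXn (by positivity)
      refine h2.trans_eq ?_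
      field_simp
    have hE1 : |∑ y ∈ X, Q y * (ρ y * ∑ z ∈ X, k y z * F y z)| ≤
        1004 / 125 * (3 / n) * (cX + cS) * (3 * (Dl + Ds)) := by
      refine (Finset.abs_sum_le_sum_abs _ _).trans ?_
      have h1 : ∀ y ∈ X, |Q y * (ρ y * ∑ z ∈ X, k y z * F y z)| ≤
          (1004 / 125 * (3 / n) * (cX + cS)) * |∑ z ∈ X, k y z * F y z| := by
        intro y hy
        rw [abs_mul, abs_mul, abs_of_nonneg (hQ0 y), abs_of_nonneg (hρ0 y), ← mul_assoc]
        refine mul_le_mul_of_nonneg_right ?_ (abs_nonneg _)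
        have h2 : Q y * ρ y ≤ (251 / 250 * N / n) * (3 / n * (κ * (cX + cS))) :=
          mul_le_mul (hQ1 y hy) (hρ1 y) (hρ0 y) hQ2
        refine h2.trans_eq ?_
        have h3 : (251 / 250 * N / n) * (3 / n * (κ * (cX + cS))) =
            (251 / 250 * N / n * κ) * (3 / n) * (cX + cS) := by ring
        rw [h3, hκn]
      refine (Finset.sum_le_sum h1).trans ?_
      rw [← Finset.mul_sum]
      exact mul_le_mul_of_nonneg_left hE (by positivity)
    have hE2 : |∑ y ∈ X, ∑ z ∈ X, k y z * (Q y * (UX z * (g (y + z) - G)))| ≤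
        1004 / 125 * (3 / n) * cX * Ds := by
      rw [Finset.sum_comm]
      refine (Finset.abs_sum_le_sum_abs _ _).trans ?_
      have h1 : ∀ z ∈ X, |∑ y ∈ X, k y z * (Q y * (UX z * (g (y + z) - G)))| ≤
          UX z * (251 / 250 * N / n * (3 / n * Ds)) := by
        intro z hz
        refine (Finset.abs_sum_le_sum_abs _ _).trans ?_
        have h2 : ∀ y ∈ X, |k y z * (Q y * (UX z * (g (y + z) - G)))| ≤
            UX z * (251 / 250 * N / n) * (k y z * |g (y + z) - G|) := by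
          intro y hy
          rw [abs_mul, abs_mul, abs_mul, abs_of_nonneg (hk.nn y z), abs_of_nonneg (hQ0 y),
            abs_of_nonneg (hUX1 z hz).1]
          have h3 : k y z * (Q y * (UX z * |g (y + z) - G|)) =
              Q y * (UX z * (k y z * |g (y + z) - G|)) := by ring
          have h4 : UX z * (251 / 250 * N / n) * (k y z * |g (y + z) - G|) =
              (251 / 250 * N / n) * (UX z * (k y z * |g (y + z) - G|)) := by ring
          rw [h3, h4]
          exact mul_le_mul_of_nonneg_right (hQ1 y hy)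
            (mul_nonneg (hUX1 z hz).1 (mul_nonneg (hk.nn y z) (abs_nonneg _)))
        refine (Finset.sum_le_sum h2).trans ?_
        rw [← Finset.mul_sum, mul_assoc (UX z)]
        refine mul_le_mul_of_nonneg_left ?_ (hUX1 z hz).1
        refine mul_le_mul_of_nonneg_left ?_ hQ2
        rw [hDs]
        exact tr1_h99 (h := fun s => |g s - G|) (fun s => abs_nonneg _) hup0
          (fun y => hk.up y z) z (fun y hy => (hk.supp y z hy).2)
      refine (Finset.sum_le_sum h1).trans ?_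
      rw [← Finset.sum_mul]
      refine (mul_le_mul_of_nonneg_right hUX2 (by positivity)).trans_eq ?_
      have h3 : κ * cX * (251 / 250 * N / n * (3 / n * Ds)) =
          (251 / 250 * N / n * κ) * (3 / n) * cX * Ds := by ring
      rw [h3, hκn]
    have hE3 : |∑ y ∈ X, ∑ z ∈ X, k y z * (Q y * (US (y + z) * (b z - B)))| ≤
        1004 / 125 * (3 / n) * cS * Dl := by
      rw [rex2_h99 hk.supp (fun y z s => Q y * (US s * (b z - B)))]
      refine (Finset.abs_sum_le_sum_abs _ _).trans ?_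
      have h1 : ∀ s ∈ S, |∑ y ∈ X with y ≤ s, k y (s - y) * (Q y * (US s * (b (s - y) - B)))| ≤
          US s * (251 / 250 * N / n * (3 / n * Dl)) := by
        intro s hs
        refine (Finset.abs_sum_le_sum_abs _ _).trans ?_
        have h2 : ∀ y ∈ X.filter (fun y => y ≤ s),
            |k y (s - y) * (Q y * (US s * (b (s - y) - B)))| ≤
            US s * (251 / 250 * N / n) * (k y (s - y) * |b (s - y) - B|) := by
          intro y hy
          rw [abs_mul, abs_mul, abs_mul, abs_of_nonneg (hk.nn y _), abs_of_nonneg (hQ0 y),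
            abs_of_nonneg (hUS1 s hs).1]
          have h3 : k y (s - y) * (Q y * (US s * |b (s - y) - B|)) =
              Q y * (US s * (k y (s - y) * |b (s - y) - B|)) := by ring
          have h4 : US s * (251 / 250 * N / n) * (k y (s - y) * |b (s - y) - B|) =
              (251 / 250 * N / n) * (US s * (k y (s - y) * |b (s - y) - B|)) := by ring
          rw [h3, h4]
          exact mul_le_mul_of_nonneg_right (hQ1 y (Finset.mem_filter.1 hy).1)
            (mul_nonneg (hUS1 s hs).1 (mul_nonneg (hk.nn y _) (abs_nonneg _)))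
        refine (Finset.sum_le_sum h2).trans ?_
        rw [← Finset.mul_sum, mul_assoc (US s)]
        refine mul_le_mul_of_nonneg_left ?_ (hUS1 s hs).1
        refine mul_le_mul_of_nonneg_left ?_ hQ2
        rw [hDl]
        exact tr2_h99 (h := fun z => |b z - B|) (fun z => abs_nonneg _) hup0
          (w := fun y => k y (s - y)) (fun y => hk.up y _) s (fun y hy => (hk.supp y _ hy).1)
      refine (Finset.sum_le_sum h1).trans ?_
      rw [← Finset.sum_mul]
      refine (mul_le_mul_of_nonneg_right hUS2 (by positivity)).trans_eq ?_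
      have h3 : κ * cS * (251 / 250 * N / n * (3 / n * Dl)) =
          (251 / 250 * N / n * κ) * (3 / n) * cS * Dl := by ring
      rw [h3, hκn]
    have hfin : 1004 / 125 * (3 / n) * (cX + cS) * (3 * (Dl + Ds)) +
        1004 / 125 * (3 / n) * cX * Ds + 1004 / 125 * (3 / n) * cS * Dl ≤
        200 * r * (Dl + Ds) := by
      have h1 : (3 / (n : ℝ)) * (cX + cS) ≤ 3 * r := by
        refine (mul_le_mul_of_nonneg_left hr1 hup0).trans_eq ?_
        field_simp
      have h2 : 1004 / 125 * (3 / n) * cX * Ds ≤ 1004 / 125 * (3 / n) * (cX + cS) * Ds := by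
        refine mul_le_mul_of_nonneg_right ?_ hDs0
        exact mul_le_mul_of_nonneg_left (by linarith) (by positivity)
      have h3 : 1004 / 125 * (3 / n) * cS * Dl ≤ 1004 / 125 * (3 / n) * (cX + cS) * Dl := by
        refine mul_le_mul_of_nonneg_right ?_ hDl0
        exact mul_le_mul_of_nonneg_left (by linarith) (by positivity)
      have h4 : 1004 / 125 * (3 / n) * (cX + cS) * (3 * (Dl + Ds)) +
          1004 / 125 * (3 / n) * (cX + cS) * Ds + 1004 / 125 * (3 / n) * (cX + cS) * Dl =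
          4016 / 125 * ((3 / n) * (cX + cS)) * (Dl + Ds) := by ring
      have h5 : 4016 / 125 * ((3 / n) * (cX + cS)) * (Dl + Ds) ≤
          4016 / 125 * (3 * r) * (Dl + Ds) :=
        mul_le_mul_of_nonneg_right (mul_le_mul_of_nonneg_left h1 (by norm_num)) (by positivity)
      have h6 : 0 ≤ r * (Dl + Ds) := by positivity
      have h7 : 4016 / 125 * (3 * r) * (Dl + Ds) = 12048 / 125 * (r * (Dl + Ds)) := by ring
      have h8 : 200 * r * (Dl + Ds) = 200 * (r * (Dl + Ds)) := by ring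
      linarith
    have h1 := (abs_le.1 hE1).1
    have h2 := (abs_le.1 hE2).2
    have h3 := (abs_le.1 hE3).2
    linarith

end Pool.Agent.SEM
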