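import Pool.Agent.Helper73.SEM.LP3
import Pool.Agent.Helper73.SEM.LP4
import Pool.Agent.Helper73.SEM.LP5
import Pool.Agent.Helper73.SEM.MM

/-!
# SEM-LP6: the linear programming theorem

`lp_fixed`, proof in words.  `ℓ0 x = lX x + LX q0 x ≤ 1+t`, `∑_X ℓ0 = |X|`, `dev = ℓ0 - 1`, `dev⁻ = max(-dev) 0 ≤ 1`; same for sums.
`∑_X dev = 0`, so `∑ dev⁻ = ∑ dev⁺ ≤ t n`; the set `Ux = {x ∈ X : dev⁻ x > √t}` has `≤ √t n` elements.  `B, G` from
`poincare`, `Dl, Ds` the two sums.  `∑_X b dev = ∑ (b - B) dev ≤ √t Dl + ∑_{x ∈ Ux, b x < B} (B - b x) dev⁻ x`.  Let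
`uX x = 2 dev⁻ x` on `{x ∈ Ux : b x < B}`, else `0`; same `uS`.  `q = ½ q₁ + ½ q₂` with `q₁` from `gain1` and `q₂` from `gain2` (`r = 2√t ≤ e/30`).
Then `∑ (q0 - q) H ≥ ⅛ (D1+D2) + ∑ (B-b) dev⁻ + ∑ (G-g) dev⁻ - 200 √t (Dl+Ds)` and `⅛ (D1+D2) ≥ (e/8C)(Dl+Ds) ≥ 201 √t·(Dl+Ds)`
because `t ≤ c e²`.  Finally `∑_X b LX q + ∑_S g LS q = ∑ q H` (exchange of sums; `q c y z ≠ 0` implies `y, z ∈ X`,
`c+y, y+z ∈ S`), so `∑ b (lX + LX q - 1) + ∑ g (lS + LS q - 1) = ∑ b dev + ∑ g dev - ∑ (q0-q) H ≤ 0`.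

`lp_main`, proof in words: `minimax` with `ι` = triples in `(X ∪ Cl) × X × X`, `Q = {q : 0 ≤ q ≤ (1+20/e) q0, ∑_{y,z} q c = m c}` (compact, convex,
contains `q0`), `J = X ⊕ S`.
-/

set_option autoImplicit false

namespace Pool.Agent.SEM

open Finset

structure LPH (n : ℕ) (X S Cl : Finset ℕ) (t : ℝ) (k : ℕ → ℕ → ℝ) (m lX lS : ℕ → ℝ) : Prop where
  nX : ∀ x, 0 ≤ lX x
  nS : ∀ s, 0 ≤ lS s
  hX : ∀ x ∈ X, lX x + LX X (X ∪ Cl) (q0 m k) x ≤ 1 + t
  hS : ∀ s ∈ S, lS s + LS X (X ∪ Cl) (q0 m k) s ≤ 1 + t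
  tX : ∑ x ∈ X, (lX x + LX X (X ∪ Cl) (q0 m k) x) = X.card
  tS : ∑ s ∈ S, (lS s + LS X (X ∪ Cl) (q0 m k) s) = S.card

private theorem exch26 (X CC S : Finset ℕ) (q : ℕ → ℕ → ℕ → ℝ) (b g : ℕ → ℝ)
    (hq : ∀ c y z, q c y z ≠ 0 → c + y ∈ S ∧ y + z ∈ S) :
    ∑ x ∈ X, b x * LX X CC q x + ∑ s ∈ S, g s * LS X CC q s =
      ∑ c ∈ CC, ∑ y ∈ X, ∑ z ∈ X, q c y z * HH b g c y z := by
  have h1 : ∑ x ∈ X, b x * (∑ c ∈ CC, ∑ z ∈ X, q c x z) =
      ∑ c ∈ CC, ∑ y ∈ X, ∑ z ∈ X, q c y z * b y := by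
    simp only [Finset.mul_sum]
    rw [Finset.sum_comm]
    refine Finset.sum_congr rfl fun c _ => Finset.sum_congr rfl fun y _ =>
      Finset.sum_congr rfl fun z _ => mul_comm _ _
  have h2 : ∑ x ∈ X, b x * (∑ c ∈ CC, ∑ y ∈ X, q c y x) =
      ∑ c ∈ CC, ∑ y ∈ X, ∑ z ∈ X, q c y z * b z := by
    simp only [Finset.mul_sum]
    rw [Finset.sum_comm]
    refine Finset.sum_congr rfl fun c _ => ?_
    rw [Finset.sum_comm]
    refine Finset.sum_congr rfl fun y _ => Finset.sum_congr rfl fun z _ => mul_comm _ _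
  have h3 : ∑ s ∈ S, g s * (∑ c ∈ CC, ∑ y ∈ X, ∑ z ∈ X, if c + y = s then q c y z else 0) =
      ∑ c ∈ CC, ∑ y ∈ X, ∑ z ∈ X, q c y z * g (c + y) := by
    simp only [Finset.mul_sum]
    rw [Finset.sum_comm]
    refine Finset.sum_congr rfl fun c _ => ?_
    rw [Finset.sum_comm]
    refine Finset.sum_congr rfl fun y _ => ?_
    rw [Finset.sum_comm]
    refine Finset.sum_congr rfl fun z _ => ?_
    simp only [mul_ite, mul_zero]
    rw [Finset.sum_ite_eq]
    by_cases h : c + y ∈ S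
    · rw [if_pos h, mul_comm]
    · rw [if_neg h]
      have : q c y z = 0 := by
        by_contra h'
        exact h (hq c y z h').1
      rw [this, zero_mul]
  have h4 : ∑ s ∈ S, g s * (∑ c ∈ CC, ∑ y ∈ X, ∑ z ∈ X, if y + z = s then q c y z else 0) =
      ∑ c ∈ CC, ∑ y ∈ X, ∑ z ∈ X, q c y z * g (y + z) := by
    simp only [Finset.mul_sum]
    rw [Finset.sum_comm]
    refine Finset.sum_congr rfl fun c _ => ?_
    rw [Finset.sum_comm]
    refine Finset.sum_congr rfl fun y _ => ?_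
    rw [Finset.sum_comm]
    refine Finset.sum_congr rfl fun z _ => ?_
    simp only [mul_ite, mul_zero]
    rw [Finset.sum_ite_eq]
    by_cases h : y + z ∈ S
    · rw [if_pos h, mul_comm]
    · rw [if_neg h]
      have : q c y z = 0 := by
        by_contra h'
        exact h (hq c y z h').2
      rw [this, zero_mul]
  unfold LX LS
  simp only [mul_add, Finset.sum_add_distrib]
  rw [h1, h2, h3, h4]
  simp only [← Finset.sum_add_distrib]
  refine Finset.sum_congr rfl fun c _ => Finset.sum_congr rfl fun y _ =>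
      Finset.sum_congr rfl fun z _ => ?_
  unfold HH
  ring

open Classical in
private theorem dev26 (A : Finset ℕ) (n : ℕ) (t : ℝ) (dev b : ℕ → ℝ) (B : ℝ)
    (h1 : ∀ x ∈ A, dev x ≤ t) (h2 : ∀ x ∈ A, -1 ≤ dev x) (h3 : ∑ x ∈ A, dev x = 0)
    (hcard : (A.card : ℝ) ≤ n) (ht : 0 < t) (ht1 : t ≤ 1) :
    ∃ u : ℕ → ℝ, (∀ x, 0 ≤ u x ∧ u x ≤ 2) ∧
      ((A.filter fun x => u x ≠ 0).card : ℝ) ≤ Real.sqrt t * n ∧
      ∑ x ∈ A, b x * dev x ≤ 2 * Real.sqrt t * (∑ x ∈ A, |b x - B|) +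
        1 / 2 * ∑ x ∈ A, u x * (B - b x) := by
  set s := Real.sqrt t with hs
  have hs0 : 0 < s := Real.sqrt_pos.2 ht
  have hss : s * s = t := Real.mul_self_sqrt ht.le
  have hs1 : s ≤ 1 := Real.sqrt_le_one.2 ht1
  have hts : t ≤ s := by nlinarith
  refine ⟨fun x => if x ∈ A ∧ s < -dev x ∧ b x < B then 2 * (-dev x) else 0, ?_, ?_, ?_⟩
  · intro x
    dsimp only
    split_ifs with h
    · have := h2 x h.1
      constructor <;> linarith [h.2.1]
    · constructor <;> norm_num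
  · -- the number of nonzero values
    have e1 : ∑ x ∈ A, max (-dev x) 0 = ∑ x ∈ A, max (dev x) 0 := by
      have : ∑ x ∈ A, max (dev x) 0 - ∑ x ∈ A, max (-dev x) 0 = ∑ x ∈ A, dev x := by
        rw [← Finset.sum_sub_distrib]
        refine Finset.sum_congr rfl fun x _ => ?_
        rcases le_total (dev x) 0 with h | h
        · rw [max_eq_right h, max_eq_left (by linarith)]; ring
        · rw [max_eq_left h, max_eq_right (by linarith)]; ring
      rw [h3] at this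
      linarith
    have e2 : ∑ x ∈ A, max (dev x) 0 ≤ t * n := by
      calc ∑ x ∈ A, max (dev x) 0 ≤ ∑ _x ∈ A, t :=
            Finset.sum_le_sum fun x hx => max_le (h1 x hx) ht.le
        _ = A.card * t := by rw [Finset.sum_const, nsmul_eq_mul]
        _ ≤ n * t := mul_le_mul_of_nonneg_right hcard ht.le
        _ = t * n := mul_comm _ _
    set F := A.filter fun x => (if x ∈ A ∧ s < -dev x ∧ b x < B then 2 * (-dev x) else 0) ≠ 0
      with hF
    have e3 : (F.card : ℝ) * s ≤ ∑ x ∈ A, max (-dev x) 0 := by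
      calc (F.card : ℝ) * s = ∑ _x ∈ F, s := by rw [Finset.sum_const, nsmul_eq_mul]
        _ ≤ ∑ x ∈ F, max (-dev x) 0 := by
            refine Finset.sum_le_sum fun x hx => ?_
            have hx2 := (Finset.mem_filter.1 hx).2
            by_cases hc : x ∈ A ∧ s < -dev x ∧ b x < B
            · exact le_max_of_le_left hc.2.1.le
            · rw [if_neg hc] at hx2
              exact absurd rfl hx2
        _ ≤ ∑ x ∈ A, max (-dev x) 0 :=
            Finset.sum_le_sum_of_subset_of_nonneg (Finset.filter_subset _ _)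
              fun x _ _ => le_max_right _ _
    have e4 : (F.card : ℝ) * s ≤ (s * n) * s := by
      calc (F.card : ℝ) * s ≤ t * n := by linarith
        _ = (s * n) * s := by rw [← hss]; ring
    exact le_of_mul_le_mul_right e4 hs0
  · have e1 : ∑ x ∈ A, b x * dev x = ∑ x ∈ A, (b x - B) * dev x := by
      have : ∑ x ∈ A, (b x - B) * dev x = ∑ x ∈ A, b x * dev x - B * ∑ x ∈ A, dev x := by
        rw [Finset.mul_sum, ← Finset.sum_sub_distrib]
        exact Finset.sum_congr rfl fun x _ => by ring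
      rw [this, h3]; ring
    rw [e1, Finset.mul_sum, Finset.mul_sum, ← Finset.sum_add_distrib]
    refine Finset.sum_le_sum fun x hx => ?_
    dsimp only
    have ha := abs_nonneg (b x - B)
    have hb := le_abs_self (b x - B)
    have hb' := neg_abs_le (b x - B)
    have hsa : 0 ≤ s * |b x - B| := mul_nonneg hs0.le ha
    by_cases hc : x ∈ A ∧ s < -dev x ∧ b x < B
    · rw [if_pos hc]
      nlinarith
    · rw [if_neg hc]
      by_cases hd : 0 ≤ dev x
      · have h5 : (b x - B) * dev x ≤ |b x - B| * dev x := mul_le_mul_of_nonneg_right hb hd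
        have h6 : |b x - B| * dev x ≤ |b x - B| * s :=
          mul_le_mul_of_nonneg_left ((h1 x hx).trans hts) ha
        nlinarith
      · push Not at hd
        by_cases hB : b x < B
        · have h7 : -dev x ≤ s := by
            by_contra h8
            push Not at h8
            exact hc ⟨hx, h8, hB⟩
          have h5 : (b x - B) * dev x ≤ |b x - B| * (-dev x) := by nlinarith
          have h6 : |b x - B| * (-dev x) ≤ |b x - B| * s := mul_le_mul_of_nonneg_left h7 ha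
          nlinarith
        · push Not at hB
          have h5 : (b x - B) * dev x ≤ 0 := by nlinarith
          nlinarith

private theorem q0_nn26 {n : ℕ} {X S Cl : Finset ℕ} {e t : ℝ} {k : ℕ → ℕ → ℝ}
    {π m : ℕ → ℝ} (hk : Ker n X S Cl t k π) (hm : Mass n X Cl e t π m) (c y z : ℕ) :
    0 ≤ q0 m k c y z :=
  mul_nonneg (mul_nonneg (hm.nn c) (hk.nn c y)) (hk.nn y z)

private theorem q0_sum26 {n : ℕ} {X S Cl : Finset ℕ} {t : ℝ} {k : ℕ → ℕ → ℝ} {π m : ℕ → ℝ}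
    (hk : Ker n X S Cl t k π) (c : ℕ) (hc : c ∈ X ∪ Cl) :
    ∑ y ∈ X, ∑ z ∈ X, q0 m k c y z = m c := by
  have h1 : ∀ y ∈ X, ∑ z ∈ X, q0 m k c y z = m c * k c y := by
    intro y hy
    unfold q0
    rw [← Finset.mul_sum, hk.one y (Finset.mem_union_left _ hy), mul_one]
  rw [Finset.sum_congr rfl h1, ← Finset.mul_sum, hk.one c hc, mul_one]

private theorem q0_supp26 {n : ℕ} {X S Cl : Finset ℕ} {t : ℝ} {k : ℕ → ℕ → ℝ} {π m : ℕ → ℝ}
    (hk : Ker n X S Cl t k π) (c y z : ℕ) (h : q0 m k c y z ≠ 0) : c + y ∈ S ∧ y + z ∈ S := by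
  unfold q0 at h
  have h1 : k c y ≠ 0 := fun h' => h (by rw [h']; ring)
  have h2 : k y z ≠ 0 := fun h' => h (by rw [h']; ring)
  exact ⟨(hk.supp c y h1).2, (hk.supp y z h2).2⟩

private theorem LX_nn26 (X CC : Finset ℕ) (q : ℕ → ℕ → ℕ → ℝ) (hq : ∀ c y z, 0 ≤ q c y z)
    (x : ℕ) : 0 ≤ LX X CC q x := by
  unfold LX
  refine add_nonneg ?_ ?_ <;>
    exact Finset.sum_nonneg fun c _ => Finset.sum_nonneg fun y _ => hq _ _ _

private theorem LS_nn26 (X CC : Finset ℕ) (q : ℕ → ℕ → ℕ → ℝ) (hq : ∀ c y z, 0 ≤ q c y z)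
    (x : ℕ) : 0 ≤ LS X CC q x := by
  unfold LS
  refine add_nonneg ?_ ?_ <;>
    refine Finset.sum_nonneg fun c _ => Finset.sum_nonneg fun y _ =>
      Finset.sum_nonneg fun z _ => ?_
  · split_ifs
    · exact hq _ _ _
    · exact le_refl _
  · split_ifs
    · exact hq _ _ _
    · exact le_refl _

theorem lp_fixed : ∃ c0 : ℝ, 0 < c0 ∧ ∀ {n : ℕ} {X S Cl : Finset ℕ} {e t : ℝ}
    {k : ℕ → ℕ → ℝ} {π m lX lS : ℕ → ℝ}, Ker n X S Cl t k π → Mass n X Cl e t π m →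
    LPH n X S Cl t k m lX lS → 0 < e → e ≤ 1 → 0 < t → t ≤ c0 * e ^ 2 → 1000 ≤ n → 10 ≤ t * n →
    ∀ b g : ℕ → ℝ, (∀ x, 0 ≤ b x) → (∀ s, 0 ≤ g s) →
    ∃ q : ℕ → ℕ → ℕ → ℝ, (∀ c y z, 0 ≤ q c y z ∧ q c y z ≤ (1 + 20 / e) * q0 m k c y z) ∧
      (∀ c ∈ X ∪ Cl, ∑ y ∈ X, ∑ z ∈ X, q c y z = m c) ∧
      (∑ x ∈ X, b x * (lX x + LX X (X ∪ Cl) q x - 1)) +
        (∑ s ∈ S, g s * (lS s + LS X (X ∪ Cl) q s - 1)) ≤ 0 := by
  obtain ⟨C, t0, hC, ht0, hP⟩ := poincare
  refine ⟨min (1 / 3600) (min t0 (min (1 / 1000) (1 / (1616 * C) ^ 2))), by positivity, ?_⟩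
  intro n X S Cl e t k π m lX lS hk hm hl he he1 ht htc hn hnt b g hb hg
  have hc1 : t ≤ 1 / 3600 * e ^ 2 := htc.trans (by gcongr; exact min_le_left _ _)
  have hc2 : t ≤ t0 * e ^ 2 :=
    htc.trans (by gcongr; exact (min_le_right _ _).trans (min_le_left _ _))
  have hc3 : t ≤ 1 / 1000 * e ^ 2 := htc.trans (by
    gcongr; exact (min_le_right _ _).trans ((min_le_right _ _).trans (min_le_left _ _)))
  have hc4 : t ≤ 1 / (1616 * C) ^ 2 * e ^ 2 := htc.trans (by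
    gcongr; exact (min_le_right _ _).trans ((min_le_right _ _).trans (min_le_right _ _)))
  have he2 : e ^ 2 ≤ 1 := pow_le_one₀ he.le he1
  have htt0 : t ≤ t0 := hc2.trans (by nlinarith)
  have ht1 : t ≤ 1 / 1000 := hc3.trans (by nlinarith)
  set s := Real.sqrt t with hs
  have hs0 : 0 < s := Real.sqrt_pos.2 ht
  have hs1 : s ≤ e / 60 := by
    rw [hs, Real.sqrt_le_iff]
    exact ⟨by positivity, by linarith [hc1]⟩
  have hs2 : s ≤ e / (1616 * C) := by
    rw [hs, Real.sqrt_le_iff]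
    refine ⟨by positivity, hc4.trans_eq ?_⟩
    field_simp
  obtain ⟨B, G, hB, hG, hBG⟩ := hP hk hm he he1 ht htt0 hn hnt b g hb hg
  have hq0nn := q0_nn26 hk hm
  -- the deviations
  set dX : ℕ → ℝ := fun x => lX x + LX X (X ∪ Cl) (q0 m k) x - 1 with hdX
  set dS : ℕ → ℝ := fun x => lS x + LS X (X ∪ Cl) (q0 m k) x - 1 with hdS
  have hXcard : (X.card : ℝ) ≤ n := by
    have := Finset.card_le_card hk.X_sub
    rw [Nat.card_Icc] at this
    have h2 : X.card ≤ n := by omega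
    exact_mod_cast h2
  have hScard : (S.card : ℝ) ≤ n := by
    have := Finset.card_le_card hk.S_sub
    unfold Win at this
    rw [Nat.card_Icc] at this
    have h2 : S.card ≤ n := by omega
    exact_mod_cast h2
  obtain ⟨uX, huX, huX1, huX2⟩ := dev26 X n t dX b B
    (fun x hx => by have := hl.hX x hx; simp only [hdX]; linarith)
    (fun x _ => by
      have h1 := hl.nX x
      have h2 := LX_nn26 X (X ∪ Cl) (q0 m k) hq0nn x
      simp only [hdX]; linarith)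
    (by
      simp only [hdX]
      rw [Finset.sum_sub_distrib, hl.tX]
      simp) hXcard ht (by linarith)
  obtain ⟨uS, huS, huS1, huS2⟩ := dev26 S n t dS g G
    (fun x hx => by have := hl.hS x hx; simp only [hdS]; linarith)
    (fun x _ => by
      have h1 := hl.nS x
      have h2 := LS_nn26 X (X ∪ Cl) (q0 m k) hq0nn x
      simp only [hdS]; linarith)
    (by
      simp only [hdS]
      rw [Finset.sum_sub_distrib, hl.tS]
      simp) hScard ht (by linarith)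
  rw [← hs] at huX1 huX2 huS1 huS2
  obtain ⟨q1, hq1a, hq1b, hq1c⟩ := gain1 hk hm.nn hm.supp b g
  obtain ⟨q2, hq2a, hq2b, hq2c⟩ := gain2 hk hm he he1 ht ht1 hn b g B G (2 * s) (by positivity)
    (by linarith) uX uS huX huS (by
      have e1 : ((X.filter fun x => uX x ≠ 0).card : ℝ) ≤ s * n := by convert huX1
      have e2 : ((S.filter fun x => uS x ≠ 0).card : ℝ) ≤ s * n := by convert huS1
      linarith)
  refine ⟨fun c y z => 1 / 2 * q1 c y z + 1 / 2 * q2 c y z, ?_, ?_, ?_⟩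
  · intro c y z
    have h1 := hq1a c y z
    have h2 := hq2a c y z
    have h3 := hq0nn c y z
    refine ⟨by linarith [h1.1, h2.1], ?_⟩
    have h4 : (1 : ℝ) ≤ 20 / e := by
      rw [le_div_iff₀ he]; linarith
    nlinarith [h1.2, h2.2]
  · intro c hc
    simp only [Finset.sum_add_distrib, ← Finset.mul_sum]
    rw [hq1b c hc, hq2b c hc]
    ring
  · set q : ℕ → ℕ → ℕ → ℝ := fun c y z => 1 / 2 * q1 c y z + 1 / 2 * q2 c y z with hqd
    have hqs : ∀ c y z, q c y z ≠ 0 → c + y ∈ S ∧ y + z ∈ S := by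
      intro c y z h
      apply q0_supp26 hk c y z (m := m)
      intro h0
      apply h
      have h1 := hq1a c y z
      have h2 := hq2a c y z
      rw [h0, mul_zero] at h1 h2
      have h3 : q1 c y z = 0 := le_antisymm h1.2 h1.1
      have h4 : q2 c y z = 0 := le_antisymm h2.2 h2.1
      simp only [hqd]
      rw [h3, h4]; ring
    have ex1 := exch26 X (X ∪ Cl) S q b g hqs
    have ex0 := exch26 X (X ∪ Cl) S (q0 m k) b g (q0_supp26 hk)
    have hgain : (∑ c ∈ X ∪ Cl, ∑ y ∈ X, ∑ z ∈ X, q0 m k c y z * HH b g c y z) -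
        (∑ c ∈ X ∪ Cl, ∑ y ∈ X, ∑ z ∈ X, q c y z * HH b g c y z) =
        1 / 2 * (∑ c ∈ X ∪ Cl, ∑ y ∈ X, ∑ z ∈ X, (q0 m k c y z - q1 c y z) * HH b g c y z) +
        1 / 2 * (∑ c ∈ X ∪ Cl, ∑ y ∈ X, ∑ z ∈ X, (q0 m k c y z - q2 c y z) * HH b g c y z) := by
      simp only [Finset.mul_sum, ← Finset.sum_sub_distrib, ← Finset.sum_add_distrib]
      refine Finset.sum_congr rfl fun c _ => Finset.sum_congr rfl fun y _ =>
        Finset.sum_congr rfl fun z _ => ?_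
      simp only [hqd]
      ring
    have htot : (∑ x ∈ X, b x * (lX x + LX X (X ∪ Cl) q x - 1)) +
        (∑ s ∈ S, g s * (lS s + LS X (X ∪ Cl) q s - 1)) =
        (∑ x ∈ X, b x * dX x) + (∑ s ∈ S, g s * dS s) +
        ((∑ x ∈ X, b x * LX X (X ∪ Cl) q x + ∑ s ∈ S, g s * LS X (X ∪ Cl) q s) -
        (∑ x ∈ X, b x * LX X (X ∪ Cl) (q0 m k) x +
          ∑ s ∈ S, g s * LS X (X ∪ Cl) (q0 m k) s)) := by
      have e1 : ∑ x ∈ X, b x * (lX x + LX X (X ∪ Cl) q x - 1) =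
          (∑ x ∈ X, b x * dX x) + ∑ x ∈ X, b x * LX X (X ∪ Cl) q x -
            ∑ x ∈ X, b x * LX X (X ∪ Cl) (q0 m k) x := by
        rw [← Finset.sum_add_distrib, ← Finset.sum_sub_distrib]
        refine Finset.sum_congr rfl fun x _ => ?_
        simp only [hdX]; ring
      have e2 : ∑ x ∈ S, g x * (lS x + LS X (X ∪ Cl) q x - 1) =
          (∑ x ∈ S, g x * dS x) + ∑ x ∈ S, g x * LS X (X ∪ Cl) q x -
            ∑ x ∈ S, g x * LS X (X ∪ Cl) (q0 m k) x := by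
        rw [← Finset.sum_add_distrib, ← Finset.sum_sub_distrib]
        refine Finset.sum_congr rfl fun x _ => ?_
        simp only [hdS]; ring
      rw [e1, e2]; ring
    rw [htot, ex1, ex0]
    set D := D1 X (X ∪ Cl) k m g + D2 X (X ∪ Cl) k m b g with hD
    set DD := (∑ x ∈ X, |b x - B|) + (∑ s ∈ S, |g s - G|) with hDD
    have hDD0 : 0 ≤ DD := add_nonneg (Finset.sum_nonneg fun _ _ => abs_nonneg _)
      (Finset.sum_nonneg fun _ _ => abs_nonneg _)
    have hD0 : 0 ≤ D := by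
      by_contra h
      push Not at h
      have : C / e * D < 0 := mul_neg_of_pos_of_neg (by positivity) h
      linarith
    have hfin : 202 * s * DD ≤ 1 / 8 * D := by
      calc 202 * s * DD ≤ 202 * s * (C / e * D) := by gcongr
        _ ≤ 202 * (e / (1616 * C)) * (C / e * D) := by gcongr
        _ = 1 / 8 * D := by field_simp; ring
    have hDDs : DD = (∑ x ∈ X, |b x - B|) + (∑ s ∈ S, |g s - G|) := hDD
    nlinarith [hgain, hq1c, hq2c, huX2, huS2, hfin]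

private noncomputable def ext26 (CC X : Finset ℕ)
    (q : {c // c ∈ CC} × {y // y ∈ X} × {z // z ∈ X} → ℝ) (c y z : ℕ) : ℝ :=
  if h : c ∈ CC ∧ y ∈ X ∧ z ∈ X then q (⟨c, h.1⟩, ⟨y, h.2.1⟩, ⟨z, h.2.2⟩) else 0

private theorem ext26_eq (CC X : Finset ℕ)
    (q : {c // c ∈ CC} × {y // y ∈ X} × {z // z ∈ X} → ℝ)
    (i : {c // c ∈ CC} × {y // y ∈ X} × {z // z ∈ X}) :
    ext26 CC X q i.1 i.2.1 i.2.2 = q i := by
  unfold ext26
  rw [dif_pos ⟨i.1.2, i.2.1.2, i.2.2.2⟩]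

private theorem sum26 (CC X : Finset ℕ) (f : ℕ → ℕ → ℕ → ℝ) :
    ∑ i : {c // c ∈ CC} × {y // y ∈ X} × {z // z ∈ X}, f i.1 i.2.1 i.2.2 =
      ∑ c ∈ CC, ∑ y ∈ X, ∑ z ∈ X, f c y z := by
  rw [Fintype.sum_prod_type, ← Finset.sum_coe_sort CC]
  refine Finset.sum_congr rfl fun c _ => ?_
  rw [Fintype.sum_prod_type, ← Finset.sum_coe_sort X]
  refine Finset.sum_congr rfl fun y _ => ?_
  rw [← Finset.sum_coe_sort X]

private theorem LX_w26 (CC X : Finset ℕ) (q : ℕ → ℕ → ℕ → ℝ) (x : ℕ) (hx : x ∈ X) :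
    LX X CC q x = ∑ c ∈ CC, ∑ y ∈ X, ∑ z ∈ X,
      ((if y = x then 1 else 0) + (if z = x then 1 else 0)) * q c y z := by
  unfold LX
  rw [← Finset.sum_add_distrib]
  refine Finset.sum_congr rfl fun c _ => ?_
  simp only [add_mul, Finset.sum_add_distrib]
  congr 1
  · rw [Finset.sum_comm]
    refine Finset.sum_congr rfl fun z _ => ?_
    simp only [ite_mul, one_mul, zero_mul]
    rw [Finset.sum_ite_eq', if_pos hx]
  · refine Finset.sum_congr rfl fun z _ => ?_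
    simp only [ite_mul, one_mul, zero_mul]
    rw [Finset.sum_ite_eq', if_pos hx]

private theorem LS_w26 (CC X : Finset ℕ) (q : ℕ → ℕ → ℕ → ℝ) (s : ℕ) :
    LS X CC q s = ∑ c ∈ CC, ∑ y ∈ X, ∑ z ∈ X,
      ((if c + y = s then 1 else 0) + (if y + z = s then 1 else 0)) * q c y z := by
  unfold LS
  simp only [← Finset.sum_add_distrib]
  refine Finset.sum_congr rfl fun c _ => Finset.sum_congr rfl fun y _ =>
      Finset.sum_congr rfl fun z _ => ?_
  simp only [add_mul, ite_mul, one_mul, zero_mul]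

theorem lp_main : ∃ c0 : ℝ, 0 < c0 ∧ ∀ {n : ℕ} {X S Cl : Finset ℕ} {e t : ℝ}
    {k : ℕ → ℕ → ℝ} {π m lX lS : ℕ → ℝ}, Ker n X S Cl t k π → Mass n X Cl e t π m →
    LPH n X S Cl t k m lX lS → 0 < e → e ≤ 1 → 0 < t → t ≤ c0 * e ^ 2 → 1000 ≤ n → 10 ≤ t * n →
    ∃ q : ℕ → ℕ → ℕ → ℝ, (∀ c y z, 0 ≤ q c y z ∧ q c y z ≤ (1 + 20 / e) * q0 m k c y z) ∧
      (∀ c ∈ X ∪ Cl, ∑ y ∈ X, ∑ z ∈ X, q c y z = m c) ∧
      (∀ x ∈ X, lX x + LX X (X ∪ Cl) q x ≤ 1) ∧
      (∀ s ∈ S, lS s + LS X (X ∪ Cl) q s ≤ 1) := by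
  obtain ⟨c0, hc0, hfix⟩ := lp_fixed
  refine ⟨c0, hc0, ?_⟩
  intro n X S Cl e t k π m lX lS hk hm hl he he1 ht htc hn hnt
  have hfix' := hfix hk hm hl he he1 ht htc hn hnt
  clear hfix
  have hq0nn := q0_nn26 hk hm
  have hK1 : (1 : ℝ) ≤ 1 + 20 / e := by
    have : (0 : ℝ) ≤ 20 / e := by positivity
    linarith
  set K : ℝ := 1 + 20 / e with hK
  set CC := X ∪ Cl with hCC
  -- the polytope
  set Q : Set ({c // c ∈ CC} × {y // y ∈ X} × {z // z ∈ X} → ℝ) :=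
    {q | (∀ i, 0 ≤ q i ∧ q i ≤ K * q0 m k i.1 i.2.1 i.2.2) ∧
      ∀ c ∈ CC, ∑ y ∈ X, ∑ z ∈ X, ext26 CC X q c y z = m c} with hQd
  have hrestr : ∀ q : ℕ → ℕ → ℕ → ℝ, (∀ c y z, 0 ≤ q c y z ∧ q c y z ≤ K * q0 m k c y z) →
      (∀ c ∈ CC, ∑ y ∈ X, ∑ z ∈ X, q c y z = m c) → (fun i => q i.1 i.2.1 i.2.2) ∈ Q := by
    intro q h1 h2
    refine ⟨fun i => h1 _ _ _, fun c hc => ?_⟩
    rw [← h2 c hc]
    refine Finset.sum_congr rfl fun y hy => Finset.sum_congr rfl fun z hz => ?_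
    exact ext26_eq CC X (fun i => q i.1 i.2.1 i.2.2) (⟨c, hc⟩, ⟨y, hy⟩, ⟨z, hz⟩)
  have hsumlin : ∀ (c : ℕ) (p r : {c // c ∈ CC} × {y // y ∈ X} × {z // z ∈ X} → ℝ) (x y : ℝ),
      ∑ y' ∈ X, ∑ z ∈ X, ext26 CC X (x • p + y • r) c y' z =
      x * (∑ y' ∈ X, ∑ z ∈ X, ext26 CC X p c y' z) +
        y * (∑ y' ∈ X, ∑ z ∈ X, ext26 CC X r c y' z) := by
    intro c p r x y
    simp only [Finset.mul_sum, ← Finset.sum_add_distrib]
    refine Finset.sum_congr rfl fun y' _ => Finset.sum_congr rfl fun z _ => ?_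
    unfold ext26
    split_ifs with h
    · simp [Pi.add_apply, Pi.smul_apply, smul_eq_mul]
    · ring
  have hconv : Convex ℝ Q := by
    intro p hp r hr x y hx hy hxy
    refine ⟨fun i => ?_, fun c hc => ?_⟩
    · have h1 := hp.1 i
      have h2 := hr.1 i
      simp only [Pi.add_apply, Pi.smul_apply, smul_eq_mul]
      constructor
      · have := mul_nonneg hx h1.1
        have := mul_nonneg hy h2.1
        linarith
      · have e1 := mul_le_mul_of_nonneg_left h1.2 hx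
        have e2 := mul_le_mul_of_nonneg_left h2.2 hy
        have e3 : x * (K * q0 m k i.1 i.2.1 i.2.2) + y * (K * q0 m k i.1 i.2.1 i.2.2) =
          K * q0 m k i.1 i.2.1 i.2.2 := by rw [← add_mul, hxy, one_mul]
        linarith
    · rw [hsumlin, hp.2 c hc, hr.2 c hc, ← add_mul, hxy, one_mul]
  have hcomp : IsCompact Q := by
    have h1 : IsCompact (Set.pi Set.univ fun i : {c // c ∈ CC} × {y // y ∈ X} × {z // z ∈ X} =>
        Set.Icc (0 : ℝ) (K * q0 m k i.1 i.2.1 i.2.2)) :=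
      isCompact_univ_pi fun i => isCompact_Icc
    refine h1.of_isClosed_subset ?_ ?_
    · have h2 : Q = (⋂ i, {q | 0 ≤ q i ∧ q i ≤ K * q0 m k i.1 i.2.1 i.2.2}) ∩
          ⋂ c ∈ CC, {q | ∑ y ∈ X, ∑ z ∈ X, ext26 CC X q c y z = m c} := by
        ext q
        simp only [hQd, Set.mem_ofPred_eq, Set.mem_inter_iff, Set.mem_iInter]
      rw [h2]
      refine IsClosed.inter (isClosed_iInter fun i => ?_) (isClosed_iInter fun c =>
        isClosed_iInter fun hc => ?_)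
      · exact IsClosed.inter (isClosed_le continuous_const (continuous_apply i))
          (isClosed_le (continuous_apply i) continuous_const)
      · refine isClosed_eq ?_ continuous_const
        refine continuous_finsetSum _ fun y _ => continuous_finsetSum _ fun z _ => ?_
        unfold ext26
        split_ifs with h
        · exact continuous_apply _
        · exact continuous_const
    · intro q hq i _
      exact hq.1 i
  have hne : Q.Nonempty := by
    refine ⟨_, hrestr (q0 m k) (fun c y z => ⟨hq0nn c y z, ?_⟩) (fun c hc => q0_sum26 hk c hc)⟩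
    have := hq0nn c y z
    nlinarith
  -- the linear forms
  set a : {x // x ∈ X} ⊕ {s // s ∈ S} → ℝ :=
    Sum.elim (fun x => lX x - 1) (fun s => lS s - 1) with ha
  set M : {x // x ∈ X} ⊕ {s // s ∈ S} → {c // c ∈ CC} × {y // y ∈ X} × {z // z ∈ X} → ℝ :=
    Sum.elim
      (fun x i => (if (i.2.1 : ℕ) = x then 1 else 0) + (if (i.2.2 : ℕ) = x then 1 else 0))
      (fun s i => (if (i.1 : ℕ) + i.2.1 = s then 1 else 0) +
        (if (i.2.1 : ℕ) + i.2.2 = s then 1 else 0)) with hM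
  have hMX : ∀ (q : ℕ → ℕ → ℕ → ℝ) (x : {x // x ∈ X}),
      ∑ i, M (Sum.inl x) i * q i.1 i.2.1 i.2.2 = LX X CC q x := by
    intro q x
    rw [LX_w26 CC X q x x.2]
    exact sum26 CC X (fun c y z =>
      ((if y = (x : ℕ) then 1 else 0) + (if z = (x : ℕ) then 1 else 0)) * q c y z)
  have hMS : ∀ (q : ℕ → ℕ → ℕ → ℝ) (s : {s // s ∈ S}),
      ∑ i, M (Sum.inr s) i * q i.1 i.2.1 i.2.2 = LS X CC q s := by
    intro q s
    rw [LS_w26 CC X q s]
    exact sum26 CC X (fun c y z =>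
      ((if c + y = (s : ℕ) then 1 else 0) + (if y + z = (s : ℕ) then 1 else 0)) * q c y z)
  obtain ⟨q, hq, hqj⟩ := minimax Q hconv hcomp hne a M (by
    intro l hl0
    obtain ⟨q, hqa, hqb, hqc⟩ := hfix'
      (fun x => if h : x ∈ X then l (Sum.inl ⟨x, h⟩) else 0)
      (fun s => if h : s ∈ S then l (Sum.inr ⟨s, h⟩) else 0)
      (fun x => by
        split_ifs
        · exact hl0 _
        · exact le_refl _)
      (fun x => by
        split_ifs
        · exact hl0 _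
        · exact le_refl _)
    refine ⟨fun i => q i.1 i.2.1 i.2.2, hrestr q hqa hqb, ?_⟩
    rw [Fintype.sum_sum_type]
    refine le_trans (le_of_eq ?_) hqc
    congr 1
    · rw [← Finset.sum_coe_sort X]
      refine Finset.sum_congr rfl fun x _ => ?_
      rw [hMX q x, dif_pos x.2]
      simp only [ha, Sum.elim_inl]
      ring
    · rw [← Finset.sum_coe_sort S]
      refine Finset.sum_congr rfl fun s _ => ?_
      rw [hMS q s, dif_pos s.2]
      simp only [ha, Sum.elim_inr]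
      ring)
  have hqe : ∀ i, q i = ext26 CC X q i.1 i.2.1 i.2.2 := fun i => (ext26_eq CC X q i).symm
  refine ⟨ext26 CC X q, ?_, hq.2, ?_, ?_⟩
  · intro c y z
    unfold ext26
    split_ifs with h
    · exact hq.1 (⟨c, h.1⟩, ⟨y, h.2.1⟩, ⟨z, h.2.2⟩)
    · exact ⟨le_refl _, mul_nonneg (by linarith) (hq0nn c y z)⟩
  · intro x hx
    have h1 := hqj (Sum.inl ⟨x, hx⟩)
    have h2 := hMX (ext26 CC X q) ⟨x, hx⟩
    have h3 : ∑ i, M (Sum.inl ⟨x, hx⟩) i * q i = LX X CC (ext26 CC X q) x := by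
      rw [← h2]
      exact Finset.sum_congr rfl fun i _ => by rw [← hqe i]
    rw [h3] at h1
    simp only [ha, Sum.elim_inl] at h1
    linarith
  · intro s hs
    have h1 := hqj (Sum.inr ⟨s, hs⟩)
    have h2 := hMS (ext26 CC X q) ⟨s, hs⟩
    have h3 : ∑ i, M (Sum.inr ⟨s, hs⟩) i * q i = LS X CC (ext26 CC X q) s := by
      rw [← h2]
      exact Finset.sum_congr rfl fun i _ => by rw [← hqe i]
    rw [h3] at h1
    simp only [ha, Sum.elim_inr] at h1
    linarith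

end Pool.Agent.SEM
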