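import Pool.Agent.Helper73.SEM.KD

/-!
# SEM-LPD: definitions for the linear programming part

`m c` is the expected number of flexible pendant paths `(c, v, u)` whose attachment vertex has label `c`;
`q c y z` is the (new) expected number of flexible paths with labels `c, y, z`; `q0` is the base law.
-/

set_option autoImplicit false

namespace Pool.Agent.SEM

open Finset

noncomputable def q0 (m : ℕ → ℝ) (k : ℕ → ℕ → ℝ) (c y z : ℕ) : ℝ := m c * k c y * k y z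

/-- load of the label `x` -/
noncomputable def LX (X CC : Finset ℕ) (q : ℕ → ℕ → ℕ → ℝ) (x : ℕ) : ℝ :=
  (∑ c ∈ CC, ∑ z ∈ X, q c x z) + ∑ c ∈ CC, ∑ y ∈ X, q c y x

/-- load of the sum `s` -/
noncomputable def LS (X CC : Finset ℕ) (q : ℕ → ℕ → ℕ → ℝ) (s : ℕ) : ℝ :=
  (∑ c ∈ CC, ∑ y ∈ X, ∑ z ∈ X, if c + y = s then q c y z else 0) +
    ∑ c ∈ CC, ∑ y ∈ X, ∑ z ∈ X, if y + z = s then q c y z else 0

structure Mass (n : ℕ) (X Cl : Finset ℕ) (e t : ℝ) (π m : ℕ → ℝ) : Prop where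
  nn : ∀ c, 0 ≤ m c
  supp : ∀ c, m c ≠ 0 → c ∈ X ∪ Cl
  lo : e * n ≤ ∑ c ∈ X ∪ Cl, m c
  hi : ∑ c ∈ X ∪ Cl, m c ≤ n
  spread : ∀ c ∈ X, m c ≤ (1 + t) * (∑ c' ∈ X, m c') * π c

/-- cost of a flexible path -/
noncomputable def HH (b g : ℕ → ℝ) (c y z : ℕ) : ℝ := b y + b z + g (c + y) + g (y + z)

/-- first Dirichlet form (swap of `y` and `z`) -/
noncomputable def D1 (X CC : Finset ℕ) (k : ℕ → ℕ → ℝ) (m g : ℕ → ℝ) : ℝ :=
  ∑ c ∈ CC, ∑ y ∈ X, ∑ z ∈ X, min (q0 m k c y z) (q0 m k c z y) * |g (c + y) - g (c + z)|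

/-- second Dirichlet form (resampling of `z`) -/
noncomputable def D2 (X CC : Finset ℕ) (k : ℕ → ℕ → ℝ) (m b g : ℕ → ℝ) : ℝ :=
  ∑ c ∈ CC, ∑ y ∈ X, ∑ z ∈ X, ∑ z' ∈ X,
    m c * k c y * k y z * k y z' * |b z + g (y + z) - b z' - g (y + z')|

end Pool.Agent.SEM
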