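import Pool.Agent.Helper73.SEM.LWD

/-!
# SEM-LW2: adding the flexible pendant paths to a random labelling

Proof in words.  Induction on `F`: add one flexible path `(p v, v, u v)`: `Ω' = Ω × {y // y ∈ X} × {z // z ∈ X}`,
`wt' (ω,y,z) = wt ω * qh (Φ ω (p v)) y z`, `Φ'` = update at `v` and `u v`.  Since `p v ∈ Q ∪ R` and the new vertices are new, functions of the old
coordinates keep their expectation and `Ex' f(φ(p v), φ v, φ(u v)) = Ex ∑ qh ... f`.  Joint bounds: if `A` contains `v` and `u v` the new factor is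
`qh ≤ M (3/n)² ≤ (6M/n)²`; if only `v`: `∑_z qh c y z ≤ M k c y ≤ 3M/n` (`∑_z k y z = 1` for `y ∈ X`); if only `u v`:
`∑_y qh c y z ≤ M ∑_y k c y (3/n) = 3M/n`; `M ≥ 1`.
-/

set_option autoImplicit false

namespace Pool.Agent.SEM

open Finset

theorem h68_B {n : ℕ} {X S Cl : Finset ℕ} {t : ℝ} {k : ℕ → ℕ → ℝ} {π : ℕ → ℝ}
    (hk : Ker n X S Cl t k π) (hn : 1 ≤ n) (M U : ℝ) (hM : 1 ≤ M) (hU : U = 6 * M)
    (qh : ℕ → ℕ → ℕ → ℝ)
    (hq1 : ∀ c y z, qh c y z ≤ M * (k c y * k y z))
    (hq2 : ∀ c ∈ X ∪ Cl, ∑ y ∈ X, ∑ z ∈ X, qh c y z = 1) (c : ℕ) (hc : c ∈ X ∪ Cl)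
    (a b : Prop) [Decidable a] [Decidable b] (y0 z0 : ℕ) :
    ∑ y ∈ X, ∑ z ∈ X, (if (a → y = y0) ∧ (b → z = z0) then qh c y z else 0)
      ≤ (if a then U / n else 1) * (if b then U / n else 1) := by
  have hn0 : (0 : ℝ) < n := by exact_mod_cast hn
  have hU0 : 0 < U / n := by rw [hU]; positivity
  have h3 : 3 * M / n ≤ U / n := by
    rw [hU]
    gcongr
    norm_num
  by_cases ha : a
  · by_cases hb : b
    · simp only [ha, hb, forall_const, if_true]
      have e1 : ∀ y ∈ X, (∑ z ∈ X, if y = y0 ∧ z = z0 then qh c y z else 0)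
          ≤ if y = y0 then (U / n) * (U / n) else 0 := by
        intro y _
        by_cases hy : y = y0
        · simp only [hy, true_and, if_true]
          rw [Finset.sum_ite_eq']
          split_ifs with hz
          · calc qh c y0 z0 ≤ M * (k c y0 * k y0 z0) := hq1 _ _ _
              _ ≤ M * (3 / n * (3 / n)) := by
                have := hk.nn c y0
                have := hk.nn y0 z0
                have := hk.up c y0
                have := hk.up y0 z0
                gcongr
              _ ≤ (3 * M / n) * (3 * M / n) := by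
                have h5 : M * (3 / n * (3 / n)) = M * (9 / (n : ℝ) ^ 2) := by
                  field_simp
                  norm_num
                have h6 : 3 * M / n * (3 * M / n) = M ^ 2 * (9 / (n : ℝ) ^ 2) := by
                  field_simp
                  norm_num
                rw [h5, h6]
                gcongr
                nlinarith
              _ ≤ _ := by gcongr
          · positivity
        · simp only [hy, false_and, if_false, Finset.sum_const_zero]
          exact le_rfl
      refine (Finset.sum_le_sum e1).trans ?_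
      rw [Finset.sum_ite_eq']
      split_ifs
      · exact le_rfl
      · positivity
    · simp only [ha, hb, forall_const, false_imp_iff, and_true, if_true, if_false, mul_one]
      have e1 : ∀ y ∈ X, (∑ z ∈ X, if y = y0 then qh c y z else 0)
          ≤ if y = y0 then U / n else 0 := by
        intro y hy
        by_cases hyy : y = y0
        · simp only [hyy, if_true]
          have hy0 : y0 ∈ X := hyy ▸ hy
          calc ∑ z ∈ X, qh c y0 z ≤ ∑ z ∈ X, M * (k c y0 * k y0 z) :=
                Finset.sum_le_sum fun z _ => hq1 _ _ _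
            _ = M * (k c y0 * ∑ z ∈ X, k y0 z) := by
                rw [Finset.mul_sum, Finset.mul_sum]
            _ = M * k c y0 := by
                rw [hk.one y0 (Finset.mem_union_left _ hy0), mul_one]
            _ ≤ M * (3 / n) := by
                have := hk.up c y0
                gcongr
            _ = 3 * M / n := by ring
            _ ≤ U / n := h3
        · simp only [hyy, if_false, Finset.sum_const_zero]
          exact le_rfl
      refine (Finset.sum_le_sum e1).trans ?_
      rw [Finset.sum_ite_eq']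
      split_ifs
      · exact le_rfl
      · positivity
  · by_cases hb : b
    · simp only [ha, hb, forall_const, false_imp_iff, true_and, if_true, if_false, one_mul]
      have e1 : ∀ y ∈ X, (∑ z ∈ X, if z = z0 then qh c y z else 0) ≤ M * (k c y * (3 / n)) := by
        intro y _
        rw [Finset.sum_ite_eq']
        have h1 := hk.nn c y
        split_ifs
        · refine (hq1 _ _ _).trans ?_
          have := hk.up y z0
          gcongr
        · positivity
      refine (Finset.sum_le_sum e1).trans ?_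
      rw [← Finset.mul_sum, ← Finset.sum_mul, hk.one c hc, one_mul]
      calc M * (3 / n) = 3 * M / n := by ring
        _ ≤ U / n := h3
    · simp only [ha, hb, false_imp_iff, and_self, if_true, if_false, mul_one]
      exact (hq2 c hc).le

theorem h68_step {n : ℕ} {X S Cl : Finset ℕ} {t : ℝ} {k : ℕ → ℕ → ℝ} {π : ℕ → ℝ}
    (hk : Ker n X S Cl t k π) (hn : 1 ≤ n) (p lab : ℕ → ℕ) (R P ex : Finset ℕ) (v w : ℕ)
    (hlab : ∀ r ∈ R, lab r ∈ Cl) (hv : v ∉ P ∪ R) (hw : w ∉ P ∪ R) (hvw : v ≠ w) (hpw : p w = v)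
    (hpv : p v ∈ P ∪ R) (hP : ∀ i ∈ P, p i ∈ P ∪ R) (hexR : ex ⊆ R) (hexP : ∀ r ∈ ex, p r ∈ P)
    (M U : ℝ) (hM : 1 ≤ M) (hU : U = 6 * M) (L : FL) (hL : PL n p R lab X S P ex U L)
    (qh : ℕ → ℕ → ℕ → ℝ) (hq0 : ∀ c y z, 0 ≤ qh c y z)
    (hq1 : ∀ c y z, qh c y z ≤ M * (k c y * k y z))
    (hq2 : ∀ c ∈ X ∪ Cl, ∑ y ∈ X, ∑ z ∈ X, qh c y z = 1) :
    ∃ L' : FL, PL n p R lab X S (insert v (insert w P)) ex U L' ∧
      (∀ f : (ℕ → ℕ) → ℝ, (∀ φ ψ : ℕ → ℕ, (∀ i ∈ P ∪ R, φ i = ψ i) → f φ = f ψ) →
        L'.Ex f = L.Ex f) ∧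
      (∀ f : ℕ → ℕ → ℕ → ℝ, L'.Ex (fun φ => f (φ (p v)) (φ v) (φ w)) =
          L.Ex (fun φ => ∑ y ∈ X, ∑ z ∈ X, qh (φ (p v)) y z * f (φ (p v)) y z)) := by
  have hn0 : (0 : ℝ) < n := by exact_mod_cast hn
  have hU0 : 0 < U / n := by rw [hU]; positivity
  have hvP : v ∉ P := fun h => hv (Finset.mem_union_left _ h)
  have hvR : v ∉ R := fun h => hv (Finset.mem_union_right _ h)
  have hwP : w ∉ P := fun h => hw (Finset.mem_union_left _ h)
  have hwR : w ∉ R := fun h => hw (Finset.mem_union_right _ h)
  let _ := L.fin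
  let L' : FL :=
    { Ω := L.Ω × ({y // y ∈ X} × {z // z ∈ X})
      fin := inferInstance
      wt := fun z => L.wt z.1 * qh (L.Φ z.1 (p v)) z.2.1 z.2.2
      Φ := fun z => Function.update (Function.update (L.Φ z.1) v z.2.1) w z.2.2 }
  have key : ∀ g : (ℕ → ℕ) → ℝ, L'.Ex g = ∑ ω : L.Ω, L.wt ω * ∑ y ∈ X, ∑ z ∈ X,
      qh (L.Φ ω (p v)) y z * g (Function.update (Function.update (L.Φ ω) v y) w z) := by
    intro g
    change ∑ z : L.Ω × ({y // y ∈ X} × {z // z ∈ X}), L.wt z.1 * qh (L.Φ z.1 (p v)) z.2.1 z.2.2 *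
      g (Function.update (Function.update (L.Φ z.1) v z.2.1) w z.2.2) = _
    rw [Fintype.sum_prod_type]
    apply Finset.sum_congr rfl
    intro ω _
    rw [Fintype.sum_prod_type, ← Finset.sum_coe_sort X, Finset.mul_sum]
    apply Finset.sum_congr rfl
    intro y _
    rw [← Finset.sum_coe_sort X, Finset.mul_sum]
    apply Finset.sum_congr rfl
    intro z _
    ring
  have hc : ∀ ω : L.Ω, L.wt ω ≠ 0 → L.Φ ω (p v) ∈ X ∪ Cl := by
    intro ω hω
    rcases Finset.mem_union.1 hpv with h | h
    · exact Finset.mem_union_left _ (hL.lbl ω hω _ h)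
    · rw [hL.onR ω _ h]
      exact Finset.mem_union_right _ (hlab _ h)
  have hup : ∀ (φ : ℕ → ℕ) (y z i : ℕ), i ≠ v → i ≠ w →
      Function.update (Function.update φ v y) w z i = φ i := by
    intro φ y z i h1 h2
    rw [Function.update_of_ne h2, Function.update_of_ne h1]
  have hupv : ∀ (φ : ℕ → ℕ) (y z : ℕ),
      Function.update (Function.update φ v y) w z v = y := by
    intro φ y z
    rw [Function.update_of_ne hvw, Function.update_self]
  have hupw : ∀ (φ : ℕ → ℕ) (y z : ℕ),
      Function.update (Function.update φ v y) w z w = z := by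
    intro φ y z
    rw [Function.update_self]
  have hne : ∀ i ∈ P ∪ R, i ≠ v ∧ i ≠ w := fun i hi =>
    ⟨fun h => hv (h ▸ hi), fun h => hw (h ▸ hi)⟩
  have marg : ∀ f : (ℕ → ℕ) → ℝ, (∀ φ ψ : ℕ → ℕ, (∀ i ∈ P ∪ R, φ i = ψ i) → f φ = f ψ) →
      L'.Ex f = L.Ex f := by
    intro f hf
    rw [key]
    unfold FL.Ex
    apply Finset.sum_congr rfl
    intro ω _
    by_cases hω : L.wt ω = 0
    · rw [hω, zero_mul, zero_mul]
    · congr 1
      have h1 : ∀ y ∈ X, ∀ z ∈ X, qh (L.Φ ω (p v)) y z *
          f (Function.update (Function.update (L.Φ ω) v y) w z)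
          = qh (L.Φ ω (p v)) y z * f (L.Φ ω) := by
        intro y _ z _
        congr 1
        apply hf
        intro i hi
        exact hup _ _ _ _ (hne i hi).1 (hne i hi).2
      rw [Finset.sum_congr rfl fun y hy => Finset.sum_congr rfl fun z hz => h1 y hy z hz]
      simp only [← Finset.sum_mul]
      rw [hq2 _ (hc ω hω), one_mul]
  refine ⟨L', ?_, marg, ?_⟩
  · refine ⟨?_, ?_, ?_, ?_, ?_, ?_⟩
    · rintro ⟨ω, y, z⟩
      exact mul_nonneg (hL.nn ω) (hq0 _ _ _)
    · rw [marg _ (fun _ _ _ => rfl)]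
      exact hL.one
    · rintro ⟨ω, y, z⟩ r hr
      change Function.update (Function.update (L.Φ ω) v y) w z r = lab r
      have := hne r (Finset.mem_union_right _ hr)
      rw [hup _ _ _ _ this.1 this.2]
      exact hL.onR ω r hr
    · rintro ⟨ω, y, z⟩ h i hi
      have h1 : L.wt ω ≠ 0 := left_ne_zero_of_mul h
      change Function.update (Function.update (L.Φ ω) v y) w z i ∈ X
      rcases Finset.mem_insert.1 hi with rfl | hi
      · rw [hupv]
        exact y.2
      rcases Finset.mem_insert.1 hi with rfl | hi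
      · rw [hupw]
        exact z.2
      · have := hne i (Finset.mem_union_left _ hi)
        rw [hup _ _ _ _ this.1 this.2]
        exact hL.lbl ω h1 i hi
    · rintro ⟨ω, y, z⟩ h i hi
      have h1 : L.wt ω ≠ 0 := left_ne_zero_of_mul h
      have h2 : qh (L.Φ ω (p v)) y z ≠ 0 := right_ne_zero_of_mul h
      have h3 : 0 < k (L.Φ ω (p v)) y * k y z := by
        by_contra hcon
        push Not at hcon
        apply h2
        apply le_antisymm _ (hq0 _ _ _)
        refine (hq1 _ _ _).trans ?_
        nlinarith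
      have h4 : k (L.Φ ω (p v)) y ≠ 0 := left_ne_zero_of_mul h3.ne'
      have h5 : k y z ≠ 0 := right_ne_zero_of_mul h3.ne'
      change Function.update (Function.update (L.Φ ω) v y) w z i +
        Function.update (Function.update (L.Φ ω) v y) w z (p i) ∈ S
      rcases Finset.mem_union.1 hi with hi | hi
      · rcases Finset.mem_insert.1 hi with rfl | hi
        · have := hne _ hpv
          rw [hupv, hup _ _ _ _ this.1 this.2, add_comm]
          exact (hk.supp _ _ h4).2
        rcases Finset.mem_insert.1 hi with rfl | hi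
        · rw [hupw, hpw, hupv, add_comm]
          exact (hk.supp _ _ h5).2
        · have h6 := hne i (Finset.mem_union_left _ hi)
          have h7 := hne _ (hP i hi)
          rw [hup _ _ _ _ h6.1 h6.2, hup _ _ _ _ h7.1 h7.2]
          exact hL.sm ω h1 i (Finset.mem_union_left _ hi)
      · have h6 := hne i (Finset.mem_union_right _ (hexR hi))
        have h7 := hne _ (Finset.mem_union_left _ (hexP i hi))
        rw [hup _ _ _ _ h6.1 h6.2, hup _ _ _ _ h7.1 h7.2]
        exact hL.sm ω h1 i (Finset.mem_union_right _ hi)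
    · intro A hA x
      classical
      set A0 := (A.erase v).erase w with hA0
      have hA0P : A0 ⊆ P := by
        intro i hi
        rw [hA0, Finset.mem_erase, Finset.mem_erase] at hi
        rcases Finset.mem_insert.1 (hA hi.2.2) with h | h
        · exact absurd h hi.2.1
        rcases Finset.mem_insert.1 h with h | h
        · exact absurd h hi.1
        · exact h
      have hcond : ∀ (φ : ℕ → ℕ) (y z : ℕ),
          (∀ i ∈ A, Function.update (Function.update φ v y) w z i = x i) ↔
          ((∀ i ∈ A0, φ i = x i) ∧ ((v ∈ A → y = x v) ∧ (w ∈ A → z = x w))) := by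
        intro φ y z
        constructor
        · intro h
          refine ⟨fun i hi => ?_, fun h1 => ?_, fun h1 => ?_⟩
          · rw [hA0, Finset.mem_erase, Finset.mem_erase] at hi
            rw [← h i hi.2.2, hup _ _ _ _ hi.2.1 hi.1]
          · rw [← h v h1, hupv]
          · rw [← h w h1, hupw]
        · rintro ⟨h1, h2, h3⟩ i hi
          by_cases hiv : i = v
          · rw [hiv, hupv]
            exact h2 (hiv ▸ hi)
          by_cases hiw : i = w
          · rw [hiw, hupw]
            exact h3 (hiw ▸ hi)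
          · rw [hup _ _ _ _ hiv hiw]
            apply h1
            rw [hA0, Finset.mem_erase, Finset.mem_erase]
            exact ⟨hiw, hiv, hi⟩
      have hcard : (U / n : ℝ) ^ A.card = (U / n) ^ A0.card *
          ((if v ∈ A then U / n else 1) * (if w ∈ A then U / n else 1)) := by
        have hw1 : w ∈ A.erase v ↔ w ∈ A := by
          rw [Finset.mem_erase]
          exact ⟨fun h => h.2, fun h => ⟨hvw.symm, h⟩⟩
        by_cases h1 : v ∈ A
        · by_cases h2 : w ∈ A
          · have e1 := Finset.card_erase_add_one h1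
            have e2 := Finset.card_erase_add_one (hw1.2 h2)
            rw [if_pos h1, if_pos h2, ← e1, ← e2, pow_succ, pow_succ]
            ring
          · have e1 := Finset.card_erase_add_one h1
            have e2 : A0 = A.erase v := Finset.erase_eq_of_notMem (fun h => h2 (hw1.1 h))
            rw [if_pos h1, if_neg h2, ← e1, ← e2, pow_succ, mul_one]
        · have e0 : A.erase v = A := Finset.erase_eq_of_notMem h1
          by_cases h2 : w ∈ A
          · have e2 := Finset.card_erase_add_one h2
            rw [if_neg h1, if_pos h2, hA0, e0, ← e2, pow_succ, one_mul]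
          · have e2 : A0 = A := by
              rw [hA0, e0]
              exact Finset.erase_eq_of_notMem h2
            rw [if_neg h1, if_neg h2, e2, mul_one, mul_one]
      rw [hcard]
      have hB := fun (ω : L.Ω) (hω : L.wt ω ≠ 0) =>
        h68_B hk hn M U hM hU qh hq1 hq2 (L.Φ ω (p v)) (hc ω hω) (v ∈ A) (w ∈ A) (x v) (x w)
      set B := (if v ∈ A then U / n else 1) * (if w ∈ A then U / n else 1) with hBdef
      have hB0 : 0 ≤ B := by
        rw [hBdef]
        apply mul_nonneg <;> split_ifs <;> positivity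
      have h8 : L'.Pr (fun φ => ∀ i ∈ A, φ i = x i) ≤ L.Pr (fun φ => ∀ i ∈ A0, φ i = x i) * B := by
        unfold FL.Pr
        rw [key]
        unfold FL.Ex
        rw [Finset.sum_mul]
        apply Finset.sum_le_sum
        intro ω _
        by_cases hω : L.wt ω = 0
        · rw [hω]
          simp
        · rw [mul_assoc]
          apply mul_le_mul_of_nonneg_left _ (hL.nn ω)
          beta_reduce
          by_cases h9 : ∀ i ∈ A0, L.Φ ω i = x i
          · rw [if_pos h9, one_mul]
            refine le_trans (le_of_eq ?_) (hB ω hω)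
            apply Finset.sum_congr rfl
            intro y _
            apply Finset.sum_congr rfl
            intro z _
            have h10 := hcond (L.Φ ω) y z
            by_cases h11 : (v ∈ A → y = x v) ∧ (w ∈ A → z = x w)
            · rw [if_pos (h10.2 ⟨h9, h11⟩), if_pos h11, mul_one]
            · rw [if_neg (fun h => h11 (h10.1 h).2), if_neg h11, mul_zero]
          · rw [if_neg h9, zero_mul]
            apply le_of_eq
            apply Finset.sum_eq_zero
            intro y _
            apply Finset.sum_eq_zero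
            intro z _
            rw [if_neg (fun h => h9 ((hcond (L.Φ ω) y z).1 h).1), mul_zero]
      refine h8.trans ?_
      gcongr
      exact hL.joint A0 hA0P x
  · intro f
    rw [key]
    unfold FL.Ex
    apply Finset.sum_congr rfl
    intro ω _
    congr 1
    apply Finset.sum_congr rfl
    intro y _
    apply Finset.sum_congr rfl
    intro z _
    have h6 := hne _ hpv
    rw [hupv, hupw, hup _ _ _ _ h6.1 h6.2]

theorem flex_law {n : ℕ} {X S Cl : Finset ℕ} {t : ℝ} {k : ℕ → ℕ → ℝ} {π : ℕ → ℝ}
    (hk : Ker n X S Cl t k π) (hn : 1 ≤ n) (p lab u : ℕ → ℕ) (R Q ex F : Finset ℕ)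
    (hlab : ∀ r ∈ R, lab r ∈ Cl) (hQR : Disjoint Q R) (hFQ : Disjoint F (Q ∪ R))
    (huF : ∀ v ∈ F, u v ∉ Q ∪ R ∪ F ∧ p (u v) = v ∧ p v ∈ Q ∪ R)
    (huinj : Set.InjOn u F) (hpQ : ∀ v ∈ Q, p v ∈ Q ∪ R) (hexR : ex ⊆ R) (hexQ : ∀ r ∈ ex, p r ∈ Q)
    (L0 : FL) (hL0 : PL n p R lab X S Q ex 6 L0) (M : ℝ) (hM : 1 ≤ M)
    (qh : ℕ → ℕ → ℕ → ℝ) (hq0 : ∀ c y z, 0 ≤ qh c y z)
    (hq1 : ∀ c y z, qh c y z ≤ M * (k c y * k y z))
    (hq2 : ∀ c ∈ X ∪ Cl, ∑ y ∈ X, ∑ z ∈ X, qh c y z = 1) :
    ∃ L : FL, PL n p R lab X S (Q ∪ F ∪ F.image u) ex (6 * M) L ∧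
      (∀ f : (ℕ → ℕ) → ℝ, (∀ φ ψ : ℕ → ℕ, (∀ i ∈ Q ∪ R, φ i = ψ i) → f φ = f ψ) →
        L.Ex f = L0.Ex f) ∧
      (∀ v ∈ F, ∀ f : ℕ → ℕ → ℕ → ℝ,
        L.Ex (fun φ => f (φ (p v)) (φ v) (φ (u v))) =
          L0.Ex (fun φ => ∑ y ∈ X, ∑ z ∈ X, qh (φ (p v)) y z * f (φ (p v)) y z)) := by
  classical
  induction F using Finset.induction_on with
  | empty =>
    refine ⟨L0, ⟨hL0.nn, hL0.one, hL0.onR, ?_, ?_, ?_⟩, fun f _ => rfl, fun v hv => ?_⟩
    · intro ω hω v hv
      exact hL0.lbl ω hω v (by simpa using hv)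
    · intro ω hω i hi
      exact hL0.sm ω hω i (by simpa using hi)
    · intro A hA x
      refine (hL0.joint A (by simpa using hA) x).trans ?_
      gcongr
      linarith
    · exact absurd hv (Finset.notMem_empty v)
  | insert v F hvF ih =>
    have hFQ' : Disjoint F (Q ∪ R) := Finset.disjoint_of_subset_left (Finset.subset_insert v F) hFQ
    have huF' : ∀ w ∈ F, u w ∉ Q ∪ R ∪ F ∧ p (u w) = w ∧ p w ∈ Q ∪ R := by
      intro w hw
      obtain ⟨h1, h2, h3⟩ := huF w (Finset.mem_insert_of_mem hw)
      refine ⟨fun h => h1 ?_, h2, h3⟩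
      rcases Finset.mem_union.1 h with h | h
      · exact Finset.mem_union_left _ h
      · exact Finset.mem_union_right _ (Finset.mem_insert_of_mem h)
    have huinj' : Set.InjOn u F := huinj.mono (by
      rw [Finset.coe_insert]
      exact Set.subset_insert _ _)
    obtain ⟨L1, hL1, hm1, hv1⟩ := ih hFQ' huF' huinj'
    obtain ⟨a1, a2, a3⟩ := huF v (Finset.mem_insert_self v F)
    have hvQR : v ∉ Q ∪ R := fun h => (Finset.disjoint_left.1 hFQ (Finset.mem_insert_self v F)) h
    have hvim : v ∉ F.image u := by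
      intro h
      obtain ⟨w, hw, hwv⟩ := Finset.mem_image.1 h
      exact (huF w (Finset.mem_insert_of_mem hw)).1
        (Finset.mem_union_right _ (hwv ▸ Finset.mem_insert_self v F))
    have huim : u v ∉ F.image u := by
      intro h
      obtain ⟨w, hw, hwv⟩ := Finset.mem_image.1 h
      have := huinj (Finset.mem_coe.2 (Finset.mem_insert_of_mem hw))
        (Finset.mem_coe.2 (Finset.mem_insert_self v F)) hwv
      exact hvF (this ▸ hw)
    have hv : v ∉ (Q ∪ F ∪ F.image u) ∪ R := by
      simp only [Finset.mem_union, not_or] at hvQR ⊢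
      exact ⟨⟨⟨hvQR.1, hvF⟩, hvim⟩, hvQR.2⟩
    have hu : u v ∉ (Q ∪ F ∪ F.image u) ∪ R := by
      simp only [Finset.mem_union, Finset.mem_insert, not_or] at a1 ⊢
      exact ⟨⟨⟨a1.1.1, a1.2.2⟩, huim⟩, a1.1.2⟩
    have hne : v ≠ u v := by
      intro h
      exact a1 (Finset.mem_union_right _ (h ▸ Finset.mem_insert_self v F))
    have hsub : Q ∪ R ⊆ (Q ∪ F ∪ F.image u) ∪ R := by
      intro i hi
      simp only [Finset.mem_union] at hi ⊢
      tauto
    have hP : ∀ i ∈ Q ∪ F ∪ F.image u, p i ∈ (Q ∪ F ∪ F.image u) ∪ R := by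
      intro i hi
      rcases Finset.mem_union.1 hi with hi | hi
      · rcases Finset.mem_union.1 hi with hi | hi
        · exact hsub (hpQ i hi)
        · exact hsub (huF' i hi).2.2
      · obtain ⟨w, hw, rfl⟩ := Finset.mem_image.1 hi
        rw [(huF' w hw).2.1]
        exact Finset.mem_union_left _ (Finset.mem_union_left _ (Finset.mem_union_right _ hw))
    obtain ⟨L, hL, hm, hf⟩ := h68_step hk hn p lab R (Q ∪ F ∪ F.image u) ex v (u v) hlab hv hu hne a2
      (hsub a3) hP hexR (fun r hr => Finset.mem_union_left _ (Finset.mem_union_left _ (hexQ r hr)))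
      M (6 * M) hM rfl L1 hL1 qh hq0 hq1 hq2
    have hset : insert v (insert (u v) (Q ∪ F ∪ F.image u))
        = Q ∪ insert v F ∪ (insert v F).image u := by
      ext i
      simp only [Finset.mem_insert, Finset.mem_union, Finset.image_insert]
      tauto
    rw [hset] at hL
    refine ⟨L, hL, ?_, ?_⟩
    · intro f hff
      rw [hm f (fun φ ψ h => hff φ ψ fun i hi => h i (hsub hi))]
      exact hm1 f hff
    · intro w hw f
      rcases Finset.mem_insert.1 hw with rfl | hw
      · rw [hf f]
        apply hm1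
        intro φ ψ h
        rw [h _ a3]
      · rw [hm _ (fun φ ψ h => ?_)]
        · exact hv1 w hw f
        · have h1 : p w ∈ (Q ∪ F ∪ F.image u) ∪ R := hsub (huF' w hw).2.2
          have h2 : w ∈ (Q ∪ F ∪ F.image u) ∪ R :=
            Finset.mem_union_left _ (Finset.mem_union_left _ (Finset.mem_union_right _ hw))
          have h3 : u w ∈ (Q ∪ F ∪ F.image u) ∪ R :=
            Finset.mem_union_left _ (Finset.mem_union_right _ (Finset.mem_image_of_mem u hw))
          rw [h _ h1, h _ h2, h _ h3]

end Pool.Agent.SEM
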