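import Pool.Agent.Helper73.SEM.LWD
import Pool.Agent.Helper73.SEM.LP6

/-!
# SEM-LW3: mass function and hypotheses of the linear program

Data: for every `τ ∈ T` (top of a piece) a base law `L0 τ` of `Q τ` with the marginal bounds of `base_law`; `F τ` = the flexible `v` in the piece
(with child `u v`).  `mm c = ∑_{τ ∈ T} ∑_{v ∈ F τ} (L0 τ).Pr (φ (p v) = c)`, `bX x`, `bS s` = loads of the base laws.

Proof in words.  `N = ∑_τ |F τ|`.
`mass_ok`: for each `v ∈ F τ`, `φ (p v) ∈ X ∪ Cl` always (`p v ∈ Q τ` or `p v ∈ R`), so `∑_c Pr (φ (p v) = c) = 1` and `∑_c mm c = N`.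
For `c ∈ X`: only `v` with `p v ∈ Q τ` contribute (labels of `R` are in `Cl`, not in `X`): `mm c ≤ N' (1+8t) π c`, `N' = #{v : p v ∈ Q τ} = ∑_{c ∈ X} mm c`.
`lph_ok`: `bX x ≤ (∑_τ |Q τ|)(1+8t)(1+t)/n`; `LX q0 x = QY x + ∑_{y ∈ X} QY y k y x` (`∑_z k x z = 1`), `QY y ≤ (1+24t)N/n`-type bound (same computation as
`QY_le` with `8t` instead of `t`, or apply `QY_le` to `Ker` with parameter `8t`), `∑_{y ∈ X} k y x = ∑_y π x k x y/π y ≤ (1+t)/(1-t)`; so the load is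
`≤ (∑|Q τ| + 2N)(1 + 40 t)/n ≤ 1 + 40 t` as `∑|Q τ| + 2N = |X| ≤ n`.  Sums: `bS s ≤ (∑ |Q τ ∪ ex τ|)(1+8t)/n`;
`LS q0 s = ∑_c m c k c (s-c) + ∑_y QY y k y (s-y)`: the second is `≤ (1+24t)(N/n) ∑_y k y (s-y)` and
`∑_y k y (s-y) ≤ n/(1-t) ∑ π y k y (s-y) ≤ (1+t)/(1-t)`; the first: `c ∈ X`: `≤ (1+8t) M_X ∑ π c k c (s-c) ≤ (1+8t)(1+t) M_X/n`, `c ∈ Cl`: `≤ M_Cl (1+t)/n`.
Totals: `∑_x bX x = ∑ |Q τ|` (labels in `X`), `∑_x LX q0 x = 2N`, `∑_s bS s = ∑ |Q τ ∪ ex τ|`, `∑_s LS q0 s = 2N` (`Ker.supp`: sums in `S`).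
-/

set_option autoImplicit false

namespace Pool.Agent.SEM

open Finset

/-- the base situation: a family of base laws for the pieces `τ ∈ T` -/
structure BS (n : ℕ) (p lab u : ℕ → ℕ) (R X S Cl T : Finset ℕ) (Q ex F : ℕ → Finset ℕ) (t : ℝ)
    (π : ℕ → ℝ) (L0 : ℕ → FL) : Prop where
  hlab : ∀ r ∈ R, lab r ∈ Cl
  QR : ∀ τ ∈ T, Disjoint (Q τ) R
  exR : ∀ τ ∈ T, ex τ ⊆ R
  exQ : ∀ τ ∈ T, ∀ r ∈ ex τ, p r ∈ Q τ
  pQ : ∀ τ ∈ T, ∀ v ∈ Q τ, p v ∈ Q τ ∪ R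
  FQ : ∀ τ ∈ T, Disjoint (F τ) (Q τ ∪ R)
  uF : ∀ τ ∈ T, ∀ v ∈ F τ, u v ∉ Q τ ∪ R ∪ F τ ∧ p (u v) = v ∧ p v ∈ Q τ ∪ R
  law : ∀ τ ∈ T, PL n p R lab X S (Q τ) (ex τ) 6 (L0 τ)
  mX : ∀ τ ∈ T, ∀ v ∈ Q τ, ∀ x ∈ X, (L0 τ).Pr (fun φ => φ v = x) ≤ (1 + 8 * t) * π x
  mS : ∀ τ ∈ T, ∀ i ∈ Q τ ∪ ex τ, ∀ s, (L0 τ).Pr (fun φ => φ i + φ (p i) = s) ≤ (1 + 8 * t) / n

noncomputable def mm (p : ℕ → ℕ) (T : Finset ℕ) (F : ℕ → Finset ℕ) (L0 : ℕ → FL) (c : ℕ) : ℝ :=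
  ∑ τ ∈ T, ∑ v ∈ F τ, (L0 τ).Pr (fun φ => φ (p v) = c)

noncomputable def bX (T : Finset ℕ) (Q : ℕ → Finset ℕ) (L0 : ℕ → FL) (x : ℕ) : ℝ :=
  ∑ τ ∈ T, ∑ v ∈ Q τ, (L0 τ).Pr (fun φ => φ v = x)

noncomputable def bS (p : ℕ → ℕ) (T : Finset ℕ) (Q ex : ℕ → Finset ℕ) (L0 : ℕ → FL) (s : ℕ) : ℝ :=
  ∑ τ ∈ T, ∑ i ∈ Q τ ∪ ex τ, (L0 τ).Pr (fun φ => φ i + φ (p i) = s)

section fl31

private theorem ex31_sum {ι : Type} (L : FL) (s : Finset ι) (f : ι → (ℕ → ℕ) → ℝ) :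
    L.Ex (fun φ => ∑ i ∈ s, f i φ) = ∑ i ∈ s, L.Ex (f i) := by
  unfold FL.Ex
  let _ := L.fin
  simp only [Finset.mul_sum]
  exact Finset.sum_comm

private theorem ex31_congr (L : FL) {f g : (ℕ → ℕ) → ℝ}
    (h : ∀ ω, L.wt ω ≠ 0 → f (L.Φ ω) = g (L.Φ ω)) : L.Ex f = L.Ex g := by
  unfold FL.Ex
  let _ := L.fin
  refine Finset.sum_congr rfl fun ω _ => ?_
  by_cases hω : L.wt ω = 0
  · rw [hω, zero_mul, zero_mul]
  · rw [h ω hω]

private theorem ex31_nonneg (L : FL) (hnn : ∀ ω, 0 ≤ L.wt ω) {f : (ℕ → ℕ) → ℝ}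
    (h : ∀ φ, 0 ≤ f φ) : 0 ≤ L.Ex f := by
  unfold FL.Ex
  let _ := L.fin
  exact Finset.sum_nonneg fun ω _ => mul_nonneg (hnn ω) (h _)

private theorem pr31_nonneg (L : FL) (hnn : ∀ ω, 0 ≤ L.wt ω) (P : (ℕ → ℕ) → Prop) :
    0 ≤ L.Pr P := by
  classical
  refine ex31_nonneg L hnn fun φ => ?_
  split_ifs
  · exact zero_le_one
  · exact le_rfl

private theorem pr31_zero (L : FL) {P : (ℕ → ℕ) → Prop}
    (h : ∀ ω, L.wt ω ≠ 0 → ¬ P (L.Φ ω)) : L.Pr P = 0 := by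
  classical
  have h1 : L.Pr P = L.Ex (fun _ => 0) := by
    refine ex31_congr L fun ω hω => ?_
    rw [if_neg (h ω hω)]
  rw [h1]
  unfold FL.Ex
  let _ := L.fin
  simp

private theorem pr31_sum (L : FL) (hone : L.Ex (fun _ => 1) = 1) (A : Finset ℕ)
    (g : (ℕ → ℕ) → ℕ) (hg : ∀ ω, L.wt ω ≠ 0 → g (L.Φ ω) ∈ A) :
    ∑ c ∈ A, L.Pr (fun φ => g φ = c) = 1 := by
  classical
  have h1 : ∑ c ∈ A, L.Pr (fun φ => g φ = c) =
      L.Ex (fun φ => ∑ c ∈ A, if g φ = c then 1 else 0) := by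
    rw [ex31_sum]
    refine Finset.sum_congr rfl fun c _ => ?_
    unfold FL.Pr
    refine ex31_congr L fun ω _ => ?_
    by_cases h : g (L.Φ ω) = c
    · rw [if_pos h, if_pos h]
    · rw [if_neg h, if_neg h]
  rw [h1]
  refine Eq.trans (ex31_congr L fun ω hω => ?_) hone
  rw [Finset.sum_ite_eq, if_pos (hg ω hω)]

end fl31

section gen31

variable {n : ℕ} {p lab u : ℕ → ℕ} {R X S Cl T : Finset ℕ} {Q ex F : ℕ → Finset ℕ} {t : ℝ}
  {k : ℕ → ℕ → ℝ} {π : ℕ → ℝ} {L0 : ℕ → FL}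

private theorem val31 (h : BS n p lab u R X S Cl T Q ex F t π L0) {τ : ℕ} (hτ : τ ∈ T) {v : ℕ}
    (hv : v ∈ F τ) : ∀ ω, (L0 τ).wt ω ≠ 0 → (L0 τ).Φ ω (p v) ∈ X ∪ Cl := by
  intro ω hω
  rcases Finset.mem_union.1 (h.uF τ hτ v hv).2.2 with h1 | h1
  · exact Finset.mem_union_left _ ((h.law τ hτ).lbl ω hω _ h1)
  · rw [(h.law τ hτ).onR ω _ h1]
    exact Finset.mem_union_right _ (h.hlab _ h1)

private theorem mm31_sum (h : BS n p lab u R X S Cl T Q ex F t π L0) :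
    ∑ c ∈ X ∪ Cl, mm p T F L0 c = ((∑ τ ∈ T, (F τ).card : ℕ) : ℝ) := by
  unfold mm
  rw [Finset.sum_comm, Nat.cast_sum]
  refine Finset.sum_congr rfl fun τ hτ => ?_
  rw [Finset.sum_comm]
  have h1 : ∀ v ∈ F τ, ∑ c ∈ X ∪ Cl, (L0 τ).Pr (fun φ => φ (p v) = c) = 1 := fun v hv =>
    pr31_sum (L0 τ) (h.law τ hτ).one (X ∪ Cl) (fun φ => φ (p v)) (val31 h hτ hv)
  rw [Finset.sum_congr rfl h1, Finset.sum_const, nsmul_eq_mul, mul_one]

private theorem mm31_nonneg (h : BS n p lab u R X S Cl T Q ex F t π L0) (c : ℕ) :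
    0 ≤ mm p T F L0 c :=
  Finset.sum_nonneg fun τ hτ => Finset.sum_nonneg fun _ _ =>
    pr31_nonneg _ (h.law τ hτ).nn _

private theorem mm31_spread (hClX : ∀ c ∈ Cl, c ∉ X)
    (h : BS n p lab u R X S Cl T Q ex F t π L0) {c : ℕ} (hc : c ∈ X) :
    mm p T F L0 c ≤ (1 + 8 * t) * (∑ c' ∈ X, mm p T F L0 c') * π c := by
  have h1 : ∑ c' ∈ X, mm p T F L0 c' =
      ∑ τ ∈ T, ∑ v ∈ F τ, ∑ c' ∈ X, (L0 τ).Pr (fun φ => φ (p v) = c') := by
    unfold mm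
    rw [Finset.sum_comm]
    refine Finset.sum_congr rfl fun τ _ => ?_
    rw [Finset.sum_comm]
  rw [h1, Finset.mul_sum, Finset.sum_mul]
  unfold mm
  refine Finset.sum_le_sum fun τ hτ => ?_
  rw [Finset.mul_sum, Finset.sum_mul]
  refine Finset.sum_le_sum fun v hv => ?_
  rcases Finset.mem_union.1 (h.uF τ hτ v hv).2.2 with h2 | h2
  · have h3 : ∑ c' ∈ X, (L0 τ).Pr (fun φ => φ (p v) = c') = 1 :=
      pr31_sum (L0 τ) (h.law τ hτ).one X (fun φ => φ (p v))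
        (fun ω hω => (h.law τ hτ).lbl ω hω _ h2)
    rw [h3, mul_one]
    exact h.mX τ hτ _ h2 c hc
  · have h3 : ∀ c' ∈ X, (L0 τ).Pr (fun φ => φ (p v) = c') = 0 := by
      intro c' hc'
      refine pr31_zero (L0 τ) fun ω _ h4 => ?_
      rw [(h.law τ hτ).onR ω _ h2] at h4
      exact hClX _ (h.hlab _ h2) (by rw [h4]; exact hc')
    rw [h3 c hc, Finset.sum_congr rfl h3]
    simp

/-- abstract data: the masses -/
private structure MD31 (n : ℕ) (X Cl : Finset ℕ) (t N : ℝ) (π m : ℕ → ℝ) : Prop where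
  nn : ∀ c, 0 ≤ m c
  tot : ∑ c ∈ X ∪ Cl, m c = N
  spread : ∀ c ∈ X, m c ≤ (1 + 8 * t) * (∑ c' ∈ X, m c') * π c

private theorem split31 (hClX : ∀ c ∈ Cl, c ∉ X) (f : ℕ → ℝ) :
    ∑ c ∈ X ∪ Cl, f c = ∑ c ∈ X, f c + ∑ c ∈ Cl, f c :=
  Finset.sum_union (Finset.disjoint_left.2 fun c hc hc' => hClX c hc' hc)

/-- weighted sums against the masses -/
private theorem wsum31 (hk : Ker n X S Cl t k π) (ht0 : 0 < t) {N : ℝ} {m : ℕ → ℝ}
    (hm : MD31 n X Cl t N π m) {E : ℕ → ℝ} (hE0 : ∀ c, 0 ≤ E c) {B : ℝ}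
    (hX : ∑ c ∈ X, π c * E c ≤ B) (hC : ∀ c ∈ Cl, E c ≤ B) :
    ∑ c ∈ X ∪ Cl, m c * E c ≤ (1 + 8 * t) * B * N := by
  have hM0 : 0 ≤ ∑ c ∈ X, m c := Finset.sum_nonneg fun c _ => hm.nn c
  have hM1 : 0 ≤ ∑ c ∈ Cl, m c := Finset.sum_nonneg fun c _ => hm.nn c
  have h1 : ∑ c ∈ X, m c * E c ≤ (1 + 8 * t) * B * ∑ c ∈ X, m c := by
    calc ∑ c ∈ X, m c * E c ≤ ∑ c ∈ X, (1 + 8 * t) * (∑ c' ∈ X, m c') * (π c * E c) := by
          refine Finset.sum_le_sum fun c hc => ?_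
          have := mul_le_mul_of_nonneg_right (hm.spread c hc) (hE0 c)
          linarith
      _ = (1 + 8 * t) * (∑ c' ∈ X, m c') * ∑ c ∈ X, π c * E c := (Finset.mul_sum _ _ _).symm
      _ ≤ (1 + 8 * t) * (∑ c' ∈ X, m c') * B :=
          mul_le_mul_of_nonneg_left hX (by positivity)
      _ = _ := by ring
  have h2 : ∑ c ∈ Cl, m c * E c ≤ (1 + 8 * t) * B * ∑ c ∈ Cl, m c := by
    rw [Finset.mul_sum]
    refine Finset.sum_le_sum fun c hc => ?_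
    have h3 := mul_le_mul_of_nonneg_left (hC c hc) (hm.nn c)
    have h4 : 0 ≤ m c * B := le_trans (mul_nonneg (hm.nn c) (hE0 c)) h3
    nlinarith
  rw [split31 hk.Cl_X, ← hm.tot, split31 hk.Cl_X, mul_add]
  linarith

private theorem qy31 (hk : Ker n X S Cl t k π) (ht0 : 0 < t) {N : ℝ} {m : ℕ → ℝ}
    (hm : MD31 n X Cl t N π m) {y : ℕ} (hy : y ∈ X) :
    ∑ c ∈ X ∪ Cl, m c * k c y ≤ (1 + 8 * t) * ((1 + t) / n) * N := by
  refine wsum31 hk ht0 hm (fun c => hk.nn c y) ?_ (fun c hc => hk.clUp c hc y)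
  have h1 : ∑ c ∈ X, π c * k c y = π y := by
    have h2 : ∑ c ∈ X, π c * k c y = ∑ c ∈ X, π y * k y c :=
      Finset.sum_congr rfl fun c hc => hk.rev c hc y hy
    rw [h2, ← Finset.mul_sum, hk.one y (Finset.mem_union_left _ hy), mul_one]
  rw [h1]
  exact hk.piUp y hy

private theorem col31 (hk : Ker n X S Cl t k π) (ht0 : 0 < t) (ht : t ≤ 1 / 10000)
    (hn : 0 < n) {x : ℕ} (hx : x ∈ X) : ∑ y ∈ X, k y x ≤ (1 + t) / (1 - t) := by
  have hn' : (0 : ℝ) < n := by exact_mod_cast hn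
  have h1t : (0 : ℝ) < 1 - t := by linarith
  have h1 : ∀ y ∈ X, (1 - t) * k y x ≤ (1 + t) * k x y := by
    intro y hy
    have h2 := hk.rev x hx y hy
    have h3 := mul_le_mul_of_nonneg_right (hk.piLo y hy) (hk.nn y x)
    have h4 := mul_le_mul_of_nonneg_right (hk.piUp x hx) (hk.nn x y)
    have h5 : (1 - t) / n * k y x ≤ (1 + t) / n * k x y := by linarith
    have h6 : n * ((1 - t) / n * k y x) ≤ n * ((1 + t) / n * k x y) :=
      mul_le_mul_of_nonneg_left h5 hn'.le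
    have h7 : n * ((1 - t) / n * k y x) = (1 - t) * k y x := by field_simp
    have h8 : n * ((1 + t) / n * k x y) = (1 + t) * k x y := by field_simp
    rw [h7, h8] at h6
    exact h6
  rw [le_div_iff₀ h1t, mul_comm, Finset.mul_sum]
  calc ∑ y ∈ X, (1 - t) * k y x ≤ ∑ y ∈ X, (1 + t) * k x y := Finset.sum_le_sum h1
    _ = 1 + t := by
        rw [← Finset.mul_sum, hk.one x (Finset.mem_union_left _ hx), mul_one]

private theorem diag31 (c s : ℕ) (hk : Ker n X S Cl t k π) :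
    ∑ y ∈ X, (if c + y = s then k c y else 0) ≤ if c ≤ s then k c (s - c) else 0 := by
  by_cases hc : c ≤ s
  · rw [if_pos hc]
    have h1 : ∑ y ∈ X, (if c + y = s then k c y else 0) =
        ∑ y ∈ X, (if s - c = y then k c y else 0) := by
      refine Finset.sum_congr rfl fun y _ => ?_
      by_cases h2 : c + y = s
      · rw [if_pos h2, if_pos (by omega)]
      · rw [if_neg h2, if_neg (by omega)]
    rw [h1, Finset.sum_ite_eq]
    split_ifs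
    · exact le_rfl
    · exact hk.nn _ _
  · rw [if_neg hc]
    refine le_of_eq (Finset.sum_eq_zero fun y _ => ?_)
    rw [if_neg (by omega)]

private theorem diagS31 (hk : Ker n X S Cl t k π) (ht0 : 0 < t) (ht : t ≤ 1 / 10000)
    (hn : 0 < n) (s : ℕ) :
    ∑ y ∈ X, ∑ z ∈ X, (if y + z = s then k y z else 0) ≤ (1 + t) / (1 - t) := by
  have hn' : (0 : ℝ) < n := by exact_mod_cast hn
  have h1t : (0 : ℝ) < 1 - t := by linarith
  have h0 : ∑ y ∈ X, ∑ z ∈ X, (if y + z = s then k y z else 0) ≤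
      ∑ y ∈ X, (if y ≤ s then k y (s - y) else 0) :=
    Finset.sum_le_sum fun y _ => diag31 y s hk
  refine h0.trans ?_
  rw [← Finset.sum_filter, le_div_iff₀ h1t, mul_comm, Finset.mul_sum]
  have h2 := hk.dia s
  have h3 : ∑ y ∈ X with y ≤ s, (1 - t) * k y (s - y) ≤
      ∑ y ∈ X with y ≤ s, n * (π y * k y (s - y)) := by
    refine Finset.sum_le_sum fun y hy => ?_
    have h4 := hk.piLo y (Finset.mem_filter.1 hy).1
    rw [div_le_iff₀ hn'] at h4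
    have h5 := mul_le_mul_of_nonneg_right h4 (hk.nn y (s - y))
    linarith
  refine h3.trans ?_
  rw [← Finset.mul_sum]
  have h6 := mul_le_mul_of_nonneg_left h2 hn'.le
  rwa [mul_div_cancel₀ _ hn'.ne'] at h6

/-- the load of a label by the flexible paths -/
private theorem lx31 (hk : Ker n X S Cl t k π) (ht0 : 0 < t) (ht : t ≤ 1 / 10000) (hn : 0 < n)
    {N : ℝ} (hN : 0 ≤ N) {m : ℕ → ℝ} (hm : MD31 n X Cl t N π m) {x : ℕ} (hx : x ∈ X) :
    LX X (X ∪ Cl) (q0 m k) x ≤ (1 + 8 * t) * ((1 + t) / n) * ((1 + t) / (1 - t)) * (2 * N) := by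
  have hn' : (0 : ℝ) < n := by exact_mod_cast hn
  have h1t : (0 : ℝ) < 1 - t := by linarith
  have ha : 0 ≤ (1 + 8 * t) * ((1 + t) / n) * N := by positivity
  have h1 : ∑ c ∈ X ∪ Cl, ∑ z ∈ X, q0 m k c x z = ∑ c ∈ X ∪ Cl, m c * k c x := by
    refine Finset.sum_congr rfl fun c _ => ?_
    unfold q0
    rw [← Finset.mul_sum, hk.one x (Finset.mem_union_left _ hx), mul_one]
  have h2 : ∑ c ∈ X ∪ Cl, ∑ y ∈ X, q0 m k c y x =
      ∑ y ∈ X, (∑ c ∈ X ∪ Cl, m c * k c y) * k y x := by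
    rw [Finset.sum_comm]
    refine Finset.sum_congr rfl fun y _ => ?_
    rw [Finset.sum_mul]
    rfl
  have h3 : ∑ y ∈ X, (∑ c ∈ X ∪ Cl, m c * k c y) * k y x ≤
      (1 + 8 * t) * ((1 + t) / n) * N * ((1 + t) / (1 - t)) := by
    calc ∑ y ∈ X, (∑ c ∈ X ∪ Cl, m c * k c y) * k y x
        ≤ ∑ y ∈ X, (1 + 8 * t) * ((1 + t) / n) * N * k y x :=
          Finset.sum_le_sum fun y hy => mul_le_mul_of_nonneg_right (qy31 hk ht0 hm hy)
            (hk.nn y x)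
      _ = (1 + 8 * t) * ((1 + t) / n) * N * ∑ y ∈ X, k y x := by rw [Finset.mul_sum]
      _ ≤ _ := mul_le_mul_of_nonneg_left (col31 hk ht0 ht hn hx) ha
  have h4 := qy31 hk ht0 hm hx
  have h5 : 1 ≤ (1 + t) / (1 - t) := by
    rw [le_div_iff₀ h1t]
    linarith
  have h6 := mul_le_mul_of_nonneg_left h5 ha
  unfold LX
  rw [h1, h2]
  nlinarith

/-- the load of a sum by the flexible paths -/
private theorem ls31 (hk : Ker n X S Cl t k π) (ht0 : 0 < t) (ht : t ≤ 1 / 10000) (hn : 0 < n)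
    {N : ℝ} (hN : 0 ≤ N) {m : ℕ → ℝ} (hm : MD31 n X Cl t N π m) (s : ℕ) :
    LS X (X ∪ Cl) (q0 m k) s ≤ (1 + 8 * t) * ((1 + t) / n) * ((1 + t) / (1 - t)) * (2 * N) := by
  have hn' : (0 : ℝ) < n := by exact_mod_cast hn
  have h1t : (0 : ℝ) < 1 - t := by linarith
  have ha : 0 ≤ (1 + 8 * t) * ((1 + t) / n) * N := by positivity
  have hE0 : ∀ c, 0 ≤ ∑ y ∈ X, (if c + y = s then k c y else 0) := fun c =>
    Finset.sum_nonneg fun y _ => by
      split_ifs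
      · exact hk.nn _ _
      · exact le_rfl
  have h1 : ∑ c ∈ X ∪ Cl, ∑ y ∈ X, ∑ z ∈ X, (if c + y = s then q0 m k c y z else 0) =
      ∑ c ∈ X ∪ Cl, m c * ∑ y ∈ X, (if c + y = s then k c y else 0) := by
    refine Finset.sum_congr rfl fun c _ => ?_
    rw [Finset.mul_sum]
    refine Finset.sum_congr rfl fun y hy => ?_
    by_cases h2 : c + y = s
    · simp only [if_pos h2]
      unfold q0
      rw [← Finset.mul_sum, hk.one y (Finset.mem_union_left _ hy), mul_one]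
    · simp only [if_neg h2, Finset.sum_const_zero, mul_zero]
  have h2 : ∑ c ∈ X ∪ Cl, ∑ y ∈ X, ∑ z ∈ X, (if y + z = s then q0 m k c y z else 0) =
      ∑ y ∈ X, (∑ c ∈ X ∪ Cl, m c * k c y) * ∑ z ∈ X, (if y + z = s then k y z else 0) := by
    rw [Finset.sum_comm]
    refine Finset.sum_congr rfl fun y _ => ?_
    rw [Finset.sum_mul]
    refine Finset.sum_congr rfl fun c _ => ?_
    rw [Finset.mul_sum]
    refine Finset.sum_congr rfl fun z _ => ?_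
    by_cases h2 : y + z = s
    · simp only [if_pos h2]
      rfl
    · simp only [if_neg h2, mul_zero]
  have h3 : ∑ c ∈ X ∪ Cl, m c * ∑ y ∈ X, (if c + y = s then k c y else 0) ≤
      (1 + 8 * t) * ((1 + t) / n) * N := by
    refine wsum31 hk ht0 hm hE0 ?_ fun c hc => ?_
    · refine le_trans ?_ (hk.dia s)
      rw [Finset.sum_filter]
      refine Finset.sum_le_sum fun c hc => ?_
      have hπ : 0 ≤ π c := le_trans (div_nonneg h1t.le hn'.le) (hk.piLo c hc)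
      refine (mul_le_mul_of_nonneg_left (diag31 c s hk) hπ).trans (le_of_eq ?_)
      split_ifs
      · rfl
      · rw [mul_zero]
    · refine (diag31 c s hk).trans ?_
      split_ifs
      · exact hk.clUp c hc _
      · positivity
  have h4 : ∑ y ∈ X, (∑ c ∈ X ∪ Cl, m c * k c y) * ∑ z ∈ X, (if y + z = s then k y z else 0) ≤
      (1 + 8 * t) * ((1 + t) / n) * N * ((1 + t) / (1 - t)) := by
    calc ∑ y ∈ X, (∑ c ∈ X ∪ Cl, m c * k c y) * ∑ z ∈ X, (if y + z = s then k y z else 0)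
        ≤ ∑ y ∈ X, (1 + 8 * t) * ((1 + t) / n) * N *
            ∑ z ∈ X, (if y + z = s then k y z else 0) :=
          Finset.sum_le_sum fun y hy => mul_le_mul_of_nonneg_right (qy31 hk ht0 hm hy) (hE0 y)
      _ = (1 + 8 * t) * ((1 + t) / n) * N *
            ∑ y ∈ X, ∑ z ∈ X, (if y + z = s then k y z else 0) := by rw [Finset.mul_sum]
      _ ≤ _ := mul_le_mul_of_nonneg_left (diagS31 hk ht0 ht hn s) ha
  have h5 : 1 ≤ (1 + t) / (1 - t) := by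
    rw [le_div_iff₀ h1t]
    linarith
  have h6 := mul_le_mul_of_nonneg_left h5 ha
  unfold LS
  rw [h1, h2]
  nlinarith

private theorem q31_tot (hk : Ker n X S Cl t k π) {N : ℝ} {m : ℕ → ℝ}
    (hm : MD31 n X Cl t N π m) : ∑ c ∈ X ∪ Cl, ∑ y ∈ X, ∑ z ∈ X, q0 m k c y z = N := by
  rw [← hm.tot]
  refine Finset.sum_congr rfl fun c hc => ?_
  have h1 : ∑ y ∈ X, ∑ z ∈ X, q0 m k c y z = ∑ y ∈ X, m c * k c y := by
    refine Finset.sum_congr rfl fun y hy => ?_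
    unfold q0
    rw [← Finset.mul_sum, hk.one y (Finset.mem_union_left _ hy), mul_one]
  rw [h1, ← Finset.mul_sum, hk.one c hc, mul_one]

private theorem lx31_tot (hk : Ker n X S Cl t k π) {N : ℝ} {m : ℕ → ℝ}
    (hm : MD31 n X Cl t N π m) : ∑ x ∈ X, LX X (X ∪ Cl) (q0 m k) x = 2 * N := by
  unfold LX
  rw [Finset.sum_add_distrib]
  have h1 : ∑ x ∈ X, ∑ c ∈ X ∪ Cl, ∑ z ∈ X, q0 m k c x z = N := by
    rw [Finset.sum_comm]
    exact q31_tot hk hm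
  have h2 : ∑ x ∈ X, ∑ c ∈ X ∪ Cl, ∑ y ∈ X, q0 m k c y x = N := by
    rw [Finset.sum_comm, ← q31_tot hk hm]
    refine Finset.sum_congr rfl fun c _ => ?_
    rw [Finset.sum_comm]
  rw [h1, h2]
  ring

private theorem ls31_tot (hk : Ker n X S Cl t k π) {N : ℝ} {m : ℕ → ℝ}
    (hm : MD31 n X Cl t N π m) : ∑ s ∈ S, LS X (X ∪ Cl) (q0 m k) s = 2 * N := by
  unfold LS
  rw [Finset.sum_add_distrib]
  have h1 : ∑ s ∈ S, ∑ c ∈ X ∪ Cl, ∑ y ∈ X, ∑ z ∈ X, (if c + y = s then q0 m k c y z else 0) =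
      N := by
    rw [Finset.sum_comm, ← q31_tot hk hm]
    refine Finset.sum_congr rfl fun c _ => ?_
    rw [Finset.sum_comm]
    refine Finset.sum_congr rfl fun y _ => ?_
    rw [Finset.sum_comm]
    refine Finset.sum_congr rfl fun z _ => ?_
    rw [Finset.sum_ite_eq]
    split_ifs with h
    · rfl
    · by_contra h2
      have h3 : k c y ≠ 0 := by
        intro h4
        apply h2
        unfold q0
        rw [h4, mul_zero, zero_mul]
      exact h (hk.supp c y h3).2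
  have h2 : ∑ s ∈ S, ∑ c ∈ X ∪ Cl, ∑ y ∈ X, ∑ z ∈ X, (if y + z = s then q0 m k c y z else 0) =
      N := by
    rw [Finset.sum_comm, ← q31_tot hk hm]
    refine Finset.sum_congr rfl fun c _ => ?_
    rw [Finset.sum_comm]
    refine Finset.sum_congr rfl fun y _ => ?_
    rw [Finset.sum_comm]
    refine Finset.sum_congr rfl fun z _ => ?_
    rw [Finset.sum_ite_eq]
    split_ifs with h
    · rfl
    · by_contra h2
      have h3 : k y z ≠ 0 := by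
        intro h4
        apply h2
        unfold q0
        rw [h4, mul_zero]
      exact h (hk.supp y z h3).2
  rw [h1, h2]
  ring

private theorem num31 (ht0 : 0 < t) (ht : t ≤ 1 / 10000) (hn : 0 < n) {M : ℝ} (hM : M ≤ n) :
    (1 + 8 * t) * ((1 + t) / n) * ((1 + t) / (1 - t)) * M ≤ 1 + 40 * t := by
  have hn' : (0 : ℝ) < n := by exact_mod_cast hn
  have h1t : (0 : ℝ) < 1 - t := by linarith
  have h1 : (1 + 8 * t) * ((1 + t) / n) * ((1 + t) / (1 - t)) * M ≤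
      (1 + 8 * t) * ((1 + t) / n) * ((1 + t) / (1 - t)) * n :=
    mul_le_mul_of_nonneg_left hM (by positivity)
  refine h1.trans ?_
  have h2 : (1 + 8 * t) * ((1 + t) / n) * ((1 + t) / (1 - t)) * n =
      (1 + 8 * t) * (1 + t) * (1 + t) / (1 - t) := by
    field_simp
  rw [h2, div_le_iff₀ h1t]
  nlinarith [mul_pos ht0 ht0]

end gen31

theorem mass_ok {n : ℕ} {p lab u : ℕ → ℕ} {R X S Cl T : Finset ℕ} {Q ex F : ℕ → Finset ℕ} {t e : ℝ}
    {k : ℕ → ℕ → ℝ} {π : ℕ → ℝ} {L0 : ℕ → FL} (hk : Ker n X S Cl t k π)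
    (h : BS n p lab u R X S Cl T Q ex F t π L0)
    (hN : e * n ≤ ((∑ τ ∈ T, (F τ).card : ℕ) : ℝ)) (hN' : ∑ τ ∈ T, (F τ).card ≤ n) :
    Mass n X Cl e (8 * t) π (mm p T F L0) :=
  { nn := mm31_nonneg h
    supp := by
      intro c hc
      by_contra hcX
      apply hc
      unfold mm
      refine Finset.sum_eq_zero fun τ hτ => Finset.sum_eq_zero fun v hv => ?_
      refine pr31_zero (L0 τ) fun ω hω h4 => ?_
      exact hcX (by rw [← h4]; exact val31 h hτ hv ω hω)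
    lo := by
      rw [mm31_sum h]
      exact hN
    hi := by
      rw [mm31_sum h]
      exact_mod_cast hN'
    spread := fun c hc => mm31_spread hk.Cl_X h hc }

theorem lph_ok {n : ℕ} {p lab u : ℕ → ℕ} {R X S Cl T : Finset ℕ} {Q ex F : ℕ → Finset ℕ} {t : ℝ}
    {k : ℕ → ℕ → ℝ} {π : ℕ → ℝ} {L0 : ℕ → FL} (hk : Ker n X S Cl t k π) (ht0 : 0 < t)
    (ht : t ≤ 1 / 10000) (hn : 1000 ≤ n) (h : BS n p lab u R X S Cl T Q ex F t π L0)
    (hX : ∑ τ ∈ T, ((Q τ).card + 2 * (F τ).card) = X.card)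
    (hS : ∑ τ ∈ T, ((Q τ).card + (ex τ).card + 2 * (F τ).card) = S.card) :
    LPH n X S Cl (40 * t) k (mm p T F L0) (bX T Q L0) (bS p T Q ex L0) := by
  have hn0 : 0 < n := by omega
  have hn' : (0 : ℝ) < n := by exact_mod_cast hn0
  have h1t : (0 : ℝ) < 1 - t := by linarith
  have hm : MD31 n X Cl t ((∑ τ ∈ T, (F τ).card : ℕ) : ℝ) π (mm p T F L0) :=
    ⟨mm31_nonneg h, mm31_sum h, fun c hc => mm31_spread hk.Cl_X h hc⟩
  have hN0 : (0 : ℝ) ≤ ((∑ τ ∈ T, (F τ).card : ℕ) : ℝ) := Nat.cast_nonneg _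
  have hρ : 1 ≤ (1 + t) / (1 - t) := by
    rw [le_div_iff₀ h1t]
    linarith
  have ha0 : 0 ≤ (1 + 8 * t) * ((1 + t) / n) := by positivity
  have hXn : (X.card : ℝ) ≤ n := by
    have h1 := Finset.card_le_card hk.X_sub
    rw [Nat.card_Icc] at h1
    exact_mod_cast h1
  have hSn : (S.card : ℝ) ≤ n := by
    have h1 := Finset.card_le_card hk.S_sub
    rw [Win, Nat.card_Icc] at h1
    have h2 : S.card ≤ n := by omega
    exact_mod_cast h2
  have hX' : ((∑ τ ∈ T, (Q τ).card : ℕ) : ℝ) + 2 * ((∑ τ ∈ T, (F τ).card : ℕ) : ℝ) =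
      (X.card : ℝ) := by
    rw [← hX, Finset.sum_add_distrib, ← Finset.mul_sum]
    push_cast
    ring
  have hS' : ((∑ τ ∈ T, (Q τ ∪ ex τ).card : ℕ) : ℝ) + 2 * ((∑ τ ∈ T, (F τ).card : ℕ) : ℝ) =
      (S.card : ℝ) := by
    have h1 : ∑ τ ∈ T, (Q τ ∪ ex τ).card = ∑ τ ∈ T, ((Q τ).card + (ex τ).card) := by
      refine Finset.sum_congr rfl fun τ hτ => ?_
      exact Finset.card_union_of_disjoint
        ((h.QR τ hτ).mono_right (h.exR τ hτ))
    rw [← hS, h1, Finset.sum_add_distrib, Finset.sum_add_distrib, Finset.sum_add_distrib,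
      ← Finset.mul_sum]
    push_cast
    ring
  refine { nX := ?_, nS := ?_, hX := ?_, hS := ?_, tX := ?_, tS := ?_ }
  · intro x
    exact Finset.sum_nonneg fun τ hτ => Finset.sum_nonneg fun _ _ =>
      pr31_nonneg _ (h.law τ hτ).nn _
  · intro x
    exact Finset.sum_nonneg fun τ hτ => Finset.sum_nonneg fun _ _ =>
      pr31_nonneg _ (h.law τ hτ).nn _
  · intro x hx
    have h1 : bX T Q L0 x ≤ (1 + 8 * t) * ((1 + t) / n) * ((∑ τ ∈ T, (Q τ).card : ℕ) : ℝ) := by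
      unfold bX
      rw [Nat.cast_sum, Finset.mul_sum]
      refine Finset.sum_le_sum fun τ hτ => ?_
      have h2 : ∀ v ∈ Q τ, (L0 τ).Pr (fun φ => φ v = x) ≤ (1 + 8 * t) * ((1 + t) / n) :=
        fun v hv => (h.mX τ hτ v hv x hx).trans
          (mul_le_mul_of_nonneg_left (hk.piUp x hx) (by positivity))
      refine (Finset.sum_le_sum h2).trans (le_of_eq ?_)
      rw [Finset.sum_const, nsmul_eq_mul, mul_comm]
    have h3 := lx31 hk ht0 ht hn0 hN0 hm hx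
    have h4 : (1 + 8 * t) * ((1 + t) / n) * ((∑ τ ∈ T, (Q τ).card : ℕ) : ℝ) ≤
        (1 + 8 * t) * ((1 + t) / n) * ((1 + t) / (1 - t)) * ((∑ τ ∈ T, (Q τ).card : ℕ) : ℝ) := by
      refine mul_le_mul_of_nonneg_right ?_ (Nat.cast_nonneg _)
      exact le_mul_of_one_le_right ha0 hρ
    have h5 := num31 ht0 ht hn0 hXn
    rw [← hX', mul_add] at h5
    linarith
  · intro s _
    have h1 : bS p T Q ex L0 s ≤
        (1 + 8 * t) * ((1 + t) / n) * ((∑ τ ∈ T, (Q τ ∪ ex τ).card : ℕ) : ℝ) := by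
      unfold bS
      rw [Nat.cast_sum, Finset.mul_sum]
      refine Finset.sum_le_sum fun τ hτ => ?_
      have h0 : (1 + 8 * t) / n ≤ (1 + 8 * t) * ((1 + t) / n) := by
        rw [← mul_div_assoc]
        refine div_le_div_of_nonneg_right ?_ hn'.le
        nlinarith
      have h2 : ∀ i ∈ Q τ ∪ ex τ, (L0 τ).Pr (fun φ => φ i + φ (p i) = s) ≤
          (1 + 8 * t) * ((1 + t) / n) := fun i hi => (h.mS τ hτ i hi s).trans h0
      refine (Finset.sum_le_sum h2).trans (le_of_eq ?_)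
      rw [Finset.sum_const, nsmul_eq_mul, mul_comm]
    have h3 := ls31 hk ht0 ht hn0 hN0 hm s
    have h4 : (1 + 8 * t) * ((1 + t) / n) * ((∑ τ ∈ T, (Q τ ∪ ex τ).card : ℕ) : ℝ) ≤
        (1 + 8 * t) * ((1 + t) / n) * ((1 + t) / (1 - t)) *
          ((∑ τ ∈ T, (Q τ ∪ ex τ).card : ℕ) : ℝ) := by
      refine mul_le_mul_of_nonneg_right ?_ (Nat.cast_nonneg _)
      exact le_mul_of_one_le_right ha0 hρ
    have h5 := num31 ht0 ht hn0 hSn
    rw [← hS', mul_add] at h5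
    linarith
  · rw [Finset.sum_add_distrib, lx31_tot hk hm, ← hX']
    congr 1
    unfold bX
    rw [Finset.sum_comm, Nat.cast_sum]
    refine Finset.sum_congr rfl fun τ hτ => ?_
    rw [Finset.sum_comm]
    have h1 : ∀ v ∈ Q τ, ∑ x ∈ X, (L0 τ).Pr (fun φ => φ v = x) = 1 := fun v hv =>
      pr31_sum (L0 τ) (h.law τ hτ).one X (fun φ => φ v)
        (fun ω hω => (h.law τ hτ).lbl ω hω _ hv)
    rw [Finset.sum_congr rfl h1, Finset.sum_const, nsmul_eq_mul, mul_one]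
  · rw [Finset.sum_add_distrib, ls31_tot hk hm, ← hS']
    congr 1
    unfold bS
    rw [Finset.sum_comm, Nat.cast_sum]
    refine Finset.sum_congr rfl fun τ hτ => ?_
    rw [Finset.sum_comm]
    have h1 : ∀ i ∈ Q τ ∪ ex τ, ∑ s ∈ S, (L0 τ).Pr (fun φ => φ i + φ (p i) = s) = 1 :=
      fun i hi => pr31_sum (L0 τ) (h.law τ hτ).one S (fun φ => φ i + φ (p i))
        (fun ω hω => (h.law τ hτ).sm ω hω _ hi)
    rw [Finset.sum_congr rfl h1, Finset.sum_const, nsmul_eq_mul, mul_one]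

end Pool.Agent.SEM
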