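import Pool.Agent.Helper73.SEM.LW1
import Pool.Agent.Helper73.SEM.LW2
import Pool.Agent.Helper73.SEM.LW3

/-!
# SEM-LW4: random labellings of all the pieces with loads at most one

Proof in words.  Abstract form: pieces `P τ = Q τ ∪ F τ ∪ u '' F τ`, `τ ∈ T`.  `Cl = lab '' R`.  `ker_ok` with
`τ₀` (small, `≤ c ε²`) gives `k, π`, `t = 8 τ₀`.  `base_law` for every `τ ∈ T` gives `L0 τ` (choice), so `BS` holds; `mass_ok`, `lph_ok` and
`Ker` with parameter `40 t` (all the fields of `Ker`, `Mass` are monotone in `t`) allow to apply `lp_main` with parameter `40 t`, giving `q`.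
Put `qh c y z = q c y z / mm c` if `mm c ≠ 0`, else `k c y * k y z`; `M = 1 + 20/e`.  `flex_law` gives `L τ`.  Loads: for `x ∈ X`
`∑_τ ∑_{v ∈ P τ} Pr (φ v = x) = bX x + ∑_τ ∑_{v ∈ F τ} (Pr (φ v = x) + Pr (φ (u v) = x))`, and
`∑_τ ∑_{v ∈ F τ} (L τ).Pr (φ v = x) = ∑_τ ∑_v (L0 τ).Ex (∑_z qh (φ (p v)) x z) = ∑_{c ∈ X ∪ Cl} mm c ∑_z qh c x z = ∑_c ∑_z q c x z`
(if `mm c = 0` then all `Pr (φ (p v) = c) = 0` and `q c = 0`); similarly for `u v`; so the load is `bX x + LX q x ≤ 1`.  Sums: the edges of the piece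
are the `i ∈ Q τ ∪ ex τ` (base), `v ∈ F τ` (sum `φ v + φ (p v) = c + y`) and `u v` (sum `φ (u v) + φ v = y + z`).
-/

set_option autoImplicit false

namespace Pool.Agent.SEM

open Finset

theorem lw463_Pr_eq (L : FL) (P : (ℕ → ℕ) → Prop) [DecidablePred P] :
    L.Pr P = L.Ex fun φ => if P φ then 1 else 0 := by
  unfold FL.Pr
  congr 1
  funext φ
  congr

theorem lw463_expand (L : FL) (C : Finset ℕ) (a : ℕ) (g : ℕ → ℝ)
    (h : ∀ ω, L.wt ω ≠ 0 → L.Φ ω a ∈ C) :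
    L.Ex (fun φ => g (φ a)) = ∑ c ∈ C, L.Pr (fun φ => φ a = c) * g c := by
  simp_rw [lw463_Pr_eq]
  unfold FL.Ex
  simp_rw [Finset.sum_mul]
  rw [Finset.sum_comm]
  refine Finset.sum_congr rfl fun ω _ => ?_
  by_cases hw : L.wt ω = 0
  · simp [hw]
  · rw [Finset.sum_eq_single (L.Φ ω a)]
    · simp
    · intro c _ hne
      rw [if_neg (Ne.symm hne)]
      ring
    · intro hn
      exact absurd (h ω hw) hn

theorem lw463_flex {p u : ℕ → ℕ} {T C X : Finset ℕ} {F : ℕ → Finset ℕ} {L0 L : ℕ → FL}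
    {m : ℕ → ℝ} {q qh : ℕ → ℕ → ℕ → ℝ}
    (hm : ∀ c, m c = ∑ τ ∈ T, ∑ v ∈ F τ, (L0 τ).Pr (fun φ => φ (p v) = c))
    (hL0 : ∀ τ ∈ T, ∀ v ∈ F τ, ∀ ω, (L0 τ).wt ω ≠ 0 → (L0 τ).Φ ω (p v) ∈ C)
    (hL : ∀ τ ∈ T, ∀ v ∈ F τ, ∀ f : ℕ → ℕ → ℕ → ℝ,
      (L τ).Ex (fun φ => f (φ (p v)) (φ v) (φ (u v))) =
        (L0 τ).Ex (fun φ => ∑ y ∈ X, ∑ z ∈ X, qh (φ (p v)) y z * f (φ (p v)) y z))
    (hq : ∀ c ∈ C, ∀ y ∈ X, ∀ z ∈ X, m c * qh c y z = q c y z)
    (f : ℕ → ℕ → ℕ → ℝ) :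
    ∑ τ ∈ T, ∑ v ∈ F τ, (L τ).Ex (fun φ => f (φ (p v)) (φ v) (φ (u v))) =
      ∑ c ∈ C, ∑ y ∈ X, ∑ z ∈ X, q c y z * f c y z := by
  calc ∑ τ ∈ T, ∑ v ∈ F τ, (L τ).Ex (fun φ => f (φ (p v)) (φ v) (φ (u v)))
      = ∑ τ ∈ T, ∑ v ∈ F τ, ∑ c ∈ C, (L0 τ).Pr (fun φ => φ (p v) = c) *
          (∑ y ∈ X, ∑ z ∈ X, qh c y z * f c y z) := by
        refine Finset.sum_congr rfl fun τ hτ => Finset.sum_congr rfl fun v hv => ?_
        rw [hL τ hτ v hv f]
        exact lw463_expand (L0 τ) C (p v) (fun c => ∑ y ∈ X, ∑ z ∈ X, qh c y z * f c y z)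
          (hL0 τ hτ v hv)
    _ = ∑ c ∈ C, m c * (∑ y ∈ X, ∑ z ∈ X, qh c y z * f c y z) := by
        simp_rw [hm, Finset.sum_mul]
        rw [Finset.sum_comm]
        rw [Finset.sum_congr rfl fun τ _ => Finset.sum_comm]
    _ = ∑ c ∈ C, ∑ y ∈ X, ∑ z ∈ X, q c y z * f c y z := by
        refine Finset.sum_congr rfl fun c hc => ?_
        rw [Finset.mul_sum]
        refine Finset.sum_congr rfl fun y hy => ?_
        rw [Finset.mul_sum]
        refine Finset.sum_congr rfl fun z hz => ?_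
        rw [← hq c hc y hy z hz]
        ring

theorem lw463_ker_mono {n : ℕ} {X S Cl : Finset ℕ} {t t' : ℝ} {k : ℕ → ℕ → ℝ} {π : ℕ → ℝ}
    (h : Ker n X S Cl t k π) (htt : t ≤ t') : Ker n X S Cl t' k π := by
  have hn : (0 : ℝ) ≤ n := Nat.cast_nonneg n
  have h1 : t * n ≤ t' * n := mul_le_mul_of_nonneg_right htt hn
  have h2 : (1 + t) / (n : ℝ) ≤ (1 + t') / n := div_le_div_of_nonneg_right (by linarith) hn
  have h3 : (1 - t') / (n : ℝ) ≤ (1 - t) / n := div_le_div_of_nonneg_right (by linarith) hn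
  exact
    { X_sub := h.X_sub
      S_sub := h.S_sub
      X_big := h.X_big.trans h1
      S_big := h.S_big.trans h1
      Cl_X := h.Cl_X
      Cl_mid := fun c hc => (h.Cl_mid c hc).trans h1
      nn := h.nn
      supp := h.supp
      one := h.one
      up := h.up
      piLo := fun x hx => h3.trans (h.piLo x hx)
      piUp := fun x hx => (h.piUp x hx).trans h2
      rev := h.rev
      dia := fun s => (h.dia s).trans h2
      clUp := fun c hc y => (h.clUp c hc y).trans h2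
      clLo := h.clLo
      lo := h.lo
      col := h.col
      colS := h.colS }

theorem lw463_mass_mono {n : ℕ} {X Cl : Finset ℕ} {e t t' : ℝ} {π m : ℕ → ℝ}
    (h : Mass n X Cl e t π m) (htt : t ≤ t') (hπ : ∀ c ∈ X, 0 ≤ π c) :
    Mass n X Cl e t' π m :=
  { nn := h.nn
    supp := h.supp
    lo := h.lo
    hi := h.hi
    spread := fun c hc => by
      refine (h.spread c hc).trans ?_
      have h1 : 0 ≤ ∑ c' ∈ X, m c' := Finset.sum_nonneg fun c' _ => h.nn c'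
      exact mul_le_mul_of_nonneg_right (mul_le_mul_of_nonneg_right (by linarith) h1) (hπ c hc) }

instance lw463_FL : Nonempty FL := ⟨⟨PUnit, inferInstance, fun _ => 0, fun _ _ => 0⟩⟩

theorem laws (e : ℝ) (he : 0 < e) (he1 : e ≤ 1) : ∃ τ0 U : ℝ, 0 < τ0 ∧ 1 ≤ U ∧ ∃ n0 : ℕ,
    ∀ (n : ℕ) (p lab u : ℕ → ℕ) (R X S T : Finset ℕ) (Q ex F : ℕ → Finset ℕ), n0 ≤ n →
    X ⊆ Icc 1 n → S ⊆ Win n → ((Icc 1 n \ X).card : ℝ) ≤ τ0 * n → ((Win n \ S).card : ℝ) ≤ τ0 * n →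
    (∀ r ∈ R, lab r ∉ X) → (∀ r ∈ R, |(lab r : ℝ) - n / 2| ≤ τ0 * n) →
    (∀ τ ∈ T, Disjoint (Q τ) R) → (∀ τ ∈ T, ex τ ⊆ R) → (∀ τ ∈ T, (ex τ).card ≤ 1) →
    (∀ τ ∈ T, ∀ r ∈ ex τ, p r ∈ Q τ) → (∀ τ ∈ T, ∀ v ∈ Q τ, p v < v ∧ (p v ∈ Q τ ∨ p v ∈ R)) →
    (∀ τ ∈ T, Disjoint (F τ) (Q τ ∪ R)) →
    (∀ τ ∈ T, ∀ v ∈ F τ, u v ∉ Q τ ∪ R ∪ F τ ∧ p (u v) = v ∧ p v ∈ Q τ ∪ R) →
    (∀ τ ∈ T, Set.InjOn u (F τ)) →
    ∑ τ ∈ T, ((Q τ).card + 2 * (F τ).card) = X.card →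
    ∑ τ ∈ T, ((Q τ).card + (ex τ).card + 2 * (F τ).card) = S.card →
    e * n ≤ ((∑ τ ∈ T, (F τ).card : ℕ) : ℝ) →
    ∃ L : ℕ → FL, (∀ τ ∈ T, PL n p R lab X S (Q τ ∪ F τ ∪ (F τ).image u) (ex τ) U (L τ)) ∧
      (∀ x ∈ X, ∑ τ ∈ T, ∑ v ∈ Q τ ∪ F τ ∪ (F τ).image u, (L τ).Pr (fun φ => φ v = x) ≤ 1) ∧
      (∀ s ∈ S, ∑ τ ∈ T, ∑ i ∈ Q τ ∪ F τ ∪ (F τ).image u ∪ ex τ,
        (L τ).Pr (fun φ => φ i + φ (p i) = s) ≤ 1) := by
  obtain ⟨c0, hc0, hlp⟩ := lp_main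
  obtain ⟨τ0, hτ0⟩ : ∃ τ0 : ℝ, τ0 = min (1 / 80000) (c0 * e ^ 2 / 320) := ⟨_, rfl⟩
  have hτpos : 0 < τ0 := by rw [hτ0]; exact lt_min (by norm_num) (by positivity)
  have hτ1 : τ0 ≤ 1 / 80000 := by rw [hτ0]; exact min_le_left _ _
  have hτ2 : τ0 ≤ c0 * e ^ 2 / 320 := by rw [hτ0]; exact min_le_right _ _
  obtain ⟨n1, hker⟩ := ker_ok τ0 hτpos (by linarith)
  obtain ⟨n2, hn2⟩ := exists_nat_ge (100 / (8 * τ0))
  have hM : 1 ≤ 1 + 20 / e := by
    have : 0 < 20 / e := by positivity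
    linarith
  refine ⟨τ0, 6 * (1 + 20 / e), hτpos, by linarith, max n1 (max n2 1000), ?_⟩
  intro n p lab u R X S T Q ex F hn hX hS hXc hSc hlabX hlabm hQR hexR hexc hexQ hpQ hFQ huF
    huinj hsX hsS heF
  have hn1 : n1 ≤ n := (le_max_left _ _).trans hn
  have hn2' : n2 ≤ n := ((le_max_left _ _).trans (le_max_right _ _)).trans hn
  have hn3 : 1000 ≤ n := ((le_max_right _ _).trans (le_max_right _ _)).trans hn
  have hnpos : (0 : ℝ) < n := by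
    have : (1000 : ℝ) ≤ n := by exact_mod_cast hn3
    linarith
  have hnt : 100 ≤ 8 * τ0 * n := by
    have h1 : 100 / (8 * τ0) ≤ (n : ℝ) := hn2.trans (by exact_mod_cast hn2')
    rw [div_le_iff₀ (by positivity)] at h1
    linarith
  obtain ⟨Cl, hCl⟩ : ∃ Cl : Finset ℕ, Cl = R.image lab := ⟨_, rfl⟩
  have hlabCl : ∀ r ∈ R, lab r ∈ Cl := fun r hr => by
    rw [hCl]; exact Finset.mem_image_of_mem _ hr
  have hClX : ∀ c ∈ Cl, c ∉ X := by
    intro c hc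
    rw [hCl, Finset.mem_image] at hc
    obtain ⟨r, hr, rfl⟩ := hc
    exact hlabX r hr
  have hClm : ∀ c ∈ Cl, |(c : ℝ) - n / 2| ≤ τ0 * n := by
    intro c hc
    rw [hCl, Finset.mem_image] at hc
    obtain ⟨r, hr, rfl⟩ := hc
    exact hlabm r hr
  obtain ⟨k, π, hk⟩ := hker n X S Cl hn1 hX hS hXc hSc hClX hClm
  obtain ⟨t, ht⟩ : ∃ t : ℝ, t = 8 * τ0 := ⟨_, rfl⟩
  rw [← ht] at hk hnt
  have ht0 : 0 < t := by rw [ht]; positivity
  have ht1 : t ≤ 1 / 10000 := by rw [ht]; linarith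
  have ht2 : 40 * t ≤ c0 * e ^ 2 := by rw [ht]; linarith
  have hpQ' : ∀ τ ∈ T, ∀ v ∈ Q τ, p v ∈ Q τ ∪ R := by
    intro τ hτ v hv
    rw [Finset.mem_union]
    exact (hpQ τ hτ v hv).2
  -- base laws
  have hbase : ∀ τ ∈ T, ∃ L : FL, PL n p R lab X S (Q τ) (ex τ) 6 L ∧
      (∀ v ∈ Q τ, ∀ x ∈ X, L.Pr (fun φ => φ v = x) ≤ (1 + 8 * t) * π x) ∧
      (∀ i ∈ Q τ ∪ ex τ, ∀ s, L.Pr (fun φ => φ i + φ (p i) = s) ≤ (1 + 8 * t) / n) :=
    fun τ hτ => base_law hk ht0 (by linarith) hn3 hnt p lab R (Q τ) (ex τ) hlabCl (hQR τ hτ)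
      (hpQ τ hτ) (hexR τ hτ) (hexc τ hτ) (hexQ τ hτ)
  choose! L0 hL0 hL0X hL0S using hbase
  have hBS : BS n p lab u R X S Cl T Q ex F t π L0 :=
    { hlab := hlabCl
      QR := hQR
      exR := hexR
      exQ := hexQ
      pQ := hpQ'
      FQ := hFQ
      uF := huF
      law := hL0
      mX := hL0X
      mS := hL0S }
  have hXn : X.card ≤ n := by
    have := Finset.card_le_card hX
    rwa [Nat.card_Icc, Nat.add_sub_cancel] at this
  have hFn : ∑ τ ∈ T, (F τ).card ≤ n := by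
    refine le_trans ?_ hXn
    rw [← hsX]
    exact Finset.sum_le_sum fun τ _ => by omega
  have hmass := mass_ok hk hBS heF hFn
  have hπ0 : ∀ c ∈ X, 0 ≤ π c := by
    intro c hc
    refine le_trans ?_ (hk.piLo c hc)
    exact div_nonneg (by linarith) hnpos.le
  have hlph := lph_ok hk ht0 ht1 hn3 hBS hsX hsS
  obtain ⟨q, hq, hqm, hqX, hqS⟩ := hlp (lw463_ker_mono hk (by linarith : t ≤ 40 * t))
    (lw463_mass_mono hmass (by linarith : 8 * t ≤ 40 * t) hπ0) hlph he he1 (by linarith) ht2 hn3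
    (by linarith)
  obtain ⟨m, hm⟩ : ∃ m : ℕ → ℝ, m = mm p T F L0 := ⟨_, rfl⟩
  rw [← hm] at hmass hlph hqm
  have hq' : ∀ c y z, 0 ≤ q c y z ∧ q c y z ≤ (1 + 20 / e) * q0 m k c y z := by
    rw [hm]; exact hq
  obtain ⟨qh, hqh⟩ : ∃ qh : ℕ → ℕ → ℕ → ℝ, qh = fun c y z =>
    if m c = 0 then k c y * k y z else q c y z / m c := ⟨_, rfl⟩
  have hkk : ∀ c y z, 0 ≤ k c y * k y z := fun c y z => mul_nonneg (hk.nn _ _) (hk.nn _ _)
  have hq0 : ∀ c y z, 0 ≤ qh c y z := by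
    intro c y z
    rw [hqh]
    dsimp only
    split_ifs with h1
    · exact hkk c y z
    · exact div_nonneg (hq' c y z).1 (hmass.nn c)
  have hq1 : ∀ c y z, qh c y z ≤ (1 + 20 / e) * (k c y * k y z) := by
    intro c y z
    rw [hqh]
    dsimp only
    split_ifs with h1
    · exact le_mul_of_one_le_left (hkk c y z) hM
    · have h2 : 0 < m c := lt_of_le_of_ne (hmass.nn c) (Ne.symm h1)
      rw [div_le_iff₀ h2]
      refine (hq' c y z).2.trans (le_of_eq ?_)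
      unfold q0
      ring
  have hkone : ∀ c ∈ X ∪ Cl, ∑ y ∈ X, ∑ z ∈ X, k c y * k y z = 1 := by
    intro c hc
    rw [← hk.one c hc]
    refine Finset.sum_congr rfl fun y hy => ?_
    rw [← Finset.mul_sum, hk.one y (Finset.mem_union_left _ hy), mul_one]
  have hq2 : ∀ c ∈ X ∪ Cl, ∑ y ∈ X, ∑ z ∈ X, qh c y z = 1 := by
    intro c hc
    by_cases h1 : m c = 0
    · rw [← hkone c hc]
      refine Finset.sum_congr rfl fun y _ => Finset.sum_congr rfl fun z _ => ?_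
      rw [hqh]
      dsimp only
      rw [if_pos h1]
    · have h2 : ∑ y ∈ X, ∑ z ∈ X, qh c y z = (∑ y ∈ X, ∑ z ∈ X, q c y z) / m c := by
        rw [Finset.sum_div]
        refine Finset.sum_congr rfl fun y _ => ?_
        rw [Finset.sum_div]
        refine Finset.sum_congr rfl fun z _ => ?_
        rw [hqh]
        dsimp only
        rw [if_neg h1]
      rw [h2, hqm c hc, div_self h1]
  have hmq : ∀ c ∈ X ∪ Cl, ∀ y ∈ X, ∀ z ∈ X, m c * qh c y z = q c y z := by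
    intro c _ y _ z _
    rw [hqh]
    dsimp only
    split_ifs with h1
    · have h2 := hq' c y z
      unfold q0 at h2
      rw [h1] at h2 ⊢
      rw [zero_mul]
      have h3 : (1 + 20 / e) * (0 * k c y * k y z) = 0 := by ring
      rw [h3] at h2
      exact le_antisymm h2.1 h2.2
    · field_simp
  -- the laws
  have hflex : ∀ τ ∈ T, ∃ L : FL,
      PL n p R lab X S (Q τ ∪ F τ ∪ (F τ).image u) (ex τ) (6 * (1 + 20 / e)) L ∧
      (∀ f : (ℕ → ℕ) → ℝ, (∀ φ ψ : ℕ → ℕ, (∀ i ∈ Q τ ∪ R, φ i = ψ i) → f φ = f ψ) →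
        L.Ex f = (L0 τ).Ex f) ∧
      (∀ v ∈ F τ, ∀ f : ℕ → ℕ → ℕ → ℝ,
        L.Ex (fun φ => f (φ (p v)) (φ v) (φ (u v))) =
          (L0 τ).Ex (fun φ => ∑ y ∈ X, ∑ z ∈ X, qh (φ (p v)) y z * f (φ (p v)) y z)) :=
    fun τ hτ => flex_law hk (by omega) p lab u R (Q τ) (ex τ) (F τ) hlabCl (hQR τ hτ) (hFQ τ hτ)
      (huF τ hτ) (huinj τ hτ) (hpQ' τ hτ) (hexR τ hτ) (hexQ τ hτ) (L0 τ) (hL0 τ hτ)
      (1 + 20 / e) hM qh hq0 hq1 hq2
  choose! L hL hLold hLnew using hflex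
  have hL0C : ∀ τ ∈ T, ∀ v ∈ F τ, ∀ ω, (L0 τ).wt ω ≠ 0 → (L0 τ).Φ ω (p v) ∈ X ∪ Cl := by
    intro τ hτ v hv ω hω
    rcases Finset.mem_union.1 (huF τ hτ v hv).2.2 with h1 | h1
    · exact Finset.mem_union_left _ ((hL0 τ hτ).lbl ω hω _ h1)
    · rw [(hL0 τ hτ).onR ω _ h1]
      exact Finset.mem_union_right _ (hlabCl _ h1)
  have hmdef : ∀ c, m c = ∑ τ ∈ T, ∑ v ∈ F τ, (L0 τ).Pr (fun φ => φ (p v) = c) := by
    intro c; rw [hm]; rfl
  have hflexf := fun f => lw463_flex (q := q) hmdef hL0C hLnew hmq f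
  -- sums over the pieces
  have hsum : ∀ τ ∈ T, ∀ g : ℕ → ℝ, ∑ v ∈ Q τ ∪ F τ ∪ (F τ).image u, g v =
      ∑ v ∈ Q τ, g v + ∑ v ∈ F τ, g v + ∑ v ∈ F τ, g (u v) := by
    intro τ hτ g
    have h1 : Disjoint (Q τ) (F τ) :=
      ((hFQ τ hτ).mono_right Finset.subset_union_left).symm
    have h2 : Disjoint (Q τ ∪ F τ) ((F τ).image u) := by
      rw [Finset.disjoint_right]
      intro w hw hw'
      obtain ⟨v, hv, rfl⟩ := Finset.mem_image.1 hw
      refine (huF τ hτ v hv).1 ?_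
      rcases Finset.mem_union.1 hw' with h3 | h3
      · exact Finset.mem_union_left _ (Finset.mem_union_left _ h3)
      · exact Finset.mem_union_right _ h3
    rw [Finset.sum_union h2, Finset.sum_union h1, Finset.sum_image (huinj τ hτ)]
  have hsum' : ∀ τ ∈ T, ∀ g : ℕ → ℝ, ∑ v ∈ Q τ ∪ F τ ∪ (F τ).image u ∪ ex τ, g v =
      ∑ v ∈ Q τ ∪ ex τ, g v + ∑ v ∈ F τ, g v + ∑ v ∈ F τ, g (u v) := by
    intro τ hτ g
    have h1 : Disjoint (Q τ) (ex τ) := (hQR τ hτ).mono_right (hexR τ hτ)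
    have h2 : Disjoint (Q τ ∪ F τ ∪ (F τ).image u) (ex τ) := by
      rw [Finset.disjoint_left]
      intro w hw hw'
      rcases Finset.mem_union.1 hw with h3 | h3
      · rcases Finset.mem_union.1 h3 with h4 | h4
        · exact Finset.disjoint_left.1 h1 h4 hw'
        · exact Finset.disjoint_left.1 (hFQ τ hτ) h4
            (Finset.mem_union_right _ (hexR τ hτ hw'))
      · obtain ⟨v, hv, rfl⟩ := Finset.mem_image.1 h3
        exact (huF τ hτ v hv).1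
          (Finset.mem_union_left _ (Finset.mem_union_right _ (hexR τ hτ hw')))
    rw [Finset.sum_union h2, hsum τ hτ, Finset.sum_union h1]
    ring
  refine ⟨L, hL, ?_, ?_⟩
  · intro x hx
    refine le_trans (le_of_eq ?_) (hqX x hx)
    have h1 : ∑ τ ∈ T, ∑ v ∈ F τ, (L τ).Pr (fun φ => φ v = x) =
        ∑ c ∈ X ∪ Cl, ∑ z ∈ X, q c x z := by
      simp_rw [lw463_Pr_eq]
      rw [hflexf (fun c y z => if y = x then 1 else 0)]
      refine Finset.sum_congr rfl fun c _ => ?_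
      rw [Finset.sum_eq_single x]
      · refine Finset.sum_congr rfl fun z _ => ?_
        rw [if_pos rfl, mul_one]
      · intro y _ hy
        refine Finset.sum_eq_zero fun z _ => ?_
        rw [if_neg hy, mul_zero]
      · intro h; exact absurd hx h
    have h2 : ∑ τ ∈ T, ∑ v ∈ F τ, (L τ).Pr (fun φ => φ (u v) = x) =
        ∑ c ∈ X ∪ Cl, ∑ y ∈ X, q c y x := by
      simp_rw [lw463_Pr_eq]
      rw [hflexf (fun c y z => if z = x then 1 else 0)]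
      refine Finset.sum_congr rfl fun c _ => Finset.sum_congr rfl fun y _ => ?_
      rw [Finset.sum_eq_single x]
      · rw [if_pos rfl, mul_one]
      · intro z _ hz
        rw [if_neg hz, mul_zero]
      · intro h; exact absurd hx h
    have h3 : ∑ τ ∈ T, ∑ v ∈ Q τ, (L τ).Pr (fun φ => φ v = x) = bX T Q L0 x := by
      unfold bX
      refine Finset.sum_congr rfl fun τ hτ => Finset.sum_congr rfl fun v hv => ?_
      rw [lw463_Pr_eq, lw463_Pr_eq]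
      refine hLold τ hτ _ fun φ ψ h => ?_
      rw [h v (Finset.mem_union_left _ hv)]
    rw [Finset.sum_congr rfl fun τ hτ => hsum τ hτ _, Finset.sum_add_distrib,
      Finset.sum_add_distrib, h1, h2, h3]
    unfold LX
    ring
  · intro s hs
    refine le_trans (le_of_eq ?_) (hqS s hs)
    have h1 : ∑ τ ∈ T, ∑ v ∈ F τ, (L τ).Pr (fun φ => φ v + φ (p v) = s) =
        ∑ c ∈ X ∪ Cl, ∑ y ∈ X, ∑ z ∈ X, if c + y = s then q c y z else 0 := by
      simp_rw [lw463_Pr_eq]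
      rw [hflexf (fun c y z => if y + c = s then 1 else 0)]
      refine Finset.sum_congr rfl fun c _ => Finset.sum_congr rfl fun y _ =>
        Finset.sum_congr rfl fun z _ => ?_
      rw [Nat.add_comm y c, mul_ite, mul_one, mul_zero]
    have h2 : ∑ τ ∈ T, ∑ v ∈ F τ, (L τ).Pr (fun φ => φ (u v) + φ (p (u v)) = s) =
        ∑ c ∈ X ∪ Cl, ∑ y ∈ X, ∑ z ∈ X, if y + z = s then q c y z else 0 := by
      have h3 : ∑ τ ∈ T, ∑ v ∈ F τ, (L τ).Pr (fun φ => φ (u v) + φ (p (u v)) = s) =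
          ∑ τ ∈ T, ∑ v ∈ F τ, (L τ).Pr (fun φ => φ (u v) + φ v = s) := by
        refine Finset.sum_congr rfl fun τ hτ => Finset.sum_congr rfl fun v hv => ?_
        rw [(huF τ hτ v hv).2.1]
      rw [h3]
      simp_rw [lw463_Pr_eq]
      rw [hflexf (fun c y z => if z + y = s then 1 else 0)]
      refine Finset.sum_congr rfl fun c _ => Finset.sum_congr rfl fun y _ =>
        Finset.sum_congr rfl fun z _ => ?_
      rw [Nat.add_comm z y, mul_ite, mul_one, mul_zero]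
    have h3 : ∑ τ ∈ T, ∑ i ∈ Q τ ∪ ex τ, (L τ).Pr (fun φ => φ i + φ (p i) = s) =
        bS p T Q ex L0 s := by
      unfold bS
      refine Finset.sum_congr rfl fun τ hτ => Finset.sum_congr rfl fun i hi => ?_
      rw [lw463_Pr_eq, lw463_Pr_eq]
      refine hLold τ hτ _ fun φ ψ h => ?_
      have h4 : φ i = ψ i ∧ φ (p i) = ψ (p i) := by
        rcases Finset.mem_union.1 hi with h5 | h5
        · exact ⟨h i (Finset.mem_union_left _ h5), h _ (hpQ' τ hτ i h5)⟩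
        · exact ⟨h i (Finset.mem_union_right _ (hexR τ hτ h5)),
            h _ (Finset.mem_union_left _ (hexQ τ hτ i h5))⟩
      rw [h4.1, h4.2]
    rw [Finset.sum_congr rfl fun τ hτ => hsum' τ hτ _, Finset.sum_add_distrib,
      Finset.sum_add_distrib, h1, h2, h3]
    unfold LS
    ring

end Pool.Agent.SEM
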