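import Pool.Agent.Helper73.SEM.FP3

/-!
# SEM: the main theorem for simple graphs, and some consequences
-/

set_option autoImplicit false

namespace Pool.Agent.SEM

open Finset

open Classical in
/-- the main theorem in graph form -/
theorem sem_graph :
    ∀ ε : ℝ, 0 < ε → ∃ δ : ℝ, 0 < δ ∧ ∃ n₀ : ℕ, ∀ (n : ℕ) (G : SimpleGraph (Fin n)), n₀ ≤ n →
      G.IsTree → (∀ v, (G.degree v : ℝ) ≤ δ * n) →
      ε * n ≤ ((univ.filter fun u : Fin n =>
        G.degree u = 1 ∧ ∃ w, G.Adj u w ∧ G.degree w = 2).card : ℝ) →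
      ∃ (f : Fin n → ℕ) (g : G.edgeSet → ℕ) (k : ℕ),
        Function.Injective f ∧ (∀ v, 1 ≤ f v ∧ f v ≤ n) ∧
        Function.Injective g ∧ (∀ e, n + 1 ≤ g e ∧ g e < 2 * n) ∧
        ∀ (e : G.edgeSet) (u v : Fin n), (e : Sym2 (Fin n)) = s(u, v) →
          f u + g e + f v = k := by
  intro ε hε
  obtain ⟨ε', hε', hε1, hεε⟩ : ∃ ε' : ℝ, 0 < ε' ∧ ε' ≤ 1 ∧ 2 * ε' ≤ ε :=
    ⟨min (ε / 2) 1, by positivity, min_le_right _ _, by
      have := min_le_left (ε / 2) 1
      linarith⟩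
  obtain ⟨δ, hδ, n0, hmain⟩ := SEM.sem_main ε' hε' hε1
  refine ⟨δ, hδ, max (max n0 4) ⌈2 / ε'⌉₊, ?_⟩
  intro n G hn hG hdeg hleaf
  have h0 : n0 ≤ n := ((le_max_left _ _).trans (le_max_left _ _)).trans hn
  have h4 : 4 ≤ n := ((le_max_right _ _).trans (le_max_left _ _)).trans hn
  have h2 : 2 / ε' ≤ n := by
    have h1 : ⌈2 / ε'⌉₊ ≤ n := (le_max_right _ _).trans hn
    have h2 := Nat.le_ceil (2 / ε')
    have h3 : ((⌈2 / ε'⌉₊ : ℕ) : ℝ) ≤ n := by exact_mod_cast h1
    linarith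
  have h2' : 2 ≤ ε' * n := by
    rw [div_le_iff₀ hε'] at h2
    linarith
  obtain ⟨p, hp, hchl, hpend, hres⟩ := SEM.to_parent h4 G hG
  have hn0 : (0 : ℝ) ≤ n := Nat.cast_nonneg n
  haveI : Nonempty (Fin n) := ⟨⟨0, by omega⟩⟩
  obtain ⟨v0, hv0⟩ := G.exists_maximal_degree_vertex
  refine hres (hmain n p h0 hp ?_ ?_)
  · intro v hv
    have h1 : ((SEM.chl n p v).card : ℝ) ≤ G.maxDegree := by exact_mod_cast hchl v hv
    rw [hv0] at h1
    exact h1.trans (hdeg v0)
  · have h1 : ((univ.filter fun u : Fin n =>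
        G.degree u = 1 ∧ ∃ w, G.Adj u w ∧ G.degree w = 2).card : ℝ) ≤
        ((range n).filter fun v => SEM.Pend n p v).card + 2 := by exact_mod_cast hpend
    nlinarith

/-- a super edge-magic tree is edge-magic (form of the frozen statement) -/
theorem sem_em {n : ℕ} {G : SimpleGraph (Fin n)} (hG : G.IsTree)
    (h : ∃ (f : Fin n → ℕ) (g : G.edgeSet → ℕ) (k : ℕ),
        Function.Injective f ∧ (∀ v, 1 ≤ f v ∧ f v ≤ n) ∧
        Function.Injective g ∧ (∀ e, n + 1 ≤ g e ∧ g e < 2 * n) ∧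
        ∀ (e : G.edgeSet) (u v : Fin n), (e : Sym2 (Fin n)) = s(u, v) →
          f u + g e + f v = k) :
    ∃ e : (Fin n ⊕ G.edgeSet) ≃ Fin (Nat.card (Fin n ⊕ G.edgeSet)), ∃ k : ℕ,
      ∀ (u v : Fin n) (h : G.Adj u v),
        ((e (Sum.inl u)).val + 1)
          + ((e (Sum.inr ⟨s(u, v), (SimpleGraph.mem_edgeSet G).mpr h⟩)).val + 1)
          + ((e (Sum.inl v)).val + 1) = k := by
  classical
  obtain ⟨f, g, k, hf, hfr, hg, hgr, hk⟩ := h
  have hcard : Nat.card (Fin n ⊕ G.edgeSet) + 1 = 2 * n := by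
    have h1 := hG.card_edgeFinset
    rw [Fintype.card_fin] at h1
    rw [Nat.card_eq_fintype_card, Fintype.card_sum, Fintype.card_fin, ← SimpleGraph.edgeFinset_card]
    omega
  let φ : Fin n ⊕ G.edgeSet → Fin (Nat.card (Fin n ⊕ G.edgeSet)) := fun x =>
    match x with
    | Sum.inl v => ⟨f v - 1, by have := hfr v; have := v.2; omega⟩
    | Sum.inr e => ⟨g e - 1, by have := hgr e; omega⟩
  have hinj : Function.Injective φ := by
    intro x y hxy
    rcases x with x | x <;> rcases y with y | y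
    · have h1 : f x - 1 = f y - 1 := congrArg Fin.val hxy
      have := hfr x; have := hfr y
      rw [hf (by omega : f x = f y)]
    · exfalso
      have h1 : f x - 1 = g y - 1 := congrArg Fin.val hxy
      have := hfr x; have := hgr y
      omega
    · exfalso
      have h1 : g x - 1 = f y - 1 := congrArg Fin.val hxy
      have := hgr x; have := hfr y
      omega
    · have h1 : g x - 1 = g y - 1 := congrArg Fin.val hxy
      have := hgr x; have := hgr y
      rw [hg (by omega : g x = g y)]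
  have hbij : Function.Bijective φ := by
    rw [Fintype.bijective_iff_injective_and_card]
    refine ⟨hinj, ?_⟩
    rw [Fintype.card_fin, Nat.card_eq_fintype_card]
  refine ⟨Equiv.ofBijective φ hbij, k, ?_⟩
  intro u v huv
  have h1 := hk ⟨s(u, v), (SimpleGraph.mem_edgeSet G).mpr huv⟩ u v rfl
  have h2 := hfr u
  have h3 := hfr v
  have h4 := hgr ⟨s(u, v), (SimpleGraph.mem_edgeSet G).mpr huv⟩
  show (f u - 1 + 1) + (g ⟨s(u, v), _⟩ - 1 + 1) + (f v - 1 + 1) = k
  omega

/-- a super edge-magic tree is harmonious -/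
theorem sem_harm {n : ℕ} (hn : 2 ≤ n) {G : SimpleGraph (Fin n)}
    (h : ∃ (f : Fin n → ℕ) (g : G.edgeSet → ℕ) (k : ℕ),
        Function.Injective f ∧ (∀ v, 1 ≤ f v ∧ f v ≤ n) ∧
        Function.Injective g ∧ (∀ e, n + 1 ≤ g e ∧ g e < 2 * n) ∧
        ∀ (e : G.edgeSet) (u v : Fin n), (e : Sym2 (Fin n)) = s(u, v) →
          f u + g e + f v = k) :
    ∃ f : Fin n → ZMod (n - 1), Function.Surjective f ∧
      ∀ u v x y : Fin n, G.Adj u v → G.Adj x y →
        f u + f v = f x + f y → s(u, v) = s(x, y) := by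
  classical
  obtain ⟨f, g, k, hf, hfr, hg, hgr, hk⟩ := h
  haveI : NeZero (n - 1) := ⟨by omega⟩
  refine ⟨fun v => (f v : ZMod (n - 1)), ?_, ?_⟩
  · intro z
    -- the labels are exactly 1..n
    have himg : (univ.image f) = Icc 1 n := by
      apply eq_of_subset_of_card_le
      · intro x hx
        obtain ⟨v, _, rfl⟩ := mem_image.1 hx
        exact mem_Icc.2 (hfr v)
      · rw [card_image_of_injective _ hf, card_univ, Fintype.card_fin, Nat.card_Icc]
        omega
    have hz : z.val + 1 ∈ Icc 1 n := by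
      have := z.val_lt
      rw [mem_Icc]; omega
    by_cases h0 : z.val = 0
    · have h1 : n - 1 ∈ Icc 1 n := by rw [mem_Icc]; omega
      rw [← himg] at h1
      obtain ⟨v, _, hv⟩ := mem_image.1 h1
      refine ⟨v, ?_⟩
      show ((f v : ℕ) : ZMod (n - 1)) = z
      rw [hv, ZMod.natCast_self]
      exact ((ZMod.val_eq_zero z).1 h0).symm
    · have h1 : z.val ∈ Icc 1 n := by
        have := z.val_lt
        rw [mem_Icc]; omega
      rw [← himg] at h1
      obtain ⟨v, _, hv⟩ := mem_image.1 h1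
      refine ⟨v, ?_⟩
      show ((f v : ℕ) : ZMod (n - 1)) = z
      rw [hv, ZMod.natCast_zmod_val]
  · intro u v x y huv hxy hs
    have h1 := hk ⟨s(u, v), (SimpleGraph.mem_edgeSet G).mpr huv⟩ u v rfl
    have h2 := hk ⟨s(x, y), (SimpleGraph.mem_edgeSet G).mpr hxy⟩ x y rfl
    have g1 := hgr ⟨s(u, v), (SimpleGraph.mem_edgeSet G).mpr huv⟩
    have g2 := hgr ⟨s(x, y), (SimpleGraph.mem_edgeSet G).mpr hxy⟩
    have hs' : ((f u + f v : ℕ) : ZMod (n - 1)) = ((f x + f y : ℕ) : ZMod (n - 1)) := by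
      push_cast; exact hs
    rw [ZMod.natCast_eq_natCast_iff] at hs'
    have h3 : f u + f v = f x + f y := by
      rcases Nat.le_total (f u + f v) (f x + f y) with hle | hle
      · have h5 := (Nat.modEq_iff_dvd' hle).1 hs'
        obtain ⟨c, hc⟩ := h5
        rcases Nat.eq_zero_or_pos c with h0 | h0
        · subst h0; omega
        · exfalso
          have : (n - 1) * 1 ≤ (n - 1) * c := Nat.mul_le_mul_left _ h0
          omega
      · have h5 := (Nat.modEq_iff_dvd' hle).1 hs'.symm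
        obtain ⟨c, hc⟩ := h5
        rcases Nat.eq_zero_or_pos c with h0 | h0
        · subst h0; omega
        · exfalso
          have : (n - 1) * 1 ≤ (n - 1) * c := Nat.mul_le_mul_left _ h0
          omega
    have h4 : g ⟨s(u, v), (SimpleGraph.mem_edgeSet G).mpr huv⟩ =
        g ⟨s(x, y), (SimpleGraph.mem_edgeSet G).mpr hxy⟩ := by omega
    have h5 := hg h4
    exact congrArg Subtype.val h5

end Pool.Agent.SEM
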