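import Mathlib

/-!
# SEM-NB0: expectation over a random subset (product Bernoulli measure)

`Ber p F` is the expectation of `F A`, where `A ⊆ E` is random, each `e` is in `A` with probability
`p e`, independently.

Proof in words.  `ber_disj_mem`: for disjoint `B, C` the event `B ⊆ A`, `C ∩ A = ∅` has probability
`∏_B p * ∏_C (1-p)`: the admissible `A` are `B ∪ A'` with `A' ⊆ univ \ (B ∪ C)`; factor the products and use
`Finset.prod_add` (`∏ (p e + (1 - p e)) = 1`).  The others are special cases / linearity.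
-/

set_option autoImplicit false

namespace Pool.Agent.SEM

open Finset

/-- expectation over a random subset -/
noncomputable def Ber {E : Type} [Fintype E] [DecidableEq E] (p : E → ℝ) (F : Finset E → ℝ) : ℝ :=
  ∑ A ∈ (univ : Finset E).powerset, ((∏ e ∈ A, p e) * ∏ e ∈ univ \ A, (1 - p e)) * F A

variable {E : Type} [Fintype E] [DecidableEq E]

open Classical in
theorem ber_disj_mem (p : E → ℝ) (B C : Finset E) (h : Disjoint B C) :
    Ber p (fun A => if B ⊆ A ∧ Disjoint A C then 1 else 0) = (∏ e ∈ B, p e) * ∏ e ∈ C, (1 - p e) := by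
  -- write the indicator as a product and use `prod_add` for modified functions
  have key := Finset.prod_add (fun e => if e ∈ C then (0 : ℝ) else p e)
    (fun e => if e ∈ B then (0 : ℝ) else 1 - p e) (univ : Finset E)
  have hL : ∏ e : E, ((if e ∈ C then (0 : ℝ) else p e) + (if e ∈ B then (0 : ℝ) else 1 - p e))
      = (∏ e ∈ B, p e) * ∏ e ∈ C, (1 - p e) := by
    have h1 : ∀ e : E, ((if e ∈ C then (0 : ℝ) else p e) + (if e ∈ B then (0 : ℝ) else 1 - p e))
        = (if e ∈ B then p e else 1) * (if e ∈ C then 1 - p e else 1) := by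
      intro e
      by_cases hB : e ∈ B
      · have hC : e ∉ C := Finset.disjoint_left.mp h hB
        simp [hB, hC]
      · by_cases hC : e ∈ C
        · simp [hB, hC]
        · simp [hB, hC]
    rw [Finset.prod_congr rfl (fun e _ => h1 e), Finset.prod_mul_distrib]
    congr 1
    · rw [Finset.prod_ite_mem, Finset.univ_inter]
    · rw [Finset.prod_ite_mem, Finset.univ_inter]
  rw [hL] at key
  rw [key, Ber]
  refine Finset.sum_congr rfl ?_
  intro A _
  have hA1 : (∏ e ∈ A, (if e ∈ C then (0 : ℝ) else p e))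
      = if Disjoint A C then ∏ e ∈ A, p e else 0 := by
    by_cases hd : Disjoint A C
    · rw [if_pos hd]
      refine Finset.prod_congr rfl ?_
      intro e he
      rw [if_neg (Finset.disjoint_left.mp hd he)]
    · rw [if_neg hd]
      rw [Finset.not_disjoint_iff] at hd
      obtain ⟨e, heA, heC⟩ := hd
      exact Finset.prod_eq_zero heA (by simp [heC])
  have hA2 : (∏ e ∈ univ \ A, (if e ∈ B then (0 : ℝ) else 1 - p e))
      = if B ⊆ A then ∏ e ∈ univ \ A, (1 - p e) else 0 := by
    by_cases hd : B ⊆ A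
    · rw [if_pos hd]
      refine Finset.prod_congr rfl ?_
      intro e he
      rw [Finset.mem_sdiff] at he
      rw [if_neg (fun hB => he.2 (hd hB))]
    · rw [if_neg hd]
      rw [Finset.not_subset] at hd
      obtain ⟨e, heB, heA⟩ := hd
      exact Finset.prod_eq_zero (i := e) (by simp [heA]) (by simp [heB])
  rw [hA1, hA2]
  by_cases h1 : B ⊆ A
  · by_cases h2 : Disjoint A C
    · simp [h1, h2]
    · simp [h1, h2]
  · by_cases h2 : Disjoint A C
    · simp [h1, h2]
    · simp [h1, h2]

theorem ber_one (p : E → ℝ) : Ber p (fun _ => 1) = 1 := by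
  have h := ber_disj_mem p ∅ ∅ (Finset.disjoint_empty_right ∅)
  simpa using h

theorem ber_add (p : E → ℝ) (F G : Finset E → ℝ) :
    Ber p (fun A => F A + G A) = Ber p F + Ber p G := by
  simp only [Ber]
  rw [← Finset.sum_add_distrib]
  exact Finset.sum_congr rfl (fun A _ => by ring)

theorem ber_mul (p : E → ℝ) (c : ℝ) (F : Finset E → ℝ) :
    Ber p (fun A => c * F A) = c * Ber p F := by
  simp only [Ber]
  rw [Finset.mul_sum]
  exact Finset.sum_congr rfl (fun A _ => by ring)

theorem ber_sum {ι : Type} (p : E → ℝ) (s : Finset ι) (F : ι → Finset E → ℝ) :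
    Ber p (fun A => ∑ i ∈ s, F i A) = ∑ i ∈ s, Ber p (F i) := by
  simp only [Ber]
  rw [Finset.sum_comm]
  exact Finset.sum_congr rfl (fun A _ => by rw [Finset.mul_sum])

theorem ber_mono (p : E → ℝ) (hp : ∀ e, 0 ≤ p e ∧ p e ≤ 1) (F G : Finset E → ℝ)
    (h : ∀ A, F A ≤ G A) : Ber p F ≤ Ber p G := by
  refine Finset.sum_le_sum ?_
  intro A _
  refine mul_le_mul_of_nonneg_left (h A) ?_
  exact mul_nonneg (Finset.prod_nonneg (fun e _ => (hp e).1))
    (Finset.prod_nonneg (fun e _ => sub_nonneg.mpr (hp e).2))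

/-- some outcome is at least the expectation -/
theorem ber_exists (p : E → ℝ) (hp : ∀ e, 0 ≤ p e ∧ p e ≤ 1) (F : Finset E → ℝ) :
    ∃ A, Ber p F ≤ F A := by
  obtain ⟨A, _, hA⟩ := Finset.exists_max_image (univ : Finset (Finset E)) F ⟨∅, Finset.mem_univ _⟩
  refine ⟨A, ?_⟩
  calc Ber p F ≤ Ber p (fun _ => F A) :=
        ber_mono p hp F (fun _ => F A) (fun A' => hA A' (Finset.mem_univ _))
    _ = Ber p (fun _ => F A * 1) := by simp
    _ = F A * Ber p (fun _ => 1) := ber_mul p (F A) (fun _ => 1)
    _ = F A := by rw [ber_one, mul_one]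

end Pool.Agent.SEM
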