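import Pool.Agent.Helper73.SEM.NB0

/-!
# SEM-NB1: second moment of the load after one bite

Instance: a weighted hypergraph with edges `S e ⊆ VS`, loads `≤ 1`, codegrees `≤ δ`.
`LL S w γ v A` is the new (reweighted) load of `v` after the chosen edges `A` have been removed, ignoring
the chosen edges through `v`.

Proof in words of `nb_second` (`L = LL S w γ v`, `I_v(e) = {f : v ∉ S f, S f ∩ S e ≠ ∅}`):
`E (L-1)^2 = E L^2 - 2 E L + 1`.
(1) `E L ≥ 1 - k δ`: `E L = ∑_{e ∋ v} w e exp(γ(|S e|-1)) ∏_{f ∈ I_v(e)} (1 - γ w f)` (`ber_disj_mem` with `B = ∅`),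
`∑_{f ∈ I_v(e)} w f ≤ |S e| - 1` (union over the other vertices `u` of `S e`, loads `≤ 1`), `1 - x ≥ exp(-x-x^2)` for
`0 ≤ x ≤ 1/2`, `∑ (γ w f)^2 ≤ γ^2 δ ∑ w f ≤ δ k`; so each term is at least `w e exp(-kδ)`, sum `= exp(-kδ) ≥ 1 - kδ`
(here the full load `= 1` of `v` is used).
(2) `E L^2 = ∑_{e,e' ∋ v} w e w e' exp(γ(|S e|-1) + γ(|S e'|-1)) ∏_{f ∈ I_v(e) ∪ I_v(e')} (1 - γ w f)`.
Pairs with `S e ∩ S e' = {v}`: let `U = (S e ∪ S e') \ {v}`, `|U| = |S e| + |S e'| - 2 ≤ 2k - 2`; `I_v(e) ∪ I_v(e')` is the set of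
`f` with `v ∉ S f` and `S f ∩ U ≠ ∅`; by Bonferroni `∑_{f} w f ≥ ∑_{u ∈ U} (1 - δ) - (|U| choose 2) δ ≥ |U| - 2 k^2 δ`
(full loads `= 1` at `u`, codegree of `u` and `v` is `≤ δ`, codegrees inside `U` are `≤ δ`); with `1 - x ≤ exp(-x)` the product is
`≤ exp(-γ|U| + 2k^2 δ)`, so these pairs contribute `≤ exp(2k^2 δ) ≤ 1 + 4 k^2 δ`.
Other pairs: each is `≤ exp(2k) w e w e'` and `∑ w e w e'` over them is `≤ ∑_e w e ∑_{u ∈ S e \ v} codeg(u,v) ≤ k δ`.
Total `≤ (1 + 8k²δ) + k e^{2k} δ - 2(1 - kδ) + 1`.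
-/

set_option autoImplicit false

namespace Pool.Agent.SEM

open Finset

/-- weighted hypergraph with loads `≤ 1` and codegrees `≤ δ` -/
structure Inst {E V : Type} [Fintype E] [DecidableEq V] (k : ℕ) (δ : ℝ)
    (VS : Finset V) (S : E → Finset V) (w : E → ℝ) : Prop where
  sub : ∀ e, S e ⊆ VS
  ne : ∀ e, (S e).Nonempty
  card : ∀ e, (S e).card ≤ k
  nn : ∀ e, 0 ≤ w e
  le : ∀ e, w e ≤ δ
  load : ∀ v ∈ VS, ∑ e with v ∈ S e, w e ≤ 1
  cod : ∀ u ∈ VS, ∀ v ∈ VS, u ≠ v → ∑ e with (u ∈ S e ∧ v ∈ S e), w e ≤ δ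

open Classical in
/-- the new load of `v` -/
noncomputable def LL {E V : Type} [Fintype E] [DecidableEq V]
    (S : E → Finset V) (w : E → ℝ) (γ : ℝ) (v : V) (A : Finset E) : ℝ :=
  ∑ e with v ∈ S e, w e * Real.exp (γ * (((S e).card : ℝ) - 1)) *
    (if ∀ f ∈ A, v ∉ S f → Disjoint (S f) (S e) then 1 else 0)

theorem sum_biUnion_le_h28 {ι α : Type*} [DecidableEq α] (s : Finset ι) (t : ι → Finset α)
    (w : α → ℝ) (hw : ∀ a, 0 ≤ w a) :
    ∑ f ∈ s.biUnion t, w f ≤ ∑ u ∈ s, ∑ f ∈ t u, w f := by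
  classical
  induction s using Finset.induction_on with
  | empty => simp
  | insert a s ha ih =>
    rw [biUnion_insert, sum_insert ha]
    have h1 := sum_union_inter (s₁ := t a) (s₂ := s.biUnion t) (f := w)
    have h2 : 0 ≤ ∑ f ∈ t a ∩ s.biUnion t, w f := sum_nonneg fun f _ => hw f
    linarith

theorem h28_exp_le (x : ℝ) (h0 : 0 ≤ x) (h1 : x ≤ 1) : Real.exp x ≤ 1 + 2 * x := by
  have h2 := Real.abs_exp_sub_one_sub_id_le (x := x) (by rw [abs_of_nonneg h0]; exact h1)
  have h3 := (abs_le.mp h2).2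
  nlinarith

section H28

variable {E V : Type} [Fintype E] [DecidableEq E] [DecidableEq V]

/-- edges meeting `S e` but not containing `v` -/
def h28I (S : E → Finset V) (v : V) (e : E) : Finset E :=
  univ.filter fun f => v ∉ S f ∧ ¬ Disjoint (S f) (S e)

theorem h28_ber_congr {E : Type} [Fintype E] [DecidableEq E] (p : E → ℝ) {F G : Finset E → ℝ}
    (h : ∀ A, F A = G A) : Ber p F = Ber p G := by
  have : F = G := funext h
  rw [this]

open Classical in
theorem h28_ber_disj (p : E → ℝ) (C : Finset E) :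
    Ber p (fun A => if Disjoint A C then 1 else 0) = ∏ e ∈ C, (1 - p e) := by
  have h := ber_disj_mem p ∅ C (by simp)
  rw [prod_empty, one_mul] at h
  rw [← h]
  apply h28_ber_congr
  intro A
  by_cases h1 : Disjoint A C
  · rw [if_pos h1, if_pos ⟨empty_subset _, h1⟩]
  · rw [if_neg h1, if_neg (fun h2 => h1 h2.2)]

theorem h28_ind_iff (S : E → Finset V) (v : V) (e : E) (A : Finset E) :
    (∀ f ∈ A, v ∉ S f → Disjoint (S f) (S e)) ↔ Disjoint A (h28I S v e) := by
  rw [Finset.disjoint_left]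
  constructor
  · intro h f hf hf2
    rw [h28I, mem_filter] at hf2
    exact hf2.2.2 (h f hf hf2.2.1)
  · intro h f hf hv
    by_contra h2
    apply h hf
    rw [h28I, mem_filter]
    exact ⟨mem_univ _, hv, h2⟩

open Classical in
theorem h28_LL_eq (S : E → Finset V) (w : E → ℝ) (γ : ℝ) (v : V) (A : Finset E) :
    LL S w γ v A = ∑ e with v ∈ S e, (w e * Real.exp (γ * (((S e).card : ℝ) - 1))) *
      (if Disjoint A (h28I S v e) then 1 else 0) := by
  unfold LL
  refine sum_congr rfl fun e _ => ?_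
  congr 1
  by_cases h : Disjoint A (h28I S v e)
  · rw [if_pos h, if_pos ((h28_ind_iff S v e A).mpr h)]
  · rw [if_neg h, if_neg (fun h2 => h ((h28_ind_iff S v e A).mp h2))]

theorem h28_ber_LL (S : E → Finset V) (w : E → ℝ) (γ : ℝ) (v : V) (p : E → ℝ) :
    Ber p (fun A => LL S w γ v A) = ∑ e with v ∈ S e,
      (w e * Real.exp (γ * (((S e).card : ℝ) - 1))) * ∏ f ∈ h28I S v e, (1 - p f) := by
  classical
  rw [h28_ber_congr p (fun A => h28_LL_eq S w γ v A)]
  rw [ber_sum p (univ.filter fun e => v ∈ S e) (fun e A =>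
    (w e * Real.exp (γ * (((S e).card : ℝ) - 1))) * (if Disjoint A (h28I S v e) then 1 else 0))]
  refine sum_congr rfl fun e _ => ?_
  rw [ber_mul p, h28_ber_disj]

theorem h28_ber_LL2 (S : E → Finset V) (w : E → ℝ) (γ : ℝ) (v : V) (p : E → ℝ) :
    Ber p (fun A => LL S w γ v A * LL S w γ v A) = ∑ e with v ∈ S e, ∑ e' with v ∈ S e',
      ((w e * Real.exp (γ * (((S e).card : ℝ) - 1))) *
        (w e' * Real.exp (γ * (((S e').card : ℝ) - 1)))) *
        ∏ f ∈ h28I S v e ∪ h28I S v e', (1 - p f) := by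
  classical
  have h1 : ∀ A, LL S w γ v A * LL S w γ v A = ∑ e with v ∈ S e, ∑ e' with v ∈ S e',
      ((w e * Real.exp (γ * (((S e).card : ℝ) - 1))) *
        (w e' * Real.exp (γ * (((S e').card : ℝ) - 1)))) *
        (if Disjoint A (h28I S v e ∪ h28I S v e') then 1 else 0) := by
    intro A
    rw [h28_LL_eq, sum_mul_sum]
    refine sum_congr rfl fun e _ => sum_congr rfl fun e' _ => ?_
    by_cases h2 : Disjoint A (h28I S v e)
    · by_cases h3 : Disjoint A (h28I S v e')
      · rw [if_pos h2, if_pos h3, if_pos (disjoint_union_right.mpr ⟨h2, h3⟩)]; ring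
      · rw [if_neg h3, if_neg (fun h4 => h3 (disjoint_union_right.mp h4).2)]; ring
    · rw [if_neg h2, if_neg (fun h4 => h2 (disjoint_union_right.mp h4).1)]; ring
  rw [h28_ber_congr p h1]
  rw [ber_sum p (univ.filter fun e => v ∈ S e) (fun e A => ∑ e' with v ∈ S e',
      ((w e * Real.exp (γ * (((S e).card : ℝ) - 1))) *
        (w e' * Real.exp (γ * (((S e').card : ℝ) - 1)))) *
        (if Disjoint A (h28I S v e ∪ h28I S v e') then 1 else 0))]
  refine sum_congr rfl fun e _ => ?_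
  rw [ber_sum p (univ.filter fun e => v ∈ S e) (fun e' A =>
      ((w e * Real.exp (γ * (((S e).card : ℝ) - 1))) *
        (w e' * Real.exp (γ * (((S e').card : ℝ) - 1)))) *
        (if Disjoint A (h28I S v e ∪ h28I S v e') then 1 else 0))]
  refine sum_congr rfl fun e' _ => ?_
  rw [ber_mul p, h28_ber_disj]

/-- `1 - x ≥ exp (-x - x^2)` for `0 ≤ x ≤ 1/2` -/
theorem h28_one_sub (x : ℝ) (h0 : 0 ≤ x) (h1 : x ≤ 1 / 2) : Real.exp (-(x + x ^ 2)) ≤ 1 - x := by
  -- exp(x + x^2) ≥ 1 + x + x^2 + ..., (1-x)(1+x+x^2) = 1 - x^3; use exp y ≥ 1 + y + y^2/2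
  have hpos : 0 < 1 - x := by linarith
  rw [Real.exp_neg, inv_le_comm₀ (Real.exp_pos _) hpos]
  have h2 : 1 + (x + x ^ 2) + (x + x ^ 2) ^ 2 / 2 ≤ Real.exp (x + x ^ 2) :=
    Real.quadratic_le_exp_of_nonneg (by positivity)
  refine le_trans ?_ h2
  rw [inv_le_iff_one_le_mul₀ hpos]
  nlinarith [mul_nonneg h0 h0, mul_nonneg (mul_nonneg h0 h0) h0, mul_nonneg (mul_nonneg h0 h0) (sub_nonneg.mpr h1), mul_nonneg (mul_nonneg (mul_nonneg h0 h0) h0) (sub_nonneg.mpr h1), mul_nonneg (mul_nonneg (mul_nonneg (mul_nonneg h0 h0) h0) h0) (sub_nonneg.mpr h1)]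

variable {k : ℕ} {δ γ : ℝ} {VS : Finset V} {S : E → Finset V} {w : E → ℝ}

theorem h28_sumI_le (hI : Inst k δ VS S w) {v : V} {e : E} (he : v ∈ S e) :
    ∑ f ∈ h28I S v e, w f ≤ ((S e).card : ℝ) - 1 := by
  have h1 : h28I S v e ⊆ ((S e).erase v).biUnion fun u => univ.filter fun f => u ∈ S f := by
    intro f hf
    rw [h28I, mem_filter] at hf
    obtain ⟨_, hv, hd⟩ := hf
    rw [Finset.not_disjoint_iff] at hd
    obtain ⟨u, hu1, hu2⟩ := hd
    rw [mem_biUnion]
    refine ⟨u, ?_, ?_⟩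
    · rw [mem_erase]; exact ⟨fun h => hv (h ▸ hu1), hu2⟩
    · rw [mem_filter]; exact ⟨mem_univ _, hu1⟩
  calc ∑ f ∈ h28I S v e, w f
      ≤ ∑ f ∈ ((S e).erase v).biUnion (fun u => univ.filter fun f => u ∈ S f), w f :=
        sum_le_sum_of_subset_of_nonneg h1 (fun f _ _ => hI.nn f)
    _ ≤ ∑ u ∈ (S e).erase v, ∑ f with u ∈ S f, w f := by
        apply sum_biUnion_le_h28
        exact fun f => hI.nn f
    _ ≤ ∑ u ∈ (S e).erase v, 1 := by
        refine sum_le_sum fun u hu => hI.load u (hI.sub e (mem_of_mem_erase hu))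
    _ = ((S e).card : ℝ) - 1 := by
        rw [sum_const, card_erase_of_mem he, nsmul_eq_mul, mul_one]
        have : 1 ≤ (S e).card := card_pos.mpr ⟨v, he⟩
        push_cast [Nat.cast_sub this]; ring

end H28

section H28b

variable {E V : Type} [Fintype E] [DecidableEq E] [DecidableEq V]
variable {k : ℕ} {δ γ : ℝ} {VS : Finset V} {S : E → Finset V} {w : E → ℝ}

/-- product lower bound -/
theorem h28_prod_lower (hI : Inst k δ VS S w) (hγ : 0 < γ) (hγ1 : γ ≤ 1) (hδ0 : 0 ≤ δ)
    (hδ2 : δ ≤ 1 / 2) {v : V} {e : E} (he : v ∈ S e) :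
    Real.exp (-(k * δ)) ≤ Real.exp (γ * (((S e).card : ℝ) - 1)) *
      ∏ f ∈ h28I S v e, (1 - γ * w f) := by
  have h1 : ∏ f ∈ h28I S v e, Real.exp (-(γ * w f + (γ * w f) ^ 2)) ≤
      ∏ f ∈ h28I S v e, (1 - γ * w f) := by
    refine prod_le_prod (fun f _ => (Real.exp_pos _).le) fun f _ => ?_
    apply h28_one_sub
    · exact mul_nonneg hγ.le (hI.nn f)
    · have := hI.le f
      have h2 : γ * w f ≤ 1 * w f := mul_le_mul_of_nonneg_right hγ1 (hI.nn f)
      linarith
  rw [← Real.exp_sum] at h1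
  have h3 := h28_sumI_le hI he
  have hcard : ((S e).card : ℝ) ≤ k := by exact_mod_cast hI.card e
  have h4 : ∑ f ∈ h28I S v e, (γ * w f) ^ 2 ≤ k * δ := by
    calc ∑ f ∈ h28I S v e, (γ * w f) ^ 2 ≤ ∑ f ∈ h28I S v e, δ * w f := by
          refine sum_le_sum fun f _ => ?_
          have h5 := hI.nn f
          have h6 := hI.le f
          have h7 : γ ^ 2 ≤ 1 := by nlinarith
          have h8 : w f * w f ≤ δ * w f := mul_le_mul_of_nonneg_right h6 h5
          calc (γ * w f) ^ 2 = γ ^ 2 * (w f * w f) := by ring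
            _ ≤ 1 * (w f * w f) := mul_le_mul_of_nonneg_right h7 (mul_nonneg h5 h5)
            _ ≤ δ * w f := by linarith
      _ = δ * ∑ f ∈ h28I S v e, w f := by rw [mul_sum]
      _ ≤ δ * k := by
          apply mul_le_mul_of_nonneg_left _ hδ0
          linarith
      _ = k * δ := by ring
  have h5 : ∑ f ∈ h28I S v e, γ * w f ≤ γ * (((S e).card : ℝ) - 1) := by
    rw [← mul_sum]
    exact mul_le_mul_of_nonneg_left h3 hγ.le
  calc Real.exp (-(k * δ)) ≤ Real.exp (γ * (((S e).card : ℝ) - 1) +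
        ∑ f ∈ h28I S v e, -(γ * w f + (γ * w f) ^ 2)) := by
        apply Real.exp_le_exp.mpr
        rw [sum_neg_distrib, sum_add_distrib]
        linarith
    _ = Real.exp (γ * (((S e).card : ℝ) - 1)) *
        Real.exp (∑ f ∈ h28I S v e, -(γ * w f + (γ * w f) ^ 2)) := Real.exp_add _ _
    _ ≤ _ := mul_le_mul_of_nonneg_left h1 (Real.exp_pos _).le

/-- the union of the two interaction sets has large weight if `S e ∩ S e' = {v}` -/
theorem h28_union_lower (hI : Inst k δ VS S w)
    (hfull : ∀ v ∈ VS, ∑ e with v ∈ S e, w e = 1) (hδ0 : 0 ≤ δ) {v : V} (hv : v ∈ VS) {e e' : E}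
    (he : v ∈ S e) (he' : v ∈ S e') (hd : (S e).erase v ∩ (S e').erase v = ∅) :
    ((S e).card : ℝ) - 1 + (((S e').card : ℝ) - 1) - 2 * (k : ℝ) ^ 2 * δ ≤
      ∑ f ∈ h28I S v e ∪ h28I S v e', w f := by
  set U := (S e).erase v ∪ (S e').erase v with hU
  have hUcard : U.card = ((S e).card - 1) + ((S e').card - 1) := by
    rw [hU, card_union_of_disjoint (disjoint_iff_inter_eq_empty.mpr hd), card_erase_of_mem he,
      card_erase_of_mem he']
  have hc1 : 1 ≤ (S e).card := card_pos.mpr ⟨v, he⟩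
  have hc2 : 1 ≤ (S e').card := card_pos.mpr ⟨v, he'⟩
  have hUr : (U.card : ℝ) = ((S e).card : ℝ) - 1 + (((S e').card : ℝ) - 1) := by
    rw [hUcard]; push_cast [Nat.cast_sub hc1, Nat.cast_sub hc2]; ring
  have hUVS : ∀ u ∈ U, u ∈ VS := by
    intro u hu
    rw [hU, mem_union] at hu
    rcases hu with h | h
    · exact hI.sub e (mem_of_mem_erase h)
    · exact hI.sub e' (mem_of_mem_erase h)
  have hUv : ∀ u ∈ U, u ≠ v := by
    intro u hu
    rw [hU, mem_union] at hu
    rcases hu with h | h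
    · exact ne_of_mem_erase h
    · exact ne_of_mem_erase h
  -- the interaction set
  have hmem : ∀ f, f ∈ h28I S v e ∪ h28I S v e' ↔ v ∉ S f ∧ (S f ∩ U).Nonempty := by
    intro f
    rw [mem_union, h28I, h28I, mem_filter, mem_filter]
    constructor
    · rintro (⟨_, h1, h2⟩ | ⟨_, h1, h2⟩)
      · refine ⟨h1, ?_⟩
        rw [Finset.not_disjoint_iff] at h2
        obtain ⟨u, hu1, hu2⟩ := h2
        exact ⟨u, mem_inter.mpr ⟨hu1, mem_union_left _ (mem_erase.mpr ⟨fun h => h1 (h ▸ hu1), hu2⟩)⟩⟩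
      · refine ⟨h1, ?_⟩
        rw [Finset.not_disjoint_iff] at h2
        obtain ⟨u, hu1, hu2⟩ := h2
        exact ⟨u, mem_inter.mpr ⟨hu1, mem_union_right _ (mem_erase.mpr ⟨fun h => h1 (h ▸ hu1), hu2⟩)⟩⟩
    · rintro ⟨h1, u, hu⟩
      rw [mem_inter, hU, mem_union] at hu
      obtain ⟨hu1, hu2 | hu2⟩ := hu
      · left
        exact ⟨mem_univ _, h1, Finset.not_disjoint_iff.mpr ⟨u, hu1, mem_of_mem_erase hu2⟩⟩
      · right
        exact ⟨mem_univ _, h1, Finset.not_disjoint_iff.mpr ⟨u, hu1, mem_of_mem_erase hu2⟩⟩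
  have hset : h28I S v e ∪ h28I S v e' = univ.filter fun f => v ∉ S f ∧ (S f ∩ U).Nonempty := by
    ext f; rw [hmem, mem_filter]; simp
  -- pointwise Bonferroni: for every edge f with v ∉ S f
  -- 1 ≥ c - (number of ordered pairs)/2
  have hbon : ∑ f with v ∉ S f, w f * (((S f ∩ U).card : ℝ) -
      (((S f ∩ U).offDiag.card : ℝ)) / 2) ≤ ∑ f ∈ h28I S v e ∪ h28I S v e', w f := by
    rw [hset]
    rw [← Finset.filter_filter, sum_filter (fun f => (S f ∩ U).Nonempty)]
    refine sum_le_sum fun f _ => ?_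
    rw [offDiag_card]
    have hwf := hI.nn f
    by_cases hne : (S f ∩ U).Nonempty
    · rw [if_pos hne]
      have h1 : 1 ≤ (S f ∩ U).card := card_pos.mpr hne
      have h2 : (((S f ∩ U).card * (S f ∩ U).card - (S f ∩ U).card : ℕ) : ℝ) =
          ((S f ∩ U).card : ℝ) * (S f ∩ U).card - (S f ∩ U).card := by
        rw [Nat.cast_sub (Nat.le_mul_of_pos_left _ h1)]; push_cast; ring
      rw [h2]
      have h3 : (((S f ∩ U).card : ℝ) - (((S f ∩ U).card : ℝ) * (S f ∩ U).card - (S f ∩ U).card) / 2) ≤ 1 := by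
        have h4 : (1 : ℝ) ≤ (S f ∩ U).card := by exact_mod_cast h1
        rcases Nat.lt_or_ge (S f ∩ U).card 2 with h5 | h5
        · have : (S f ∩ U).card = 1 := by omega
          rw [this]; norm_num
        · have h6 : (2 : ℝ) ≤ (S f ∩ U).card := by exact_mod_cast h5
          nlinarith
      calc w f * _ ≤ w f * 1 := mul_le_mul_of_nonneg_left h3 hwf
        _ = w f := mul_one _
    · rw [if_neg hne]
      rw [not_nonempty_iff_eq_empty] at hne
      rw [hne]; simp
  -- first moment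
  have hfirst : (U.card : ℝ) * (1 - δ) ≤ ∑ f with v ∉ S f, w f * ((S f ∩ U).card : ℝ) := by
    have h1 : ∑ f with v ∉ S f, w f * ((S f ∩ U).card : ℝ) =
        ∑ u ∈ U, ∑ f with (v ∉ S f ∧ u ∈ S f), w f := by
      have h2 : ∀ f, w f * ((S f ∩ U).card : ℝ) = ∑ u ∈ U, if u ∈ S f then w f else 0 := by
        intro f
        rw [← sum_filter, sum_const, nsmul_eq_mul, mul_comm]
        congr 2
        congr 1
        ext u; simp [and_comm]
      rw [sum_congr rfl (fun f _ => h2 f), sum_comm]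
      refine sum_congr rfl fun u _ => ?_
      rw [← sum_filter, filter_filter]
    rw [h1]
    have h3 : (U.card : ℝ) * (1 - δ) = ∑ u ∈ U, (1 - δ) := by
      rw [sum_const, nsmul_eq_mul]
    rw [h3]
    refine sum_le_sum fun u hu => ?_
    have h4 := hfull u (hUVS u hu)
    have h5 := hI.cod u (hUVS u hu) v hv (hUv u hu)
    have h6 : ∑ f with u ∈ S f, w f = ∑ f with (v ∉ S f ∧ u ∈ S f), w f +
        ∑ f with (u ∈ S f ∧ v ∈ S f), w f := by
      rw [← sum_filter_add_sum_filter_not (univ.filter fun f => u ∈ S f) (fun f => v ∈ S f),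
        filter_filter, filter_filter, add_comm]
      congr 1
      refine sum_congr ?_ fun _ _ => rfl
      ext f; simp [and_comm]
    linarith
  -- second moment
  have hsecond : ∑ f with v ∉ S f, w f * ((S f ∩ U).offDiag.card : ℝ) ≤
      (U.card : ℝ) * (U.card - 1) * δ := by
    have h1 : ∑ f with v ∉ S f, w f * ((S f ∩ U).offDiag.card : ℝ) ≤
        ∑ f, w f * ((S f ∩ U).offDiag.card : ℝ) :=
      sum_le_sum_of_subset_of_nonneg (filter_subset _ _)
        (fun f _ _ => mul_nonneg (hI.nn f) (Nat.cast_nonneg _))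
    refine h1.trans ?_
    have h2 : ∀ f, w f * ((S f ∩ U).offDiag.card : ℝ) =
        ∑ q ∈ U.offDiag, if q.1 ∈ S f ∧ q.2 ∈ S f then w f else 0 := by
      intro f
      rw [← sum_filter, sum_const, nsmul_eq_mul, mul_comm]
      congr 2
      congr 1
      ext q; simp only [mem_offDiag, mem_inter, mem_filter]; tauto
    rw [sum_congr rfl (fun f _ => h2 f), sum_comm]
    calc ∑ q ∈ U.offDiag, ∑ f, (if q.1 ∈ S f ∧ q.2 ∈ S f then w f else 0)
        ≤ ∑ q ∈ U.offDiag, δ := by
          refine sum_le_sum fun q hq => ?_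
          rw [mem_offDiag] at hq
          rw [← sum_filter]
          exact hI.cod q.1 (hUVS _ hq.1) q.2 (hUVS _ hq.2.1) hq.2.2
      _ = (U.card : ℝ) * (U.card - 1) * δ := by
          rw [sum_const, nsmul_eq_mul, offDiag_card]
          rcases Nat.eq_zero_or_pos U.card with h0 | h0
          · rw [h0]; simp
          · rw [Nat.cast_sub (Nat.le_mul_of_pos_left _ h0)]; push_cast; ring
  have hcomb : ∑ f with v ∉ S f, w f * (((S f ∩ U).card : ℝ) -
      (((S f ∩ U).offDiag.card : ℝ)) / 2) =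
      ∑ f with v ∉ S f, w f * ((S f ∩ U).card : ℝ) -
      (∑ f with v ∉ S f, w f * ((S f ∩ U).offDiag.card : ℝ)) / 2 := by
    rw [sum_div, ← sum_sub_distrib]
    refine sum_congr rfl fun f _ => ?_
    ring
  rw [hcomb] at hbon
  have hk1 : ((S e).card : ℝ) ≤ k := by exact_mod_cast hI.card e
  have hk2 : ((S e').card : ℝ) ≤ k := by exact_mod_cast hI.card e'
  have hU2 : (U.card : ℝ) ≤ 2 * k - 2 := by rw [hUr]; linarith
  have hU0 : (0 : ℝ) ≤ U.card := Nat.cast_nonneg _
  have hk0 : (1 : ℝ) ≤ k := by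
    have : (1 : ℝ) ≤ (S e).card := by exact_mod_cast hc1
    linarith
  have hfin : (U.card : ℝ) * δ + (U.card : ℝ) * (U.card - 1) * δ / 2 ≤ 2 * (k : ℝ) ^ 2 * δ := by
    have h1 : (U.card : ℝ) + (U.card : ℝ) * (U.card - 1) / 2 ≤ 2 * (k : ℝ) ^ 2 := by
      nlinarith [mul_nonneg hU0 hU0]
    have h2 := mul_le_mul_of_nonneg_right h1 hδ0
    nlinarith [h2]
  rw [← hUr]
  nlinarith [hbon, hfirst, hsecond, hfin]

end H28b

theorem nb_second {E V : Type} [Fintype E] [DecidableEq E] [DecidableEq V] {k : ℕ} {δ γ : ℝ}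
    {VS : Finset V} {S : E → Finset V} {w : E → ℝ} (hI : Inst k δ VS S w)
    (hfull : ∀ v ∈ VS, ∑ e with v ∈ S e, w e = 1) (hγ : 0 < γ) (hγ1 : γ ≤ 1)
    (hδ0 : 0 ≤ δ) (hδ : 4 * (k : ℝ) ^ 2 * δ ≤ 1) (hδ2 : δ ≤ 1 / 2) {v : V} (hv : v ∈ VS) :
    Ber (fun e => γ * w e) (fun A => (LL S w γ v A - 1) ^ 2) ≤
      (8 * (k : ℝ) ^ 2 + k * Real.exp (2 * k) + 2 * k) * δ := by
  classical
  set p : E → ℝ := fun e => γ * w e with hp
  have hk0 : (1 : ℝ) ≤ k := by
    -- there is an edge through `v`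
    have h1 := hfull v hv
    have h2 : (univ.filter fun e => v ∈ S e).Nonempty := by
      by_contra h3
      rw [not_nonempty_iff_eq_empty] at h3
      rw [h3] at h1; simp at h1
    obtain ⟨e, he⟩ := h2
    rw [mem_filter] at he
    have h4 : 1 ≤ (S e).card := card_pos.mpr ⟨v, he.2⟩
    have h5 := hI.card e
    exact_mod_cast h4.trans h5
  have hp01 : ∀ f, 0 ≤ 1 - γ * w f ∧ 1 - γ * w f ≤ 1 := by
    intro f
    have h1 := hI.nn f
    have h2 := hI.le f
    have h3 : γ * w f ≤ 1 * w f := mul_le_mul_of_nonneg_right hγ1 h1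
    have h4 : 0 ≤ γ * w f := mul_nonneg hγ.le h1
    constructor <;> linarith
  -- expansion of the square
  have hexp : Ber p (fun A => (LL S w γ v A - 1) ^ 2) =
      Ber p (fun A => LL S w γ v A * LL S w γ v A) - 2 * Ber p (fun A => LL S w γ v A) + 1 := by
    have h1 : ∀ A, (LL S w γ v A - 1) ^ 2 =
        (LL S w γ v A * LL S w γ v A + (-2) * LL S w γ v A) + 1 := by intro A; ring
    rw [h28_ber_congr p h1, ber_add p (fun A => LL S w γ v A * LL S w γ v A + (-2) * LL S w γ v A)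
      (fun _ => 1), ber_add p (fun A => LL S w γ v A * LL S w γ v A)
      (fun A => (-2) * LL S w γ v A), ber_mul p (-2) (fun A => LL S w γ v A), ber_one]
    ring
  rw [hexp]
  -- first moment
  have hfirst : 1 - k * δ ≤ Ber p (fun A => LL S w γ v A) := by
    rw [h28_ber_LL]
    have h1 : Real.exp (-(k * δ)) ≤ ∑ e with v ∈ S e,
        (w e * Real.exp (γ * (((S e).card : ℝ) - 1))) * ∏ f ∈ h28I S v e, (1 - p f) := by
      calc Real.exp (-(k * δ)) = ∑ e with v ∈ S e, w e * Real.exp (-(k * δ)) := by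
            rw [← sum_mul, hfull v hv, one_mul]
        _ ≤ _ := by
            refine sum_le_sum fun e he => ?_
            rw [mem_filter] at he
            rw [mul_assoc]
            exact mul_le_mul_of_nonneg_left
              (h28_prod_lower hI hγ hγ1 hδ0 hδ2 he.2) (hI.nn e)
    have h2 := Real.add_one_le_exp (-(k * δ))
    linarith
  -- second moment
  have hsec : Ber p (fun A => LL S w γ v A * LL S w γ v A) ≤
      1 + 4 * (k : ℝ) ^ 2 * δ + k * Real.exp (2 * k) * δ := by
    rw [h28_ber_LL2]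
    have hkey : ∀ e ∈ univ.filter (fun e => v ∈ S e), ∀ e' ∈ univ.filter (fun e' => v ∈ S e'),
        ((w e * Real.exp (γ * (((S e).card : ℝ) - 1))) *
        (w e' * Real.exp (γ * (((S e').card : ℝ) - 1)))) *
        ∏ f ∈ h28I S v e ∪ h28I S v e', (1 - p f) ≤
        w e * w e' * (1 + 4 * (k : ℝ) ^ 2 * δ) +
        w e * ((if (S e).erase v ∩ (S e').erase v = ∅ then 0 else w e') * Real.exp (2 * k)) := by
      intro e he e' he'
      rw [mem_filter] at he he'
      have hwe := hI.nn e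
      have hwe' := hI.nn e'
      have hprod0 : 0 ≤ ∏ f ∈ h28I S v e ∪ h28I S v e', (1 - p f) :=
        prod_nonneg fun f _ => (hp01 f).1
      have hprod1 : ∏ f ∈ h28I S v e ∪ h28I S v e', (1 - p f) ≤ 1 :=
        prod_le_one (fun f _ => (hp01 f).1) (fun f _ => (hp01 f).2)
      have hc : ((S e).card : ℝ) ≤ k := by exact_mod_cast hI.card e
      have hc' : ((S e').card : ℝ) ≤ k := by exact_mod_cast hI.card e'
      have h4kδ : 0 ≤ 4 * (k : ℝ) ^ 2 * δ := by positivity
      by_cases hd : (S e).erase v ∩ (S e').erase v = ∅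
      · rw [if_pos hd]
        have h1 := h28_union_lower hI hfull hδ0 hv he.2 he'.2 hd
        have h2 : ∏ f ∈ h28I S v e ∪ h28I S v e', (1 - p f) ≤
            Real.exp (-(γ * ∑ f ∈ h28I S v e ∪ h28I S v e', w f)) := by
          rw [mul_sum, ← sum_neg_distrib, Real.exp_sum]
          refine prod_le_prod (fun f _ => (hp01 f).1) fun f _ => ?_
          have := Real.add_one_le_exp (-(γ * w f))
          rw [hp]; linarith
        have h3 : Real.exp (γ * (((S e).card : ℝ) - 1)) * Real.exp (γ * (((S e').card : ℝ) - 1)) *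
            ∏ f ∈ h28I S v e ∪ h28I S v e', (1 - p f) ≤ 1 + 4 * (k : ℝ) ^ 2 * δ := by
          calc Real.exp (γ * (((S e).card : ℝ) - 1)) * Real.exp (γ * (((S e').card : ℝ) - 1)) *
              ∏ f ∈ h28I S v e ∪ h28I S v e', (1 - p f)
              ≤ Real.exp (γ * (((S e).card : ℝ) - 1)) * Real.exp (γ * (((S e').card : ℝ) - 1)) *
                Real.exp (-(γ * ∑ f ∈ h28I S v e ∪ h28I S v e', w f)) :=
                mul_le_mul_of_nonneg_left h2 (by positivity)
            _ = Real.exp (γ * ((((S e).card : ℝ) - 1) + (((S e').card : ℝ) - 1) -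
                  ∑ f ∈ h28I S v e ∪ h28I S v e', w f)) := by
                rw [← Real.exp_add, ← Real.exp_add]; congr 1; ring
            _ ≤ Real.exp (2 * (k : ℝ) ^ 2 * δ) := by
                apply Real.exp_le_exp.mpr
                have h5 : (((S e).card : ℝ) - 1) + (((S e').card : ℝ) - 1) -
                  ∑ f ∈ h28I S v e ∪ h28I S v e', w f ≤ 2 * (k : ℝ) ^ 2 * δ := by linarith
                have h6 : 0 ≤ 2 * (k : ℝ) ^ 2 * δ := by positivity
                calc γ * _ ≤ γ * (2 * (k : ℝ) ^ 2 * δ) := mul_le_mul_of_nonneg_left h5 hγ.le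
                  _ ≤ 1 * (2 * (k : ℝ) ^ 2 * δ) := mul_le_mul_of_nonneg_right hγ1 h6
                  _ = _ := one_mul _
            _ ≤ 1 + 4 * (k : ℝ) ^ 2 * δ := by
                have h6 : 0 ≤ 2 * (k : ℝ) ^ 2 * δ := by positivity
                have h7 : 2 * (k : ℝ) ^ 2 * δ ≤ 1 := by linarith
                have h8 := h28_exp_le (2 * (k : ℝ) ^ 2 * δ) h6 h7
                linarith
        have h9 := mul_le_mul_of_nonneg_left h3 (mul_nonneg hwe hwe')
        calc _ = w e * w e' * (Real.exp (γ * (((S e).card : ℝ) - 1)) *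
              Real.exp (γ * (((S e').card : ℝ) - 1)) *
              ∏ f ∈ h28I S v e ∪ h28I S v e', (1 - p f)) := by ring
          _ ≤ _ := by linarith
      · rw [if_neg hd]
        have h3 : Real.exp (γ * (((S e).card : ℝ) - 1)) * Real.exp (γ * (((S e').card : ℝ) - 1)) *
            ∏ f ∈ h28I S v e ∪ h28I S v e', (1 - p f) ≤ Real.exp (2 * k) := by
          calc _ ≤ Real.exp (γ * (((S e).card : ℝ) - 1)) *
                Real.exp (γ * (((S e').card : ℝ) - 1)) * 1 :=
                mul_le_mul_of_nonneg_left hprod1 (by positivity)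
            _ = Real.exp (γ * ((((S e).card : ℝ) - 1) + (((S e').card : ℝ) - 1))) := by
                rw [mul_one, ← Real.exp_add]; congr 1; ring
            _ ≤ Real.exp (2 * k) := by
                apply Real.exp_le_exp.mpr
                calc γ * ((((S e).card : ℝ) - 1) + (((S e').card : ℝ) - 1))
                    ≤ γ * (2 * k) := mul_le_mul_of_nonneg_left (by linarith) hγ.le
                  _ ≤ 1 * (2 * k) := mul_le_mul_of_nonneg_right hγ1 (by linarith)
                  _ = _ := one_mul _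
        have h9 := mul_le_mul_of_nonneg_left h3 (mul_nonneg hwe hwe')
        have h10 : 0 ≤ w e * w e' * (1 + 4 * (k : ℝ) ^ 2 * δ) := by positivity
        calc _ = w e * w e' * (Real.exp (γ * (((S e).card : ℝ) - 1)) *
              Real.exp (γ * (((S e').card : ℝ) - 1)) *
              ∏ f ∈ h28I S v e ∪ h28I S v e', (1 - p f)) := by ring
          _ ≤ w e * w e' * Real.exp (2 * k) := h9
          _ ≤ _ := by linarith
    calc ∑ e with v ∈ S e, ∑ e' with v ∈ S e', _
        ≤ ∑ e with v ∈ S e, ∑ e' with v ∈ S e', (w e * w e' * (1 + 4 * (k : ℝ) ^ 2 * δ) +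
        w e * ((if (S e).erase v ∩ (S e').erase v = ∅ then 0 else w e') * Real.exp (2 * k))) :=
          sum_le_sum fun e he => sum_le_sum fun e' he' => hkey e he e' he'
      _ = ∑ e with v ∈ S e, (w e * (1 + 4 * (k : ℝ) ^ 2 * δ) +
        w e * ((∑ e' with v ∈ S e', if (S e).erase v ∩ (S e').erase v = ∅ then 0 else w e') *
          Real.exp (2 * k))) := by
          refine sum_congr rfl fun e _ => ?_
          rw [sum_add_distrib, ← sum_mul, ← mul_sum, hfull v hv, ← mul_sum, ← sum_mul, mul_one]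
      _ ≤ ∑ e with v ∈ S e, (w e * (1 + 4 * (k : ℝ) ^ 2 * δ) +
        w e * ((k * δ) * Real.exp (2 * k))) := by
          refine sum_le_sum fun e he => ?_
          rw [mem_filter] at he
          have hin : (∑ e' with v ∈ S e', if (S e).erase v ∩ (S e').erase v = ∅ then 0 else w e') ≤
              k * δ := by
            calc (∑ e' with v ∈ S e', if (S e).erase v ∩ (S e').erase v = ∅ then 0 else w e')
                ≤ ∑ e' ∈ ((S e).erase v).biUnion (fun u => univ.filter fun e' => u ∈ S e' ∧ v ∈ S e'),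
                  w e' := by
                  rw [sum_congr rfl (fun e' _ => (ite_not _ _ _).symm), ← sum_filter]
                  apply sum_le_sum_of_subset_of_nonneg
                  · intro e' he'
                    rw [mem_filter, mem_filter] at he'
                    obtain ⟨⟨_, h1⟩, h2⟩ := he'
                    rw [← Ne, ← nonempty_iff_ne_empty] at h2
                    obtain ⟨u, hu⟩ := h2
                    rw [mem_inter] at hu
                    rw [mem_biUnion]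
                    exact ⟨u, hu.1, by rw [mem_filter]; exact ⟨mem_univ _, mem_of_mem_erase hu.2, h1⟩⟩
                  · exact fun f _ _ => hI.nn f
              _ ≤ ∑ u ∈ (S e).erase v, ∑ e' with (u ∈ S e' ∧ v ∈ S e'), w e' :=
                  sum_biUnion_le_h28 _ _ _ hI.nn
              _ ≤ ∑ u ∈ (S e).erase v, δ := by
                  refine sum_le_sum fun u hu => ?_
                  exact hI.cod u (hI.sub e (mem_of_mem_erase hu)) v hv (ne_of_mem_erase hu)
              _ ≤ k * δ := by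
                  rw [sum_const, nsmul_eq_mul]
                  apply mul_le_mul_of_nonneg_right _ hδ0
                  have h1 := card_erase_le (s := S e) (a := v)
                  have h2 := hI.card e
                  exact_mod_cast h1.trans h2
          have h2 := mul_le_mul_of_nonneg_right hin (Real.exp_pos (2 * (k : ℝ))).le
          have h3 := mul_le_mul_of_nonneg_left h2 (hI.nn e)
          linarith
      _ = 1 + 4 * (k : ℝ) ^ 2 * δ + k * Real.exp (2 * k) * δ := by
          rw [sum_add_distrib, ← sum_mul, ← sum_mul, hfull v hv]; ring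
  have h4k : 0 ≤ 4 * (k : ℝ) ^ 2 * δ := by positivity
  nlinarith [hfirst, hsec]

end Pool.Agent.SEM
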