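import Pool.Agent.Helper73.SEM.NB1

/-!
# SEM-NB2: one bite

Proof in words.  `A` random, each `e` with probability `γ w e`.
`M(A) = {e ∈ A : S f ∩ S e = ∅ for all f ∈ A, f ≠ e}`, `Surv(A) = {e : S f ∩ S e = ∅ for all f ∈ A}`,
`Good(A) = {v ∈ VS : (1-η) LL v A ≤ 1}`, `E'(A) = {e ∈ Surv(A) : S e ⊆ Good(A)}`,
`w''(e) = (1-η) w e exp(γ(|S e|-1))`.
* `M(A)` is a matching, edges of `E'(A)` are disjoint from those of `M(A)`.
* loads: if some `e ∈ E'(A)` contains `v`, then `v ∈ Good(A)` and every `e ∈ Surv(A)` through `v` is counted in `LL v A`,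
  so `∑_{e ∈ E', v ∈ S e} w'' e ≤ (1-η) LL v A ≤ 1`.
* `E ∑_{M(A)} g ≥ ∑_e γ w e g e ∏_{f ≠ e, S f ∩ S e ≠ ∅} (1 - γ w f) ≥ γ (1 - γ k) ∑ w g`
  (`∏(1-x) ≥ 1 - ∑ x`, `∑_{S f ∩ S e ≠ ∅} w f ≤ k`).
* `P(e ∈ Surv) = ∏_{S f ∩ S e ≠ ∅} (1 - γ w f) ≥ exp(-γ |S e| - γ² δ k)`, so
  `E ∑_{Surv} w'' g ≥ (1-η) exp(-γ - γ² δ k) ∑ w g`.
* `∑_{Surv \ E'} w'' g ≤ ∑_{v ∈ VS} 1[v ∉ Good] ∑_{e ∋ v} w'' e ≤ exp(k) ∑_v 1[v ∉ Good]`, and
  `v ∉ Good → LL v A - 1 > η` (as `1/(1-η) ≥ 1 + η`), so `P(v ∉ Good) ≤ C δ / η²` by `nb_second` (Markov for the square).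
Add up, take an outcome with at least the expected value (`ber_exists`).
-/

set_option autoImplicit false

namespace Pool.Agent.SEM

open Finset

private lemma one_sub_exp {x : ℝ} (h0 : 0 ≤ x) (h1 : x ≤ 1 / 2) : Real.exp (-x - x ^ 2) ≤ 1 - x := by
  have hy : 0 ≤ x + x ^ 2 := by positivity
  have h2 := Real.quadratic_le_exp_of_nonneg hy
  have h3 : Real.exp (-x - x ^ 2) = (Real.exp (x + x ^ 2))⁻¹ := by
    rw [← Real.exp_neg]; congr 1; ring
  rw [h3, inv_le_comm₀ (Real.exp_pos _) (by linarith)]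
  refine le_trans ?_ h2
  rw [inv_le_iff_one_le_mul₀ (by linarith)]
  have h5 : 0 ≤ (1 - x) * (1 + x) ^ 2 / 2 - x := by
    have e1 : x ^ 2 ≤ x / 2 := by nlinarith
    have e2 : x ^ 3 ≤ x / 4 := by nlinarith [mul_nonneg h0 h0]
    nlinarith
  nlinarith [mul_nonneg (sq_nonneg x) h5]

private lemma prod_ge_one_sub {E : Type} (C : Finset E) (x : E → ℝ) (h : ∀ f, 0 ≤ x f ∧ x f ≤ 1) :
    1 - ∑ f ∈ C, x f ≤ ∏ f ∈ C, (1 - x f) := by
  classical
  induction C using Finset.induction_on with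
  | empty => simp
  | insert a s ha ih =>
    rw [sum_insert ha, prod_insert ha]
    have h1 := h a
    have h2 : 0 ≤ ∑ f ∈ s, x f := sum_nonneg fun f _ => (h f).1
    have h3 : (1 - x a) * (1 - ∑ f ∈ s, x f) ≤ (1 - x a) * ∏ f ∈ s, (1 - x f) :=
      mul_le_mul_of_nonneg_left ih (by linarith)
    nlinarith

private lemma prod_ge_exp {E : Type} (C : Finset E) (x : E → ℝ) (h : ∀ f, 0 ≤ x f ∧ x f ≤ 1 / 2) :
    Real.exp (- ∑ f ∈ C, x f - ∑ f ∈ C, x f ^ 2) ≤ ∏ f ∈ C, (1 - x f) := by
  rw [← sum_neg_distrib, ← sum_sub_distrib, Real.exp_sum]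
  exact prod_le_prod (fun f _ => (Real.exp_pos _).le) fun f _ => one_sub_exp (h f).1 (h f).2

/-- the weight of the edges meeting `S e` -/
private lemma weight_meet {E V : Type} [Fintype E] [DecidableEq V] {k : ℕ} {δ : ℝ}
    {VS : Finset V} {S : E → Finset V} {w : E → ℝ} (hI : Inst k δ VS S w) (e : E) (C : Finset E)
    (hC : ∀ f ∈ C, ¬ Disjoint (S f) (S e)) : ∑ f ∈ C, w f ≤ ((S e).card : ℝ) := by
  classical
  calc ∑ f ∈ C, w f ≤ ∑ f ∈ C, ∑ v ∈ S e, (if v ∈ S f then w f else 0) := by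
        refine sum_le_sum fun f hf => ?_
        obtain ⟨v, hv1, hv2⟩ := Finset.not_disjoint_iff.1 (hC f hf)
        have h1 : (if v ∈ S f then w f else 0) ≤ ∑ v ∈ S e, (if v ∈ S f then w f else 0) :=
          single_le_sum (f := fun v => if v ∈ S f then w f else 0)
            (fun u _ => by by_cases hu : u ∈ S f <;> simp [hu, hI.nn f]) hv2
        rw [if_pos hv1] at h1
        exact h1
    _ ≤ ∑ f, ∑ v ∈ S e, (if v ∈ S f then w f else 0) := by
        refine sum_le_sum_of_subset_of_nonneg (subset_univ _) fun f _ _ => sum_nonneg fun u _ => ?_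
        by_cases hu : u ∈ S f <;> simp [hu, hI.nn f]
    _ = ∑ v ∈ S e, ∑ f, (if v ∈ S f then w f else 0) := sum_comm
    _ ≤ ∑ v ∈ S e, (1 : ℝ) := by
        refine sum_le_sum fun v hv => ?_
        rw [← sum_filter]
        exact hI.load v (hI.sub e hv)
    _ = ((S e).card : ℝ) := by simp

open Classical in
private lemma ber_family {E : Type} [Fintype E] [DecidableEq E] (p : E → ℝ) (h : E → ℝ)
    (B C : E → Finset E) (hBC : ∀ e, Disjoint (B e) (C e)) (F : Finset E → ℝ)
    (hF : ∀ A, F A = ∑ e, h e * (if B e ⊆ A ∧ Disjoint A (C e) then 1 else 0)) :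
    Ber p F = ∑ e, h e * ((∏ f ∈ B e, p f) * ∏ f ∈ C e, (1 - p f)) := by
  have e1 : F = fun A => ∑ e ∈ univ, (fun e A => h e * (if B e ⊆ A ∧ Disjoint A (C e) then (1 : ℝ) else 0)) e A :=
    funext hF
  rw [e1, ber_sum]
  refine sum_congr rfl fun e _ => ?_
  rw [ber_mul, ber_disj_mem p (B e) (C e) (hBC e)]

open Classical in
theorem nb_bite {E V : Type} [Fintype E] [DecidableEq E] [DecidableEq V] {k : ℕ} {δ γ η lam : ℝ}
    {VS : Finset V} {S : E → Finset V} {w g : E → ℝ} (hI : Inst k δ VS S w)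
    (hfull : ∀ v ∈ VS, ∑ e with v ∈ S e, w e = 1) (hγ : 0 < γ) (hγ1 : γ ≤ 1)
    (hδ0 : 0 ≤ δ) (hδ : 4 * (k : ℝ) ^ 2 * δ ≤ 1) (hδ2 : δ ≤ 1 / 2)
    (hη : 0 < η) (hη1 : η ≤ 1 / 2) (hl0 : 0 ≤ lam) (hl1 : lam ≤ 1)
    (hg : ∀ e, 0 ≤ g e ∧ g e ≤ 1) :
    ∃ M E' : Finset E,
      (∀ e ∈ M, ∀ f ∈ M, e ≠ f → Disjoint (S e) (S f)) ∧
      (∀ e ∈ M, ∀ f ∈ E', Disjoint (S e) (S f)) ∧
      (∀ v ∈ VS, ∑ e ∈ E' with v ∈ S e,
        (1 - η) * w e * Real.exp (γ * (((S e).card : ℝ) - 1)) ≤ 1) ∧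
      (γ * (1 - γ * k) + lam * (1 - η) * Real.exp (-γ - γ ^ 2 * δ * k)) * ∑ e, w e * g e
        - Real.exp k * ((8 * (k : ℝ) ^ 2 + k * Real.exp (2 * k) + 2 * k) * δ / η ^ 2) * VS.card
        ≤ ∑ e ∈ M, g e + lam * ∑ e ∈ E',
            (1 - η) * w e * Real.exp (γ * (((S e).card : ℝ) - 1)) * g e := by
  have hw : ∀ e, 0 ≤ w e ∧ w e ≤ 1 / 2 := fun e => ⟨hI.nn e, (hI.le e).trans hδ2⟩
  have hq : ∀ e, 0 ≤ γ * w e ∧ γ * w e ≤ 1 / 2 := fun e =>
    ⟨mul_nonneg hγ.le (hw e).1, by nlinarith [(hw e).1, (hw e).2]⟩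
  have hq1 : ∀ e, 0 ≤ γ * w e ∧ γ * w e ≤ 1 := fun e => ⟨(hq e).1, (hq e).2.trans (by norm_num)⟩
  set W : E → ℝ := fun e => (1 - η) * w e * Real.exp (γ * (((S e).card : ℝ) - 1)) with hW
  have hη2 : 0 < 1 - η := by linarith
  have hW0 : ∀ e, 0 ≤ W e := fun e => mul_nonneg (mul_nonneg hη2.le (hw e).1) (Real.exp_pos _).le
  set Mx : Finset E → Finset E := fun A => A.filter fun e => ∀ f ∈ A, f ≠ e → Disjoint (S f) (S e) with hMx
  set Sv : Finset E → Finset E := fun A => univ.filter fun e => ∀ f ∈ A, Disjoint (S f) (S e) with hSv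
  set Ex : Finset E → Finset E := fun A => (Sv A).filter fun e => ∀ v ∈ S e, (1 - η) * LL S w γ v A ≤ 1 with hEx
  set C : ℝ := (8 * (k : ℝ) ^ 2 + k * Real.exp (2 * k) + 2 * k) with hC
  -- the three parts of the expectation
  have hM : (γ * (1 - γ * k)) * ∑ e, w e * g e ≤ Ber (fun e => γ * w e) (fun A => ∑ e ∈ Mx A, g e) := by
    rw [ber_family (fun e => γ * w e) g (fun e => {e}) (fun e => univ.filter fun f => f ≠ e ∧ ¬ Disjoint (S f) (S e))
      (fun e => by simp) (fun A => ∑ e ∈ Mx A, g e) ?_]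
    · rw [mul_sum]
      refine sum_le_sum fun e _ => ?_
      have h1 := prod_ge_one_sub (univ.filter fun f => f ≠ e ∧ ¬ Disjoint (S f) (S e)) (fun f => γ * w f) hq1
      have h2 := weight_meet hI e (univ.filter fun f => f ≠ e ∧ ¬ Disjoint (S f) (S e))
        (fun f hf => (mem_filter.1 hf).2.2)
      have h3 : ((S e).card : ℝ) ≤ k := by exact_mod_cast hI.card e
      rw [← mul_sum] at h1
      have h4 : γ * ∑ f with (f ≠ e ∧ ¬ Disjoint (S f) (S e)), w f ≤ γ * k :=
        mul_le_mul_of_nonneg_left (h2.trans h3) hγ.le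
      rw [prod_singleton]
      have h5 : 0 ≤ g e * (γ * w e) := mul_nonneg (hg e).1 (hq e).1
      have h6 : 1 - γ * k ≤ ∏ f with (f ≠ e ∧ ¬ Disjoint (S f) (S e)), (1 - γ * w f) := by linarith
      have h7 := mul_le_mul_of_nonneg_left h6 h5
      linarith
    · intro A
      rw [← sum_filter_add_sum_filter_not univ (fun e => e ∈ Mx A)]
      have z1 : ∑ e with e ∉ Mx A, g e * (if ({e} : Finset E) ⊆ A ∧
          Disjoint A (univ.filter fun f => f ≠ e ∧ ¬ Disjoint (S f) (S e)) then (1 : ℝ) else 0) = 0 := by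
        refine sum_eq_zero fun e he => ?_
        rw [if_neg, mul_zero]
        rintro ⟨h1, h2⟩
        apply (mem_filter.1 he).2
        rw [hMx]
        refine mem_filter.2 ⟨h1 (mem_singleton_self e), fun f hf hfe => ?_⟩
        by_contra hd
        exact Finset.disjoint_left.1 h2 hf (mem_filter.2 ⟨mem_univ _, hfe, hd⟩)
      rw [z1, add_zero]
      have z2 : (univ.filter fun e => e ∈ Mx A) = Mx A := by ext; simp
      rw [z2]
      refine sum_congr rfl fun e he => ?_
      rw [if_pos, mul_one]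
      have he' := mem_filter.1 he
      refine ⟨by simpa using he'.1, Finset.disjoint_left.2 fun f hf hf2 => ?_⟩
      have h1 := (mem_filter.1 hf2).2
      exact h1.2 (he'.2 f hf h1.1)
  have hS : ((1 - η) * Real.exp (-γ - γ ^ 2 * δ * k)) * ∑ e, w e * g e ≤
      Ber (fun e => γ * w e) (fun A => ∑ e ∈ Sv A, W e * g e) := by
    rw [ber_family (fun e => γ * w e) (fun e => W e * g e) (fun _ => ∅) (fun e => univ.filter fun f => ¬ Disjoint (S f) (S e))
      (fun e => by simp) (fun A => ∑ e ∈ Sv A, W e * g e) ?_]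
    · rw [mul_sum]
      refine sum_le_sum fun e _ => ?_
      have h1 := prod_ge_exp (univ.filter fun f => ¬ Disjoint (S f) (S e)) (fun f => γ * w f) hq
      have h2 := weight_meet hI e (univ.filter fun f => ¬ Disjoint (S f) (S e))
        (fun f hf => (mem_filter.1 hf).2)
      have h3 : ((S e).card : ℝ) ≤ k := by exact_mod_cast hI.card e
      have h4 : ∑ f with ¬ Disjoint (S f) (S e), (γ * w f) ^ 2 ≤ γ ^ 2 * δ * k := by
        calc ∑ f with ¬ Disjoint (S f) (S e), (γ * w f) ^ 2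
            ≤ ∑ f with ¬ Disjoint (S f) (S e), γ ^ 2 * δ * w f := by
              refine sum_le_sum fun f _ => ?_
              have a1 := hI.le f
              have a2 := hI.nn f
              have : w f * w f ≤ δ * w f := mul_le_mul_of_nonneg_right a1 a2
              have := mul_le_mul_of_nonneg_left this (sq_nonneg γ)
              nlinarith
          _ = γ ^ 2 * δ * ∑ f with ¬ Disjoint (S f) (S e), w f := by rw [mul_sum]
          _ ≤ γ ^ 2 * δ * k := mul_le_mul_of_nonneg_left (h2.trans h3) (by positivity)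
      have h5 : ∑ f with ¬ Disjoint (S f) (S e), γ * w f ≤ γ * (S e).card := by
        rw [← mul_sum]
        exact mul_le_mul_of_nonneg_left h2 hγ.le
      have h6 : Real.exp (-(γ * (S e).card) - γ ^ 2 * δ * k) ≤
          ∏ f with ¬ Disjoint (S f) (S e), (1 - γ * w f) := by
        refine le_trans (Real.exp_le_exp.2 ?_) h1
        linarith
      rw [prod_empty, one_mul]
      have h7 : 0 ≤ W e * g e := mul_nonneg (hW0 e) (hg e).1
      have h8 := mul_le_mul_of_nonneg_left h6 h7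
      refine le_trans (le_of_eq ?_) h8
      have h9 : Real.exp (γ * (((S e).card : ℝ) - 1)) * Real.exp (-(γ * (S e).card) - γ ^ 2 * δ * k) =
          Real.exp (-γ - γ ^ 2 * δ * k) := by
        rw [← Real.exp_add]; congr 1; ring
      calc (1 - η) * Real.exp (-γ - γ ^ 2 * δ * k) * (w e * g e)
          = (1 - η) * (Real.exp (γ * (((S e).card : ℝ) - 1)) * Real.exp (-(γ * (S e).card) - γ ^ 2 * δ * k)) * (w e * g e) := by
            rw [h9]
        _ = W e * g e * Real.exp (-(γ * (S e).card) - γ ^ 2 * δ * k) := by rw [hW]; ring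
    · intro A
      rw [← sum_filter_add_sum_filter_not univ (fun e => e ∈ Sv A)]
      have z1 : ∑ e with e ∉ Sv A, W e * g e * (if (∅ : Finset E) ⊆ A ∧
          Disjoint A (univ.filter fun f => ¬ Disjoint (S f) (S e)) then (1 : ℝ) else 0) = 0 := by
        refine sum_eq_zero fun e he => ?_
        rw [if_neg, mul_zero]
        rintro ⟨h1, h2⟩
        apply (mem_filter.1 he).2
        rw [hSv]
        refine mem_filter.2 ⟨mem_univ _, fun f hf => ?_⟩
        by_contra hd
        exact Finset.disjoint_left.1 h2 hf (mem_filter.2 ⟨mem_univ _, hd⟩)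
      rw [z1, add_zero]
      have z2 : (univ.filter fun e => e ∈ Sv A) = Sv A := by ext; simp
      rw [z2]
      refine sum_congr rfl fun e he => ?_
      rw [if_pos, mul_one]
      have he' := mem_filter.1 he
      refine ⟨empty_subset _, Finset.disjoint_left.2 fun f hf hf2 => ?_⟩
      exact (mem_filter.1 hf2).2 (he'.2 f hf)
  -- the bad part
  have hbad : ∀ A, ∑ e ∈ Sv A, W e * g e ≤ ∑ e ∈ Ex A, W e * g e +
      ∑ v ∈ VS, (Real.exp k / η ^ 2) * (LL S w γ v A - 1) ^ 2 := by
    intro A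
    rw [← sum_filter_add_sum_filter_not (Sv A) (fun e => ∀ v ∈ S e, (1 - η) * LL S w γ v A ≤ 1)]
    refine add_le_add (le_of_eq rfl) ?_
    calc ∑ e ∈ Sv A with ¬ ∀ v ∈ S e, (1 - η) * LL S w γ v A ≤ 1, W e * g e
        ≤ ∑ e ∈ Sv A with ¬ ∀ v ∈ S e, (1 - η) * LL S w γ v A ≤ 1,
            ∑ v ∈ VS, (if v ∈ S e ∧ 1 < (1 - η) * LL S w γ v A then W e else 0) := by
          refine sum_le_sum fun e he => ?_
          have h1 := (mem_filter.1 he).2
          push Not at h1
          obtain ⟨v, hv1, hv2⟩ := h1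
          have h2 : (if v ∈ S e ∧ 1 < (1 - η) * LL S w γ v A then W e else 0) ≤
              ∑ v ∈ VS, (if v ∈ S e ∧ 1 < (1 - η) * LL S w γ v A then W e else 0) :=
            single_le_sum (f := fun v => if v ∈ S e ∧ 1 < (1 - η) * LL S w γ v A then W e else 0)
              (fun u _ => by
                show 0 ≤ (if u ∈ S e ∧ 1 < (1 - η) * LL S w γ u A then W e else 0)
                split_ifs
                · exact hW0 e
                · exact le_rfl) (hI.sub e hv1)
          rw [if_pos ⟨hv1, hv2⟩] at h2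
          refine le_trans ?_ h2
          have := mul_le_mul_of_nonneg_left (hg e).2 (hW0 e)
          linarith
      _ ≤ ∑ e, ∑ v ∈ VS, (if v ∈ S e ∧ 1 < (1 - η) * LL S w γ v A then W e else 0) := by
          refine sum_le_sum_of_subset_of_nonneg (subset_univ _) fun e _ _ => sum_nonneg fun u _ => ?_
          split_ifs
          · exact hW0 e
          · exact le_rfl
      _ = ∑ v ∈ VS, ∑ e, (if v ∈ S e ∧ 1 < (1 - η) * LL S w γ v A then W e else 0) := sum_comm
      _ ≤ ∑ v ∈ VS, (Real.exp k / η ^ 2) * (LL S w γ v A - 1) ^ 2 := by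
          refine sum_le_sum fun v hv => ?_
          by_cases hb : 1 < (1 - η) * LL S w γ v A
          · have h1 : η ≤ LL S w γ v A - 1 := by
              have a1 : 1 < (1 - η) * (LL S w γ v A - 1) + (1 - η) := by linarith
              have a2 : 0 < (1 - η) * (LL S w γ v A - 1) - η := by linarith
              have a3 : 0 < LL S w γ v A - 1 := by
                by_contra hcon
                push Not at hcon
                nlinarith
              nlinarith
            have h2 : 1 ≤ (LL S w γ v A - 1) ^ 2 / η ^ 2 := by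
              rw [le_div_iff₀ (by positivity), one_mul]
              exact pow_le_pow_left₀ hη.le h1 2
            have h3 : ∑ e, (if v ∈ S e ∧ 1 < (1 - η) * LL S w γ v A then W e else 0) ≤ Real.exp k := by
              calc ∑ e, (if v ∈ S e ∧ 1 < (1 - η) * LL S w γ v A then W e else 0)
                  = ∑ e with v ∈ S e, W e := by
                    rw [sum_filter]
                    refine sum_congr rfl fun e _ => ?_
                    by_cases hve : v ∈ S e <;> simp [hve, hb]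
                _ ≤ ∑ e with v ∈ S e, Real.exp k * w e := by
                    refine sum_le_sum fun e _ => ?_
                    have b1 : Real.exp (γ * (((S e).card : ℝ) - 1)) ≤ Real.exp k := by
                      apply Real.exp_le_exp.2
                      have c1 : ((S e).card : ℝ) ≤ k := by exact_mod_cast hI.card e
                      have c2 : (1 : ℝ) ≤ (S e).card := by exact_mod_cast (hI.ne e).card_pos
                      nlinarith
                    have b2 : (1 - η) * w e ≤ w e := by nlinarith [(hw e).1]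
                    have b3 : 0 ≤ (1 - η) * w e := mul_nonneg hη2.le (hw e).1
                    calc W e = (1 - η) * w e * Real.exp (γ * (((S e).card : ℝ) - 1)) := rfl
                      _ ≤ w e * Real.exp k := mul_le_mul b2 b1 (Real.exp_pos _).le (hw e).1
                      _ = Real.exp k * w e := mul_comm _ _
                _ = Real.exp k * ∑ e with v ∈ S e, w e := by rw [mul_sum]
                _ = Real.exp k := by rw [hfull v hv, mul_one]
            calc ∑ e, (if v ∈ S e ∧ 1 < (1 - η) * LL S w γ v A then W e else 0) ≤ Real.exp k := h3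
              _ = Real.exp k * 1 := (mul_one _).symm
              _ ≤ Real.exp k * ((LL S w γ v A - 1) ^ 2 / η ^ 2) := mul_le_mul_of_nonneg_left h2 (Real.exp_pos _).le
              _ = (Real.exp k / η ^ 2) * (LL S w γ v A - 1) ^ 2 := by ring
          · rw [sum_eq_zero]
            · positivity
            · intro e _
              rw [if_neg]
              rintro ⟨_, h⟩
              exact hb h
  -- the expectation
  set F : Finset E → ℝ := fun A => ∑ e ∈ Mx A, g e + lam * ∑ e ∈ Ex A, W e * g e with hF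
  have hlow : ∀ A, (∑ e ∈ Mx A, g e + lam * ∑ e ∈ Sv A, W e * g e) +
      (-1) * ∑ v ∈ VS, (Real.exp k / η ^ 2) * (LL S w γ v A - 1) ^ 2 ≤ F A := by
    intro A
    have h1 := mul_le_mul_of_nonneg_left (hbad A) hl0
    have h2 : 0 ≤ ∑ v ∈ VS, (Real.exp k / η ^ 2) * (LL S w γ v A - 1) ^ 2 :=
      sum_nonneg fun v _ => by positivity
    have h3 : lam * ∑ v ∈ VS, (Real.exp k / η ^ 2) * (LL S w γ v A - 1) ^ 2 ≤
        ∑ v ∈ VS, (Real.exp k / η ^ 2) * (LL S w γ v A - 1) ^ 2 := by nlinarith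
    show _ ≤ ∑ e ∈ Mx A, g e + lam * ∑ e ∈ Ex A, W e * g e
    linarith
  have hBer : Ber (fun e => γ * w e) (fun A => (∑ e ∈ Mx A, g e + lam * ∑ e ∈ Sv A, W e * g e) +
      (-1) * ∑ v ∈ VS, (Real.exp k / η ^ 2) * (LL S w γ v A - 1) ^ 2) ≤ Ber (fun e => γ * w e) F :=
    ber_mono _ hq1 _ _ hlow
  rw [ber_add (fun e => γ * w e) (fun A => ∑ e ∈ Mx A, g e + lam * ∑ e ∈ Sv A, W e * g e)
      (fun A => (-1) * ∑ v ∈ VS, (Real.exp k / η ^ 2) * (LL S w γ v A - 1) ^ 2),
    ber_add (fun e => γ * w e) (fun A => ∑ e ∈ Mx A, g e) (fun A => lam * ∑ e ∈ Sv A, W e * g e),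
    ber_mul, ber_mul, ber_sum] at hBer
  have hsec : ∑ v ∈ VS, Ber (fun e => γ * w e) (fun A => (Real.exp k / η ^ 2) * (LL S w γ v A - 1) ^ 2) ≤
      Real.exp k * (C * δ / η ^ 2) * VS.card := by
    calc ∑ v ∈ VS, Ber (fun e => γ * w e) (fun A => (Real.exp k / η ^ 2) * (LL S w γ v A - 1) ^ 2)
        ≤ ∑ v ∈ VS, Real.exp k * (C * δ / η ^ 2) := by
          refine sum_le_sum fun v hv => ?_
          rw [ber_mul]
          have h1 := nb_second hI hfull hγ hγ1 hδ0 hδ hδ2 hv
          have h2 : 0 ≤ Real.exp k / η ^ 2 := by positivity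
          have h3 := mul_le_mul_of_nonneg_left h1 h2
          refine h3.trans (le_of_eq ?_)
          rw [hC]; ring
      _ = Real.exp k * (C * δ / η ^ 2) * VS.card := by rw [sum_const, nsmul_eq_mul]; ring
  obtain ⟨A, hA⟩ := ber_exists (fun e => γ * w e) hq1 F
  refine ⟨Mx A, Ex A, ?_, ?_, ?_, ?_⟩
  · intro e he f hf hef
    exact (mem_filter.1 hf).2 e (mem_filter.1 he).1 hef
  · intro e he f hf
    have h1 := (mem_filter.1 hf).1
    exact (mem_filter.1 h1).2 e (mem_filter.1 he).1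
  · intro v hv
    by_cases hne : ∃ e ∈ Ex A, v ∈ S e
    · obtain ⟨e, he, hve⟩ := hne
      have hgood := (mem_filter.1 he).2 v hve
      refine le_trans ?_ hgood
      rw [LL, mul_sum]
      refine le_trans ?_ (sum_le_sum_of_subset_of_nonneg
        (s := (Ex A).filter fun e => v ∈ S e) (t := univ.filter fun e => v ∈ S e) ?_ ?_)
      · refine sum_le_sum fun e he => ?_
        have h1 := (mem_filter.1 (mem_filter.1 (mem_filter.1 he).1).1).2
        rw [if_pos (fun f hf _ => h1 f hf), mul_one]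
        exact le_of_eq (by ring)
      · exact filter_subset_filter _ (subset_univ _)
      · intro e _ _
        refine mul_nonneg hη2.le (mul_nonneg (mul_nonneg (hw e).1 (Real.exp_pos _).le) ?_)
        split_ifs <;> norm_num
    · rw [sum_eq_zero]
      · norm_num
      · intro e he
        exact absurd ⟨e, (mem_filter.1 he).1, (mem_filter.1 he).2⟩ hne
  · refine le_trans ?_ hA
    have h1 := mul_le_mul_of_nonneg_left hS hl0
    have e1 : (γ * (1 - γ * k) + lam * (1 - η) * Real.exp (-γ - γ ^ 2 * δ * k)) * ∑ e, w e * g e =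
        (γ * (1 - γ * k)) * ∑ e, w e * g e + lam * (((1 - η) * Real.exp (-γ - γ ^ 2 * δ * k)) * ∑ e, w e * g e) := by ring
    rw [e1]
    linarith

end Pool.Agent.SEM
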