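import Mathlib

/-!
# SEM-RB1: first expansion for the robustly matchable bipartite graph

Proof in words: count functions `F : Fin (3m) × Fin 30 → Fin (2m)` (all `(2m)^(90m)` of them), `F i` = set of the 30 values.
If the conclusion fails for `F`, there are `A` with `|A| = a ≥ 1`, `2a ≤ 3m` and `B ⊆ Fin (2m)` with `|B| = a` and all values
`F(i,j)`, `i ∈ A`, in `B`.  For given `A, B` the fraction of such functions is `(a/2m)^(30a)`.  Union bound:
`∑_{a ≥ 1} C(3m,a) C(2m,a) (a/2m)^(30a) ≤ ∑_a [ (3e m/a)(2e m/a) (a/2m)^30 ]^a = ∑_a [ (3e²/2) (a/2m)^28 ]^a ≤ ∑_a (1/4)^a < 1`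
since `a/2m ≤ 3/4` and `(3e²/2) (3/4)^28 < 0.004` (`C(N,a) ≤ (eN/a)^a`).
-/

set_option autoImplicit false

namespace Pool.Agent.SEM

open Finset

/-- `a^a ≤ 3^a a!` -/
theorem h28_pow_self_le (a : ℕ) : (a : ℝ) ^ a ≤ 3 ^ a * (a.factorial : ℝ) := by
  induction a with
  | zero => simp
  | succ a ih =>
    rcases Nat.eq_zero_or_pos a with h0 | h0
    · subst h0; norm_num
    have ha : (0 : ℝ) < a := by exact_mod_cast h0
    have h1 : ((a : ℝ) + 1) ^ a ≤ 3 * (a : ℝ) ^ a := by
      have h2 : (1 + 1 / (a : ℝ)) ^ a ≤ 3 := by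
        have h3 : 1 + 1 / (a : ℝ) ≤ Real.exp (1 / (a : ℝ)) := by
          have := Real.add_one_le_exp (1 / (a : ℝ)); linarith
        have h4 : (1 + 1 / (a : ℝ)) ^ a ≤ Real.exp (1 / (a : ℝ)) ^ a :=
          pow_le_pow_left₀ (by positivity) h3 a
        have h5 : Real.exp (1 / (a : ℝ)) ^ a = Real.exp 1 := by
          rw [← Real.exp_nat_mul]; congr 1; field_simp
        have h6 : Real.exp 1 < 3 := lt_trans Real.exp_one_lt_d9 (by norm_num)
        linarith
      have h7 : ((a : ℝ) + 1) ^ a = (1 + 1 / (a : ℝ)) ^ a * (a : ℝ) ^ a := by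
        rw [← mul_pow]; congr 1; field_simp; 
      rw [h7]
      exact mul_le_mul_of_nonneg_right h2 (by positivity)
    calc ((a + 1 : ℕ) : ℝ) ^ (a + 1) = ((a : ℝ) + 1) ^ a * ((a : ℝ) + 1) := by
          push_cast; rw [pow_succ]
      _ ≤ (3 * (a : ℝ) ^ a) * ((a : ℝ) + 1) := by
          apply mul_le_mul_of_nonneg_right h1 (by positivity)
      _ ≤ (3 * (3 ^ a * (a.factorial : ℝ))) * ((a : ℝ) + 1) := by
          apply mul_le_mul_of_nonneg_right _ (by positivity)
          apply mul_le_mul_of_nonneg_left ih (by norm_num)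
      _ = 3 ^ (a + 1) * ((a + 1).factorial : ℝ) := by
          rw [Nat.factorial_succ]; push_cast; ring

/-- the union bound term -/
theorem h28_term_le (m a : ℕ) (hm : 1 ≤ m) (ha : 1 ≤ a) (ha2 : 2 * a ≤ 3 * m) :
    ((3 * m).choose a : ℝ) * ((2 * m).choose a : ℝ) * ((a : ℝ) / (2 * m)) ^ (30 * a) ≤
      (1 / 4) ^ a := by
  have hm0 : (0 : ℝ) < m := by exact_mod_cast hm
  have ha0 : (0 : ℝ) < a := by exact_mod_cast ha
  have hfac : (0 : ℝ) < (a.factorial : ℝ) := by exact_mod_cast Nat.factorial_pos a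
  have h1 : ((3 * m).choose a : ℝ) ≤ (3 * m : ℝ) ^ a / (a.factorial : ℝ) := by
    have := Nat.choose_le_pow_div (α := ℝ) a (3 * m)
    push_cast at this; exact this
  have h2 : ((2 * m).choose a : ℝ) ≤ (2 * m : ℝ) ^ a / (a.factorial : ℝ) := by
    have := Nat.choose_le_pow_div (α := ℝ) a (2 * m)
    push_cast at this; exact this
  have h3 : 1 / (a.factorial : ℝ) ≤ 3 ^ a / (a : ℝ) ^ a := by
    rw [div_le_div_iff₀ hfac (by positivity)]
    linarith [h28_pow_self_le a]
  have h4 : ((3 * m).choose a : ℝ) ≤ (3 * m : ℝ) ^ a * (3 ^ a / (a : ℝ) ^ a) := by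
    refine h1.trans ?_
    rw [div_eq_mul_one_div]
    exact mul_le_mul_of_nonneg_left h3 (by positivity)
  have h5 : ((2 * m).choose a : ℝ) ≤ (2 * m : ℝ) ^ a * (3 ^ a / (a : ℝ) ^ a) := by
    refine h2.trans ?_
    rw [div_eq_mul_one_div]
    exact mul_le_mul_of_nonneg_left h3 (by positivity)
  have h6 : ((3 * m).choose a : ℝ) * ((2 * m).choose a : ℝ) ≤
      (3 * m : ℝ) ^ a * (3 ^ a / (a : ℝ) ^ a) * ((2 * m : ℝ) ^ a * (3 ^ a / (a : ℝ) ^ a)) :=
    mul_le_mul h4 h5 (by positivity) (by positivity)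
  have h7 : (3 * m : ℝ) ^ a * (3 ^ a / (a : ℝ) ^ a) * ((2 * m : ℝ) ^ a * (3 ^ a / (a : ℝ) ^ a)) *
      ((a : ℝ) / (2 * m)) ^ (30 * a) = ((27 / 2) * ((a : ℝ) / (2 * m)) ^ 28) ^ a := by
    rw [pow_mul, ← div_pow, ← mul_pow, ← mul_pow, ← mul_pow, ← mul_pow]
    congr 1
    field_simp
    ring
  have h8 : (27 / 2) * ((a : ℝ) / (2 * m)) ^ 28 ≤ 1 / 4 := by
    have h9 : (a : ℝ) / (2 * m) ≤ 3 / 4 := by
      rw [div_le_div_iff₀ (by positivity) (by norm_num)]
      have : (2 * a : ℝ) ≤ 3 * m := by exact_mod_cast ha2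
      linarith
    have h10 : ((a : ℝ) / (2 * m)) ^ 28 ≤ (3 / 4 : ℝ) ^ 28 :=
      pow_le_pow_left₀ (by positivity) h9 28
    have h11 : (27 / 2 : ℝ) * (3 / 4) ^ 28 ≤ 1 / 4 := by norm_num
    linarith
  calc ((3 * m).choose a : ℝ) * ((2 * m).choose a : ℝ) * ((a : ℝ) / (2 * m)) ^ (30 * a)
      ≤ (3 * m : ℝ) ^ a * (3 ^ a / (a : ℝ) ^ a) * ((2 * m : ℝ) ^ a * (3 ^ a / (a : ℝ) ^ a)) *
      ((a : ℝ) / (2 * m)) ^ (30 * a) := mul_le_mul_of_nonneg_right h6 (by positivity)
    _ = ((27 / 2) * ((a : ℝ) / (2 * m)) ^ 28) ^ a := h7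
    _ ≤ (1 / 4) ^ a := pow_le_pow_left₀ (by positivity) h8 a

theorem h28_card_fun (m : ℕ) (A : Finset (Fin (3 * m))) (B : Finset (Fin (2 * m))) :
    (Fintype.piFinset (fun i : Fin (3 * m) => Fintype.piFinset
      (fun _ : Fin 30 => if i ∈ A then B else (univ : Finset (Fin (2 * m)))))).card =
      B.card ^ (30 * A.card) * (2 * m) ^ (30 * (3 * m - A.card)) := by
  rw [Fintype.card_piFinset]
  have h1 : ∀ i : Fin (3 * m), (Fintype.piFinset
      (fun _ : Fin 30 => if i ∈ A then B else (univ : Finset (Fin (2 * m))))).card =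
      if i ∈ A then B.card ^ 30 else (2 * m) ^ 30 := by
    intro i
    rw [Fintype.card_piFinset]
    split_ifs with h
    · simp
    · simp
  rw [Finset.prod_congr rfl (fun i _ => h1 i), Finset.prod_ite]
  simp only [prod_const]
  have h2 : (univ.filter fun i => i ∈ A) = A := by ext; simp
  have h3 : (univ.filter fun i => i ∉ A).card = 3 * m - A.card := by
    rw [← Finset.compl_filter, h2, Finset.card_compl, Fintype.card_fin]
  rw [h2, h3, ← pow_mul, ← pow_mul]

theorem rb_first (m : ℕ) (hm : 1 ≤ m) :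
    ∃ F : Fin (3 * m) → Finset (Fin (2 * m)), (∀ i, (F i).card ≤ 30) ∧
      ∀ A : Finset (Fin (3 * m)), 2 * A.card ≤ 3 * m → A.card ≤ (A.biUnion F).card := by
  classical
  by_contra hcon
  push Not at hcon
  -- every function is bad
  have hbad : ∀ G : Fin (3 * m) → Fin 30 → Fin (2 * m), ∃ A : Finset (Fin (3 * m)),
      ∃ B : Finset (Fin (2 * m)), 1 ≤ A.card ∧ 2 * A.card ≤ 3 * m ∧ B.card = A.card ∧
      G ∈ Fintype.piFinset (fun i : Fin (3 * m) => Fintype.piFinset
      (fun _ : Fin 30 => if i ∈ A then B else (univ : Finset (Fin (2 * m))))) := by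
    intro G
    obtain ⟨A, hA, hlt⟩ := hcon (fun i => univ.image (G i)) (fun i => by
      refine card_image_le.trans ?_
      simp)
    have h1 : 1 ≤ A.card := by
      by_contra h; have : A.card = 0 := by omega
      omega
    obtain ⟨B, hB1, hB2⟩ := Finset.exists_superset_card_eq
      (s := A.biUnion fun i => univ.image (G i)) (n := A.card) (by omega)
      (by rw [Fintype.card_fin]; omega)
    refine ⟨A, B, h1, hA, hB2, ?_⟩
    rw [Fintype.mem_piFinset]
    intro i
    rw [Fintype.mem_piFinset]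
    intro j
    split_ifs with h
    · apply hB1
      rw [mem_biUnion]
      exact ⟨i, h, mem_image_of_mem _ (mem_univ j)⟩
    · exact mem_univ _
  -- union bound
  have hcard : (univ : Finset (Fin (3 * m) → Fin 30 → Fin (2 * m))).card ≤
      ∑ a ∈ Icc 1 (3 * m / 2), ∑ A ∈ powersetCard a (univ : Finset (Fin (3 * m))),
        ∑ B ∈ powersetCard a (univ : Finset (Fin (2 * m))),
        (Fintype.piFinset (fun i : Fin (3 * m) => Fintype.piFinset
      (fun _ : Fin 30 => if i ∈ A then B else (univ : Finset (Fin (2 * m)))))).card := by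
    calc (univ : Finset (Fin (3 * m) → Fin 30 → Fin (2 * m))).card
        ≤ ((Icc 1 (3 * m / 2)).biUnion fun a =>
            (powersetCard a (univ : Finset (Fin (3 * m)))).biUnion fun A =>
            (powersetCard a (univ : Finset (Fin (2 * m)))).biUnion fun B =>
            (Fintype.piFinset (fun i : Fin (3 * m) => Fintype.piFinset
      (fun _ : Fin 30 => if i ∈ A then B else (univ : Finset (Fin (2 * m))))))).card := by
          apply card_le_card
          intro G _
          obtain ⟨A, B, h1, h2, h3, h4⟩ := hbad G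
          simp only [mem_biUnion]
          refine ⟨A.card, ?_, A, ?_, B, ?_, h4⟩
          · rw [mem_Icc]; omega
          · rw [mem_powersetCard]; exact ⟨subset_univ _, rfl⟩
          · rw [mem_powersetCard]; exact ⟨subset_univ _, h3⟩
      _ ≤ _ := by
          refine card_biUnion_le.trans (sum_le_sum fun a _ => ?_)
          refine card_biUnion_le.trans (sum_le_sum fun A _ => ?_)
          exact card_biUnion_le
  have hN : (univ : Finset (Fin (3 * m) → Fin 30 → Fin (2 * m))).card = (2 * m) ^ (90 * m) := by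
    rw [card_univ, Fintype.card_fun, Fintype.card_fun, Fintype.card_fin, Fintype.card_fin,
      Fintype.card_fin, ← pow_mul]
    congr 1; ring
  have hreal : ((2 * m : ℝ)) ^ (90 * m) ≤ ∑ a ∈ Icc 1 (3 * m / 2),
      ((3 * m).choose a : ℝ) * ((2 * m).choose a : ℝ) *
        ((a : ℝ) ^ (30 * a) * (2 * m : ℝ) ^ (30 * (3 * m - a))) := by
    have h1 : ((univ : Finset (Fin (3 * m) → Fin 30 → Fin (2 * m))).card : ℝ) ≤ _ :=
      Nat.cast_le.mpr hcard
    rw [hN] at h1
    push_cast at h1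
    refine h1.trans (sum_le_sum fun a ha => ?_)
    rw [mem_Icc] at ha
    have h2 : ∀ A ∈ powersetCard a (univ : Finset (Fin (3 * m))),
        ∑ B ∈ powersetCard a (univ : Finset (Fin (2 * m))),
        ((Fintype.piFinset (fun i : Fin (3 * m) => Fintype.piFinset
      (fun _ : Fin 30 => if i ∈ A then B else (univ : Finset (Fin (2 * m)))))).card : ℝ) =
        ((2 * m).choose a : ℝ) * ((a : ℝ) ^ (30 * a) * (2 * m : ℝ) ^ (30 * (3 * m - a))) := by
      intro A hA
      rw [mem_powersetCard] at hA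
      have h3 : ∀ B ∈ powersetCard a (univ : Finset (Fin (2 * m))),
          ((Fintype.piFinset (fun i : Fin (3 * m) => Fintype.piFinset
      (fun _ : Fin 30 => if i ∈ A then B else (univ : Finset (Fin (2 * m)))))).card : ℝ) =
          ((a : ℝ) ^ (30 * a) * (2 * m : ℝ) ^ (30 * (3 * m - a))) := by
        intro B hB
        rw [mem_powersetCard] at hB
        rw [h28_card_fun, hA.2, hB.2]
        push_cast; ring
      rw [sum_congr rfl h3, sum_const, card_powersetCard, card_univ, Fintype.card_fin, nsmul_eq_mul]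
    rw [sum_congr rfl h2, sum_const, card_powersetCard, card_univ, Fintype.card_fin, nsmul_eq_mul]
    rw [mul_assoc]
  have hm0 : (0 : ℝ) < m := by exact_mod_cast hm
  have hpos : (0 : ℝ) < (2 * m : ℝ) ^ (90 * m) := by positivity
  have h1 : ∑ a ∈ Icc 1 (3 * m / 2),
      ((3 * m).choose a : ℝ) * ((2 * m).choose a : ℝ) *
        ((a : ℝ) ^ (30 * a) * (2 * m : ℝ) ^ (30 * (3 * m - a))) ≤
      ∑ a ∈ Icc 1 (3 * m / 2), (1 / 4 : ℝ) ^ a * (2 * m : ℝ) ^ (90 * m) := by
    refine sum_le_sum fun a ha => ?_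
    rw [mem_Icc] at ha
    have h2 := h28_term_le m a hm ha.1 (by omega)
    have h3 : (a : ℝ) ^ (30 * a) * (2 * m : ℝ) ^ (30 * (3 * m - a)) =
        ((a : ℝ) / (2 * m)) ^ (30 * a) * (2 * m : ℝ) ^ (90 * m) := by
      rw [div_pow, div_mul_eq_mul_div, eq_div_iff (by positivity), mul_assoc, ← pow_add]
      congr 2; omega
    rw [h3, ← mul_assoc]
    exact mul_le_mul_of_nonneg_right h2 hpos.le
  rw [← sum_mul] at h1
  have h2 : ∑ a ∈ Icc 1 (3 * m / 2), (1 / 4 : ℝ) ^ a < 1 := by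
    have h3 : ∀ N : ℕ, ∑ a ∈ Icc 1 N, (1 / 4 : ℝ) ^ a ≤ 1 / 3 * (1 - (1 / 4) ^ N) := by
      intro N
      induction N with
      | zero => simp
      | succ N ih =>
        rw [Finset.sum_Icc_succ_top (by omega)]
        rw [pow_succ]
        nlinarith [ih]
    have h4 := h3 (3 * m / 2)
    have h5 : (0 : ℝ) < (1 / 4) ^ (3 * m / 2) := by positivity
    linarith
  have h3 : (∑ a ∈ Icc 1 (3 * m / 2), (1 / 4 : ℝ) ^ a) * (2 * m : ℝ) ^ (90 * m) <
      1 * (2 * m : ℝ) ^ (90 * m) := mul_lt_mul_of_pos_right h2 hpos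
  linarith

end Pool.Agent.SEM
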